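import Pool.Agent.MP_528dc0_co.Eng

/-!
# The kernel check of the enumeration

Graphs with `n ≤ 8` vertices are edge masks (the edge `a < b` is bit `b (b - 1) / 2 + a`). A table entry
(56 bits) is `H + 2^28 K`. A cover entry is `c + 4096 t`: table index `c`, permutation `t` (3 bits per vertex).
-/

set_option autoImplicit false
set_option linter.unusedVariables false
noncomputable section
namespace Pool.Agent.MP_528dc0_co.Cv

open Eng (adjn sumN orN andB nthN T3)

/-- force the evaluation of a natural number -/
def frcN (n : Nat) (f : Nat → Nat) : Nat := Nat.rec (motive := fun _ => Nat) (f 0) (fun m _ => f m) (Nat.add n 1)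
/-- position of the edge `xy` (`x ≠ y`), 5 bits for every pair -/
def IX : Nat := 58067285446209822181094452898617946020397586168094191856322372258989066490659194666521601344512
/-- the pairs in the order of their positions: `3 a + 32 * (3 b)`, `a < b` -/
def PL : List Nat := [96, 192, 195, 288, 291, 294, 384, 387, 390, 393, 480, 483, 486, 489, 492, 576, 579, 582, 585, 588, 591, 672, 675, 678, 681, 684, 687, 690]
/-- pull back: the edge `ab` of the result is the edge `t a, t b`; both halves (`H` and `K`) at once -/
def prm (t hk : Nat) : Nat :=
  List.rec (motive := fun _ => Nat) 0 (fun p _ ih => Nat.add (Nat.mul 2 ih)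
    (Nat.land (Nat.shiftRight hk (Nat.land (Nat.shiftRight IX (Nat.mul 5 (Nat.add
      (Nat.mul 8 (Nat.land (Nat.shiftRight t (Nat.land p 31)) 7))
      (Nat.land (Nat.shiftRight t (Nat.shiftRight p 5)) 7)))) 31)) 268435457)) PL
/-- all sets -/
def FULL : Nat := 115792089237316195423570985008687907853269984665640564039457584007913129639935
/-- OR over the vertices of `2 ^ (t a)` -/
def ps (t : Nat) : Nat := orN (fun a => Nat.shiftLeft 1 (Nat.land (Nat.shiftRight t (Nat.mul 3 a)) 7)) 8
/-- the tables `Eng.XX 0`, …, `Eng.XX 7` -/
def XA : List Nat := [77194726158210796949047323339125271902179989777093709359638389338608753093290, 92633671389852956338856788006950326282615987732512451231566067206330503711948, 108980789870415242751596221184647442685430573802955824978313020242741769072880, 115341536360906404779899502576747487978354537254490211650198994186870666100480, 115790322417210952336529717160220497262186272106556906860092653394915770695680, 115792089210356248762697446947946071893095522863849111501270640965525260206080, 115792089237316195417293883273301227089774477609353836086800156426807153786880, 115792089237316195423570985008687907852929702298719625575994209400481361428480]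
/-- the first `n` elements -/
def tk (n : Nat) : List Nat → List Nat :=
  Nat.rec (motive := fun _ => List Nat → List Nat) (fun _ => [])
    (fun _ ih l => List.rec (motive := fun _ => List Nat) [] (fun x xs _ => List.cons x (ih xs)) l) n
/-- the table (bit `m` for the set `m`) of the sets between `A` and `B`; `l` = the tables `XX 0`, … -/
def ivt (l : List Nat) : Nat → Nat → Nat :=
  List.rec (motive := fun _ => Nat → Nat → Nat) (fun _ _ => FULL) (fun x _ ih A B =>
    Nat.land (ih (Nat.shiftRight A 1) (Nat.shiftRight B 1))
      (Nat.land (Nat.lor (Nat.mul (Nat.sub 1 (Nat.land A 1)) FULL) x)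
        (Nat.lor (Nat.mul (Nat.land B 1) FULL) (Nat.sub FULL x)))) l
/-- bit `m` is set iff the set `m` has at least `k` elements, `k = 0, …, 9` -/
def PG : List Nat := [115792089237316195423570985008687907853269984665640564039457584007913129639935, 115792089237316195423570985008687907853269984665640564039457584007913129639934, 115792089237316195423570985008687907852929702298719625575975762656403356843752, 115792089237316195417293883271839703056419313422585010572052431590507351173248, 115792089210355835628969534550889936025685071716217779143061867514880864583680, 115790314868311485204546074844704504468768839049718982861286854017993932800000, 115298976739689190124078382650476590315951553443961280184380626200088956370944, 105163620732621797825676529657995729446907606515868152847930213170537081864192, 57896044618658097711785492504343953926634992332820282019728792003956564819968, 0]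
/-- `L = n (n - 1) / 2`; the extensions `N` of `g` by the vertex `n` with `H ≤ t (g + N) ≤ K` -/
def entT (n L g TAB len : Nat) (xs : List Nat) (e : Nat) : Nat :=
  frcN (Nat.land e 4095) (fun c =>
  frcN (Nat.shiftRight e 12) (fun t =>
  frcN (prm t (Nat.land (Nat.shiftRight TAB (Nat.mul 56 c)) 72057594037927935)) (fun r =>
  frcN (Nat.land r 268435455) (fun H =>
  frcN (Nat.shiftRight r 28) (fun K =>
  Bool.rec (motive := fun _ => Nat) 0 (ivt xs (Nat.shiftRight H L) (Nat.shiftRight K L))
    (andB (Nat.ble (Nat.add c 1) len) (andB (Nat.beq (ps t) 255)
    (andB (Nat.beq (Nat.shiftRight t (Nat.mul 3 (Nat.add n 1))) (Nat.shiftRight 16434824 (Nat.mul 3 (Nat.add n 1))))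
    (andB (Nat.beq (Nat.land H (Nat.land g (Nat.sub (Nat.shiftLeft 1 L) 1))) (Nat.land H (Nat.sub (Nat.shiftLeft 1 L) 1)))
    (andB (Nat.beq (Nat.land g K) g) (Nat.beq (Nat.shiftRight H (Nat.add L n)) 0)))))))))))
/-- degree of `u` in the graph `g` with `n` vertices -/
def dg (n g u : Nat) : Nat := sumN (fun v => adjn g v u) n
/-- the extensions for which the vertex `n` does not have minimal degree -/
def bad (n g : Nat) (xs : List Nat) : Nat :=
  orN (fun u => frcN (dg n g u) (fun d => Nat.lor (nthN PG (Nat.add d 2))
    (Nat.land (nthN PG (Nat.add d 1)) (Nat.sub FULL (nthN xs u))))) n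
/-- every extension of `g` by one vertex is covered, contains a `K₄` (if `kf = 1`), or the new vertex does
not have minimal degree -/
def chkG (kf n L TAB len : Nat) (xs : List Nat) (g : Nat) (es : List Nat) : Bool :=
  Nat.beq (Nat.land (Nat.lor (Nat.lor (List.rec (motive := fun _ => Nat) 0 (fun e _ ih => Nat.lor ih (entT n L g TAB len xs e)) es)
    (Nat.mul kf (T3 g))) (bad n g xs)) (Nat.sub (Nat.shiftLeft 1 (Nat.shiftLeft 1 n)) 1))
    (Nat.sub (Nat.shiftLeft 1 (Nat.shiftLeft 1 n)) 1)
/-- all graphs of the list -/
def chkL (kf n L TAB len : Nat) (xs : List Nat) (l : List (Nat × List Nat)) : Bool :=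
  List.rec (motive := fun _ => Bool) true (fun p _ ih =>
    Prod.rec (motive := fun _ => Bool) (fun g es => andB (chkG kf n L TAB len xs g es) ih) p) l

end Pool.Agent.MP_528dc0_co.Cv
end
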