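import Pool.Agent.MP_528dc0_co.Eng

/-! Certificates (generated data, checked by the kernel). -/

set_option maxRecDepth 100000
set_option linter.defProp false

namespace Pool.Agent.MP_528dc0_co.Dat

def DC6_0 : Eng.chk 0 0 0 0 11 12 68 30 9 [
    3933460, 3474756, 3473812, 3211520, 3213456, 2819328, 2819156, 2687300, 2686980, 2687312,
    2688336, 2688004, 2555988, 2424868, 2360336, 2031696, 1900864, 1836032, 1835284, 1703936,
    1442884, 1443088, 1441860, 1115748, 1115712, 1115280, 1049920, 1049620, 853252, 327940,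
    263588, 131412, 131344] = true := by
  decide +kernel

def DC6_1 : Eng.chk 0 0 16384 16384 11 10 56 30 9 [
    5374976, 4784448, 4260868, 3670292, 3540052, 2883844, 2557008, 2425408, 2361360, 2359844,
    2229860, 1836048, 1835348, 1312340, 1245508, 1179920, 1181252, 1181264, 1180308, 1180240,
    1181764, 1115280, 656452, 67108] = true := by
  decide +kernel

def DC6_2 : Eng.chk 0 0 24576 24576 11 10 57 30 9 [
    10355712, 5506580, 5177668, 4063808, 3735952, 3737700, 3015684, 2949456, 2818468, 2163732,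
    1837136, 1835412, 918692, 852580, 787472, 721476, 591376, 459348, 394756] = true := by
  decide +kernel

def DC6_3 : Eng.chk 0 0 28672 28672 10 6 27 30 9 [
    5047296, 2294356, 2294820, 2294116, 2294164, 2295300, 2294916, 1442192, 1442384, 1442448,
    854032, 854272, 854080] = true := by
  decide +kernel

def DC6_4 : Eng.chk 0 0 30720 30720 11 14 53 30 9 [
    6621200, 6621188, 6621248, 6621440, 4784548, 3932820, 3932772, 2819072, 2491044, 1770340,
    1770388, 1573268, 1573220, 721492] = true := by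
  decide +kernel

def DC6_5 : Eng.chk 0 0 31744 31744 10 12 38 30 9 [
    3539968, 3344452, 3278928, 3213588, 3213632, 2820356, 2820432, 2754580, 2623572, 2558276,
    2296080, 1511076, 1443856, 1181952, 789652, 527908, 462228, 462212] = true := by
  decide +kernel

def DC6_6 : Eng.chk 0 0 25088 25088 10 5 34 30 9 [
    4589824, 3670592, 3474576, 3278916, 2623012, 1837136, 1835412, 1442180, 1443332, 852368,
    787028] = true := by
  decide +kernel

def DC6_7 : Eng.chk 0 0 20992 20992 11 12 56 30 9 [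
    5702724, 5701908, 5636624, 5179456, 4392100, 4194900, 4064320, 3604752, 3211684, 3213568,
    3016196, 3016784, 1181956] = true := by
  decide +kernel

def DC6_8 : Eng.chk 0 0 29184 29184 10 5 34 30 9 [
    4981328, 4196612, 4000000, 3671172, 2883988, 2558020, 1247316, 1117328, 721508, 395540] = true := by
  decide +kernel

def DC6_9 : Eng.chk 0 0 31232 31232 10 6 33 30 9 [
    7997696, 5964180, 5244996, 2885712, 2687396, 658960, 460884] = true := by
  decide +kernel

def DC6_10 : Eng.chk 0 0 32256 32256 10 10 25 30 9 [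
    6359296, 4589844, 4130896, 4130884, 1445284, 1379428, 1050688, 1052196, 658832, 396676,
    331364, 198916, 199828] = true := by
  decide +kernel

def DC6_11 : Eng.chk 0 0 13056 13056 10 5 31 30 9 [
    5572864, 5177488, 2162772, 2165908, 2163108, 2032932, 2034244, 2033156, 526864, 393808,
    393296, 396432, 395840, 66820, 67460] = true := by
  decide +kernel

def DC6_12 : Eng.chk 0 0 29440 29440 9 4 16 30 9 [
    3606784, 1836196, 1576080, 1049060, 983952, 787024, 721316, 527508, 525156, 462212, 460580,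
    198736] = true := by
  decide +kernel

def DC6_13 : Eng.chk 0 0 27392 27392 9 3 17 30 9 [
    3803392, 3015824, 2490948, 1835428, 919636, 526596, 265360, 67664] = true := by
  decide +kernel

def DC6_14 : Eng.chk 0 0 31488 31488 9 2 8 30 9 [
    1837312, 1445008, 787028, 524772, 524708, 460884, 197476, 134672, 134720, 68708, 69140, 68996] = true := by
  decide +kernel

def DC6_15 : Eng.chk 0 0 3840 3840 11 10 63 30 9 [
    8324352, 6292560, 3868964, 3475844, 2754708, 2492560, 2492580, 2491536, 2426980, 2164992,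
    2034244, 1968704, 1968656, 1968724, 1968644, 1706516, 1378724, 1050708, 1050192] = true := by
  decide +kernel

def DC6_16 : Eng.chk 0 0 20224 20224 11 14 55 30 9 [
    15665408, 5047376, 4917636, 4917348, 4917540, 4917396, 3082468, 3082384, 3082660, 591956,
    592132, 591424, 591376] = true := by
  decide +kernel

def DC6_17 : Eng.chk 0 0 32512 32512 9 6 14 30 9 [
    2295892, 2296068, 2296064, 2297364, 2034832, 1642052] = true := by
  decide +kernel

def DC6_18 : Eng.chk 0 0 28800 28800 11 17 68 30 9 [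
    9439252, 9439488, 9111620, 9110100, 9110532, 8847760, 6619792, 3080528, 263300, 262756] = true := by
  decide +kernel

def DC6_19 : Eng.chk 0 0 15232 15232 10 12 41 30 9 [
    6357140, 5243044, 5245184, 3673616, 3673664, 3670884, 3672580, 3212544, 2624612, 1051812,
    524372] = true := by
  decide +kernel

def DC6_20 : Eng.chk 0 0 31616 31616 10 14 27 30 9 [
    7145728, 4918436, 3998612, 3146596, 2165860, 1313940, 918100, 659008, 658948, 658960, 394148] = true := by
  decide +kernel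

def DC6_21 : Eng.chk 0 0 14208 14208 10 11 44 30 9 [
    7473680, 6293588, 6161572, 4719872, 3606404, 2690624, 2688516, 2622692, 1313348, 1313300,
    135056] = true := by
  decide +kernel

def DC6_22 : Eng.chk 0 0 30592 30592 9 6 14 30 9 [
    4393216, 2557732, 1640532, 855188, 853156, 855620, 853220, 788356] = true := by
  decide +kernel

def DC6_23 : Eng.chk 0 0 16256 16256 10 10 25 30 9 [
    3933440, 3738724, 3148292, 3148304, 3083412, 3083428, 2035264, 1837632, 1181780, 724484, 69136] = true := by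
  decide +kernel

def DC6_24 : Eng.chk 0 0 32640 32640 10 27 35 30 9 [
    11536640, 7081060, 6818964, 6818980, 2362900, 2166340, 1248772, 1117776] = true := by
  decide +kernel

def DC6_25 : Eng.chk 0 0 30784 30784 10 8 26 30 9 [
    4262144, 3475728, 3475716, 3475776, 3473764, 3474084, 3473812, 786772] = true := by
  decide +kernel

def DC6_26 : Eng.chk 0 0 31296 31296 10 10 25 30 9 [
    7080192, 3473828, 3211668, 3211876, 1902864, 1706244, 1117760, 986500, 983780, 723220,
    724368, 724260] = true := by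
  decide +kernel

def DC6_27 : Eng.chk 0 0 16320 16320 9 6 12 30 9 [
    2296388, 2297364, 2296400, 1575168, 1116688, 1117700, 1117760, 724564, 330324] = true := by
  decide +kernel

def DC6_28 : Eng.chk 0 0 32704 32704 9 12 10 30 9 [
    3737856, 3083796, 3083844, 3083856] = true := by
  decide +kernel

def DC6_29 : Eng.chk 0 0 26912 26912 11 14 57 30 9 [
    10093584, 6095428, 5570948, 5048340, 4984340, 4656272, 4131136, 3932484, 3539860, 1770132,
    1183296, 788496, 199828, 66704] = true := by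
  decide +kernel

def DC6_30 : Eng.chk 0 0 27936 27936 9 4 13 30 9 [
    3214912, 2229264, 1706276, 1640772, 1509476, 1443860, 526656, 199828, 134724, 67620, 69140] = true := by
  decide +kernel

def DC6_31 : Eng.chk 0 0 29472 29472 9 6 17 30 9 [
    2100800, 1838224, 1314084, 1312644, 1313892, 1311588, 1311636, 1312548, 525200, 527888] = true := by
  decide +kernel

def DC6_32 : Eng.chk 0 0 31520 31520 9 7 16 30 9 [
    3673664, 1903908, 1903716, 1901028, 1115028, 1117712, 1117332, 68996] = true := by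
  decide +kernel

def DC6_33 : Eng.chk 0 0 28448 28448 9 6 14 30 9 [
    3870272, 2754852, 1574032, 1574416, 1248356, 985188, 462404, 461972] = true := by
  decide +kernel

def DC6_34 : Eng.chk 0 0 32544 32544 9 4 8 30 9 [
    2297408, 1248548, 1248356, 724356, 724116, 200208] = true := by
  decide +kernel

def DC6_35 : Eng.chk 0 0 24736 24736 11 10 63 30 9 [
    10356804, 6358544, 6357392, 6292500, 5571136, 4130852, 4129088, 3932820, 1902864, 1445476,
    1311780, 198288, 66708] = true := by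
  decide +kernel

def DC6_36 : Eng.chk 0 0 30880 30880 10 10 30 30 9 [
    4786496, 4522980, 3868944, 3868740, 3476516, 2556820, 1573476, 1247252] = true := by
  decide +kernel

def DC6_37 : Eng.chk 0 0 1184 1184 9 3 24 30 9 [
    1901888, 1574160, 1573956, 1508372, 1508484, 1509904, 1181248, 1181732, 984676, 920212,
    788112, 722452, 592484, 525972, 395796, 394276, 395396, 329796, 329828, 330308, 330128] = true := by
  decide +kernel

def DC6_38 : Eng.chk 0 0 31904 31904 10 14 23 30 9 [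
    6424896, 5048388, 3411472, 2362516, 2297380, 1706256, 1379364, 1247252, 1052048, 986756] = true := by
  decide +kernel

def DC6_39 : Eng.chk 0 0 6816 6816 10 6 30 30 9 [
    5179664, 5179524, 5177444, 5177876, 5179968] = true := by
  decide +kernel

def DC6_40 : Eng.chk 0 0 31392 31392 9 7 14 30 9 [
    3539860, 2427152, 2426948, 1445392, 1444996, 655972, 330900, 331284, 331328] = true := by
  decide +kernel

def DC6_41 : Eng.chk 0 0 26272 26272 9 5 13 30 9 [
    2098308, 2098704, 2098708, 1969728, 1968196, 1313040, 1246356, 68756] = true := by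
  decide +kernel

def DC6_42 : Eng.chk 0 0 22176 22176 10 12 42 30 9 [
    7799876, 7604496, 7604372, 4001344, 3999524, 3802688, 3802660, 199828, 200208] = true := by
  decide +kernel

def DC6_43 : Eng.chk 0 0 32416 32416 10 18 24 30 9 [
    8719936, 5114128, 5113924, 3608100, 3607652] = true := by
  decide +kernel

def DC6_44 : Eng.chk 0 0 31648 31648 9 7 11 30 9 [
    3149376, 2100324, 2098020, 2100756, 134724] = true := by
  decide +kernel

def DC6_45 : Eng.chk 0 0 30624 30624 9 6 12 30 9 [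
    3870272, 2230052, 2231396, 657284, 658580, 66788] = true := by
  decide +kernel

def DC6_46 : Eng.chk 0 0 32672 32672 9 12 13 30 9 [
    4787776, 4066404, 2493972, 1642052] = true := by
  decide +kernel

def DC6_47 : Eng.chk 0 0 28896 28896 10 7 33 30 9 [
    6555968, 4458020, 4196624, 2425444, 2097812, 2033540, 2032484, 2032272, 67204] = true := by
  decide +kernel

def DC6_48 : Eng.chk 0 0 16352 16352 10 20 22 30 9 [
    7014976, 6753812, 4131344, 4132420, 2624068, 1379856] = true := by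
  decide +kernel

def DC6_49 : Eng.chk 0 0 32736 32736 9 12 8 30 9 [
    3870272, 2297360, 1773124, 1773076] = true := by
  decide +kernel

def DC6_50 : Eng.chk 0 0 29456 29456 9 2 8 30 9 [
    1377172, 1116420, 1116240, 722148, 656900, 655952, 200212, 200256, 134292] = true := by
  decide +kernel

def DC6_51 : Eng.chk 0 0 28752 28752 10 6 30 30 9 [
    4981072, 3737092, 3735956, 3737860, 2492692, 2099520, 1639060, 1376656, 787024, 656016, 591492] = true := by
  decide +kernel

def DC6_52 : Eng.chk 0 0 31568 31568 10 18 24 30 9 [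
    9240996, 8457792, 2362660, 2362884, 2164996, 1510932] = true := by
  decide +kernel

def DC6_53 : Eng.chk 0 0 31152 31152 10 20 22 30 9 [
    8064036, 7147072, 4981652, 3998692, 1182016, 200324, 198676, 199828] = true := by
  decide +kernel

def DC6_54 : Eng.chk 0 0 32176 32176 9 6 5 30 9 [
    2493476, 2494016, 593044, 593540, 264512] = true := by
  decide +kernel

def DC6_55 : Eng.chk 0 0 31664 31664 9 6 13 30 9 [
    4001344, 2425748, 68756] = true := by
  decide +kernel

def DC6_56 : Eng.chk 0 0 32688 32688 9 7 12 30 9 [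
    4918848, 1576084] = true := by
  decide +kernel

def DC6_57 : Eng.chk 0 0 3440 3440 10 6 31 30 9 [
    3213844, 3213700, 3212944, 3081536, 2361636, 1968612, 1968932, 1969444, 789136, 789124,
    788800, 789140, 789056, 788032] = true := by
  decide +kernel

def DC6_58 : Eng.chk 0 0 28528 28528 9 6 5 30 9 [
    3279140, 2821696, 134676, 133008, 134532] = true := by
  decide +kernel

def DC6_59 : Eng.chk 0 0 32624 32624 9 8 6 30 9 [
    3804736, 2690340] = true := by
  decide +kernel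

def DC6_60 : Eng.chk 0 0 32752 32752 9 10 10 30 9 [
    5836352, 658964] = true := by
  decide +kernel

def DC6_61 : Eng.chk 0 0 23048 23048 10 6 30 30 9 [
    5833792, 3539364, 3474004, 2687588, 1968196, 1968528, 1771604, 1117776, 1050772, 1052224,
    592260, 526468, 197348] = true := by
  decide +kernel

def DC6_62 : Eng.chk 0 0 31496 31496 9 9 21 30 9 [
    3803216, 3804740, 2687396, 2689108, 2690624, 2491236, 1245780] = true := by
  decide +kernel

def DC6_63 : Eng.chk 0 0 15240 15240 10 15 39 30 9 [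
    7670336, 5111892, 4656704, 4325476, 3345988, 3346000, 3015588, 2821284, 1835172, 1509460,
    1246052] = true := by
  decide +kernel

def DC6_64 : Eng.chk 0 0 31624 31624 9 6 10 30 9 [
    2428480, 1639268, 1641636, 1378388, 1376852, 593488, 593476] = true := by
  decide +kernel

def DC6_65 : Eng.chk 0 0 32648 32648 9 12 10 30 9 [
    3737684, 3083840, 2166340, 2165924, 920676, 921168] = true := by
  decide +kernel

def DC6_66 : Eng.chk 0 0 31656 31656 9 12 13 30 9 [
    6491712, 4064100, 2493540] = true := by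
  decide +kernel

def DC6_67 : Eng.chk 0 0 30952 30952 9 8 11 30 9 [
    4524352, 2818660, 2098020, 1772944, 983956, 396932, 262884] = true := by
  decide +kernel

def DC6_68 : Eng.chk 0 0 24344 24344 9 7 12 30 9 [
    3147328, 2820176, 2492564, 1641860, 1379748, 855204, 330116, 199568] = true := by
  decide +kernel

def DC6_69 : Eng.chk 0 0 29080 29080 9 3 12 30 9 [
    2688164, 2492736, 1704596, 1507920, 525956, 527508, 198532] = true := by
  decide +kernel

def DC6_70 : Eng.chk 0 0 31224 31224 10 32 15 30 9 [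
    11273188, 10948160, 2230592, 918420, 659076] = true := by
  decide +kernel

def DC6_71 : Eng.chk 0 0 7672 7672 9 8 11 30 9 [
    2951824, 1903508, 1773188, 1575232, 1576836, 1380244, 1377856, 331664] = true := by
  decide +kernel

def DC6_72 : Eng.chk 0 0 32248 32248 9 10 4 30 9 [
    2559552, 1314448, 1314436, 1248916] = true := by
  decide +kernel

def DC6_73 : Eng.chk 0 0 24580 24580 9 3 24 30 9 [
    2294788, 1966404, 1835408, 1508368, 1247504, 1180816, 1181188, 1048932, 1049252, 852304,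
    788580, 787076, 721476, 656548, 657488, 592132, 330020, 329348, 132132] = true := by
  decide +kernel

def DC6_74 : Eng.chk 0 0 25092 25092 10 5 35 30 9 [
    4131088, 3539332, 3080592, 2819588, 2492516, 2360484, 1706064, 1575204, 1376676, 1312836,
    524868, 328848, 265380, 264068] = true := by
  decide +kernel

def DC6_75 : Eng.chk 0 0 29188 29188 10 6 33 30 9 [
    5439888, 5113924, 3541252, 3475536, 3212804, 1902864, 1638884, 1180260, 328548, 68708] = true := by
  decide +kernel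

def DC6_76 : Eng.chk 0 0 27396 27396 10 7 33 30 9 [
    5244432, 4129156, 3868772, 3410000, 3410180, 3408292, 1379492, 1114692] = true := by
  decide +kernel

def DC6_77 : Eng.chk 0 0 30340 30340 9 6 12 30 9 [
    3148048, 2360836, 2229412, 1508484, 1510992, 1443908, 593424, 68708] = true := by
  decide +kernel

def DC6_78 : Eng.chk 0 0 31300 31300 9 6 14 30 9 [
    3410180, 3212132, 3213584, 1117584, 1114532, 527940, 331268] = true := by
  decide +kernel

def DC6_79 : Eng.chk 0 0 28452 28452 9 7 14 30 9 [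
    4328836, 3474960, 2558052, 854308, 855140, 855184] = true := by
  decide +kernel

def DC6_80 : Eng.chk 0 0 25764 25764 10 7 30 30 9 [
    4195972, 4196624, 4064388, 3868304, 2099236, 2099300, 1967632, 1771588, 1771044] = true := by
  decide +kernel

def DC6_81 : Eng.chk 0 0 29460 29460 10 12 29 30 9 [
    7669252, 4981156, 3935376, 2884836, 2884496, 1574992, 789892, 788260, 459236] = true := by
  decide +kernel

def DC6_82 : Eng.chk 0 0 30484 30484 9 7 14 30 9 [
    4393040, 3540772, 2559364, 1771012, 787620] = true := by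
  decide +kernel

def DC6_83 : Eng.chk 0 0 31572 31572 9 12 10 30 9 [
    4001360, 3998180, 2166276, 1052036, 1051940, 657668] = true := by
  decide +kernel

def DC6_84 : Eng.chk 0 0 14164 14164 9 3 6 30 9 [
    1445456, 1183632, 1181188, 1181060, 722212, 395524, 331044] = true := by
  decide +kernel

def DC6_85 : Eng.chk 0 0 32596 32596 9 12 6 30 9 [
    2690640, 2231684, 2231588, 1707524, 788740] = true := by
  decide +kernel

def DC6_86 : Eng.chk 0 0 17524 17524 9 3 13 30 9 [
    2820388, 1640848, 1640068, 1181412, 1182596, 1183376] = true := by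
  decide +kernel

def DC6_87 : Eng.chk 0 0 22132 22132 9 7 14 30 9 [
    4327824, 2557828, 2559268, 1771908, 1705508, 67364] = true := by
  decide +kernel

def DC6_88 : Eng.chk 0 0 30580 30580 9 7 9 30 9 [
    3411332, 3082020] = true := by
  decide +kernel

def DC6_89 : Eng.chk 0 0 21004 21004 10 9 46 30 9 [
    5899332, 5767760, 5769296, 5376388, 4063844, 3539364, 1837124, 1706384, 1573264, 1445444,
    1311844, 460356, 198800, 66020] = true := by
  decide +kernel

def DC6_90 : Eng.chk 0 0 29452 29452 9 6 14 30 9 [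
    2558032, 2494020, 2490960, 1770340, 1770660, 1772932] = true := by
  decide +kernel

def DC6_91 : Eng.chk 0 0 27404 27404 10 12 25 30 9 [
    8521808, 5833284, 3277188, 2098020, 2099300, 1574800, 1573796, 986500] = true := by
  decide +kernel

def DC6_92 : Eng.chk 0 0 20236 20236 9 6 22 30 9 [
    4132420, 3410308, 3410020, 2491472, 1968208, 1967696, 1051044, 854160, 133008] = true := by
  decide +kernel

def DC6_93 : Eng.chk 0 0 32524 32524 9 12 10 30 9 [
    4524112, 2166148, 2165860, 2035280, 1838660, 134308, 134564] = true := by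
  decide +kernel

def DC6_94 : Eng.chk 0 0 25996 25996 10 18 43 30 9 [
    12125828, 11865680, 11602020, 920740, 920420, 659088, 395140, 197860, 198544, 200260] = true := by
  decide +kernel

def DC6_95 : Eng.chk 0 0 30604 30604 9 11 12 30 9 [
    3344260, 3346000, 3345508, 2950308] = true := by
  decide +kernel

def DC6_96 : Eng.chk 0 0 16332 16332 10 32 15 30 9 [
    11931204, 7409572, 6425168, 331664] = true := by
  decide +kernel

def DC6_97 : Eng.chk 0 0 32716 32716 9 10 7 30 9 [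
    4787792, 1707588] = true := by
  decide +kernel

def DC6_98 : Eng.chk 0 0 31980 31980 9 14 13 30 9 [
    2625156, 2624912, 2559588, 2559556, 2559632] = true := by
  decide +kernel

def DC6_99 : Eng.chk 0 0 31468 31468 9 8 4 30 9 [
    1642052, 1641872, 1245924, 1246052, 590436] = true := by
  decide +kernel

def DC6_100 : Eng.chk 0 0 7916 7916 9 5 5 30 9 [
    3017104, 1183588, 1183620, 854596, 200260] = true := by
  decide +kernel

def DC6_101 : Eng.chk 0 0 31234 31234 10 7 33 30 9 [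
    6750612, 6097168, 4982868, 2623568, 1900964, 1575188, 1052180, 1051748] = true := by
  decide +kernel

def DC6_102 : Eng.chk 0 0 29314 29314 10 7 33 30 9 [
    7209556, 6554788, 6555920, 1443364, 1445012, 786832, 656612, 655952, 658960] = true := by
  decide +kernel

def DC6_103 : Eng.chk 0 0 31458 31458 10 22 21 30 9 [
    9505040, 6882196, 4195172, 2622180, 1510948, 1314324] = true := by
  decide +kernel

def DC6_104 : Eng.chk 0 0 31506 31506 10 18 24 30 9 [
    8587344, 4525588, 3867540, 3869988, 3146660, 1376676, 658596] = true := by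
  decide +kernel

def DC6_105 : Eng.chk 0 0 31666 31666 9 7 12 30 9 [
    4197908, 2294676] = true := by
  decide +kernel

def DC6_106 : Eng.chk 0 0 32690 32690 9 10 10 30 9 [
    5246484, 1248404] = true := by
  decide +kernel

def DC6_107 : Eng.chk 0 0 31626 31626 9 5 6 30 9 [
    1838672, 1442660, 1445012, 1376852, 395348] = true := by
  decide +kernel

def DC6_108 : Eng.chk 0 0 25094 25094 10 6 34 30 9 [
    4786448, 3540112, 3539536, 3212452, 3213604, 1966692, 1769872, 1247332, 1245604, 526416,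
    264996, 265744, 265060] = true := by
  decide +kernel

def DC6_109 : Eng.chk 0 0 29270 29270 9 7 12 30 9 [
    2753104, 2752932, 2754084, 2362660, 2362768] = true := by
  decide +kernel

def DC6_110 : Eng.chk 0 0 30622 30622 9 10 3 30 9 [
    2756176, 2753764, 918692] = true := by
  decide +kernel

def DC6_111 : Eng.chk 0 0 16350 16350 9 12 4 30 9 [
    2166352, 2166672, 2166692] = true := by
  decide +kernel

def DC6_112 : Eng.chk 0 0 28673 28673 11 10 63 30 9 [
    6947844, 6291796, 5244948, 4589892, 4063828, 4063636, 3343876, 3343492, 2950308, 2950692,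
    2359652, 1639012, 1638820, 592132, 591940, 460804, 395604, 394276] = true := by
  decide +kernel

def DC6_113 : Eng.chk 0 0 20993 20993 11 10 63 30 9 [
    6359300, 6292548, 6291732, 4589060, 4064356, 4063636, 3344468, 2884180, 2884740, 2295956,
    2294372, 1704228, 1638820, 1180836, 1115748, 1114644] = true := by
  decide +kernel

def DC6_114 : Eng.chk 0 0 29185 29185 10 6 34 30 9 [
    4523172, 4522580, 4196612, 3736164, 3737876, 3409028, 591364, 329812, 328164, 265604, 265380] = true := by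
  decide +kernel

def DC6_115 : Eng.chk 0 0 13057 13057 10 5 32 30 9 [
    3145812, 2885124, 2688292, 2426244, 2230532, 1966676, 1769620, 1769572, 1574996, 1508612,
    852452, 659012, 592996, 593044, 396820, 263396, 197524] = true := by
  decide +kernel

def DC6_116 : Eng.chk 0 0 29441 29441 9 3 13 30 9 [
    1706068, 1574404, 1573348, 787620, 788740, 655956, 656228, 657284, 658724, 527508, 131988] = true := by
  decide +kernel

def DC6_117 : Eng.chk 0 0 31489 31489 10 12 29 30 9 [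
    7670020, 5768036, 3934292, 3411092, 1573284, 1049492, 1051812, 789892, 789796] = true := by
  decide +kernel

def DC6_118 : Eng.chk 0 0 32513 32513 10 18 24 30 9 [
    10094852, 5377124, 3869844, 2362964, 1510932, 1510788, 658852, 657492] = true := by
  decide +kernel

def DC6_119 : Eng.chk 0 0 14209 14209 10 10 26 30 9 [
    5245012, 5244420, 4524564, 4524612, 4261092, 918692, 657924, 658004] = true := by
  decide +kernel

def DC6_120 : Eng.chk 0 0 30593 30593 9 11 20 30 9 [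
    5246052, 5244420, 3803220, 1314388, 1313940, 1312548, 1181572] = true := by
  decide +kernel

def DC6_121 : Eng.chk 0 0 26913 26913 10 11 44 30 9 [
    9504788, 6291780, 5046852, 4917540, 3739012, 3605140, 3606628, 1641620, 265252, 265748, 131428] = true := by
  decide +kernel

def DC6_122 : Eng.chk 0 0 29473 29473 9 7 16 30 9 [
    2294244, 2297412, 1574116, 1576468, 1442708, 1443620, 1444964, 789892] = true := by
  decide +kernel

def DC6_123 : Eng.chk 0 0 31521 31521 9 6 12 30 9 [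
    2425316, 2231876, 2231396, 1576468, 656276, 658724] = true := by
  decide +kernel

def DC6_124 : Eng.chk 0 0 28449 28449 9 7 16 30 9 [
    3344676, 3345988, 3345556, 2885732] = true := by
  decide +kernel

def DC6_125 : Eng.chk 0 0 32545 32545 9 12 13 30 9 [
    6491716, 4066596, 2493588] = true := by
  decide +kernel

def DC6_126 : Eng.chk 0 0 31649 31649 9 12 13 30 9 [
    3935812, 3212180, 2493540, 2493972, 787300] = true := by
  decide +kernel

def DC6_127 : Eng.chk 0 0 30625 30625 9 5 7 30 9 [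
    3149380, 1313940, 1312548, 656612] = true := by
  decide +kernel

def DC6_128 : Eng.chk 0 0 32673 32673 9 12 8 30 9 [
    4132420, 2559124, 1510500, 1510932] = true := by
  decide +kernel

def DC6_129 : Eng.chk 0 0 29457 29457 10 12 29 30 9 [
    5835012, 5833620, 4981924, 3411092, 1771012, 1573284, 983524, 788260, 788356] = true := by
  decide +kernel

def DC6_130 : Eng.chk 0 0 32625 32625 9 10 4 30 9 [
    3935620, 2559508] = true := by
  decide +kernel

def DC6_131 : Eng.chk 0 0 31497 31497 9 7 14 30 9 [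
    4391332, 4329028, 2558036, 1772692] = true := by
  decide +kernel

def DC6_132 : Eng.chk 0 0 31657 31657 9 7 6 30 9 [
    3345988, 2032532, 724116, 330852] = true := by
  decide +kernel

def DC6_133 : Eng.chk 0 0 29189 29189 10 7 33 30 9 [
    6555908, 5637252, 4784740, 2032036, 1967652, 1968196, 1573732, 984292, 200260, 131812, 69124] = true := by
  decide +kernel

def DC6_134 : Eng.chk 0 0 28453 28453 10 22 21 30 9 [
    9767204, 6884932, 4197476, 2623588, 1312996, 1314180] = true := by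
  decide +kernel

def DC6_135 : Eng.chk 0 0 29461 29461 10 14 28 30 9 [
    7210212, 6422948, 6031620, 1769956, 1378180, 1378084, 722436, 656548, 330916] = true := by
  decide +kernel

def DC6_136 : Eng.chk 0 0 30485 30485 10 20 22 30 9 [
    10684676, 9503972, 2819236, 2821412, 198148] = true := by
  decide +kernel

def DC6_137 : Eng.chk 0 0 30581 30581 9 10 4 30 9 [
    3673476, 2819876] = true := by
  decide +kernel

def DC6_138 : Eng.chk 0 0 29453 29453 9 11 20 30 9 [
    6488484, 5312068, 3802276, 1443044, 1181572, 1051748, 68772, 66404] = true := by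
  decide +kernel

def DC6_139 : Eng.chk 0 0 30605 30605 10 32 15 30 9 [
    14222500, 11931204] = true := by
  decide +kernel

def DC6_140 : Eng.chk 0 0 31235 31235 9 3 12 30 9 [
    2492692, 2492500, 2097764, 1114532, 724068, 724516] = true := by
  decide +kernel

def DC6_141 : Eng.chk 0 0 27395 27395 9 3 12 30 9 [
    1901140, 1902884, 1706084, 1509460, 1314324, 1311140] = true := by
  decide +kernel

def DC6_142 : Eng.chk 0 0 31395 31395 10 22 21 30 9 [
    9765476, 4197524, 4197908, 4000868, 4001316] = true := by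
  decide +kernel

def DC6_143 : Eng.chk 0 0 31667 31667 9 9 11 30 9 [
    5115412, 1377172] = true := by
  decide +kernel

def DC6_144 : Eng.chk 0 0 32691 32691 9 12 9 30 9 [
    5967380, 527508] = true := by
  decide +kernel

def DC6_145 : Eng.chk 0 0 31627 31627 9 14 9 30 9 [
    3803220, 3081060, 2753444, 1969300, 1049492, 330916] = true := by
  decide +kernel

/-- the pairs of graphs of the certificates of this file -/
def LDC6 : List (Nat × Nat) := [
  (0, 0), (16384, 16384), (24576, 24576), (28672, 28672), (30720, 30720), (31744, 31744),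
  (25088, 25088), (20992, 20992), (29184, 29184), (31232, 31232), (32256, 32256), (13056, 13056),
  (29440, 29440), (27392, 27392), (31488, 31488), (3840, 3840), (20224, 20224), (32512, 32512),
  (28800, 28800), (15232, 15232), (31616, 31616), (14208, 14208), (30592, 30592), (16256, 16256),
  (32640, 32640), (30784, 30784), (31296, 31296), (16320, 16320), (32704, 32704), (26912, 26912),
  (27936, 27936), (29472, 29472), (31520, 31520), (28448, 28448), (32544, 32544), (24736, 24736),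
  (30880, 30880), (1184, 1184), (31904, 31904), (6816, 6816), (31392, 31392), (26272, 26272),
  (22176, 22176), (32416, 32416), (31648, 31648), (30624, 30624), (32672, 32672), (28896, 28896),
  (16352, 16352), (32736, 32736), (29456, 29456), (28752, 28752), (31568, 31568), (31152, 31152),
  (32176, 32176), (31664, 31664), (32688, 32688), (3440, 3440), (28528, 28528), (32624, 32624),
  (32752, 32752), (23048, 23048), (31496, 31496), (15240, 15240), (31624, 31624), (32648, 32648),
  (31656, 31656), (30952, 30952), (24344, 24344), (29080, 29080), (31224, 31224), (7672, 7672),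
  (32248, 32248), (24580, 24580), (25092, 25092), (29188, 29188), (27396, 27396), (30340, 30340),
  (31300, 31300), (28452, 28452), (25764, 25764), (29460, 29460), (30484, 30484), (31572, 31572),
  (14164, 14164), (32596, 32596), (17524, 17524), (22132, 22132), (30580, 30580), (21004, 21004),
  (29452, 29452), (27404, 27404), (20236, 20236), (32524, 32524), (25996, 25996), (30604, 30604),
  (16332, 16332), (32716, 32716), (31980, 31980), (31468, 31468), (7916, 7916), (31234, 31234),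
  (29314, 29314), (31458, 31458), (31506, 31506), (31666, 31666), (32690, 32690), (31626, 31626),
  (25094, 25094), (29270, 29270), (30622, 30622), (16350, 16350), (28673, 28673), (20993, 20993),
  (29185, 29185), (13057, 13057), (29441, 29441), (31489, 31489), (32513, 32513), (14209, 14209),
  (30593, 30593), (26913, 26913), (29473, 29473), (31521, 31521), (28449, 28449), (32545, 32545),
  (31649, 31649), (30625, 30625), (32673, 32673), (29457, 29457), (32625, 32625), (31497, 31497),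
  (31657, 31657), (29189, 29189), (28453, 28453), (29461, 29461), (30485, 30485), (30581, 30581),
  (29453, 29453), (30605, 30605), (31235, 31235), (27395, 27395), (31395, 31395), (31667, 31667),
  (32691, 32691), (31627, 31627)]

theorem allDC6 : ∀ p ∈ LDC6, ∃ s lam tau : Nat, ∃ codes : List Nat,
    Eng.chk 0 0 p.1 p.2 s lam tau 30 9 codes = true :=
  List.forall_mem_cons.2 ⟨⟨_, _, _, _, DC6_0⟩,
  List.forall_mem_cons.2 ⟨⟨_, _, _, _, DC6_1⟩,
  List.forall_mem_cons.2 ⟨⟨_, _, _, _, DC6_2⟩,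
  List.forall_mem_cons.2 ⟨⟨_, _, _, _, DC6_3⟩,
  List.forall_mem_cons.2 ⟨⟨_, _, _, _, DC6_4⟩,
  List.forall_mem_cons.2 ⟨⟨_, _, _, _, DC6_5⟩,
  List.forall_mem_cons.2 ⟨⟨_, _, _, _, DC6_6⟩,
  List.forall_mem_cons.2 ⟨⟨_, _, _, _, DC6_7⟩,
  List.forall_mem_cons.2 ⟨⟨_, _, _, _, DC6_8⟩,
  List.forall_mem_cons.2 ⟨⟨_, _, _, _, DC6_9⟩,
  List.forall_mem_cons.2 ⟨⟨_, _, _, _, DC6_10⟩,
  List.forall_mem_cons.2 ⟨⟨_, _, _, _, DC6_11⟩,
  List.forall_mem_cons.2 ⟨⟨_, _, _, _, DC6_12⟩,
  List.forall_mem_cons.2 ⟨⟨_, _, _, _, DC6_13⟩,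
  List.forall_mem_cons.2 ⟨⟨_, _, _, _, DC6_14⟩,
  List.forall_mem_cons.2 ⟨⟨_, _, _, _, DC6_15⟩,
  List.forall_mem_cons.2 ⟨⟨_, _, _, _, DC6_16⟩,
  List.forall_mem_cons.2 ⟨⟨_, _, _, _, DC6_17⟩,
  List.forall_mem_cons.2 ⟨⟨_, _, _, _, DC6_18⟩,
  List.forall_mem_cons.2 ⟨⟨_, _, _, _, DC6_19⟩,
  List.forall_mem_cons.2 ⟨⟨_, _, _, _, DC6_20⟩,
  List.forall_mem_cons.2 ⟨⟨_, _, _, _, DC6_21⟩,
  List.forall_mem_cons.2 ⟨⟨_, _, _, _, DC6_22⟩,
  List.forall_mem_cons.2 ⟨⟨_, _, _, _, DC6_23⟩,
  List.forall_mem_cons.2 ⟨⟨_, _, _, _, DC6_24⟩,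
  List.forall_mem_cons.2 ⟨⟨_, _, _, _, DC6_25⟩,
  List.forall_mem_cons.2 ⟨⟨_, _, _, _, DC6_26⟩,
  List.forall_mem_cons.2 ⟨⟨_, _, _, _, DC6_27⟩,
  List.forall_mem_cons.2 ⟨⟨_, _, _, _, DC6_28⟩,
  List.forall_mem_cons.2 ⟨⟨_, _, _, _, DC6_29⟩,
  List.forall_mem_cons.2 ⟨⟨_, _, _, _, DC6_30⟩,
  List.forall_mem_cons.2 ⟨⟨_, _, _, _, DC6_31⟩,
  List.forall_mem_cons.2 ⟨⟨_, _, _, _, DC6_32⟩,
  List.forall_mem_cons.2 ⟨⟨_, _, _, _, DC6_33⟩,
  List.forall_mem_cons.2 ⟨⟨_, _, _, _, DC6_34⟩,
  List.forall_mem_cons.2 ⟨⟨_, _, _, _, DC6_35⟩,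
  List.forall_mem_cons.2 ⟨⟨_, _, _, _, DC6_36⟩,
  List.forall_mem_cons.2 ⟨⟨_, _, _, _, DC6_37⟩,
  List.forall_mem_cons.2 ⟨⟨_, _, _, _, DC6_38⟩,
  List.forall_mem_cons.2 ⟨⟨_, _, _, _, DC6_39⟩,
  List.forall_mem_cons.2 ⟨⟨_, _, _, _, DC6_40⟩,
  List.forall_mem_cons.2 ⟨⟨_, _, _, _, DC6_41⟩,
  List.forall_mem_cons.2 ⟨⟨_, _, _, _, DC6_42⟩,
  List.forall_mem_cons.2 ⟨⟨_, _, _, _, DC6_43⟩,
  List.forall_mem_cons.2 ⟨⟨_, _, _, _, DC6_44⟩,
  List.forall_mem_cons.2 ⟨⟨_, _, _, _, DC6_45⟩,
  List.forall_mem_cons.2 ⟨⟨_, _, _, _, DC6_46⟩,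
  List.forall_mem_cons.2 ⟨⟨_, _, _, _, DC6_47⟩,
  List.forall_mem_cons.2 ⟨⟨_, _, _, _, DC6_48⟩,
  List.forall_mem_cons.2 ⟨⟨_, _, _, _, DC6_49⟩,
  List.forall_mem_cons.2 ⟨⟨_, _, _, _, DC6_50⟩,
  List.forall_mem_cons.2 ⟨⟨_, _, _, _, DC6_51⟩,
  List.forall_mem_cons.2 ⟨⟨_, _, _, _, DC6_52⟩,
  List.forall_mem_cons.2 ⟨⟨_, _, _, _, DC6_53⟩,
  List.forall_mem_cons.2 ⟨⟨_, _, _, _, DC6_54⟩,
  List.forall_mem_cons.2 ⟨⟨_, _, _, _, DC6_55⟩,
  List.forall_mem_cons.2 ⟨⟨_, _, _, _, DC6_56⟩,
  List.forall_mem_cons.2 ⟨⟨_, _, _, _, DC6_57⟩,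
  List.forall_mem_cons.2 ⟨⟨_, _, _, _, DC6_58⟩,
  List.forall_mem_cons.2 ⟨⟨_, _, _, _, DC6_59⟩,
  List.forall_mem_cons.2 ⟨⟨_, _, _, _, DC6_60⟩,
  List.forall_mem_cons.2 ⟨⟨_, _, _, _, DC6_61⟩,
  List.forall_mem_cons.2 ⟨⟨_, _, _, _, DC6_62⟩,
  List.forall_mem_cons.2 ⟨⟨_, _, _, _, DC6_63⟩,
  List.forall_mem_cons.2 ⟨⟨_, _, _, _, DC6_64⟩,
  List.forall_mem_cons.2 ⟨⟨_, _, _, _, DC6_65⟩,
  List.forall_mem_cons.2 ⟨⟨_, _, _, _, DC6_66⟩,
  List.forall_mem_cons.2 ⟨⟨_, _, _, _, DC6_67⟩,
  List.forall_mem_cons.2 ⟨⟨_, _, _, _, DC6_68⟩,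
  List.forall_mem_cons.2 ⟨⟨_, _, _, _, DC6_69⟩,
  List.forall_mem_cons.2 ⟨⟨_, _, _, _, DC6_70⟩,
  List.forall_mem_cons.2 ⟨⟨_, _, _, _, DC6_71⟩,
  List.forall_mem_cons.2 ⟨⟨_, _, _, _, DC6_72⟩,
  List.forall_mem_cons.2 ⟨⟨_, _, _, _, DC6_73⟩,
  List.forall_mem_cons.2 ⟨⟨_, _, _, _, DC6_74⟩,
  List.forall_mem_cons.2 ⟨⟨_, _, _, _, DC6_75⟩,
  List.forall_mem_cons.2 ⟨⟨_, _, _, _, DC6_76⟩,
  List.forall_mem_cons.2 ⟨⟨_, _, _, _, DC6_77⟩,
  List.forall_mem_cons.2 ⟨⟨_, _, _, _, DC6_78⟩,
  List.forall_mem_cons.2 ⟨⟨_, _, _, _, DC6_79⟩,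
  List.forall_mem_cons.2 ⟨⟨_, _, _, _, DC6_80⟩,
  List.forall_mem_cons.2 ⟨⟨_, _, _, _, DC6_81⟩,
  List.forall_mem_cons.2 ⟨⟨_, _, _, _, DC6_82⟩,
  List.forall_mem_cons.2 ⟨⟨_, _, _, _, DC6_83⟩,
  List.forall_mem_cons.2 ⟨⟨_, _, _, _, DC6_84⟩,
  List.forall_mem_cons.2 ⟨⟨_, _, _, _, DC6_85⟩,
  List.forall_mem_cons.2 ⟨⟨_, _, _, _, DC6_86⟩,
  List.forall_mem_cons.2 ⟨⟨_, _, _, _, DC6_87⟩,
  List.forall_mem_cons.2 ⟨⟨_, _, _, _, DC6_88⟩,
  List.forall_mem_cons.2 ⟨⟨_, _, _, _, DC6_89⟩,
  List.forall_mem_cons.2 ⟨⟨_, _, _, _, DC6_90⟩,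
  List.forall_mem_cons.2 ⟨⟨_, _, _, _, DC6_91⟩,
  List.forall_mem_cons.2 ⟨⟨_, _, _, _, DC6_92⟩,
  List.forall_mem_cons.2 ⟨⟨_, _, _, _, DC6_93⟩,
  List.forall_mem_cons.2 ⟨⟨_, _, _, _, DC6_94⟩,
  List.forall_mem_cons.2 ⟨⟨_, _, _, _, DC6_95⟩,
  List.forall_mem_cons.2 ⟨⟨_, _, _, _, DC6_96⟩,
  List.forall_mem_cons.2 ⟨⟨_, _, _, _, DC6_97⟩,
  List.forall_mem_cons.2 ⟨⟨_, _, _, _, DC6_98⟩,
  List.forall_mem_cons.2 ⟨⟨_, _, _, _, DC6_99⟩,
  List.forall_mem_cons.2 ⟨⟨_, _, _, _, DC6_100⟩,
  List.forall_mem_cons.2 ⟨⟨_, _, _, _, DC6_101⟩,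
  List.forall_mem_cons.2 ⟨⟨_, _, _, _, DC6_102⟩,
  List.forall_mem_cons.2 ⟨⟨_, _, _, _, DC6_103⟩,
  List.forall_mem_cons.2 ⟨⟨_, _, _, _, DC6_104⟩,
  List.forall_mem_cons.2 ⟨⟨_, _, _, _, DC6_105⟩,
  List.forall_mem_cons.2 ⟨⟨_, _, _, _, DC6_106⟩,
  List.forall_mem_cons.2 ⟨⟨_, _, _, _, DC6_107⟩,
  List.forall_mem_cons.2 ⟨⟨_, _, _, _, DC6_108⟩,
  List.forall_mem_cons.2 ⟨⟨_, _, _, _, DC6_109⟩,
  List.forall_mem_cons.2 ⟨⟨_, _, _, _, DC6_110⟩,
  List.forall_mem_cons.2 ⟨⟨_, _, _, _, DC6_111⟩,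
  List.forall_mem_cons.2 ⟨⟨_, _, _, _, DC6_112⟩,
  List.forall_mem_cons.2 ⟨⟨_, _, _, _, DC6_113⟩,
  List.forall_mem_cons.2 ⟨⟨_, _, _, _, DC6_114⟩,
  List.forall_mem_cons.2 ⟨⟨_, _, _, _, DC6_115⟩,
  List.forall_mem_cons.2 ⟨⟨_, _, _, _, DC6_116⟩,
  List.forall_mem_cons.2 ⟨⟨_, _, _, _, DC6_117⟩,
  List.forall_mem_cons.2 ⟨⟨_, _, _, _, DC6_118⟩,
  List.forall_mem_cons.2 ⟨⟨_, _, _, _, DC6_119⟩,
  List.forall_mem_cons.2 ⟨⟨_, _, _, _, DC6_120⟩,
  List.forall_mem_cons.2 ⟨⟨_, _, _, _, DC6_121⟩,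
  List.forall_mem_cons.2 ⟨⟨_, _, _, _, DC6_122⟩,
  List.forall_mem_cons.2 ⟨⟨_, _, _, _, DC6_123⟩,
  List.forall_mem_cons.2 ⟨⟨_, _, _, _, DC6_124⟩,
  List.forall_mem_cons.2 ⟨⟨_, _, _, _, DC6_125⟩,
  List.forall_mem_cons.2 ⟨⟨_, _, _, _, DC6_126⟩,
  List.forall_mem_cons.2 ⟨⟨_, _, _, _, DC6_127⟩,
  List.forall_mem_cons.2 ⟨⟨_, _, _, _, DC6_128⟩,
  List.forall_mem_cons.2 ⟨⟨_, _, _, _, DC6_129⟩,
  List.forall_mem_cons.2 ⟨⟨_, _, _, _, DC6_130⟩,
  List.forall_mem_cons.2 ⟨⟨_, _, _, _, DC6_131⟩,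
  List.forall_mem_cons.2 ⟨⟨_, _, _, _, DC6_132⟩,
  List.forall_mem_cons.2 ⟨⟨_, _, _, _, DC6_133⟩,
  List.forall_mem_cons.2 ⟨⟨_, _, _, _, DC6_134⟩,
  List.forall_mem_cons.2 ⟨⟨_, _, _, _, DC6_135⟩,
  List.forall_mem_cons.2 ⟨⟨_, _, _, _, DC6_136⟩,
  List.forall_mem_cons.2 ⟨⟨_, _, _, _, DC6_137⟩,
  List.forall_mem_cons.2 ⟨⟨_, _, _, _, DC6_138⟩,
  List.forall_mem_cons.2 ⟨⟨_, _, _, _, DC6_139⟩,
  List.forall_mem_cons.2 ⟨⟨_, _, _, _, DC6_140⟩,
  List.forall_mem_cons.2 ⟨⟨_, _, _, _, DC6_141⟩,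
  List.forall_mem_cons.2 ⟨⟨_, _, _, _, DC6_142⟩,
  List.forall_mem_cons.2 ⟨⟨_, _, _, _, DC6_143⟩,
  List.forall_mem_cons.2 ⟨⟨_, _, _, _, DC6_144⟩,
  List.forall_mem_cons.2 ⟨⟨_, _, _, _, DC6_145⟩,
  List.forall_mem_nil _⟩⟩⟩⟩⟩⟩⟩⟩⟩⟩⟩⟩⟩⟩⟩⟩⟩⟩⟩⟩⟩⟩⟩⟩⟩⟩⟩⟩⟩⟩⟩⟩⟩⟩⟩⟩⟩⟩⟩⟩⟩⟩⟩⟩⟩⟩⟩⟩⟩⟩⟩⟩⟩⟩⟩⟩⟩⟩⟩⟩⟩⟩⟩⟩⟩⟩⟩⟩⟩⟩⟩⟩⟩⟩⟩⟩⟩⟩⟩⟩⟩⟩⟩⟩⟩⟩⟩⟩⟩⟩⟩⟩⟩⟩⟩⟩⟩⟩⟩⟩⟩⟩⟩⟩⟩⟩⟩⟩⟩⟩⟩⟩⟩⟩⟩⟩⟩⟩⟩⟩⟩⟩⟩⟩⟩⟩⟩⟩⟩⟩⟩⟩⟩⟩⟩⟩⟩⟩⟩⟩⟩⟩⟩⟩⟩⟩

end Pool.Agent.MP_528dc0_co.Dat
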