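import Pool.Agent.MP_528dc0_co.Eng

/-! Certificates (generated data, checked by the kernel). -/

set_option maxRecDepth 100000
set_option linter.defProp false

namespace Pool.Agent.MP_528dc0_co.Dat

/-- the colourings of the certificate (8 colours of two bits, and the weight) -/
def KsX : List Nat := [
  6291600, 5767696, 4785408, 3342868, 3277072, 3081476, 3080468, 3014740, 2819140, 2688064,
  2622980, 2492688, 2490788, 2229380, 2034240, 2031764, 1902868, 1704336, 1508516, 1312292,
  1312912, 789008, 723524, 720996, 722496, 525732, 525412, 458832, 131476, 67140]

theorem sX : Eng.chk 0 1 4608 4608 11 11 77 30 9 KsX = true := by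
  decide +kernel

/-- the colourings of the certificate (8 colours of two bits, and the weight) -/
def KsY01 : List Nat := [
  2294032, 1704016, 1705216, 656448]

theorem sY01 : Eng.chk 0 0 4608 4608 9 3 15 24 2 KsY01 = true := by
  decide +kernel

/-- the colourings of the certificate (8 colours of two bits, and the weight) -/
def KsY02 : List Nat := [
  2032704, 1967360, 1049732, 854148, 395840, 66820]

theorem sY02 : Eng.chk 0 0 4608 4608 9 3 15 24 2 KsY02 = true := by
  decide +kernel

/-- the colourings of the certificate (8 colours of two bits, and the weight) -/
def KsY23 : List Nat := [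
  2884864, 984228, 984580, 983460, 589904]

theorem sY23 : Eng.chk 0 0 4608 4608 9 3 15 24 2 KsY23 = true := by
  decide +kernel

end Pool.Agent.MP_528dc0_co.Dat
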