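import Mathlib

/-!
# Definitions: Gallai trees, pieces, parameters of a certificate
-/

section

/-!
# Gallai trees, rooted: definitions (no engine, no surfaces)

`GT G C x`: the vertex set `C` of the graph `G` is a rooted Gallai tree with root `x`: either a
single vertex, or obtained from rooted Gallai trees `C 0, …, C m` with roots `y 0, …, y m` by
joining the roots by a block `B` (`K₂`, an odd cycle, or `K₄`); the root is `y 0`.
-/

open Finset

namespace Pool.Agent.MP_528dc0_co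

/-- The blocks: `K₂`, odd cycles, `K₄` (on the vertices `0, …, m`). -/
inductive Blk : (m : ℕ) → SimpleGraph (Fin (m + 1)) → Prop
  | k2 : Blk 1 ⊤
  | odd (t : ℕ) (ht : 1 ≤ t) : Blk (2 * t) (SimpleGraph.cycleGraph (2 * t + 1))
  | k4 : Blk 3 ⊤

/-- The vertex degree of a block: `1` for `K₂` (`m = 1`), `3` for `K₄` (`m = 3`), `2` for cycles
(`m` even). -/
def bd (m : ℕ) : ℕ := if m % 2 = 1 then m else 2

variable {V : Type} [Fintype V] [DecidableEq V]

/-- Rooted Gallai trees. -/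
inductive GT (G : SimpleGraph V) : Finset V → V → Prop
  | base (x : V) : GT G {x} x
  | glue (m : ℕ) (B : SimpleGraph (Fin (m + 1))) (hB : Blk m B) (C : Fin (m + 1) → Finset V)
      (y : Fin (m + 1) → V) (hC : ∀ i, GT G (C i) (y i))
      (hd : ∀ i j, i ≠ j → Disjoint (C i) (C j))
      (ha : ∀ i j, i ≠ j → ∀ u ∈ C i, ∀ v ∈ C j, (G.Adj u v ↔ u = y i ∧ v = y j ∧ B.Adj i j)) :
      GT G (univ.biUnion C) (y 0)

open Classical in
/-- The number of neighbours of `v` inside `C`. -/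
noncomputable def dg (G : SimpleGraph V) (C : Finset V) (v : V) : ℕ :=
  (C.filter (fun u => G.Adj v u)).card

/-- `c` is a proper colouring of `G[C]` from the lists `L`. -/
def LCol {α : Type} (G : SimpleGraph V) (L : V → Finset α) (C : Finset V) (c : V → α) : Prop :=
  (∀ v ∈ C, c v ∈ L v) ∧ ∀ u ∈ C, ∀ v ∈ C, G.Adj u v → c u ≠ c v

open Classical in
/-- The colours of the root `x` that extend to a list colouring of `G[C]`. -/
noncomputable def FF (G : SimpleGraph V) (L : V → Finset (Fin 4)) (C : Finset V) (x : V) :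
    Finset (Fin 4) :=
  univ.filter (fun a => ∃ c : V → Fin 4, c x = a ∧ LCol G L C c)

open Classical in
/-- The same for a block `B` with lists `X`; the root is `0`. -/
noncomputable def FB {m : ℕ} (B : SimpleGraph (Fin (m + 1))) (X : Fin (m + 1) → Finset (Fin 4)) :
    Finset (Fin 4) :=
  univ.filter (fun a => ∃ b : Fin (m + 1) → Fin 4, b 0 = a ∧ (∀ i, b i ∈ X i) ∧
    ∀ i j, B.Adj i j → b i ≠ b j)

/-- `G[C]` is connected. -/
def Conn (G : SimpleGraph V) (C : Finset V) : Prop := (G.induce (C : Set V)).Connected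

end Pool.Agent.MP_528dc0_co

end

section

/-!
# The closure: definitions

`Par` collects a certificate: weights `w k` on colourings `φ k` of the (at most) 8 high-degree
vertices `Fin 8`, the price `lam` of an edge to a high-degree vertex, the price `tau` of a triangle,
and the graph `H` on the high-degree vertices. `kf = true` means: the graph has no `K₄`;
`kf = false`: it has no `K₅`; if moreover `x3 = true`: no triangle of low-degree vertices has two
common high-degree neighbours.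
-/

open Finset

namespace Pool.Agent.MP_528dc0_co

/-- A certificate. -/
structure Par where
  kf : Bool
  x3 : Bool
  K : ℕ
  lam : ℕ
  tau : ℕ
  H : SimpleGraph (Fin 8)
  φ : Fin K → Fin 8 → Fin 4
  w : Fin K → ℕ

/-- A state: for every colouring `k` the set `A k` of colours of the root which extend (`∅` if there
are too many of them, dead), the label sets, and the load. For a rooted piece `N₁ = N₂` is the
set of high-degree neighbours of the root; for a chain `N₁` belongs to its last and `N₂` to its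
first member. -/
@[ext] structure AS (K : ℕ) where
  A : Fin K → Finset (Fin 4)
  N₁ : Finset (Fin 8)
  N₂ : Finset (Fin 8)
  ld : ℕ

/-- Three members of a `K₄`. -/
@[ext] structure AS3 (K : ℕ) where
  A : Fin K → Finset (Fin 4)
  N₁ : Finset (Fin 8)
  N₂ : Finset (Fin 8)
  N₃ : Finset (Fin 8)
  ld : ℕ

open Classical in
/-- The number of edges of `H` inside `N`. -/
noncomputable def eH (H : SimpleGraph (Fin 8)) (N : Finset (Fin 8)) : ℕ :=
  ((N.powersetCard 2).filter (fun e : Finset (Fin 8) => H.IsClique (e : Set (Fin 8)))).card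

/-- `N` contains a clique of `H` of size `q`. -/
def HasC (H : SimpleGraph (Fin 8)) (q : ℕ) (N : Finset (Fin 8)) : Prop :=
  ∃ e ⊆ N, e.card = q ∧ H.IsClique (e : Set (Fin 8))

/-- `P` (role: root) and `Q` (role: child) are compatible. -/
def cmp (P Q : Finset (Fin 4)) : Prop := Q.Nonempty ∧ Q ⊆ P

open Classical in
/-- The root loses the colours of `Q`. -/
noncomputable def sb (P Q : Finset (Fin 4)) : Finset (Fin 4) := if cmp P Q then P \ Q else ∅

open Classical in
/-- Chains: all members have the same set. -/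
noncomputable def kp (P Q : Finset (Fin 4)) : Finset (Fin 4) := if cmp P Q then Q else ∅

namespace Par
variable (P : Par)

open Classical in
/-- The weight of the colourings for which `A` and `B` are compatible. -/
noncomputable def wt (A B : Fin P.K → Finset (Fin 4)) : ℕ :=
  ∑ k, if cmp (A k) (B k) then P.w k else 0

/-- Excluded: common high-degree neighbours of two adjacent vertices. -/
def ex2 (N : Finset (Fin 8)) : Prop := HasC P.H (if P.kf then 2 else 3) N
/-- Excluded: common high-degree neighbours of a triangle. -/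
def ex3 (N : Finset (Fin 8)) : Prop :=
  if P.x3 then 2 ≤ N.card else HasC P.H (if P.kf then 1 else 2) N
/-- Excluded: high-degree neighbours of one vertex. -/
def ex1 (N : Finset (Fin 8)) : Prop := HasC P.H (if P.kf then 3 else 4) N

/-- The labels which occur: eight if `kf`, six otherwise. -/
def Lab : Finset (Fin 8) := if P.kf then univ else {0, 1, 2, 3, 4, 5}

/-- Well-formed states of pieces of rank `r` (missing `r` edges at the root). -/
def Wf (r : ℕ) (x : AS P.K) : Prop :=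
  (∀ k, x.A k = ∅ ∨ (x.A k).card = r) ∧ (4 - r) * P.lam ≤ x.ld ∧ x.N₁ = x.N₂
/-- Well-formed chains of load at least `l`. -/
def WfC (l : ℕ) (t : AS P.K) : Prop := (∀ k, t.A k = ∅ ∨ (t.A k).card = 2) ∧ l ≤ t.ld
/-- Well-formed pairs of members of a `K₄`. -/
def WfV (t : AS P.K) : Prop := (∀ k, t.A k = ∅ ∨ (t.A k).card = 3) ∧ 2 * P.lam ≤ t.ld
/-- Well-formed triples of members of a `K₄`. -/
def Wf3 (v : AS3 P.K) : Prop :=
  (∀ k, v.A k = ∅ ∨ (v.A k).card = 3) ∧ 3 * P.lam + 4 * P.tau ≤ v.ld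

/-- the thresholds -/
def c1 : ℕ := 3 * P.lam
def c2 : ℕ := min (6 * P.lam) (4 * P.lam + P.tau)
def c3 : ℕ :=
  if P.kf then min (P.c2 + 3 * P.lam) (7 * P.lam + P.tau)
  else min (min (P.c2 + 3 * P.lam) (7 * P.lam + P.tau)) (3 * P.lam + 4 * P.tau)

open Classical in
/-- The state of a single vertex with high-degree neighbours `N`. -/
noncomputable def bs (N : Finset (Fin 8)) : AS P.K where
  A := fun k => if (N.image (P.φ k)).card = N.card then univ \ N.image (P.φ k) else ∅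
  N₁ := N
  N₂ := N
  ld := P.lam * N.card + P.tau * eH P.H N

open Classical in
/-- The weight of the colourings which are injective on `N`. -/
noncomputable def bw (N : Finset (Fin 8)) : ℕ :=
  ∑ k, if (N.image (P.φ k)).card = N.card then P.w k else 0

/-- The total weight of the colourings for which a state is alive. -/
noncomputable def aw (A : Fin P.K → Finset (Fin 4)) : ℕ := by
  classical exact ∑ k, if (A k).Nonempty then P.w k else 0

/-- load of `x` and `y` joined by an edge (`y` and the last member of the chain `x`) -/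
def ldE (x y : AS P.K) : ℕ := x.ld + y.ld + P.tau * (x.N₁ ∩ y.N₁).card
/-- load of a piece `x` and the chain `t` which is closed at the root of `x` -/
def ldC (x t : AS P.K) : ℕ :=
  x.ld + t.ld + P.tau * (x.N₁ ∩ t.N₁).card + P.tau * (x.N₁ ∩ t.N₂).card
/-- load of a piece and three members of a `K₄` -/
def ldV (x : AS P.K) (v : AS3 P.K) : ℕ :=
  x.ld + v.ld + P.tau * (x.N₁ ∩ v.N₁).card + P.tau * (x.N₁ ∩ v.N₂).card +
    P.tau * (x.N₁ ∩ v.N₃).card

/-- root `x`, child `y` -/
noncomputable def edg (x y : AS P.K) : AS P.K :=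
  ⟨fun k => sb (x.A k) (y.A k), x.N₁, x.N₁, P.ldE x y⟩
/-- root `x`, closed chain `t` -/
noncomputable def cls (x t : AS P.K) : AS P.K :=
  ⟨fun k => sb (x.A k) (t.A k), x.N₁, x.N₁, P.ldC x t⟩
/-- chain `t` prolonged by the piece `y` (role `P`: `y`) -/
noncomputable def chn (t y : AS P.K) : AS P.K :=
  ⟨fun k => kp (y.A k) (t.A k), y.N₁, t.N₂, P.ldE t y⟩
/-- three members of a `K₄`: the pair `v` and the piece `y`; all pairs within the three and the four
triangles of the `K₄` are paid -/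
noncomputable def tri3 (v y : AS P.K) : AS3 P.K :=
  ⟨fun k => kp (y.A k) (v.A k), v.N₁, v.N₂, y.N₁,
    v.ld + y.ld + P.tau * (y.N₁ ∩ v.N₁).card + P.tau * (y.N₁ ∩ v.N₂).card + 4 * P.tau⟩
/-- trivial root (four colours, no neighbours), child `A` with load `l` -/
noncomputable def trv (A : Fin P.K → Finset (Fin 4)) (l : ℕ) : AS P.K :=
  ⟨fun k => sb univ (A k), ∅, ∅, l⟩
/-- the triangle inside a block `K₃` is paid -/
def addT (x : AS P.K) : AS P.K := ⟨x.A, x.N₁, x.N₂, x.ld + P.tau⟩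

/-- What the engine establishes. `S1 S2 S3`: states of rooted pieces which still miss `r` edges at
the root; `T2`: pairs in a triangle block; `U2 U3 U4`: chains of length 2, odd length `≥ 3`, even
length `≥ 4` in a longer cycle; `V2 V3`: two and three members of a `K₄`. -/
structure Closed (S1 S2 S3 T2 U2 U3 U4 V2 : AS P.K → Prop) (V3 : AS3 P.K → Prop) : Prop where
  z4 : ∀ N ⊆ P.Lab, N.card = 4 → ¬ P.ex1 N → P.bw N ≤ 4 * P.lam + P.tau * eH P.H N
  b1 : ∀ N ⊆ P.Lab, N.card = 3 → ¬ P.ex1 N → 3 * P.lam + P.tau * eH P.H N + P.c1 < P.bw N →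
    S1 (P.bs N)
  b2 : ∀ N ⊆ P.Lab, N.card = 2 → ¬ P.ex1 N → 2 * P.lam + P.tau * eH P.H N + P.c2 < P.bw N →
    S2 (P.bs N)
  b3 : ∀ N ⊆ P.Lab, N.card = 1 → ¬ P.ex1 N → P.lam + P.tau * eH P.H N + P.c3 < P.bw N →
    S3 (P.bs N)
  e0 : ∀ N ⊆ P.Lab, N.card = 3 → ¬ P.ex1 N → 3 * P.lam + P.tau * eH P.H N + P.c1 < P.bw N →
    ∀ y, S1 y → P.Wf 1 y → ¬ P.ex2 (N ∩ y.N₁) → P.wt (P.bs N).A y.A ≤ P.ldE (P.bs N) y
  e1 : ∀ x y, S2 x → P.Wf 2 x → S1 y → P.Wf 1 y → ¬ P.ex2 (x.N₁ ∩ y.N₁) →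
    P.ldE x y + P.c1 < P.wt x.A y.A → S1 (P.edg x y)
  e2 : ∀ x y, S3 x → P.Wf 3 x → S1 y → P.Wf 1 y → ¬ P.ex2 (x.N₁ ∩ y.N₁) →
    P.ldE x y + P.c2 < P.wt x.A y.A → S2 (P.edg x y)
  e3 : ∀ y, S1 y → P.Wf 1 y → y.ld + P.c3 < P.aw y.A → S3 (P.trv y.A y.ld)
  t2 : ∀ x y, S2 x → P.Wf 2 x → S2 y → P.Wf 2 y → ¬ P.ex2 (x.N₁ ∩ y.N₁) →
    P.ldE x y + P.tau + 2 * P.lam < P.wt x.A y.A →
      T2 (P.addT (P.chn x y)) ∨ T2 (P.addT (P.chn y x))
  u2 : ∀ x y, S2 x → P.Wf 2 x → S2 y → P.Wf 2 y → ¬ P.ex2 (x.N₁ ∩ y.N₁) →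
    P.ldE x y + 6 * P.lam < P.wt x.A y.A → U2 (P.chn x y)
  u3 : ∀ t y, (U2 t ∨ U4 t) → P.WfC (4 * P.lam) t → S2 y → P.Wf 2 y → ¬ P.ex2 (t.N₁ ∩ y.N₁) →
    P.ldE t y + 4 * P.lam < P.wt y.A t.A → U3 (P.chn t y)
  u4 : ∀ t y, U3 t → P.WfC (6 * P.lam) t → S2 y → P.Wf 2 y → ¬ P.ex2 (t.N₁ ∩ y.N₁) →
    P.ldE t y + 2 * P.lam < P.wt y.A t.A → U4 (P.chn t y)
  tc0 : ∀ N ⊆ P.Lab, N.card = 2 → ¬ P.ex1 N → 2 * P.lam + P.tau * eH P.H N + P.c2 < P.bw N →
    ∀ t, T2 t → P.WfC (4 * P.lam + P.tau) t → ¬ P.ex2 (N ∩ t.N₁) → ¬ P.ex2 (N ∩ t.N₂) →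
    ¬ P.ex3 (N ∩ t.N₁ ∩ t.N₂) → P.wt (P.bs N).A t.A ≤ P.ldC (P.bs N) t
  uc0 : ∀ N ⊆ P.Lab, N.card = 2 → ¬ P.ex1 N → 2 * P.lam + P.tau * eH P.H N + P.c2 < P.bw N →
    ∀ t, U4 t → P.WfC (8 * P.lam) t → ¬ P.ex2 (N ∩ t.N₁) → ¬ P.ex2 (N ∩ t.N₂) →
    P.wt (P.bs N).A t.A ≤ P.ldC (P.bs N) t
  tc1 : ∀ x t, S3 x → P.Wf 3 x → T2 t → P.WfC (4 * P.lam + P.tau) t → ¬ P.ex2 (x.N₁ ∩ t.N₁) →
    ¬ P.ex2 (x.N₁ ∩ t.N₂) → ¬ P.ex3 (x.N₁ ∩ t.N₁ ∩ t.N₂) → P.ldC x t + P.c1 < P.wt x.A t.A →
      S1 (P.cls x t)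
  uc1 : ∀ x t, S3 x → P.Wf 3 x → U4 t → P.WfC (8 * P.lam) t → ¬ P.ex2 (x.N₁ ∩ t.N₁) →
    ¬ P.ex2 (x.N₁ ∩ t.N₂) → P.ldC x t + P.c1 < P.wt x.A t.A → S1 (P.cls x t)
  tc2 : ∀ t, T2 t → P.WfC (4 * P.lam + P.tau) t → t.ld + P.c2 < P.aw t.A →
    S2 (P.trv t.A t.ld)
  uc2 : ∀ t, U4 t → P.WfC (8 * P.lam) t → t.ld + P.c2 < P.aw t.A → S2 (P.trv t.A t.ld)
  v2 : P.kf = false → ∀ x y, S3 x → P.Wf 3 x → S3 y → P.Wf 3 y →
    P.ldE x y + 2 * P.lam + 4 * P.tau < P.wt x.A y.A → V2 (P.chn x y) ∨ V2 (P.chn y x)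
  v3 : P.kf = false → ∀ v y, V2 v → P.WfV v → S3 y → P.Wf 3 y →
    v.ld + y.ld + P.tau * (y.N₁ ∩ v.N₁).card + P.tau * (y.N₁ ∩ v.N₂).card + 4 * P.tau + P.lam <
      P.wt y.A v.A → V3 (P.tri3 v y)
  vc0 : P.kf = false → ∀ N ⊆ P.Lab, N.card = 1 → P.lam + P.tau * eH P.H N + P.c3 < P.bw N →
    ∀ v, V3 v → P.Wf3 v → N ∩ v.N₁ ∩ v.N₂ ∩ v.N₃ = ∅ →
    P.wt (P.bs N).A v.A ≤ P.ldV (P.bs N) v
  vc1 : P.kf = false → ∀ v, V3 v → P.Wf3 v → v.ld + P.c1 < P.aw v.A → S1 (P.trv v.A v.ld)

open Classical in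
/-- The number of triangles of `H`. -/
noncomputable def tH (H : SimpleGraph (Fin 8)) : ℕ :=
  (((univ : Finset (Fin 8)).powersetCard 3).filter (fun e : Finset (Fin 8) => H.IsClique (e : Set (Fin 8)))).card

/-- The certificate is valid for all graphs `H` with `P.H ≤ H ≤ Kg`: a closed system exists, the
colourings are proper for `Kg`, and the total weight exceeds the budget (`B`: total degree of the
high-degree vertices, `T`: number of triangles). -/
structure Good (P : Par) (Kg : SimpleGraph (Fin 8)) (B T : ℕ) : Prop where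
  closed : ∃ S1 S2 S3 T2 U2 U3 U4 V2 V3, P.Closed S1 S2 S3 T2 U2 U3 U4 V2 V3
  proper : ∀ k a b, Kg.Adj a b → P.φ k a ≠ P.φ k b
  budget : P.lam * B + T * P.tau <
    (∑ k, P.w k) + 2 * P.lam * eH P.H univ + P.tau * tH P.H

end Par

end Pool.Agent.MP_528dc0_co

end

section

/-!
# States of pieces of a graph: definitions
`N v` is the set of (labels of) high-degree neighbours of the vertex `v`.
-/

open Finset

namespace Pool.Agent.MP_528dc0_co

variable {V : Type} [Fintype V] [DecidableEq V]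

/-- The data of the constructor `GT.glue`. -/
structure Glue (G : SimpleGraph V) (m : ℕ) (B : SimpleGraph (Fin (m + 1)))
    (C : Fin (m + 1) → Finset V) (y : Fin (m + 1) → V) : Prop where
  blk : Blk m B
  gt : ∀ i, GT G (C i) (y i)
  disj : ∀ i j, i ≠ j → Disjoint (C i) (C j)
  adj : ∀ i j, i ≠ j → ∀ u ∈ C i, ∀ v ∈ C j, (G.Adj u v ↔ u = y i ∧ v = y j ∧ B.Adj i j)

/-- number of triangles of a block -/
def tb (m : ℕ) : ℕ := if m = 2 then 1 else if m = 3 then 4 else 0

open Classical in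
/-- The load of the vertex set `C`. -/
noncomputable def ldp (P : Par) (G : SimpleGraph V) (N : V → Finset (Fin 8)) (C : Finset V) : ℕ :=
  P.lam * ∑ v ∈ C, (N v).card +
  P.tau * (∑ v ∈ C, eH P.H (N v) +
    ∑ e ∈ (C.powersetCard 2).filter (fun e : Finset V => G.IsClique (e : Set V)), (e.inf N).card +
    ((C.powersetCard 3).filter (fun e : Finset V => G.IsClique (e : Set V))).card)

/-- All vertices of `C` except possibly `x` have total degree four. -/
def Full (G : SimpleGraph V) (N : V → Finset (Fin 8)) (C : Finset V) (x : V) : Prop :=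
  ∀ v ∈ C, v ≠ x → (N v).card + dg G C v = 4

/-- The lists of the colouring `k`. -/
def Ls (P : Par) (N : V → Finset (Fin 8)) (k : Fin P.K) (v : V) : Finset (Fin 4) :=
  univ \ (N v).image (P.φ k)

/-- The colours of `x` which extend to `C`, given the colouring `k` of the high-degree vertices. -/
noncomputable def FK (P : Par) (G : SimpleGraph V) (N : V → Finset (Fin 8)) (k : Fin P.K)
    (C : Finset V) (x : V) : Finset (Fin 4) := FF G (Ls P N k) C x

/-- The number of extendable colours is as small as possible. -/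
def Alv (P : Par) (G : SimpleGraph V) (N : V → Finset (Fin 8)) (C : Finset V) (x : V)
    (k : Fin P.K) : Prop := (FK P G N k C x).card + (N x).card + dg G C x = 4

open Classical in
/-- The state of the piece `C` with root `x`. -/
noncomputable def stt (P : Par) (G : SimpleGraph V) (N : V → Finset (Fin 8)) (C : Finset V)
    (x : V) : AS P.K where
  A := fun k => if Alv P G N C x k then FK P G N k C x else ∅
  N₁ := N x
  N₂ := N x
  ld := ldp P G N C

open Classical in
/-- The weight of the colourings for which the piece is alive. -/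
noncomputable def mu (P : Par) (G : SimpleGraph V) (N : V → Finset (Fin 8)) (C : Finset V)
    (x : V) : ℕ := ∑ k, if Alv P G N C x k then P.w k else 0

/-- The state of the trivial piece: one vertex without high-degree neighbours. -/
def tr0 (P : Par) : AS P.K := ⟨fun _ => univ, ∅, ∅, 0⟩

/-- The part of no `K₄` (`kf = true`) or no `K₅` (`kf = false`) that is used. -/
structure FreeN (P : Par) (G : SimpleGraph V) (N : V → Finset (Fin 8)) : Prop where
  lab : ∀ v, N v ⊆ P.Lab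
  f1 : ∀ v, ¬ P.ex1 (N v)
  f2 : ∀ u v, G.Adj u v → ¬ P.ex2 (N u ∩ N v)
  f3 : ∀ u v w, G.Adj u v → G.Adj v w → G.Adj u w → ¬ P.ex3 (N u ∩ N v ∩ N w)
  f4 : P.kf = true → G.CliqueFree 4
  f5 : P.kf = false → ∀ u v w z, G.Adj u v → G.Adj u w → G.Adj u z → G.Adj v w → G.Adj v z →
    G.Adj w z → N u ∩ N v ∩ N w ∩ N z = ∅

/-- chain of the states `X 0, X 1, …, X j` -/
noncomputable def chs (P : Par) (X : ℕ → AS P.K) : ℕ → AS P.K
  | 0 => X 0
  | j + 1 => P.chn (chs P X j) (X (j + 1))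

/-- The inductive claim: viable pieces are in the closed system. -/
def InS (P : Par) (S1 S2 S3 : AS P.K → Prop) (G : SimpleGraph V) (N : V → Finset (Fin 8))
    (C : Finset V) (x : V) : Prop :=
  (dg G C x + (N x).card = 3 → ldp P G N C + P.c1 < mu P G N C x → S1 (stt P G N C x)) ∧
  (dg G C x + (N x).card = 2 → ldp P G N C + P.c2 < mu P G N C x → S2 (stt P G N C x)) ∧
  (dg G C x + (N x).card = 1 → ldp P G N C + P.c3 < mu P G N C x → S3 (stt P G N C x))

end Pool.Agent.MP_528dc0_co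

end
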