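import Mathlib
import Pool.Agent.MP_528dc0_co.PDefs

/-!
# The components of low vertices are Gallai trees
-/

section

open Finset

namespace Pool.Agent.MP_528dc0_co

variable {V : Type} [Fintype V] [DecidableEq V]

theorem ga1_dg_erase_le (G : SimpleGraph V) (C : Finset V) (v a : V) :
    dg G (C.erase v) a ≤ dg G C a := by
  classical
  unfold dg
  exact Finset.card_le_card (Finset.filter_subset_filter _ (Finset.erase_subset _ _))

theorem ga1_dg_erase_lt (G : SimpleGraph V) {C : Finset V} {v a : V} (hv : v ∈ C)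
    (h : G.Adj a v) : dg G (C.erase v) a < dg G C a := by
  classical
  unfold dg
  apply Finset.card_lt_card
  rw [Finset.ssubset_iff_of_subset (Finset.filter_subset_filter _ (Finset.erase_subset _ _))]
  refine ⟨v, Finset.mem_filter.2 ⟨hv, h⟩, ?_⟩
  intro h2
  exact (Finset.mem_erase.1 (Finset.mem_filter.1 h2).1).1 rfl

theorem ga1_main {α : Type} [DecidableEq α] [Nonempty α] (G : SimpleGraph V)
    (L : V → Finset α) : ∀ (k : ℕ) (C : Finset V), C.card = k →
      (∀ u ∈ C, dg G C u ≤ (L u).card) →
      (∀ u ∈ C, ∃ s ∈ C, Relation.ReflTransGen (fun a b => G.Adj a b ∧ b ∈ C) u s ∧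
        dg G C s < (L s).card) → ∃ c, LCol G L C c := by
  classical
  intro k
  induction k with
  | zero =>
    intro C hC _ _
    rw [Finset.card_eq_zero] at hC
    subst hC
    exact ⟨fun _ => Classical.arbitrary α, by intro v hv; simp at hv, by intro v hv; simp at hv⟩
  | succ k ih =>
    intro C hC hL hs
    obtain ⟨u0, hu0⟩ := Finset.card_pos.1 (show 0 < C.card by omega)
    obtain ⟨v, hv, _, hvs⟩ := hs u0 hu0
    have hcard : (C.erase v).card = k := by rw [Finset.card_erase_of_mem hv, hC]; rfl
    obtain ⟨c, hc1, hc2⟩ := ih (C.erase v) hcard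
      (fun u hu => (ga1_dg_erase_le G C v u).trans (hL u (Finset.mem_of_mem_erase hu)))
      (fun u hu => by
        obtain ⟨s, hsC, hr, hsl⟩ := hs u (Finset.mem_of_mem_erase hu)
        have key : u ∈ C.erase v → ∃ s' ∈ C.erase v,
            Relation.ReflTransGen (fun a b => G.Adj a b ∧ b ∈ C.erase v) u s' ∧
              dg G (C.erase v) s' < (L s').card := by
          induction hr using Relation.ReflTransGen.head_induction_on with
          | refl =>
            intro h
            exact ⟨s, h, Relation.ReflTransGen.refl, (ga1_dg_erase_le G C v s).trans_lt hsl⟩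
          | head h' h ih' =>
            rename_i a b
            intro ha
            by_cases hb : b = v
            · subst hb
              exact ⟨a, ha, Relation.ReflTransGen.refl, (ga1_dg_erase_lt G hv h'.1).trans_le
                (hL a (Finset.mem_of_mem_erase ha))⟩
            · have hbC : b ∈ C.erase v := Finset.mem_erase.2 ⟨hb, h'.2⟩
              obtain ⟨s', h1, h2, h3⟩ := ih' hbC hbC
              exact ⟨s', h1, Relation.ReflTransGen.head ⟨h'.1, hbC⟩ h2, h3⟩
        exact key hu)
    have hex : ∃ a ∈ L v, ∀ w ∈ C, G.Adj v w → c w ≠ a := by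
      by_contra hno
      push Not at hno
      have h1 : L v ⊆ (C.filter (fun u => G.Adj v u)).image c := by
        intro a ha
        obtain ⟨w, hw, hvw, hcw⟩ := hno a ha
        exact Finset.mem_image.2 ⟨w, Finset.mem_filter.2 ⟨hw, hvw⟩, hcw⟩
      have h2 := (Finset.card_le_card h1).trans Finset.card_image_le
      unfold dg at hvs
      exact absurd hvs (not_lt.2 h2)
    obtain ⟨a, ha, hav⟩ := hex
    refine ⟨Function.update c v a, ?_, ?_⟩
    · intro w hw
      by_cases hwv : w = v
      · subst hwv
        rw [Function.update_self]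
        exact ha
      · rw [Function.update_of_ne hwv]
        exact hc1 w (Finset.mem_erase.2 ⟨hwv, hw⟩)
    · intro w hw w' hw' hadj
      by_cases hwv : w = v
      · subst hwv
        have hne : w' ≠ w := hadj.ne'
        rw [Function.update_self, Function.update_of_ne hne]
        exact fun h => hav w' hw' hadj h.symm
      · by_cases hwv' : w' = v
        · subst hwv'
          rw [Function.update_self, Function.update_of_ne hwv]
          exact hav w hw hadj.symm
        · rw [Function.update_of_ne hwv, Function.update_of_ne hwv']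
          exact hc2 w (Finset.mem_erase.2 ⟨hwv, hw⟩) w' (Finset.mem_erase.2 ⟨hwv', hw'⟩) hadj

/-- **Greedy colouring.** `G[C]` is connected, every list is at least as large as the degree in
`G[C]`, and the list of `v` is larger: then `G[C]` can be coloured from the lists.

Proof. Strong induction on `C.card` (generalising `L` and `v`). If `C = {v}`: `L v` is nonempty.
Otherwise every other vertex `u ∈ C` has a distance to `v` in `G[C]`; colour the vertices in the order of
decreasing distance to `v` (a vertex `u ≠ v` still has an uncoloured neighbour - the next one on a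
shortest path to `v` - when it is coloured, so at most `dg u - 1` colours are forbidden; `v` is
last). As an induction: choose a vertex `u ∈ C`, `u ≠ v`, at the largest distance from `v` in
`G[C]`; then `C.erase u` is still connected (shortest paths to `v` avoid `u`); `L u` is nonempty
(`dg G C u ≥ 1`), colour `u` with `a ∈ L u`, put `L' w = L w \ {a}` for the neighbours `w` of `u` and
`L' w = L w` otherwise: `dg` of the neighbours drops by one and lists drop by at most one.
(Alternatively take `u ≠ v` with `C.erase u` connected from the existence of two non-cut vertices.)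
-/
theorem greedy {α : Type} [DecidableEq α] (G : SimpleGraph V) (L : V → Finset α) (C : Finset V)
    (hC : Conn G C) (hL : ∀ u ∈ C, dg G C u ≤ (L u).card) (v : V) (hv : v ∈ C)
    (hs : dg G C v < (L v).card) : ∃ c, LCol G L C c := by
  classical
  have hne : (L v).Nonempty := Finset.card_pos.1 (by omega)
  have : Nonempty α := ⟨hne.choose⟩
  refine ga1_main G L C.card C rfl hL (fun u hu => ⟨v, hv, ?_, hs⟩)
  have h1 : (G.induce (C : Set V)).Reachable ⟨u, hu⟩ ⟨v, hv⟩ := hC.preconnected _ _
  rw [SimpleGraph.reachable_iff_reflTransGen] at h1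
  exact Relation.ReflTransGen.lift (r := (G.induce (C : Set V)).Adj) (p := fun a b => G.Adj a b ∧ b ∈ C)
    (fun z : {x // x ∈ (C : Set V)} => z.1) (fun a b hab => ⟨hab, Finset.mem_coe.1 b.2⟩) _ _ h1

end Pool.Agent.MP_528dc0_co

end

section

open Finset

namespace Pool.Agent.MP_528dc0_co

variable {V : Type} [Fintype V] [DecidableEq V]

/-- `G[C]` connected, lists at least the degrees except possibly at `v`: at least
`|L v| - dg G C v` colours of `v` extend.

Proof. Otherwise remove the extendable colours from `L v` (`L' = Function.update L v (L v \ FF …)`):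
the new list of `v` still has more than `dg G C v` elements, so `greedy` gives a colouring `c` from
`L'`, its colour `c v` is extendable for `L` (`L' ≤ L`) and not in `FF`, contradiction.
(`Finset.le_card_sdiff`.) -/
theorem surplus (G : SimpleGraph V) (L : V → Finset (Fin 4)) (C : Finset V) (hC : Conn G C)
    (v : V) (hv : v ∈ C) (hL : ∀ u ∈ C, u ≠ v → dg G C u ≤ (L u).card) :
    (L v).card ≤ (FF G L C v).card + dg G C v := by
  by_contra h
  have h1 : (L v).card - (FF G L C v).card ≤ (L v \ FF G L C v).card := Finset.le_card_sdiff _ _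
  have hlt : dg G C v < (L v \ FF G L C v).card := by omega
  obtain ⟨c, hc1, hc2⟩ := greedy G (Function.update L v (L v \ FF G L C v)) C hC (by
    intro u hu
    by_cases huv : u = v
    · subst huv
      rw [Function.update_self]
      exact hlt.le
    · rw [Function.update_of_ne huv]
      exact hL u hu huv) v hv (by rw [Function.update_self]; exact hlt)
  have h2 := hc1 v hv
  rw [Function.update_self, Finset.mem_sdiff] at h2
  apply h2.2
  classical
  unfold FF
  rw [Finset.mem_filter]
  refine ⟨Finset.mem_univ _, c, rfl, ?_, hc2⟩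
  intro u hu
  by_cases huv : u = v
  · rw [huv]; exact h2.1
  · have h3 := hc1 u hu
    rw [Function.update_of_ne huv] at h3
    exact h3

end Pool.Agent.MP_528dc0_co

end

section

open Finset

namespace Pool.Agent.MP_528dc0_co

variable {V : Type} [Fintype V] [DecidableEq V]

/-- Blocks are connected.  (`⊤`, and `SimpleGraph.cycleGraph_connected`.) -/
theorem blk_conn {m : ℕ} {B : SimpleGraph (Fin (m + 1))} (h : Blk m B) : B.Connected := by
  cases h with
  | k2 => exact SimpleGraph.connected_top
  | odd t ht => exact SimpleGraph.cycleGraph_connected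
  | k4 => exact SimpleGraph.connected_top

/-- A rooted Gallai tree contains its root and is connected.
Proof. Induction. For `glue`: all pieces are connected, the roots are joined along the edges of `B`
(`ha` with `u = y i`, `v = y j`), and `B` is connected. -/
theorem gt_conn {G : SimpleGraph V} {C : Finset V} {x : V} (h : GT G C x) : x ∈ C ∧ Conn G C := by
  induction h with
  | base x =>
    refine ⟨mem_singleton_self x, ?_⟩
    unfold Conn
    have : Subsingleton ((({x} : Finset V) : Set V)) := by
      rw [coe_singleton]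
      exact Set.subsingleton_singleton.coe_sort
    have : Nonempty ((({x} : Finset V) : Set V)) := ⟨⟨x, by simp⟩⟩
    exact ⟨fun u v => by rw [Subsingleton.elim u v]⟩
  | glue m B hB C y hC hd ha ih =>
    have hsub : ∀ i, ((C i : Finset V) : Set V) ⊆ ((univ.biUnion C : Finset V) : Set V) := by
      intro i w hw
      rw [mem_coe] at hw ⊢
      exact mem_biUnion.2 ⟨i, mem_univ i, hw⟩
    have hy : ∀ i, y i ∈ ((univ.biUnion C : Finset V) : Set V) := fun i => hsub i (ih i).1
    refine ⟨hy 0, ?_⟩
    unfold Conn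
    have hB' : ∀ i, (G.induce ((univ.biUnion C : Finset V) : Set V)).Reachable ⟨y i, hy i⟩
        ⟨y 0, hy 0⟩ := by
      intro i
      obtain ⟨p⟩ := (blk_conn hB).preconnected i 0
      have key : ∀ (i j : Fin (m + 1)) (_ : B.Walk i j),
          (G.induce ((univ.biUnion C : Finset V) : Set V)).Reachable ⟨y i, hy i⟩ ⟨y j, hy j⟩ := by
        intro i j p
        induction p with
        | nil => exact SimpleGraph.Reachable.refl _
        | cons hadj _ ih2 =>
          refine SimpleGraph.Reachable.trans (SimpleGraph.Adj.reachable ?_) ih2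
          show G.Adj _ _
          exact (ha _ _ hadj.ne _ (ih _).1 _ (ih _).1).2 ⟨rfl, rfl, hadj⟩
      exact key i 0 p
    have hall : ∀ w : ((univ.biUnion C : Finset V) : Set V),
        (G.induce ((univ.biUnion C : Finset V) : Set V)).Reachable w ⟨y 0, hy 0⟩ := by
      rintro ⟨w, hw⟩
      obtain ⟨i, _, hi⟩ := mem_biUnion.1 (mem_coe.1 hw)
      have h1 := (ih i).2.preconnected ⟨w, mem_coe.2 hi⟩ ⟨y i, mem_coe.2 (ih i).1⟩
      have h2 := h1.map (SimpleGraph.induceHomOfLE G (hsub i)).toHom
      exact h2.trans (hB' i)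
    have : Nonempty (((univ.biUnion C : Finset V) : Set V)) := ⟨⟨y 0, hy 0⟩⟩
    exact ⟨fun u v => (hall u).trans (hall v).symm⟩

end Pool.Agent.MP_528dc0_co

end

section

open Finset

namespace Pool.Agent.MP_528dc0_co

variable {V : Type} [Fintype V] [DecidableEq V]

/-- If `C₁` is a Gallai tree rooted at `x`, `v ∈ C₁`, and `C₂` is one rooted at `v` which meets `C₁`
only in `v`, without edges between `C₁ \ v` and `C₂ \ v`, then `C₁ ∪ C₂` is one rooted at `x`.

Proof. Induction on `GT G C₁ x`. `base`: `v = x`, `C₁ ∪ C₂ = C₂`. `glue`: `v ∈ C i₀` for exactly one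
`i₀`; by induction `GT G (C i₀ ∪ C₂) (y i₀)` and `C' = Function.update C i₀ (C i₀ ∪ C₂)` satisfies
the hypotheses of `glue` (disjointness: `C₂ ∩ C j ⊆ {v} ∩ C j = ∅` for `j ≠ i₀`; adjacency between
`C₂` and `C j`, `j ≠ i₀`: for `w ∈ C₂`, `w ≠ v` there is none, and `w ≠ y i₀` or `w = v`...
precisely `y i₀ ∈ C i₀`, so `w ∈ C₂ \ {v}` is not `y i₀`). -/
theorem gt_attach {G : SimpleGraph V} {C₁ C₂ : Finset V} {x v : V} (h₁ : GT G C₁ x)
    (hv : v ∈ C₁) (h₂ : GT G C₂ v) (hi : C₁ ∩ C₂ = {v})
    (hn : ∀ a ∈ C₁, ∀ b ∈ C₂, a ≠ v → b ≠ v → ¬ G.Adj a b) : GT G (C₁ ∪ C₂) x := by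
  induction h₁ with
  | base x =>
    have hx : v = x := mem_singleton.1 hv
    subst hx
    have h3 : ({v} : Finset V) ∪ C₂ = C₂ :=
      union_eq_right.2 (singleton_subset_iff.2 (gt_conn h₂).1)
    rw [h3]
    exact h₂
  | glue m B hB C y hC hd ha ih =>
    obtain ⟨i₀, _, hi₀⟩ := mem_biUnion.1 hv
    have hmem : ∀ i w, w ∈ C i → w ∈ univ.biUnion C := fun i w hw =>
      mem_biUnion.2 ⟨i, mem_univ i, hw⟩
    have hv2 : v ∈ C₂ := (gt_conn h₂).1
    have hone : ∀ i w, w ∈ C i → w ∈ C₂ → w = v := by
      intro i w h1 h2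
      have h3 : w ∈ univ.biUnion C ∩ C₂ := mem_inter.2 ⟨hmem i w h1, h2⟩
      rw [hi] at h3
      exact mem_singleton.1 h3
    have hvj : ∀ j, j ≠ i₀ → v ∉ C j := by
      intro j hj h
      exact (disjoint_left.1 (hd j i₀ hj)) h hi₀
    have hnew : GT G (C i₀ ∪ C₂) (y i₀) := by
      refine ih i₀ hi₀ ?_ ?_
      · refine Subset.antisymm ?_ ?_
        · intro w hw
          rw [mem_inter] at hw
          exact mem_singleton.2 (hone i₀ w hw.1 hw.2)
        · exact singleton_subset_iff.2 (mem_inter.2 ⟨hi₀, hv2⟩)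
      · intro a h1 b h2 h3 h4
        exact hn a (hmem i₀ a h1) b h2 h3 h4
    have hyi : y i₀ ∈ C i₀ := (gt_conn (hC i₀)).1
    have hun : univ.biUnion C ∪ C₂ = univ.biUnion (Function.update C i₀ (C i₀ ∪ C₂)) := by
      ext w
      constructor
      · intro hw
        rcases mem_union.1 hw with h | h
        · obtain ⟨i, _, h1⟩ := mem_biUnion.1 h
          refine mem_biUnion.2 ⟨i, mem_univ i, ?_⟩
          by_cases hii : i = i₀
          · subst hii
            rw [Function.update_self]
            exact mem_union_left _ h1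
          · rw [Function.update_of_ne hii]
            exact h1
        · refine mem_biUnion.2 ⟨i₀, mem_univ i₀, ?_⟩
          rw [Function.update_self]
          exact mem_union_right _ h
      · intro hw
        obtain ⟨i, _, h1⟩ := mem_biUnion.1 hw
        by_cases hii : i = i₀
        · subst hii
          rw [Function.update_self] at h1
          rcases mem_union.1 h1 with h | h
          · exact mem_union_left _ (hmem i w h)
          · exact mem_union_right _ h
        · rw [Function.update_of_ne hii] at h1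
          exact mem_union_left _ (hmem i w h1)
    rw [hun]
    refine GT.glue m B hB (Function.update C i₀ (C i₀ ∪ C₂)) y ?_ ?_ ?_
    · intro i
      by_cases hii : i = i₀
      · subst hii
        rw [Function.update_self]
        exact hnew
      · rw [Function.update_of_ne hii]
        exact hC i
    · have key : ∀ j, j ≠ i₀ → Disjoint (C i₀ ∪ C₂) (C j) := by
        intro j hj
        rw [disjoint_left]
        intro w h1 h2
        rcases mem_union.1 h1 with h | h
        · exact disjoint_left.1 (hd j i₀ hj) h2 h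
        · have h3 := hone j w h2 h
          subst h3
          exact hvj j hj h2
      intro i j hij
      by_cases hii : i = i₀
      · subst hii
        rw [Function.update_self, Function.update_of_ne (Ne.symm hij)]
        exact key j (Ne.symm hij)
      · by_cases hjj : j = i₀
        · subst hjj
          rw [Function.update_self, Function.update_of_ne hii]
          exact (key i hii).symm
        · rw [Function.update_of_ne hii, Function.update_of_ne hjj]
          exact hd i j hij
    · have key : ∀ j, j ≠ i₀ → ∀ u ∈ C₂, u ∉ C i₀ → ∀ w ∈ C j, ¬ G.Adj w u ∧ u ≠ y i₀ := by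
        intro j hj u hu hu' w hw
        refine ⟨?_, ?_⟩
        · refine hn w (hmem j w hw) u hu ?_ ?_
          · rintro rfl
            exact hvj j hj hw
          · rintro rfl
            exact hu' hi₀
        · rintro rfl
          exact hu' hyi
      intro i j hij u hu w hw
      by_cases hii : i = i₀
      · subst hii
        rw [Function.update_self] at hu
        rw [Function.update_of_ne (Ne.symm hij)] at hw
        by_cases hu' : u ∈ C i
        · exact ha i j hij u hu' w hw
        · have hu2 : u ∈ C₂ := (mem_union.1 hu).resolve_left hu'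
          obtain ⟨h1, h2⟩ := key j (Ne.symm hij) u hu2 hu' w hw
          exact ⟨fun h => absurd h.symm h1, fun h => absurd h.1 h2⟩
      · by_cases hjj : j = i₀
        · subst hjj
          rw [Function.update_self] at hw
          rw [Function.update_of_ne hii] at hu
          by_cases hw' : w ∈ C j
          · exact ha i j hij u hu w hw'
          · have hw2 : w ∈ C₂ := (mem_union.1 hw).resolve_left hw'
            obtain ⟨h1, h2⟩ := key i hii w hw2 hw' u hu
            exact ⟨fun h => absurd h h1, fun h => absurd h.2.1 h2⟩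
        · rw [Function.update_of_ne hii] at hu
          rw [Function.update_of_ne hjj] at hw
          exact ha i j hij u hu w hw

end Pool.Agent.MP_528dc0_co

end

section

open Finset

namespace Pool.Agent.MP_528dc0_co

variable {V : Type} [Fintype V] [DecidableEq V]

/-- A union of sides of the cut vertex, together with the cut vertex, is connected. -/
private theorem ga5_side (G : SimpleGraph V) (C S : Finset V) (hC : Conn G C) (v : V) (hv : v ∈ C)
    (hSC : S ⊆ C.erase v)
    (hcl : ∀ a ∈ S, ∀ b ∈ C.erase v, G.Adj a b → b ∈ S) :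
    Conn G (insert v S) := by
  unfold Conn
  have hvm : v ∈ ((insert v S : Finset V) : Set V) := mem_coe.2 (mem_insert_self v S)
  have key : ∀ (x y : ((C : Finset V) : Set V)) (_ : (G.induce ((C : Finset V) : Set V)).Walk x y)
      (_ : y.1 = v) (hx : x.1 ∈ ((insert v S : Finset V) : Set V)),
      (G.induce ((insert v S : Finset V) : Set V)).Reachable ⟨x.1, hx⟩ ⟨v, hvm⟩ := by
    intro x y p
    induction p with
    | nil =>
      intro hy hx
      have : (⟨_, hx⟩ : ((insert v S : Finset V) : Set V)) = ⟨v, hvm⟩ := Subtype.ext hy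
      rw [this]
    | @cons x z y hadj q ih =>
      intro hy hx
      by_cases hxv : x.1 = v
      · have : (⟨x.1, hx⟩ : ((insert v S : Finset V) : Set V)) = ⟨v, hvm⟩ := Subtype.ext hxv
        rw [this]
      · have hadj' : G.Adj x.1 z.1 := hadj
        have hxS : x.1 ∈ S := by
          rcases mem_insert.1 (mem_coe.1 hx) with h | h
          · exact absurd h hxv
          · exact h
        by_cases hzv : z.1 = v
        · refine SimpleGraph.Adj.reachable ?_
          show G.Adj x.1 v
          rw [← hzv]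
          exact hadj'
        · have hzS : z.1 ∈ S := hcl _ hxS _ (mem_erase.2 ⟨hzv, mem_coe.1 z.2⟩) hadj'
          have hz : z.1 ∈ ((insert v S : Finset V) : Set V) :=
            mem_coe.2 (mem_insert_of_mem hzS)
          refine SimpleGraph.Reachable.trans (SimpleGraph.Adj.reachable ?_) (ih hy hz)
          exact hadj'
  have hall : ∀ w : ((insert v S : Finset V) : Set V),
      (G.induce ((insert v S : Finset V) : Set V)).Reachable w ⟨v, hvm⟩ := by
    rintro ⟨w, hw⟩
    have hwC : w ∈ C := by
      rcases mem_insert.1 (mem_coe.1 hw) with h | h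
      · rw [h]; exact hv
      · exact mem_of_mem_erase (hSC h)
    obtain ⟨p⟩ := hC.preconnected ⟨w, mem_coe.2 hwC⟩ ⟨v, mem_coe.2 hv⟩
    exact key _ _ p rfl hw
  have : Nonempty (((insert v S : Finset V) : Set V)) := ⟨⟨v, hvm⟩⟩
  exact ⟨fun a b => (hall a).trans (hall b).symm⟩

/-- A cut vertex `v` of `G[C]` splits `C` into two smaller connected pieces which share only `v`.
Proof. `C.erase v` is not preconnected: there are `a, b ∈ C.erase v` in different components of
`G[C.erase v]`. Let `A` be the component of `a` (as a Finset), `C₁ = insert v A`,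
`C₂ = C \ A` (contains `v` and `b`). No edge between `A` and `C \ insert v A`. Each is connected:
every vertex `w` of `C₁` is joined to `v` in `G[C]`; the initial segment of a walk from `w` up to
the first visit of `v` stays on the same side. -/
theorem cut_split (G : SimpleGraph V) (C : Finset V) (hC : Conn G C) (v : V) (hv : v ∈ C)
    (hcut : ¬ (G.induce ((C.erase v : Finset V) : Set V)).Preconnected) :
    ∃ C₁ C₂ : Finset V, C₁ ∪ C₂ = C ∧ C₁ ∩ C₂ = {v} ∧ 2 ≤ C₁.card ∧ 2 ≤ C₂.card ∧
      Conn G C₁ ∧ Conn G C₂ ∧ (∀ a ∈ C₁, ∀ b ∈ C₂, a ≠ v → b ≠ v → ¬ G.Adj a b) := by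
  classical
  have hcut' : ∃ a b : ((C.erase v : Finset V) : Set V),
      ¬ (G.induce ((C.erase v : Finset V) : Set V)).Reachable a b := by
    by_contra h
    apply hcut
    intro a b
    by_contra hab
    exact h ⟨a, b, hab⟩
  obtain ⟨a, b, hab⟩ := hcut'
  let A : Finset V := (C.erase v).filter (fun w =>
    ∃ hw : w ∈ ((C.erase v : Finset V) : Set V),
      (G.induce ((C.erase v : Finset V) : Set V)).Reachable a ⟨w, hw⟩)
  have hA : ∀ w, w ∈ A ↔ ∃ hw : w ∈ ((C.erase v : Finset V) : Set V),
      (G.induce ((C.erase v : Finset V) : Set V)).Reachable a ⟨w, hw⟩ := by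
    intro w
    constructor
    · intro h
      exact (mem_filter.1 h).2
    · rintro ⟨hw, h⟩
      exact mem_filter.2 ⟨mem_coe.1 hw, hw, h⟩
  have hAC : A ⊆ C.erase v := filter_subset _ _
  have hvA : v ∉ A := fun h => (mem_erase.1 (hAC h)).1 rfl
  have haA : a.1 ∈ A := (hA _).2 ⟨a.2, SimpleGraph.Reachable.refl _⟩
  have hbA : b.1 ∉ A := by
    intro h
    obtain ⟨hw, h⟩ := (hA _).1 h
    exact hab h
  have hstep : ∀ x ∈ A, ∀ y ∈ C.erase v, G.Adj x y → y ∈ A := by
    intro x hx y hy hxy
    obtain ⟨hw, h⟩ := (hA _).1 hx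
    refine (hA _).2 ⟨mem_coe.2 hy, h.trans (SimpleGraph.Adj.reachable ?_)⟩
    exact hxy
  have hBC : (C.erase v) \ A ⊆ C.erase v := sdiff_subset
  have hstep2 : ∀ x ∈ (C.erase v) \ A, ∀ y ∈ C.erase v, G.Adj x y → y ∈ (C.erase v) \ A := by
    intro x hx y hy hxy
    refine mem_sdiff.2 ⟨hy, fun hyA => ?_⟩
    exact (mem_sdiff.1 hx).2 (hstep y hyA x (mem_sdiff.1 hx).1 hxy.symm)
  have haC : a.1 ∈ C.erase v := mem_coe.1 a.2
  have hbC : b.1 ∈ C.erase v := mem_coe.1 b.2
  refine ⟨insert v A, insert v ((C.erase v) \ A), ?_, ?_, ?_, ?_,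
    ga5_side G C A hC v hv hAC hstep, ga5_side G C _ hC v hv hBC hstep2, ?_⟩
  · ext w
    simp only [mem_union, mem_insert, mem_sdiff, mem_erase]
    constructor
    · rintro ((h | h) | (h | h))
      · rw [h]; exact hv
      · exact mem_of_mem_erase (hAC h)
      · rw [h]; exact hv
      · exact h.1.2
    · intro hw
      by_cases hwv : w = v
      · exact Or.inl (Or.inl hwv)
      · by_cases hwA : w ∈ A
        · exact Or.inl (Or.inr hwA)
        · exact Or.inr (Or.inr ⟨⟨hwv, hw⟩, hwA⟩)
  · ext w
    simp only [mem_inter, mem_insert, mem_sdiff, mem_erase, mem_singleton]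
    constructor
    · rintro ⟨h1 | h1, h2 | h2⟩
      · exact h1
      · exact h1
      · exact h2
      · exact absurd h1 h2.2
    · intro h
      exact ⟨Or.inl h, Or.inl h⟩
  · have hsub : ({v, a.1} : Finset V) ⊆ insert v A := by
      intro w hw
      rcases mem_insert.1 hw with h | h
      · rw [h]; exact mem_insert_self _ _
      · rw [mem_singleton.1 h]; exact mem_insert_of_mem haA
    have hne : v ≠ a.1 := fun h => (mem_erase.1 haC).1 h.symm
    calc 2 = ({v, a.1} : Finset V).card := (card_pair hne).symm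
      _ ≤ _ := card_le_card hsub
  · have hsub : ({v, b.1} : Finset V) ⊆ insert v ((C.erase v) \ A) := by
      intro w hw
      rcases mem_insert.1 hw with h | h
      · rw [h]; exact mem_insert_self _ _
      · rw [mem_singleton.1 h]; exact mem_insert_of_mem (mem_sdiff.2 ⟨hbC, hbA⟩)
    have hne : v ≠ b.1 := fun h => (mem_erase.1 hbC).1 h.symm
    calc 2 = ({v, b.1} : Finset V).card := (card_pair hne).symm
      _ ≤ _ := card_le_card hsub
  · intro x hx y hy hxv hyv hxy
    have hxA : x ∈ A := (mem_insert.1 hx).resolve_left hxv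
    have hyB := (mem_insert.1 hy).resolve_left hyv
    exact (mem_sdiff.1 hyB).2 (hstep x hxA y (mem_sdiff.1 hyB).1 hxy)

end Pool.Agent.MP_528dc0_co

end

section

open Finset

namespace Pool.Agent.MP_528dc0_co

variable {V : Type} [Fintype V] [DecidableEq V]

/-- If the lists are bad for `C = C₁ ∪ C₂` (cut vertex `v`), then changing only the list of `v`
gives bad lists for `C₁`, still at least as large as the degrees.

Proof. Let `A = FF G L C₁ v`, `B = FF G L C₂ v`; both are subsets of `L v`. `A ∩ B = ∅`: colourings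
`c₁` of `C₁` and `c₂` of `C₂` with the same colour at `v` combine to one of `C` (no edges across).
New list of `v`: `L v \ A` (`L₁ = Function.update L v (L v \ A)`). It is bad for `C₁`.
`dg G C v = dg G C₁ v + dg G C₂ v`, and by `surplus` for `C₂` (degrees of `u ∈ C₂`, `u ≠ v`, are the
same in `C` and `C₂`): `|L v| ≤ |B| + dg G C₂ v`, and `B ⊆ L v \ A`, so
`dg G C₁ v ≤ |L v| - dg G C₂ v ≤ |B| ≤ |L v \ A|`. -/
theorem bad_split (G : SimpleGraph V) (L : V → Finset (Fin 4)) (C₁ C₂ : Finset V) (v : V)
    (hi : C₁ ∩ C₂ = {v}) (h₂ : Conn G C₂)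
    (hn : ∀ a ∈ C₁, ∀ b ∈ C₂, a ≠ v → b ≠ v → ¬ G.Adj a b)
    (hL : ∀ u ∈ C₁ ∪ C₂, dg G (C₁ ∪ C₂) u ≤ (L u).card)
    (hbad : ¬ ∃ c, LCol G L (C₁ ∪ C₂) c) :
    ∃ L₁ : V → Finset (Fin 4), (∀ u ∈ C₁, dg G C₁ u ≤ (L₁ u).card) ∧ ¬ ∃ c, LCol G L₁ C₁ c := by
  classical
  have hv1 : v ∈ C₁ := (Finset.mem_inter.1 (hi ▸ Finset.mem_singleton_self v)).1
  have hv2 : v ∈ C₂ := (Finset.mem_inter.1 (hi ▸ Finset.mem_singleton_self v)).2
  have hmono : ∀ (C D : Finset V) (u : V), C ⊆ D → dg G C u ≤ dg G D u := fun C D u h =>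
    Finset.card_le_card (Finset.filter_subset_filter _ h)
  have hdeg : dg G C₁ v + dg G C₂ v = dg G (C₁ ∪ C₂) v := by
    unfold dg
    rw [Finset.filter_union, Finset.card_union_of_disjoint]
    rw [Finset.disjoint_left]
    intro u hu hu'
    rw [Finset.mem_filter] at hu hu'
    have h1 : u ∈ C₁ ∩ C₂ := Finset.mem_inter.2 ⟨hu.1, hu'.1⟩
    rw [hi, Finset.mem_singleton] at h1
    rw [h1] at hu
    exact G.irrefl hu.2
  have hsur := surplus G L C₂ h₂ v hv2 fun u hu _ =>
    (hmono _ _ u Finset.subset_union_right).trans (hL u (Finset.mem_union_right _ hu))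
  have hBA : FF G L C₂ v ⊆ L v \ FF G L C₁ v := by
    intro b hb
    obtain ⟨c₂, hc₂v, hc₂⟩ := (Finset.mem_filter.1 hb).2
    rw [Finset.mem_sdiff]
    refine ⟨hc₂v ▸ hc₂.1 v hv2, fun hbA => hbad ?_⟩
    obtain ⟨c₁, hc₁v, hc₁⟩ := (Finset.mem_filter.1 hbA).2
    have hin : ∀ u ∈ C₁ ∪ C₂, u ∉ C₁ → u ∈ C₂ := fun u hu hu1 =>
      (Finset.mem_union.1 hu).resolve_left hu1
    have hcross : ∀ u ∈ C₁, ∀ w ∈ C₂, w ∉ C₁ → G.Adj u w → c₁ u ≠ c₂ w := by
      intro u hu w hw hw1 huw
      by_cases huv : u = v
      · rw [huv] at huw ⊢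
        rw [hc₁v, ← hc₂v]
        exact hc₂.2 v hv2 w hw huw
      · exact absurd huw (hn u hu w hw huv fun h => hw1 (h ▸ hv1))
    refine ⟨fun u => if u ∈ C₁ then c₁ u else c₂ u, fun u hu => ?_, fun u hu w hw huw => ?_⟩
    · show (if u ∈ C₁ then c₁ u else c₂ u) ∈ L u
      split_ifs with h
      · exact hc₁.1 u h
      · exact hc₂.1 u (hin u hu h)
    · show (if u ∈ C₁ then c₁ u else c₂ u) ≠ (if w ∈ C₁ then c₁ w else c₂ w)
      split_ifs with h h' h'
      · exact hc₁.2 u h w h' huw
      · exact hcross u h w (hin w hw h') h' huw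
      · exact (hcross w h' u (hin u hu h) h huw.symm).symm
      · exact hc₂.2 u (hin u hu h) w (hin w hw h') huw
  refine ⟨Function.update L v (L v \ FF G L C₁ v), fun u hu => ?_, ?_⟩
  · by_cases huv : u = v
    · subst huv
      rw [Function.update_self]
      have h1 := Finset.card_le_card hBA
      have h2 := hL u (Finset.mem_union_left _ hu)
      omega
    · rw [Function.update_of_ne huv]
      exact (hmono _ _ u Finset.subset_union_left).trans (hL u (Finset.mem_union_left _ hu))
  · rintro ⟨c, hc⟩
    have h1 := hc.1 v hv1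
    rw [Function.update_self, Finset.mem_sdiff] at h1
    refine h1.2 (Finset.mem_filter.2 ⟨Finset.mem_univ _, c, rfl, fun u hu => ?_, hc.2⟩)
    by_cases huv : u = v
    · rw [huv]
      exact h1.1
    · have h2 := hc.1 u hu
      rw [Function.update_of_ne huv] at h2
      exact h2

end Pool.Agent.MP_528dc0_co

end

section

open Finset

namespace Pool.Agent.MP_528dc0_co

variable {V : Type} [Fintype V] [DecidableEq V]

theorem ga7_dg (G : SimpleGraph V) (C : Finset V) (v u : V) (hv : v ∈ C) (h : G.Adj v u) :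
    dg G C u = dg G (C.erase v) u + 1 := by
  classical
  unfold dg
  have h1 : C.filter (fun w => G.Adj u w) =
      insert v ((C.erase v).filter (fun w => G.Adj u w)) := by
    ext w
    simp only [Finset.mem_filter, Finset.mem_insert, Finset.mem_erase]
    constructor
    · rintro ⟨hw, ha⟩
      by_cases hwv : w = v
      · exact Or.inl hwv
      · exact Or.inr ⟨⟨hwv, hw⟩, ha⟩
    · rintro (rfl | ⟨⟨_, hw⟩, ha⟩)
      · exact ⟨hv, h.symm⟩
      · exact ⟨hw, ha⟩
  have h2 : v ∉ (C.erase v).filter (fun w => G.Adj u w) := by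
    simp
  have h3 := congrArg Finset.card h1
  rw [Finset.card_insert_of_notMem h2] at h3
  convert h3

theorem ga7_dg_le (G : SimpleGraph V) (C : Finset V) (v u : V) :
    dg G (C.erase v) u ≤ dg G C u := by
  classical
  unfold dg
  exact Finset.card_le_card (Finset.filter_subset_filter _ (Finset.erase_subset _ _))

open Classical in
/-- lists after colouring `v` with `a` -/
noncomputable def ga7_L (G : SimpleGraph V) (L : V → Finset (Fin 4)) (v : V) (a : Fin 4) :
    V → Finset (Fin 4) := fun w => if G.Adj v w then (L w).erase a else L w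

theorem ga7_card (G : SimpleGraph V) (L : V → Finset (Fin 4)) (C : Finset V) (v : V) (hv : v ∈ C)
    (a : Fin 4) (hL : ∀ u ∈ C, dg G C u ≤ (L u).card) :
    ∀ u ∈ C.erase v, dg G (C.erase v) u ≤ (ga7_L G L v a u).card := by
  intro u hu
  have huC := Finset.mem_of_mem_erase hu
  unfold ga7_L
  split_ifs with h
  · have h1 := ga7_dg G C v u hv h
    have h2 := hL u huC
    have h3 : (L u).card - 1 ≤ ((L u).erase a).card := Finset.pred_card_le_card_erase
    omega
  · exact (ga7_dg_le G C v u).trans (hL u huC)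

theorem ga7_ext (G : SimpleGraph V) (L : V → Finset (Fin 4)) (C : Finset V) (v : V)
    (a : Fin 4) (ha : a ∈ L v) (h : ∃ c, LCol G (ga7_L G L v a) (C.erase v) c) :
    ∃ c, LCol G L C c := by
  obtain ⟨c, hc1, hc2⟩ := h
  refine ⟨fun w => if w = v then a else c w, ?_, ?_⟩
  · intro w hw
    show (if w = v then a else c w) ∈ L w
    split_ifs with hwv
    · rw [hwv]
      exact ha
    · have h1 := hc1 w (Finset.mem_erase.2 ⟨hwv, hw⟩)
      unfold ga7_L at h1
      split_ifs at h1 with h2
      · exact Finset.mem_of_mem_erase h1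
      · exact h1
  · intro u hu w hw huw
    show (if u = v then a else c u) ≠ (if w = v then a else c w)
    have key : ∀ x ∈ C, x ≠ v → G.Adj v x → c x ≠ a := by
      intro x hx hxv hvx
      have h1 := hc1 x (Finset.mem_erase.2 ⟨hxv, hx⟩)
      unfold ga7_L at h1
      rw [if_pos hvx] at h1
      exact Finset.ne_of_mem_erase h1
    split_ifs with h1 h2 h2
    · rw [h1, h2] at huw
      exact absurd huw (G.loopless.irrefl v)
    · rw [h1] at huw
      exact (key w hw h2 huw).symm
    · rw [h2] at huw
      exact key u hu h1 huw.symm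
    · exact hc2 u (Finset.mem_erase.2 ⟨h1, hu⟩) w (Finset.mem_erase.2 ⟨h2, hw⟩) huw

/-- If every `C.erase v` is connected, the lists are bad, at least the degrees and `|C| ≥ 2`, then
all lists are the same set `X` and all degrees are `|X|`.

Proof. By `greedy`, `|L u| = dg G C u` for all `u ∈ C` (otherwise there is a colouring). Let `v ∈ C`
and `a ∈ L v` and `u ∈ C` a neighbour of `v`. Claim `a ∈ L u`. Colour `v` with `a`: on `C.erase v`
(connected) take `L' w = L w \ {a}` for the neighbours `w` of `v`, `L' w = L w` otherwise. The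
degrees of neighbours drop by one, so the lists are still at least the degrees, and they are bad
(a colouring of `C.erase v` from `L'` extends by `c v = a`). If `a ∉ L u` then the list of `u` did not
drop while its degree did, so `greedy` on `C.erase v` gives a colouring, contradiction. Hence
`L v ⊆ L u` for adjacent vertices, by symmetry `L v = L u`, and `G[C]` is connected. -/
theorem bad_const (G : SimpleGraph V) (L : V → Finset (Fin 4)) (C : Finset V) (hC : Conn G C)
    (h2 : 2 ≤ C.card) (hcut : ∀ v ∈ C, (G.induce ((C.erase v : Finset V) : Set V)).Preconnected)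
    (hL : ∀ u ∈ C, dg G C u ≤ (L u).card) (hbad : ¬ ∃ c, LCol G L C c) :
    ∃ X : Finset (Fin 4), ∀ u ∈ C, L u = X ∧ dg G C u = X.card := by
  have hcard : ∀ u ∈ C, dg G C u = (L u).card := by
    intro u hu
    refine le_antisymm (hL u hu) (not_lt.1 fun hlt => hbad (greedy G L C hC hL u hu hlt))
  have hsub : ∀ v ∈ C, ∀ u ∈ C, G.Adj v u → L v ⊆ L u := by
    intro v hv u hu hvu a ha
    by_contra hau
    apply hbad
    apply ga7_ext G L C v a ha
    have hue : u ∈ C.erase v := Finset.mem_erase.2 ⟨hvu.ne', hu⟩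
    have hcon : Conn G (C.erase v) := by
      have : Nonempty (((C.erase v : Finset V) : Set V)) := ⟨⟨u, hue⟩⟩
      exact ⟨hcut v hv⟩
    refine greedy G (ga7_L G L v a) (C.erase v) hcon (ga7_card G L C v hv a hL) u hue ?_
    unfold ga7_L
    rw [if_pos hvu, Finset.erase_eq_of_notMem hau]
    have h1 := ga7_dg G C v u hv hvu
    have h2 := hL u hu
    omega
  have heq : ∀ (x y : ((C : Finset V) : Set V)), (G.induce ((C : Finset V) : Set V)).Reachable x y →
      L x.1 = L y.1 := by
    intro x y hxy
    obtain ⟨p⟩ := hxy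
    induction p with
    | nil => rfl
    | @cons a b c hab p ih =>
      rw [← ih]
      have hadj : G.Adj a.1 b.1 := hab
      exact Finset.Subset.antisymm (hsub a.1 a.2 b.1 b.2 hadj) (hsub b.1 b.2 a.1 a.2 hadj.symm)
  obtain ⟨v0, hv0⟩ : C.Nonempty := Finset.card_pos.1 (by omega)
  refine ⟨L v0, fun u hu => ?_⟩
  have h1 : L u = L v0 := heq ⟨u, hu⟩ ⟨v0, hv0⟩ (hC.preconnected _ _)
  exact ⟨h1, by rw [hcard u hu, h1]⟩

/-- The lists which remain on `C.erase v` after colouring `v` are bad and at least the degrees. -/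
theorem bad_erase (G : SimpleGraph V) (L : V → Finset (Fin 4)) (C : Finset V) (v : V) (hv : v ∈ C)
    (hL : ∀ u ∈ C, dg G C u ≤ (L u).card) (hbad : ¬ ∃ c, LCol G L C c) (hne : (L v).Nonempty) :
    ∃ L' : V → Finset (Fin 4), (∀ u ∈ C.erase v, dg G (C.erase v) u ≤ (L' u).card) ∧
      ¬ ∃ c, LCol G L' (C.erase v) c := by
  obtain ⟨a, ha⟩ := hne
  exact ⟨ga7_L G L v a, ga7_card G L C v hv a hL, fun h => hbad (ga7_ext G L C v a ha h)⟩

end Pool.Agent.MP_528dc0_co

end

section

open Finset

namespace Pool.Agent.MP_528dc0_co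

variable {V : Type} [Fintype V] [DecidableEq V]

theorem ga8_m_pos {m : ℕ} {B : SimpleGraph (Fin (m + 1))} (h : Blk m B) : 1 ≤ m := by
  cases h with
  | k2 => exact le_rfl
  | odd t ht => omega
  | k4 => norm_num

theorem ga8_bd_pos {m : ℕ} {B : SimpleGraph (Fin (m + 1))} (h : Blk m B) : 1 ≤ bd m := by
  have := ga8_m_pos h
  unfold bd
  split_ifs <;> omega

open Classical in
theorem ga8_deg {m : ℕ} {B : SimpleGraph (Fin (m + 1))} (h : Blk m B) (i : Fin (m + 1)) :
    (univ.filter (fun j => B.Adj i j)).card = bd m := by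
  have h1 : ∀ (n : ℕ) (i : Fin (n + 1)),
      (univ.filter (fun j => (⊤ : SimpleGraph (Fin (n + 1))).Adj i j)).card = n := by
    intro n i
    have h2 : univ.filter (fun j => (⊤ : SimpleGraph (Fin (n + 1))).Adj i j) = univ.erase i := by
      ext j
      simp [SimpleGraph.top_adj, eq_comm]
    rw [h2, Finset.card_erase_of_mem (Finset.mem_univ _), Finset.card_univ, Fintype.card_fin]
    rfl
  cases h with
  | k2 =>
    show _ = 1
    convert h1 1 i
  | k4 =>
    show _ = 3
    convert h1 3 i
  | odd t ht =>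
    obtain ⟨s, rfl⟩ : ∃ s, t = s + 1 := ⟨t - 1, by omega⟩
    have h2 : ((SimpleGraph.cycleGraph (2 * (s + 1) + 1)).neighborFinset i).card = 2 :=
      SimpleGraph.cycleGraph_degree_three_le (n := 2 * s) (v := i)
    have h3 : univ.filter (fun j => (SimpleGraph.cycleGraph (2 * (s + 1) + 1)).Adj i j) =
        (SimpleGraph.cycleGraph (2 * (s + 1) + 1)).neighborFinset i := by
      ext j
      rw [SimpleGraph.mem_neighborFinset]
      simp
    have h4 : bd (2 * (s + 1)) = 2 := by
      unfold bd
      rw [if_neg (by omega)]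
    rw [h4]
    rw [← h3] at h2
    convert h2

open Classical in
theorem ga8_dg_sum {G : SimpleGraph V} {m : ℕ} {C : Fin (m + 1) → Finset V}
    (hd : ∀ i j, i ≠ j → Disjoint (C i) (C j)) (u : V) :
    dg G (univ.biUnion C) u = ∑ j, ((C j).filter (fun w => G.Adj u w)).card := by
  unfold dg
  rw [Finset.filter_biUnion, Finset.card_biUnion]
  intro i _ j _ hij
  exact Finset.disjoint_filter_filter (hd i j hij)

open Classical in
theorem ga8_dg_root {G : SimpleGraph V} {m : ℕ} {B : SimpleGraph (Fin (m + 1))} (hB : Blk m B)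
    {C : Fin (m + 1) → Finset V} {y : Fin (m + 1) → V} (hC : ∀ i, GT G (C i) (y i))
    (hd : ∀ i j, i ≠ j → Disjoint (C i) (C j))
    (ha : ∀ i j, i ≠ j → ∀ u ∈ C i, ∀ v ∈ C j, (G.Adj u v ↔ u = y i ∧ v = y j ∧ B.Adj i j))
    (i : Fin (m + 1)) : dg G (univ.biUnion C) (y i) = dg G (C i) (y i) + bd m := by
  rw [ga8_dg_sum hd, ← Finset.add_sum_erase _ _ (Finset.mem_univ i), ← ga8_deg hB i]
  have hy : ∀ i, y i ∈ C i := fun i => (gt_conn (hC i)).1
  congr 1
  rw [Finset.card_filter, ← Finset.add_sum_erase _ _ (Finset.mem_univ i), if_neg (B.irrefl),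
    zero_add]
  apply Finset.sum_congr rfl
  intro j hj
  have hij : i ≠ j := (Finset.ne_of_mem_erase hj).symm
  by_cases h : B.Adj i j
  · rw [if_pos h]
    rw [Finset.card_eq_one]
    refine ⟨y j, ?_⟩
    ext w
    rw [Finset.mem_filter, Finset.mem_singleton]
    constructor
    · rintro ⟨h1, h2⟩
      exact ((ha i j hij _ (hy i) _ h1).1 h2).2.1
    · rintro rfl
      exact ⟨hy j, (ha i j hij _ (hy i) _ (hy j)).2 ⟨rfl, rfl, h⟩⟩
  · rw [if_neg h, Finset.card_eq_zero]
    ext w
    rw [Finset.mem_filter]
    constructor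
    · rintro ⟨h1, h2⟩
      exact absurd ((ha i j hij _ (hy i) _ h1).1 h2).2.2 h
    · intro h'
      exact absurd h' (Finset.notMem_empty _)

open Classical in
theorem ga8_dg_other {G : SimpleGraph V} {m : ℕ} {B : SimpleGraph (Fin (m + 1))}
    {C : Fin (m + 1) → Finset V} {y : Fin (m + 1) → V}
    (hd : ∀ i j, i ≠ j → Disjoint (C i) (C j))
    (ha : ∀ i j, i ≠ j → ∀ u ∈ C i, ∀ v ∈ C j, (G.Adj u v ↔ u = y i ∧ v = y j ∧ B.Adj i j))
    (i : Fin (m + 1)) {u : V} (hu : u ∈ C i) (hne : u ≠ y i) :
    dg G (univ.biUnion C) u = dg G (C i) u := by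
  rw [ga8_dg_sum hd, ← Finset.add_sum_erase _ _ (Finset.mem_univ i)]
  have h0 : ∑ j ∈ univ.erase i, ((C j).filter (fun w => G.Adj u w)).card = 0 := by
    apply Finset.sum_eq_zero
    intro j hj
    have hij : i ≠ j := (Finset.ne_of_mem_erase hj).symm
    rw [Finset.card_eq_zero]
    ext w
    rw [Finset.mem_filter]
    constructor
    · rintro ⟨h1, h2⟩
      exact absurd ((ha i j hij _ hu _ h1).1 h2).1 hne
    · intro h'
      exact absurd h' (Finset.notMem_empty _)
  rw [h0, add_zero]
  rfl

theorem ga8_dg_le {G : SimpleGraph V} {m : ℕ} {C : Fin (m + 1) → Finset V}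
    (hd : ∀ i j, i ≠ j → Disjoint (C i) (C j)) (i : Fin (m + 1)) (u : V) :
    dg G (C i) u ≤ dg G (univ.biUnion C) u := by
  classical
  unfold dg
  apply Finset.card_le_card
  intro w hw
  rw [Finset.mem_filter] at hw ⊢
  exact ⟨Finset.mem_biUnion.2 ⟨i, Finset.mem_univ i, hw.1⟩, hw.2⟩

theorem ga8_sum {G : SimpleGraph V} {m : ℕ} {C : Fin (m + 1) → Finset V} {y : Fin (m + 1) → V}
    (hy : ∀ i, y i ∈ C i) (hd : ∀ i j, i ≠ j → Disjoint (C i) (C j)) (f : V → ℕ) :
    ∑ u ∈ (univ.biUnion C).erase (y 0), f u =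
      ∑ u ∈ (C 0).erase (y 0), f u + ∑ i ∈ univ.erase (0 : Fin (m + 1)), ∑ u ∈ C i, f u := by
  have h1 := Finset.add_sum_erase (univ.biUnion C) f
    (Finset.mem_biUnion.2 ⟨0, Finset.mem_univ 0, hy 0⟩ : y 0 ∈ univ.biUnion C)
  have h2 := Finset.add_sum_erase (C 0) f (hy 0)
  rw [Finset.sum_biUnion (fun i _ j _ hij => hd i j hij),
    ← Finset.add_sum_erase _ _ (Finset.mem_univ (0 : Fin (m + 1)))] at h1
  omega

/-- the children contribute at least `d - 1` -/
theorem ga8_children {G : SimpleGraph V} {m : ℕ} {B : SimpleGraph (Fin (m + 1))} (hB : Blk m B)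
    {C : Fin (m + 1) → Finset V} {y : Fin (m + 1) → V} (hC : ∀ i, GT G (C i) (y i))
    (hd : ∀ i j, i ≠ j → Disjoint (C i) (C j))
    (ha : ∀ i j, i ≠ j → ∀ u ∈ C i, ∀ v ∈ C j, (G.Adj u v ↔ u = y i ∧ v = y j ∧ B.Adj i j))
    (d : ℕ) (hd3 : 3 ≤ d) (hdeg : ∀ u ∈ univ.biUnion C, dg G (univ.biUnion C) u ≤ d)
    (hb : bd m < d)
    (ih : ∀ i, 2 ≤ (C i).card → (∀ u ∈ C i, dg G (C i) u ≤ d) → dg G (C i) (y i) < d →
      d - 1 ≤ ∑ u ∈ (C i).erase (y i), (d - dg G (C i) u)) :
    d - 1 ≤ ∑ i ∈ univ.erase (0 : Fin (m + 1)), ∑ u ∈ C i, (d - dg G (univ.biUnion C) u) := by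
  have hy : ∀ i, y i ∈ C i := fun i => (gt_conn (hC i)).1
  have hU : ∀ (i : Fin (m + 1)) (u : V), u ∈ C i → u ∈ univ.biUnion C := fun i u hu =>
    Finset.mem_biUnion.2 ⟨i, Finset.mem_univ i, hu⟩
  have hm := ga8_m_pos hB
  have hsplit : ∀ i, ∑ u ∈ C i, (d - dg G (univ.biUnion C) u) =
      (d - (dg G (C i) (y i) + bd m)) + ∑ u ∈ (C i).erase (y i), (d - dg G (C i) u) := by
    intro i
    rw [← Finset.add_sum_erase _ _ (hy i), ga8_dg_root hB hC hd ha i]
    congr 1
    apply Finset.sum_congr rfl
    intro u hu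
    rw [ga8_dg_other hd ha i (Finset.mem_of_mem_erase hu) (Finset.ne_of_mem_erase hu)]
  by_cases hall : ∀ i ∈ univ.erase (0 : Fin (m + 1)), (C i).card ≤ 1
  · -- all children are singletons
    have h1 : ∀ i ∈ univ.erase (0 : Fin (m + 1)), d - bd m ≤
        ∑ u ∈ C i, (d - dg G (univ.biUnion C) u) := by
      intro i hi
      have h2 : C i = {y i} := by
        apply Finset.eq_singleton_iff_unique_mem.2
        exact ⟨hy i, fun w hw => Finset.card_le_one.1 (hall i hi) _ hw _ (hy i)⟩
      have h3 : dg G (C i) (y i) = 0 := by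
        classical
        unfold dg
        rw [Finset.card_eq_zero, h2]
        ext w
        rw [Finset.mem_filter, Finset.mem_singleton]
        constructor
        · rintro ⟨rfl, h⟩
          exact absurd h (G.irrefl)
        · intro h'
          exact absurd h' (Finset.notMem_empty _)
      rw [hsplit i, h3, zero_add]
      exact Nat.le_add_right _ _
    refine le_trans ?_ (Finset.sum_le_sum h1)
    rw [Finset.sum_const, Finset.card_erase_of_mem (Finset.mem_univ _), Finset.card_univ,
      Fintype.card_fin, Nat.add_sub_cancel, smul_eq_mul]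
    cases hB with
    | k2 =>
      have : bd 1 = 1 := rfl
      omega
    | odd t ht =>
      have hb2 : bd (2 * t) = 2 := by
        unfold bd
        rw [if_neg (by omega)]
      rw [hb2]
      calc d - 1 ≤ 2 * (d - 2) := by omega
        _ ≤ 2 * t * (d - 2) := Nat.mul_le_mul_right _ (by omega)
    | k4 =>
      have hb3 : bd 3 = 3 := rfl
      rw [hb3] at hb ⊢
      omega
  · push Not at hall
    obtain ⟨i, hi, hi2⟩ := hall
    refine le_trans ?_ (Finset.single_le_sum (fun j _ => Nat.zero_le _) hi)
    rw [hsplit i]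
    have hroot := hdeg (y i) (hU i _ (hy i))
    rw [ga8_dg_root hB hC hd ha i] at hroot
    have := ga8_bd_pos hB
    exact le_trans (ih i (by omega) (fun u hu => (ga8_dg_le hd i u).trans (hdeg u (hU i u hu)))
      (by omega)) (Nat.le_add_left _ _)

theorem ga8_blk_minus {m : ℕ} {B : SimpleGraph (Fin (m + 1))} (h : Blk m B) :
    (B.induce ({0} : Set (Fin (m + 1)))ᶜ).Preconnected := by
  have htop : ∀ n : ℕ, ((⊤ : SimpleGraph (Fin (n + 1))).induce
      ({0} : Set (Fin (n + 1)))ᶜ).Preconnected := by
    intro n a b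
    by_cases hab : a = b
    · rw [hab]
    · apply SimpleGraph.Adj.reachable
      show (⊤ : SimpleGraph (Fin (n + 1))).Adj a.1 b.1
      rw [SimpleGraph.top_adj]
      exact fun h => hab (Subtype.ext h)
  cases h with
  | k2 => exact htop 1
  | k4 => exact htop 3
  | odd t ht =>
    have h1mem : ∀ (k : ℕ) (hk : k < 2 * t), (⟨k + 1, by omega⟩ : Fin (2 * t + 1)) ∈
        ({0} : Set (Fin (2 * t + 1)))ᶜ := by
      intro k hk h
      have := congrArg Fin.val (Set.mem_singleton_iff.1 h)
      simp at this
    have hreach : ∀ (k : ℕ) (hk : k < 2 * t),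
        ((SimpleGraph.cycleGraph (2 * t + 1)).induce ({0} : Set (Fin (2 * t + 1)))ᶜ).Reachable
          ⟨⟨0 + 1, by omega⟩, h1mem 0 (by omega)⟩ ⟨⟨k + 1, by omega⟩, h1mem k hk⟩ := by
      intro k
      induction k with
      | zero => intro _; exact SimpleGraph.Reachable.refl _
      | succ k ih =>
        intro hk
        refine (ih (by omega)).trans (SimpleGraph.Adj.reachable ?_)
        show (SimpleGraph.cycleGraph (2 * t + 1)).Adj ⟨k + 1, by omega⟩ ⟨k + 1 + 1, by omega⟩
        rw [SimpleGraph.cycleGraph_adj']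
        right
        have : (⟨k + 1 + 1, by omega⟩ - ⟨k + 1, by omega⟩ : Fin (2 * t + 1)) = ⟨1, by omega⟩ := by
          ext
          rw [Fin.sub_def]
          simp only
          have : 2 * t + 1 - (k + 1) + (k + 1 + 1) = 1 + (2 * t + 1) := by omega
          rw [this, Nat.add_mod_right, Nat.mod_eq_of_lt (by omega)]
        rw [this]
    have hall : ∀ a : (({0} : Set (Fin (2 * t + 1)))ᶜ : Set (Fin (2 * t + 1))),
        ((SimpleGraph.cycleGraph (2 * t + 1)).induce ({0} : Set (Fin (2 * t + 1)))ᶜ).Reachable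
          ⟨⟨0 + 1, by omega⟩, h1mem 0 (by omega)⟩ a := by
      rintro ⟨⟨a, hlt⟩, ha⟩
      have ha0 : a ≠ 0 := fun h => ha (Set.mem_singleton_iff.2 (Fin.ext h))
      obtain ⟨k, rfl⟩ : ∃ k, a = k + 1 := ⟨a - 1, by omega⟩
      exact hreach k (by omega)
    intro a b
    exact (hall a).symm.trans (hall b)

/-- **Deficiency.** A rooted Gallai tree with at least two vertices, all degrees at most `d`
(`3 ≤ d`) and `dg` of the root smaller than `d` has deficiency at least `d - 1` outside the root.

Proof. Induction on `GT`. `glue m B C y` with `b = bd m` (`B` is regular of degree `b`; in the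
union: `dg (⋃C) (y i) = dg (C i) (y i) + b`, and `dg (⋃C) u = dg (C i) u` for `u ∈ C i`, `u ≠ y i`).
Since `dg (⋃C) (y 0) < d`, `b < d`. Every child `C i`, `i ≠ 0`, contributes at least `d - b` if
`C i = {y i}`, and otherwise (induction: `dg (C i) (y i) ≤ d - b < d`) at least `d - 1`. If
some child is not a singleton we are done; otherwise the total is `m (d - b)`: `m = 1`: `d - 1`;
`m = 2t`, `b = 2`: `2t(d - 2) ≥ 2 (d - 2) ≥ d - 1`; `m = 3 = b`: `3(d - 3) ≥ d - 1` as `d ≥ 4`. -/
theorem deficiency {G : SimpleGraph V} {C : Finset V} {x : V} (h : GT G C x) (d : ℕ) (hd : 3 ≤ d)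
    (h2 : 2 ≤ C.card) (hdeg : ∀ u ∈ C, dg G C u ≤ d) (hx : dg G C x < d) :
    d - 1 ≤ ∑ u ∈ C.erase x, (d - dg G C u) := by
  induction h with
  | base x => simp at h2
  | glue m B hB C y hC hdj ha ih =>
    have hy : ∀ i, y i ∈ C i := fun i => (gt_conn (hC i)).1
    rw [ga8_dg_root hB hC hdj ha 0] at hx
    rw [ga8_sum (G := G) hy hdj]
    exact le_trans (ga8_children hB hC hdj ha d hd hdeg (by omega) ih) (Nat.le_add_left _ _)

/-- If deleting the root disconnects the Gallai tree, the deficiency outside the root is at least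
`2 (d - 1)` (here `dg G C x = d` is allowed).

Proof. Cases on `GT G C x`: `base` is impossible; `glue m B C y`, `b = bd m`: if `C 0 = {y 0}`, then
`(⋃C) \ y 0` is the union of the connected children, joined along the path
`B - 0` (connected for every block), so it is connected. Hence `C 0` has two vertices, is connected, so
`1 ≤ dg (C 0) (y 0)` and `dg (C 0) (y 0) + b ≤ d`: `b < d` and `dg (C 0) (y 0) < d`: by `deficiency` `C 0`
contributes `d - 1`. The children together contribute `d - 1` as in the proof of `deficiency`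
(some child is not a singleton: `deficiency` for it; or all are singletons: `m (d - b) ≥ d - 1`). -/
theorem deficiency_cut {G : SimpleGraph V} {C : Finset V} {x : V} (h : GT G C x) (d : ℕ)
    (hd : 3 ≤ d) (hdeg : ∀ u ∈ C, dg G C u ≤ d)
    (hc : ¬ (G.induce ((C.erase x : Finset V) : Set V)).Preconnected) :
    2 * (d - 1) ≤ ∑ u ∈ C.erase x, (d - dg G C u) := by
  cases h with
  | base x =>
    exfalso
    apply hc
    intro a b
    have := Finset.mem_coe.1 a.2
    simp at this
  | glue m B hB C y hC hdj ha =>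
    have hy : ∀ i, y i ∈ C i := fun i => (gt_conn (hC i)).1
    have hU : ∀ (i : Fin (m + 1)) (u : V), u ∈ C i → u ∈ univ.biUnion C := fun i u hu =>
      Finset.mem_biUnion.2 ⟨i, Finset.mem_univ i, hu⟩
    have hyne : ∀ i, i ≠ 0 → ∀ u ∈ C i, u ≠ y 0 := by
      intro i hi u hu h
      rw [h] at hu
      exact Finset.disjoint_left.1 (hdj i 0 hi) hu (hy 0)
    have hC0 : C 0 ≠ {y 0} := by
      intro h0
      apply hc
      -- membership
      have hmem : ∀ i, i ≠ 0 → ∀ u ∈ C i,
          u ∈ (((univ.biUnion C).erase (y 0) : Finset V) : Set V) := fun i hi u hu =>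
        Finset.mem_coe.2 (Finset.mem_erase.2 ⟨hyne i hi u hu, hU i u hu⟩)
      -- inside a child
      have hin : ∀ (i : Fin (m + 1)) (hi : i ≠ 0) (u : V) (hu : u ∈ C i),
          (G.induce (((univ.biUnion C).erase (y 0) : Finset V) : Set V)).Reachable
            ⟨y i, hmem i hi _ (hy i)⟩ ⟨u, hmem i hi u hu⟩ := by
        intro i hi u hu
        have h1 : (G.induce (C i : Set V)).Connected := (gt_conn (hC i)).2
        let f : G.induce (C i : Set V) →g
            G.induce (((univ.biUnion C).erase (y 0) : Finset V) : Set V) :=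
          { toFun := fun a => ⟨a.1, hmem i hi a.1 (Finset.mem_coe.1 a.2)⟩
            map_rel' := fun h => h }
        exact (h1.preconnected ⟨y i, Finset.mem_coe.2 (hy i)⟩ ⟨u, Finset.mem_coe.2 hu⟩).map f
      -- between the roots
      have hrt : ∀ (a b : (({0} : Set (Fin (m + 1)))ᶜ : Set (Fin (m + 1)))),
          (G.induce (((univ.biUnion C).erase (y 0) : Finset V) : Set V)).Reachable
            ⟨y a.1, hmem a.1 a.2 _ (hy a.1)⟩ ⟨y b.1, hmem b.1 b.2 _ (hy b.1)⟩ := by
        intro a b
        let f : B.induce ({0} : Set (Fin (m + 1)))ᶜ →g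
            G.induce (((univ.biUnion C).erase (y 0) : Finset V) : Set V) :=
          { toFun := fun a => ⟨y a.1, hmem a.1 a.2 _ (hy a.1)⟩
            map_rel' := by
              intro a b hab
              have hab' : B.Adj a.1 b.1 := hab
              exact (ha a.1 b.1 hab'.ne _ (hy _) _ (hy _)).2 ⟨rfl, rfl, hab'⟩ }
        exact (ga8_blk_minus hB a b).map f
      rintro ⟨u, hu⟩ ⟨v, hv⟩
      have hu' := Finset.mem_erase.1 (Finset.mem_coe.1 hu)
      have hv' := Finset.mem_erase.1 (Finset.mem_coe.1 hv)
      obtain ⟨i, -, hi⟩ := Finset.mem_biUnion.1 hu'.2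
      obtain ⟨j, -, hj⟩ := Finset.mem_biUnion.1 hv'.2
      have hi0 : i ≠ 0 := by
        rintro rfl
        rw [h0, Finset.mem_singleton] at hi
        exact hu'.1 hi
      have hj0 : j ≠ 0 := by
        rintro rfl
        rw [h0, Finset.mem_singleton] at hj
        exact hv'.1 hj
      exact ((hin i hi0 u hi).symm.trans (hrt ⟨i, hi0⟩ ⟨j, hj0⟩)).trans (hin j hj0 v hj)
    obtain ⟨a, haC, hay⟩ : ∃ a ∈ C 0, a ≠ y 0 := by
      by_contra hcon
      apply hC0
      apply Finset.eq_singleton_iff_unique_mem.2
      refine ⟨hy 0, fun a ha' => ?_⟩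
      by_contra h'
      exact hcon ⟨a, ha', h'⟩
    have hcard : 2 ≤ (C 0).card := Finset.one_lt_card.2 ⟨a, haC, y 0, hy 0, hay⟩
    have hdg1 : 1 ≤ dg G (C 0) (y 0) := by
      classical
      have h1 : (G.induce (C 0 : Set V)).Connected := (gt_conn (hC 0)).2
      obtain ⟨w⟩ := h1.preconnected ⟨y 0, Finset.mem_coe.2 (hy 0)⟩ ⟨a, Finset.mem_coe.2 haC⟩
      cases w with
      | nil => exact absurd rfl hay
      | @cons _ v _ hadj _ =>
        unfold dg
        apply Finset.card_pos.2
        exact ⟨v.1, Finset.mem_filter.2 ⟨Finset.mem_coe.1 v.2, hadj⟩⟩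
    have hb1 := ga8_bd_pos hB
    have hroot := hdeg (y 0) (hU 0 _ (hy 0))
    rw [ga8_dg_root hB hC hdj ha 0] at hroot
    have hch := ga8_children hB hC hdj ha d hd hdeg (by omega)
      (fun i h2 h3 h4 => deficiency (hC i) d hd h2 h3 h4)
    have h0 := deficiency (hC 0) d hd hcard
      (fun u hu => (ga8_dg_le hdj 0 u).trans (hdeg u (hU 0 u hu))) (by omega)
    have h0' : ∑ u ∈ (C 0).erase (y 0), (d - dg G (univ.biUnion C) u) =
        ∑ u ∈ (C 0).erase (y 0), (d - dg G (C 0) u) := by
      apply Finset.sum_congr rfl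
      intro u hu
      rw [ga8_dg_other hdj ha 0 (Finset.mem_of_mem_erase hu) (Finset.ne_of_mem_erase hu)]
    rw [ga8_sum (G := G) hy hdj, h0']
    omega

end Pool.Agent.MP_528dc0_co

end

section

open Finset

namespace Pool.Agent.MP_528dc0_co

variable {V : Type} [Fintype V] [DecidableEq V]

theorem ga10_mod1 {n i : ℕ} (hi : i < n) : (i + 1) % n = if i + 1 = n then 0 else i + 1 := by
  split_ifs with h
  · rw [h, Nat.mod_self]
  · exact Nat.mod_eq_of_lt (by omega)

theorem ga10_mod2 {n i : ℕ} (hi : i < n) :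
    (i + (n - 1)) % n = if i = 0 then n - 1 else i - 1 := by
  split_ifs with h
  · rw [h, zero_add]
    exact Nat.mod_eq_of_lt (by omega)
  · have h1 : i + (n - 1) = (i - 1) + n := by omega
    rw [h1, Nat.add_mod_right]
    exact Nat.mod_eq_of_lt (by omega)

/-- the cyclic enumeration -/
theorem ga10_enum (G : SimpleGraph V) (C : Finset V) (hC : Conn G C)
    (hreg : ∀ u ∈ C, dg G C u = 2) (x : V) (hx : x ∈ C) :
    ∃ (n : ℕ) (z : ℕ → V), 3 ≤ n ∧ z 0 = x ∧ (∀ i, z i ∈ C) ∧ (∀ v ∈ C, ∃ i < n, z i = v) ∧
      (∀ i j, z i = z j → i % n = j % n) ∧ (∀ i, z (i % n) = z i) ∧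
      (∀ i, G.Adj (z i) (z (i + 1))) := by
  classical
  set H := G.induce (C : Set V) with hH
  have hnc : ∀ v : ((C : Set V) : Type), (H.neighborSet v).ncard = 2 := by
    intro v
    have h1 : Subtype.val '' (H.neighborSet v) =
        ((C.filter (fun u => G.Adj v.1 u) : Finset V) : Set V) := by
      ext u
      constructor
      · rintro ⟨w, hw, rfl⟩
        exact Finset.mem_coe.2 (Finset.mem_filter.2 ⟨w.2, hw⟩)
      · intro hu
        have h2 := Finset.mem_filter.1 (Finset.mem_coe.1 hu)
        exact ⟨⟨u, h2.1⟩, h2.2, rfl⟩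
    rw [← Set.ncard_image_of_injective _ Subtype.val_injective, h1, Set.ncard_coe_finset]
    exact hreg v.1 v.2
  have hcyc : H.IsCycles := fun v _ => hnc v
  set x' : ((C : Set V) : Type) := ⟨x, hx⟩ with hx'
  have hne : (H.neighborSet x').Nonempty := by
    apply Set.nonempty_of_ncard_ne_zero
    rw [hnc x']
    norm_num
  obtain ⟨p, hp, hverts⟩ := hcyc.exists_cycle_toSubgraph_verts_eq_connectedComponentSupp
    (c := H.connectedComponentMk x') (v := x') rfl hne
  have h3 := hp.three_le_length
  have hn0 : 0 < p.length := by omega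
  refine ⟨p.length, fun i => (p.getVert (i % p.length)).1, h3, ?_, ?_, ?_, ?_, ?_, ?_⟩
  · show (p.getVert (0 % p.length)).1 = x
    rw [Nat.zero_mod, p.getVert_zero]
  · intro i
    exact (p.getVert (i % p.length)).2
  · intro v hv
    have h4 : (⟨v, hv⟩ : ((C : Set V) : Type)) ∈ p.toSubgraph.verts := by
      rw [hverts]
      show H.connectedComponentMk _ = H.connectedComponentMk x'
      rw [SimpleGraph.ConnectedComponent.eq]
      exact hC.preconnected _ _
    rw [SimpleGraph.Walk.mem_verts_toSubgraph, SimpleGraph.Walk.mem_support_iff_exists_getVert] at h4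
    obtain ⟨i, hi, hil⟩ := h4
    by_cases h5 : i = p.length
    · refine ⟨0, hn0, ?_⟩
      show (p.getVert (0 % p.length)).1 = v
      rw [Nat.zero_mod, p.getVert_zero]
      rw [h5, p.getVert_length] at hi
      rw [hi]
    · refine ⟨i, by omega, ?_⟩
      show (p.getVert (i % p.length)).1 = v
      rw [Nat.mod_eq_of_lt (by omega), hi]
  · intro i j hij
    have h4 : p.getVert (i % p.length) = p.getVert (j % p.length) := Subtype.ext hij
    have h5 := Nat.mod_lt i hn0
    have h6 := Nat.mod_lt j hn0
    exact hp.getVert_injOn' (show i % p.length ≤ p.length - 1 by omega)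
      (show j % p.length ≤ p.length - 1 by omega) h4
  · intro i
    show (p.getVert (i % p.length % p.length)).1 = (p.getVert (i % p.length)).1
    rw [Nat.mod_mod]
  · intro i
    show G.Adj (p.getVert (i % p.length)).1 (p.getVert ((i + 1) % p.length)).1
    have h5 := Nat.mod_lt i hn0
    have h6 : H.Adj (p.getVert (i % p.length)) (p.getVert (i % p.length + 1)) :=
      p.adj_getVert_succ h5
    have h7 : (i + 1) % p.length = (i % p.length + 1) % p.length := by
      rw [Nat.add_mod, Nat.mod_eq_of_lt (show 1 < p.length by omega)]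
    rw [h7, ga10_mod1 h5]
    split_ifs with h8
    · rw [h8, p.getVert_length] at h6
      rw [p.getVert_zero]
      exact h6
    · exact h6

/-- `G[C]` connected and 2-regular and not 2-colourable: `GT G C x` for every `x ∈ C`.

Proof. A finite connected 2-regular graph is a cycle: there is `n ≥ 3` and `y : Fin n → V` injective
with image `C`, `G.Adj (y i) (y j) ↔ (cycleGraph n).Adj i j`, and one can choose `y 0 = x` (rotate).
(Mathlib: `SimpleGraph.IsCycles`, `IsCycles.exists_cycle_toSubgraph_verts_eq_connectedComponentSupp`;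
or directly: walk around.) If `n` is even, colour `y i` by the parity of `i` with two elements of
`X`: contradiction. So `n = 2t + 1`, `t ≥ 1`, and `GT.glue (2t) (cycleGraph (2t+1))` with
`C i = {y i}`. -/
theorem gt_cycle (G : SimpleGraph V) (C : Finset V) (hC : Conn G C)
    (hreg : ∀ u ∈ C, dg G C u = 2) (X : Finset (Fin 4)) (hX : X.card = 2)
    (hbad : ¬ ∃ c, LCol G (fun _ => X) C c) : ∀ x ∈ C, GT G C x := by
  classical
  intro x hx
  obtain ⟨n, z, h3, hz0, hzC, hsurj, hinj, hmod, hadj⟩ := ga10_enum G C hC hreg x hx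
  have hzeq : ∀ {i j : ℕ}, i % n = j % n → z i = z j := by
    intro i j h
    rw [← hmod i, ← hmod j, h]
  -- the neighbours
  have hprev : ∀ i, G.Adj (z i) (z (i + (n - 1))) := by
    intro i
    have h1 := hadj (i + (n - 1))
    have h2 : z (i + (n - 1) + 1) = z i := by
      apply hzeq
      have : i + (n - 1) + 1 = i + n := by omega
      rw [this, Nat.add_mod_right]
    rw [h2] at h1
    exact h1.symm
  have hne : ∀ i, z (i + 1) ≠ z (i + (n - 1)) := by
    intro i h
    have h1 := hinj _ _ h
    have h2 : (i % n + 1) % n = (i % n + (n - 1)) % n := by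
      rw [Nat.mod_add_mod, Nat.mod_add_mod]
      exact h1
    have h4 := Nat.mod_lt i (show 0 < n by omega)
    rw [ga10_mod1 h4, ga10_mod2 h4] at h2
    split_ifs at h2 <;> omega
  have hnb : ∀ i, ∀ v ∈ C, G.Adj (z i) v → v = z (i + 1) ∨ v = z (i + (n - 1)) := by
    intro i v hv hiv
    have h1 : ({z (i + 1), z (i + (n - 1))} : Finset V) ⊆ C.filter (fun u => G.Adj (z i) u) := by
      intro w hw
      rw [Finset.mem_insert, Finset.mem_singleton] at hw
      rcases hw with rfl | rfl
      · exact Finset.mem_filter.2 ⟨hzC _, hadj i⟩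
      · exact Finset.mem_filter.2 ⟨hzC _, hprev i⟩
    have h2 : (C.filter (fun u => G.Adj (z i) u)).card = 2 := hreg (z i) (hzC i)
    have h4 := Finset.eq_of_subset_of_card_le h1 (by rw [h2, Finset.card_pair (hne i)])
    have h5 : v ∈ C.filter (fun u => G.Adj (z i) u) := Finset.mem_filter.2 ⟨hv, hiv⟩
    rw [← h4, Finset.mem_insert, Finset.mem_singleton] at h5
    exact h5
  -- `n` is odd
  have hodd : n % 2 = 1 := by
    by_contra hev
    apply hbad
    obtain ⟨a, b, hab, hXab⟩ := Finset.card_eq_two.1 hX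
    choose! idx hidx using hsurj
    refine ⟨fun v => if idx v % 2 = 0 then a else b, ?_, ?_⟩
    · intro v _
      show (if idx v % 2 = 0 then a else b) ∈ X
      rw [hXab]
      split_ifs
      · exact Finset.mem_insert_self _ _
      · exact Finset.mem_insert_of_mem (Finset.mem_singleton_self _)
    · intro u hu v hv huv
      obtain ⟨hu1, hu2⟩ := hidx u hu
      obtain ⟨hv1, hv2⟩ := hidx v hv
      have h1 : idx v % n = (idx u + 1) % n ∨ idx v % n = (idx u + (n - 1)) % n := by
        rw [← hu2, ← hv2] at huv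
        rcases hnb _ _ (hzC _) huv with h | h
        · exact Or.inl (hinj _ _ h)
        · exact Or.inr (hinj _ _ h)
      rw [Nat.mod_eq_of_lt hv1, ga10_mod1 hu1, ga10_mod2 hu1] at h1
      have h2 : idx u % 2 ≠ idx v % 2 := by
        rcases h1 with h1 | h1 <;> split_ifs at h1 <;> omega
      show (if idx u % 2 = 0 then a else b) ≠ (if idx v % 2 = 0 then a else b)
      by_cases c1 : idx u % 2 = 0 <;> by_cases c2 : idx v % 2 = 0
      · exact absurd (c1.trans c2.symm) h2
      · rw [if_pos c1, if_neg c2]; exact hab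
      · rw [if_neg c1, if_pos c2]; exact hab.symm
      · omega
  obtain ⟨t, ht⟩ : ∃ t, n = 2 * t + 1 := ⟨n / 2, by omega⟩
  subst ht
  have ht1 : 1 ≤ t := by omega
  have key := GT.glue (G := G) (2 * t) (SimpleGraph.cycleGraph (2 * t + 1)) (Blk.odd t ht1)
    (fun i : Fin (2 * t + 1) => {z i.val}) (fun i => z i.val) (fun i => GT.base _) ?_ ?_
  · have h1 : (Finset.univ.biUnion fun i : Fin (2 * t + 1) => ({z i.val} : Finset V)) = C := by
      ext v
      rw [Finset.mem_biUnion]
      constructor
      · rintro ⟨i, _, hi⟩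
        rw [Finset.mem_singleton] at hi
        rw [hi]
        exact hzC _
      · intro hv
        obtain ⟨i, hi, hiv⟩ := hsurj v hv
        exact ⟨⟨i, hi⟩, Finset.mem_univ _, Finset.mem_singleton.2 hiv.symm⟩
    rw [h1] at key
    have h2 : z ((0 : Fin (2 * t + 1)) : ℕ) = x := hz0
    rw [← h2]
    exact key
  · intro i j hij
    rw [Finset.disjoint_singleton]
    intro h
    have h1 := hinj _ _ h
    rw [Nat.mod_eq_of_lt i.2, Nat.mod_eq_of_lt j.2] at h1
    exact hij (Fin.ext h1)
  · intro i j hij u hu v hv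
    rw [Finset.mem_singleton] at hu hv
    subst hu hv
    have hi := i.2
    have hj := j.2
    have hval : ∀ a b : Fin (2 * t + 1), (a - b).val = 1 ↔ a.val = (b.val + 1) % (2 * t + 1) := by
      intro a b
      have ha := a.2
      have hb := b.2
      rw [Fin.sub_def]
      show (2 * t + 1 - b.val + a.val) % (2 * t + 1) = 1 ↔ _
      rw [ga10_mod1 hb]
      by_cases hab : b.val ≤ a.val
      · have e1 : 2 * t + 1 - b.val + a.val = (a.val - b.val) + (2 * t + 1) := by omega
        rw [e1, Nat.add_mod_right, Nat.mod_eq_of_lt (by omega)]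
        split_ifs <;> omega
      · rw [Nat.mod_eq_of_lt (by omega)]
        split_ifs <;> omega
    rw [SimpleGraph.cycleGraph_adj', hval, hval]
    constructor
    · intro h
      refine ⟨rfl, rfl, ?_⟩
      rcases hnb _ _ (hzC _) h with h1 | h1
      · right
        have h2 := hinj _ _ h1
        rw [Nat.mod_eq_of_lt hj] at h2
        exact h2
      · left
        have h2 := hinj _ _ h1
        rw [Nat.mod_eq_of_lt hj, ga10_mod2 hi] at h2
        rw [ga10_mod1 hj]
        split_ifs at h2 ⊢ <;> omega
    · rintro ⟨_, _, h | h⟩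
      · have h1 : z i.val = z (j.val + 1) := by
          apply hzeq
          rw [Nat.mod_eq_of_lt hi]
          exact h
        rw [h1]
        exact (hadj _).symm
      · have h1 : z j.val = z (i.val + 1) := by
          apply hzeq
          rw [Nat.mod_eq_of_lt hj]
          exact h
        rw [h1]
        exact hadj _

end Pool.Agent.MP_528dc0_co

end

section

open Finset

namespace Pool.Agent.MP_528dc0_co

variable {V : Type} [Fintype V] [DecidableEq V]

theorem ga11_enum (C : Finset V) (x : V) (hx : x ∈ C) (m : ℕ) (h : C.card = m + 1) :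
    ∃ y : Fin (m + 1) → V, Function.Injective y ∧ y 0 = x ∧ ∀ v, v ∈ C ↔ ∃ i, y i = v := by
  have hc : (C.erase x).card = m := by
    rw [Finset.card_erase_of_mem hx, h]
    rfl
  let e : {v // v ∈ C.erase x} ≃ Fin m := (C.erase x).equivFinOfCardEq hc
  refine ⟨Fin.cons x (fun i => ((e.symm i : {v // v ∈ C.erase x}) : V)), ?_, ?_, ?_⟩
  · rw [Fin.cons_injective_iff]
    refine ⟨?_, ?_⟩
    · rintro ⟨i, hi⟩
      have := (e.symm i).2
      simp only at hi
      rw [hi] at this
      exact (Finset.notMem_erase x C) this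
    · intro i j hij
      exact e.symm.injective (Subtype.ext hij)
  · rfl
  · intro v
    constructor
    · intro hv
      by_cases hvx : v = x
      · exact ⟨0, by rw [hvx]; rfl⟩
      · refine ⟨Fin.succ (e ⟨v, Finset.mem_erase.2 ⟨hvx, hv⟩⟩), ?_⟩
        rw [Fin.cons_succ, Equiv.symm_apply_apply]
    · rintro ⟨i, rfl⟩
      refine Fin.cases ?_ (fun j => ?_) i
      · exact hx
      · rw [Fin.cons_succ]
        exact Finset.mem_of_mem_erase (e.symm j).2

theorem ga11_top (G : SimpleGraph V) (m : ℕ) (hB : Blk m ⊤) (C : Finset V) (h : C.card = m + 1)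
    (hc : G.IsClique (C : Set V)) (x : V) (hx : x ∈ C) : GT G C x := by
  obtain ⟨y, hy, hy0, hyC⟩ := ga11_enum C x hx m h
  have h1 := GT.glue (G := G) m ⊤ hB (fun i => {y i}) y (fun i => GT.base (y i))
    (fun i j hij => by
      rw [Finset.disjoint_singleton]
      exact fun hh => hij (hy hh))
    (fun i j hij u hu v hv => by
      rw [Finset.mem_singleton] at hu hv
      subst hu hv
      refine ⟨fun _ => ⟨rfl, rfl, ?_⟩, fun _ => ?_⟩
      · rw [SimpleGraph.top_adj]
        exact hij
      · exact hc (Finset.mem_coe.2 ((hyC _).2 ⟨i, rfl⟩)) (Finset.mem_coe.2 ((hyC _).2 ⟨j, rfl⟩))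
          (fun hh => hij (hy hh)))
  have h2 : (univ : Finset (Fin (m + 1))).biUnion (fun i => ({y i} : Finset V)) = C := by
    ext v
    rw [Finset.mem_biUnion, hyC]
    constructor
    · rintro ⟨i, _, hi⟩
      exact ⟨i, (Finset.mem_singleton.1 hi).symm⟩
    · rintro ⟨i, hi⟩
      exact ⟨i, Finset.mem_univ i, Finset.mem_singleton.2 hi.symm⟩
  rw [h2, hy0] at h1
  exact h1

omit [Fintype V] [DecidableEq V] in
theorem ga11_nb (G : SimpleGraph V) (C : Finset V) (u : V) (h : dg G C u = 1) :
    ∃ z ∈ C, G.Adj u z ∧ ∀ w ∈ C, G.Adj u w → w = z := by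
  classical
  unfold dg at h
  obtain ⟨z, hz⟩ := Finset.card_eq_one.1 h
  have hz' := Finset.ext_iff.1 hz
  simp only [Finset.mem_filter, Finset.mem_singleton] at hz'
  have h1 := (hz' z).2 rfl
  exact ⟨z, h1.1, h1.2, fun w hw hw' => (hz' w).1 ⟨hw, hw'⟩⟩

omit [Fintype V] [DecidableEq V] in
theorem ga11_walk (G : SimpleGraph V) (C : Finset V) (P : V → Prop)
    (hP : ∀ a ∈ C, ∀ b ∈ C, G.Adj a b → P a → P b) :
    ∀ (a b : ((C : Set V) : Type)), (G.induce (C : Set V)).Walk a b → P a → P b := by
  intro a b p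
  induction p with
  | nil => exact fun h => h
  | cons hadj _ ih =>
    intro h
    refine ih (hP _ (Finset.mem_coe.1 (Subtype.property _)) _ (Finset.mem_coe.1 (Subtype.property _))
      ?_ h)
    exact hadj

/-- A clique with four vertices is a Gallai tree for every root. (`GT.glue 3 ⊤`, all `C i`
singletons; enumerate `C` with `y 0 = x`.) -/
theorem gt_clique4 (G : SimpleGraph V) (C : Finset V) (h : C.card = 4)
    (hc : G.IsClique (C : Set V)) : ∀ x ∈ C, GT G C x := by
  intro x hx
  exact ga11_top G 3 Blk.k4 C h hc x hx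

/-- `G[C]` connected and 1-regular: `C` is an edge, hence a Gallai tree. -/
theorem gt_edge (G : SimpleGraph V) (C : Finset V) (hC : Conn G C)
    (hreg : ∀ u ∈ C, dg G C u = 1) : ∀ x ∈ C, GT G C x := by
  intro x hx
  obtain ⟨z, hz, hxz, hxu⟩ := ga11_nb G C x (hreg x hx)
  obtain ⟨z', hz', hzz', hzu⟩ := ga11_nb G C z (hreg z hz)
  have hz'x : x = z' := hzu x hx hxz.symm
  have hP : ∀ a ∈ C, ∀ b ∈ C, G.Adj a b → (a = x ∨ a = z) → (b = x ∨ b = z) := by
    intro a ha b hb hab hh
    rcases hh with rfl | rfl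
    · exact Or.inr (hxu b hb hab)
    · left
      rw [hz'x]
      exact hzu b hb hab
  have hall : ∀ v ∈ C, v = x ∨ v = z := by
    intro v hv
    obtain ⟨p⟩ := hC.preconnected ⟨x, Finset.mem_coe.2 hx⟩ ⟨v, Finset.mem_coe.2 hv⟩
    exact ga11_walk G C (fun w => w = x ∨ w = z) hP _ _ p (Or.inl rfl)
  have hCe : C = {x, z} := by
    ext v
    rw [Finset.mem_insert, Finset.mem_singleton]
    constructor
    · exact hall v
    · rintro (rfl | rfl)
      · exact hx
      · exact hz
  refine ga11_top G 1 Blk.k2 C ?_ ?_ x hx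
  · rw [hCe, Finset.card_pair hxz.ne]
  · intro a ha b hb hab
    rw [Finset.mem_coe] at ha hb
    rcases hall a ha with rfl | rfl <;> rcases hall b hb with rfl | rfl
    · exact absurd rfl hab
    · exact hxz
    · exact hxz.symm
    · exact absurd rfl hab

end Pool.Agent.MP_528dc0_co

end

section

open Finset

namespace Pool.Agent.MP_528dc0_co

variable {V : Type} [Fintype V] [DecidableEq V]

/-- There is a root which is not a cut vertex.
(`SimpleGraph.Connected.exists_preconnected_induce_compl_singleton_of_finite` for `G.induce C`.) -/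
theorem noncut (G : SimpleGraph V) (C : Finset V) (hC : Conn G C) :
    ∃ x ∈ C, (G.induce ((C.erase x : Finset V) : Set V)).Preconnected := by
  have hC' : (G.induce (C : Set V)).Connected := hC
  obtain ⟨v, hv⟩ := hC'.exists_preconnected_induce_compl_singleton_of_finite
  refine ⟨v.1, Finset.mem_coe.1 v.2, ?_⟩
  have hmem : ∀ a : ((({v} : Set (C : Set V))ᶜ : Set (C : Set V))),
      a.1.1 ∈ ((C.erase v.1 : Finset V) : Set V) := fun a =>
    Finset.mem_coe.2 (Finset.mem_erase.2 ⟨fun h => a.2 (Subtype.ext h), Finset.mem_coe.1 a.1.2⟩)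
  let f : ((G.induce (C : Set V)).induce ({v} : Set (C : Set V))ᶜ) →g
      G.induce ((C.erase v.1 : Finset V) : Set V) :=
    { toFun := fun a => ⟨a.1.1, hmem a⟩
      map_rel' := fun h => h }
  apply hv.map f
  intro b
  have hb := Finset.mem_erase.1 (Finset.mem_coe.1 b.2)
  refine ⟨⟨⟨b.1, Finset.mem_coe.2 hb.2⟩, fun h => hb.1 ?_⟩, rfl⟩
  exact congrArg Subtype.val h

/-- If the root is not a cut vertex, the piece is a single vertex or there is exactly one block at
the root.
Proof. Cases on `GT G C x`. In the case `glue`: `C 0 = {y 0}`, otherwise there is `a ∈ C 0`,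
`a ≠ y 0`, and `y 1 ∈ C 1`; both are in `(⋃C).erase (y 0)` but there is no edge between
`C 0 \ {y 0}` and the rest (`ha` forces `u = y 0`), so no path. -/
theorem single_block {G : SimpleGraph V} {C : Finset V} {x : V} (h : GT G C x)
    (hx : (G.induce ((C.erase x : Finset V) : Set V)).Preconnected) :
    C = {x} ∨ ∃ m, ∃ B : SimpleGraph (Fin (m + 1)), ∃ C' : Fin (m + 1) → Finset V,
      ∃ y : Fin (m + 1) → V, Glue G m B C' y ∧ C' 0 = {x} ∧ y 0 = x ∧ C = univ.biUnion C' := by
  cases h with
  | base => exact Or.inl rfl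
  | glue m B hB C y hC hd ha =>
    right
    refine ⟨m, B, C, y, ⟨hB, hC, hd, ha⟩, ?_, rfl, rfl⟩
    by_contra hne
    have hy : ∀ i, y i ∈ C i := fun i => (gt_conn (hC i)).1
    obtain ⟨a, haC, hay⟩ : ∃ a ∈ C 0, a ≠ y 0 := by
      by_contra hcon
      apply hne
      apply Finset.eq_singleton_iff_unique_mem.2
      refine ⟨hy 0, fun a ha' => ?_⟩
      by_contra h'
      exact hcon ⟨a, ha', h'⟩
    have hm : 1 ≤ m := by
      cases hB with
      | k2 => exact le_rfl
      | odd t ht => omega
      | k4 => norm_num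
    have h0l : (0 : Fin (m + 1)) ≠ Fin.last m := by
      intro h
      have := congrArg Fin.val h
      simp at this
      omega
    have hyl : y (Fin.last m) ≠ y 0 := by
      intro h
      have h1 := hy (Fin.last m)
      rw [h] at h1
      exact Finset.disjoint_left.1 (hd _ _ h0l) (hy 0) h1
    have hU : ∀ (i : Fin (m + 1)) (u : V), u ∈ C i → u ∈ univ.biUnion C := fun i u hu =>
      Finset.mem_biUnion.2 ⟨i, Finset.mem_univ i, hu⟩
    have key : ∀ p q : (((univ.biUnion C).erase (y 0) : Finset V) : Set V),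
        (G.induce (((univ.biUnion C).erase (y 0) : Finset V) : Set V)).Reachable p q →
          p.1 ∈ C 0 → q.1 ∈ C 0 := by
      rintro p q ⟨w⟩
      induction w with
      | nil => exact id
      | @cons u v w huv _ ih =>
        intro hu
        apply ih
        have hadj : G.Adj u.1 v.1 := huv
        have hv := Finset.mem_erase.1 (Finset.mem_coe.1 v.2)
        have hu' := Finset.mem_erase.1 (Finset.mem_coe.1 u.2)
        obtain ⟨i, -, hi⟩ := Finset.mem_biUnion.1 hv.2
        by_cases h0 : (0 : Fin (m + 1)) = i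
        · exact (congrArg (fun j => v.1 ∈ C j) h0).mpr hi
        · exact absurd ((ha 0 i h0 _ hu _ hi).1 hadj).1 hu'.1
    have h1 : y (Fin.last m) ∈ C 0 := key
      ⟨a, Finset.mem_coe.2 (Finset.mem_erase.2 ⟨hay, hU 0 a haC⟩)⟩
      ⟨y (Fin.last m), Finset.mem_coe.2 (Finset.mem_erase.2 ⟨hyl, hU _ _ (hy _)⟩)⟩ (hx _ _) haC
    exact Finset.disjoint_left.1 (hd _ _ h0l) h1 (hy _)

end Pool.Agent.MP_528dc0_co

end

section

open Finset

namespace Pool.Agent.MP_528dc0_co

variable {V : Type} [Fintype V] [DecidableEq V]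

/-- blocks are regular -/
theorem ga9_blk {m : ℕ} {B : SimpleGraph (Fin (m + 1))} (h : Blk m B) :
    ∃ b : ℕ, ∀ i, Nat.card {j // B.Adj i j} = b := by
  cases h with
  | k2 =>
    refine ⟨1, fun i => ?_⟩
    rw [Nat.card_eq_fintype_card, Fintype.card_subtype]
    revert i
    decide
  | odd t ht =>
    obtain ⟨s, rfl⟩ : ∃ s, t = s + 1 := ⟨t - 1, by omega⟩
    refine ⟨2, fun i => ?_⟩
    have h1 := @SimpleGraph.cycleGraph_degree_three_le (2 * s) i
    rw [← SimpleGraph.card_neighborSet_eq_degree, ← Nat.card_eq_fintype_card] at h1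
    exact h1
  | k4 =>
    refine ⟨3, fun i => ?_⟩
    rw [Nat.card_eq_fintype_card, Fintype.card_subtype]
    revert i
    decide

omit [Fintype V] [DecidableEq V] in
theorem ga9_closed (G : SimpleGraph V) (T S : Finset V)
    (hT : (G.induce (T : Set V)).Preconnected) (hcl : ∀ u ∈ S, ∀ v ∈ T, G.Adj u v → v ∈ S)
    {a b : V} (ha : a ∈ T) (hb : b ∈ T) (haS : a ∈ S) : b ∈ S := by
  obtain ⟨p⟩ := hT ⟨a, ha⟩ ⟨b, hb⟩
  have key : ∀ (x y : (T : Set V)), (G.induce (T : Set V)).Walk x y → x.1 ∈ S → y.1 ∈ S := by
    intro x y q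
    induction q with
    | nil => exact id
    | cons h _ ih => exact fun hx => ih (hcl _ hx _ (Finset.mem_coe.1 (Subtype.property _)) h)
  exact key _ _ p haS

/-- Let `G[C]` be `d`-regular, `3 ≤ d ≤ 4`, connected, and for one vertex `w ∈ C` let `C.erase w` be
connected and a Gallai tree for every root. Then `C` is a clique with `d + 1` elements.

Proof. Put `D = C.erase w`. `∑_{u ∈ D} (d - dg G D u) = dg G C w = d` (each term is `1` for the
neighbours of `w` and `0` otherwise). `D` has at least 2 vertices (`d ≥ 3`). No vertex `x ∈ D` is a cut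
vertex of `G[D]`, i.e. `G[D.erase x]` is preconnected: otherwise `deficiency_cut` gives
`2 (d - 1) ≤ ∑_{u ∈ D.erase x} … ≤ d`, impossible. Take any `x ∈ D` and `GT G D x`; `single_block`:
`D = ⋃ C' i`, `C' 0 = {x}`. Every `C' i = {y i}`: else `i ≠ 0` and deleting `y i` from `D` separates
`C' i \ {y i}` from `x`, but `y i` is not a cut vertex. So `G[D]` is `K₂`, an odd cycle or `K₄`,
regular of degree `b = bd m`; `(m + 1)(d - b) = d`: `m = 1`: `2 (d - 1) = d` impossible; `m = 2t`,
`b = 2`: `(2t + 1)(d - 2) = d` forces `d = 3, t = 1`; `m = 3 = b`: `4 (d - 3) = d`, `d = 4`. In both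
cases `D` is a clique with `d` elements, all adjacent to `w`. -/
theorem reg_clique (G : SimpleGraph V) (C : Finset V) (d : ℕ) (h3 : 3 ≤ d) (h4 : d ≤ 4)
    (hreg : ∀ u ∈ C, dg G C u = d) (hC : Conn G C) (w : V) (hw : w ∈ C)
    (hD : Conn G (C.erase w)) (hgt : ∀ x ∈ C.erase w, GT G (C.erase w) x) :
    C.card = d + 1 ∧ G.IsClique (C : Set V) := by
  classical
  set D := C.erase w with hDdef
  have hwD : w ∉ D := Finset.notMem_erase _ _
  have hDC : D ⊆ C := Finset.erase_subset _ _
  have hcard : C.card = D.card + 1 := by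
    rw [hDdef, Finset.card_erase_of_mem hw]
    have := Finset.card_pos.2 ⟨w, hw⟩
    omega
  have hins : C = insert w D := (Finset.insert_erase hw).symm
  -- degrees in `D`
  have hdg : ∀ u ∈ D, dg G D u + (if G.Adj w u then 1 else 0) = d := by
    intro u hu
    rw [← hreg u (hDC hu)]
    unfold dg
    by_cases h : G.Adj w u
    · have h1 : C.filter (fun v => G.Adj u v) = insert w (D.filter (fun v => G.Adj u v)) := by
        rw [hins, Finset.filter_insert, if_pos h.symm]
      rw [h1, Finset.card_insert_of_notMem (fun h2 => hwD (Finset.mem_filter.1 h2).1), if_pos h]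
    · have h1 : C.filter (fun v => G.Adj u v) = D.filter (fun v => G.Adj u v) := by
        rw [hins, Finset.filter_insert, if_neg (fun h2 => h h2.symm)]
      rw [h1, if_neg h]
      rfl
  have hdw : (D.filter (fun u => G.Adj w u)).card = d := by
    rw [← hreg w hw]
    unfold dg
    have h1 : C.filter (fun v => G.Adj w v) = D.filter (fun v => G.Adj w v) := by
      rw [hins, Finset.filter_insert, if_neg (G.loopless.irrefl w)]
    rw [h1]
  have hsum : ∑ u ∈ D, (d - dg G D u) = d := by
    have h1 : ∑ u ∈ D, (if G.Adj w u then 1 else 0) = d := by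
      rw [← Finset.card_filter]; exact hdw
    refine Eq.trans (Finset.sum_congr rfl fun u hu => ?_) h1
    have := hdg u hu
    omega
  have hle : ∀ u ∈ D, dg G D u ≤ d := by
    intro u hu
    have := hdg u hu
    omega
  have hD3 : 3 ≤ D.card := by
    have := Finset.card_filter_le D (fun u => G.Adj w u)
    omega
  have hcut : ∀ x ∈ D, (G.induce ((D.erase x : Finset V) : Set V)).Preconnected := by
    intro x hx
    by_contra hc
    have h1 := deficiency_cut (hgt x hx) d h3 hle hc
    have h2 : ∑ u ∈ D.erase x, (d - dg G D u) ≤ ∑ u ∈ D, (d - dg G D u) :=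
      Finset.sum_le_sum_of_subset (Finset.erase_subset _ _)
    omega
  obtain ⟨x, hx⟩ : D.Nonempty := by
    rw [← Finset.card_pos]; omega
  have hconst : ∃ b, ∀ u ∈ D, dg G D u = b := by
    rcases single_block (hgt x hx) (hcut x hx) with h | ⟨m, B, C', y, hG, h0, hy0, hU⟩
    · rw [h, Finset.card_singleton] at hD3
      omega
    have hyC : ∀ i, y i ∈ C' i := fun i => (gt_conn (hG.gt i)).1
    have hsub : ∀ i, C' i ⊆ D := by
      intro i u hu
      rw [hU]
      exact Finset.mem_biUnion.2 ⟨i, Finset.mem_univ _, hu⟩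
    have hyD : ∀ i, y i ∈ D := fun i => hsub i (hyC i)
    have hsing : ∀ i, C' i = {y i} := by
      intro i
      by_cases hi : i = 0
      · rw [hi, h0, hy0]
      by_contra hne
      obtain ⟨a, ha, hay⟩ : ∃ a ∈ C' i, a ≠ y i := by
        by_contra hno
        push Not at hno
        apply hne
        ext u
        rw [Finset.mem_singleton]
        exact ⟨fun hu => hno u hu, fun hu => by rw [hu]; exact hyC i⟩
      have hx0 : x ∈ C' 0 := by rw [h0]; exact Finset.mem_singleton_self _
      have hxi : x ∉ C' i := fun h => Finset.disjoint_left.1 (hG.disj i 0 hi) h hx0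
      have hxy : x ≠ y i := fun h => hxi (by rw [h]; exact hyC i)
      have h1 := ga9_closed G (D.erase (y i)) ((C' i).erase (y i)) (hcut (y i) (hyD i)) (by
        intro u hu v hv huv
        obtain ⟨hu1, hu2⟩ := Finset.mem_erase.1 hu
        obtain ⟨hv1, hv2⟩ := Finset.mem_erase.1 hv
        rw [hU] at hv2
        obtain ⟨j, -, hj⟩ := Finset.mem_biUnion.1 hv2
        by_cases hij : i = j
        · subst hij
          exact Finset.mem_erase.2 ⟨hv1, hj⟩
        · exact absurd ((hG.adj i j hij u hu2 v hj).1 huv).1 hu1)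
        (Finset.mem_erase.2 ⟨hay, hsub i ha⟩) (Finset.mem_erase.2 ⟨hxy, hx⟩)
        (Finset.mem_erase.2 ⟨hay, ha⟩)
      exact hxi (Finset.mem_of_mem_erase h1)
    have hinj : Function.Injective y := by
      intro i j hij
      by_contra hne
      exact Finset.disjoint_left.1 (hG.disj i j hne) (hyC i) (by rw [hij]; exact hyC j)
    have himg : D = Finset.univ.image y := by
      rw [hU]
      ext u
      simp only [Finset.mem_biUnion, Finset.mem_image, Finset.mem_univ, true_and]
      constructor
      · rintro ⟨i, hi⟩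
        rw [hsing i, Finset.mem_singleton] at hi
        exact ⟨i, hi.symm⟩
      · rintro ⟨i, hi⟩
        exact ⟨i, by rw [hsing i, Finset.mem_singleton]; exact hi.symm⟩
    have hadj : ∀ i j, G.Adj (y i) (y j) ↔ B.Adj i j := by
      intro i j
      by_cases hij : i = j
      · subst hij
        exact ⟨fun h => absurd h (G.loopless.irrefl _), fun h => absurd h (B.loopless.irrefl _)⟩
      · rw [hG.adj i j hij _ (hyC i) _ (hyC j)]
        exact ⟨fun h => h.2.2, fun h => ⟨rfl, rfl, h⟩⟩
    obtain ⟨b, hb⟩ := ga9_blk hG.blk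
    refine ⟨b, fun u hu => ?_⟩
    rw [himg] at hu
    obtain ⟨i, -, rfl⟩ := Finset.mem_image.1 hu
    rw [← hb i]
    unfold dg
    rw [himg, Finset.filter_image, Finset.card_image_of_injective _ hinj,
      Nat.card_eq_fintype_card, Fintype.card_subtype]
    exact congrArg Finset.card (Finset.filter_congr fun j _ => hadj i j)
  obtain ⟨b, hb⟩ := hconst
  have h1 : D.card * (d - b) = d := by
    refine Eq.trans ?_ hsum
    rw [Finset.sum_congr rfl (fun u hu => by rw [hb u hu] :
      ∀ u ∈ D, (d - dg G D u) = d - b), Finset.sum_const, smul_eq_mul]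
  have h2 : d - b ≤ 1 := by
    have h3 := hdg x hx
    rw [hb x hx] at h3
    split_ifs at h3 <;> omega
  have h5 : d - b ≠ 0 := by
    intro h
    rw [h, mul_zero] at h1
    omega
  have h6 : d - b = 1 := by omega
  rw [h6, mul_one] at h1
  refine ⟨by omega, ?_⟩
  intro u hu v hv huv
  by_contra hnadj
  have hu' : u ∈ C := hu
  have hv' : v ∈ C := hv
  have h7 : C.filter (fun v => G.Adj u v) ⊆ (C.erase u).erase v := by
    intro z hz
    obtain ⟨hz1, hz2⟩ := Finset.mem_filter.1 hz
    refine Finset.mem_erase.2 ⟨?_, Finset.mem_erase.2 ⟨?_, hz1⟩⟩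
    · rintro rfl
      exact hnadj hz2
    · rintro rfl
      exact G.loopless.irrefl _ hz2
  have h8 := Finset.card_le_card h7
  rw [Finset.card_erase_of_mem (Finset.mem_erase.2 ⟨huv.symm, hv'⟩),
    Finset.card_erase_of_mem hu'] at h8
  have h9 : (C.filter (fun v => G.Adj u v)).card = d := by
    rw [← hreg u hu']
    rfl
  omega

end Pool.Agent.MP_528dc0_co

end

section

open Finset

namespace Pool.Agent.MP_528dc0_co

variable {V : Type} [Fintype V] [DecidableEq V]

/-- Induction for `gallai`. -/
theorem ga12_aux (G : SimpleGraph V) : ∀ n : ℕ, ∀ C : Finset V, C.card ≤ n →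
    ∀ L : V → Finset (Fin 4), Conn G C → (∀ u ∈ C, dg G C u ≤ (L u).card) →
    (¬ ∃ c, LCol G L C c) →
    (∀ x ∈ C, GT G C x) ∨ ∃ Q ⊆ C, Q.card = 5 ∧ G.IsClique (Q : Set V) := by
  intro n
  induction n with
  | zero =>
    intro C hn L hC hL hbad
    have hne : C.Nonempty := by
      obtain ⟨⟨x, hx⟩⟩ := hC.nonempty
      exact ⟨x, Finset.mem_coe.1 hx⟩
    have := Finset.card_pos.2 hne
    omega
  | succ n ih =>
    intro C hn L hC hL hbad
    have hne : C.Nonempty := by
      obtain ⟨⟨x, hx⟩⟩ := hC.nonempty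
      exact ⟨x, Finset.mem_coe.1 hx⟩
    have hpos := Finset.card_pos.2 hne
    rcases Nat.lt_or_ge C.card 2 with h1 | h2
    · -- one vertex
      have hc1 : C.card = 1 := by omega
      obtain ⟨a, rfl⟩ := Finset.card_eq_one.1 hc1
      left
      intro x hx
      rw [Finset.mem_singleton] at hx
      subst hx
      exact GT.base x
    · by_cases hcut : ∃ v ∈ C, ¬ (G.induce ((C.erase v : Finset V) : Set V)).Preconnected
      · -- a cut vertex
        obtain ⟨v, hv, hvc⟩ := hcut
        obtain ⟨C₁, C₂, hun, hi, hc1, hc2, hk1, hk2, hno⟩ := cut_split G C hC v hv hvc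
        have hcard := Finset.card_union_add_card_inter C₁ C₂
        rw [hun, hi, Finset.card_singleton] at hcard
        have hno' : ∀ a ∈ C₂, ∀ b ∈ C₁, a ≠ v → b ≠ v → ¬ G.Adj a b :=
          fun a ha b hb hav hbv hab => hno b hb a ha hbv hav hab.symm
        have hi' : C₂ ∩ C₁ = {v} := by rw [Finset.inter_comm]; exact hi
        have hun' : C₂ ∪ C₁ = C := by rw [Finset.union_comm]; exact hun
        have hv1 : v ∈ C₁ := (Finset.mem_inter.1 (by rw [hi]; exact Finset.mem_singleton_self v)).1
        have hv2 : v ∈ C₂ := (Finset.mem_inter.1 (by rw [hi]; exact Finset.mem_singleton_self v)).2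
        obtain ⟨L₁, hL1, hb1⟩ := bad_split G L C₁ C₂ v hi hk2 hno
          (by rw [hun]; exact hL) (by rw [hun]; exact hbad)
        obtain ⟨L₂, hL2, hb2⟩ := bad_split G L C₂ C₁ v hi' hk1 hno'
          (by rw [hun']; exact hL) (by rw [hun']; exact hbad)
        have hs1 : C₁ ⊆ C := by rw [← hun]; exact Finset.subset_union_left
        have hs2 : C₂ ⊆ C := by rw [← hun]; exact Finset.subset_union_right
        rcases ih C₁ (by omega) L₁ hk1 hL1 hb1 with g1 | ⟨Q, hQ, hQ5, hQc⟩
        · rcases ih C₂ (by omega) L₂ hk2 hL2 hb2 with g2 | ⟨Q, hQ, hQ5, hQc⟩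
          · left
            intro x hx
            rw [← hun, Finset.mem_union] at hx
            rcases hx with hx | hx
            · have := gt_attach (g1 x hx) hv1 (g2 v hv2) hi hno
              rwa [hun] at this
            · have := gt_attach (g2 x hx) hv2 (g1 v hv1) hi' hno'
              rwa [hun'] at this
          · exact Or.inr ⟨Q, hQ.trans hs2, hQ5, hQc⟩
        · exact Or.inr ⟨Q, hQ.trans hs1, hQ5, hQc⟩
      · -- no cut vertex
        push Not at hcut
        obtain ⟨X, hX⟩ := bad_const G L C hC h2 hcut hL hbad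
        have hX4 : X.card ≤ 4 := by
          have := Finset.card_le_univ X
          simpa using this
        have hreg : ∀ u ∈ C, dg G C u = X.card := fun u hu => (hX u hu).2
        have hX0 : X.card ≠ 0 := by
          intro h0
          obtain ⟨a, ha, b, hb, hab⟩ := Finset.one_lt_card.1 (by omega : 1 < C.card)
          obtain ⟨p⟩ := hC.preconnected ⟨a, Finset.mem_coe.2 ha⟩ ⟨b, Finset.mem_coe.2 hb⟩
          cases p with
          | nil => exact hab rfl
          | @cons _ y _ hadj _ =>
            have h1 := hreg a ha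
            rw [h0] at h1
            unfold dg at h1
            rw [Finset.card_eq_zero] at h1
            have h2 : (y : V) ∈ (∅ : Finset V) := by
              classical
              rw [← h1]
              exact Finset.mem_filter.2 ⟨Finset.mem_coe.1 y.2, hadj⟩
            exact absurd h2 (Finset.notMem_empty _)
        rcases (by omega : X.card = 1 ∨ X.card = 2 ∨ 3 ≤ X.card) with hd | hd | hd
        · left
          refine gt_edge G C hC (fun u hu => ?_)
          rw [hreg u hu, hd]
        · left
          refine gt_cycle G C hC (fun u hu => ?_) X hd ?_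
          · rw [hreg u hu, hd]
          · rintro ⟨c, hc1, hc2⟩
            apply hbad
            refine ⟨c, fun v hv => ?_, hc2⟩
            rw [(hX v hv).1]
            exact hc1 v hv
        · obtain ⟨w, hw⟩ := hne
          have hLw : (L w).Nonempty := by
            rw [(hX w hw).1, ← Finset.card_pos]
            omega
          obtain ⟨L', hL', hb'⟩ := bad_erase G L C w hw hL hbad hLw
          have hce := Finset.card_erase_of_mem hw
          have hD : Conn G (C.erase w) := by
            have hne' : (C.erase w).Nonempty := by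
              rw [← Finset.card_pos]
              omega
            obtain ⟨z, hz⟩ := hne'
            have : Nonempty ((C.erase w : Finset V) : Set V) := ⟨⟨z, Finset.mem_coe.2 hz⟩⟩
            exact ⟨hcut w hw⟩
          rcases ih (C.erase w) (by omega) L' hD hL' hb' with g | ⟨Q, hQ, hQ5, hQc⟩
          · obtain ⟨hcc, hcl⟩ := reg_clique G C X.card hd hX4 hreg hC w hw hD g
            rcases (by omega : X.card = 3 ∨ X.card = 4) with h3 | h4
            · left
              exact gt_clique4 G C (by omega) hcl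
            · right
              exact ⟨C, Finset.Subset.refl C, by omega, hcl⟩
          · exact Or.inr ⟨Q, hQ.trans (Finset.erase_subset w C), hQ5, hQc⟩

/-- **Gallai's theorem** (lists from four colours).

Proof. Strong induction on `C.card`, generalising `L`. `|C| = 1`: `GT.base`. If some `v ∈ C` is a cut
vertex: `cut_split`, `bad_split` twice (the second time with the roles of `C₁`, `C₂` exchanged),
induction for `C₁` and `C₂` (both smaller since the other has a vertex outside); if one of them
contains a `K₅` so does `C`; otherwise `x ∈ C₁`: `gt_attach (GT C₁ x) (GT C₂ v)`, `x ∈ C₂`: symmetric.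
If there is no cut vertex: `bad_const` gives `X` with `dg = |X| =: d ≤ 4`; `d ≥ 1` as `C` is connected
with two vertices. `d = 1`: `gt_edge`. `d = 2`: `gt_cycle` (`LCol` with `L` and with the constant
list `X` are the same on `C`). `d ≥ 3`: `bad_erase` and induction for `C.erase w` (`w` any vertex) give
`GT` for all roots (or a `K₅`); `reg_clique`: `C` is a clique with `d + 1` vertices; `d = 3`:
`gt_clique4`; `d = 4`: `C` itself is the `K₅`. -/
theorem gallai (G : SimpleGraph V) (L : V → Finset (Fin 4)) (C : Finset V) (hC : Conn G C)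
    (hL : ∀ u ∈ C, dg G C u ≤ (L u).card) (hbad : ¬ ∃ c, LCol G L C c) :
    (∀ x ∈ C, GT G C x) ∨ ∃ Q ⊆ C, Q.card = 5 ∧ G.IsClique (Q : Set V) :=
  ga12_aux G C.card C le_rfl L hC hL hbad

end Pool.Agent.MP_528dc0_co

end
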