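import Mathlib
import Pool.Agent.MP_528dc0_co.Gal
import Pool.Agent.MP_528dc0_co.PDefs

/-!
# Pieces of Gallai trees
-/

section

open Finset

namespace Pool.Agent.MP_528dc0_co

variable {V : Type} [Fintype V] [DecidableEq V]

/-- The colours of the root which extend to the union of the pieces are computed in the block.
Proof. `⊆`: a colouring `c` of the union gives `b i = c (y i)`. `⊇`: given `b` and colourings `c i` of
the pieces with `c i (y i) = b i`, let `c v = c i v` for `v ∈ C i` (the pieces are disjoint); edges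
between different pieces only join roots, along `B`. (`y i ∈ C i` by `gt_conn`.) -/
theorem ff_glue {G : SimpleGraph V} {m : ℕ} {B : SimpleGraph (Fin (m + 1))}
    {C : Fin (m + 1) → Finset V} {y : Fin (m + 1) → V} (h : Glue G m B C y)
    (L : V → Finset (Fin 4)) :
    FF G L (univ.biUnion C) (y 0) = FB B (fun i => FF G L (C i) (y i)) := by
  classical
  have hy : ∀ i, y i ∈ C i := fun i => (gt_conn (h.gt i)).1
  ext a
  simp only [FF, FB, Finset.mem_filter, Finset.mem_univ, true_and]
  constructor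
  · rintro ⟨c, hc, hL⟩
    refine ⟨fun i => c (y i), hc, fun i => ⟨c, rfl, ?_⟩, ?_⟩
    · exact ⟨fun v hv => hL.1 v (mem_biUnion.2 ⟨i, mem_univ i, hv⟩),
        fun u hu v hv huv => hL.2 u (mem_biUnion.2 ⟨i, mem_univ _, hu⟩) v
          (mem_biUnion.2 ⟨i, mem_univ _, hv⟩) huv⟩
    · intro i j hij
      exact hL.2 _ (mem_biUnion.2 ⟨i, mem_univ _, hy i⟩) _
        (mem_biUnion.2 ⟨j, mem_univ _, hy j⟩)
        ((h.adj i j hij.ne _ (hy i) _ (hy j)).2 ⟨rfl, rfl, hij⟩)
  · rintro ⟨b, hb0, hb, hB⟩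
    choose c hc hL using hb
    have hdis : ∀ v i j, v ∈ C i → v ∈ C j → i = j := by
      intro v i j hi hj
      by_contra hne
      exact (Finset.disjoint_left.1 (h.disj i j hne)) hi hj
    let d : V → Fin 4 := fun v => if hv : ∃ i, v ∈ C i then c hv.choose v else 0
    have hd : ∀ i v, v ∈ C i → d v = c i v := by
      intro i v hv
      have hex : ∃ i, v ∈ C i := ⟨i, hv⟩
      have h1 : hex.choose = i := hdis v _ _ hex.choose_spec hv
      simp only [d, dif_pos hex, h1]
    refine ⟨d, by rw [hd 0 _ (hy 0), hc, hb0], ?_, ?_⟩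
    · intro v hv
      obtain ⟨i, -, hi⟩ := mem_biUnion.1 hv
      rw [hd i v hi]
      exact (hL i).1 v hi
    · intro u hu v hv huv
      obtain ⟨i, -, hi⟩ := mem_biUnion.1 hu
      obtain ⟨j, -, hj⟩ := mem_biUnion.1 hv
      rw [hd i u hi, hd j v hj]
      by_cases hij : i = j
      · subst hij
        exact (hL i).2 u hi v hj huv
      · obtain ⟨rfl, rfl, hBij⟩ := (h.adj i j hij u hi v hj).1 huv
        rw [hc, hc]
        exact hB i j hBij

end Pool.Agent.MP_528dc0_co

end

section

open Finset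

namespace Pool.Agent.MP_528dc0_co

variable {V : Type} [Fintype V] [DecidableEq V]

/-! ### complete graphs -/

theorem pa2_mem_FB {m : ℕ} {B : SimpleGraph (Fin (m + 1))} {X : Fin (m + 1) → Finset (Fin 4)}
    {a : Fin 4} : a ∈ FB B X ↔ ∃ b : Fin (m + 1) → Fin 4, b 0 = a ∧ (∀ i, b i ∈ X i) ∧
      ∀ i j, B.Adj i j → b i ≠ b j := by
  simp only [FB, mem_filter, mem_univ, true_and]

theorem pa2_FB_sub {m : ℕ} {B : SimpleGraph (Fin (m + 1))} {X : Fin (m + 1) → Finset (Fin 4)} :
    FB B X ⊆ X 0 := by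
  intro a ha
  rw [pa2_mem_FB] at ha
  obtain ⟨b, h1, h2, _⟩ := ha
  rw [← h1]
  exact h2 0

theorem pa2_top_eq {m : ℕ} (X : Fin (m + 1) → Finset (Fin 4)) (Y : Finset (Fin 4))
    (hY : Y.card = m) (hX : ∀ i ≠ 0, X i = Y) : FB (⊤ : SimpleGraph (Fin (m + 1))) X = X 0 \ Y := by
  ext a
  rw [pa2_mem_FB, mem_sdiff]
  constructor
  · rintro ⟨b, h1, h2, h3⟩
    refine ⟨by rw [← h1]; exact h2 0, fun ha => ?_⟩
    have hinj : Function.Injective b := by
      intro i j hij
      by_contra hne
      exact h3 i j (by simpa using hne) hij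
    have h4 : (univ.image b).card = m + 1 := by
      rw [card_image_of_injective _ hinj]; simp
    have h5 : univ.image b ⊆ Y := by
      intro c hc
      rw [mem_image] at hc
      obtain ⟨i, _, rfl⟩ := hc
      rcases eq_or_ne i 0 with hi | hi
      · rw [hi, h1]; exact ha
      · rw [← hX i hi]; exact h2 i
    have h6 := card_le_card h5
    omega
  · rintro ⟨h1, h2⟩
    let e : Y ≃ Fin m := Finset.equivFinOfCardEq hY
    have hinj : Function.Injective
        (Fin.cons a (fun i => (e.symm i).1) : Fin (m + 1) → Fin 4) := by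
      rw [Fin.cons_injective_iff]
      refine ⟨?_, ?_⟩
      · rintro ⟨i, hi⟩
        apply h2
        rw [← hi]
        exact (e.symm i).2
      · intro i j hij
        exact e.symm.injective (Subtype.ext hij)
    refine ⟨Fin.cons a (fun i => (e.symm i).1), rfl, ?_, ?_⟩
    · intro i
      refine Fin.cases ?_ (fun j => ?_) i
      · rw [Fin.cons_zero]; exact h1
      · rw [Fin.cons_succ, hX _ (Fin.succ_ne_zero j)]
        exact (e.symm j).2
    · intro i j hij h
      have h3 : i ≠ j := by simpa using hij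
      exact h3 (hinj h)

/-! ### cycles -/

theorem pa2_adj_succ (t : ℕ) (ht : 1 ≤ t) (k : ℕ) :
    (SimpleGraph.cycleGraph (2 * t + 1)).Adj (Fin.ofNat (2 * t + 1) k)
      (Fin.ofNat (2 * t + 1) (k + 1)) := by
  obtain ⟨s, rfl⟩ : ∃ s, t = s + 1 := ⟨t - 1, by omega⟩
  have h : 2 * (s + 1) + 1 = (2 * s + 1) + 2 := by ring
  have key : ∀ n (hn : n = (2 * s + 1) + 2) [NeZero n], (SimpleGraph.cycleGraph n).Adj
      (Fin.ofNat n k) (Fin.ofNat n (k + 1)) := by
    intro n hn _
    subst hn
    rw [SimpleGraph.cycleGraph_adj]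
    right
    rw [sub_eq_iff_eq_add]
    apply Fin.ext
    simp [Fin.val_add, Nat.add_comm]
  exact key _ h

theorem pa2_adj_iff (t : ℕ) (ht : 1 ≤ t) (u v : Fin (2 * t + 1))
    (h : (SimpleGraph.cycleGraph (2 * t + 1)).Adj u v) : u = v + 1 ∨ v = u + 1 := by
  obtain ⟨s, rfl⟩ : ∃ s, t = s + 1 := ⟨t - 1, by omega⟩
  have h0 : 2 * (s + 1) + 1 = (2 * s + 1) + 2 := by ring
  have key : ∀ n (hn : n = (2 * s + 1) + 2) [NeZero n] (u v : Fin n),
      (SimpleGraph.cycleGraph n).Adj u v → u = v + 1 ∨ v = u + 1 := by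
    intro n hn hne u v huv
    subst hn
    rw [SimpleGraph.cycleGraph_adj] at huv
    rcases huv with h | h
    · left
      rw [sub_eq_iff_eq_add'] at h
      exact h
    · right
      rw [sub_eq_iff_eq_add'] at h
      exact h
  exact key _ h0 u v h

theorem pa2_mem_FB_cyc (t : ℕ) (ht : 1 ≤ t) (X : Fin (2 * t + 1) → Finset (Fin 4)) (a : Fin 4) :
    a ∈ FB (SimpleGraph.cycleGraph (2 * t + 1)) X ↔ ∃ β : ℕ → Fin 4, β 0 = a ∧
      (∀ k ≤ 2 * t, β k ∈ X (Fin.ofNat (2 * t + 1) k)) ∧ (∀ k < 2 * t, β k ≠ β (k + 1)) ∧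
      β (2 * t) ≠ a := by
  rw [pa2_mem_FB]
  constructor
  · rintro ⟨b, h1, h2, h3⟩
    refine ⟨fun k => b (Fin.ofNat (2 * t + 1) k), ?_, fun k _ => h2 _,
      fun k _ => h3 _ _ (pa2_adj_succ t ht k), ?_⟩
    · show b (Fin.ofNat (2 * t + 1) 0) = a
      rw [← h1]
      rfl
    · show b (Fin.ofNat (2 * t + 1) (2 * t)) ≠ a
      have h4 := h3 _ _ (pa2_adj_succ t ht (2 * t))
      have h5 : Fin.ofNat (2 * t + 1) (2 * t + 1) = 0 := by
        apply Fin.ext
        simp
      rw [h5, h1] at h4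
      exact h4
  · rintro ⟨β, h1, h2, h3, h4⟩
    have h6 : ∀ v : Fin (2 * t + 1), β v.1 ≠ β (v + 1).1 := by
      intro v
      rw [Fin.val_add_one]
      split_ifs with hv
      · rw [hv, h1]
        exact h4
      · apply h3
        have := v.isLt
        have h7 : v.1 ≠ 2 * t := fun h => hv (Fin.ext h)
        omega
    refine ⟨fun i => β i.1, h1, fun i => ?_, fun i j hij => ?_⟩
    · have h5 := h2 i.1 (by have := i.isLt; omega)
      have h7 : Fin.ofNat (2 * t + 1) i.1 = i := by
        apply Fin.ext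
        simp [Nat.mod_eq_of_lt i.isLt]
      rwa [h7] at h5
    · rcases pa2_adj_iff t ht i j hij with h | h
      · rw [h]
        exact (h6 j).symm
      · rw [h]
        exact h6 i

theorem pa2_cyc_eq (t : ℕ) (ht : 1 ≤ t) (X : Fin (2 * t + 1) → Finset (Fin 4))
    (Y : Finset (Fin 4)) (hY : Y.card = 2) (hX : ∀ i ≠ 0, X i = Y) :
    FB (SimpleGraph.cycleGraph (2 * t + 1)) X = X 0 \ Y := by
  have h0 : ∀ k, 1 ≤ k → k ≤ 2 * t → X (Fin.ofNat (2 * t + 1) k) = Y := by
    intro k h1 h2
    apply hX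
    intro h
    have h3 := congrArg Fin.val h
    simp [Nat.mod_eq_of_lt (show k < 2 * t + 1 by omega)] at h3
    omega
  ext a
  rw [pa2_mem_FB_cyc t ht, mem_sdiff]
  constructor
  · rintro ⟨β, h1, h2, h3, h4⟩
    refine ⟨by rw [← h1]; exact h2 0 (by omega), fun ha => ?_⟩
    obtain ⟨a', ha', hYa⟩ : ∃ a', a' ≠ a ∧ Y = {a, a'} := by
      rw [card_eq_two] at hY
      obtain ⟨c, d, hcd, rfl⟩ := hY
      rw [mem_insert, mem_singleton] at ha
      rcases ha with rfl | rfl
      · exact ⟨d, hcd.symm, rfl⟩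
      · exact ⟨c, hcd, pair_comm c a⟩
    have h5 : ∀ k ≤ 2 * t, β k = a ∨ β k = a' := by
      intro k hk
      rcases Nat.eq_zero_or_pos k with rfl | hk'
      · exact Or.inl h1
      · have h6 := h2 k hk
        rw [h0 k hk' hk, hYa] at h6
        simpa using h6
    have h6 : ∀ j ≤ t, β (2 * j) = a := by
      intro j
      induction j with
      | zero => intro _; exact h1
      | succ j ih =>
        intro hj
        have h7 := ih (by omega)
        have h8 := h3 (2 * j) (by omega)
        have h9 := h3 (2 * j + 1) (by omega)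
        have h10 := h5 (2 * j + 1) (by omega)
        have h11 := h5 (2 * j + 1 + 1) (by omega)
        rw [h7] at h8
        have h12 : β (2 * j + 1) = a' := by
          rcases h10 with h | h
          · exact absurd h.symm h8
          · exact h
        rw [h12] at h9
        rcases h11 with h | h
        · exact h
        · exact absurd h.symm h9
    exact h4 (h6 t le_rfl)
  · rintro ⟨h1, h2⟩
    rw [card_eq_two] at hY
    obtain ⟨c, d, hcd, rfl⟩ := hY
    have hac : a ≠ c := fun h => h2 (by simp [h])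
    have had : a ≠ d := fun h => h2 (by simp [h])
    refine ⟨fun k => if k = 0 then a else if k % 2 = 1 then c else d, by simp, ?_, ?_, ?_⟩
    · intro k hk
      rcases Nat.eq_zero_or_pos k with rfl | hk'
      · simpa using h1
      · rw [h0 k hk' hk]
        have h3 : k ≠ 0 := by omega
        simp only [h3, if_false]
        split_ifs <;> simp
    · intro k hk
      have h3 : k + 1 ≠ 0 := by omega
      simp only [h3, if_false]
      rcases Nat.eq_zero_or_pos k with rfl | hk'
      · simpa using hac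
      · have h4 : k ≠ 0 := by omega
        simp only [h4, if_false]
        rcases Nat.mod_two_eq_zero_or_one k with h5 | h5
        · have h6 : (k + 1) % 2 = 1 := by omega
          simp only [h5, h6, if_true]
          simpa using hcd.symm
        · have h6 : (k + 1) % 2 = 0 := by omega
          simp only [h5, h6, if_true]
          simpa using hcd
    · have h3 : 2 * t ≠ 0 := by omega
      have h4 : (2 * t) % 2 = 0 := by omega
      simp only [h3, h4, if_false]
      simpa using had.symm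

/-- colours which can be reached at the vertex `k` of the path, starting with `a` at `0` -/
def pa2_R (L : ℕ → Finset (Fin 4)) (a : Fin 4) : ℕ → Finset (Fin 4)
  | 0 => {a}
  | k + 1 => (L (k + 1)).filter (fun c => ∃ d ∈ pa2_R L a k, d ≠ c)

theorem pa2_R_spec (L : ℕ → Finset (Fin 4)) (a : Fin 4) (k : ℕ) : ∀ c ∈ pa2_R L a k,
    ∃ β : ℕ → Fin 4, β 0 = a ∧ (∀ j, 1 ≤ j → j ≤ k → β j ∈ L j) ∧ (∀ j < k, β j ≠ β (j + 1)) ∧
      β k = c := by
  induction k with
  | zero =>
    intro c hc
    have h : c = a := by simpa [pa2_R] using hc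
    exact ⟨fun _ => a, rfl, fun j h1 h2 => by omega, fun j h1 => by omega, h.symm⟩
  | succ k ih =>
    intro c hc
    rw [pa2_R, mem_filter] at hc
    obtain ⟨h1, d, hd, hdc⟩ := hc
    obtain ⟨β, h2, h3, h4, h5⟩ := ih d hd
    refine ⟨fun j => if j = k + 1 then c else β j, ?_, ?_, ?_, by simp⟩
    · have : (0 : ℕ) ≠ k + 1 := by omega
      simp only [this, if_false]
      exact h2
    · intro j hj hj'
      by_cases h : j = k + 1
      · simp only [h, if_true]; exact h1
      · simp only [h, if_false]; exact h3 j hj (by omega)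
    · intro j hj
      have h6 : j ≠ k + 1 := by omega
      by_cases h : j = k
      · subst h
        simp only [h6, if_false, if_true]
        rw [h5]
        exact hdc
      · have h7 : j + 1 ≠ k + 1 := by omega
        simp only [h6, h7, if_false]
        exact h4 j (by omega)

theorem pa2_R_step (L : ℕ → Finset (Fin 4)) (a : Fin 4) (k : ℕ) (hL : 2 ≤ (L (k + 1)).card)
    (hk : 1 ≤ (pa2_R L a k).card) : 1 ≤ (pa2_R L a (k + 1)).card ∧
      ((pa2_R L a (k + 1)).card = 1 → (pa2_R L a k).card = 1 ∧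
        L (k + 1) = pa2_R L a k ∪ pa2_R L a (k + 1) ∧
        Disjoint (pa2_R L a k) (pa2_R L a (k + 1))) := by
  by_cases h : (pa2_R L a k).card = 1
  · obtain ⟨z, hz⟩ := card_eq_one.mp h
    have h1 : pa2_R L a (k + 1) = (L (k + 1)).erase z := by
      ext c
      rw [pa2_R, mem_filter, hz, mem_erase]
      simp only [mem_singleton, exists_eq_left]
      constructor
      · rintro ⟨h2, h3⟩; exact ⟨h3.symm, h2⟩
      · rintro ⟨h2, h3⟩; exact ⟨h3, h2.symm⟩
    have h2 := pred_card_le_card_erase (s := L (k + 1)) (a := z)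
    rw [h1]
    refine ⟨by omega, fun h3 => ⟨h, ?_, ?_⟩⟩
    · have h4 : z ∈ L (k + 1) := by
        by_contra h5
        rw [erase_eq_of_notMem h5] at h3
        omega
      rw [hz]
      ext c
      rw [mem_union, mem_singleton, mem_erase]
      constructor
      · intro hc
        by_cases hcz : c = z
        · exact Or.inl hcz
        · exact Or.inr ⟨hcz, hc⟩
      · rintro (rfl | h6)
        · exact h4
        · exact h6.2
    · rw [hz, disjoint_singleton_left]
      simp
  · have h1 : pa2_R L a (k + 1) = L (k + 1) := by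
      rw [pa2_R]
      apply filter_true_of_mem
      intro c _
      exact exists_mem_ne (by omega) c
    rw [h1]
    exact ⟨by omega, fun h3 => by omega⟩

theorem pa2_R_all (L : ℕ → Finset (Fin 4)) (a : Fin 4) (m : ℕ)
    (hL : ∀ k < m, 2 ≤ (L (k + 1)).card)
    (hb : ¬ ∃ c ∈ pa2_R L a m, c ≠ a) :
    (∀ k ≤ m, (pa2_R L a k).card = 1) ∧ ∀ k < m, L (k + 1) = pa2_R L a k ∪ pa2_R L a (k + 1) ∧
      Disjoint (pa2_R L a k) (pa2_R L a (k + 1)) := by
  have h1 : ∀ k ≤ m, 1 ≤ (pa2_R L a k).card := by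
    intro k
    induction k with
    | zero => intro _; simp [pa2_R]
    | succ k ih =>
      intro hk
      exact (pa2_R_step L a k (hL k (by omega)) (ih (by omega))).1
  have h2 : (pa2_R L a m).card = 1 := by
    have h3 : pa2_R L a m ⊆ {a} := by
      intro c hc
      rw [mem_singleton]
      by_contra h
      exact hb ⟨c, hc, h⟩
    have h4 := card_le_card h3
    rw [card_singleton] at h4
    have h5 := h1 m le_rfl
    omega
  have h3 : ∀ j ≤ m, (pa2_R L a (m - j)).card = 1 := by
    intro j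
    induction j with
    | zero => intro _; exact h2
    | succ j ih =>
      intro hj
      have h4 := ih (by omega)
      have h5 : m - j = (m - (j + 1)) + 1 := by omega
      rw [h5] at h4
      exact ((pa2_R_step L a (m - (j + 1)) (hL _ (by omega)) (h1 _ (by omega))).2 h4).1
  have h4 : ∀ k ≤ m, (pa2_R L a k).card = 1 := by
    intro k hk
    have h5 := h3 (m - k) (by omega)
    have h6 : m - (m - k) = k := by omega
    rwa [h6] at h5
  refine ⟨h4, fun k hk => ?_⟩
  exact ((pa2_R_step L a k (hL k hk) (h1 k (by omega))).2 (h4 (k + 1) (by omega))).2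

theorem pa2_two_blocked (L : ℕ → Finset (Fin 4)) (a a' : Fin 4) (haa : a ≠ a') (m : ℕ)
    (hL : ∀ k < m, 2 ≤ (L (k + 1)).card)
    (hb : ¬ ∃ c ∈ pa2_R L a m, c ≠ a) (hb' : ¬ ∃ c ∈ pa2_R L a' m, c ≠ a') :
    ∀ k < m, L (k + 1) = {a, a'} := by
  obtain ⟨h1, h2⟩ := pa2_R_all L a m hL hb
  obtain ⟨h1', h2'⟩ := pa2_R_all L a' m hL hb'
  have key : ∀ k < m, pa2_R L a k ∪ pa2_R L a' k = {a, a'} →
      Disjoint (pa2_R L a k) (pa2_R L a' k) → L (k + 1) = {a, a'} ∧
      pa2_R L a (k + 1) = pa2_R L a' k ∧ pa2_R L a' (k + 1) = pa2_R L a k := by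
    intro k hk h3 h4
    obtain ⟨h5, h6⟩ := h2 k hk
    obtain ⟨h5', h6'⟩ := h2' k hk
    have h7 : (L (k + 1)).card = 2 := by
      rw [h5, card_union_of_disjoint h6, h1 k (by omega), h1 (k + 1) (by omega)]
    have h8 : pa2_R L a k ∪ pa2_R L a' k = L (k + 1) := by
      apply eq_of_subset_of_card_le
      · apply union_subset
        · rw [h5]; exact subset_union_left
        · rw [h5']; exact subset_union_left
      · rw [h7, card_union_of_disjoint h4, h1 k (by omega), h1' k (by omega)]
    refine ⟨by rw [← h8, h3], ?_, ?_⟩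
    · have h9 : pa2_R L a k ∪ pa2_R L a (k + 1) = pa2_R L a k ∪ pa2_R L a' k := by
        rw [← h5, h8]
      calc pa2_R L a (k + 1) = (pa2_R L a k ∪ pa2_R L a (k + 1)) \ pa2_R L a k := by
            rw [union_sdiff_cancel_left h6]
        _ = (pa2_R L a k ∪ pa2_R L a' k) \ pa2_R L a k := by rw [h9]
        _ = pa2_R L a' k := union_sdiff_cancel_left h4
    · have h9 : pa2_R L a' k ∪ pa2_R L a' (k + 1) = pa2_R L a' k ∪ pa2_R L a k := by
        rw [← h5', ← h8, union_comm]
      calc pa2_R L a' (k + 1) = (pa2_R L a' k ∪ pa2_R L a' (k + 1)) \ pa2_R L a' k := by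
            rw [union_sdiff_cancel_left h6']
        _ = (pa2_R L a' k ∪ pa2_R L a k) \ pa2_R L a' k := by rw [h9]
        _ = pa2_R L a k := union_sdiff_cancel_left h4.symm
  have h3 : ∀ k ≤ m, pa2_R L a k ∪ pa2_R L a' k = {a, a'} ∧
      Disjoint (pa2_R L a k) (pa2_R L a' k) := by
    intro k
    induction k with
    | zero =>
      intro _
      refine ⟨?_, ?_⟩
      · simp only [pa2_R]; rfl
      · simp only [pa2_R, disjoint_singleton]
        exact haa
    | succ k ih =>
      intro hk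
      obtain ⟨h4, h5⟩ := ih (by omega)
      obtain ⟨_, h6, h7⟩ := key k (by omega) h4 h5
      rw [h6, h7, union_comm]
      exact ⟨h4, h5.symm⟩
  intro k hk
  obtain ⟨h4, h5⟩ := h3 k (by omega)
  exact (key k hk h4 h5).1

theorem pa2_cyc_gt (t : ℕ) (ht : 1 ≤ t) (X : Fin (2 * t + 1) → Finset (Fin 4))
    (hX : ∀ i ≠ 0, 2 ≤ (X i).card)
    (hne : ¬ ∃ Y : Finset (Fin 4), Y.card = 2 ∧ ∀ i ≠ 0, X i = Y) :
    (X 0).card < (FB (SimpleGraph.cycleGraph (2 * t + 1)) X).card + 2 := by
  by_contra hlt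
  have h1 := card_sdiff_add_card_eq_card
    (pa2_FB_sub (B := SimpleGraph.cycleGraph (2 * t + 1)) (X := X))
  obtain ⟨a, ha, a', ha', haa⟩ := one_lt_card.mp
    (show 1 < (X 0 \ FB (SimpleGraph.cycleGraph (2 * t + 1)) X).card by omega)
  rw [mem_sdiff] at ha ha'
  let L : ℕ → Finset (Fin 4) := fun k => X (Fin.ofNat (2 * t + 1) k)
  have hL0 : ∀ k < 2 * t, Fin.ofNat (2 * t + 1) (k + 1) ≠ 0 := by
    intro k hk h
    have h3 := congrArg Fin.val h
    simp [Nat.mod_eq_of_lt (show k + 1 < 2 * t + 1 by omega)] at h3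
  have hL : ∀ k < 2 * t, 2 ≤ (L (k + 1)).card := fun k hk => hX _ (hL0 k hk)
  have hbl : ∀ a ∈ X 0, a ∉ FB (SimpleGraph.cycleGraph (2 * t + 1)) X →
      ¬ ∃ c ∈ pa2_R L a (2 * t), c ≠ a := by
    rintro a ha1 ha2 ⟨c, hc, hca⟩
    apply ha2
    rw [pa2_mem_FB_cyc t ht]
    obtain ⟨β, h2, h3, h4, h5⟩ := pa2_R_spec L a (2 * t) c hc
    refine ⟨β, h2, fun k hk => ?_, h4, by rw [h5]; exact hca⟩
    rcases Nat.eq_zero_or_pos k with rfl | hk'
    · rw [h2]; exact ha1
    · exact h3 k hk' hk
  have h2 := pa2_two_blocked L a a' haa (2 * t) hL (hbl a ha.1 ha.2) (hbl a' ha'.1 ha'.2)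
  apply hne
  refine ⟨{a, a'}, card_pair haa, fun i hi => ?_⟩
  have h3 : i.1 ≠ 0 := fun h => hi (Fin.ext h)
  have h4 := i.isLt
  have h5 := h2 (i.1 - 1) (by omega)
  have h6 : i.1 - 1 + 1 = i.1 := by omega
  rw [h6] at h5
  have h7 : Fin.ofNat (2 * t + 1) i.1 = i := by
    apply Fin.ext
    simp [Nat.mod_eq_of_lt i.isLt]
  show X i = {a, a'}
  rw [← h5]
  show X i = X (Fin.ofNat (2 * t + 1) i.1)
  rw [h7]

/-! ### `K₂` and `K₄` -/

theorem pa2_k2_gt (X : Fin (1 + 1) → Finset (Fin 4)) (hX : ∀ i ≠ 0, 1 ≤ (X i).card)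
    (hne : ¬ ∃ Y : Finset (Fin 4), Y.card = 1 ∧ ∀ i ≠ 0, X i = Y) :
    (X 0).card < (FB (⊤ : SimpleGraph (Fin (1 + 1))) X).card + 1 := by
  have h1 : (X 1).card ≠ 1 := by
    intro h
    apply hne
    refine ⟨X 1, h, fun i hi => ?_⟩
    have : i = 1 := by
      have := i.isLt
      have h2 : i.1 ≠ 0 := fun h => hi (Fin.ext h)
      apply Fin.ext
      show i.1 = 1
      omega
    rw [this]
  have h2 := hX 1 (by decide)
  have h3 : X 0 ⊆ FB (⊤ : SimpleGraph (Fin (1 + 1))) X := by
    intro a ha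
    rw [pa2_mem_FB]
    obtain ⟨c, hc, hca⟩ := exists_mem_ne (show 1 < (X 1).card by omega) a
    refine ⟨![a, c], rfl, ?_, ?_⟩
    · intro i
      fin_cases i
      · exact ha
      · exact hc
    · intro i j hij
      fin_cases i <;> fin_cases j
      · simp at hij
      · simpa using hca.symm
      · simpa using hca
      · simp at hij
  have h4 := card_le_card h3
  omega

set_option synthInstance.maxSize 1000 in
theorem pa2_k4_dec0 : ∀ c1 c2 c3 a : Fin 4, ¬ (c1 = c2 ∧ c2 = c3) → ∃ b1 : Fin 4,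
    (b1 ≠ c1 ∧ b1 ≠ a) ∧ ∃ b2 : Fin 4, (b2 ≠ c2 ∧ b2 ≠ a ∧ b1 ≠ b2) ∧ ∃ b3 : Fin 4,
    b3 ≠ c3 ∧ b3 ≠ a ∧ b1 ≠ b3 ∧ b2 ≠ b3 := by
  decide

theorem pa2_k4_dec (c1 c2 c3 a : Fin 4) (h : ¬ (c1 = c2 ∧ c2 = c3)) : ∃ b1 b2 b3 : Fin 4,
    b1 ≠ c1 ∧ b2 ≠ c2 ∧ b3 ≠ c3 ∧ b1 ≠ a ∧ b2 ≠ a ∧ b3 ≠ a ∧ b1 ≠ b2 ∧ b1 ≠ b3 ∧ b2 ≠ b3 := by
  obtain ⟨b1, ⟨h1, h2⟩, b2, ⟨h3, h4, h5⟩, b3, h6, h7, h8, h9⟩ := pa2_k4_dec0 c1 c2 c3 a h
  exact ⟨b1, b2, b3, h1, h3, h6, h2, h4, h7, h5, h8, h9⟩

/-- a list of size at least three contains the complement of a point -/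
theorem pa2_k4_big (A : Finset (Fin 4)) (h : 3 ≤ A.card) :
    (∃ c, A = univ.erase c) ∨ A = univ := by
  by_cases h1 : A = univ
  · exact Or.inr h1
  · left
    have h2 : ∃ c, c ∉ A := by
      by_contra h3
      push Not at h3
      exact h1 (eq_univ_iff_forall.mpr h3)
    obtain ⟨c, hc⟩ := h2
    refine ⟨c, eq_of_subset_of_card_le (fun x hx => ?_) ?_⟩
    · rw [mem_erase]
      exact ⟨fun h => hc (h ▸ hx), mem_univ _⟩
    · rw [card_erase_of_mem (mem_univ _)]
      simpa using h

theorem pa2_k4_choose (A1 A2 A3 : Finset (Fin 4)) (h1 : 3 ≤ A1.card) (h2 : 3 ≤ A2.card)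
    (h3 : 3 ≤ A3.card) (hne : ¬ (A1.card = 3 ∧ A1 = A2 ∧ A2 = A3)) :
    ∃ c1 c2 c3 : Fin 4, univ.erase c1 ⊆ A1 ∧ univ.erase c2 ⊆ A2 ∧ univ.erase c3 ⊆ A3 ∧
      ¬ (c1 = c2 ∧ c2 = c3) := by
  have hp : ∀ c : Fin 4, ∃ d : Fin 4, d ≠ c := fun c => exists_ne c
  rcases pa2_k4_big A1 h1 with ⟨c1, rfl⟩ | rfl
  · rcases pa2_k4_big A2 h2 with ⟨c2, rfl⟩ | rfl
    · rcases pa2_k4_big A3 h3 with ⟨c3, rfl⟩ | rfl
      · refine ⟨c1, c2, c3, subset_rfl, subset_rfl, subset_rfl, ?_⟩
        rintro ⟨rfl, rfl⟩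
        apply hne
        refine ⟨?_, rfl, rfl⟩
        rw [card_erase_of_mem (mem_univ _)]
        simp
      · obtain ⟨d, hd⟩ := hp c2
        exact ⟨c1, c2, d, subset_rfl, subset_rfl, subset_univ _, fun h => hd h.2.symm⟩
    · obtain ⟨d, hd⟩ := hp c1
      rcases pa2_k4_big A3 h3 with ⟨c3, rfl⟩ | rfl
      · exact ⟨c1, d, c3, subset_rfl, subset_univ _, subset_rfl, fun h => hd h.1.symm⟩
      · exact ⟨c1, d, d, subset_rfl, subset_univ _, subset_univ _, fun h => hd h.1.symm⟩
  · rcases pa2_k4_big A2 h2 with ⟨c2, rfl⟩ | rfl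
    · obtain ⟨d, hd⟩ := hp c2
      rcases pa2_k4_big A3 h3 with ⟨c3, rfl⟩ | rfl
      · exact ⟨d, c2, c3, subset_univ _, subset_rfl, subset_rfl, fun h => hd h.1⟩
      · exact ⟨d, c2, d, subset_univ _, subset_rfl, subset_univ _, fun h => hd h.1⟩
    · rcases pa2_k4_big A3 h3 with ⟨c3, rfl⟩ | rfl
      · obtain ⟨d, hd⟩ := hp c3
        exact ⟨c3, d, c3, subset_univ _, subset_univ _, subset_rfl, fun h => hd h.2⟩
      · exact ⟨0, 1, 0, subset_univ _, subset_univ _, subset_univ _, by decide⟩

theorem pa2_k4_gt (X : Fin (3 + 1) → Finset (Fin 4)) (hX : ∀ i ≠ 0, 3 ≤ (X i).card)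
    (hne : ¬ ∃ Y : Finset (Fin 4), Y.card = 3 ∧ ∀ i ≠ 0, X i = Y) :
    (X 0).card < (FB (⊤ : SimpleGraph (Fin (3 + 1))) X).card + 3 := by
  have h1 : ¬ ((X 1).card = 3 ∧ X 1 = X 2 ∧ X 2 = X 3) := by
    rintro ⟨h1, h2, h3⟩
    apply hne
    refine ⟨X 1, h1, fun i hi => ?_⟩
    fin_cases i
    · exact absurd rfl hi
    · rfl
    · exact h2.symm
    · exact (h2.trans h3).symm
  obtain ⟨c1, c2, c3, hc1, hc2, hc3, hc⟩ := pa2_k4_choose (X 1) (X 2) (X 3)
    (hX 1 (by decide)) (hX 2 (by decide)) (hX 3 (by decide)) h1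
  have h3 : X 0 ⊆ FB (⊤ : SimpleGraph (Fin (3 + 1))) X := by
    intro a ha
    rw [pa2_mem_FB]
    obtain ⟨b1, b2, b3, e1, e2, e3, e4, e5, e6, e7, e8, e9⟩ := pa2_k4_dec c1 c2 c3 a hc
    refine ⟨![a, b1, b2, b3], rfl, ?_, ?_⟩
    · intro i
      fin_cases i
      · exact ha
      · exact hc1 (by simp [e1])
      · exact hc2 (by simp [e2])
      · exact hc3 (by simp [e3])
    · intro i j hij
      have hij' : i ≠ j := by simpa using hij
      fin_cases i <;> fin_cases j <;> first
        | exact absurd rfl hij'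
        | exact e4.symm
        | exact e5.symm
        | exact e6.symm
        | exact e4
        | exact e5
        | exact e6
        | exact e7
        | exact e8
        | exact e9
        | exact e7.symm
        | exact e8.symm
        | exact e9.symm
  have h4 := card_le_card h3
  omega

/-- All lists equal: the root loses exactly these colours.
`K₂`: `Y = {c}`. Odd cycle, `Y = {a, a'}`: the path `1, …, m` (`m` even) must alternate, so its two ends
have different colours, both in `Y`: exactly the root colours in `Y` are blocked. `K₄`: the three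
other vertices use all three colours of `Y`. -/
theorem fb_eq {m : ℕ} {B : SimpleGraph (Fin (m + 1))} (h : Blk m B)
    (X : Fin (m + 1) → Finset (Fin 4)) (Y : Finset (Fin 4)) (hY : Y.card = bd m)
    (hX : ∀ i ≠ 0, X i = Y) : FB B X = X 0 \ Y := by
  cases h with
  | k2 => exact pa2_top_eq X Y hY hX
  | odd t ht =>
    refine pa2_cyc_eq t ht X Y ?_ hX
    rw [hY, bd, if_neg (by omega)]
  | k4 => exact pa2_top_eq X Y hY hX

/-- Otherwise at least `|X 0| - (bd m - 1)` root colours survive.
`K₂`: the list of `1` has two colours: nothing is blocked. `K₄`: a root colour `a` is blocked iff the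
triangle `1 2 3` cannot be coloured from `X i \ {a}` (all of size at least 2), which happens only if
these are three equal 2-sets, so `a ∈ X i`, `|X i| = 3` and all `X i` are equal; so nothing is
blocked (finitely many cases, `decide` on subsets of `Fin 4` is possible). Odd cycle, path
`1, …, m` with lists of size at least 2: at most one colour is blocked. Suppose `a` is blocked. Then
`a ∈ X 1`, `|X 1| = 2` (otherwise colour from `m` down to `1` greedily, starting with a colour
`≠ a` at `m`), so `X 1 = {a, z₁}` and `1` must get `z₁`; then `X 2 = {z₁, z₂}` (otherwise again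
greedily from `m` down to `2`), and so on: `X i = {z_{i-1}, z_i}`, `z_0 = a = z_m`. If `a ≠ a'` are
both blocked then `X 1 = {a, a'}`, `z₁ = a'`, `z'₁ = a`, `X 2 = {a', z₂} = {a, z'₂}` so
`X 2 = {a, a'}` and so on: all lists are `{a, a'}`, contradiction. -/
theorem fb_gt {m : ℕ} {B : SimpleGraph (Fin (m + 1))} (h : Blk m B)
    (X : Fin (m + 1) → Finset (Fin 4)) (hX : ∀ i ≠ 0, bd m ≤ (X i).card)
    (hne : ¬ ∃ Y : Finset (Fin 4), Y.card = bd m ∧ ∀ i ≠ 0, X i = Y) :
    (X 0).card < (FB B X).card + bd m := by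
  cases h with
  | k2 => exact pa2_k2_gt X hX hne
  | odd t ht =>
    have h1 : bd (2 * t) = 2 := by rw [bd, if_neg (by omega)]
    rw [h1] at hX hne ⊢
    exact pa2_cyc_gt t ht X hX hne
  | k4 => exact pa2_k4_gt X hX hne

end Pool.Agent.MP_528dc0_co

end

section

open Finset

namespace Pool.Agent.MP_528dc0_co

variable {V : Type} [Fintype V] [DecidableEq V]

/-- Blocks are regular. -/
theorem blk_deg {m : ℕ} {B : SimpleGraph (Fin (m + 1))} (h : Blk m B) (i : Fin (m + 1)) :
    {j | B.Adj i j}.ncard = bd m := by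
  have h0 : ∀ (m : ℕ) (B : SimpleGraph (Fin (m + 1))) (i : Fin (m + 1)),
      {j | B.Adj i j}.ncard = Nat.card {j // B.Adj i j} := fun m B i => rfl
  rw [h0]
  cases h with
  | k2 =>
    rw [Nat.card_eq_fintype_card, Fintype.card_subtype]
    revert i
    decide
  | odd t ht =>
    obtain ⟨s, rfl⟩ : ∃ s, t = s + 1 := ⟨t - 1, by omega⟩
    have h1 := @SimpleGraph.cycleGraph_degree_three_le (2 * s) i
    rw [← SimpleGraph.card_neighborSet_eq_degree, ← Nat.card_eq_fintype_card] at h1
    have h2 : bd (2 * (s + 1)) = 2 := by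
      unfold bd
      rw [if_neg (by omega)]
    rw [h2]
    exact h1
  | k4 =>
    rw [Nat.card_eq_fintype_card, Fintype.card_subtype]
    revert i
    decide

theorem pa3_sum {G : SimpleGraph V} {m : ℕ} {B : SimpleGraph (Fin (m + 1))}
    {C : Fin (m + 1) → Finset V} {y : Fin (m + 1) → V} (h : Glue G m B C y) (u : V) :
    dg G (univ.biUnion C) u = ∑ j, dg G (C j) u := by
  classical
  unfold dg
  rw [Finset.filter_biUnion, Finset.card_biUnion]
  intro i _ j _ hij
  exact Finset.disjoint_filter_filter (h.disj i j hij)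

open Classical in
theorem pa3_other {G : SimpleGraph V} {m : ℕ} {B : SimpleGraph (Fin (m + 1))}
    {C : Fin (m + 1) → Finset V} {y : Fin (m + 1) → V} (h : Glue G m B C y) {i j : Fin (m + 1)}
    (hij : i ≠ j) {u : V} (hu : u ∈ C i) :
    dg G (C j) u = if u = y i ∧ B.Adj i j then 1 else 0 := by
  unfold dg
  by_cases h1 : u = y i ∧ B.Adj i j
  · rw [if_pos h1, Finset.card_eq_one]
    refine ⟨y j, ?_⟩
    ext v
    rw [Finset.mem_filter, Finset.mem_singleton]
    constructor
    · rintro ⟨hv, hadj⟩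
      exact ((h.adj i j hij u hu v hv).1 hadj).2.1
    · rintro rfl
      have hy := (gt_conn (h.gt j)).1
      exact ⟨hy, (h.adj i j hij u hu _ hy).2 ⟨h1.1, rfl, h1.2⟩⟩
  · rw [if_neg h1, Finset.card_eq_zero, Finset.filter_eq_empty_iff]
    intro v hv hadj
    have h2 := (h.adj i j hij u hu v hv).1 hadj
    exact h1 ⟨h2.1, h2.2.2⟩

theorem pa3_split {G : SimpleGraph V} {m : ℕ} {B : SimpleGraph (Fin (m + 1))}
    {C : Fin (m + 1) → Finset V} {y : Fin (m + 1) → V} (h : Glue G m B C y) (i : Fin (m + 1))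
    (u : V) : dg G (univ.biUnion C) u = dg G (C i) u + ∑ j ∈ univ.erase i, dg G (C j) u := by
  rw [pa3_sum h]
  exact (Finset.add_sum_erase _ (fun j => dg G (C j) u) (Finset.mem_univ i)).symm

theorem dg_glue_root {G : SimpleGraph V} {m : ℕ} {B : SimpleGraph (Fin (m + 1))}
    {C : Fin (m + 1) → Finset V} {y : Fin (m + 1) → V} (h : Glue G m B C y) (i : Fin (m + 1)) :
    dg G (univ.biUnion C) (y i) = dg G (C i) (y i) + bd m := by
  classical
  rw [pa3_split h i, ← blk_deg h.blk i]
  congr 1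
  have h1 : ∀ j ∈ univ.erase i, dg G (C j) (y i) = if B.Adj i j then 1 else 0 := by
    intro j hj
    rw [pa3_other h (Finset.ne_of_mem_erase hj).symm (gt_conn (h.gt i)).1]
    simp
  rw [Finset.sum_congr rfl h1, ← Finset.card_filter]
  have h2 : {j | B.Adj i j} = (((univ.erase i).filter fun j => B.Adj i j : Finset _) : Set _) := by
    ext j
    simp only [Set.mem_ofPred_eq, Finset.coe_filter, Finset.mem_erase, Finset.mem_univ, and_true]
    exact ⟨fun hj => ⟨hj.ne', hj⟩, fun hj => hj.2⟩
  rw [h2, Set.ncard_coe_finset]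

theorem dg_glue_other {G : SimpleGraph V} {m : ℕ} {B : SimpleGraph (Fin (m + 1))}
    {C : Fin (m + 1) → Finset V} {y : Fin (m + 1) → V} (h : Glue G m B C y) (i : Fin (m + 1))
    (u : V) (hu : u ∈ C i) (hne : u ≠ y i) : dg G (univ.biUnion C) u = dg G (C i) u := by
  classical
  rw [pa3_split h i, Finset.sum_eq_zero, add_zero]
  intro j hj
  rw [pa3_other h (Finset.ne_of_mem_erase hj).symm hu, if_neg fun h1 => hne h1.1]

/-- The pieces inherit `Full`, and the children's roots miss exactly `bd m` edges. -/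
theorem full_glue {G : SimpleGraph V} {N : V → Finset (Fin 8)} {m : ℕ}
    {B : SimpleGraph (Fin (m + 1))} {C : Fin (m + 1) → Finset V} {y : Fin (m + 1) → V}
    (h : Glue G m B C y) (hf : Full G N (univ.biUnion C) (y 0)) :
    (∀ i, Full G N (C i) (y i)) ∧ ∀ i ≠ 0, (N (y i)).card + dg G (C i) (y i) + bd m = 4 := by
  have hy : ∀ i, y i ∈ C i := fun i => (gt_conn (h.gt i)).1
  constructor
  · intro i v hv hvy
    rw [← dg_glue_other h i v hv hvy]
    apply hf v (Finset.mem_biUnion.2 ⟨i, Finset.mem_univ _, hv⟩)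
    rintro rfl
    by_cases hi : i = 0
    · rw [hi] at hvy
      exact hvy rfl
    · exact Finset.disjoint_left.1 (h.disj i 0 hi) hv (hy 0)
  · intro i hi
    have h1 := hf (y i) (Finset.mem_biUnion.2 ⟨i, Finset.mem_univ _, hy i⟩) (by
      intro h2
      exact Finset.disjoint_left.1 (h.disj i 0 hi) (hy i) (by rw [h2]; exact hy 0))
    rw [dg_glue_root h i] at h1
    omega

end Pool.Agent.MP_528dc0_co

end

section

open Finset

namespace Pool.Agent.MP_528dc0_co

variable {V : Type} [Fintype V] [DecidableEq V]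

theorem pa4_inj {G : SimpleGraph V} {m : ℕ} {B : SimpleGraph (Fin (m + 1))}
    {C : Fin (m + 1) → Finset V} {y : Fin (m + 1) → V} (h : Glue G m B C y) :
    Function.Injective y := by
  intro i j hij
  by_contra hne
  exact Finset.disjoint_left.1 (h.disj i j hne) (gt_conn (h.gt i)).1
    (by rw [hij]; exact (gt_conn (h.gt j)).1)

theorem pa4_adj {G : SimpleGraph V} {m : ℕ} {B : SimpleGraph (Fin (m + 1))}
    {C : Fin (m + 1) → Finset V} {y : Fin (m + 1) → V} (h : Glue G m B C y) {i j : Fin (m + 1)}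
    (hij : i ≠ j) : G.Adj (y i) (y j) ↔ B.Adj i j := by
  rw [h.adj i j hij _ (gt_conn (h.gt i)).1 _ (gt_conn (h.gt j)).1]
  exact ⟨fun h => h.2.2, fun h => ⟨rfl, rfl, h⟩⟩

/-- a clique of the union is inside one piece or consists of roots -/
theorem pa4_clique {G : SimpleGraph V} {m : ℕ} {B : SimpleGraph (Fin (m + 1))}
    {C : Fin (m + 1) → Finset V} {y : Fin (m + 1) → V} (h : Glue G m B C y) {S : Finset V}
    (hS : S ⊆ univ.biUnion C) (hcl : G.IsClique (S : Set V)) (hne : S.Nonempty) :
    (∃ i, S ⊆ C i) ∨ ∃ T : Finset (Fin (m + 1)), B.IsClique (T : Set (Fin (m + 1))) ∧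
      T.card = S.card ∧ T.image y = S := by
  classical
  by_cases h1 : ∃ i, S ⊆ C i
  · exact Or.inl h1
  right
  push Not at h1
  have hloc : ∀ w ∈ S, ∃ l, w ∈ C l := by
    intro w hw
    obtain ⟨l, -, hl⟩ := Finset.mem_biUnion.1 (hS hw)
    exact ⟨l, hl⟩
  obtain ⟨u, hu⟩ := hne
  obtain ⟨i, hi⟩ := hloc u hu
  obtain ⟨v, hv, hvi⟩ := Finset.not_subset.1 (h1 i)
  obtain ⟨j, hj⟩ := hloc v hv
  have hij : i ≠ j := by
    rintro rfl
    exact hvi hj
  have hroot : ∀ w ∈ S, ∀ l, w ∈ C l → w = y l := by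
    intro w hw l hl
    by_cases hli : l = i
    · subst hli
      have hwv : w ≠ v := by
        rintro rfl
        exact hvi hl
      exact ((h.adj l j hij w hl v hj).1 (hcl (Finset.mem_coe.2 hw) (Finset.mem_coe.2 hv) hwv)).1
    · have hwu : w ≠ u := by
        rintro rfl
        exact Finset.disjoint_left.1 (h.disj l i hli) hl hi
      exact ((h.adj l i hli w hl u hi).1 (hcl (Finset.mem_coe.2 hw) (Finset.mem_coe.2 hu) hwu)).1
  have himg : (univ.filter fun l => y l ∈ S).image y = S := by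
    ext w
    rw [Finset.mem_image]
    constructor
    · rintro ⟨l, hl, rfl⟩
      exact (Finset.mem_filter.1 hl).2
    · intro hw
      obtain ⟨l, hl⟩ := hloc w hw
      have := hroot w hw l hl
      exact ⟨l, Finset.mem_filter.2 ⟨Finset.mem_univ _, by rw [← this]; exact hw⟩, this.symm⟩
  refine ⟨univ.filter fun l => y l ∈ S, ?_, ?_, himg⟩
  · intro a ha b hb hab
    have ha' := (Finset.mem_filter.1 (Finset.mem_coe.1 ha)).2
    have hb' := (Finset.mem_filter.1 (Finset.mem_coe.1 hb)).2
    exact (pa4_adj h hab).1 (hcl (Finset.mem_coe.2 ha') (Finset.mem_coe.2 hb')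
      fun h2 => hab (pa4_inj h h2))
  · conv_rhs => rw [← himg]
    rw [Finset.card_image_of_injective _ (pa4_inj h)]

open Classical in
theorem pa4_sum {G : SimpleGraph V} {m : ℕ} {B : SimpleGraph (Fin (m + 1))}
    {C : Fin (m + 1) → Finset V} {y : Fin (m + 1) → V} (h : Glue G m B C y) (k : ℕ) (hk : 2 ≤ k)
    (f : Finset V → ℕ) :
    ∑ e ∈ ((univ.biUnion C).powersetCard k).filter (fun e : Finset V => G.IsClique (e : Set V)),
        f e =
      ∑ i, ∑ e ∈ ((C i).powersetCard k).filter (fun e : Finset V => G.IsClique (e : Set V)), f e +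
      ∑ T ∈ ((univ : Finset (Fin (m + 1))).powersetCard k).filter
        (fun T : Finset (Fin (m + 1)) => B.IsClique (T : Set (Fin (m + 1)))), f (T.image y) := by
  have hy : ∀ i, y i ∈ C i := fun i => (gt_conn (h.gt i)).1
  have hinj := pa4_inj h
  have h1 : ((univ.biUnion C).powersetCard k).filter
        (fun e : Finset V => G.IsClique (e : Set V)) =
      (univ.biUnion fun i => ((C i).powersetCard k).filter
        (fun e : Finset V => G.IsClique (e : Set V))) ∪
      (((univ : Finset (Fin (m + 1))).powersetCard k).filter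
        (fun T : Finset (Fin (m + 1)) => B.IsClique (T : Set (Fin (m + 1))))).image
          (fun T => T.image y) := by
    ext e
    simp only [Finset.mem_union, Finset.mem_biUnion, Finset.mem_univ, true_and,
      Finset.mem_filter, Finset.mem_powersetCard, Finset.mem_image, Finset.subset_univ]
    constructor
    · rintro ⟨⟨he, hc⟩, hcl⟩
      have hne : e.Nonempty := by
        rw [← Finset.card_pos]; omega
      rcases pa4_clique h he hcl hne with ⟨i, hi⟩ | ⟨T, hT1, hT2, hT3⟩
      · exact Or.inl ⟨i, ⟨hi, hc⟩, hcl⟩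
      · exact Or.inr ⟨T, ⟨by omega, hT1⟩, hT3⟩
    · rintro (⟨i, ⟨hi, hc⟩, hcl⟩ | ⟨T, ⟨hc, hT1⟩, rfl⟩)
      · exact ⟨⟨hi.trans (Finset.subset_biUnion_of_mem C (Finset.mem_univ i)), hc⟩, hcl⟩
      · refine ⟨⟨?_, ?_⟩, ?_⟩
        · intro v hv
          obtain ⟨l, -, rfl⟩ := Finset.mem_image.1 hv
          exact Finset.mem_biUnion.2 ⟨l, Finset.mem_univ _, hy l⟩
        · rw [Finset.card_image_of_injective _ hinj]
          exact hc
        · intro a ha b hb hab
          obtain ⟨l, hl, rfl⟩ := Finset.mem_image.1 (Finset.mem_coe.1 ha)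
          obtain ⟨l', hl', rfl⟩ := Finset.mem_image.1 (Finset.mem_coe.1 hb)
          have hne : l ≠ l' := fun h2 => hab (by rw [h2])
          exact (pa4_adj h hne).2 (hT1 (Finset.mem_coe.2 hl) (Finset.mem_coe.2 hl') hne)
  rw [h1, Finset.sum_union, Finset.sum_biUnion, Finset.sum_image]
  · intro T _ T' _ hTT
    exact Finset.image_injective hinj hTT
  · intro i _ j _ hij
    rw [Function.onFun, Finset.disjoint_left]
    intro e he he'
    rw [Finset.mem_filter, Finset.mem_powersetCard] at he he'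
    obtain ⟨v, hv⟩ : e.Nonempty := by
      rw [← Finset.card_pos]; omega
    exact Finset.disjoint_left.1 (h.disj i j hij) (he.1.1 hv) (he'.1.1 hv)
  · rw [Finset.disjoint_left]
    intro e he he'
    obtain ⟨i, -, hi⟩ := Finset.mem_biUnion.1 he
    obtain ⟨T, hT, rfl⟩ := Finset.mem_image.1 he'
    rw [Finset.mem_filter, Finset.mem_powersetCard] at hi hT
    have hc : 1 < T.card := by
      have := hT.1.2
      omega
    obtain ⟨a, ha, b, hb, hab⟩ := Finset.one_lt_card.1 hc
    have ha' := hi.1.1 (Finset.mem_image_of_mem y ha)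
    have hb' := hi.1.1 (Finset.mem_image_of_mem y hb)
    have h2 : ∀ l, y l ∈ C i → l = i := by
      intro l hl
      by_contra hne
      exact Finset.disjoint_left.1 (h.disj l i hne) (hy l) hl
    exact hab ((h2 a ha').trans (h2 b hb').symm)

theorem pa4_sub {n : ℕ} {a b : Fin n} (h : (a - b).val = 1) :
    a.val = b.val + 1 ∨ a.val + n = b.val + 1 := by
  have ha := a.2
  have hb := b.2
  rw [Fin.sub_def] at h
  simp only at h
  by_cases hab : b.val ≤ a.val
  · left
    have h1 : n - b.val + a.val = n + (a.val - b.val) := by omega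
    rw [h1, Nat.add_mod_left, Nat.mod_eq_of_lt (by omega)] at h
    omega
  · right
    rw [Nat.mod_eq_of_lt (by omega)] at h
    omega

open Classical in
theorem pa4_tb {m : ℕ} {B : SimpleGraph (Fin (m + 1))} (h : Blk m B) :
    (((univ : Finset (Fin (m + 1))).powersetCard 3).filter
      (fun T : Finset (Fin (m + 1)) => B.IsClique (T : Set (Fin (m + 1))))).card = tb m := by
  cases h with
  | k2 =>
    have h1 : (univ : Finset (Fin (1 + 1))).powersetCard 3 = ∅ := by decide
    rw [h1, Finset.filter_empty]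
    rfl
  | odd t ht =>
    by_cases h1 : t = 1
    · subst h1
      have h2 : ((univ : Finset (Fin (2 * 1 + 1))).powersetCard 3) = {univ} := by decide
      have h3 : (SimpleGraph.cycleGraph (2 * 1 + 1)).IsClique
          ((univ : Finset (Fin (2 * 1 + 1))) : Set (Fin (2 * 1 + 1))) := by
        intro a _ b _ hab
        revert a b
        decide
      rw [h2, Finset.filter_singleton, if_pos h3]
      rfl
    · have h2 : tb (2 * t) = 0 := by
        unfold tb
        rw [if_neg (by omega), if_neg (by omega)]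
      rw [h2]
      refine Finset.card_eq_zero.2 (Finset.eq_empty_of_forall_notMem fun T hT => ?_)
      simp only [Finset.mem_filter] at hT
      obtain ⟨hT, hcl⟩ := hT
      obtain ⟨-, hc⟩ := Finset.mem_powersetCard.1 hT
      obtain ⟨a, b, c, hab, hac, hbc, rfl⟩ := Finset.card_eq_three.1 hc
      have e1 := hcl (by simp : a ∈ _) (by simp : b ∈ _) hab
      have e2 := hcl (by simp : a ∈ _) (by simp : c ∈ _) hac
      have e3 := hcl (by simp : b ∈ _) (by simp : c ∈ _) hbc
      rw [SimpleGraph.cycleGraph_adj'] at e1 e2 e3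
      have va := a.2
      have vb := b.2
      have vc := c.2
      have f1 := e1.imp pa4_sub pa4_sub
      have f2 := e2.imp pa4_sub pa4_sub
      have f3 := e3.imp pa4_sub pa4_sub
      omega
  | k4 =>
    have h1 : ∀ T : Finset (Fin (3 + 1)), (⊤ : SimpleGraph (Fin (3 + 1))).IsClique
        (T : Set (Fin (3 + 1))) := by
      intro T a _ b _ hab
      exact hab
    have h2 : ((univ : Finset (Fin (3 + 1))).powersetCard 3).card = tb 3 := by decide
    rw [← h2]
    congr 1
    ext T
    simp only [Finset.mem_filter]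
    exact ⟨fun h => h.1, fun h => ⟨h, h1 T⟩⟩

theorem pa4_edges {m : ℕ} (B : SimpleGraph (Fin (m + 1))) (g : Finset (Fin (m + 1)) → ℕ) :
    open Classical in
    ∑ T ∈ ((univ : Finset (Fin (m + 1))).powersetCard 2).filter
        (fun T : Finset (Fin (m + 1)) => B.IsClique (T : Set (Fin (m + 1)))), g T =
      ∑ i, ∑ j ∈ univ.filter (fun j => i < j ∧ B.Adj i j), g {i, j} := by
  classical
  rw [Finset.sum_sigma']
  symm
  apply Finset.sum_nbij (fun p : (_ : Fin (m + 1)) × Fin (m + 1) => ({p.1, p.2} : Finset _))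
  · rintro ⟨i, j⟩ hp
    simp only [Finset.mem_sigma, Finset.mem_univ, true_and, Finset.mem_filter] at hp
    simp only [Finset.mem_filter, Finset.mem_powersetCard, Finset.subset_univ, true_and]
    refine ⟨Finset.card_pair hp.1.ne, ?_⟩
    rw [Finset.coe_insert, Finset.coe_singleton, SimpleGraph.isClique_pair]
    exact fun _ => hp.2
  · rintro ⟨i, j⟩ hp ⟨i', j'⟩ hp' he
    simp only [Finset.coe_sigma, Finset.mem_coe, Finset.mem_univ, true_and,
      Finset.mem_filter, Set.mem_sigma_iff] at hp hp'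
    have hij : i < j := hp.1
    have hij' : i' < j' := hp'.1
    have he2 : ({i, j} : Finset (Fin (m + 1))) = {i', j'} := he
    have m1 : i ∈ ({i', j'} : Finset (Fin (m + 1))) := by rw [← he2]; simp
    have m2 : j ∈ ({i', j'} : Finset (Fin (m + 1))) := by rw [← he2]; simp
    simp only [Finset.mem_insert, Finset.mem_singleton] at m1 m2
    have h3 : i = i' ∧ j = j' := by
      rcases m1 with rfl | rfl
      · rcases m2 with rfl | rfl
        · exact absurd hij (lt_irrefl _)
        · exact ⟨rfl, rfl⟩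
      · rcases m2 with rfl | rfl
        · exact absurd (hij.trans hij') (lt_irrefl _)
        · exact absurd hij (lt_irrefl _)
    obtain ⟨rfl, rfl⟩ := h3
    rfl
  · intro T hT
    simp only [Finset.coe_filter, Set.mem_ofPred_eq, Finset.mem_powersetCard,
      Finset.subset_univ, true_and] at hT
    obtain ⟨hc, hcl⟩ := hT
    obtain ⟨a, b, hab, rfl⟩ := Finset.card_eq_two.1 hc
    have hadj : B.Adj a b := hcl (by simp : a ∈ _) (by simp : b ∈ _) hab
    rcases lt_or_gt_of_ne hab with h1 | h1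
    · refine ⟨⟨a, b⟩, ?_, rfl⟩
      simp only [Finset.mem_coe, Finset.mem_sigma, Finset.mem_univ, true_and, Finset.mem_filter]
      exact ⟨h1, hadj⟩
    · refine ⟨⟨b, a⟩, ?_, Finset.pair_comm b a⟩
      simp only [Finset.mem_coe, Finset.mem_sigma, Finset.mem_univ, true_and, Finset.mem_filter]
      exact ⟨h1, hadj.symm⟩
  · intro _ _
    rfl

open Classical in
/-- The load is additive up to the edges and triangles of the block.
Proof. Sums over `v`: `Finset.sum_biUnion`. Adjacent pairs `e ⊆ ⋃C`: inside one `C i`, or `{y i, y j}` with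
`B.Adj i j` (`(e.inf N) = N (y i) ∩ N (y j)`). Triangles `t ⊆ ⋃C`: inside one `C i`, or three roots
`y i, y j, y l` forming a triangle of `B` (if `u ∈ C i`, `v ∈ C j` are adjacent, `i ≠ j`, then
`u = y i`, `v = y j`; the third vertex `w ∈ C l` cannot have `l = i` since `w ~ v` would give `w = y i`).
The number of triangles of `B`: `K₂`: 0, `C₃` (`m = 2`): 1, longer cycles: 0, `K₄`: 4. -/
theorem ldp_glue {G : SimpleGraph V} {N : V → Finset (Fin 8)} {m : ℕ}
    {B : SimpleGraph (Fin (m + 1))} {C : Fin (m + 1) → Finset V} {y : Fin (m + 1) → V}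
    (h : Glue G m B C y) (P : Par) :
    ldp P G N (univ.biUnion C) = ∑ i, ldp P G N (C i) +
      P.tau * (∑ i, ∑ j ∈ univ.filter (fun j => i < j ∧ B.Adj i j), (N (y i) ∩ N (y j)).card +
        tb m) := by
  unfold ldp
  have e1 := pa4_sum h 2 le_rfl (fun e => (e.inf N).card)
  have e2 := pa4_sum h 3 (by omega) (fun _ => 1)
  simp only [Finset.sum_const, smul_eq_mul, mul_one] at e2
  rw [pa4_tb h.blk] at e2
  have e3 := pa4_edges B (fun T => ((T.image y).inf N).card)
  rw [e1, e2, e3, Finset.sum_biUnion (fun i _ j _ hij => h.disj i j hij),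
    Finset.sum_biUnion (fun i _ j _ hij => h.disj i j hij)]
  have e4 : ∀ i j, (((({i, j} : Finset (Fin (m + 1))).image y).inf N).card) =
      (N (y i) ∩ N (y j)).card := by
    intro i j
    rw [Finset.image_insert, Finset.image_singleton, Finset.inf_insert, Finset.inf_singleton]
    rfl
  simp only [e4, Finset.sum_add_distrib, Finset.mul_sum, mul_add]
  ring

end Pool.Agent.MP_528dc0_co

end

section

open Finset

namespace Pool.Agent.MP_528dc0_co

variable {V : Type} [Fintype V] [DecidableEq V]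

private theorem pa9_cmp {r : ℕ} {A B : Finset (Fin 4)} (hA : A = ∅ ∨ A.card = r)
    (hB : B = ∅ ∨ B.card = r) : cmp A B ↔ B.Nonempty ∧ A = B := by
  constructor
  · rintro ⟨h1, h2⟩
    refine ⟨h1, ?_⟩
    have hB' : B.card = r := hB.resolve_left h1.ne_empty
    have hA' : A.card = r := hA.resolve_left (h1.mono h2).ne_empty
    exact (Finset.eq_of_subset_of_card_le h2 (by rw [hA', hB'])).symm
  · rintro ⟨h1, h2⟩
    exact ⟨h1, h2 ▸ Finset.Subset.refl _⟩

private theorem pa9_kp_nonempty (A B : Finset (Fin 4)) : (kp A B).Nonempty ↔ cmp A B := by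
  unfold kp
  by_cases h : cmp A B
  · rw [if_pos h]
    exact ⟨fun _ => h, fun _ => h.1⟩
  · rw [if_neg h]
    exact ⟨fun h1 => absurd h1 Finset.not_nonempty_empty, fun h1 => absurd h1 h⟩

private theorem pa9_kp_eq {A B Y : Finset (Fin 4)} (hY : Y.Nonempty) :
    kp A B = Y ↔ cmp A B ∧ B = Y := by
  unfold kp
  by_cases h : cmp A B
  · rw [if_pos h]
    exact ⟨fun h1 => ⟨h, h1⟩, fun h1 => h1.2⟩
  · rw [if_neg h]
    exact ⟨fun h1 => absurd h1.symm hY.ne_empty, fun h1 => absurd h1.1 h⟩

private theorem pa9_N1 (P : Par) (X : ℕ → AS P.K) (j : ℕ) : (chs P X j).N₁ = (X j).N₁ := by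
  cases j <;> rfl

/-- The set of a chain: the common set of all members, if there is one. -/
theorem chs_A (P : Par) (X : ℕ → AS P.K) (j : ℕ) (hX : ∀ i ≤ j, P.Wf 2 (X i)) (k : Fin P.K)
    (Y : Finset (Fin 4)) (hY : Y.Nonempty) :
    (chs P X j).A k = Y ↔ ∀ i ≤ j, (X i).A k = Y := by
  induction j with
  | zero =>
    constructor
    · intro h i hi
      rw [Nat.le_zero.1 hi]
      exact h
    · intro h
      exact h 0 le_rfl
  | succ j ih =>
    have ih' := ih fun i hi => hX i (Nat.le_succ_of_le hi)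
    show kp ((X (j + 1)).A k) ((chs P X j).A k) = Y ↔ _
    rw [pa9_kp_eq hY]
    constructor
    · rintro ⟨h1, h2⟩
      have h3 := ih'.1 h2
      have h4 : Y = ∅ ∨ Y.card = 2 := by
        rw [← h3 0 (Nat.zero_le _)]
        exact (hX 0 (Nat.zero_le _)).1 k
      rw [h2, pa9_cmp ((hX (j + 1) le_rfl).1 k) h4] at h1
      intro i hi
      rcases Nat.lt_or_ge i (j + 1) with h5 | h5
      · exact h3 i (Nat.lt_succ_iff.1 h5)
      · rw [Nat.le_antisymm hi h5]
        exact h1.2
    · intro h
      have h2 := ih'.2 fun i hi => h i (Nat.le_succ_of_le hi)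
      refine ⟨?_, h2⟩
      rw [h2, h (j + 1) le_rfl]
      exact ⟨hY, Finset.Subset.refl _⟩

theorem chs_N (P : Par) (X : ℕ → AS P.K) (j : ℕ) (h0 : (X 0).N₁ = (X 0).N₂) :
    (chs P X j).N₁ = (X j).N₁ ∧ (chs P X j).N₂ = (X 0).N₁ := by
  refine ⟨pa9_N1 P X j, ?_⟩
  induction j with
  | zero => exact h0.symm
  | succ j ih => exact ih

theorem chs_ld (P : Par) (X : ℕ → AS P.K) (j : ℕ) :
    (chs P X j).ld = ∑ i ∈ range (j + 1), (X i).ld +
      P.tau * ∑ i ∈ range j, ((X i).N₁ ∩ (X (i + 1)).N₁).card := by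
  induction j with
  | zero => simp [chs]
  | succ j ih =>
    have h1 : (chs P X (j + 1)).ld = (chs P X j).ld + (X (j + 1)).ld +
        P.tau * ((chs P X j).N₁ ∩ (X (j + 1)).N₁).card := rfl
    rw [h1, ih, pa9_N1, Finset.sum_range_succ (fun i => (X i).ld) (j + 1),
      Finset.sum_range_succ (fun i => ((X i).N₁ ∩ (X (i + 1)).N₁).card) j, Nat.mul_add]
    ring

theorem chs_wf (P : Par) (X : ℕ → AS P.K) (j : ℕ) (hX : ∀ i ≤ j, P.Wf 2 (X i)) :
    P.WfC (2 * (j + 1) * P.lam) (chs P X j) := by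
  induction j with
  | zero =>
    have h1 := hX 0 le_rfl
    refine ⟨h1.1, ?_⟩
    have h2 := h1.2.1
    show 2 * (0 + 1) * P.lam ≤ (X 0).ld
    simpa using h2
  | succ j ih =>
    have ih' := ih fun i hi => hX i (Nat.le_succ_of_le hi)
    refine ⟨?_, ?_⟩
    · intro k
      show kp ((X (j + 1)).A k) ((chs P X j).A k) = ∅ ∨ (kp ((X (j + 1)).A k) ((chs P X j).A k)).card = 2
      unfold kp
      by_cases h : cmp ((X (j + 1)).A k) ((chs P X j).A k)
      · rw [if_pos h]
        exact ih'.1 k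
      · rw [if_neg h]
        exact Or.inl rfl
    · have h1 : (chs P X (j + 1)).ld = (chs P X j).ld + (X (j + 1)).ld +
          P.tau * ((chs P X j).N₁ ∩ (X (j + 1)).N₁).card := rfl
      have h2 := ih'.2
      have h3 : (4 - 2) * P.lam ≤ (X (j + 1)).ld := (hX (j + 1) le_rfl).2.1
      have h4 : 2 * (j + 1 + 1) * P.lam = 2 * (j + 1) * P.lam + 2 * P.lam := by ring
      have h5 : (4 - 2) * P.lam = 2 * P.lam := rfl
      rw [h1, h4]
      omega

/-- The weights only drop: `kp` is nonempty iff `cmp`. -/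
theorem chs_aw (P : Par) (X : ℕ → AS P.K) (j : ℕ) :
    P.aw (chs P X (j + 1)).A = P.wt (X (j + 1)).A (chs P X j).A ∧
    P.aw (chs P X (j + 1)).A ≤ P.aw (chs P X j).A ∧
    P.aw (chs P X (j + 1)).A ≤ P.aw (X (j + 1)).A := by
  classical
  have h0 : P.aw (chs P X (j + 1)).A = ∑ k, if (kp ((X (j + 1)).A k) ((chs P X j).A k)).Nonempty
      then P.w k else 0 := by
    unfold Par.aw
    refine Finset.sum_congr rfl fun k _ => ?_
    congr 1
  have h1 : ∀ A : Fin P.K → Finset (Fin 4), P.aw A = ∑ k, if (A k).Nonempty then P.w k else 0 := by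
    intro A
    unfold Par.aw
    refine Finset.sum_congr rfl fun k _ => ?_
    congr 1
  refine ⟨?_, ?_, ?_⟩
  · rw [h0]
    unfold Par.wt
    refine Finset.sum_congr rfl fun k _ => ?_
    simp only [pa9_kp_nonempty]
  · rw [h0, h1]
    refine Finset.sum_le_sum fun k _ => ?_
    by_cases h : (kp ((X (j + 1)).A k) ((chs P X j).A k)).Nonempty
    · rw [if_pos h, if_pos ((pa9_kp_nonempty _ _).1 h).1]
    · rw [if_neg h]
      exact Nat.zero_le _
  · rw [h0, h1]
    refine Finset.sum_le_sum fun k _ => ?_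
    by_cases h : (kp ((X (j + 1)).A k) ((chs P X j).A k)).Nonempty
    · have h2 := (pa9_kp_nonempty _ _).1 h
      rw [if_pos h, if_pos (h2.1.mono h2.2)]
    · rw [if_neg h]
      exact Nat.zero_le _

/-- For members with sets of the same size compatibility is symmetric. -/
theorem wt_symm (P : Par) (r : ℕ) (x y : AS P.K) (hx : P.Wf r x) (hy : P.Wf r y) :
    P.wt x.A y.A = P.wt y.A x.A ∧ (P.chn x y).A = (P.chn y x).A := by
  classical
  have hc : ∀ k, cmp (x.A k) (y.A k) ↔ cmp (y.A k) (x.A k) := by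
    intro k
    rw [pa9_cmp (hx.1 k) (hy.1 k), pa9_cmp (hy.1 k) (hx.1 k)]
    constructor
    · rintro ⟨h1, h2⟩
      exact ⟨h2 ▸ h1, h2.symm⟩
    · rintro ⟨h1, h2⟩
      exact ⟨h2 ▸ h1, h2.symm⟩
  constructor
  · unfold Par.wt
    refine Finset.sum_congr rfl fun k _ => ?_
    simp only [hc k]
  · funext k
    show kp (y.A k) (x.A k) = kp (x.A k) (y.A k)
    unfold kp
    by_cases h : cmp (x.A k) (y.A k)
    · rw [if_pos h, if_pos ((hc k).1 h)]
      exact ((pa9_cmp (hx.1 k) (hy.1 k)).1 h).2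
    · rw [if_neg h, if_neg fun h1 => h ((hc k).2 h1)]

end Pool.Agent.MP_528dc0_co

end

section

open Finset

namespace Pool.Agent.MP_528dc0_co

variable {V : Type} [Fintype V] [DecidableEq V]

theorem pa5_dg_single (G : SimpleGraph V) (x : V) : dg G {x} x = 0 := by
  classical
  unfold dg
  rw [Finset.card_eq_zero, Finset.filter_eq_empty_iff]
  intro u hu hadj
  rw [Finset.mem_singleton] at hu
  subst hu
  exact G.loopless.irrefl _ hadj

theorem pa5_ls_sub (G : SimpleGraph V) (L : V → Finset (Fin 4)) (x : V) :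
    L x ⊆ FF G L {x} x := by
  classical
  intro a ha
  unfold FF
  rw [Finset.mem_filter]
  refine ⟨Finset.mem_univ _, fun _ => a, rfl, ?_, ?_⟩
  · intro v hv
    rw [Finset.mem_singleton] at hv
    subst hv
    exact ha
  · intro u hu v hv hadj
    rw [Finset.mem_singleton] at hu hv
    subst hu
    subst hv
    exact absurd hadj (G.loopless.irrefl _)

theorem pa5_ls_card (P : Par) (N : V → Finset (Fin 8)) (k : Fin P.K) (x : V) :
    4 ≤ (Ls P N k x).card + (N x).card := by
  unfold Ls
  have h1 : ((N x).image (P.φ k)).card ≤ (N x).card := Finset.card_image_le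
  have h2 := Finset.le_card_sdiff ((N x).image (P.φ k)) (univ : Finset (Fin 4))
  have h3 : (univ : Finset (Fin 4)).card = 4 := by simp
  omega

theorem pa5_bd {m : ℕ} {B : SimpleGraph (Fin (m + 1))} (h : Blk m B) :
    bd m ≤ m * (4 - bd m) ∧ bd m ≤ 4 := by
  cases h with
  | k2 => decide
  | odd t ht =>
    have : bd (2 * t) = 2 := by
      unfold bd
      rw [if_neg (by omega)]
    rw [this]
    constructor <;> omega
  | k4 => decide

/-- At least `4 - |N x| - dg x` colours of the root extend.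
Proof. Induction. `base`: `FF G L {x} x = L x = univ \ image`, the image has at most `|N x|` elements,
`dg G {x} x = 0`. `glue` (`full_glue` for the hypotheses): `ff_glue`; children lists have at least
`bd m` elements (induction and `full_glue`); `fb_eq` or `fb_gt`: `|FB| ≥ |X 0| - bd m`;
`dg_glue_root`. -/
theorem ff_lower (P : Par) {G : SimpleGraph V} {N : V → Finset (Fin 8)} {C : Finset V} {x : V}
    (h : GT G C x) (hf : Full G N C x) (k : Fin P.K) :
    4 ≤ (FK P G N k C x).card + (N x).card + dg G C x := by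
  induction h with
  | base x =>
    have h1 := Finset.card_le_card (pa5_ls_sub G (Ls P N k) x)
    have h2 := pa5_ls_card P N k x
    have h3 : (FK P G N k {x} x).card = (FF G (Ls P N k) {x} x).card := rfl
    omega
  | glue m B hB C y hC hd ha ih =>
    have hg : Glue G m B C y := ⟨hB, hC, hd, ha⟩
    obtain ⟨hfull, hroot⟩ := full_glue hg hf
    have hX : ∀ i ≠ 0, bd m ≤ (FF G (Ls P N k) (C i) (y i)).card := by
      intro i hi
      have h1 := ih i (hfull i)
      have h2 := hroot i hi
      have h3 : (FK P G N k (C i) (y i)).card = (FF G (Ls P N k) (C i) (y i)).card := rfl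
      omega
    have h0 := ih 0 (hfull 0)
    have h3 : (FK P G N k (C 0) (y 0)).card = (FF G (Ls P N k) (C 0) (y 0)).card := rfl
    have hdg := dg_glue_root hg 0
    have hFB : FK P G N k (univ.biUnion C) (y 0) =
        FB B (fun i => FF G (Ls P N k) (C i) (y i)) := ff_glue hg (Ls P N k)
    have hmain : (FF G (Ls P N k) (C 0) (y 0)).card ≤
        (FB B (fun i => FF G (Ls P N k) (C i) (y i))).card + bd m := by
      by_cases hex : ∃ Y : Finset (Fin 4), Y.card = bd m ∧
          ∀ i ≠ 0, (fun i => FF G (Ls P N k) (C i) (y i)) i = Y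
      · obtain ⟨Y, hY, hall⟩ := hex
        rw [fb_eq hB _ Y hY hall]
        have := Finset.le_card_sdiff Y (FF G (Ls P N k) (C 0) (y 0))
        show (FF G (Ls P N k) (C 0) (y 0)).card ≤ (FF G (Ls P N k) (C 0) (y 0) \ Y).card + bd m
        omega
      · have := fb_gt hB (fun i => FF G (Ls P N k) (C i) (y i)) hX hex
        exact le_of_lt this
    rw [hFB]
    omega

/-- The load is at least `lam * (|N x| + dg x)`.
Proof. Induction; `glue`: `∑ i, ldp (C i) ≤ ldp (⋃C)`, the children contribute at least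
`m * (4 - bd m) * lam ≥ bd m * lam`. -/
theorem ldp_lower (P : Par) {G : SimpleGraph V} {N : V → Finset (Fin 8)} {C : Finset V} {x : V}
    (h : GT G C x) (hf : Full G N C x) :
    ((N x).card + dg G C x) * P.lam ≤ ldp P G N C := by
  induction h with
  | base x =>
    rw [pa5_dg_single, add_zero]
    unfold ldp
    rw [Finset.sum_singleton, mul_comm]
    exact Nat.le_add_right _ _
  | glue m B hB C y hC hd ha ih =>
    have hg : Glue G m B C y := ⟨hB, hC, hd, ha⟩
    obtain ⟨hfull, hroot⟩ := full_glue hg hf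
    have h0 := ih 0 (hfull 0)
    have hdg := dg_glue_root hg 0
    obtain ⟨hbd, hbd4⟩ := pa5_bd hB
    have hl : ∑ i, ldp P G N (C i) ≤ ldp P G N (univ.biUnion C) := by
      rw [ldp_glue hg P]
      exact Nat.le_add_right _ _
    have hs : ((4 - bd m) * P.lam) * m ≤ ∑ i : Fin m, ldp P G N (C i.succ) := by
      have h1 : ∑ _i : Fin m, ((4 - bd m) * P.lam) ≤ ∑ i : Fin m, ldp P G N (C i.succ) := by
        refine Finset.sum_le_sum ?_
        intro i _
        have h2 := ih i.succ (hfull i.succ)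
        have h3 := hroot i.succ (Fin.succ_ne_zero i)
        have h4 : (N (y i.succ)).card + dg G (C i.succ) (y i.succ) = 4 - bd m := by omega
        rw [h4] at h2
        exact h2
      rw [Finset.sum_const, Finset.card_univ, Fintype.card_fin, smul_eq_mul, mul_comm] at h1
      exact h1
    rw [Fin.sum_univ_succ] at hl
    have h5 : bd m * P.lam ≤ ((4 - bd m) * P.lam) * m := by
      calc bd m * P.lam ≤ (m * (4 - bd m)) * P.lam := Nat.mul_le_mul_right _ hbd
        _ = ((4 - bd m) * P.lam) * m := by ring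
    rw [hdg]
    calc ((N (y 0)).card + (dg G (C 0) (y 0) + bd m)) * P.lam
        = ((N (y 0)).card + dg G (C 0) (y 0)) * P.lam + bd m * P.lam := by ring
      _ ≤ ldp P G N (C 0) + ∑ i : Fin m, ldp P G N (C i.succ) :=
          Nat.add_le_add h0 (h5.trans hs)
      _ ≤ ldp P G N (univ.biUnion C) := hl

end Pool.Agent.MP_528dc0_co

end

section

open Finset

namespace Pool.Agent.MP_528dc0_co

variable {V : Type} [Fintype V] [DecidableEq V]

/-- The last equation holds whenever the others do. -/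
theorem fk_glue (P : Par) {G : SimpleGraph V} {N : V → Finset (Fin 8)} {m : ℕ}
    {B : SimpleGraph (Fin (m + 1))} {C : Fin (m + 1) → Finset V} {y : Fin (m + 1) → V}
    (h : Glue G m B C y) (k : Fin P.K) (Y : Finset (Fin 4)) (hY : Y.card = bd m)
    (hi : ∀ i ≠ 0, FK P G N k (C i) (y i) = Y) :
    FK P G N k (univ.biUnion C) (y 0) = FK P G N k (C 0) (y 0) \ Y := by
  unfold FK
  rw [ff_glue h (Ls P N k)]
  exact fb_eq h.blk _ Y hY hi

/-- A glued piece is alive iff all children are alive with the same set `Y`, the piece at the root is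
alive and contains `Y`; then it loses exactly `Y`.
Proof. `ff_glue` + `fb_eq`/`fb_gt`, `dg_glue_root`, and `ff_lower` for all pieces: if the children
lists are not all equal to one `bd m`-set, then `|FB| > |X 0| - bd m ≥ 4 - |N| - dg (C 0) - bd m`, so the
piece is dead; if they are, `FB = X 0 \ Y` has the minimal size iff `X 0` has and `Y ⊆ X 0`. A child
with `bd m` elements is alive by `full_glue`. -/
theorem alv_glue (P : Par) {G : SimpleGraph V} {N : V → Finset (Fin 8)} {m : ℕ}
    {B : SimpleGraph (Fin (m + 1))} {C : Fin (m + 1) → Finset V} {y : Fin (m + 1) → V}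
    (h : Glue G m B C y) (hf : Full G N (univ.biUnion C) (y 0)) (k : Fin P.K) :
    Alv P G N (univ.biUnion C) (y 0) k ↔ ∃ Y : Finset (Fin 4), Y.card = bd m ∧
      (∀ i ≠ 0, Alv P G N (C i) (y i) k ∧ FK P G N k (C i) (y i) = Y) ∧
      Alv P G N (C 0) (y 0) k ∧ Y ⊆ FK P G N k (C 0) (y 0) ∧
      FK P G N k (univ.biUnion C) (y 0) = FK P G N k (C 0) (y 0) \ Y := by
  obtain ⟨hf1, hf2⟩ := full_glue h hf
  have hdg : dg G (univ.biUnion C) (y 0) = dg G (C 0) (y 0) + bd m := dg_glue_root h 0
  have hlow : ∀ i, 4 ≤ (FK P G N k (C i) (y i)).card + (N (y i)).card + dg G (C i) (y i) :=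
    fun i => ff_lower P (h.gt i) (hf1 i) k
  constructor
  · intro halv
    unfold Alv at halv
    rw [hdg] at halv
    have hY : ∃ Y : Finset (Fin 4), Y.card = bd m ∧ ∀ i ≠ 0, FK P G N k (C i) (y i) = Y := by
      by_contra hne
      have h1 := fb_gt h.blk (fun i => FK P G N k (C i) (y i)) (fun i hi => by
        have h2 := hlow i
        have h3 := hf2 i hi
        omega) hne
      have h4 : FK P G N k (univ.biUnion C) (y 0) = FB B (fun i => FK P G N k (C i) (y i)) :=
        ff_glue h (Ls P N k)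
      rw [← h4] at h1
      have h5 := hlow 0
      omega
    obtain ⟨Y, hYc, hYi⟩ := hY
    have hfk := fk_glue P h k Y hYc hYi
    rw [hfk] at halv
    have h5 := hlow 0
    have h6 : (FK P G N k (C 0) (y 0) \ Y).card + (Y ∩ FK P G N k (C 0) (y 0)).card =
        (FK P G N k (C 0) (y 0)).card := by
      rw [inter_comm]
      exact card_sdiff_add_card_inter _ _
    have h7 : (Y ∩ FK P G N k (C 0) (y 0)).card ≤ Y.card := card_le_card inter_subset_left
    have h8 : (Y ∩ FK P G N k (C 0) (y 0)).card = Y.card := by omega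
    have h9 : Y ⊆ FK P G N k (C 0) (y 0) := by
      rw [← inter_eq_left]
      exact eq_of_subset_of_card_le inter_subset_left h8.ge
    refine ⟨Y, hYc, fun i hi => ⟨?_, hYi i hi⟩, ?_, h9, hfk⟩
    · unfold Alv
      rw [hYi i hi]
      have h3 := hf2 i hi
      omega
    · unfold Alv
      omega
  · rintro ⟨Y, hYc, hYi, h0, hsub, hfk⟩
    unfold Alv at h0 ⊢
    rw [hfk, hdg]
    have h6 : (FK P G N k (C 0) (y 0) \ Y).card + Y.card = (FK P G N k (C 0) (y 0)).card :=
      card_sdiff_add_card_eq_card hsub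
    omega

end Pool.Agent.MP_528dc0_co

end

section

open Finset

namespace Pool.Agent.MP_528dc0_co

variable {V : Type} [Fintype V] [DecidableEq V]

theorem pa7_dg_self (G : SimpleGraph V) (x : V) : dg G {x} x = 0 := by
  classical
  unfold dg
  rw [Finset.card_eq_zero, Finset.filter_eq_empty_iff]
  intro u hu
  rw [Finset.mem_singleton] at hu
  subst hu
  exact G.irrefl

theorem pa7_FF (G : SimpleGraph V) (L : V → Finset (Fin 4)) (x : V) : FF G L {x} x = L x := by
  classical
  unfold FF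
  ext a
  rw [Finset.mem_filter]
  constructor
  · rintro ⟨-, c, hc, h1, -⟩
    rw [← hc]
    exact h1 x (Finset.mem_singleton_self x)
  · intro ha
    refine ⟨Finset.mem_univ _, fun _ => a, rfl, ?_, ?_⟩
    · intro v hv
      rw [Finset.mem_singleton] at hv
      subst hv
      exact ha
    · intro u hu v hv huv
      rw [Finset.mem_singleton] at hu hv
      subst hu
      subst hv
      exact absurd huv G.irrefl

theorem pa7_FK (P : Par) (G : SimpleGraph V) (N : V → Finset (Fin 8)) (k : Fin P.K) (x : V) :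
    FK P G N k {x} x = univ \ (N x).image (P.φ k) := by
  unfold FK
  rw [pa7_FF]
  rfl

theorem pa7_Alv (P : Par) (G : SimpleGraph V) (N : V → Finset (Fin 8)) (k : Fin P.K) (x : V) :
    Alv P G N {x} x k ↔ ((N x).image (P.φ k)).card = (N x).card := by
  unfold Alv
  rw [pa7_FK, pa7_dg_self, Finset.card_sdiff_of_subset (Finset.subset_univ _), Finset.card_univ,
    Fintype.card_fin]
  have h1 : ((N x).image (P.φ k)).card ≤ (N x).card := Finset.card_image_le
  have h2 : ((N x).image (P.φ k)).card ≤ 4 := by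
    have := Finset.card_le_univ ((N x).image (P.φ k))
    rwa [Fintype.card_fin] at this
  omega

theorem pa7_ldp (P : Par) (G : SimpleGraph V) (N : V → Finset (Fin 8)) (x : V) :
    ldp P G N {x} = P.lam * (N x).card + P.tau * eH P.H (N x) := by
  unfold ldp
  have h2 : Finset.powersetCard 2 ({x} : Finset V) = ∅ :=
    Finset.powersetCard_eq_empty.2 (by rw [Finset.card_singleton]; norm_num)
  have h3 : Finset.powersetCard 3 ({x} : Finset V) = ∅ :=
    Finset.powersetCard_eq_empty.2 (by rw [Finset.card_singleton]; norm_num)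
  rw [h2, h3, Finset.filter_empty, Finset.sum_singleton,
    Finset.sum_singleton, Finset.sum_empty, Finset.card_empty, add_zero, add_zero]

theorem pa7_eH (H : SimpleGraph (Fin 8)) : eH H ∅ = 0 := by
  unfold eH
  have h2 : Finset.powersetCard 2 (∅ : Finset (Fin 8)) = ∅ :=
    Finset.powersetCard_eq_empty.2 (by rw [Finset.card_empty]; norm_num)
  rw [h2, Finset.filter_empty, Finset.card_empty]

theorem pa7_bs (P : Par) : P.bs ∅ = tr0 P := by
  unfold Par.bs tr0
  rw [pa7_eH]
  simp

/-- The state of a single vertex. (`FF G L {x} x = L x`; `dg G {x} x = 0`.) -/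
theorem stt_base (P : Par) (G : SimpleGraph V) (N : V → Finset (Fin 8)) (x : V) :
    stt P G N {x} x = P.bs (N x) ∧ mu P G N {x} x = P.bw (N x) := by
  constructor
  · unfold stt Par.bs
    rw [pa7_ldp]
    congr 1
    funext k
    rw [pa7_FK]
    by_cases h : ((N x).image (P.φ k)).card = (N x).card
    · rw [if_pos h, if_pos ((pa7_Alv P G N k x).2 h)]
    · rw [if_neg h, if_neg (fun h' => h ((pa7_Alv P G N k x).1 h'))]
  · unfold mu Par.bw
    refine Finset.sum_congr rfl fun k _ => ?_
    by_cases h : ((N x).image (P.φ k)).card = (N x).card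
    · rw [if_pos h, if_pos ((pa7_Alv P G N k x).2 h)]
    · rw [if_neg h, if_neg (fun h' => h ((pa7_Alv P G N k x).1 h'))]

/-- A piece of rank four is trivial: `dg = 0` and connected, so `C = {x}`, and `N x = ∅`. -/
theorem stt_triv (P : Par) {G : SimpleGraph V} {N : V → Finset (Fin 8)} {C : Finset V} {x : V}
    (h : GT G C x) (h0 : dg G C x + (N x).card = 0) : C = {x} ∧ stt P G N C x = tr0 P := by
  classical
  have hd : dg G C x = 0 := by omega
  have hN : N x = ∅ := Finset.card_eq_zero.1 (by omega)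
  obtain ⟨hx, hc⟩ := gt_conn h
  have hC : C = {x} := by
    refine Finset.eq_singleton_iff_unique_mem.2 ⟨hx, ?_⟩
    intro y hy
    by_contra hne
    obtain ⟨p⟩ := hc.preconnected ⟨x, hx⟩ ⟨y, hy⟩
    have key : ∃ z, z ∈ C ∧ G.Adj x z := by
      generalize hyy : (⟨y, hy⟩ : (C : Set V)) = w at p
      cases p with
      | nil => exact absurd (congrArg Subtype.val hyy) hne
      | cons hadj q => exact ⟨_, Subtype.coe_prop _, hadj⟩
    obtain ⟨z, hz, hxz⟩ := key
    unfold dg at hd
    rw [Finset.card_eq_zero, Finset.filter_eq_empty_iff] at hd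
    exact hd hz hxz
  refine ⟨hC, ?_⟩
  rw [hC, (stt_base P G N x).1, hN, pa7_bs]

/-- States of pieces are well-formed. -/
theorem stt_wf (P : Par) {G : SimpleGraph V} {N : V → Finset (Fin 8)} {C : Finset V} {x : V}
    (h : GT G C x) (hf : Full G N C x) (r : ℕ) (hr : dg G C x + (N x).card + r = 4) :
    P.Wf r (stt P G N C x) := by
  classical
  refine ⟨?_, ?_, rfl⟩
  · intro k
    unfold stt
    dsimp only
    by_cases hA : Alv P G N C x k
    · right
      rw [if_pos hA]
      unfold Alv at hA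
      omega
    · left
      rw [if_neg hA]
  · have h1 := ldp_lower P h hf
    have h2 : 4 - r = (N x).card + dg G C x := by omega
    rw [h2]
    exact h1

/-- For rank at least one, `mu` is the weight of the nonempty sets. -/
theorem mu_eq (P : Par) {G : SimpleGraph V} {N : V → Finset (Fin 8)} {C : Finset V} {x : V}
    (hr : dg G C x + (N x).card < 4) : mu P G N C x = P.aw (stt P G N C x).A := by
  classical
  unfold mu Par.aw
  refine Finset.sum_congr rfl fun k _ => ?_
  have hst : (stt P G N C x).A k = if Alv P G N C x k then FK P G N k C x else ∅ := by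
    unfold stt
    congr 1
  by_cases hA : Alv P G N C x k
  · have h1 : ((stt P G N C x).A k).Nonempty := by
      rw [hst, if_pos hA]
      unfold Alv at hA
      exact Finset.card_pos.1 (by omega)
    rw [if_pos hA, if_pos h1]
  · have h1 : ¬ ((stt P G N C x).A k).Nonempty := by
      rw [hst, if_neg hA]
      exact Finset.not_nonempty_empty
    rw [if_neg hA, if_neg h1]

end Pool.Agent.MP_528dc0_co

end

section

open Finset

namespace Pool.Agent.MP_528dc0_co

variable {V : Type} [Fintype V] [DecidableEq V]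

theorem pa8_top (m : ℕ) (B : SimpleGraph (Fin (m + 1))) (hb : Blk m B) (hm : m = 1) : B = ⊤ := by
  cases hb with
  | k2 => rfl
  | odd t ht => omega
  | k4 => omega

/-- Edge block: the state is `edg`.
Proof. `ext`; the sets: `alv_glue`, `fk_glue` with `m = 1`, `bd 1 = 1`. For fixed `k` write `X i` for the
`A`-component. If the union is alive, `Y = FK (C 1)`, `X 1 = Y` nonempty, `X 0 = FK (C 0) ⊇ Y`, so `cmp`
holds and both sides are `FK (C 0) \ Y`. If `cmp (X 0) (X 1)` holds, then `X 1` is nonempty so child `1`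
is alive, with one element (`full_glue`), and `X 0 ≠ ∅` so `C 0` is alive, hence the union is alive. If
neither, both sides are `∅`. The load: `ldp_glue` (`∑` over `i < j` of `Fin 2`: the pair `0 < 1`),
`tb 1 = 0`. -/
theorem stt_edge (P : Par) {G : SimpleGraph V} {N : V → Finset (Fin 8)}
    {B : SimpleGraph (Fin (1 + 1))} {C : Fin (1 + 1) → Finset V} {y : Fin (1 + 1) → V}
    (h : Glue G 1 B C y) (hf : Full G N (univ.biUnion C) (y 0)) :
    stt P G N (univ.biUnion C) (y 0) =
      P.edg (stt P G N (C 0) (y 0)) (stt P G N (C 1) (y 1)) ∧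
    mu P G N (univ.biUnion C) (y 0) =
      P.wt (stt P G N (C 0) (y 0)).A (stt P G N (C 1) (y 1)).A := by
  classical
  have hB : B = ⊤ := pa8_top 1 B h.blk rfl
  have hbd : bd 1 = 1 := rfl
  have htb : tb 1 = 0 := rfl
  have h10 : (1 : Fin (1 + 1)) ≠ 0 := by decide
  have hA0 : ∀ k, (stt P G N (C 0) (y 0)).A k
      = if Alv P G N (C 0) (y 0) k then FK P G N k (C 0) (y 0) else ∅ := fun k => rfl
  have hA1 : ∀ k, (stt P G N (C 1) (y 1)).A k
      = if Alv P G N (C 1) (y 1) k then FK P G N k (C 1) (y 1) else ∅ := fun k => rfl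
  have key : ∀ k, (Alv P G N (univ.biUnion C) (y 0) k ↔
      cmp ((stt P G N (C 0) (y 0)).A k) ((stt P G N (C 1) (y 1)).A k)) ∧
      (Alv P G N (univ.biUnion C) (y 0) k → FK P G N k (univ.biUnion C) (y 0)
        = (stt P G N (C 0) (y 0)).A k \ (stt P G N (C 1) (y 1)).A k) := by
    intro k
    have h1 : Alv P G N (univ.biUnion C) (y 0) k →
        cmp ((stt P G N (C 0) (y 0)).A k) ((stt P G N (C 1) (y 1)).A k) ∧
        FK P G N k (univ.biUnion C) (y 0)
          = (stt P G N (C 0) (y 0)).A k \ (stt P G N (C 1) (y 1)).A k := by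
      intro ha
      obtain ⟨Y, hY, hi, h0, hsub, hFK⟩ := (alv_glue P h hf k).1 ha
      obtain ⟨ha1, hf1⟩ := hi 1 h10
      rw [hA0, hA1, if_pos h0, if_pos ha1, hf1]
      refine ⟨⟨?_, hsub⟩, hFK⟩
      rw [← Finset.card_pos, hY, hbd]
      exact Nat.one_pos
    refine ⟨⟨fun ha => (h1 ha).1, fun hc => ?_⟩, fun ha => (h1 ha).2⟩
    obtain ⟨hne, hsub⟩ := hc
    have ha1 : Alv P G N (C 1) (y 1) k := by
      by_contra hcon
      rw [hA1, if_neg hcon] at hne
      exact Finset.not_nonempty_empty hne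
    have ha0 : Alv P G N (C 0) (y 0) k := by
      by_contra hcon
      obtain ⟨a, ha⟩ := hne
      have h2 := hsub ha
      rw [hA0, if_neg hcon] at h2
      exact Finset.notMem_empty a h2
    rw [hA0, hA1, if_pos ha0, if_pos ha1] at hsub
    have hY : (FK P G N k (C 1) (y 1)).card = bd 1 := by
      have h2 := (full_glue h hf).2 1 h10
      have h3 : (FK P G N k (C 1) (y 1)).card + (N (y 1)).card + dg G (C 1) (y 1) = 4 := ha1
      omega
    have hi : ∀ i ≠ 0, Alv P G N (C i) (y i) k ∧
        FK P G N k (C i) (y i) = FK P G N k (C 1) (y 1) := by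
      intro i hi0
      have hi1 : i = 1 := by
        apply Fin.ext
        have h2 := i.2
        have h3 : (i : ℕ) ≠ 0 := fun h4 => hi0 (Fin.ext h4)
        show (i : ℕ) = 1
        omega
      rw [hi1]
      exact ⟨ha1, rfl⟩
    exact (alv_glue P h hf k).2 ⟨_, hY, hi, ha0, hsub,
      fk_glue P h k _ hY fun i hi0 => (hi i hi0).2⟩
  have hld : ldp P G N (univ.biUnion C)
      = P.ldE (stt P G N (C 0) (y 0)) (stt P G N (C 1) (y 1)) := by
    rw [ldp_glue h P, htb, hB]
    have e0 : ∀ (inst : DecidablePred fun j : Fin (1 + 1) => (0 : Fin (1 + 1)) < j ∧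
        (⊤ : SimpleGraph (Fin (1 + 1))).Adj 0 j), @Finset.filter _ (fun j : Fin (1 + 1) =>
        (0 : Fin (1 + 1)) < j ∧ (⊤ : SimpleGraph (Fin (1 + 1))).Adj 0 j) inst univ = {1} := by
      intro inst
      ext j
      simp only [Finset.mem_filter, Finset.mem_univ, true_and, Finset.mem_singleton,
        SimpleGraph.top_adj]
      constructor
      · rintro ⟨h2, -⟩
        apply Fin.ext
        have h3 := j.2
        have h4 : (0 : ℕ) < (j : ℕ) := h2
        show (j : ℕ) = 1
        omega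
      · rintro rfl
        exact ⟨by decide, by decide⟩
    have e1 : ∀ (inst : DecidablePred fun j : Fin (1 + 1) => (1 : Fin (1 + 1)) < j ∧
        (⊤ : SimpleGraph (Fin (1 + 1))).Adj 1 j), @Finset.filter _ (fun j : Fin (1 + 1) =>
        (1 : Fin (1 + 1)) < j ∧ (⊤ : SimpleGraph (Fin (1 + 1))).Adj 1 j) inst univ = ∅ := by
      intro inst
      ext j
      simp only [Finset.mem_filter, Finset.mem_univ, true_and, Finset.notMem_empty, iff_false]
      rintro ⟨h2, -⟩
      have h3 := j.2
      have h4 : (1 : ℕ) < (j : ℕ) := h2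
      omega
    have e2 : ∀ f : Fin (1 + 1) → ℕ, ∑ i, f i = f 0 + f 1 := fun f => Fin.sum_univ_two f
    rw [e2, e2, e0, e1, Finset.sum_singleton, Finset.sum_empty]
    show ldp P G N (C 0) + ldp P G N (C 1) + P.tau * ((N (y 0) ∩ N (y 1)).card + 0 + 0) = _
    rw [add_zero, add_zero]
    rfl
  refine ⟨?_, ?_⟩
  · refine AS.ext ?_ rfl rfl hld
    funext k
    show (if Alv P G N (univ.biUnion C) (y 0) k then FK P G N k (univ.biUnion C) (y 0) else ∅)
      = sb ((stt P G N (C 0) (y 0)).A k) ((stt P G N (C 1) (y 1)).A k)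
    unfold sb
    by_cases ha : Alv P G N (univ.biUnion C) (y 0) k
    · rw [if_pos ha, if_pos ((key k).1.1 ha), (key k).2 ha]
    · rw [if_neg ha, if_neg fun hc => ha ((key k).1.2 hc)]
  · unfold mu Par.wt
    refine Finset.sum_congr rfl fun k _ => ?_
    by_cases ha : Alv P G N (univ.biUnion C) (y 0) k
    · rw [if_pos ha, if_pos ((key k).1.1 ha)]
    · rw [if_neg ha, if_neg fun hc => ha ((key k).1.2 hc)]

end Pool.Agent.MP_528dc0_co

end
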