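import Mathlib
import Pool.Agent.MP_528dc0_co.Gal
import Pool.Agent.MP_528dc0_co.PDefs
import Pool.Agent.MP_528dc0_co.Piece

/-!
# Pieces of Gallai trees, induction
-/

section

open Finset

namespace Pool.Agent.MP_528dc0_co

variable {V : Type} [Fintype V] [DecidableEq V]

theorem pa10_gen (P : Par) {G : SimpleGraph V} {N : V → Finset (Fin 8)} {m : ℕ}
    (hm : 1 ≤ m) (hbd : 1 ≤ bd m) {B : SimpleGraph (Fin (m + 1))} {C : Fin (m + 1) → Finset V}
    {y : Fin (m + 1) → V} (h : Glue G m B C y) (hf : Full G N (univ.biUnion C) (y 0))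
    (k : Fin P.K) (T : Finset (Fin 4))
    (hT : ∀ Y : Finset (Fin 4), Y.Nonempty →
      (T = Y ↔ ∀ i ≠ 0, (stt P G N (C i) (y i)).A k = Y)) :
    (stt P G N (univ.biUnion C) (y 0)).A k = sb ((stt P G N (C 0) (y 0)).A k) T ∧
    (Alv P G N (univ.biUnion C) (y 0) k ↔ cmp ((stt P G N (C 0) (y 0)).A k) T) := by
  classical
  have hwf : ∀ i ≠ 0, (stt P G N (C i) (y i)).A k = ∅ ∨
      ((stt P G N (C i) (y i)).A k).card = bd m := fun i hi =>
    (stt_wf P (h.gt i) ((full_glue h hf).1 i) (bd m)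
      (by have := (full_glue h hf).2 i hi; omega)).1 k
  have hpos : ∀ (D : Finset V) (x : V), Alv P G N D x k →
      (stt P G N D x).A k = FK P G N k D x := fun D x ha => by
    simp only [stt, if_pos ha]
  have hneg : ∀ (D : Finset V) (x : V), ¬ Alv P G N D x k → (stt P G N D x).A k = ∅ :=
    fun D x ha => by simp only [stt, if_neg ha]
  have key : Alv P G N (univ.biUnion C) (y 0) k ↔ cmp ((stt P G N (C 0) (y 0)).A k) T := by
    constructor
    · intro ha
      obtain ⟨Y, hYc, hch, h0, hsub, _⟩ := (alv_glue P h hf k).1 ha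
      have hYne : Y.Nonempty := Finset.card_pos.1 (by omega)
      have hTY : T = Y := (hT Y hYne).2 (fun i hi => by
        rw [hpos _ _ (hch i hi).1]; exact (hch i hi).2)
      rw [hpos _ _ h0, hTY]
      exact ⟨hYne, hsub⟩
    · rintro ⟨hTne, hTs⟩
      have h0 : Alv P G N (C 0) (y 0) k := by
        by_contra hn
        rw [hneg _ _ hn] at hTs
        exact hTne.ne_empty (Finset.subset_empty.1 hTs)
      have hch := (hT T hTne).1 rfl
      have hch' : ∀ i ≠ 0, Alv P G N (C i) (y i) k ∧ FK P G N k (C i) (y i) = T := by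
        intro i hi
        have h1 := hch i hi
        by_cases ha : Alv P G N (C i) (y i) k
        · rw [hpos _ _ ha] at h1
          exact ⟨ha, h1⟩
        · rw [hneg _ _ ha] at h1
          exact absurd h1.symm hTne.ne_empty
      have hlast : (Fin.last m : Fin (m + 1)) ≠ 0 := by
        intro h1
        have h2 := congrArg Fin.val h1
        simp at h2
        omega
      have hTc : T.card = bd m := by
        rcases hwf _ hlast with h1 | h1
        · rw [hch _ hlast] at h1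
          exact absurd h1 hTne.ne_empty
        · rw [hch _ hlast] at h1
          exact h1
      rw [hpos _ _ h0] at hTs
      exact (alv_glue P h hf k).2 ⟨T, hTc, hch', h0, hTs,
        fk_glue P h k T hTc (fun i hi => (hch' i hi).2)⟩
  refine ⟨?_, key⟩
  by_cases ha : Alv P G N (univ.biUnion C) (y 0) k
  · have hc := key.1 ha
    obtain ⟨Y, hYc, hch, h0, hsub, hfk⟩ := (alv_glue P h hf k).1 ha
    have hYne : Y.Nonempty := Finset.card_pos.1 (by omega)
    have hTY : T = Y := (hT Y hYne).2 (fun i hi => by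
      rw [hpos _ _ (hch i hi).1]; exact (hch i hi).2)
    rw [hpos _ _ ha, hfk, sb, if_pos hc, hpos _ _ h0, hTY]
  · have hc : ¬ cmp ((stt P G N (C 0) (y 0)).A k) T := fun hc => ha (key.2 hc)
    rw [hneg _ _ ha, sb, if_neg hc]

theorem pa10_mu (P : Par) {G : SimpleGraph V} {N : V → Finset (Fin 8)} (D D0 : Finset V)
    (x x0 : V) (T : Fin P.K → Finset (Fin 4))
    (h : ∀ k, Alv P G N D x k ↔ cmp ((stt P G N D0 x0).A k) (T k)) :
    mu P G N D x = P.wt (stt P G N D0 x0).A T := by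
  classical
  unfold mu Par.wt
  refine Finset.sum_congr rfl fun k _ => ?_
  by_cases ha : Alv P G N D x k
  · rw [if_pos ha, if_pos ((h k).1 ha)]
  · rw [if_neg ha, if_neg (fun hc => ha ((h k).2 hc))]

theorem pa10_adj (n : ℕ) (hn : 2 ≤ n) (i j : Fin (n + 1)) (hij : i < j) :
    (SimpleGraph.cycleGraph (n + 1)).Adj i j ↔ (i.val + 1 = j.val ∨ (i.val = 0 ∧ j.val = n)) := by
  have hi := i.2
  have hj := j.2
  have hij' : i.val < j.val := hij
  rw [SimpleGraph.cycleGraph_adj']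
  have h1 : (j - i).val = j.val - i.val := by
    rw [Fin.sub_def]
    show (n + 1 - i.val + j.val) % (n + 1) = _
    have : n + 1 - i.val + j.val = (j.val - i.val) + (n + 1) := by omega
    rw [this, Nat.add_mod_right, Nat.mod_eq_of_lt (by omega)]
  have h2 : (i - j).val = n + 1 - (j.val - i.val) := by
    rw [Fin.sub_def]
    show (n + 1 - j.val + i.val) % (n + 1) = _
    have : n + 1 - j.val + i.val = n + 1 - (j.val - i.val) := by omega
    rw [this, Nat.mod_eq_of_lt (by omega)]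
  rw [h1, h2]
  omega

open Classical in
theorem pa10_pairs (n : ℕ) (hn : 2 ≤ n) (B : SimpleGraph (Fin (n + 1)))
    (hadj : ∀ i j : Fin (n + 1), i < j →
      (B.Adj i j ↔ (i.val + 1 = j.val ∨ (i.val = 0 ∧ j.val = n))))
    (f : Fin (n + 1) → Fin (n + 1) → ℕ) :
    ∑ i : Fin (n + 1), ∑ j ∈ univ.filter (fun j => i < j ∧ B.Adj i j),
      f i j = ∑ i ∈ range n, f (Fin.ofNat (n + 1) i) (Fin.ofNat (n + 1) (i + 1)) +
        f 0 (Fin.ofNat (n + 1) n) := by
  have h3 : ∀ i : Fin (n + 1), ∑ j ∈ univ.filter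
      (fun j => i < j ∧ B.Adj i j), f i j =
      (if i.val < n then f i (Fin.ofNat (n + 1) (i.val + 1)) else 0) +
        (if i.val = 0 then f i (Fin.ofNat (n + 1) n) else 0) := by
    intro i
    have hi := i.2
    have h4 : univ.filter (fun j => i < j ∧ B.Adj i j) =
        univ.filter (fun j : Fin (n + 1) => i.val + 1 = j.val) ∪
          univ.filter (fun j : Fin (n + 1) => i.val = 0 ∧ j.val = n) := by
      ext j
      have hj := j.2
      simp only [Finset.mem_filter, Finset.mem_univ, true_and, Finset.mem_union]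
      constructor
      · rintro ⟨h5, h6⟩
        exact (hadj i j h5).1 h6
      · intro h5
        have h6 : i < j := by
          show i.val < j.val
          omega
        exact ⟨h6, (hadj i j h6).2 h5⟩
    have h7 : Disjoint (univ.filter (fun j : Fin (n + 1) => i.val + 1 = j.val))
        (univ.filter (fun j : Fin (n + 1) => i.val = 0 ∧ j.val = n)) := by
      rw [Finset.disjoint_left]
      intro j h8 h9
      simp only [Finset.mem_filter, Finset.mem_univ, true_and] at h8 h9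
      omega
    rw [h4, Finset.sum_union h7]
    congr 1
    · by_cases h8 : i.val < n
      · rw [if_pos h8]
        have h9 : univ.filter (fun j : Fin (n + 1) => i.val + 1 = j.val) =
            {Fin.ofNat (n + 1) (i.val + 1)} := by
          ext j
          simp only [Finset.mem_filter, Finset.mem_univ, true_and, Finset.mem_singleton,
            Fin.ext_iff, Fin.val_ofNat]
          rw [Nat.mod_eq_of_lt (by omega)]
          exact eq_comm
        rw [h9, Finset.sum_singleton]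
      · rw [if_neg h8]
        have h9 : univ.filter (fun j : Fin (n + 1) => i.val + 1 = j.val) = ∅ := by
          ext j
          have hj := j.2
          simp only [Finset.mem_filter, Finset.mem_univ, true_and, Finset.notMem_empty, iff_false]
          omega
        rw [h9, Finset.sum_empty]
    · by_cases h8 : i.val = 0
      · rw [if_pos h8]
        have h9 : univ.filter (fun j : Fin (n + 1) => i.val = 0 ∧ j.val = n) =
            {Fin.ofNat (n + 1) n} := by
          ext j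
          simp only [Finset.mem_filter, Finset.mem_univ, true_and, Finset.mem_singleton,
            Fin.ext_iff, Fin.val_ofNat, h8]
          rw [Nat.mod_eq_of_lt (by omega)]
        rw [h9, Finset.sum_singleton]
      · rw [if_neg h8]
        have h9 : univ.filter (fun j : Fin (n + 1) => i.val = 0 ∧ j.val = n) = ∅ := by
          ext j
          simp only [Finset.mem_filter, Finset.mem_univ, true_and, Finset.notMem_empty, iff_false]
          omega
        rw [h9, Finset.sum_empty]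
  rw [Finset.sum_congr rfl fun i _ => h3 i, Finset.sum_add_distrib]
  have h10 : ∀ g : ℕ → ℕ, ∑ i : Fin (n + 1), g i.val = ∑ i ∈ range (n + 1), g i := fun g =>
    Fin.sum_univ_eq_sum_range g (n + 1)
  congr 1
  · have h11 := h10 (fun i => if i < n then
      f (Fin.ofNat (n + 1) i) (Fin.ofNat (n + 1) (i + 1)) else 0)
    have h12 : ∀ i : Fin (n + 1), Fin.ofNat (n + 1) i.val = i := fun i => by
      apply Fin.ext
      rw [Fin.val_ofNat, Nat.mod_eq_of_lt i.2]
    simp only [h12] at h11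
    rw [h11, Finset.sum_range_succ, if_neg (lt_irrefl n), add_zero]
    exact Finset.sum_congr rfl fun i hi => if_pos (Finset.mem_range.1 hi)
  · rw [Finset.sum_eq_single (0 : Fin (n + 1))]
    · simp
    · intro i _ hi
      rw [if_neg]
      intro h11
      exact hi (Fin.ext h11)
    · intro h11
      exact absurd (Finset.mem_univ _) h11

/-- Cycle block: the state is `cls` of the chain of the children `1, …, m` (`m = 2 t`); for `m = 2`
the triangle of the block is paid.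
Proof. As for the edge block. Write `X i` for the state of child `i + 1`. `alv_glue`, `fk_glue` with
`bd (2 * t) = 2`, `chs_A` with `j = 2 t - 1`. The load: `ldp_glue`, `chs_ld`, `chs_N`; the pairs `i < j`
adjacent in `cycleGraph (2 t + 1)` are `(i, i + 1)`, `i < 2 t`, and `(0, 2 t)` (for `t = 1` these are
the three pairs); `tb 2 = 1`, `tb (2 t) = 0` for `t ≥ 2`. -/
theorem stt_cyc (P : Par) {G : SimpleGraph V} {N : V → Finset (Fin 8)} (t : ℕ) (ht : 1 ≤ t)
    {C : Fin (2 * t + 1) → Finset V} {y : Fin (2 * t + 1) → V}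
    (h : Glue G (2 * t) (SimpleGraph.cycleGraph (2 * t + 1)) C y)
    (hf : Full G N (univ.biUnion C) (y 0)) (X : ℕ → AS P.K)
    (hX : ∀ i : ℕ, X i = stt P G N (C (Fin.ofNat (2 * t + 1) (i + 1)))
      (y (Fin.ofNat (2 * t + 1) (i + 1)))) :
    stt P G N (univ.biUnion C) (y 0) = P.cls (stt P G N (C 0) (y 0))
      (if t = 1 then P.addT (chs P X (2 * t - 1)) else chs P X (2 * t - 1)) ∧
    mu P G N (univ.biUnion C) (y 0) =
      P.wt (stt P G N (C 0) (y 0)).A (chs P X (2 * t - 1)).A := by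
  classical
  have hbd : bd (2 * t) = 2 := by
    unfold bd
    rw [if_neg (by omega)]
  have hwfi : ∀ i ≠ 0, P.Wf 2 (stt P G N (C i) (y i)) := fun i hi =>
    stt_wf P (h.gt i) ((full_glue h hf).1 i) 2 (by
      have h9 := (full_glue h hf).2 i hi
      rw [hbd] at h9
      omega)
  have hne : ∀ i, i < 2 * t → (Fin.ofNat (2 * t + 1) (i + 1) : Fin (2 * t + 1)) ≠ 0 := by
    intro i hi h1
    have h2 := congrArg Fin.val h1
    rw [Fin.val_ofNat, Nat.mod_eq_of_lt (by omega)] at h2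
    simp at h2
  have hwf : ∀ i ≤ 2 * t - 1, P.Wf 2 (X i) := fun i hi => by
    rw [hX]
    exact hwfi _ (hne i (by omega))
  have hT : ∀ k, ∀ Y : Finset (Fin 4), Y.Nonempty → ((chs P X (2 * t - 1)).A k = Y ↔
      ∀ i ≠ 0, (stt P G N (C i) (y i)).A k = Y) := by
    intro k Y hY
    rw [chs_A P X (2 * t - 1) hwf k Y hY]
    constructor
    · intro h1 i hi
      have hi0 : i.val ≠ 0 := fun h2 => hi (Fin.ext h2)
      have hi1 := i.2
      have h2 := h1 (i.val - 1) (by omega)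
      rw [hX] at h2
      have h3 : (Fin.ofNat (2 * t + 1) (i.val - 1 + 1) : Fin (2 * t + 1)) = i := by
        apply Fin.ext
        rw [Fin.val_ofNat, Nat.mod_eq_of_lt (by omega)]
        omega
      rw [h3] at h2
      exact h2
    · intro h1 i hi
      rw [hX]
      exact h1 _ (hne i (by omega))
  have hg := fun k => pa10_gen P (m := 2 * t) (by omega) (by rw [hbd]; norm_num) h hf k _ (hT k)
  have hN : ∀ i, (X i).N₁ = N (y (Fin.ofNat (2 * t + 1) (i + 1))) := fun i => by rw [hX]; rfl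
  have h00 : (X 0).N₁ = (X 0).N₂ := by rw [hX]; rfl
  have hch := chs_N P X (2 * t - 1) h00
  have hld := chs_ld P X (2 * t - 1)
  have hsp : ∀ g : ℕ → ℕ, ∑ i ∈ range (2 * t), g i = ∑ i ∈ range (2 * t - 1), g (i + 1) + g 0 := by
    intro g
    obtain ⟨n, hn⟩ : ∃ n, 2 * t = n + 1 := ⟨2 * t - 1, by omega⟩
    rw [hn, Finset.sum_range_succ']
    simp
  have hload : ldp P G N (univ.biUnion C) = (stt P G N (C 0) (y 0)).ld +
      (chs P X (2 * t - 1)).ld + P.tau * ((stt P G N (C 0) (y 0)).N₁ ∩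
        (chs P X (2 * t - 1)).N₁).card + P.tau * ((stt P G N (C 0) (y 0)).N₁ ∩
        (chs P X (2 * t - 1)).N₂).card + P.tau * tb (2 * t) := by
    rw [ldp_glue h P, pa10_pairs (2 * t) (by omega) _ (pa10_adj (2 * t) (by omega))
      (fun i j => (N (y i) ∩ N (y j)).card), hsp,
      hch.1, hch.2, hld]
    have e1 : ∑ i : Fin (2 * t + 1), ldp P G N (C i) =
        ldp P G N (C 0) + ∑ i ∈ range (2 * t - 1 + 1), (X i).ld := by
      rw [Fin.sum_univ_succ]
      congr 1
      have h2 : 2 * t - 1 + 1 = 2 * t := by omega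
      rw [h2, ← Fin.sum_univ_eq_sum_range (fun i => (X i).ld) (2 * t)]
      refine Finset.sum_congr rfl fun i _ => ?_
      rw [hX]
      have h3 : (Fin.ofNat (2 * t + 1) (i.val + 1) : Fin (2 * t + 1)) = i.succ := by
        apply Fin.ext
        have := i.2
        rw [Fin.val_ofNat, Nat.mod_eq_of_lt (by omega), Fin.val_succ]
      rw [h3]
      rfl
    have e2 : ∑ i ∈ range (2 * t - 1), ((X i).N₁ ∩ (X (i + 1)).N₁).card =
        ∑ i ∈ range (2 * t - 1), (N (y (Fin.ofNat (2 * t + 1) (i + 1))) ∩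
          N (y (Fin.ofNat (2 * t + 1) (i + 1 + 1)))).card :=
      Finset.sum_congr rfl fun i _ => by rw [hN, hN]
    have e3 : (Fin.ofNat (2 * t + 1) 0 : Fin (2 * t + 1)) = 0 := by
      apply Fin.ext
      rw [Fin.val_ofNat]
      simp
    have e4 : (X (2 * t - 1)).N₁ = N (y (Fin.ofNat (2 * t + 1) (2 * t))) := by
      rw [hN]
      have : 2 * t - 1 + 1 = 2 * t := by omega
      rw [this]
    rw [e1, e2, e3, e4, hN]
    have e5 : (stt P G N (C 0) (y 0)).ld = ldp P G N (C 0) := rfl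
    have e6 : (stt P G N (C 0) (y 0)).N₁ = N (y 0) := rfl
    rw [e5, e6]
    ring
  refine ⟨?_, pa10_mu P _ _ _ _ _ fun k => (hg k).2⟩
  apply AS.ext
  · funext k
    rw [(hg k).1]
    simp only [Par.cls]
    split_ifs <;> rfl
  · rfl
  · rfl
  · show ldp P G N (univ.biUnion C) = P.ldC _ _
    rw [hload]
    by_cases h1 : t = 1
    · rw [if_pos h1]
      have h2 : tb (2 * t) = 1 := by rw [h1]; decide
      rw [h2]
      simp only [Par.ldC, Par.addT]
      ring
    · rw [if_neg h1]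
      have h2 : tb (2 * t) = 0 := by
        unfold tb
        rw [if_neg (by omega), if_neg (by omega)]
      rw [h2]
      simp only [Par.ldC]
      ring

end Pool.Agent.MP_528dc0_co

end

section

open Finset

namespace Pool.Agent.MP_528dc0_co

variable {V : Type} [Fintype V] [DecidableEq V]

theorem pa11_gen (P : Par) {G : SimpleGraph V} {N : V → Finset (Fin 8)} {m : ℕ}
    (hm : 1 ≤ m) (hbd : 1 ≤ bd m) {B : SimpleGraph (Fin (m + 1))} {C : Fin (m + 1) → Finset V}
    {y : Fin (m + 1) → V} (h : Glue G m B C y) (hf : Full G N (univ.biUnion C) (y 0))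
    (k : Fin P.K) (T : Finset (Fin 4))
    (hT : ∀ Y : Finset (Fin 4), Y.Nonempty →
      (T = Y ↔ ∀ i ≠ 0, (stt P G N (C i) (y i)).A k = Y)) :
    (stt P G N (univ.biUnion C) (y 0)).A k = sb ((stt P G N (C 0) (y 0)).A k) T ∧
    (Alv P G N (univ.biUnion C) (y 0) k ↔ cmp ((stt P G N (C 0) (y 0)).A k) T) := by
  classical
  have hwf : ∀ i ≠ 0, (stt P G N (C i) (y i)).A k = ∅ ∨
      ((stt P G N (C i) (y i)).A k).card = bd m := fun i hi =>
    (stt_wf P (h.gt i) ((full_glue h hf).1 i) (bd m)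
      (by have := (full_glue h hf).2 i hi; omega)).1 k
  have hpos : ∀ (D : Finset V) (x : V), Alv P G N D x k →
      (stt P G N D x).A k = FK P G N k D x := fun D x ha => by
    simp only [stt, if_pos ha]
  have hneg : ∀ (D : Finset V) (x : V), ¬ Alv P G N D x k → (stt P G N D x).A k = ∅ :=
    fun D x ha => by simp only [stt, if_neg ha]
  have key : Alv P G N (univ.biUnion C) (y 0) k ↔ cmp ((stt P G N (C 0) (y 0)).A k) T := by
    constructor
    · intro ha
      obtain ⟨Y, hYc, hch, h0, hsub, _⟩ := (alv_glue P h hf k).1 ha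
      have hYne : Y.Nonempty := Finset.card_pos.1 (by omega)
      have hTY : T = Y := (hT Y hYne).2 (fun i hi => by
        rw [hpos _ _ (hch i hi).1]; exact (hch i hi).2)
      rw [hpos _ _ h0, hTY]
      exact ⟨hYne, hsub⟩
    · rintro ⟨hTne, hTs⟩
      have h0 : Alv P G N (C 0) (y 0) k := by
        by_contra hn
        rw [hneg _ _ hn] at hTs
        exact hTne.ne_empty (Finset.subset_empty.1 hTs)
      have hch := (hT T hTne).1 rfl
      have hch' : ∀ i ≠ 0, Alv P G N (C i) (y i) k ∧ FK P G N k (C i) (y i) = T := by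
        intro i hi
        have h1 := hch i hi
        by_cases ha : Alv P G N (C i) (y i) k
        · rw [hpos _ _ ha] at h1
          exact ⟨ha, h1⟩
        · rw [hneg _ _ ha] at h1
          exact absurd h1.symm hTne.ne_empty
      have hlast : (Fin.last m : Fin (m + 1)) ≠ 0 := by
        intro h1
        have h2 := congrArg Fin.val h1
        simp at h2
        omega
      have hTc : T.card = bd m := by
        rcases hwf _ hlast with h1 | h1
        · rw [hch _ hlast] at h1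
          exact absurd h1 hTne.ne_empty
        · rw [hch _ hlast] at h1
          exact h1
      rw [hpos _ _ h0] at hTs
      exact (alv_glue P h hf k).2 ⟨T, hTc, hch', h0, hTs,
        fk_glue P h k T hTc (fun i hi => (hch' i hi).2)⟩
  refine ⟨?_, key⟩
  by_cases ha : Alv P G N (univ.biUnion C) (y 0) k
  · have hc := key.1 ha
    obtain ⟨Y, hYc, hch, h0, hsub, hfk⟩ := (alv_glue P h hf k).1 ha
    have hYne : Y.Nonempty := Finset.card_pos.1 (by omega)
    have hTY : T = Y := (hT Y hYne).2 (fun i hi => by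
      rw [hpos _ _ (hch i hi).1]; exact (hch i hi).2)
    rw [hpos _ _ ha, hfk, sb, if_pos hc, hpos _ _ h0, hTY]
  · have hc : ¬ cmp ((stt P G N (C 0) (y 0)).A k) T := fun hc => ha (key.2 hc)
    rw [hneg _ _ ha, sb, if_neg hc]

theorem pa11_mu (P : Par) {G : SimpleGraph V} {N : V → Finset (Fin 8)} (D D0 : Finset V)
    (x x0 : V) (T : Fin P.K → Finset (Fin 4))
    (h : ∀ k, Alv P G N D x k ↔ cmp ((stt P G N D0 x0).A k) (T k)) :
    mu P G N D x = P.wt (stt P G N D0 x0).A T := by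
  classical
  unfold mu Par.wt
  refine Finset.sum_congr rfl fun k _ => ?_
  by_cases ha : Alv P G N D x k
  · rw [if_pos ha, if_pos ((h k).1 ha)]
  · rw [if_neg ha, if_neg (fun hc => ha ((h k).2 hc))]

theorem pa11_blk {m : ℕ} {B : SimpleGraph (Fin (m + 1))} (hB : Blk m B) (hm : m = 3) :
    ∀ i j, B.Adj i j ↔ i ≠ j := by
  cases hB with
  | k2 => omega
  | odd t ht => omega
  | k4 => intro i j; exact SimpleGraph.top_adj i j

theorem pa11_kp {P Q Y : Finset (Fin 4)} (hY : Y.Nonempty) (hP : P = ∅ ∨ P.card = 3)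
    (hQ : Q = ∅ ∨ Q.card = 3) : kp P Q = Y ↔ Q = Y ∧ P = Y := by
  classical
  unfold kp
  constructor
  · intro h
    by_cases hc : cmp P Q
    · rw [if_pos hc] at h
      subst h
      refine ⟨rfl, ?_⟩
      have h1 : P.card = 3 := by
        rcases hP with h | h
        · exfalso
          have := hc.2
          rw [h, Finset.subset_empty] at this
          exact hc.1.ne_empty this
        · exact h
      have h2 : Q.card = 3 := by
        rcases hQ with h | h
        · exact absurd h hc.1.ne_empty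
        · exact h
      exact (Finset.eq_of_subset_of_card_le hc.2 (by omega)).symm
    · rw [if_neg hc] at h
      exact absurd h.symm hY.ne_empty
  · rintro ⟨rfl, rfl⟩
    rw [if_pos ⟨hY, Finset.Subset.refl _⟩]

theorem pa11_kp_card {P Q : Finset (Fin 4)} (hQ : Q = ∅ ∨ Q.card = 3) :
    kp P Q = ∅ ∨ (kp P Q).card = 3 := by
  classical
  unfold kp
  split_ifs
  · exact hQ
  · exact Or.inl rfl

/-- `K₄` block: children `1, 2, 3`, all with sets of size three. (`bd 3 = 3`, `tb 3 = 4`.) -/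
theorem stt_k4 (P : Par) {G : SimpleGraph V} {N : V → Finset (Fin 8)}
    {B : SimpleGraph (Fin (3 + 1))} {C : Fin (3 + 1) → Finset V} {y : Fin (3 + 1) → V}
    (h : Glue G 3 B C y) (hf : Full G N (univ.biUnion C) (y 0)) (v : AS3 P.K)
    (hv : v = P.tri3 (P.chn (stt P G N (C 1) (y 1)) (stt P G N (C 2) (y 2)))
      (stt P G N (C 3) (y 3))) :
    (∀ k, (stt P G N (univ.biUnion C) (y 0)).A k = sb ((stt P G N (C 0) (y 0)).A k) (v.A k)) ∧
    ldp P G N (univ.biUnion C) = P.ldV (stt P G N (C 0) (y 0)) v ∧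
    mu P G N (univ.biUnion C) (y 0) = P.wt (stt P G N (C 0) (y 0)).A v.A := by
  classical
  have hwf : ∀ k, ∀ i ≠ 0, (stt P G N (C i) (y i)).A k = ∅ ∨
      ((stt P G N (C i) (y i)).A k).card = 3 := fun k i hi =>
    (stt_wf P (h.gt i) ((full_glue h hf).1 i) 3
      (by
        have h9 := (full_glue h hf).2 i hi
        have hb3 : bd 3 = 3 := by decide
        rw [hb3] at h9
        omega)).1 k
  have hT : ∀ k, ∀ Y : Finset (Fin 4), Y.Nonempty →
      (v.A k = Y ↔ ∀ i ≠ 0, (stt P G N (C i) (y i)).A k = Y) := by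
    intro k Y hY
    have h1 : v.A k = kp ((stt P G N (C 3) (y 3)).A k)
        (kp ((stt P G N (C 2) (y 2)).A k) ((stt P G N (C 1) (y 1)).A k)) := by
      rw [hv]; rfl
    rw [h1, pa11_kp hY (hwf k 3 (by decide)) (pa11_kp_card (hwf k 1 (by decide))),
      pa11_kp hY (hwf k 2 (by decide)) (hwf k 1 (by decide))]
    constructor
    · rintro ⟨⟨e1, e2⟩, e3⟩ i hi
      fin_cases i
      · exact absurd rfl hi
      · exact e1
      · exact e2
      · exact e3
    · intro h2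
      exact ⟨⟨h2 1 (by decide), h2 2 (by decide)⟩, h2 3 (by decide)⟩
  have hg := fun k => pa11_gen P (m := 3) (by norm_num) (by decide) h hf k (v.A k) (hT k)
  refine ⟨fun k => (hg k).1, ?_, pa11_mu P _ _ _ _ _ fun k => (hg k).2⟩
  have hadj := pa11_blk h.blk rfl
  rw [ldp_glue h P]
  have h2 : ∑ i : Fin (3 + 1), ∑ j ∈ univ.filter (fun j => i < j ∧ B.Adj i j),
      (N (y i) ∩ N (y j)).card = (N (y 0) ∩ N (y 1)).card + (N (y 0) ∩ N (y 2)).card +
      (N (y 0) ∩ N (y 3)).card + ((N (y 1) ∩ N (y 2)).card + (N (y 1) ∩ N (y 3)).card) +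
      (N (y 2) ∩ N (y 3)).card := by
    have h3 : ∀ i : Fin (3 + 1), univ.filter (fun j => i < j ∧ B.Adj i j)
        = univ.filter (fun j => i < j) := by
      intro i
      refine Finset.filter_congr fun j _ => ?_
      rw [hadj]
      exact ⟨fun h => h.1, fun h => ⟨h, h.ne⟩⟩
    simp only [h3]
    have q0 : (univ.filter (fun j : Fin (3 + 1) => (0 : Fin (3 + 1)) < j)) = {1, 2, 3} := by decide
    have q1 : (univ.filter (fun j : Fin (3 + 1) => (1 : Fin (3 + 1)) < j)) = {2, 3} := by decide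
    have q2 : (univ.filter (fun j : Fin (3 + 1) => (2 : Fin (3 + 1)) < j)) = {3} := by decide
    have q3 : (univ.filter (fun j : Fin (3 + 1) => (3 : Fin (3 + 1)) < j)) = ∅ := by decide
    rw [Fin.sum_univ_four]
    rw [q0, q1, q2, q3, Finset.sum_insert (by decide), Finset.sum_insert (by decide),
      Finset.sum_singleton, Finset.sum_insert (by decide), Finset.sum_singleton,
      Finset.sum_singleton, Finset.sum_empty]
    ring
  rw [h2, Fin.sum_univ_four]
  have ht : tb 3 = 4 := by decide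
  rw [ht, hv]
  simp only [Par.ldV, Par.tri3, Par.chn, Par.ldE, stt]
  rw [Finset.inter_comm (N (y 3)) (N (y 2)), Finset.inter_comm (N (y 3)) (N (y 1))]
  ring

end Pool.Agent.MP_528dc0_co

end

section

open Finset

namespace Pool.Agent.MP_528dc0_co

variable {V : Type} [Fintype V] [DecidableEq V]

theorem pb1_aw (P : Par) (X : ℕ → AS P.K) (j : ℕ) :
    ∀ i ≤ j, P.aw (chs P X j).A ≤ P.aw (X i).A := by
  induction j with
  | zero =>
    intro i hi
    have h0 : i = 0 := by omega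
    subst h0
    exact le_rfl
  | succ j ih =>
    intro i hi
    obtain ⟨-, h2, h3⟩ := chs_aw P X j
    rcases Nat.lt_or_ge i (j + 1) with h | h
    · exact h2.trans (ih i (by omega))
    · have h0 : i = j + 1 := by omega
      rw [h0]
      exact h3

theorem pb1_wf (P : Par) {x : AS P.K} (hx : P.Wf 2 x) : 2 * P.lam ≤ x.ld := by
  have h := hx.2.1
  have h2 : (4 - 2) * P.lam = 2 * P.lam := rfl
  rwa [h2] at h

theorem pb1_ld (P : Par) (X : ℕ → AS P.K) (j : ℕ) (hX : ∀ i ≤ j, P.Wf 2 (X i)) (i : ℕ)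
    (hi : i ≤ j) : (X i).ld + 2 * j * P.lam ≤ (chs P X j).ld := by
  rw [chs_ld]
  have h1 : ∑ l ∈ range (j + 1), (X l).ld = (X i).ld + ∑ l ∈ (range (j + 1)).erase i, (X l).ld :=
    (Finset.add_sum_erase _ _ (Finset.mem_range.2 (by omega))).symm
  have h2 : ((range (j + 1)).erase i).card * (2 * P.lam) ≤
      ∑ l ∈ (range (j + 1)).erase i, (X l).ld := by
    rw [← smul_eq_mul]
    refine Finset.card_nsmul_le_sum _ _ _ fun l hl => ?_
    have h3 : l < j + 1 := Finset.mem_range.1 (Finset.mem_of_mem_erase hl)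
    exact pb1_wf P (hX l (by omega))
  rw [Finset.card_erase_of_mem (Finset.mem_range.2 (by omega)), Finset.card_range,
    Nat.add_sub_cancel] at h2
  have h3 : 2 * j * P.lam = j * (2 * P.lam) := by ring
  rw [h1, h3]
  omega

theorem pb1_c2 (P : Par) : P.c2 ≤ 6 * P.lam ∧ P.c2 ≤ 4 * P.lam + P.tau :=
  ⟨min_le_left _ _, min_le_right _ _⟩

theorem pb1_S2 (P : Par) {S2 : AS P.K → Prop} (X : ℕ → AS P.K) (m : ℕ)
    (hX : ∀ i < m, P.Wf 2 (X i)) (hS : ∀ i < m, (X i).ld + P.c2 < P.aw (X i).A → S2 (X i))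
    {j T : ℕ} (hj : j < m) (hT : 6 ≤ 2 * j + T)
    (hv : (chs P X j).ld + T * P.lam < P.aw (chs P X j).A) {i : ℕ} (hi : i ≤ j) : S2 (X i) := by
  apply hS i (by omega)
  have h1 := pb1_ld P X j (fun i hi => hX i (by omega)) i hi
  have h2 := pb1_aw P X j i hi
  have h3 := (pb1_c2 P).1
  have h4 : 6 * P.lam ≤ (2 * j + T) * P.lam := Nat.mul_le_mul_right _ hT
  have h5 : (2 * j + T) * P.lam = 2 * j * P.lam + T * P.lam := by ring
  omega

theorem pb1_all (P : Par) {S1 S2 S3 T2 U2 U3 U4 V2 : AS P.K → Prop} {V3 : AS3 P.K → Prop}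
    (hcl : P.Closed S1 S2 S3 T2 U2 U3 U4 V2 V3) (X : ℕ → AS P.K) (m : ℕ)
    (hX : ∀ i < m, P.Wf 2 (X i)) (hS : ∀ i < m, (X i).ld + P.c2 < P.aw (X i).A → S2 (X i))
    (hex : ∀ i, i + 1 < m → ¬ P.ex2 ((X i).N₁ ∩ (X (i + 1)).N₁)) (j : ℕ) :
    (j = 1 → j < m → (chs P X j).ld + 6 * P.lam < P.aw (chs P X j).A → U2 (chs P X j)) ∧
    (2 ≤ j → j < m → j % 2 = 0 → (chs P X j).ld + 4 * P.lam < P.aw (chs P X j).A →
      U3 (chs P X j)) ∧
    (3 ≤ j → j < m → j % 2 = 1 → (chs P X j).ld + 2 * P.lam < P.aw (chs P X j).A →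
      U4 (chs P X j)) := by
  induction j with
  | zero =>
    refine ⟨fun h => ?_, fun h => ?_, fun h => ?_⟩
    · omega
    · omega
    · omega
  | succ j ih =>
    obtain ⟨ih2, ih3, ih4⟩ := ih
    -- facts about the step
    have haw : P.aw (chs P X (j + 1)).A = P.wt (X (j + 1)).A (chs P X j).A := (chs_aw P X j).1
    have hmono : P.aw (chs P X (j + 1)).A ≤ P.aw (chs P X j).A := (chs_aw P X j).2.1
    have hE : (chs P X (j + 1)).ld = P.ldE (chs P X j) (X (j + 1)) := rfl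
    have hge : j + 1 < m → (chs P X j).ld + 2 * P.lam ≤ (chs P X (j + 1)).ld := by
      intro hm
      have h1 := pb1_wf P (hX (j + 1) hm)
      rw [hE]
      unfold Par.ldE
      omega
    have hN : j + 1 < m → ¬ P.ex2 ((chs P X j).N₁ ∩ (X (j + 1)).N₁) := by
      intro hm
      rw [(chs_N P X j (hX 0 (by omega)).2.2).1]
      exact hex j hm
    have hW : j + 1 < m → P.WfC (2 * (j + 1) * P.lam) (chs P X j) := fun hm =>
      chs_wf P X j fun i hi => hX i (by omega)
    refine ⟨?_, ?_, ?_⟩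
    · intro h1 hm hv
      have hj : j = 0 := by omega
      subst hj
      have hs0 : S2 (X 0) := pb1_S2 P X m hX hS hm (T := 6) (by omega) hv (by omega)
      have hs1 : S2 (X 1) := pb1_S2 P X m hX hS hm (T := 6) (by omega) hv (by omega)
      have w0 := hX 0 (by omega)
      have w1 := hX 1 hm
      have hwt : P.wt (X 0).A (X 1).A = P.wt (X 1).A (X 0).A := (wt_symm P 2 _ _ w0 w1).1
      have hlt : P.ldE (X 0) (X 1) + 6 * P.lam < P.wt (X 0).A (X 1).A := by
        rw [hwt]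
        rw [haw] at hv
        exact hv
      exact hcl.u2 (X 0) (X 1) hs0 w0 hs1 w1 (hex 0 hm) hlt
    · intro h1 hm hpar hv
      have hj1 : 1 ≤ j := by omega
      have hs : S2 (X (j + 1)) :=
        pb1_S2 P X m hX hS hm (T := 4) (by omega) hv le_rfl
      have hg := hge hm
      have hU : U2 (chs P X j) ∨ U4 (chs P X j) := by
        rcases Nat.lt_or_ge j 2 with h2 | h2
        · left
          exact ih2 (by omega) (by omega) (by omega)
        · right
          exact ih4 (by omega) (by omega) (by omega) (by omega)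
      have hw : P.WfC (4 * P.lam) (chs P X j) := by
        refine ⟨(hW hm).1, ?_⟩
        have h3 := (hW hm).2
        have h4 : 4 * P.lam ≤ 2 * (j + 1) * P.lam := Nat.mul_le_mul_right _ (by omega)
        exact h4.trans h3
      have hlt : P.ldE (chs P X j) (X (j + 1)) + 4 * P.lam < P.wt (X (j + 1)).A (chs P X j).A := by
        rw [← haw, ← hE]
        exact hv
      exact hcl.u3 (chs P X j) (X (j + 1)) hU hw hs (hX _ hm) (hN hm) hlt
    · intro h1 hm hpar hv
      have hs : S2 (X (j + 1)) :=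
        pb1_S2 P X m hX hS hm (T := 2) (by omega) hv le_rfl
      have hg := hge hm
      have hU : U3 (chs P X j) := ih3 (by omega) (by omega) (by omega) (by omega)
      have hw : P.WfC (6 * P.lam) (chs P X j) := by
        refine ⟨(hW hm).1, ?_⟩
        have h3 := (hW hm).2
        have h4 : 6 * P.lam ≤ 2 * (j + 1) * P.lam := Nat.mul_le_mul_right _ (by omega)
        exact h4.trans h3
      have hlt : P.ldE (chs P X j) (X (j + 1)) + 2 * P.lam < P.wt (X (j + 1)).A (chs P X j).A := by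
        rw [← haw, ← hE]
        exact hv
      exact hcl.u4 (chs P X j) (X (j + 1)) hU hw hs (hX _ hm) (hN hm) hlt

/-- **Chains.** Chains of viable load are in the closed system: length `j + 1 = 2`: `U2`, odd:
`U3`, even `≥ 4`: `U4`.
Proof. Induction on `j`. Since `aw (chs j) ≤ aw (X i)` for all `i ≤ j` (`chs_aw`) and
`(chs j).ld ≥ (X i).ld + 2 j lam` (`chs_ld`, the other members have load `≥ 2 lam`), every `X i` is
viable: `(X i).ld + c2 ≤ (X i).ld + 6 lam < aw (X i)`. So `S2 (X i)`. `j = 1`: rule `u2` with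
`x = X 0`, `y = X 1` (`wt_symm`; `chs 1 = chn (X 0) (X 1)` and `aw (chs 1) = wt (X 1) (X 0)`;
`aw (chn x y).A = wt y x = wt x y`). Step `j → j + 1`: `aw (chs j) ≥ aw (chs (j+1)) > (chs (j+1)).ld + thr
≥ (chs j).ld + 2 lam + thr`, and the thresholds are `6, 4, 2, 4, 2, …` times `lam` for lengths
`2, 3, 4, 5, 6, …`, so the induction hypothesis applies; rule `u3` or `u4` (`chs_wf` for `WfC`). -/
theorem chain_mem (P : Par) {S1 S2 S3 T2 U2 U3 U4 V2 : AS P.K → Prop} {V3 : AS3 P.K → Prop}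
    (hcl : P.Closed S1 S2 S3 T2 U2 U3 U4 V2 V3) (X : ℕ → AS P.K) (m : ℕ)
    (hX : ∀ i < m, P.Wf 2 (X i)) (hS : ∀ i < m, (X i).ld + P.c2 < P.aw (X i).A → S2 (X i))
    (hex : ∀ i, i + 1 < m → ¬ P.ex2 ((X i).N₁ ∩ (X (i + 1)).N₁)) :
    (2 ≤ m → (chs P X 1).ld + 6 * P.lam < P.aw (chs P X 1).A → U2 (chs P X 1)) ∧
    (∀ j, 2 ≤ j → j < m → j % 2 = 0 → (chs P X j).ld + 4 * P.lam < P.aw (chs P X j).A →
      U3 (chs P X j)) ∧
    (∀ j, 3 ≤ j → j < m → j % 2 = 1 → (chs P X j).ld + 2 * P.lam < P.aw (chs P X j).A →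
      U4 (chs P X j)) :=
  ⟨fun hm => (pb1_all P hcl X m hX hS hex 1).1 rfl (by omega),
    fun j => (pb1_all P hcl X m hX hS hex j).2.1, fun j => (pb1_all P hcl X m hX hS hex j).2.2⟩

/-- Triangle blocks: the pair is in `T2`, in one of the two orders.
Proof. `X 0`, `X 1` are viable: `aw (X 0) ≥ wt … > x.ld + y.ld + tau + 2 lam` and
`y.ld ≥ 2 lam`, `c2 ≤ 4 lam + tau`. Rule `t2`. -/
theorem pair_mem (P : Par) {S1 S2 S3 T2 U2 U3 U4 V2 : AS P.K → Prop} {V3 : AS3 P.K → Prop}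
    (hcl : P.Closed S1 S2 S3 T2 U2 U3 U4 V2 V3) (x y : AS P.K) (hx : P.Wf 2 x) (hy : P.Wf 2 y)
    (hSx : x.ld + P.c2 < P.aw x.A → S2 x) (hSy : y.ld + P.c2 < P.aw y.A → S2 y)
    (hex : ¬ P.ex2 (x.N₁ ∩ y.N₁))
    (hv : P.ldE x y + P.tau + 2 * P.lam < P.aw (P.chn x y).A) :
    T2 (P.addT (P.chn x y)) ∨ T2 (P.addT (P.chn y x)) := by
  obtain ⟨h1, h2, h3⟩ := chs_aw P (fun i => Nat.casesOn i x (fun _ => y)) 0
  have e1 : P.aw (P.chn x y).A = P.wt y.A x.A := h1
  have e2 : P.aw (P.chn x y).A ≤ P.aw x.A := h2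
  have e3 : P.aw (P.chn x y).A ≤ P.aw y.A := h3
  have w1 := pb1_wf P hx
  have w2 := pb1_wf P hy
  have c := (pb1_c2 P).2
  have hwt : P.wt x.A y.A = P.wt y.A x.A := (wt_symm P 2 x y hx hy).1
  have hld : x.ld + y.ld ≤ P.ldE x y := by
    unfold Par.ldE
    omega
  refine hcl.t2 x y (hSx (by omega)) hx (hSy (by omega)) hy hex ?_
  rw [hwt, ← e1]
  exact hv

end Pool.Agent.MP_528dc0_co

end

section

open Finset

namespace Pool.Agent.MP_528dc0_co

variable {V : Type} [Fintype V] [DecidableEq V]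

theorem pb2_adj {m : ℕ} {B : SimpleGraph (Fin (m + 1))} (h : Blk m B) (hm : m = 1)
    (i j : Fin (m + 1)) (hij : i ≠ j) : B.Adj i j := by
  cases h with
  | k2 => exact hij
  | odd t ht => omega
  | k4 => omega

theorem pb2_adj_roots {G : SimpleGraph V} {B : SimpleGraph (Fin (1 + 1))}
    {C : Fin (1 + 1) → Finset V} {y : Fin (1 + 1) → V} (h : Glue G 1 B C y) :
    G.Adj (y 0) (y 1) :=
  (h.adj 0 1 (by decide) (y 0) (gt_conn (h.gt 0)).1 (y 1) (gt_conn (h.gt 1)).1).2
    ⟨rfl, rfl, pb2_adj h.blk rfl 0 1 (by decide)⟩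

theorem pb2_wt_le_left (P : Par) (A B : Fin P.K → Finset (Fin 4)) : P.wt A B ≤ P.aw A := by
  classical
  unfold Par.wt Par.aw
  refine Finset.sum_le_sum fun k _ => ?_
  by_cases h : cmp (A k) (B k)
  · rw [if_pos h, if_pos (h.1.mono h.2)]
  · rw [if_neg h]
    exact Nat.zero_le _

theorem pb2_wt_le_right (P : Par) (A B : Fin P.K → Finset (Fin 4)) : P.wt A B ≤ P.aw B := by
  classical
  unfold Par.wt Par.aw
  refine Finset.sum_le_sum fun k _ => ?_
  by_cases h : cmp (A k) (B k)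
  · rw [if_pos h, if_pos h.1]
  · rw [if_neg h]
    exact Nat.zero_le _

theorem pb2_aw_bs (P : Par) (N : Finset (Fin 8)) : P.aw (P.bs N).A ≤ P.bw N := by
  classical
  unfold Par.aw Par.bw
  refine Finset.sum_le_sum fun k _ => ?_
  by_cases h : (N.image (P.φ k)).card = N.card
  · rw [if_pos h]
    split_ifs
    · exact le_rfl
    · exact Nat.zero_le _
  · have h1 : (P.bs N).A k = ∅ := if_neg h
    rw [h1, if_neg Finset.not_nonempty_empty, if_neg h]

theorem pb2_c3 (P : Par) : P.c3 ≤ P.c2 + 3 * P.lam ∧ 3 * P.lam ≤ P.c3 := by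
  unfold Par.c3
  split_ifs
  · exact ⟨min_le_left _ _, le_min (by omega) (by omega)⟩
  · exact ⟨(min_le_left _ _).trans (min_le_left _ _),
      le_min (le_min (by omega) (by omega)) (by omega)⟩

theorem pb2_edg_tr0 (P : Par) (z : AS P.K) : P.edg (tr0 P) z = P.trv z.A z.ld := by
  apply AS.ext
  · rfl
  · rfl
  · rfl
  · show P.ldE (tr0 P) z = z.ld
    unfold Par.ldE tr0
    simp

/-- Edge block: viable pieces are in the closed system.
Proof. Let `x = stt (C 0)`, `y = stt (C 1)`; `stt_edge`, `full_glue`, `dg_glue_root` (`bd 1 = 1`).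
Let `r = 4 - (dg + |N|)` of the union, so `C 0` has rank `r + 1` and `C 1` rank `1`. The union is viable:
`ldE x y + c_r < wt x y ≤ min (aw x) (aw y)`. `ldp_lower`: `x.ld ≥ (3 - r) lam`, `y.ld ≥ 3 lam`. So `C 1`
is viable for `c1 = 3 lam` (`(3 - r) lam + c_r ≥ 3 lam`: `c1 = 3 lam`, `c2 ≥ 2 lam`... for `r = 2`:
`lam + c2 ≥ 3 lam`; `r = 3`: `c3 ≥ 3 lam`) and `C 0` is viable for `c_{r+1}`, `r ≤ 2`:
`3 lam + c1 = 6 lam ≥ c2`, `3 lam + c2 ≥ c3`. Rules `e1` (`r = 1`), `e2` (`r = 2`); `r = 3`: `stt_triv`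
for `C 0` and rule `e3` (`edg (tr0 P) y = trv y.A y.ld`). `ex2`: `f2` for `y 0 ~ y 1`. `mu_eq`,
`stt_wf`. -/
theorem step_edge (P : Par) {S1 S2 S3 T2 U2 U3 U4 V2 : AS P.K → Prop} {V3 : AS3 P.K → Prop}
    (hcl : P.Closed S1 S2 S3 T2 U2 U3 U4 V2 V3) {G : SimpleGraph V} {N : V → Finset (Fin 8)}
    (hfr : FreeN P G N) {B : SimpleGraph (Fin (1 + 1))} {C : Fin (1 + 1) → Finset V}
    {y : Fin (1 + 1) → V} (h : Glue G 1 B C y) (hf : Full G N (univ.biUnion C) (y 0))
    (hi : ∀ i, InS P S1 S2 S3 G N (C i) (y i)) :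
    InS P S1 S2 S3 G N (univ.biUnion C) (y 0) := by
  obtain ⟨hst, hmu⟩ := stt_edge P h hf
  obtain ⟨hfull, hchild⟩ := full_glue h hf
  have hroot := dg_glue_root h 0
  have hc1 := hchild 1 (by decide)
  have hbd : bd 1 = 1 := rfl
  rw [hbd] at hroot hc1
  have hldp : ldp P G N (univ.biUnion C) =
      P.ldE (stt P G N (C 0) (y 0)) (stt P G N (C 1) (y 1)) := congrArg AS.ld hst
  have hwf1 : P.Wf 1 (stt P G N (C 1) (y 1)) := stt_wf P (h.gt 1) (hfull 1) 1 (by omega)
  have hmu1 : mu P G N (C 1) (y 1) = P.aw (stt P G N (C 1) (y 1)).A := mu_eq P (by omega)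
  have hex : ¬ P.ex2 (N (y 0) ∩ N (y 1)) := hfr.f2 _ _ (pb2_adj_roots h)
  have hle0 := pb2_wt_le_left P (stt P G N (C 0) (y 0)).A (stt P G N (C 1) (y 1)).A
  have hle1 := pb2_wt_le_right P (stt P G N (C 0) (y 0)).A (stt P G N (C 1) (y 1)).A
  have hld1 : 3 * P.lam ≤ (stt P G N (C 1) (y 1)).ld := hwf1.2.1
  have hldE : (stt P G N (C 0) (y 0)).ld + (stt P G N (C 1) (y 1)).ld ≤
      P.ldE (stt P G N (C 0) (y 0)) (stt P G N (C 1) (y 1)) := Nat.le_add_right _ _
  have hc2a : P.c2 ≤ 6 * P.lam := min_le_left _ _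
  have hc2b : 4 * P.lam ≤ P.c2 := le_min (by omega) (by omega)
  obtain ⟨hc3a, hc3b⟩ := pb2_c3 P
  have hc1e : P.c1 = 3 * P.lam := rfl
  have hi1 := (hi 1).1 (by omega)
  rw [hmu1] at hi1
  have hl0 : ldp P G N (C 0) = (stt P G N (C 0) (y 0)).ld := rfl
  have hl1 : ldp P G N (C 1) = (stt P G N (C 1) (y 1)).ld := rfl
  rw [hl1] at hi1
  refine ⟨fun hd hv => ?_, fun hd hv => ?_, fun hd hv => ?_⟩
  · rw [hldp, hmu] at hv
    have hwf0 : P.Wf 2 (stt P G N (C 0) (y 0)) := stt_wf P (h.gt 0) (hfull 0) 2 (by omega)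
    have hmu0 : mu P G N (C 0) (y 0) = P.aw (stt P G N (C 0) (y 0)).A := mu_eq P (by omega)
    have h0 := (hi 0).2.1 (by omega)
    rw [hmu0, hl0] at h0
    rw [hst]
    exact hcl.e1 _ _ (h0 (by omega)) hwf0 (hi1 (by omega)) hwf1 hex hv
  · rw [hldp, hmu] at hv
    have hwf0 : P.Wf 3 (stt P G N (C 0) (y 0)) := stt_wf P (h.gt 0) (hfull 0) 3 (by omega)
    have hld0 : 1 * P.lam ≤ (stt P G N (C 0) (y 0)).ld := hwf0.2.1
    have hmu0 : mu P G N (C 0) (y 0) = P.aw (stt P G N (C 0) (y 0)).A := mu_eq P (by omega)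
    have h0 := (hi 0).2.2 (by omega)
    rw [hmu0, hl0] at h0
    rw [hst]
    exact hcl.e2 _ _ (h0 (by omega)) hwf0 (hi1 (by omega)) hwf1 hex hv
  · rw [hldp, hmu] at hv
    obtain ⟨-, htr⟩ := stt_triv (N := N) P (h.gt 0) (by omega)
    rw [hst, htr, pb2_edg_tr0]
    exact hcl.e3 _ (hi1 (by omega)) hwf1 (by omega)

/-- Final edge block: the root `y 0` is a single vertex and has total degree four.
Proof. `|N (y 0)| = 3`. Suppose `ldp < mu`. `mu = wt (bs (N (y 0))) y`, `stt_base`, `y.ld ≥ 3 lam`; so the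
base is viable and `C 1` is viable (`x.ld ≥ 3 lam = c1`). Rule `e0` contradicts. -/
theorem final_edge (P : Par) {S1 S2 S3 T2 U2 U3 U4 V2 : AS P.K → Prop} {V3 : AS3 P.K → Prop}
    (hcl : P.Closed S1 S2 S3 T2 U2 U3 U4 V2 V3) {G : SimpleGraph V} {N : V → Finset (Fin 8)}
    (hfr : FreeN P G N) {B : SimpleGraph (Fin (1 + 1))} {C : Fin (1 + 1) → Finset V}
    {y : Fin (1 + 1) → V} (h : Glue G 1 B C y) (hf : Full G N (univ.biUnion C) (y 0))
    (hi : ∀ i, InS P S1 S2 S3 G N (C i) (y i)) (h0 : C 0 = {y 0})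
    (hr : dg G (univ.biUnion C) (y 0) + (N (y 0)).card = 4) :
    mu P G N (univ.biUnion C) (y 0) ≤ ldp P G N (univ.biUnion C) := by
  obtain ⟨hst, hmu⟩ := stt_edge P h hf
  obtain ⟨hfull, hchild⟩ := full_glue h hf
  have hroot := dg_glue_root h 0
  have hc1 := hchild 1 (by decide)
  have hbd : bd 1 = 1 := rfl
  rw [hbd] at hroot hc1
  have hldp : ldp P G N (univ.biUnion C) =
      P.ldE (stt P G N (C 0) (y 0)) (stt P G N (C 1) (y 1)) := congrArg AS.ld hst
  have hwf1 : P.Wf 1 (stt P G N (C 1) (y 1)) := stt_wf P (h.gt 1) (hfull 1) 1 (by omega)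
  have hmu1 : mu P G N (C 1) (y 1) = P.aw (stt P G N (C 1) (y 1)).A := mu_eq P (by omega)
  have hex : ¬ P.ex2 (N (y 0) ∩ N (y 1)) := hfr.f2 _ _ (pb2_adj_roots h)
  have hdg0 : dg G (C 0) (y 0) = 0 := by
    classical
    rw [h0]
    refine Finset.card_eq_zero.2 (Finset.eq_empty_of_forall_notMem fun u hu => ?_)
    obtain ⟨hu, hadj⟩ := Finset.mem_filter.1 hu
    rw [Finset.mem_singleton] at hu
    rw [hu] at hadj
    exact G.irrefl hadj
  have hN : (N (y 0)).card = 3 := by omega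
  have hs0 : stt P G N (C 0) (y 0) = P.bs (N (y 0)) := by
    rw [h0]
    exact (stt_base P G N (y 0)).1
  rw [hs0] at hmu hldp
  have hle0 := pb2_wt_le_left P (P.bs (N (y 0))).A (stt P G N (C 1) (y 1)).A
  have hle1 := pb2_wt_le_right P (P.bs (N (y 0))).A (stt P G N (C 1) (y 1)).A
  have hbw := pb2_aw_bs P (N (y 0))
  have hld1 : 3 * P.lam ≤ (stt P G N (C 1) (y 1)).ld := hwf1.2.1
  have hld0 : (P.bs (N (y 0))).ld = P.lam * 3 + P.tau * eH P.H (N (y 0)) := by
    show P.lam * (N (y 0)).card + P.tau * eH P.H (N (y 0)) = _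
    rw [hN]
  have hldE : (P.bs (N (y 0))).ld + (stt P G N (C 1) (y 1)).ld ≤
      P.ldE (P.bs (N (y 0))) (stt P G N (C 1) (y 1)) := Nat.le_add_right _ _
  have hc1e : P.c1 = 3 * P.lam := rfl
  have hi1 := (hi 1).1 (by omega)
  have hl1 : ldp P G N (C 1) = (stt P G N (C 1) (y 1)).ld := rfl
  rw [hmu1, hl1] at hi1
  by_contra hcon
  rw [hldp, hmu, not_le] at hcon
  exact absurd (hcl.e0 _ (hfr.lab _) hN (hfr.f1 _) (by omega) _ (hi1 (by omega)) hwf1 hex)
    (not_le.2 hcon)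

end Pool.Agent.MP_528dc0_co

end

section

open Finset

namespace Pool.Agent.MP_528dc0_co

variable {V : Type} [Fintype V] [DecidableEq V]

private theorem pb3_wt_le (P : Par) (A B : Fin P.K → Finset (Fin 4)) :
    P.wt A B ≤ P.aw A ∧ P.wt A B ≤ P.aw B := by
  classical
  unfold Par.wt Par.aw
  constructor
  · refine Finset.sum_le_sum fun k _ => ?_
    by_cases h : cmp (A k) (B k)
    · rw [if_pos h, if_pos (h.1.mono h.2)]
    · rw [if_neg h]
      exact Nat.zero_le _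
  · refine Finset.sum_le_sum fun k _ => ?_
    by_cases h : cmp (A k) (B k)
    · rw [if_pos h, if_pos h.1]
    · rw [if_neg h]
      exact Nat.zero_le _

private theorem pb3_wt_univ (P : Par) (B : Fin P.K → Finset (Fin 4)) :
    P.wt (fun _ => univ) B = P.aw B := by
  classical
  unfold Par.wt Par.aw
  refine Finset.sum_congr rfl fun k _ => ?_
  by_cases h : (B k).Nonempty
  · have h1 : cmp univ (B k) := ⟨h, Finset.subset_univ _⟩
    rw [if_pos h, if_pos h1]
  · have h1 : ¬ cmp univ (B k) := fun h2 => h h2.1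
    rw [if_neg h, if_neg h1]

private theorem pb3_bd (t : ℕ) : bd (2 * t) = 2 := by
  unfold bd
  rw [if_neg (by omega)]

omit [Fintype V] [DecidableEq V] in
private theorem pb3_dg0 (G : SimpleGraph V) (x : V) : dg G {x} x = 0 := by
  classical
  unfold dg
  rw [Finset.card_eq_zero]
  ext u
  simp only [Finset.mem_filter, Finset.mem_singleton, Finset.notMem_empty, iff_false, not_and]
  intro h h1
  rw [h] at h1
  exact G.loopless.irrefl _ h1

private theorem pb3_idx (t i : ℕ) (hi : i < 2 * t) :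
    (Fin.ofNat (2 * t + 1) (i + 1) : Fin (2 * t + 1)).val = i + 1 :=
  Nat.mod_eq_of_lt (by omega)

private theorem pb3_adjG {G : SimpleGraph V} {t : ℕ} {C : Fin (2 * t + 1) → Finset V}
    {y : Fin (2 * t + 1) → V}
    (h : Glue G (2 * t) (SimpleGraph.cycleGraph (2 * t + 1)) C y) {i j : Fin (2 * t + 1)}
    (hB : (SimpleGraph.cycleGraph (2 * t + 1)).Adj i j) : G.Adj (y i) (y j) :=
  (h.adj i j hB.ne (y i) (gt_conn (h.gt i)).1 (y j) (gt_conn (h.gt j)).1).2 ⟨rfl, rfl, hB⟩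

private theorem pb3_adj_succ {G : SimpleGraph V} {t : ℕ} {C : Fin (2 * t + 1) → Finset V}
    {y : Fin (2 * t + 1) → V}
    (h : Glue G (2 * t) (SimpleGraph.cycleGraph (2 * t + 1)) C y) {i : ℕ} (hi : i + 1 < 2 * t) :
    G.Adj (y (Fin.ofNat (2 * t + 1) (i + 1))) (y (Fin.ofNat (2 * t + 1) (i + 1 + 1))) := by
  apply pb3_adjG h
  rw [SimpleGraph.cycleGraph_adj']
  right
  have h1 := pb3_idx t i (by omega)
  have h2 := pb3_idx t (i + 1) hi
  rw [Fin.sub_val_of_le (by rw [Fin.le_def, h1, h2]; omega), h1, h2]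
  omega

private theorem pb3_adj_first {G : SimpleGraph V} {t : ℕ} (ht : 1 ≤ t)
    {C : Fin (2 * t + 1) → Finset V} {y : Fin (2 * t + 1) → V}
    (h : Glue G (2 * t) (SimpleGraph.cycleGraph (2 * t + 1)) C y) :
    G.Adj (y 0) (y (Fin.ofNat (2 * t + 1) (0 + 1))) := by
  apply pb3_adjG h
  rw [SimpleGraph.cycleGraph_adj']
  right
  have h1 := pb3_idx t 0 (by omega)
  have h0 : (0 : Fin (2 * t + 1)).val = 0 := rfl
  rw [Fin.sub_val_of_le (by rw [Fin.le_def, h1, h0]; omega), h1, h0]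

private theorem pb3_adj_last {G : SimpleGraph V} {t : ℕ} (ht : 1 ≤ t)
    {C : Fin (2 * t + 1) → Finset V} {y : Fin (2 * t + 1) → V}
    (h : Glue G (2 * t) (SimpleGraph.cycleGraph (2 * t + 1)) C y) :
    G.Adj (y 0) (y (Fin.ofNat (2 * t + 1) (2 * t - 1 + 1))) := by
  apply pb3_adjG h
  rw [SimpleGraph.cycleGraph_adj']
  left
  have h1 := pb3_idx t (2 * t - 1) (by omega)
  have h0 : (0 : Fin (2 * t + 1)).val = 0 := rfl
  rw [Fin.val_sub, h1, h0]
  have h3 : 2 * t + 1 - (2 * t - 1 + 1) + 0 = 1 := by omega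
  rw [h3]
  exact Nat.mod_eq_of_lt (by omega)

private theorem pb3_c (P : Par) : P.c2 ≤ 6 * P.lam ∧ P.c2 ≤ 4 * P.lam + P.tau ∧ 2 * P.lam ≤ P.c2 ∧
    P.c3 ≤ P.c2 + 3 * P.lam ∧ P.c3 ≤ 7 * P.lam + P.tau := by
  have h1 : P.c2 ≤ 6 * P.lam := min_le_left _ _
  have h2 : P.c2 ≤ 4 * P.lam + P.tau := min_le_right _ _
  have h3 : 2 * P.lam ≤ P.c2 := le_min (by omega) (by omega)
  refine ⟨h1, h2, h3, ?_, ?_⟩
  · unfold Par.c3
    split_ifs
    · exact min_le_left _ _
    · exact (min_le_left _ _).trans (min_le_left _ _)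
  · unfold Par.c3
    split_ifs
    · exact min_le_right _ _
    · exact (min_le_left _ _).trans (min_le_right _ _)

/-- Everything that is needed from the chain of the children. -/
private theorem pb3_main (P : Par) {S1 S2 S3 T2 U2 U3 U4 V2 : AS P.K → Prop}
    {V3 : AS3 P.K → Prop}
    (hcl : P.Closed S1 S2 S3 T2 U2 U3 U4 V2 V3) {G : SimpleGraph V} {N : V → Finset (Fin 8)}
    (hfr : FreeN P G N) (t : ℕ) (ht : 1 ≤ t) {C : Fin (2 * t + 1) → Finset V}
    {y : Fin (2 * t + 1) → V} (h : Glue G (2 * t) (SimpleGraph.cycleGraph (2 * t + 1)) C y)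
    (hf : Full G N (univ.biUnion C) (y 0)) (hi : ∀ i, InS P S1 S2 S3 G N (C i) (y i)) :
    ∃ T : AS P.K, stt P G N (univ.biUnion C) (y 0) = P.cls (stt P G N (C 0) (y 0)) T ∧
      mu P G N (univ.biUnion C) (y 0) = P.wt (stt P G N (C 0) (y 0)).A T.A ∧
      P.c2 ≤ T.ld ∧ P.c3 ≤ T.ld + P.c1 ∧
      (T.ld + 2 * P.lam < P.aw T.A → ∃ T' : AS P.K, T'.A = T.A ∧ T'.ld = T.ld ∧
        P.cls (stt P G N (C 0) (y 0)) T' = P.cls (stt P G N (C 0) (y 0)) T ∧
        ¬ P.ex2 (N (y 0) ∩ T'.N₁) ∧ ¬ P.ex2 (N (y 0) ∩ T'.N₂) ∧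
        ((T2 T' ∧ P.WfC (4 * P.lam + P.tau) T' ∧ ¬ P.ex3 (N (y 0) ∩ T'.N₁ ∩ T'.N₂)) ∨
          (U4 T' ∧ P.WfC (8 * P.lam) T'))) := by
  obtain ⟨hF, hc⟩ := full_glue h hf
  rw [pb3_bd t] at hc
  set X : ℕ → AS P.K := fun i => stt P G N (C (Fin.ofNat (2 * t + 1) (i + 1)))
      (y (Fin.ofNat (2 * t + 1) (i + 1))) with hXdef
  have hne : ∀ i, i < 2 * t → (Fin.ofNat (2 * t + 1) (i + 1) : Fin (2 * t + 1)) ≠ 0 := by
    intro i hi0 h1
    have h2 := pb3_idx t i hi0
    rw [h1] at h2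
    have h0 : (0 : Fin (2 * t + 1)).val = 0 := rfl
    rw [h0] at h2
    omega
  have hXw : ∀ i < 2 * t, P.Wf 2 (X i) := by
    intro i hi0
    have h1 := hc _ (hne i hi0)
    exact stt_wf P (h.gt _) (hF _) 2 (by omega)
  have hXS : ∀ i < 2 * t, (X i).ld + P.c2 < P.aw (X i).A → S2 (X i) := by
    intro i hi0 hv
    have h1 := hc _ (hne i hi0)
    refine (hi _).2.1 (by omega) ?_
    rw [mu_eq P (by omega)]
    exact hv
  have hXex : ∀ i, i + 1 < 2 * t → ¬ P.ex2 ((X i).N₁ ∩ (X (i + 1)).N₁) := by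
    intro i hi0
    exact hfr.f2 _ _ (pb3_adj_succ h hi0)
  obtain ⟨-, -, hU4⟩ := chain_mem P hcl X (2 * t) hXw hXS hXex
  obtain ⟨hst, hmu⟩ := stt_cyc P t ht h hf X (fun i => rfl)
  obtain ⟨hN1, hN2⟩ := chs_N P X (2 * t - 1) rfl
  have hwf := chs_wf P X (2 * t - 1) (fun i hi0 => hXw i (by omega))
  have hm : 2 * (2 * t - 1 + 1) * P.lam = 4 * t * P.lam := by
    have h1 : 2 * t - 1 + 1 = 2 * t := by omega
    rw [h1]
    ring
  rw [hm] at hwf
  obtain ⟨hc1, hc2, hc3, hc4, hc5⟩ := pb3_c P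
  have e1 : ¬ P.ex2 (N (y 0) ∩ (chs P X (2 * t - 1)).N₁) := by
    rw [hN1]
    exact hfr.f2 _ _ (pb3_adj_last ht h)
  have e2 : ¬ P.ex2 (N (y 0) ∩ (chs P X (2 * t - 1)).N₂) := by
    rw [hN2]
    exact hfr.f2 _ _ (pb3_adj_first ht h)
  have hc1' : P.c1 = 3 * P.lam := rfl
  by_cases h1 : t = 1
  · subst h1
    rw [if_pos rfl] at hst
    have hld : 4 * P.lam ≤ (chs P X (2 * 1 - 1)).ld := by
      have h2 := hwf.2
      omega
    refine ⟨P.addT (chs P X (2 * 1 - 1)), hst, hmu, ?_, ?_, ?_⟩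
    · change P.c2 ≤ (chs P X (2 * 1 - 1)).ld + P.tau
      omega
    · change P.c3 ≤ (chs P X (2 * 1 - 1)).ld + P.tau + P.c1
      omega
    · intro hv
      have hch : chs P X (2 * 1 - 1) = P.chn (X 0) (X 1) := rfl
      have hv' : P.ldE (X 0) (X 1) + P.tau + 2 * P.lam < P.aw (P.chn (X 0) (X 1)).A := hv
      have hw0 := hXw 0 (by omega)
      have hw1 := hXw 1 (by omega)
      have hwfT : P.WfC (4 * P.lam + P.tau) (P.addT (chs P X (2 * 1 - 1))) :=
        ⟨hwf.1, Nat.add_le_add_right hld P.tau⟩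
      have e3 : ¬ P.ex3 (N (y 0) ∩ (X 1).N₁ ∩ (X 0).N₁) := by
        refine hfr.f3 _ _ _ (pb3_adj_last ht h) ?_ (pb3_adj_first ht h)
        exact (pb3_adj_succ h (i := 0) (by omega)).symm
      rw [hN1] at e1
      rw [hN2] at e2
      rcases pair_mem P hcl (X 0) (X 1) hw0 hw1 (hXS 0 (by omega)) (hXS 1 (by omega))
        (hXex 0 (by omega)) hv' with h2 | h2
      · refine ⟨P.addT (P.chn (X 0) (X 1)), rfl, rfl, rfl, e1, ?_, Or.inl ⟨h2, hwfT, ?_⟩⟩
        · change ¬ P.ex2 (N (y 0) ∩ (X 0).N₂)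
          exact e2
        · exact e3
      · have hA : (P.chn (X 1) (X 0)).A = (P.chn (X 0) (X 1)).A :=
          (wt_symm P 2 (X 0) (X 1) hw0 hw1).2.symm
        have hL : P.ldE (X 1) (X 0) = P.ldE (X 0) (X 1) := by
          unfold Par.ldE
          rw [Finset.inter_comm (X 1).N₁ (X 0).N₁]
          ring
        refine ⟨P.addT (P.chn (X 1) (X 0)), hA, ?_, ?_, ?_, ?_, Or.inl ⟨h2, ?_, ?_⟩⟩
        · change P.ldE (X 1) (X 0) + P.tau = P.ldE (X 0) (X 1) + P.tau
          rw [hL]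
        · rw [hch]
          unfold Par.cls
          refine AS.ext ?_ rfl rfl ?_
          · funext k
            change sb _ ((P.chn (X 1) (X 0)).A k) = sb _ ((P.chn (X 0) (X 1)).A k)
            rw [hA]
          · change (stt P G N (C 0) (y 0)).ld + (P.ldE (X 1) (X 0) + P.tau) +
                P.tau * (N (y 0) ∩ (X 0).N₁).card + P.tau * (N (y 0) ∩ (X 1).N₁).card =
              (stt P G N (C 0) (y 0)).ld + (P.ldE (X 0) (X 1) + P.tau) +
                P.tau * (N (y 0) ∩ (X 1).N₁).card + P.tau * (N (y 0) ∩ (X 0).N₁).card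
            rw [hL]
            ring
        · exact e2
        · exact e1
        · refine ⟨fun k => ?_, ?_⟩
          · have h3 := hwfT.1 k
            rw [hch] at h3
            change (P.chn (X 1) (X 0)).A k = ∅ ∨ ((P.chn (X 1) (X 0)).A k).card = 2
            rw [hA]
            exact h3
          · change 4 * P.lam + P.tau ≤ P.ldE (X 1) (X 0) + P.tau
            rw [hL]
            exact hwfT.2
        · change ¬ P.ex3 (N (y 0) ∩ (X 0).N₁ ∩ (X 1).N₁)
          rw [Finset.inter_right_comm]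
          exact e3
  · rw [if_neg h1] at hst
    have hld : 8 * P.lam ≤ (chs P X (2 * t - 1)).ld := by
      have h2 := hwf.2
      have h3 : 8 * P.lam ≤ 4 * t * P.lam := Nat.mul_le_mul_right _ (by omega)
      omega
    refine ⟨chs P X (2 * t - 1), hst, hmu, by omega, by omega, fun hv => ?_⟩
    refine ⟨chs P X (2 * t - 1), rfl, rfl, rfl, e1, e2, Or.inr ⟨?_, hwf.1, hld⟩⟩
    exact hU4 (2 * t - 1) (by omega) (by omega) (by omega) hv

/-- Cycle block: viable pieces are in the closed system.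
Proof. `x = stt (C 0)`, chain `t = chs P X (2 t - 1)` of the children (`stt_cyc`); all children have rank
two. Rank of the union `r ∈ {1, 2}` (`r = 3` is impossible: `dg ≥ bd = 2`), `C 0` has rank `r + 2`.
Viable: `ldC x t' + c_r < wt x.A t.A ≤ min (aw x) (aw t)`, `t' = addT t` or `t`. `x.ld ≥ (2 - r) lam`.
`m = 2`: `pair_mem`: needs `ldE (X 0) (X 1) + tau + 2 lam < aw t`: `(2 - r) lam + c_r ≥ 2 lam`
(`r = 1`: `lam + 3 lam`; `r = 2`: `c2 ≥ 2 lam`). If `T2` holds for the other order `chn (X 1) (X 0)`: `cls`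
is symmetric: same sets (`wt_symm`), `N₁`, `N₂` exchanged, so `cls x` is the same state.
`m ≥ 4`: `chain_mem` with `j = m - 1`: `U4` (`t.ld + 2 lam < aw t`). `r = 1`: `C 0` is viable for `c3`:
`t'.ld + c1 ≥ c3` (`m = 2`: `4 lam + tau + 3 lam`; `m ≥ 4`: `8 lam + 3 lam ≥ c2 + 3 lam`); rules `tc1`, `uc1`.
`r = 2`: `stt_triv` for `C 0`; `cls (tr0 P) t' = trv t'.A t'.ld`; rules `tc2`, `uc2`.
Exclusions: `f2` for `y 0 ~ y 1`, `y 0 ~ y m`, `y i ~ y (i+1)`; `f3` for `m = 2`. -/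
theorem step_cyc (P : Par) {S1 S2 S3 T2 U2 U3 U4 V2 : AS P.K → Prop} {V3 : AS3 P.K → Prop}
    (hcl : P.Closed S1 S2 S3 T2 U2 U3 U4 V2 V3) {G : SimpleGraph V} {N : V → Finset (Fin 8)}
    (hfr : FreeN P G N) (t : ℕ) (ht : 1 ≤ t) {C : Fin (2 * t + 1) → Finset V}
    {y : Fin (2 * t + 1) → V} (h : Glue G (2 * t) (SimpleGraph.cycleGraph (2 * t + 1)) C y)
    (hf : Full G N (univ.biUnion C) (y 0)) (hi : ∀ i, InS P S1 S2 S3 G N (C i) (y i)) :
    InS P S1 S2 S3 G N (univ.biUnion C) (y 0) := by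
  obtain ⟨T, hst, hmu, hTc2, hTc3, hT⟩ := pb3_main P hcl hfr t ht h hf hi
  obtain ⟨hF, -⟩ := full_glue h hf
  have hdg := dg_glue_root h 0
  rw [pb3_bd t] at hdg
  obtain ⟨hc1, hc2, hc3, hc4, hc5⟩ := pb3_c P
  have hc1' : P.c1 = 3 * P.lam := rfl
  have hldp : ldp P G N (univ.biUnion C) = P.ldC (stt P G N (C 0) (y 0)) T :=
    congrArg AS.ld hst
  obtain ⟨hw1, hw2⟩ := pb3_wt_le P (stt P G N (C 0) (y 0)).A T.A
  have hldC : (stt P G N (C 0) (y 0)).ld + T.ld ≤ P.ldC (stt P G N (C 0) (y 0)) T := by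
    unfold Par.ldC
    omega
  have hlow := ldp_lower P (h.gt 0) (hF 0)
  have hlow' : ((N (y 0)).card + dg G (C 0) (y 0)) * P.lam ≤ (stt P G N (C 0) (y 0)).ld := hlow
  refine ⟨fun hr hv => ?_, fun hr hv => ?_, fun hr hv => ?_⟩
  · rw [hldp, hmu] at hv
    rw [hst]
    have hr0 : dg G (C 0) (y 0) + (N (y 0)).card = 1 := by omega
    have hr1 : (N (y 0)).card + dg G (C 0) (y 0) = 1 := by omega
    rw [hr1, one_mul] at hlow'
    have hS3 : S3 (stt P G N (C 0) (y 0)) := by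
      refine (hi 0).2.2 hr0 ?_
      rw [mu_eq P (by omega)]
      change (stt P G N (C 0) (y 0)).ld + P.c3 < _
      omega
    have hW3 : P.Wf 3 (stt P G N (C 0) (y 0)) := stt_wf P (h.gt 0) (hF 0) 3 (by omega)
    obtain ⟨T', hA, hL, hcls, e1, e2, hcase⟩ := hT (by omega)
    have hC : P.ldC (stt P G N (C 0) (y 0)) T' = P.ldC (stt P G N (C 0) (y 0)) T :=
      congrArg AS.ld hcls
    rw [← hcls]
    have hv' : P.ldC (stt P G N (C 0) (y 0)) T' + P.c1 <
        P.wt (stt P G N (C 0) (y 0)).A T'.A := by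
      rw [hC, hA]
      exact hv
    rcases hcase with ⟨h1, h2, h3⟩ | ⟨h1, h2⟩
    · exact hcl.tc1 _ _ hS3 hW3 h1 h2 e1 e2 h3 hv'
    · exact hcl.uc1 _ _ hS3 hW3 h1 h2 e1 e2 hv'
  · rw [hldp, hmu] at hv
    rw [hst]
    have hr0 : dg G (C 0) (y 0) + (N (y 0)).card = 0 := by omega
    obtain ⟨-, htr⟩ := stt_triv P (h.gt 0) hr0
    obtain ⟨T', hA, hL, hcls, e1, e2, hcase⟩ := hT (by omega)
    have haw : P.wt (stt P G N (C 0) (y 0)).A T.A = P.aw T.A := by
      rw [htr]
      exact pb3_wt_univ P T.A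
    rw [← hcls, htr]
    have hcl' : P.cls (tr0 P) T' = P.trv T'.A T'.ld := by
      unfold Par.cls Par.trv tr0
      refine AS.ext rfl rfl rfl ?_
      change 0 + T'.ld + P.tau * (∅ ∩ T'.N₁).card + P.tau * (∅ ∩ T'.N₂).card = T'.ld
      simp
    rw [hcl']
    have hv' : T'.ld + P.c2 < P.aw T'.A := by
      rw [hL, hA]
      omega
    rcases hcase with ⟨h1, h2, h3⟩ | ⟨h1, h2⟩
    · exact hcl.tc2 _ h1 h2 hv'
    · exact hcl.uc2 _ h1 h2 hv'
  · exfalso
    omega

/-- Final cycle block. `|N (y 0)| = 2`; rules `tc0`, `uc0`; the base is viable: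
`t'.ld ≥ 4 lam + tau` or `≥ 8 lam`, both `≥ c2`; `x.ld ≥ 2 lam` gives the viability of the chain. -/
theorem final_cyc (P : Par) {S1 S2 S3 T2 U2 U3 U4 V2 : AS P.K → Prop} {V3 : AS3 P.K → Prop}
    (hcl : P.Closed S1 S2 S3 T2 U2 U3 U4 V2 V3) {G : SimpleGraph V} {N : V → Finset (Fin 8)}
    (hfr : FreeN P G N) (t : ℕ) (ht : 1 ≤ t) {C : Fin (2 * t + 1) → Finset V}
    {y : Fin (2 * t + 1) → V} (h : Glue G (2 * t) (SimpleGraph.cycleGraph (2 * t + 1)) C y)
    (hf : Full G N (univ.biUnion C) (y 0)) (hi : ∀ i, InS P S1 S2 S3 G N (C i) (y i))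
    (h0 : C 0 = {y 0}) (hr : dg G (univ.biUnion C) (y 0) + (N (y 0)).card = 4) :
    mu P G N (univ.biUnion C) (y 0) ≤ ldp P G N (univ.biUnion C) := by
  obtain ⟨T, hst, hmu, hTc2, hTc3, hT⟩ := pb3_main P hcl hfr t ht h hf hi
  obtain ⟨hF, -⟩ := full_glue h hf
  have hdg := dg_glue_root h 0
  have hd0 : dg G (C 0) (y 0) = 0 := by
    rw [h0]
    exact pb3_dg0 G (y 0)
  rw [pb3_bd t, hd0] at hdg
  have hcard : (N (y 0)).card = 2 := by omega
  obtain ⟨hc1, hc2, hc3, hc4, hc5⟩ := pb3_c P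
  by_contra hcon
  rw [not_le] at hcon
  have hldp : ldp P G N (univ.biUnion C) = P.ldC (stt P G N (C 0) (y 0)) T :=
    congrArg AS.ld hst
  obtain ⟨hb1, hb2⟩ := stt_base P G N (y 0)
  have hS : stt P G N (C 0) (y 0) = P.bs (N (y 0)) := by
    rw [h0]
    exact hb1
  have hbw : P.bw (N (y 0)) = P.aw (P.bs (N (y 0))).A := by
    have h1 : dg G {y 0} (y 0) + (N (y 0)).card < 4 := by
      rw [pb3_dg0]
      omega
    rw [← hb2, mu_eq P h1, hb1]
  rw [hldp, hmu, hS] at hcon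
  have hbld : (P.bs (N (y 0))).ld = 2 * P.lam + P.tau * eH P.H (N (y 0)) := by
    change P.lam * (N (y 0)).card + P.tau * eH P.H (N (y 0)) = _
    rw [hcard]
    ring
  obtain ⟨hw1, hw2⟩ := pb3_wt_le P (P.bs (N (y 0))).A T.A
  have hldC : (P.bs (N (y 0))).ld + T.ld ≤ P.ldC (P.bs (N (y 0))) T := by
    unfold Par.ldC
    omega
  obtain ⟨T', hA, hL, hcls, e1, e2, hcase⟩ := hT (by omega)
  rw [hS] at hcls
  have hC : P.ldC (P.bs (N (y 0))) T' = P.ldC (P.bs (N (y 0))) T := congrArg AS.ld hcls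
  have hv : 2 * P.lam + P.tau * eH P.H (N (y 0)) + P.c2 < P.bw (N (y 0)) := by
    rw [hbw]
    omega
  have hres : P.wt (P.bs (N (y 0))).A T'.A ≤ P.ldC (P.bs (N (y 0))) T' := by
    rcases hcase with ⟨h1, h2, h3⟩ | ⟨h1, h2⟩
    · exact hcl.tc0 _ (hfr.lab _) hcard (hfr.f1 _) hv _ h1 h2 e1 e2 h3
    · exact hcl.uc0 _ (hfr.lab _) hcard (hfr.f1 _) hv _ h1 h2 e1 e2
  rw [hA, hC] at hres
  omega

end Pool.Agent.MP_528dc0_co

end

section

open Finset

namespace Pool.Agent.MP_528dc0_co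

variable {V : Type} [Fintype V] [DecidableEq V]

theorem pb4_adj {m : ℕ} {B : SimpleGraph (Fin (m + 1))} (h : Blk m B) (hm : m = 3)
    (i j : Fin (m + 1)) (hij : i ≠ j) : B.Adj i j := by
  cases h with
  | k2 => omega
  | odd t ht => omega
  | k4 => exact hij

theorem pb4_adj_roots {G : SimpleGraph V} {B : SimpleGraph (Fin (3 + 1))}
    {C : Fin (3 + 1) → Finset V} {y : Fin (3 + 1) → V} (h : Glue G 3 B C y)
    (i j : Fin (3 + 1)) (hij : i ≠ j) : G.Adj (y i) (y j) :=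
  (h.adj i j hij (y i) (gt_conn (h.gt i)).1 (y j) (gt_conn (h.gt j)).1).2
    ⟨rfl, rfl, pb4_adj h.blk rfl i j hij⟩

theorem pb4_kf (P : Par) {G : SimpleGraph V} {N : V → Finset (Fin 8)} (hfr : FreeN P G N)
    {B : SimpleGraph (Fin (3 + 1))} {C : Fin (3 + 1) → Finset V} {y : Fin (3 + 1) → V}
    (h : Glue G 3 B C y) : P.kf = false := by
  cases hkf : P.kf with
  | false => rfl
  | true =>
    exfalso
    have hinj : Function.Injective y := by
      intro i j hij
      by_contra hne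
      have h1 := pb4_adj_roots h i j hne
      rw [hij] at h1
      exact G.irrefl h1
    refine hfr.f4 hkf (Finset.univ.image y) ⟨?_, ?_⟩
    · intro a ha b hb hab
      rw [Finset.mem_coe, Finset.mem_image] at ha hb
      obtain ⟨i, -, rfl⟩ := ha
      obtain ⟨j, -, rfl⟩ := hb
      exact pb4_adj_roots h i j fun hij => hab (by rw [hij])
    · rw [Finset.card_image_of_injective _ hinj]
      rfl

theorem pb4_wt_le_left (P : Par) (A B : Fin P.K → Finset (Fin 4)) : P.wt A B ≤ P.aw A := by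
  classical
  unfold Par.wt Par.aw
  refine Finset.sum_le_sum fun k _ => ?_
  by_cases h : cmp (A k) (B k)
  · rw [if_pos h, if_pos (h.1.mono h.2)]
  · rw [if_neg h]
    exact Nat.zero_le _

theorem pb4_wt_le_right (P : Par) (A B : Fin P.K → Finset (Fin 4)) : P.wt A B ≤ P.aw B := by
  classical
  unfold Par.wt Par.aw
  refine Finset.sum_le_sum fun k _ => ?_
  by_cases h : cmp (A k) (B k)
  · rw [if_pos h, if_pos h.1]
  · rw [if_neg h]
    exact Nat.zero_le _

theorem pb4_aw_bs (P : Par) (N : Finset (Fin 8)) : P.aw (P.bs N).A ≤ P.bw N := by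
  classical
  unfold Par.aw Par.bw
  refine Finset.sum_le_sum fun k _ => ?_
  by_cases h : (N.image (P.φ k)).card = N.card
  · rw [if_pos h]
    split_ifs
    · exact le_rfl
    · exact Nat.zero_le _
  · have h1 : (P.bs N).A k = ∅ := if_neg h
    rw [h1, if_neg Finset.not_nonempty_empty, if_neg h]

theorem pb4_wt_tr0 (P : Par) (B : Fin P.K → Finset (Fin 4)) : P.wt (tr0 P).A B = P.aw B := by
  classical
  unfold Par.wt Par.aw
  refine Finset.sum_congr rfl fun k _ => ?_
  have h1 : cmp ((tr0 P).A k) (B k) ↔ (B k).Nonempty :=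
    ⟨fun h => h.1, fun h => ⟨h, Finset.subset_univ _⟩⟩
  by_cases h : (B k).Nonempty
  · rw [if_pos h, if_pos (h1.2 h)]
  · rw [if_neg h, if_neg (fun h' => h (h1.1 h'))]

theorem pb4_aw_kp (P : Par) (A B : Fin P.K → Finset (Fin 4)) :
    P.aw (fun k => kp (A k) (B k)) = P.wt A B := by
  classical
  unfold Par.wt Par.aw
  refine Finset.sum_congr rfl fun k _ => ?_
  beta_reduce
  by_cases h : cmp (A k) (B k)
  · have h1 : kp (A k) (B k) = B k := if_pos h
    rw [h1, if_pos h, if_pos h.1]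
  · have h1 : kp (A k) (B k) = ∅ := if_neg h
    rw [h1, if_neg h, if_neg Finset.not_nonempty_empty]

theorem pb4_kp (A B : Finset (Fin 4)) : kp A B = ∅ ∨ kp A B = B := by
  classical
  by_cases h : cmp A B
  · exact Or.inr (if_pos h)
  · exact Or.inl (if_neg h)

theorem pb4_c3 (P : Par) (hkf : P.kf = false) : P.c3 ≤ 3 * P.lam + 4 * P.tau := by
  unfold Par.c3
  rw [if_neg (by rw [hkf]; decide)]
  exact min_le_right _ _

theorem pb4_child (P : Par) {G : SimpleGraph V} {N : V → Finset (Fin 8)}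
    {B : SimpleGraph (Fin (3 + 1))} {C : Fin (3 + 1) → Finset V} {y : Fin (3 + 1) → V}
    (h : Glue G 3 B C y) (hf : Full G N (univ.biUnion C) (y 0)) (i : Fin (3 + 1)) (hi : i ≠ 0) :
    P.Wf 3 (stt P G N (C i) (y i)) ∧ dg G (C i) (y i) + (N (y i)).card = 1 := by
  obtain ⟨hfull, hchild⟩ := full_glue h hf
  have hc := hchild i hi
  have hbd : bd 3 = 3 := rfl
  rw [hbd] at hc
  exact ⟨stt_wf P (h.gt i) (hfull i) 3 (by omega), by omega⟩

theorem pb4_viable (P : Par) {S1 S2 S3 : AS P.K → Prop} {G : SimpleGraph V}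
    {N : V → Finset (Fin 8)} {B : SimpleGraph (Fin (3 + 1))} {C : Fin (3 + 1) → Finset V}
    {y : Fin (3 + 1) → V} (h : Glue G 3 B C y) (hf : Full G N (univ.biUnion C) (y 0))
    (i : Fin (3 + 1)) (hi : i ≠ 0) (hin : InS P S1 S2 S3 G N (C i) (y i)) :
    (stt P G N (C i) (y i)).ld + P.c3 < P.aw (stt P G N (C i) (y i)).A →
      S3 (stt P G N (C i) (y i)) := by
  intro hv
  have h1 := (pb4_child P h hf i hi).2
  have h2 : mu P G N (C i) (y i) = P.aw (stt P G N (C i) (y i)).A := mu_eq P (by omega)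
  refine hin.2.2 h1 ?_
  rw [h2]
  exact hv

theorem pb4_core (P : Par) {S1 S2 S3 T2 U2 U3 U4 V2 : AS P.K → Prop} {V3 : AS3 P.K → Prop}
    (hcl : P.Closed S1 S2 S3 T2 U2 U3 U4 V2 V3) (hkf : P.kf = false) (X1 X2 X3 : AS P.K)
    (hw1 : P.Wf 3 X1) (hw2 : P.Wf 3 X2) (hw3 : P.Wf 3 X3)
    (hs1 : X1.ld + P.c3 < P.aw X1.A → S3 X1) (hs2 : X2.ld + P.c3 < P.aw X2.A → S3 X2)
    (hs3 : X3.ld + P.c3 < P.aw X3.A → S3 X3)
    (hv : (P.tri3 (P.chn X1 X2) X3).ld + P.lam < P.aw (P.tri3 (P.chn X1 X2) X3).A) :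
    ∃ v', V3 v' ∧ P.Wf3 v' ∧ v'.A = (P.tri3 (P.chn X1 X2) X3).A ∧
      v'.ld = (P.tri3 (P.chn X1 X2) X3).ld ∧ v'.N₃ = X3.N₁ ∧
      ((v'.N₁ = X2.N₁ ∧ v'.N₂ = X1.N₂) ∨ (v'.N₁ = X1.N₂ ∧ v'.N₂ = X2.N₁)) := by
  have hc3 := pb4_c3 P hkf
  obtain ⟨hsym, hchn⟩ := wt_symm P 3 X1 X2 hw1 hw2
  have a1 : P.aw (P.tri3 (P.chn X1 X2) X3).A = P.wt X3.A (P.chn X1 X2).A := pb4_aw_kp P _ _
  have a2 : P.aw (P.chn X1 X2).A = P.wt X2.A X1.A := pb4_aw_kp P _ _
  have b1 := pb4_wt_le_left P X3.A (P.chn X1 X2).A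
  have b2 := pb4_wt_le_right P X3.A (P.chn X1 X2).A
  have b3 := pb4_wt_le_left P X2.A X1.A
  have b4 := pb4_wt_le_right P X2.A X1.A
  have l1 : P.lam ≤ X1.ld := by have := hw1.2.1; omega
  have l2 : P.lam ≤ X2.ld := by have := hw2.2.1; omega
  have l3 : P.lam ≤ X3.ld := by have := hw3.2.1; omega
  have v1 : (P.tri3 (P.chn X1 X2) X3).ld = P.ldE X1 X2 + X3.ld +
      P.tau * (X3.N₁ ∩ X2.N₁).card + P.tau * (X3.N₁ ∩ X1.N₂).card + 4 * P.tau := rfl
  have v2 : P.ldE X1 X2 = X1.ld + X2.ld + P.tau * (X1.N₁ ∩ X2.N₁).card := rfl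
  have s1 := hs1 (by omega)
  have s2 := hs2 (by omega)
  have s3 := hs3 (by omega)
  have hE : P.ldE X2 X1 = P.ldE X1 X2 := by
    unfold Par.ldE
    rw [Finset.inter_comm X2.N₁, Nat.add_comm X2.ld]
  have hWV : ∀ a b : AS P.K, P.Wf 3 a → P.Wf 3 b → P.WfV (P.chn a b) := by
    intro a b ha hb
    refine ⟨fun k => ?_, ?_⟩
    · rcases pb4_kp (b.A k) (a.A k) with h | h
      · exact Or.inl h
      · show kp (b.A k) (a.A k) = ∅ ∨ (kp (b.A k) (a.A k)).card = 3
        rw [h]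
        exact ha.1 k
    · have h1 := ha.2.1
      have h2 := hb.2.1
      show 2 * P.lam ≤ a.ld + b.ld + P.tau * (a.N₁ ∩ b.N₁).card
      omega
  have hW3 : ∀ w : AS P.K, P.WfV w → P.Wf3 (P.tri3 w X3) := by
    intro w hw
    refine ⟨fun k => ?_, ?_⟩
    · rcases pb4_kp (X3.A k) (w.A k) with h | h
      · exact Or.inl h
      · show kp (X3.A k) (w.A k) = ∅ ∨ (kp (X3.A k) (w.A k)).card = 3
        rw [h]
        exact hw.1 k
    · have h1 := hw.2
      show 3 * P.lam + 4 * P.tau ≤ w.ld + X3.ld + P.tau * (X3.N₁ ∩ w.N₁).card +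
        P.tau * (X3.N₁ ∩ w.N₂).card + 4 * P.tau
      omega
  rcases hcl.v2 hkf X1 X2 s1 hw1 s2 hw2 (by omega) with h | h
  · refine ⟨P.tri3 (P.chn X1 X2) X3, hcl.v3 hkf _ _ h (hWV _ _ hw1 hw2) s3 hw3 ?_,
      hW3 _ (hWV _ _ hw1 hw2), rfl, rfl, rfl, Or.inl ⟨rfl, rfl⟩⟩
    rw [← a1]
    exact hv
  · have hld : (P.tri3 (P.chn X2 X1) X3).ld = (P.tri3 (P.chn X1 X2) X3).ld := by
      show P.ldE X2 X1 + X3.ld + P.tau * (X3.N₁ ∩ X1.N₁).card +
        P.tau * (X3.N₁ ∩ X2.N₂).card + 4 * P.tau = P.ldE X1 X2 + X3.ld +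
        P.tau * (X3.N₁ ∩ X2.N₁).card + P.tau * (X3.N₁ ∩ X1.N₂).card + 4 * P.tau
      rw [hE, ← hw1.2.2, ← hw2.2.2]
      ring
    have hA : (P.tri3 (P.chn X2 X1) X3).A = (P.tri3 (P.chn X1 X2) X3).A := by
      funext k
      show kp (X3.A k) ((P.chn X2 X1).A k) = kp (X3.A k) ((P.chn X1 X2).A k)
      rw [hchn]
    refine ⟨P.tri3 (P.chn X2 X1) X3, hcl.v3 hkf _ _ h (hWV _ _ hw2 hw1) s3 hw3 ?_,
      hW3 _ (hWV _ _ hw2 hw1), hA, hld, rfl, Or.inr ⟨hw1.2.2, hw2.2.2.symm⟩⟩
    have h1 : P.wt X3.A (P.chn X2 X1).A = P.wt X3.A (P.chn X1 X2).A := by rw [hchn]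
    have h2 : (P.tri3 (P.chn X2 X1) X3).ld + P.lam < P.wt X3.A (P.chn X2 X1).A := by
      rw [h1, ← a1, hld]
      exact hv
    exact h2

/-- `K₄` block: viable pieces are in the closed system (`kf = false`: if `kf = true` the roots
`y 0, …, y 3` contradict `f4`).
Proof. All children have rank three, the union rank `r = 1` (`dg ≥ 3`), so `C 0` has rank four:
`stt_triv`. `stt_k4` with `v`; viable: `v.ld + c1 < aw v.A`. Each child is viable for
`c3 ≤ 3 lam + 4 tau`: `v.ld ≥ X i .ld + 2 lam + 4 tau`, and `c1 = 3 lam`. `V2` of the pair (rule `v2`; one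
of the two orders; if the other order, use `v' = tri3 (chn (X 2) (X 1)) (X 3)`: same sets, same
load, `N₁`, `N₂` exchanged, so `trv` is the same), then `v3`, then `vc1`. -/
theorem step_k4 (P : Par) {S1 S2 S3 T2 U2 U3 U4 V2 : AS P.K → Prop} {V3 : AS3 P.K → Prop}
    (hcl : P.Closed S1 S2 S3 T2 U2 U3 U4 V2 V3) {G : SimpleGraph V} {N : V → Finset (Fin 8)}
    (hfr : FreeN P G N) {B : SimpleGraph (Fin (3 + 1))} {C : Fin (3 + 1) → Finset V}
    {y : Fin (3 + 1) → V} (h : Glue G 3 B C y) (hf : Full G N (univ.biUnion C) (y 0))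
    (hi : ∀ i, InS P S1 S2 S3 G N (C i) (y i)) :
    InS P S1 S2 S3 G N (univ.biUnion C) (y 0) := by
  obtain ⟨hfull, hchild⟩ := full_glue h hf
  have hroot := dg_glue_root h 0
  have hbd : bd 3 = 3 := rfl
  rw [hbd] at hroot
  refine ⟨fun hd hv => ?_, fun hd hv => by omega, fun hd hv => by omega⟩
  have hkf := pb4_kf P hfr h
  have hx := stt_triv (N := N) P (h.gt 0) (by omega)
  have hN0 : N (y 0) = ∅ := Finset.card_eq_zero.1 (by omega)
  obtain ⟨hA, hld, hmu⟩ := stt_k4 P h hf _ rfl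
  rw [hx.2] at hA hld hmu
  have hld' : ldp P G N (univ.biUnion C) = (P.tri3 (P.chn (stt P G N (C 1) (y 1))
      (stt P G N (C 2) (y 2))) (stt P G N (C 3) (y 3))).ld := by
    rw [hld]
    unfold Par.ldV tr0
    simp
  have hmu' : mu P G N (univ.biUnion C) (y 0) = P.aw (P.tri3 (P.chn (stt P G N (C 1) (y 1))
      (stt P G N (C 2) (y 2))) (stt P G N (C 3) (y 3))).A := by
    rw [hmu, pb4_wt_tr0]
  rw [hld', hmu'] at hv
  have hc1e : P.c1 = 3 * P.lam := rfl
  have hstt : stt P G N (univ.biUnion C) (y 0) = P.trv (P.tri3 (P.chn (stt P G N (C 1) (y 1))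
      (stt P G N (C 2) (y 2))) (stt P G N (C 3) (y 3))).A (P.tri3 (P.chn (stt P G N (C 1) (y 1))
      (stt P G N (C 2) (y 2))) (stt P G N (C 3) (y 3))).ld := by
    apply AS.ext
    · funext k
      exact hA k
    · exact hN0
    · exact hN0
    · exact hld'
  obtain ⟨v', h1, h2, h3, h4, -, -⟩ := pb4_core P hcl hkf
    (stt P G N (C 1) (y 1)) (stt P G N (C 2) (y 2)) (stt P G N (C 3) (y 3))
    (pb4_child P h hf 1 (by decide)).1 (pb4_child P h hf 2 (by decide)).1
    (pb4_child P h hf 3 (by decide)).1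
    (pb4_viable P h hf 1 (by decide) (hi 1)) (pb4_viable P h hf 2 (by decide) (hi 2))
    (pb4_viable P h hf 3 (by decide) (hi 3)) (by omega)
  rw [hstt, ← h3, ← h4]
  exact hcl.vc1 hkf v' h1 h2 (by rw [h3, h4]; exact hv)

/-- Final `K₄` block. `|N (y 0)| = 1`; rule `vc0`, exclusion `f5`. The base is viable for `c3` since
`v.ld ≥ 3 lam + 4 tau ≥ c3`; children: `x.ld + 2 lam + 4 tau ≥ 3 lam + 4 tau ≥ c3`; the pair:
third child and root `≥ 2 lam`; the triple: root `≥ lam`. -/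
theorem final_k4 (P : Par) {S1 S2 S3 T2 U2 U3 U4 V2 : AS P.K → Prop} {V3 : AS3 P.K → Prop}
    (hcl : P.Closed S1 S2 S3 T2 U2 U3 U4 V2 V3) {G : SimpleGraph V} {N : V → Finset (Fin 8)}
    (hfr : FreeN P G N) {B : SimpleGraph (Fin (3 + 1))} {C : Fin (3 + 1) → Finset V}
    {y : Fin (3 + 1) → V} (h : Glue G 3 B C y) (hf : Full G N (univ.biUnion C) (y 0))
    (hi : ∀ i, InS P S1 S2 S3 G N (C i) (y i)) (h0 : C 0 = {y 0})
    (hr : dg G (univ.biUnion C) (y 0) + (N (y 0)).card = 4) :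
    mu P G N (univ.biUnion C) (y 0) ≤ ldp P G N (univ.biUnion C) := by
  have hroot := dg_glue_root h 0
  have hbd : bd 3 = 3 := rfl
  rw [hbd] at hroot
  have hkf := pb4_kf P hfr h
  have hdg0 : dg G (C 0) (y 0) = 0 := by
    classical
    rw [h0]
    refine Finset.card_eq_zero.2 (Finset.eq_empty_of_forall_notMem fun u hu => ?_)
    obtain ⟨hu, hadj⟩ := Finset.mem_filter.1 hu
    rw [Finset.mem_singleton] at hu
    rw [hu] at hadj
    exact G.irrefl hadj
  have hN : (N (y 0)).card = 1 := by omega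
  have hs0 : stt P G N (C 0) (y 0) = P.bs (N (y 0)) := by
    rw [h0]
    exact (stt_base P G N (y 0)).1
  obtain ⟨-, hld, hmu⟩ := stt_k4 P h hf _ rfl
  rw [hs0] at hld hmu
  by_contra hcon
  rw [not_le, hld, hmu] at hcon
  have hwf1 := (pb4_child P h hf 1 (by decide)).1
  have hwf2 := (pb4_child P h hf 2 (by decide)).1
  have hwf3 := (pb4_child P h hf 3 (by decide)).1
  have hv1 := pb4_viable P h hf 1 (by decide) (hi 1)
  have hv2 := pb4_viable P h hf 2 (by decide) (hi 2)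
  have hv3 := pb4_viable P h hf 3 (by decide) (hi 3)
  have e01 := pb4_adj_roots h 0 1 (by decide)
  have e02 := pb4_adj_roots h 0 2 (by decide)
  have e03 := pb4_adj_roots h 0 3 (by decide)
  have e12 := pb4_adj_roots h 1 2 (by decide)
  have e13 := pb4_adj_roots h 1 3 (by decide)
  have e23 := pb4_adj_roots h 2 3 (by decide)
  have hf5 := hfr.f5 hkf (y 0) (y 1) (y 2) (y 3) e01 e02 e03 e12 e13 e23
  have hf5' := hfr.f5 hkf (y 0) (y 2) (y 1) (y 3) e02 e01 e03 e12.symm e23 e13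
  change N (y 0) ∩ (stt P G N (C 1) (y 1)).N₂ ∩ (stt P G N (C 2) (y 2)).N₁ ∩
    (stt P G N (C 3) (y 3)).N₁ = ∅ at hf5
  change N (y 0) ∩ (stt P G N (C 2) (y 2)).N₁ ∩ (stt P G N (C 1) (y 1)).N₂ ∩
    (stt P G N (C 3) (y 3)).N₁ = ∅ at hf5'
  generalize hx1 : stt P G N (C 1) (y 1) = X1 at *
  generalize hx2 : stt P G N (C 2) (y 2) = X2 at *
  generalize hx3 : stt P G N (C 3) (y 3) = X3 at *
  have hle0 := pb4_wt_le_left P (P.bs (N (y 0))).A (P.tri3 (P.chn X1 X2) X3).A
  have hle1 := pb4_wt_le_right P (P.bs (N (y 0))).A (P.tri3 (P.chn X1 X2) X3).A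
  have hbw := pb4_aw_bs P (N (y 0))
  have hld0 : (P.bs (N (y 0))).ld = P.lam + P.tau * eH P.H (N (y 0)) := by
    show P.lam * (N (y 0)).card + P.tau * eH P.H (N (y 0)) = _
    rw [hN, mul_one]
  have hldV : (P.bs (N (y 0))).ld + (P.tri3 (P.chn X1 X2) X3).ld ≤
      P.ldV (P.bs (N (y 0))) (P.tri3 (P.chn X1 X2) X3) := by
    unfold Par.ldV
    omega
  have hc3 := pb4_c3 P hkf
  obtain ⟨v', h1, h2, h3, h4, h5, h6⟩ := pb4_core P hcl hkf X1 X2 X3 hwf1 hwf2 hwf3 hv1 hv2 hv3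
    (by omega)
  have hv'ld := h2.2
  rw [h4] at hv'ld
  have hvc := hcl.vc0 hkf _ (hfr.lab (y 0)) hN (by omega) v' h1 h2 (by
    rcases h6 with ⟨h6, h7⟩ | ⟨h6, h7⟩
    · rw [h6, h7, h5]
      exact hf5'
    · rw [h6, h7, h5]
      exact hf5)
  have hV : P.ldV (P.bs (N (y 0))) v' =
      P.ldV (P.bs (N (y 0))) (P.tri3 (P.chn X1 X2) X3) := by
    have e1 : (P.tri3 (P.chn X1 X2) X3).N₁ = X2.N₁ := rfl
    have e2 : (P.tri3 (P.chn X1 X2) X3).N₂ = X1.N₂ := rfl
    have e3 : (P.tri3 (P.chn X1 X2) X3).N₃ = X3.N₁ := rfl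
    unfold Par.ldV
    rcases h6 with ⟨h6, h7⟩ | ⟨h6, h7⟩
    · rw [h6, h7, h5, h4, e1, e2, e3]
    · rw [h6, h7, h5, h4, e1, e2, e3]
      ring
  rw [hV, h3] at hvc
  exact absurd hvc (not_le.2 hcon)

end Pool.Agent.MP_528dc0_co

end

section

open Finset

namespace Pool.Agent.MP_528dc0_co

variable {V : Type} [Fintype V] [DecidableEq V]

omit [Fintype V] [DecidableEq V] in
theorem pb5_dg (G : SimpleGraph V) (x : V) : dg G {x} x = 0 := by
  classical
  unfold dg
  rw [Finset.card_eq_zero, Finset.filter_eq_empty_iff]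
  intro u hu
  rw [Finset.mem_singleton] at hu
  subst hu
  exact G.loopless.irrefl u

theorem pb5_ldp (P : Par) (G : SimpleGraph V) (N : V → Finset (Fin 8)) (x : V) :
    ldp P G N {x} = P.lam * (N x).card + P.tau * eH P.H (N x) := by
  have h := congrArg AS.ld (stt_base P G N x).1
  exact h

/-- Every viable rooted piece is in the closed system. Induction on `GT`; `base`: `stt_base`, rules
`b1`, `b2`, `b3` (`dg G {x} x = 0`, `f1`, `lab`); `glue`: cases on `Blk`: `step_edge`, `step_cyc`,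
`step_k4`; `full_glue` for the induction hypotheses. -/
theorem all_ins (P : Par) {S1 S2 S3 T2 U2 U3 U4 V2 : AS P.K → Prop} {V3 : AS3 P.K → Prop}
    (hcl : P.Closed S1 S2 S3 T2 U2 U3 U4 V2 V3) {G : SimpleGraph V} {N : V → Finset (Fin 8)}
    (hfr : FreeN P G N) {C : Finset V} {x : V} (h : GT G C x) (hf : Full G N C x) :
    InS P S1 S2 S3 G N C x := by
  induction h with
  | base x =>
    obtain ⟨h1, h2⟩ := stt_base P G N x
    refine ⟨fun ha hb => ?_, fun ha hb => ?_, fun ha hb => ?_⟩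
    all_goals rw [pb5_dg, Nat.zero_add] at ha
    all_goals rw [pb5_ldp, h2, ha] at hb
    all_goals rw [h1]
    · refine hcl.b1 (N x) (hfr.lab x) ha (hfr.f1 x) ?_
      rw [Nat.mul_comm P.lam] at hb
      exact hb
    · refine hcl.b2 (N x) (hfr.lab x) ha (hfr.f1 x) ?_
      rw [Nat.mul_comm P.lam] at hb
      exact hb
    · refine hcl.b3 (N x) (hfr.lab x) ha (hfr.f1 x) ?_
      rw [Nat.mul_one] at hb
      exact hb
  | glue m B hB C y hC hd ha ih =>
    have hG : Glue G m B C y := ⟨hB, hC, hd, ha⟩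
    have hi : ∀ i, InS P S1 S2 S3 G N (C i) (y i) := fun i => ih i ((full_glue hG hf).1 i)
    cases hB with
    | k2 => exact step_edge P hcl hfr hG hf hi
    | odd t ht => exact step_cyc P hcl hfr t ht hG hf hi
    | k4 => exact step_k4 P hcl hfr hG hf hi

/-- **The load of a component bounds the weight of the colourings which do not extend to it.**
`C` is connected, a rooted Gallai tree for every root, all vertices have total degree four.
Proof. `noncut` gives a root `x` such that `C.erase x` is preconnected; `single_block`. `C = {x}`: `|N x| = 4`,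
rule `z4` (`dg = 0`; a colouring does not extend iff `FF = L x = ∅` iff the image has 4
elements). Otherwise `final_edge`, `final_cyc` or `final_k4` for the glue data, with `all_ins` for the
pieces. `mu` is the weight of `k` with `FK = ∅` (rank 0: `Alv` iff `card = 0`); there is no
colouring iff `FK = ∅`. -/
theorem comp_bound (P : Par) {S1 S2 S3 T2 U2 U3 U4 V2 : AS P.K → Prop} {V3 : AS3 P.K → Prop}
    (hcl : P.Closed S1 S2 S3 T2 U2 U3 U4 V2 V3) {G : SimpleGraph V} {N : V → Finset (Fin 8)}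
    (hfr : FreeN P G N) {C : Finset V} (hC : Conn G C) (h : ∀ x ∈ C, GT G C x)
    (hd : ∀ v ∈ C, (N v).card + dg G C v = 4) (F : Finset (Fin P.K))
    (hF : ∀ k ∈ F, ¬ ∃ c : V → Fin 4, LCol G (Ls P N k) C c) :
    ∑ k ∈ F, P.w k ≤ ldp P G N C := by
  classical
  obtain ⟨x, hx, hpre⟩ := noncut G C hC
  rcases single_block (h x hx) hpre with h1 | ⟨m, B, C', y, hG, hC0, hy0, hCu⟩
  · subst h1
    have hd' := hd x hx
    rw [pb5_dg, Nat.add_zero] at hd'
    have hz := hcl.z4 (N x) (hfr.lab x) hd' (hfr.f1 x)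
    rw [pb5_ldp, hd', Nat.mul_comm P.lam]
    refine le_trans ?_ hz
    unfold Par.bw
    rw [← Finset.sum_filter]
    refine Finset.sum_le_sum_of_subset fun k hk => ?_
    rw [Finset.mem_filter]
    refine ⟨Finset.mem_univ _, ?_⟩
    have hno := hF k hk
    have hemp : Ls P N k x = ∅ := by
      by_contra hne
      obtain ⟨a, ha⟩ := Finset.nonempty_iff_ne_empty.2 hne
      apply hno
      refine ⟨fun _ => a, fun v hv => ?_, fun u hu v hv huv => ?_⟩
      · rw [Finset.mem_singleton] at hv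
        rw [hv]; exact ha
      · rw [Finset.mem_singleton] at hu hv
        rw [hu, hv] at huv
        exact absurd huv (G.loopless.irrefl x)
    unfold Ls at hemp
    rw [Finset.sdiff_eq_empty_iff_subset, Finset.univ_subset_iff] at hemp
    rw [hemp, hd']
    rfl
  · subst hCu
    have hf : Full G N (univ.biUnion C') (y 0) := fun v hv _ => hd v hv
    have hi : ∀ i, InS P S1 S2 S3 G N (C' i) (y i) := fun i =>
      all_ins P hcl hfr (hG.gt i) ((full_glue hG hf).1 i)
    have hC0' : C' 0 = {y 0} := by rw [hy0]; exact hC0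
    have hr : dg G (univ.biUnion C') (y 0) + (N (y 0)).card = 4 := by
      rw [Nat.add_comm, hy0]; exact hd x hx
    have hmu : mu P G N (univ.biUnion C') (y 0) ≤ ldp P G N (univ.biUnion C') := by
      have hB := hG.blk
      cases hB with
      | k2 => exact final_edge P hcl hfr hG hf hi hC0' hr
      | odd t ht => exact final_cyc P hcl hfr t ht hG hf hi hC0' hr
      | k4 => exact final_k4 P hcl hfr hG hf hi hC0' hr
    refine le_trans ?_ hmu
    unfold mu
    rw [← Finset.sum_filter]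
    refine Finset.sum_le_sum_of_subset fun k hk => ?_
    rw [Finset.mem_filter]
    refine ⟨Finset.mem_univ _, ?_⟩
    unfold Alv
    have hemp : FK P G N k (univ.biUnion C') (y 0) = ∅ := by
      unfold FK FF
      rw [Finset.filter_eq_empty_iff]
      rintro a - ⟨c, -, hc⟩
      exact hF k hk ⟨c, hc⟩
    rw [hemp, Finset.card_empty]
    omega

end Pool.Agent.MP_528dc0_co

end
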