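import Mathlib
import Pool.Agent.MP_c359ba_co.Defs

/-!
# Toroidal graphs
`CMap` (combinatorial maps) and `CMap.GenusLE` are in `Pool.Agent.MP_c359ba_co.Defs`.
-/

open Finset

namespace Pool.Agent.MP_528dc0_co

open Pool.Agent.MP_c359ba_co (CMap)

/-- `G` embeds in the torus: it is a subgraph of the graph of a combinatorial map (cell
decomposition) of a closed orientable surface of genus at most one. `δ` sends each dart
(oriented edge) of `G` to a dart of the map; it respects reversal, and two darts of `G` start at the
same vertex iff their images are based at the same vertex of the map. -/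
def Toroidal {V : Type} (G : SimpleGraph V) : Prop :=
  ∃ M : CMap, M.GenusLE 1 ∧ ∃ δ : G.Dart → M.D, Function.Injective δ ∧
    (∀ d, δ d.symm = M.α (δ d)) ∧
    ∀ d e, Equiv.Perm.SameCycle M.σ (δ d) (δ e) ↔ d.fst = e.fst

/-- Reversal of darts. -/
def sy {V : Type} (G : SimpleGraph V) : Equiv.Perm G.Dart where
  toFun := SimpleGraph.Dart.symm
  invFun := SimpleGraph.Dart.symm
  left_inv := SimpleGraph.Dart.symm_symm
  right_inv := SimpleGraph.Dart.symm_symm

/-- The number of cycles of a permutation. -/
noncomputable def cyc {D : Type} (p : Equiv.Perm D) : ℕ :=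
  Nat.card (Quotient (Equiv.Perm.SameCycle.setoid p))

/-- Two darts are in the same region of the complement of the edges in `S`: generated by same face
(`d` and `σ (α d)`) and opposite sides of an edge which is not in `S`. -/
def regR {D : Type} (σ α : Equiv.Perm D) (S : Set D) (a b : D) : Prop :=
  b = σ (α a) ∨ (a ∉ S ∧ b = α a)

/-- The number of regions. -/
noncomputable def regs {D : Type} (σ α : Equiv.Perm D) (S : Set D) : ℕ :=
  Nat.card (Quotient (Relation.EqvGen.setoid (regR σ α S)))

open Classical in
/-- The number of vertices of positive degree. -/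
noncomputable def nv {V : Type} [Fintype V] (G : SimpleGraph V) : ℕ :=
  (univ.filter (fun v : V => ∃ u, G.Adj v u)).card

open Classical in
/-- The number of edges. -/
noncomputable def ne {V : Type} [Fintype V] (G : SimpleGraph V) : ℕ := G.edgeFinset.card

open Classical in
/-- The number of triangles. -/
noncomputable def nt {V : Type} [Fintype V] (G : SimpleGraph V) : ℕ := (G.cliqueFinset 3).card

open Classical in
/-- The degree. -/
noncomputable def deg {V : Type} [Fintype V] (G : SimpleGraph V) (v : V) : ℕ :=
  (univ.filter (fun u : V => G.Adj v u)).card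

end Pool.Agent.MP_528dc0_co
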