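import Mathlib
import Pool.Agent.MP_528dc0_co.Gal
import Pool.Agent.MP_528dc0_co.PDefs
import Pool.Agent.MP_528dc0_co.PieceB
import Pool.Agent.MP_528dc0_co.TDefs

/-!
# Good certificates exclude graphs
-/

section

open Finset

namespace Pool.Agent.MP_528dc0_co

open Pool.Agent.MP_c359ba_co (CMap)

/-- one step inside `U` -/
def as1_R {V : Type} (G : SimpleGraph V) (U : Finset V) : V → V → Prop :=
  Relation.ReflTransGen fun a b => a ∈ U ∧ b ∈ U ∧ G.Adj a b

theorem as1_symm {V : Type} (G : SimpleGraph V) (U : Finset V) {a b : V} (h : as1_R G U a b) :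
    as1_R G U b a := by
  induction h with
  | refl => exact Relation.ReflTransGen.refl
  | tail _ hbc ih => exact Relation.ReflTransGen.head ⟨hbc.2.1, hbc.1, hbc.2.2.symm⟩ ih

open Classical in
/-- the component of `v` -/
noncomputable def as1_comp {V : Type} (G : SimpleGraph V) (U : Finset V) (v : V) : Finset V :=
  U.filter fun u => as1_R G U v u

theorem as1_mem {V : Type} (G : SimpleGraph V) (U : Finset V) (v u : V) :
    u ∈ as1_comp G U v ↔ u ∈ U ∧ as1_R G U v u := by
  classical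
  unfold as1_comp
  exact Finset.mem_filter

theorem as1_conn {V : Type} (G : SimpleGraph V) (U : Finset V) (v : V) (hv : v ∈ U) :
    Conn G (as1_comp G U v) := by
  have hvv : v ∈ as1_comp G U v := (as1_mem G U v v).2 ⟨hv, Relation.ReflTransGen.refl⟩
  have key : ∀ u, as1_R G U v u → ∀ hu : u ∈ as1_comp G U v,
      (G.induce (as1_comp G U v : Set V)).Reachable ⟨v, hvv⟩ ⟨u, hu⟩ := by
    intro u h
    induction h with
    | refl => intro hu; exact SimpleGraph.Reachable.refl _
    | tail hab hbc ih =>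
      intro hu
      have hb := (as1_mem G U v _).2 ⟨hbc.1, hab⟩
      refine (ih hb).trans (SimpleGraph.Adj.reachable ?_)
      exact hbc.2.2
  unfold Conn
  rw [SimpleGraph.connected_iff_exists_forall_reachable]
  refine ⟨⟨v, hvv⟩, ?_⟩
  rintro ⟨u, hu⟩
  exact key u ((as1_mem G U v u).1 hu).2 hu

theorem as1_eq {V : Type} (G : SimpleGraph V) (U : Finset V) {v w x : V}
    (h1 : x ∈ as1_comp G U v) (h2 : x ∈ as1_comp G U w) : as1_comp G U v = as1_comp G U w := by
  have a1 := ((as1_mem G U v x).1 h1).2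
  have a2 := ((as1_mem G U w x).1 h2).2
  have hvw : as1_R G U v w := a1.trans (as1_symm G U a2)
  ext u
  rw [as1_mem, as1_mem]
  constructor
  · rintro ⟨h, h'⟩
    exact ⟨h, (as1_symm G U hvw).trans h'⟩
  · rintro ⟨h, h'⟩
    exact ⟨h, hvw.trans h'⟩

/-- The vertex set `U` splits into connected pieces without edges between different pieces.
(Strong induction on `U.card`, or the connected components of `G.induce U`.) -/
theorem comp_partition {V : Type} [Fintype V] [DecidableEq V] (G : SimpleGraph V) (U : Finset V) :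
    ∃ 𝒞 : Finset (Finset V), (∀ C ∈ 𝒞, Conn G C) ∧ (∀ C ∈ 𝒞, ∀ D ∈ 𝒞, C ≠ D → Disjoint C D) ∧
      𝒞.biUnion id = U ∧ ∀ C ∈ 𝒞, ∀ D ∈ 𝒞, C ≠ D → ∀ u ∈ C, ∀ v ∈ D, ¬ G.Adj u v := by
  classical
  refine ⟨U.image (as1_comp G U), ?_, ?_, ?_, ?_⟩
  · intro C hC
    obtain ⟨v, hv, rfl⟩ := Finset.mem_image.1 hC
    exact as1_conn G U v hv
  · intro C hC D hD hne
    obtain ⟨v, hv, rfl⟩ := Finset.mem_image.1 hC
    obtain ⟨w, hw, rfl⟩ := Finset.mem_image.1 hD
    rw [Finset.disjoint_left]
    intro x hx hx'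
    exact hne (as1_eq G U hx hx')
  · ext u
    rw [Finset.mem_biUnion]
    constructor
    · rintro ⟨C, hC, hu⟩
      obtain ⟨v, hv, rfl⟩ := Finset.mem_image.1 hC
      exact ((as1_mem G U v u).1 hu).1
    · intro hu
      exact ⟨as1_comp G U u, Finset.mem_image_of_mem _ hu,
        (as1_mem G U u u).2 ⟨hu, Relation.ReflTransGen.refl⟩⟩
  · intro C hC D hD hne u hu v hv hadj
    obtain ⟨c, hc, rfl⟩ := Finset.mem_image.1 hC
    obtain ⟨d, hd, rfl⟩ := Finset.mem_image.1 hD
    have h1 := (as1_mem G U c u).1 hu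
    have h2 := (as1_mem G U d v).1 hv
    have h3 : v ∈ as1_comp G U c :=
      (as1_mem G U c v).2 ⟨h2.1, h1.2.tail ⟨h1.1, h2.1, hadj⟩⟩
    exact hne (as1_eq G U h3 hv)

end Pool.Agent.MP_528dc0_co

end

section

open Finset

namespace Pool.Agent.MP_528dc0_co

open Pool.Agent.MP_c359ba_co (CMap)

/-- The graph of the low vertices (outside `S`). -/
def lowG {V : Type} (G : SimpleGraph V) (S : Finset V) : SimpleGraph V where
  Adj u v := G.Adj u v ∧ u ∉ S ∧ v ∉ S
  symm := ⟨fun _ _ h => ⟨h.1.symm, h.2.2, h.2.1⟩⟩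
  loopless := ⟨fun _ h => h.1.ne rfl⟩

open Classical in
/-- The labels of the neighbours in `S` of a low vertex. -/
noncomputable def NN {V : Type} (G : SimpleGraph V) (S : Finset V) (lab : V → Fin 8) (v : V) :
    Finset (Fin 8) :=
  if v ∈ S then ∅ else (S.filter (fun u => G.Adj v u)).image lab

/-- Cliques of low vertices with common labels give cliques of `G`: if the vertices of the clique `A` are low
and `e ⊆ ⋂ N v` is a clique of `H`, then `G` has a clique with `|A| + |e|` vertices. -/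
theorem big_clique {V : Type} [Fintype V] [DecidableEq V] (G : SimpleGraph V) (S : Finset V)
    (lab : V → Fin 8) (H : SimpleGraph (Fin 8))
    (hH : ∀ a b, H.Adj a b → ∃ u ∈ S, ∃ v ∈ S, lab u = a ∧ lab v = b ∧ G.Adj u v)
    (hinj : Set.InjOn lab (S : Set V)) (A : Finset V) (hA : ∀ v ∈ A, v ∉ S)
    (hc : G.IsClique (A : Set V)) (e : Finset (Fin 8)) (he : H.IsClique (e : Set (Fin 8)))
    (hne : A.Nonempty) (hN : ∀ v ∈ A, e ⊆ NN G S lab v) :
    ∃ B : Finset V, B.card = A.card + e.card ∧ G.IsClique (B : Set V) := by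
  classical
  set T : Finset V := S.filter (fun u => lab u ∈ e) with hT
  have hTS : ∀ u ∈ T, u ∈ S := fun u hu => (Finset.mem_filter.1 hu).1
  have hTe : ∀ u ∈ T, lab u ∈ e := fun u hu => (Finset.mem_filter.1 hu).2
  have hNN : ∀ v ∈ A, ∀ a ∈ e, ∃ u ∈ S, G.Adj v u ∧ lab u = a := by
    intro v hv a ha
    have h1 := hN v hv ha
    rw [NN, if_neg (hA v hv), Finset.mem_image] at h1
    obtain ⟨u, hu, rfl⟩ := h1
    rw [Finset.mem_filter] at hu
    exact ⟨u, hu.1, hu.2, rfl⟩
  have hAT : ∀ v ∈ A, ∀ u ∈ T, G.Adj v u := by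
    intro v hv u hu
    obtain ⟨u', hu', h1, h2⟩ := hNN v hv _ (hTe u hu)
    have h3 : u' = u := hinj (Finset.mem_coe.2 hu') (Finset.mem_coe.2 (hTS u hu)) h2
    rw [← h3]
    exact h1
  have hTT : ∀ u ∈ T, ∀ u' ∈ T, u ≠ u' → G.Adj u u' := by
    intro u hu u' hu' hne'
    have h1 : lab u ≠ lab u' := fun h =>
      hne' (hinj (Finset.mem_coe.2 (hTS u hu)) (Finset.mem_coe.2 (hTS u' hu')) h)
    obtain ⟨w, hw, w', hw', h2, h3, h4⟩ := hH _ _ (he (Finset.mem_coe.2 (hTe u hu))
      (Finset.mem_coe.2 (hTe u' hu')) h1)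
    have h5 : w = u := hinj (Finset.mem_coe.2 hw) (Finset.mem_coe.2 (hTS u hu)) h2
    have h6 : w' = u' := hinj (Finset.mem_coe.2 hw') (Finset.mem_coe.2 (hTS u' hu')) h3
    rw [← h5, ← h6]
    exact h4
  have hcard : T.card = e.card := by
    have h1 : T.image lab = e := by
      apply Finset.Subset.antisymm
      · intro a ha
        obtain ⟨u, hu, rfl⟩ := Finset.mem_image.1 ha
        exact hTe u hu
      · intro a ha
        obtain ⟨v, hv⟩ := hne
        obtain ⟨u, hu, -, h2⟩ := hNN v hv a ha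
        exact Finset.mem_image.2 ⟨u, Finset.mem_filter.2 ⟨hu, h2 ▸ ha⟩, h2⟩
    rw [← h1, Finset.card_image_of_injOn]
    intro u hu u' hu' h
    exact hinj (Finset.mem_coe.2 (hTS u hu)) (Finset.mem_coe.2 (hTS u' hu')) h
  have hdisj : Disjoint A T := by
    rw [Finset.disjoint_left]
    intro v hv hv'
    exact hA v hv (hTS v hv')
  refine ⟨A ∪ T, by rw [Finset.card_union_of_disjoint hdisj, hcard], ?_⟩
  intro u hu v hv huv
  rw [Finset.mem_coe, Finset.mem_union] at hu hv
  rcases hu with hu | hu <;> rcases hv with hv | hv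
  · exact hc (Finset.mem_coe.2 hu) (Finset.mem_coe.2 hv) huv
  · exact hAT u hu v hv
  · exact (hAT v hv u hu).symm
  · exact hTT u hu v hv huv

/-- `FreeN` from `K₄`-freeness or `K₅`-freeness. All conditions say that there is no clique of size
`4` (resp. `5`) of the form treated in `big_clique`; in `f2`, `f3`, `f4`, `f5` the vertices are low (adjacent in
`lowG`); in `f1` for `v ∈ S` use `NN = ∅` and that the required clique is nonempty. -/
theorem freeN {V : Type} [Fintype V] [DecidableEq V] (G : SimpleGraph V) (P : Par)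
    (S : Finset V) (lab : V → Fin 8) (hinj : Set.InjOn lab (S : Set V))
    (hlab : ∀ v ∈ S, lab v ∈ P.Lab)
    (hH : ∀ a b, P.H.Adj a b → ∃ u ∈ S, ∃ v ∈ S, lab u = a ∧ lab v = b ∧ G.Adj u v)
    (hk : G.CliqueFree (if P.kf then 4 else 5))
    (hx : P.x3 = true → ∀ u v w, (lowG G S).Adj u v → (lowG G S).Adj v w → (lowG G S).Adj u w →
      (NN G S lab u ∩ NN G S lab v ∩ NN G S lab w).card < 2) :
    FreeN P (lowG G S) (NN G S lab) := by
  classical
  have key : ∀ (A : Finset V) (e : Finset (Fin 8)), (∀ v ∈ A, v ∉ S) →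
      G.IsClique (A : Set V) → P.H.IsClique (e : Set (Fin 8)) → A.Nonempty →
      (∀ v ∈ A, e ⊆ NN G S lab v) → A.card + e.card = (if P.kf then 4 else 5) → False := by
    intro A e h1 h2 h3 h4 h5 h6
    obtain ⟨B, hB, hB'⟩ := big_clique G S lab P.H hH hinj A h1 h2 e h3 h4 h5
    exact hk B ⟨hB', hB.trans h6⟩
  have hS : ∀ v ∈ S, NN G S lab v = ∅ := fun v hv => by rw [NN, if_pos hv]
  refine ⟨?_, ?_, ?_, ?_, ?_, ?_⟩
  · intro v a ha
    rw [NN] at ha
    split_ifs at ha with hv
    · exact absurd ha (Finset.notMem_empty a)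
    · obtain ⟨u, hu, rfl⟩ := Finset.mem_image.1 ha
      exact hlab u (Finset.mem_filter.1 hu).1
  · rintro v ⟨e, he, hcard, hcl⟩
    by_cases hv : v ∈ S
    · rw [hS v hv] at he
      have h0 : e = ∅ := Finset.subset_empty.1 he
      rw [h0, Finset.card_empty] at hcard
      split_ifs at hcard
    · refine key {v} e (fun w hw => ?_) ?_ hcl (Finset.singleton_nonempty v) (fun w hw => ?_) ?_
      · rw [Finset.mem_singleton.1 hw]; exact hv
      · simp
      · rw [Finset.mem_singleton.1 hw]; exact he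
      · rw [hcard, Finset.card_singleton]
        split_ifs <;> rfl
  · rintro u v huv ⟨e, he, hcard, hcl⟩
    refine key {u, v} e (fun w hw => ?_) ?_ hcl ⟨u, Finset.mem_insert_self _ _⟩
      (fun w hw => ?_) ?_
    · rw [Finset.mem_insert, Finset.mem_singleton] at hw
      rcases hw with rfl | rfl
      · exact huv.2.1
      · exact huv.2.2
    · intro a ha b hb hab
      simp only [Finset.coe_insert, Finset.coe_singleton, Set.mem_insert_iff,
        Set.mem_singleton_iff] at ha hb
      rcases ha with rfl | rfl <;> rcases hb with rfl | rfl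
      · exact absurd rfl hab
      · exact huv.1
      · exact huv.1.symm
      · exact absurd rfl hab
    · rw [Finset.mem_insert, Finset.mem_singleton] at hw
      rcases hw with rfl | rfl
      · exact he.trans Finset.inter_subset_left
      · exact he.trans Finset.inter_subset_right
    · rw [hcard, Finset.card_pair huv.1.ne]
      split_ifs <;> rfl
  · intro u v w huv hvw huw hex
    unfold Par.ex3 at hex
    by_cases hx3 : P.x3 = true
    · rw [if_pos hx3] at hex
      have := hx hx3 u v w huv hvw huw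
      omega
    rw [if_neg hx3] at hex
    obtain ⟨e, he, hcard, hcl⟩ := hex
    refine key {u, v, w} e (fun x hx => ?_) ?_ hcl ⟨u, Finset.mem_insert_self _ _⟩
      (fun x hx => ?_) ?_
    · simp only [Finset.mem_insert, Finset.mem_singleton] at hx
      rcases hx with rfl | rfl | rfl
      · exact huv.2.1
      · exact huv.2.2
      · exact huw.2.2
    · intro a ha b hb hab
      simp only [Finset.coe_insert, Finset.coe_singleton, Set.mem_insert_iff,
        Set.mem_singleton_iff] at ha hb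
      rcases ha with rfl | rfl | rfl <;> rcases hb with rfl | rfl | rfl <;>
        first
          | exact absurd rfl hab
          | exact huv.1
          | exact huv.1.symm
          | exact hvw.1
          | exact hvw.1.symm
          | exact huw.1
          | exact huw.1.symm
    · intro a ha
      have h1 := he ha
      simp only [Finset.mem_inter] at h1
      simp only [Finset.mem_insert, Finset.mem_singleton] at hx
      rcases hx with rfl | rfl | rfl
      · exact h1.1.1
      · exact h1.1.2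
      · exact h1.2
    · rw [hcard, Finset.card_eq_three.2 ⟨u, v, w, huv.1.ne, huw.1.ne, hvw.1.ne, rfl⟩]
      split_ifs <;> rfl
  · intro hkf
    rw [hkf, if_pos rfl] at hk
    exact hk.anti (fun u v h => h.1)
  · intro hkf u v w z huv huw huz hvw hvz hwz
    by_contra hne
    obtain ⟨a, ha⟩ := Finset.nonempty_iff_ne_empty.2 hne
    simp only [Finset.mem_inter] at ha
    have hcard : ({u, v, w, z} : Finset V).card = 4 := by
      rw [Finset.card_insert_of_notMem, Finset.card_eq_three.2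
        ⟨v, w, z, hvw.1.ne, hvz.1.ne, hwz.1.ne, rfl⟩]
      simp only [Finset.mem_insert, Finset.mem_singleton, not_or]
      exact ⟨huv.1.ne, huw.1.ne, huz.1.ne⟩
    refine key {u, v, w, z} {a} (fun x hx => ?_) ?_ (by simp) ⟨u, Finset.mem_insert_self _ _⟩
      (fun x hx => ?_) ?_
    · simp only [Finset.mem_insert, Finset.mem_singleton] at hx
      rcases hx with rfl | rfl | rfl | rfl
      · exact huv.2.1
      · exact huv.2.2
      · exact huw.2.2
      · exact huz.2.2
    · intro b hb c hc hbc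
      simp only [Finset.coe_insert, Finset.coe_singleton, Set.mem_insert_iff,
        Set.mem_singleton_iff] at hb hc
      rcases hb with rfl | rfl | rfl | rfl <;> rcases hc with rfl | rfl | rfl | rfl <;>
        first
          | exact absurd rfl hbc
          | exact huv.1
          | exact huv.1.symm
          | exact huw.1
          | exact huw.1.symm
          | exact huz.1
          | exact huz.1.symm
          | exact hvw.1
          | exact hvw.1.symm
          | exact hvz.1
          | exact hvz.1.symm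
          | exact hwz.1
          | exact hwz.1.symm
    · rw [Finset.singleton_subset_iff]
      simp only [Finset.mem_insert, Finset.mem_singleton] at hx
      rcases hx with rfl | rfl | rfl | rfl
      · exact ha.1.1.1
      · exact ha.1.1.2
      · exact ha.1.2
      · exact ha.2
    · rw [hcard, hkf, Finset.card_singleton]
      rfl

end Pool.Agent.MP_528dc0_co

end

section

open Finset

namespace Pool.Agent.MP_528dc0_co

open Pool.Agent.MP_c359ba_co (CMap)

/-- For every colouring `k` some component is not colourable from the lists.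
Proof. Otherwise combine: `c v = P.φ k (lab v)` on `S` (proper by `hK`, `hprop`), the colourings of the components
on the low vertices (edges between low vertices are inside components, edges to `S` are respected
by `Ls`), and an arbitrary colour on vertices of degree zero. Then `G` is 4-colourable. -/
theorem some_fails {V : Type} [Fintype V] [DecidableEq V] (G : SimpleGraph V) (P : Par)
    (Kg : SimpleGraph (Fin 8)) (hprop : ∀ k a b, Kg.Adj a b → P.φ k a ≠ P.φ k b)
    (S : Finset V) (lab : V → Fin 8)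
    (hK : ∀ u ∈ S, ∀ v ∈ S, G.Adj u v → Kg.Adj (lab u) (lab v))
    (U : Finset V) (hU : ∀ v, v ∉ S → deg G v ≠ 0 → v ∈ U) (hUS : ∀ v ∈ U, v ∉ S)
    (𝒞 : Finset (Finset V)) (hcov : 𝒞.biUnion id = U)
    (hdis : ∀ C ∈ 𝒞, ∀ D ∈ 𝒞, C ≠ D → Disjoint C D)
    (hno : ∀ C ∈ 𝒞, ∀ D ∈ 𝒞, C ≠ D → ∀ u ∈ C, ∀ v ∈ D, ¬ (lowG G S).Adj u v)
    (hnc : ¬ G.Colorable 4) (k : Fin P.K) :
    ∃ C ∈ 𝒞, ¬ ∃ c : V → Fin 4, LCol (lowG G S) (Ls P (NN G S lab) k) C c := by
  classical
  by_contra hcon
  push Not at hcon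
  choose! c hc using hcon
  let d : V → Fin 4 := fun v => if v ∈ S then P.φ k (lab v) else
    if h : ∃ C, C ∈ 𝒞 ∧ v ∈ C then c h.choose v else 0
  have hdS : ∀ v ∈ S, d v = P.φ k (lab v) := fun v hv => if_pos hv
  have hdC : ∀ C ∈ 𝒞, ∀ v ∈ C, v ∉ S → d v = c C v := by
    intro C hC v hv hvS
    have hex : ∃ C, C ∈ 𝒞 ∧ v ∈ C := ⟨C, hC, hv⟩
    have h1 : hex.choose = C := by
      by_contra hne
      exact (Finset.disjoint_left.1 (hdis _ hex.choose_spec.1 C hC hne)) hex.choose_spec.2 hv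
    show (if v ∈ S then P.φ k (lab v) else
      if h : ∃ C, C ∈ 𝒞 ∧ v ∈ C then c h.choose v else 0) = _
    rw [if_neg hvS, dif_pos hex, h1]
  have hlow : ∀ u v, G.Adj u v → u ∉ S → ∃ C ∈ 𝒞, u ∈ C := by
    intro u v huv hu
    have h1 : u ∈ U := by
      refine hU u hu ?_
      unfold deg
      rw [Finset.card_ne_zero]
      exact ⟨v, Finset.mem_filter.2 ⟨Finset.mem_univ v, huv⟩⟩
    rw [← hcov, Finset.mem_biUnion] at h1
    exact h1
  have hmix : ∀ u v, G.Adj u v → u ∈ S → v ∉ S → d u ≠ d v := by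
    intro u v huv hu hv
    obtain ⟨C, hC, hvC⟩ := hlow v u huv.symm hv
    rw [hdS u hu, hdC C hC v hvC hv]
    intro heq
    have h1 := (hc C hC).1 v hvC
    rw [Ls, Finset.mem_sdiff] at h1
    apply h1.2
    rw [← heq]
    refine Finset.mem_image_of_mem _ ?_
    rw [NN, if_neg hv]
    exact Finset.mem_image_of_mem _ (Finset.mem_filter.2 ⟨hu, huv.symm⟩)
  refine hnc ⟨SimpleGraph.Coloring.mk d ?_⟩
  intro u v huv
  by_cases hu : u ∈ S <;> by_cases hv : v ∈ S
  · rw [hdS u hu, hdS v hv]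
    exact hprop k _ _ (hK u hu v hv huv)
  · exact hmix u v huv hu hv
  · exact (hmix v u huv.symm hv hu).symm
  · obtain ⟨C, hC, huC⟩ := hlow u v huv hu
    obtain ⟨D, hD, hvD⟩ := hlow v u huv.symm hv
    have hadj : (lowG G S).Adj u v := ⟨huv, hu, hv⟩
    have hCD : C = D := by
      by_contra hne
      exact hno C hC D hD hne u huC v hvD hadj
    subst hCD
    rw [hdC C hC u huC hu, hdC C hC v hvD hv]
    exact (hc C hC).2 u huC v hvD hadj

end Pool.Agent.MP_528dc0_co

end

section

open Finset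

namespace Pool.Agent.MP_528dc0_co

open Pool.Agent.MP_c359ba_co (CMap)

theorem as4_inf_sub {V : Type} [Fintype V] [DecidableEq V] (N : V → Finset (Fin 8)) (A : Finset V)
    (v : V) (hv : v ∈ A) : A.inf N ⊆ N v := Finset.inf_le hv

open Classical in
theorem as4_NN {V : Type} [Fintype V] [DecidableEq V] (G : SimpleGraph V) (S : Finset V)
    (lab : V → Fin 8) (v : V) (hv : v ∉ S) :
    NN G S lab v = (S.filter (fun u => G.Adj v u)).image lab := by
  rw [NN, if_neg hv]

open Classical in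
/-- fibres of the map `T ↦ T \ S` on triangles -/
theorem as4_fib {V : Type} [Fintype V] [DecidableEq V] (G : SimpleGraph V)
    (H : SimpleGraph (Fin 8)) (S : Finset V) (lab : V → Fin 8) (hinj : Set.InjOn lab (S : Set V))
    (hH : ∀ a b, H.Adj a b → ∃ u ∈ S, ∃ v ∈ S, lab u = a ∧ lab v = b ∧ G.Adj u v)
    (A : Finset V) (hA : G.IsClique (A : Set V)) (hAS : ∀ v ∈ A, v ∉ S)
    (hA3 : A.card ≤ 3) :
    (((A.inf (NN G S lab)).powersetCard (3 - A.card)).filter
      (fun e : Finset (Fin 8) => H.IsClique (e : Set (Fin 8)))).card ≤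
    ((G.cliqueFinset 3).filter (fun T => T \ S = A)).card := by
  have hsub : ∀ e ∈ ((A.inf (NN G S lab)).powersetCard (3 - A.card)).filter
      (fun e : Finset (Fin 8) => H.IsClique (e : Set (Fin 8))), ∀ a ∈ e, ∃ u ∈ S, lab u = a := by
    intro e he a ha
    rw [Finset.mem_filter, Finset.mem_powersetCard] at he
    obtain ⟨⟨he1, he2⟩, he3⟩ := he
    rcases A.eq_empty_or_nonempty with h0 | ⟨v, hv⟩
    · subst h0
      have h3 : e.card = 3 := by simpa using he2
      obtain ⟨b, hb, hba⟩ := Finset.exists_mem_ne (by omega : 1 < e.card) a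
      obtain ⟨u, hu, v, hv, h1, h2, h3⟩ := hH a b
        (he3 (Finset.mem_coe.2 ha) (Finset.mem_coe.2 hb) (Ne.symm hba))
      exact ⟨u, hu, h1⟩
    · have h1 := as4_inf_sub _ _ v hv (he1 ha)
      rw [as4_NN G S lab v (hAS v hv), Finset.mem_image] at h1
      obtain ⟨u, hu, hua⟩ := h1
      exact ⟨u, (Finset.mem_filter.1 hu).1, hua⟩
  have himg : ∀ e ∈ ((A.inf (NN G S lab)).powersetCard (3 - A.card)).filter
      (fun e : Finset (Fin 8) => H.IsClique (e : Set (Fin 8))),
      (S.filter (fun u => lab u ∈ e)).image lab = e := by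
    intro e he
    ext a
    rw [Finset.mem_image]
    constructor
    · rintro ⟨u, hu, rfl⟩
      exact (Finset.mem_filter.1 hu).2
    · intro ha
      obtain ⟨u, hu, hua⟩ := hsub e he a ha
      exact ⟨u, Finset.mem_filter.2 ⟨hu, by rw [hua]; exact ha⟩, hua⟩
  have hTS : ∀ e : Finset (Fin 8), (A ∪ S.filter (fun u => lab u ∈ e)) \ S = A := by
    intro e
    ext v
    simp only [Finset.mem_sdiff, Finset.mem_union, Finset.mem_filter]
    constructor
    · rintro ⟨h1 | h1, h2⟩
      · exact h1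
      · exact absurd h1.1 h2
    · intro h
      exact ⟨Or.inl h, hAS v h⟩
  have hTI : ∀ e : Finset (Fin 8), (A ∪ S.filter (fun u => lab u ∈ e)) ∩ S =
      S.filter (fun u => lab u ∈ e) := by
    intro e
    ext v
    simp only [Finset.mem_inter, Finset.mem_union, Finset.mem_filter]
    constructor
    · rintro ⟨h1 | h1, h2⟩
      · exact absurd h2 (hAS v h1)
      · exact h1
    · intro h
      exact ⟨Or.inr h, h.1⟩
  refine Finset.card_le_card_of_injOn (fun e => A ∪ S.filter (fun u => lab u ∈ e)) ?_ ?_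
  · intro e he
    have he0 := Finset.mem_coe.1 he
    have him := himg e he0
    have hs := hsub e he0
    rw [Finset.mem_filter, Finset.mem_powersetCard] at he0
    obtain ⟨⟨he1, he2⟩, he3⟩ := he0
    rw [Finset.mem_coe, Finset.mem_filter, SimpleGraph.mem_cliqueFinset_iff,
      SimpleGraph.isNClique_iff]
    have hcard : (S.filter (fun u => lab u ∈ e)).card = e.card := by
      conv_rhs => rw [← him]
      rw [Finset.card_image_of_injOn]
      intro x hx y hy hxy
      exact hinj (Finset.mem_coe.2 (Finset.mem_filter.1 (Finset.mem_coe.1 hx)).1)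
        (Finset.mem_coe.2 (Finset.mem_filter.1 (Finset.mem_coe.1 hy)).1) hxy
    have hAv : ∀ u ∈ A, ∀ v ∈ S, lab v ∈ e → G.Adj u v := by
      intro u hu v hv hve
      have h1 := as4_inf_sub _ _ u hu (he1 hve)
      rw [as4_NN G S lab u (hAS u hu), Finset.mem_image] at h1
      obtain ⟨w, hw, hwa⟩ := h1
      rw [Finset.mem_filter] at hw
      have : w = v := hinj (Finset.mem_coe.2 hw.1) (Finset.mem_coe.2 hv) hwa
      rw [← this]
      exact hw.2
    refine ⟨⟨?_, ?_⟩, hTS e⟩
    · intro u hu v hv huv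
      rw [Finset.mem_coe, Finset.mem_union, Finset.mem_filter] at hu hv
      rcases hu with hu | hu <;> rcases hv with hv | hv
      · exact hA (Finset.mem_coe.2 hu) (Finset.mem_coe.2 hv) huv
      · exact hAv u hu v hv.1 hv.2
      · exact (hAv v hv u hu.1 hu.2).symm
      · have hne : lab u ≠ lab v := fun h => huv (hinj (Finset.mem_coe.2 hu.1)
          (Finset.mem_coe.2 hv.1) h)
        obtain ⟨u', hu', v', hv', h1, h2, h3⟩ := hH _ _
          (he3 (Finset.mem_coe.2 hu.2) (Finset.mem_coe.2 hv.2) hne)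
        have e1 : u' = u := hinj (Finset.mem_coe.2 hu') (Finset.mem_coe.2 hu.1) h1
        have e2 : v' = v := hinj (Finset.mem_coe.2 hv') (Finset.mem_coe.2 hv.1) h2
        rw [← e1, ← e2]
        exact h3
    · rw [Finset.card_union_of_disjoint, hcard, he2]
      · omega
      · rw [Finset.disjoint_left]
        intro v hv hv2
        exact hAS v hv (Finset.mem_filter.1 hv2).1
  · intro e he f hf hef
    have h1 := congrArg (fun T => (T ∩ S).image lab) hef
    simp only [hTI] at h1
    rw [himg e (Finset.mem_coe.1 he), himg f (Finset.mem_coe.1 hf)] at h1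
    exact h1

theorem as4_cf {V : Type} (G : SimpleGraph V) (n : ℕ) (i1 j1 : Fintype V)
    (i2 j2 : DecidableEq V) (i3 j3 : DecidableRel G.Adj) :
    @SimpleGraph.cliqueFinset V G i1 i2 i3 n = @SimpleGraph.cliqueFinset V G j1 j2 j3 n := by
  obtain rfl := Subsingleton.elim i1 j1
  obtain rfl := Subsingleton.elim i2 j2
  obtain rfl := Subsingleton.elim i3 j3
  rfl

open Classical in
theorem as4_sum_fib {V : Type} [Fintype V] [DecidableEq V] (G : SimpleGraph V)
    (S : Finset V) (𝒜 : Finset (Finset V)) :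
    ∑ A ∈ 𝒜, ((G.cliqueFinset 3).filter (fun T => T \ S = A)).card ≤ nt G := by
  rw [nt]
  rw [← Finset.card_biUnion]
  · apply Finset.card_le_card
    intro T hT
    rw [Finset.mem_biUnion] at hT
    obtain ⟨A, hA, hT⟩ := hT
    have h := (Finset.mem_filter.1 hT).1
    exact (Finset.ext_iff.1 (as4_cf G 3 _ _ _ _ _ _) T).1 h
  · intro A hA B hB hAB
    rw [Function.onFun, Finset.disjoint_left]
    intro T h1 h2
    exact hAB ((Finset.mem_filter.1 h1).2.symm.trans (Finset.mem_filter.1 h2).2)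

open Classical in
/-- the cost part -/
theorem as4_cost {V : Type} [Fintype V] [DecidableEq V] (G : SimpleGraph V)
    (H : SimpleGraph (Fin 8)) (S : Finset V) (lab : V → Fin 8) (hinj : Set.InjOn lab (S : Set V))
    (hH : ∀ a b, H.Adj a b → ∃ u ∈ S, ∃ v ∈ S, lab u = a ∧ lab v = b ∧ G.Adj u v)
    (U : Finset V) (hUS : ∀ v ∈ U, v ∉ S) :
    ∑ v ∈ U, (NN G S lab v).card + 2 * eH H univ ≤ ∑ v ∈ S, deg G v := by
  have h1 : ∑ v ∈ U, (NN G S lab v).card = ∑ u ∈ S, (U.filter (fun v => G.Adj u v)).card := by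
    have h2 : ∀ v ∈ U, (NN G S lab v).card = (S.filter (fun u => G.Adj v u)).card := by
      intro v hv
      rw [as4_NN G S lab v (hUS v hv), Finset.card_image_of_injOn]
      intro x hx y hy hxy
      exact hinj (Finset.mem_coe.2 (Finset.mem_filter.1 (Finset.mem_coe.1 hx)).1)
        (Finset.mem_coe.2 (Finset.mem_filter.1 (Finset.mem_coe.1 hy)).1) hxy
    rw [Finset.sum_congr rfl h2]
    simp only [Finset.card_filter]
    rw [Finset.sum_comm]
    refine Finset.sum_congr rfl fun u _ => Finset.sum_congr rfl fun v _ => ?_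
    simp only [G.adj_comm]
  have h3 : ∑ u ∈ S, (U.filter (fun v => G.Adj u v)).card +
      ∑ u ∈ S, (S.filter (fun v => G.Adj u v)).card ≤ ∑ v ∈ S, deg G v := by
    rw [← Finset.sum_add_distrib]
    refine Finset.sum_le_sum fun u _ => ?_
    rw [deg, ← Finset.card_union_of_disjoint]
    · apply Finset.card_le_card
      intro v hv
      rw [Finset.mem_union, Finset.mem_filter, Finset.mem_filter] at hv
      rw [Finset.mem_filter]
      refine ⟨Finset.mem_univ _, ?_⟩
      rcases hv with hv | hv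
      · exact hv.2
      · exact hv.2
    · rw [Finset.disjoint_left]
      intro v hv hv2
      exact hUS v (Finset.mem_filter.1 hv).1 (Finset.mem_filter.1 hv2).1
  have h4 : 2 * eH H univ ≤ ∑ u ∈ S, (S.filter (fun v => G.Adj u v)).card := by
    have h5 : ∑ u ∈ S, (S.filter (fun v => G.Adj u v)).card =
        ((S ×ˢ S).filter (fun p => G.Adj p.1 p.2)).card := by
      rw [Finset.card_filter, Finset.sum_product]
      refine Finset.sum_congr rfl fun u _ => ?_
      rw [Finset.card_filter]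
    rw [h5, eH, mul_comm, ← smul_eq_mul, ← Finset.sum_const]
    refine le_trans (b := ∑ e ∈ ((univ : Finset (Fin 8)).powersetCard 2).filter
      (fun e : Finset (Fin 8) => H.IsClique (e : Set (Fin 8))),
      (((S ×ˢ S).filter (fun p => G.Adj p.1 p.2)).filter
        (fun p => ({lab p.1, lab p.2} : Finset (Fin 8)) = e)).card) ?_ ?_
    · refine Finset.sum_le_sum fun e he => ?_
      rw [Finset.mem_filter, Finset.mem_powersetCard, Finset.card_eq_two] at he
      obtain ⟨⟨_, a, b, hab, rfl⟩, he3⟩ := he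
      have hadj : H.Adj a b := he3 (by simp) (by simp) hab
      obtain ⟨u, hu, v, hv, e1, e2, h⟩ := hH a b hadj
      have huv : u ≠ v := h.ne
      have h2 : ({(u, v), (v, u)} : Finset (V × V)).card = 2 := by
        rw [Finset.card_pair]
        intro h0
        exact huv (congrArg Prod.fst h0)
      rw [← h2]
      apply Finset.card_le_card
      intro p hp
      rw [Finset.mem_insert, Finset.mem_singleton] at hp
      rw [Finset.mem_filter, Finset.mem_filter, Finset.mem_product]
      rcases hp with rfl | rfl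
      · exact ⟨⟨⟨hu, hv⟩, h⟩, by simp only [e1, e2]⟩
      · exact ⟨⟨⟨hv, hu⟩, h.symm⟩, by simp only [e1, e2]; exact Finset.pair_comm _ _⟩
    · rw [← Finset.card_biUnion]
      · apply Finset.card_le_card
        intro T hT
        rw [Finset.mem_biUnion] at hT
        obtain ⟨A, hA, hT⟩ := hT
        exact (Finset.mem_filter.1 hT).1
      · intro A hA B hB hAB
        rw [Function.onFun, Finset.disjoint_left]
        intro T h1 h2
        exact hAB ((Finset.mem_filter.1 h1).2.symm.trans (Finset.mem_filter.1 h2).2)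
  omega

open Classical in
theorem as4_pc1 (H : SimpleGraph (Fin 8)) (N : Finset (Fin 8)) :
    ((N.powersetCard 1).filter (fun e : Finset (Fin 8) => H.IsClique (e : Set (Fin 8)))).card =
      N.card := by
  rw [Finset.filter_true_of_mem]
  · rw [Finset.card_powersetCard, Nat.choose_one_right]
  · intro e he
    rw [Finset.mem_powersetCard, Finset.card_eq_one] at he
    obtain ⟨_, a, rfl⟩ := he
    rw [Finset.coe_singleton]
    exact Set.pairwise_singleton _ _

open Classical in
theorem as4_pc0 (H : SimpleGraph (Fin 8)) (N : Finset (Fin 8)) :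
    ((N.powersetCard 0).filter (fun e : Finset (Fin 8) => H.IsClique (e : Set (Fin 8)))).card =
      1 := by
  rw [Finset.filter_true_of_mem]
  · rw [Finset.card_powersetCard, Nat.choose_zero_right]
  · intro e he
    rw [Finset.mem_powersetCard, Finset.card_eq_zero] at he
    obtain ⟨_, rfl⟩ := he
    rw [Finset.coe_empty]
    exact Set.pairwise_empty _

open Classical in
/-- the triangle part -/
theorem as4_tri {V : Type} [Fintype V] [DecidableEq V] (G : SimpleGraph V)
    (H : SimpleGraph (Fin 8)) (S : Finset V) (lab : V → Fin 8) (hinj : Set.InjOn lab (S : Set V))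
    (hH : ∀ a b, H.Adj a b → ∃ u ∈ S, ∃ v ∈ S, lab u = a ∧ lab v = b ∧ G.Adj u v)
    (U : Finset V) (hUS : ∀ v ∈ U, v ∉ S)
    (𝒞 : Finset (Finset V)) (hcov : 𝒞.biUnion id = U)
    (hdis : ∀ C ∈ 𝒞, ∀ D ∈ 𝒞, C ≠ D → Disjoint C D) :
    Par.tH H + ∑ v ∈ U, eH H (NN G S lab v) +
    ∑ C ∈ 𝒞, ∑ e ∈ (C.powersetCard 2).filter (fun e : Finset V => (lowG G S).IsClique (e : Set V)),
      (e.inf (NN G S lab)).card +
    ∑ C ∈ 𝒞, ((C.powersetCard 3).filter
      (fun e : Finset V => (lowG G S).IsClique (e : Set V))).card ≤ nt G := by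
  have hlow : ∀ e : Finset V, (lowG G S).IsClique (e : Set V) → G.IsClique (e : Set V) := by
    intro e he u hu v hv huv
    exact (he hu hv huv).1
  have hCS : ∀ C ∈ 𝒞, ∀ v ∈ C, v ∉ S := by
    intro C hC v hv
    apply hUS
    rw [← hcov, Finset.mem_biUnion]
    exact ⟨C, hC, hv⟩
  have hpd : ∀ k : ℕ, 1 ≤ k → ∀ C ∈ 𝒞, ∀ D ∈ 𝒞, C ≠ D →
      Disjoint ((C.powersetCard k).filter (fun e : Finset V => (lowG G S).IsClique (e : Set V)))
        ((D.powersetCard k).filter (fun e : Finset V => (lowG G S).IsClique (e : Set V))) := by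
    intro k hk C hC D hD hCD
    rw [Finset.disjoint_left]
    intro e h1 h2
    rw [Finset.mem_filter, Finset.mem_powersetCard] at h1 h2
    have h3 : 0 < e.card := by omega
    obtain ⟨v, hv⟩ := Finset.card_pos.1 h3
    exact Finset.disjoint_left.1 (hdis C hC D hD hCD) (h1.1.1 hv) (h2.1.1 hv)
  set f : Finset V → ℕ := fun A => (((A.inf (NN G S lab)).powersetCard (3 - A.card)).filter
      (fun e : Finset (Fin 8) => H.IsClique (e : Set (Fin 8)))).card with hf
  set P2 : Finset (Finset V) := 𝒞.biUnion (fun C => (C.powersetCard 2).filter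
    (fun e : Finset V => (lowG G S).IsClique (e : Set V))) with hP2
  set P3 : Finset (Finset V) := 𝒞.biUnion (fun C => (C.powersetCard 3).filter
    (fun e : Finset V => (lowG G S).IsClique (e : Set V))) with hP3
  set P1 : Finset (Finset V) := U.image (fun v => ({v} : Finset V)) with hP1
  have c2 : ∀ A ∈ P2, A.card = 2 ∧ G.IsClique (A : Set V) ∧ ∀ v ∈ A, v ∉ S := by
    intro A hA
    rw [hP2, Finset.mem_biUnion] at hA
    obtain ⟨C, hC, hA⟩ := hA
    rw [Finset.mem_filter, Finset.mem_powersetCard] at hA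
    exact ⟨hA.1.2, hlow A hA.2, fun v hv => hCS C hC v (hA.1.1 hv)⟩
  have c3 : ∀ A ∈ P3, A.card = 3 ∧ G.IsClique (A : Set V) ∧ ∀ v ∈ A, v ∉ S := by
    intro A hA
    rw [hP3, Finset.mem_biUnion] at hA
    obtain ⟨C, hC, hA⟩ := hA
    rw [Finset.mem_filter, Finset.mem_powersetCard] at hA
    exact ⟨hA.1.2, hlow A hA.2, fun v hv => hCS C hC v (hA.1.1 hv)⟩
  have c1 : ∀ A ∈ P1, A.card = 1 ∧ G.IsClique (A : Set V) ∧ ∀ v ∈ A, v ∉ S := by
    intro A hA
    rw [hP1, Finset.mem_image] at hA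
    obtain ⟨v, hv, rfl⟩ := hA
    refine ⟨Finset.card_singleton _, ?_, ?_⟩
    · rw [Finset.coe_singleton]
      exact Set.pairwise_singleton _ _
    · intro w hw
      rw [Finset.mem_singleton] at hw
      rw [hw]
      exact hUS v hv
  have s3 : ∑ C ∈ 𝒞, ((C.powersetCard 3).filter
      (fun e : Finset V => (lowG G S).IsClique (e : Set V))).card = ∑ A ∈ P3, f A := by
    rw [← Finset.card_biUnion (hpd 3 (by norm_num)), Finset.card_eq_sum_ones]
    refine Finset.sum_congr rfl fun A hA => ?_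
    rw [hf]
    simp only [(c3 A hA).1]
    exact (as4_pc0 H _).symm
  have s2 : ∑ C ∈ 𝒞, ∑ e ∈ (C.powersetCard 2).filter
      (fun e : Finset V => (lowG G S).IsClique (e : Set V)), (e.inf (NN G S lab)).card =
      ∑ A ∈ P2, f A := by
    rw [hP2, Finset.sum_biUnion (hpd 2 (by norm_num))]
    refine Finset.sum_congr rfl fun C hC => Finset.sum_congr rfl fun A hA => ?_
    have hA2 : A.card = 2 := (Finset.mem_powersetCard.1 (Finset.mem_filter.1 hA).1).2
    rw [hf]
    simp only [hA2]
    exact (as4_pc1 H _).symm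
  have s1 : ∑ v ∈ U, eH H (NN G S lab v) = ∑ A ∈ P1, f A := by
    rw [hP1, Finset.sum_image]
    · refine Finset.sum_congr rfl fun v hv => ?_
      rw [hf]
      simp only [Finset.card_singleton, Finset.inf_singleton]
      rfl
    · intro a _ b _ hab
      exact Finset.singleton_injective hab
  have s0 : Par.tH H = ∑ A ∈ ({∅} : Finset (Finset V)), f A := by
    rw [Finset.sum_singleton, hf]
    simp only [Finset.card_empty, Finset.inf_empty]
    rfl
  rw [s0, s1, s2, s3]
  have d01 : Disjoint ({∅} : Finset (Finset V)) P1 := by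
    rw [Finset.disjoint_left]
    intro A h1 h2
    rw [Finset.mem_singleton] at h1
    have := (c1 A h2).1
    rw [h1, Finset.card_empty] at this
    omega
  have d2 : Disjoint (({∅} : Finset (Finset V)) ∪ P1) P2 := by
    rw [Finset.disjoint_left]
    intro A h1 h2
    have h3 := (c2 A h2).1
    rw [Finset.mem_union, Finset.mem_singleton] at h1
    rcases h1 with h1 | h1
    · rw [h1, Finset.card_empty] at h3
      omega
    · have := (c1 A h1).1
      omega
  have d3 : Disjoint ((({∅} : Finset (Finset V)) ∪ P1) ∪ P2) P3 := by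
    rw [Finset.disjoint_left]
    intro A h1 h2
    have h3 := (c3 A h2).1
    rw [Finset.mem_union, Finset.mem_union, Finset.mem_singleton] at h1
    rcases h1 with (h1 | h1) | h1
    · rw [h1, Finset.card_empty] at h3
      omega
    · have := (c1 A h1).1
      omega
    · have := (c2 A h1).1
      omega
  rw [← Finset.sum_union d01, ← Finset.sum_union d2, ← Finset.sum_union d3]
  refine le_trans (Finset.sum_le_sum fun A hA => ?_) (as4_sum_fib G S _)
  rw [Finset.mem_union, Finset.mem_union, Finset.mem_union, Finset.mem_singleton] at hA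
  have hall : G.IsClique (A : Set V) ∧ (∀ v ∈ A, v ∉ S) ∧ A.card ≤ 3 := by
    rcases hA with ((hA | hA) | hA) | hA
    · subst hA
      refine ⟨?_, ?_, ?_⟩
      · rw [Finset.coe_empty]
        exact Set.pairwise_empty _
      · intro v hv
        exact absurd hv (Finset.notMem_empty v)
      · rw [Finset.card_empty]
        omega
    · obtain ⟨h1, h2, h3⟩ := c1 A hA
      exact ⟨h2, h3, by omega⟩
    · obtain ⟨h1, h2, h3⟩ := c2 A hA
      exact ⟨h2, h3, by omega⟩
    · obtain ⟨h1, h2, h3⟩ := c3 A hA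
      exact ⟨h2, h3, by omega⟩
  exact as4_fib G H S lab hinj hH A hall.1 hall.2.1 hall.2.2

/-- The total load is at most `lam * (∑_{S} deg - 2 e(H)) + tau * (t - t(H))`.

Proof. Cost: `∑_{v ∈ U} |NN v|` = number of edges between `S` and low vertices
`= ∑_{u ∈ S} deg u - 2 e(G[S])` (every neighbour of `u ∈ S` outside `S` has positive degree, so it is in
`U`), `e(G[S]) ≥ eH P.H univ` (`lab` is injective on `S`; edges of `P.H` come from edges of `G[S]`).
Triangles of `G`, by the number of vertices in `S`: three: at least `tH P.H`; two: `v ∈ U` and an edge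
of `G[S]` in its neighbourhood: at least `eH P.H (NN v)` for each `v`; one: adjacent low `v, w` and a
common label: `∑ |NN v ∩ NN w|`; none: triangles of `lowG`. The pairs and triangles of `lowG` inside the components
(disjoint) are different. -/
theorem total_load {V : Type} [Fintype V] [DecidableEq V] (G : SimpleGraph V) (P : Par)
    (S : Finset V) (lab : V → Fin 8) (hinj : Set.InjOn lab (S : Set V))
    (hH : ∀ a b, P.H.Adj a b → ∃ u ∈ S, ∃ v ∈ S, lab u = a ∧ lab v = b ∧ G.Adj u v)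
    (U : Finset V) (hU : ∀ v, v ∉ S → deg G v ≠ 0 → v ∈ U) (hUS : ∀ v ∈ U, v ∉ S)
    (𝒞 : Finset (Finset V)) (hcov : 𝒞.biUnion id = U)
    (hdis : ∀ C ∈ 𝒞, ∀ D ∈ 𝒞, C ≠ D → Disjoint C D) :
    ∑ C ∈ 𝒞, ldp P (lowG G S) (NN G S lab) C + 2 * P.lam * eH P.H univ + P.tau * Par.tH P.H ≤
      P.lam * ∑ v ∈ S, deg G v + P.tau * nt G := by
  classical
  have hsd : (𝒞 : Set (Finset V)).PairwiseDisjoint id := by
    intro C hC D hD hCD
    exact hdis C (Finset.mem_coe.1 hC) D (Finset.mem_coe.1 hD) hCD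
  have e1 : ∑ C ∈ 𝒞, ∑ v ∈ C, (NN G S lab v).card = ∑ v ∈ U, (NN G S lab v).card := by
    rw [← hcov, Finset.sum_biUnion hsd]
    rfl
  have e2 : ∑ C ∈ 𝒞, ∑ v ∈ C, eH P.H (NN G S lab v) = ∑ v ∈ U, eH P.H (NN G S lab v) := by
    rw [← hcov, Finset.sum_biUnion hsd]
    rfl
  have h1 := as4_cost G P.H S lab hinj hH U hUS
  have h2 := as4_tri G P.H S lab hinj hH U hUS 𝒞 hcov hdis
  have h3 : ∑ C ∈ 𝒞, ldp P (lowG G S) (NN G S lab) C =
      P.lam * ∑ v ∈ U, (NN G S lab v).card + P.tau * (∑ v ∈ U, eH P.H (NN G S lab v) +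
        ∑ C ∈ 𝒞, ∑ e ∈ (C.powersetCard 2).filter
          (fun e : Finset V => (lowG G S).IsClique (e : Set V)), (e.inf (NN G S lab)).card +
        ∑ C ∈ 𝒞, ((C.powersetCard 3).filter
          (fun e : Finset V => (lowG G S).IsClique (e : Set V))).card) := by
    rw [← e1, ← e2]
    unfold ldp
    rw [Finset.sum_add_distrib, ← Finset.mul_sum, ← Finset.mul_sum, Finset.sum_add_distrib,
      Finset.sum_add_distrib]
  rw [h3]
  have h4 := Nat.mul_le_mul_left P.lam h1
  have h5 := Nat.mul_le_mul_left P.tau h2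
  refine le_trans (le_of_eq ?_) (Nat.add_le_add h4 h5)
  ring

end Pool.Agent.MP_528dc0_co

end

section

open Finset

namespace Pool.Agent.MP_528dc0_co

open Pool.Agent.MP_c359ba_co (CMap)


open Classical in
/-- total degree four of the vertices of a component -/
theorem as5_deg {V : Type} [Fintype V] [DecidableEq V] (G : SimpleGraph V)
    (S : Finset V) (lab : V → Fin 8) (hinj : Set.InjOn lab (S : Set V)) (C : Finset V) (v : V)
    (hv : v ∉ S) (hdeg : deg G v = 4)
    (hC : ∀ u, u ∉ S → G.Adj v u → u ∈ C) :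
    (NN G S lab v).card + dg (lowG G S) C v = 4 := by
  have h1 : (NN G S lab v).card = (S.filter (fun u => G.Adj v u)).card := by
    unfold NN
    rw [if_neg hv]
    exact Finset.card_image_of_injOn
      (hinj.mono (Finset.coe_subset.2 (Finset.filter_subset _ _)))
  have h2 : (univ.filter (fun u : V => G.Adj v u)) =
      S.filter (fun u => G.Adj v u) ∪ C.filter (fun u => (lowG G S).Adj v u) := by
    ext u
    rw [Finset.mem_union, Finset.mem_filter, Finset.mem_filter, Finset.mem_filter]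
    constructor
    · rintro ⟨-, h⟩
      by_cases hu : u ∈ S
      · exact Or.inl ⟨hu, h⟩
      · exact Or.inr ⟨hC u hu h, h, hv, hu⟩
    · rintro (⟨-, h⟩ | ⟨-, h⟩)
      · exact ⟨Finset.mem_univ _, h⟩
      · exact ⟨Finset.mem_univ _, h.1⟩
  have h3 : Disjoint (S.filter (fun u => G.Adj v u)) (C.filter (fun u => (lowG G S).Adj v u)) := by
    rw [Finset.disjoint_left]
    intro u hu hu'
    exact (Finset.mem_filter.1 hu').2.2.2 (Finset.mem_filter.1 hu).1
  unfold deg at hdeg
  rw [h2, Finset.card_union_of_disjoint h3] at hdeg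
  unfold dg
  rw [h1]
  exact hdeg

theorem as5_clique {V : Type} (G : SimpleGraph V) (S : Finset V) (kf : Bool)
    (hk : G.CliqueFree (if kf then 4 else 5)) (Q : Finset V) (h5 : Q.card = 5)
    (hc : (lowG G S).IsClique (Q : Set V)) : False := by
  have hk5 : G.CliqueFree 5 := by
    cases kf
    · exact hk
    · exact SimpleGraph.CliqueFree.mono (by norm_num) hk
  refine hk5 Q ⟨?_, h5⟩
  intro u hu v hv huv
  exact (hc hu hv huv).1


open Classical in
/-- **Weights and loads.** If every colouring fails on some component in `𝒟`, the total weight is at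
most the total load of `𝒟`. -/
theorem weight_le {V : Type} [Fintype V] [DecidableEq V] (G : SimpleGraph V) (P : Par)
    (hcl : ∃ S1 S2 S3 T2 U2 U3 U4 V2 V3, P.Closed S1 S2 S3 T2 U2 U3 U4 V2 V3)
    (S : Finset V) (lab : V → Fin 8)
    (hinj : Set.InjOn lab (S : Set V)) (hlab : ∀ v ∈ S, lab v ∈ P.Lab)
    (hdeg : ∀ v, v ∉ S → deg G v = 0 ∨ deg G v = 4)
    (hH : ∀ a b, P.H.Adj a b → ∃ u ∈ S, ∃ v ∈ S, lab u = a ∧ lab v = b ∧ G.Adj u v)
    (hk : G.CliqueFree (if P.kf then 4 else 5))
    (hx : P.x3 = true → ∀ u v w, (lowG G S).Adj u v → (lowG G S).Adj v w → (lowG G S).Adj u w →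
      (NN G S lab u ∩ NN G S lab v ∩ NN G S lab w).card < 2)
    (U : Finset V) (hU : ∀ v, v ∉ S → deg G v ≠ 0 → v ∈ U) (hUS : ∀ v ∈ U, v ∉ S)
    (hU0 : ∀ v ∈ U, deg G v ≠ 0)
    (𝒞 : Finset (Finset V)) (hconn : ∀ C ∈ 𝒞, Conn (lowG G S) C) (hcov : 𝒞.biUnion id = U)
    (hno : ∀ C ∈ 𝒞, ∀ D ∈ 𝒞, C ≠ D → ∀ u ∈ C, ∀ v ∈ D, ¬ (lowG G S).Adj u v)
    (𝒟 : Finset (Finset V)) (h𝒟 : 𝒟 ⊆ 𝒞)
    (hfail : ∀ k : Fin P.K, ∃ C ∈ 𝒟, ¬ ∃ c : V → Fin 4, LCol (lowG G S) (Ls P (NN G S lab) k) C c) :
    ∑ k, P.w k ≤ ∑ C ∈ 𝒟, ldp P (lowG G S) (NN G S lab) C := by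
  obtain ⟨S1, S2, S3, T2, U2, U3, U4, V2, V3, hcl⟩ := hcl
  have hUd : ∀ v ∈ U, deg G v = 4 := fun v hv => (hdeg v (hUS v hv)).resolve_left (hU0 v hv)
  have hCU : ∀ C ∈ 𝒞, ∀ v ∈ C, v ∈ U := by
    intro C hC v hv
    rw [← hcov]
    exact Finset.mem_biUnion.2 ⟨C, hC, hv⟩
  have hd : ∀ C ∈ 𝒞, ∀ v ∈ C, (NN G S lab v).card + dg (lowG G S) C v = 4 := by
    intro C hC v hv
    have hvU := hCU C hC v hv
    refine as5_deg G S lab hinj C v (hUS v hvU) (hUd v hvU) ?_
    intro u hu hadj
    have hdu : deg G u ≠ 0 := by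
      unfold deg
      intro h0
      rw [Finset.card_eq_zero, Finset.filter_eq_empty_iff] at h0
      exact h0 (Finset.mem_univ v) hadj.symm
    have huU := hU u hu hdu
    rw [← hcov] at huU
    obtain ⟨D, hD, huD⟩ := Finset.mem_biUnion.1 huU
    by_cases hCD : C = D
    · rw [hCD]; exact huD
    · exact absurd ⟨hadj, hUS v hvU, hu⟩ (hno C hC D hD hCD v hv u huD)
  have hfr : FreeN P (lowG G S) (NN G S lab) := freeN G P S lab hinj hlab hH hk hx
  -- every component
  have hcomp : ∀ C ∈ 𝒞, ∑ k, (if ¬ ∃ c : V → Fin 4, LCol (lowG G S) (Ls P (NN G S lab) k) C c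
      then P.w k else 0) ≤ ldp P (lowG G S) (NN G S lab) C := by
    intro C hC
    rw [← Finset.sum_filter]
    set F : Finset (Fin P.K) := univ.filter fun k =>
      ¬ ∃ c : V → Fin 4, LCol (lowG G S) (Ls P (NN G S lab) k) C c with hFdef
    rcases Finset.eq_empty_or_nonempty F with hF | ⟨k, hk'⟩
    · rw [hF, Finset.sum_empty]
      exact Nat.zero_le _
    · have hbad := (Finset.mem_filter.1 hk').2
      have hL : ∀ u ∈ C, dg (lowG G S) C u ≤ (Ls P (NN G S lab) k u).card := by
        intro u hu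
        have h1 := hd C hC u hu
        have h2 : (Ls P (NN G S lab) k u).card + ((NN G S lab u).image (P.φ k)).card = 4 := by
          unfold Ls
          have := Finset.card_sdiff_add_card_eq_card
            (Finset.subset_univ ((NN G S lab u).image (P.φ k)))
          rwa [Finset.card_univ, Fintype.card_fin] at this
        have h3 : ((NN G S lab u).image (P.φ k)).card ≤ (NN G S lab u).card :=
          Finset.card_image_le
        omega
      rcases gallai (lowG G S) (Ls P (NN G S lab) k) C (hconn C hC) hL hbad with h | h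
      · exact comp_bound P hcl hfr (hconn C hC) h (hd C hC) F
          (fun k hk => (Finset.mem_filter.1 hk).2)
      · obtain ⟨Q, -, h5, hc⟩ := h
        exact (as5_clique G S P.kf hk Q h5 hc).elim
  calc ∑ k, P.w k ≤ ∑ k, ∑ C ∈ 𝒟, (if ¬ ∃ c : V → Fin 4,
          LCol (lowG G S) (Ls P (NN G S lab) k) C c then P.w k else 0) := by
          refine Finset.sum_le_sum fun k _ => ?_
          obtain ⟨C, hC, hbad⟩ := hfail k
          have h1 := Finset.single_le_sum (f := fun C => if ¬ ∃ c : V → Fin 4,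
            LCol (lowG G S) (Ls P (NN G S lab) k) C c then P.w k else 0)
            (fun i _ => Nat.zero_le _) hC
          simp only [if_pos hbad] at h1
          exact h1
      _ = ∑ C ∈ 𝒟, ∑ k, (if ¬ ∃ c : V → Fin 4,
          LCol (lowG G S) (Ls P (NN G S lab) k) C c then P.w k else 0) := Finset.sum_comm
      _ ≤ _ := Finset.sum_le_sum fun C hC => hcomp C (h𝒟 hC)

/-- **A good certificate excludes the graph.** -/
theorem good_excludes {V : Type} [Fintype V] [DecidableEq V] (G : SimpleGraph V) (P : Par)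
    (Kg : SimpleGraph (Fin 8)) (B : ℕ) (hg : P.Good Kg B 9) (S : Finset V) (lab : V → Fin 8)
    (hinj : Set.InjOn lab (S : Set V)) (hlab : ∀ v ∈ S, lab v ∈ P.Lab)
    (hdeg : ∀ v, v ∉ S → deg G v = 0 ∨ deg G v = 4)
    (hH : ∀ a b, P.H.Adj a b → ∃ u ∈ S, ∃ v ∈ S, lab u = a ∧ lab v = b ∧ G.Adj u v)
    (hK : ∀ u ∈ S, ∀ v ∈ S, G.Adj u v → Kg.Adj (lab u) (lab v))
    (hk : G.CliqueFree (if P.kf then 4 else 5))
    (hx : P.x3 = true → ∀ u v w, (lowG G S).Adj u v → (lowG G S).Adj v w → (lowG G S).Adj u w →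
      (NN G S lab u ∩ NN G S lab v ∩ NN G S lab w).card < 2)
    (hbud : ∑ v ∈ S, deg G v ≤ B)
    (ht : nt G ≤ 9) (hnc : ¬ G.Colorable 4) : False := by
  classical
  obtain ⟨hcl, hprop, hbudget⟩ := hg
  set U : Finset V := univ.filter fun v => v ∉ S ∧ deg G v ≠ 0 with hUdef
  have hU : ∀ v, v ∉ S → deg G v ≠ 0 → v ∈ U := fun v h1 h2 =>
    Finset.mem_filter.2 ⟨Finset.mem_univ _, h1, h2⟩
  have hUS : ∀ v ∈ U, v ∉ S := fun v hv => (Finset.mem_filter.1 hv).2.1
  obtain ⟨𝒞, hconn, hdis, hcov, hno⟩ := comp_partition (lowG G S) U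
  have hw := weight_le G P hcl S lab hinj hlab hdeg hH hk hx U hU hUS
    (fun v hv => (Finset.mem_filter.1 hv).2.2) 𝒞 hconn hcov hno 𝒞 (Finset.Subset.refl _)
    (fun k => some_fails G P Kg hprop S lab hK U hU hUS 𝒞 hcov hdis hno hnc k)
  have htot := total_load G P S lab hinj hH U hU hUS 𝒞 hcov hdis
  have h1 : P.lam * ∑ v ∈ S, deg G v ≤ P.lam * B := Nat.mul_le_mul_left _ hbud
  have h2 : P.tau * nt G ≤ 9 * P.tau := by
    rw [mul_comm]
    exact Nat.mul_le_mul_right _ ht
  omega

end Pool.Agent.MP_528dc0_co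

end

section

open Finset

namespace Pool.Agent.MP_528dc0_co

open Pool.Agent.MP_c359ba_co (CMap)

/-- The special graph: two disjoint edges `2 5` and `3 4`. -/
def H0 : SimpleGraph (Fin 8) where
  Adj a b := (a = 2 ∧ b = 5) ∨ (a = 5 ∧ b = 2) ∨ (a = 3 ∧ b = 4) ∨ (a = 4 ∧ b = 3)
  symm := ⟨fun a b h => by tauto⟩
  loopless := ⟨fun a h => by
    rcases h with h | h | h | h <;> (obtain ⟨h1, h2⟩ := h; rw [h1] at h2; exact absurd h2 (by decide))⟩

/-- The certificates for the special graph: one for the case that no triangle of low vertices has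
two common neighbours in `S`; and one for each type of pair `a, b` (the two common neighbours), all
of whose colourings give `a` and `b` the same colour, with the smaller budget `24, 2`. -/
def SpecCert : Prop :=
  (∃ P : Par, ∃ Kg : SimpleGraph (Fin 8), P.kf = false ∧ P.x3 = true ∧ P.Good Kg 30 9 ∧
    P.H ≤ H0 ∧ H0 ≤ Kg) ∧
  ∀ p ∈ ([(0, 1), (0, 2), (2, 3)] : List (Fin 8 × Fin 8)),
    ∃ P : Par, ∃ Kg : SimpleGraph (Fin 8), P.kf = false ∧ P.x3 = false ∧ P.Good Kg 24 2 ∧
      P.H ≤ H0 ∧ H0 ≤ Kg ∧ ∀ k, P.φ k p.1 = P.φ k p.2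

private instance as7_dec : DecidableRel H0.Adj := fun a b =>
  inferInstanceAs (Decidable ((a = 2 ∧ b = 5) ∨ (a = 5 ∧ b = 2) ∨ (a = 3 ∧ b = 4) ∨
    (a = 4 ∧ b = 3)))

private def as7_f1 (i : Fin 8) : Fin 8 := if i = 2 then 5 else if i = 5 then 2 else i
private def as7_f2 (i : Fin 8) : Fin 8 := if i = 3 then 4 else if i = 4 then 3 else i
private def as7_f3 (i : Fin 8) : Fin 8 :=
  if i = 2 then 3 else if i = 3 then 2 else if i = 4 then 5 else if i = 5 then 4 else i
private def as7_f4 (i : Fin 8) : Fin 8 := if i = 0 then 1 else if i = 1 then 0 else i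

private def as7_good (σ : Equiv.Perm (Fin 8)) : Prop :=
  (∀ i j, H0.Adj (σ i) (σ j) ↔ H0.Adj i j) ∧ (∀ i : Fin 8, i.val < 6 → (σ i).val < 6)

private theorem as7_mul (σ τ : Equiv.Perm (Fin 8)) (h1 : as7_good σ) (h2 : as7_good τ) :
    as7_good (τ.trans σ) := by
  refine ⟨fun i j => ?_, fun i hi => ?_⟩
  · show H0.Adj (σ (τ i)) (σ (τ j)) ↔ H0.Adj i j
    rw [h1.1, h2.1]
  · exact h1.2 _ (h2.2 _ hi)

private theorem as7_ex (f : Fin 8 → Fin 8) (h1 : ∀ i, f (f i) = i)
    (h2 : ∀ i j, H0.Adj (f i) (f j) ↔ H0.Adj i j) (h3 : ∀ i : Fin 8, i.val < 6 → (f i).val < 6)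
    (c : Bool) : ∃ σ : Equiv.Perm (Fin 8), as7_good σ ∧ ∀ i, σ i = if c then f i else i := by
  cases c
  · exact ⟨Equiv.refl _, ⟨fun i j => Iff.rfl, fun i hi => hi⟩, fun i => rfl⟩
  · exact ⟨⟨f, f, h1, h1⟩, ⟨h2, h3⟩, fun i => rfl⟩

private theorem as7_p1 : ∀ i j, H0.Adj (as7_f1 i) (as7_f1 j) ↔ H0.Adj i j := by decide +kernel
private theorem as7_p2 : ∀ i j, H0.Adj (as7_f2 i) (as7_f2 j) ↔ H0.Adj i j := by decide +kernel
private theorem as7_p3 : ∀ i j, H0.Adj (as7_f3 i) (as7_f3 j) ↔ H0.Adj i j := by decide +kernel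
private theorem as7_p4 : ∀ i j, H0.Adj (as7_f4 i) (as7_f4 j) ↔ H0.Adj i j := by decide +kernel
private theorem as7_p5 : ∀ i, as7_f1 (as7_f1 i) = i ∧ as7_f2 (as7_f2 i) = i ∧
    as7_f3 (as7_f3 i) = i ∧ as7_f4 (as7_f4 i) = i := by decide +kernel
private theorem as7_p6 : ∀ i : Fin 8, i.val < 6 → (as7_f1 i).val < 6 ∧ (as7_f2 i).val < 6 ∧
    (as7_f3 i).val < 6 ∧ (as7_f4 i).val < 6 := by decide +kernel

private def as7_F (c1 c2 c3 c4 : Bool) (i : Fin 8) : Fin 8 :=
  let x := if c1 then as7_f1 i else i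
  let y := if c2 then as7_f2 x else x
  let z := if c3 then as7_f3 y else y
  if c4 then as7_f4 z else z

private theorem as7_all (a b : Fin 8) (ha : a.val < 6) (hb : b.val < 6) (hab : a ≠ b)
    (hn : ¬ H0.Adj a b) : ∃ c1 c2 c3 c4 : Bool,
      ∃ p ∈ ([(0, 1), (0, 2), (2, 3)] : List (Fin 8 × Fin 8)),
        (as7_F c1 c2 c3 c4 a = p.1 ∧ as7_F c1 c2 c3 c4 b = p.2) ∨
        (as7_F c1 c2 c3 c4 a = p.2 ∧ as7_F c1 c2 c3 c4 b = p.1) := by
  revert a b
  decide +kernel

/-- Up to automorphisms of `H0` there are three pairs of non-adjacent vertices among `0, …, 5`: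
`{0,1}`, `{0,2}`, `{2,3}`. (For each of the 13 pairs give the permutation, e.g. a product of some of
`(0 1)`, `(2 5)`, `(3 4)`, `(2 3)(5 4)`; `decide` checks it.) -/
theorem h0_orbit (a b : Fin 8) (ha : a.val < 6) (hb : b.val < 6) (hab : a ≠ b)
    (hn : ¬ H0.Adj a b) : ∃ σ : Equiv.Perm (Fin 8), (∀ i j, H0.Adj (σ i) (σ j) ↔ H0.Adj i j) ∧
      (∀ i : Fin 8, i.val < 6 → (σ i).val < 6) ∧
      ∃ p ∈ ([(0, 1), (0, 2), (2, 3)] : List (Fin 8 × Fin 8)),
        (σ a = p.1 ∧ σ b = p.2) ∨ (σ a = p.2 ∧ σ b = p.1) := by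
  obtain ⟨c1, c2, c3, c4, p, hp, h⟩ := as7_all a b ha hb hab hn
  obtain ⟨s1, g1, e1⟩ := as7_ex as7_f1 (fun i => (as7_p5 i).1) as7_p1
    (fun i hi => (as7_p6 i hi).1) c1
  obtain ⟨s2, g2, e2⟩ := as7_ex as7_f2 (fun i => (as7_p5 i).2.1) as7_p2
    (fun i hi => (as7_p6 i hi).2.1) c2
  obtain ⟨s3, g3, e3⟩ := as7_ex as7_f3 (fun i => (as7_p5 i).2.2.1) as7_p3
    (fun i hi => (as7_p6 i hi).2.2.1) c3
  obtain ⟨s4, g4, e4⟩ := as7_ex as7_f4 (fun i => (as7_p5 i).2.2.2) as7_p4
    (fun i hi => (as7_p6 i hi).2.2.2) c4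
  have hg := as7_mul _ _ g4 (as7_mul _ _ g3 (as7_mul _ _ g2 g1))
  refine ⟨_, hg.1, hg.2, p, hp, ?_⟩
  have hF : ∀ i, (((s1.trans s2).trans s3).trans s4) i = as7_F c1 c2 c3 c4 i := by
    intro i
    show s4 (s3 (s2 (s1 i))) = as7_F c1 c2 c3 c4 i
    rw [e4, e3, e2, e1]
    rfl
  rw [hF, hF]
  exact h

private theorem as7_NN {V : Type} (G : SimpleGraph V) (S : Finset V) (lab : V → Fin 8)
    (σ : Equiv.Perm (Fin 8)) (x : V) :
    NN G S (fun v => σ (lab v)) x = (NN G S lab x).image σ := by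
  classical
  unfold NN
  by_cases hx : x ∈ S
  · rw [if_pos hx, if_pos hx, Finset.image_empty]
  · rw [if_neg hx, if_neg hx, Finset.image_image]
    rfl

private theorem as7_conn {V : Type} (G : SimpleGraph V) (C : Finset V) (u : V) (hu : u ∈ C)
    (h : ∀ x ∈ C, x = u ∨ G.Adj u x) : Conn G C := by
  unfold Conn
  rw [SimpleGraph.connected_iff_exists_forall_reachable]
  refine ⟨⟨u, hu⟩, ?_⟩
  rintro ⟨x, hx⟩
  rcases h x hx with h1 | h1
  · subst h1
    exact SimpleGraph.Reachable.refl _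
  · exact SimpleGraph.Adj.reachable h1

/-- the load of a triangle of low vertices with the two common labels `c`, `d` -/
private theorem as7_ldp {V : Type} [Fintype V] [DecidableEq V] (P : Par) (G : SimpleGraph V)
    (N : V → Finset (Fin 8)) (C : Finset V) (M : Finset (Fin 8)) (hM : M.card = 2)
    (hN : ∀ x ∈ C, N x = M) (h3 : C.card = 3) (hc : G.IsClique (C : Set V)) :
    6 * P.lam + 7 * P.tau ≤ ldp P G N C := by
  classical
  unfold ldp
  have e1 : ∑ v ∈ C, (N v).card = 6 := by
    have h : ∀ v ∈ C, (N v).card = 2 := fun v hv => by rw [hN v hv, hM]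
    rw [sum_congr rfl h, sum_const, h3, smul_eq_mul]
  have hcl : ∀ e : Finset V, e ⊆ C → G.IsClique (e : Set V) := fun e he =>
    hc.subset (Finset.coe_subset.2 he)
  have e2 : ∑ e ∈ (C.powersetCard 2).filter (fun e : Finset V => G.IsClique (e : Set V)),
      (e.inf N).card = 6 := by
    have h0 : (C.powersetCard 2).filter (fun e : Finset V => G.IsClique (e : Set V)) =
        C.powersetCard 2 :=
      Finset.filter_true_of_mem fun e he => hcl e (Finset.mem_powersetCard.1 he).1
    rw [h0]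
    have h : ∀ e ∈ C.powersetCard 2, (e.inf N).card = 2 := by
      intro e he
      obtain ⟨he1, he2⟩ := Finset.mem_powersetCard.1 he
      have hne : e.Nonempty := by
        rw [← Finset.card_pos, he2]
        norm_num
      have h4 : e.inf N = M := by
        rw [Finset.inf_congr rfl fun x hx => hN x (he1 hx)]
        exact Finset.inf_const hne M
      rw [h4, hM]
    rw [sum_congr rfl h, sum_const, Finset.card_powersetCard, h3, smul_eq_mul]
    decide
  have e3 : ((C.powersetCard 3).filter (fun e : Finset V => G.IsClique (e : Set V))).card = 1 := by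
    have h0 : (C.powersetCard 3).filter (fun e : Finset V => G.IsClique (e : Set V)) =
        C.powersetCard 3 :=
      Finset.filter_true_of_mem fun e he => hcl e (Finset.mem_powersetCard.1 he).1
    rw [h0, Finset.card_powersetCard, h3]
    decide
  rw [e1, e2, e3]
  have h5 : P.tau * (0 + 6 + 1) ≤ P.tau * (∑ v ∈ C, eH P.H (N v) + 6 + 1) :=
    Nat.mul_le_mul_left _ (by omega)
  omega

/-- the lists allow a colouring of the triangle -/
private theorem as7_col {V : Type} [DecidableEq V] (G : SimpleGraph V) (P : Par) (k : Fin P.K)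
    (N : V → Finset (Fin 8)) (u v w : V) (huv : u ≠ v) (huw : u ≠ w) (hvw : v ≠ w) (c d : Fin 8)
    (hcd : P.φ k c = P.φ k d) (hN : ∀ x ∈ ({u, v, w} : Finset V), N x ⊆ {c, d}) :
    ∃ f : V → Fin 4, LCol G (Ls P N k) {u, v, w} f := by
  classical
  obtain ⟨m, hm⟩ : ∃ m : Fin 4, m = P.φ k c := ⟨_, rfl⟩
  have hmem : ∀ x ∈ ({u, v, w} : Finset V), ∀ j : Fin 4, j ≠ m → j ∈ Ls P N k x := by
    intro x hx j hj
    unfold Ls
    rw [Finset.mem_sdiff]
    refine ⟨Finset.mem_univ _, fun h => ?_⟩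
    obtain ⟨y, hy, hy2⟩ := Finset.mem_image.1 h
    have hy3 := hN x hx hy
    rw [Finset.mem_insert, Finset.mem_singleton] at hy3
    rcases hy3 with h1 | h1
    · rw [h1, ← hm] at hy2
      exact hj hy2.symm
    · rw [h1, ← hcd, ← hm] at hy2
      exact hj hy2.symm
  have hm1 : ∀ m : Fin 4, m + 1 ≠ m ∧ m + 2 ≠ m ∧ m + 3 ≠ m ∧ m + 1 ≠ m + 2 ∧ m + 1 ≠ m + 3 ∧
      m + 2 ≠ m + 3 := by decide
  obtain ⟨a1, a2, a3, a4, a5, a6⟩ := hm1 m
  obtain ⟨f, hf⟩ : ∃ f : V → Fin 4, f = fun x => if x = u then m + 1 else if x = v then m + 2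
      else m + 3 := ⟨_, rfl⟩
  have fu : f u = m + 1 := by rw [hf]; exact if_pos rfl
  have fv : f v = m + 2 := by
    rw [hf]
    show (if v = u then m + 1 else if v = v then m + 2 else m + 3) = m + 2
    rw [if_neg huv.symm, if_pos rfl]
  have fw : f w = m + 3 := by
    rw [hf]
    show (if w = u then m + 1 else if w = v then m + 2 else m + 3) = m + 3
    rw [if_neg huw.symm, if_neg hvw.symm]
  refine ⟨f, ?_, ?_⟩
  · intro x hx
    refine hmem x hx _ ?_
    simp only [Finset.mem_insert, Finset.mem_singleton] at hx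
    rcases hx with h | h | h <;> rw [h]
    · rw [fu]; exact a1
    · rw [fv]; exact a2
    · rw [fw]; exact a3
  · intro x hx y hy hxy
    simp only [Finset.mem_insert, Finset.mem_singleton] at hx hy
    rcases hx with h | h | h <;> rcases hy with h' | h' | h' <;> rw [h, h'] at hxy ⊢
    · exact absurd rfl hxy.ne
    · rw [fu, fv]; exact a4
    · rw [fu, fw]; exact a5
    · rw [fu, fv]; exact a4.symm
    · exact absurd rfl hxy.ne
    · rw [fv, fw]; exact a6
    · rw [fu, fw]; exact a5.symm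
    · rw [fv, fw]; exact a6.symm
    · exact absurd rfl hxy.ne

/-- a low vertex of a triangle with two common labels: labels and low neighbours -/
private theorem as7_vert {V : Type} [Fintype V] [DecidableEq V] (G : SimpleGraph V)
    (S : Finset V) (lab : V → Fin 8) (hinj : Set.InjOn lab (S : Set V))
    (hdeg : ∀ v, v ∉ S → deg G v = 0 ∨ deg G v = 4) (u v w : V) (hvw : v ≠ w)
    (huv : (lowG G S).Adj u v) (huw : (lowG G S).Adj u w) (a b : Fin 8) (hab : a ≠ b)
    (ha : a ∈ NN G S lab u) (hb : b ∈ NN G S lab u) :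
    NN G S lab u = {a, b} ∧ ∀ x, (lowG G S).Adj u x → x = v ∨ x = w := by
  classical
  have h0 : deg G u ≠ 0 := by
    unfold deg
    rw [Finset.card_ne_zero]
    exact ⟨v, Finset.mem_filter.2 ⟨Finset.mem_univ v, huv.1⟩⟩
  have h4 : deg G u = 4 := (hdeg u huv.2.1).resolve_left h0
  have h1 := as5_deg G S lab hinj univ u huv.2.1 h4 fun _ _ _ => Finset.mem_univ _
  have hs1 : ({a, b} : Finset (Fin 8)) ⊆ NN G S lab u := by
    intro x hx
    rw [Finset.mem_insert, Finset.mem_singleton] at hx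
    rcases hx with rfl | rfl
    · exact ha
    · exact hb
  have hc1 := Finset.card_le_card hs1
  rw [Finset.card_pair hab] at hc1
  have hs2 : ({v, w} : Finset V) ⊆ univ.filter (fun x => (lowG G S).Adj u x) := by
    intro x hx
    rw [Finset.mem_insert, Finset.mem_singleton] at hx
    rw [Finset.mem_filter]
    rcases hx with rfl | rfl
    · exact ⟨Finset.mem_univ _, huv⟩
    · exact ⟨Finset.mem_univ _, huw⟩
  have hc2 := Finset.card_le_card hs2
  rw [Finset.card_pair hvw] at hc2
  have h2 : dg (lowG G S) univ u = (univ.filter (fun x => (lowG G S).Adj u x)).card := by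
    unfold dg
    congr
  rw [h2] at h1
  have e1 := Finset.eq_of_subset_of_card_le hs1 (by rw [Finset.card_pair hab]; omega)
  have e2 := Finset.eq_of_subset_of_card_le hs2 (by rw [Finset.card_pair hvw]; omega)
  refine ⟨e1.symm, fun x hx => ?_⟩
  have h3 : x ∈ univ.filter (fun x => (lowG G S).Adj u x) :=
    Finset.mem_filter.2 ⟨Finset.mem_univ _, hx⟩
  rw [← e2, Finset.mem_insert, Finset.mem_singleton] at h3
  exact h3

/-- **The special graph is excluded.** The graph induced on `S` (with labels) is `H0`.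

Proof. `U`, `comp_partition` as in `good_excludes`. If no triangle `u v w` of low vertices has two
common labels: `good_excludes` with the first certificate (`hx` holds). Otherwise let `u, v, w` be such
a triangle and `a ≠ b` common labels. All three have degree four, two neighbours in the triangle and
the two vertices of `S` with labels `a, b`, so `NN u = NN v = NN w = {a, b}`, they have no other low
neighbours, and `C₀ = {u, v, w}` is one of the components in `𝒞` (the component containing `u`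
contains `v`, `w`, is connected, and there is no edge of `lowG` leaving `C₀`). `a, b` are not adjacent in `H0` (else
a `K₅` in `G`). `h0_orbit` gives `σ`, `p`; `lab' = σ ∘ lab`; `NN G S lab' x = (NN G S lab x).image σ`, so the common
labels are now `p.1, p.2`. Let `P`, `Kg` be the certificate for `p`. No colouring `k` fails on `C₀`: both labels have
the same colour `c`, so the three lists contain the three other colours: colour `u, v, w` with them. So
`some_fails` gives a component in `𝒟 = 𝒞.erase C₀` and `weight_le` gives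
`∑ w ≤ ∑_{𝒟} ldp`. `ldp C₀ ≥ 6 lam + 7 tau` (cost `3 * 2`; three adjacent pairs with `|{a, b}| = 2`; one
triangle). `total_load`: `∑_{𝒟} ldp + 6 lam + 7 tau + 2 lam e(H) + tau t(H) ≤ 30 lam + 9 tau`,
contradicting the budget `24 lam + 2 tau < ∑ w + 2 lam e(H) + tau t(H)`. -/
theorem special_excludes (hc : SpecCert) {V : Type} [Fintype V] [DecidableEq V]
    (G : SimpleGraph V) (S : Finset V) (lab : V → Fin 8) (hinj : Set.InjOn lab (S : Set V))
    (hlab : ∀ v ∈ S, (lab v).val < 6) (hdeg : ∀ v, v ∉ S → deg G v = 0 ∨ deg G v = 4)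
    (hH : ∀ a b, H0.Adj a b ↔ ∃ u ∈ S, ∃ v ∈ S, lab u = a ∧ lab v = b ∧ G.Adj u v)
    (hk : G.CliqueFree 5) (hbud : ∑ v ∈ S, deg G v ≤ 30)
    (ht : nt G ≤ 9) (hnc : ¬ G.Colorable 4) : False := by
  classical
  have hLab : ∀ a : Fin 8, a.val < 6 → a ∈ ({0, 1, 2, 3, 4, 5} : Finset (Fin 8)) := by decide
  by_cases hx : ∀ u v w, (lowG G S).Adj u v → (lowG G S).Adj v w → (lowG G S).Adj u w →
      (NN G S lab u ∩ NN G S lab v ∩ NN G S lab w).card < 2
  · obtain ⟨P, Kg, hkf, -, hg, hP1, hP2⟩ := hc.1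
    refine good_excludes G P Kg 30 hg S lab hinj ?_ hdeg ?_ ?_ ?_ (fun _ => hx) hbud ht hnc
    · intro v hv
      unfold Par.Lab
      rw [hkf, if_neg (by decide)]
      exact hLab _ (hlab v hv)
    · intro a b hab
      exact (hH a b).1 (hP1 hab)
    · intro u hu v hv huv
      exact hP2 ((hH _ _).2 ⟨u, hu, v, hv, rfl, rfl, huv⟩)
    · rw [hkf, if_neg (by decide)]
      exact hk
  push Not at hx
  obtain ⟨u, v, w, huv, hvw, huw, hcard⟩ := hx
  have hlt : 1 < (NN G S lab u ∩ NN G S lab v ∩ NN G S lab w).card := by omega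
  obtain ⟨a, ha, b, hb, hab⟩ := Finset.one_lt_card.1 hlt
  simp only [Finset.mem_inter] at ha hb
  obtain ⟨⟨hau, hav⟩, haw⟩ := ha
  obtain ⟨⟨hbu, hbv⟩, hbw⟩ := hb
  obtain ⟨Nu, Au⟩ := as7_vert G S lab hinj hdeg u v w hvw.1.ne huv huw a b hab hau hbu
  obtain ⟨Nv, Av⟩ := as7_vert G S lab hinj hdeg v u w huw.1.ne huv.symm hvw a b hab hav hbv
  obtain ⟨Nw, Aw⟩ := as7_vert G S lab hinj hdeg w u v huv.1.ne huw.symm hvw.symm a b hab haw hbw
  have hlow : ∀ x ∈ NN G S lab u, x.val < 6 := by
    intro x hx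
    rw [NN, if_neg huv.2.1, Finset.mem_image] at hx
    obtain ⟨y, hy, rfl⟩ := hx
    exact hlab y (Finset.mem_filter.1 hy).1
  obtain ⟨C₀, hC₀⟩ : ∃ C₀ : Finset V, C₀ = {u, v, w} := ⟨_, rfl⟩
  have hmC : ∀ x, x ∈ C₀ ↔ x = u ∨ x = v ∨ x = w := by
    intro x
    rw [hC₀]
    simp only [Finset.mem_insert, Finset.mem_singleton]
  have hCcard : C₀.card = 3 :=
    Finset.card_eq_three.2 ⟨u, v, w, huv.1.ne, huw.1.ne, hvw.1.ne, hC₀⟩
  have hCS : ∀ x ∈ C₀, x ∉ S := by
    intro x hx
    rcases (hmC x).1 hx with rfl | rfl | rfl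
    · exact huv.2.1
    · exact hvw.2.1
    · exact huw.2.2
  have hCN : ∀ x ∈ C₀, NN G S lab x = {a, b} := by
    intro x hx
    rcases (hmC x).1 hx with rfl | rfl | rfl
    · exact Nu
    · exact Nv
    · exact Nw
  have hCcl : (lowG G S).IsClique (C₀ : Set V) := by
    intro x hx y hy hxy
    rcases (hmC x).1 (Finset.mem_coe.1 hx) with h | h | h <;>
      rcases (hmC y).1 (Finset.mem_coe.1 hy) with h' | h' | h' <;> rw [h, h'] at hxy ⊢
    · exact absurd rfl hxy
    · exact huv
    · exact huw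
    · exact huv.symm
    · exact absurd rfl hxy
    · exact hvw
    · exact huw.symm
    · exact hvw.symm
    · exact absurd rfl hxy
  have hCadj : ∀ x ∈ C₀, ∀ y, (lowG G S).Adj x y → y ∈ C₀ := by
    intro x hx y hxy
    rw [hmC]
    rcases (hmC x).1 hx with rfl | rfl | rfl
    · exact Or.inr (Au y hxy)
    · rcases Av y hxy with h | h
      · exact Or.inl h
      · exact Or.inr (Or.inr h)
    · rcases Aw y hxy with h | h
      · exact Or.inl h
      · exact Or.inr (Or.inl h)
  have hnab : ¬ H0.Adj a b := by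
    intro hadj
    obtain ⟨B, hB1, hB2⟩ := big_clique G S lab H0 (fun a b h => (hH a b).1 h) hinj C₀ hCS
      (fun x hx y hy hxy => (hCcl hx hy hxy).1) {a, b} (by
        intro x hx y hy hxy
        simp only [Finset.coe_insert, Finset.coe_singleton, Set.mem_insert_iff,
          Set.mem_singleton_iff] at hx hy
        rcases hx with rfl | rfl <;> rcases hy with rfl | rfl
        · exact absurd rfl hxy
        · exact hadj
        · exact hadj.symm
        · exact absurd rfl hxy) ⟨u, (hmC u).2 (Or.inl rfl)⟩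
      (fun x hx => by rw [hCN x hx])
    rw [hCcard, Finset.card_pair hab] at hB1
    exact hk B ⟨hB2, hB1⟩
  obtain ⟨σ, hσ1, hσ2, p, hp, hσp⟩ := h0_orbit a b (hlow a hau) (hlow b hbu) hab hnab
  obtain ⟨P, Kg, hkf, hx3, hg, hP1, hP2, hφ⟩ := hc.2 p hp
  obtain ⟨lab', hlab'⟩ : ∃ lab' : V → Fin 8, lab' = fun v => σ (lab v) := ⟨_, rfl⟩
  have hinj' : Set.InjOn lab' (S : Set V) := by
    intro x hx y hy hxy
    rw [hlab'] at hxy
    exact hinj hx hy (σ.injective hxy)
  have hl' : ∀ x ∈ S, lab' x ∈ P.Lab := by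
    intro x hx
    unfold Par.Lab
    rw [hkf, if_neg (by decide), hlab']
    exact hLab _ (hσ2 _ (hlab x hx))
  have hH' : ∀ a b, P.H.Adj a b → ∃ u ∈ S, ∃ v ∈ S, lab' u = a ∧ lab' v = b ∧ G.Adj u v := by
    intro x y hxy
    have h1 : H0.Adj (σ (σ.symm x)) (σ (σ.symm y)) := by
      rw [Equiv.apply_symm_apply, Equiv.apply_symm_apply]
      exact hP1 hxy
    obtain ⟨s, hs, t, hst, h2, h3, h4⟩ := (hH _ _).1 ((hσ1 _ _).1 h1)
    refine ⟨s, hs, t, hst, ?_, ?_, h4⟩
    · rw [hlab']
      show σ (lab s) = x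
      rw [h2, Equiv.apply_symm_apply]
    · rw [hlab']
      show σ (lab t) = y
      rw [h3, Equiv.apply_symm_apply]
  have hK' : ∀ u ∈ S, ∀ v ∈ S, G.Adj u v → Kg.Adj (lab' u) (lab' v) := by
    intro x hx y hy hxy
    rw [hlab']
    exact hP2 ((hσ1 _ _).2 ((hH _ _).2 ⟨x, hx, y, hy, rfl, rfl, hxy⟩))
  have hk' : G.CliqueFree (if P.kf then 4 else 5) := by
    rw [hkf, if_neg (by decide)]
    exact hk
  have hCN' : ∀ x ∈ C₀, NN G S lab' x = {p.1, p.2} := by
    intro x hx
    rw [hlab', as7_NN, hCN x hx, Finset.image_insert, Finset.image_singleton]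
    rcases hσp with ⟨h1, h2⟩ | ⟨h1, h2⟩
    · rw [h1, h2]
    · rw [h1, h2, Finset.pair_comm]
  have hpne : p.1 ≠ p.2 := by
    rcases hσp with ⟨h1, h2⟩ | ⟨h1, h2⟩
    · rw [← h1, ← h2]
      exact fun h => hab (σ.injective h)
    · rw [← h1, ← h2]
      exact fun h => hab (σ.injective h).symm
  obtain ⟨U, hUdef⟩ : ∃ U : Finset V, U = univ.filter (fun x => x ∉ S ∧ deg G x ≠ 0) := ⟨_, rfl⟩
  have hmU : ∀ x, x ∈ U ↔ x ∉ S ∧ deg G x ≠ 0 := by
    intro x
    rw [hUdef, Finset.mem_filter]
    exact ⟨fun h => h.2, fun h => ⟨Finset.mem_univ _, h⟩⟩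
  have hCU : C₀ ⊆ U := by
    intro x hx
    rw [hmU]
    refine ⟨hCS x hx, ?_⟩
    unfold deg
    rw [Finset.card_ne_zero]
    have hex : ∃ y, G.Adj x y := by
      rcases (hmC x).1 hx with rfl | rfl | rfl
      · exact ⟨v, huv.1⟩
      · exact ⟨w, hvw.1⟩
      · exact ⟨u, huw.1.symm⟩
    obtain ⟨y, hy⟩ := hex
    exact ⟨y, Finset.mem_filter.2 ⟨Finset.mem_univ y, hy⟩⟩
  obtain ⟨𝒞, hconn, hdis, hcov, hno⟩ := comp_partition (lowG G S) (U \ C₀)
  have hCsub : ∀ C ∈ 𝒞, C ⊆ U \ C₀ := by
    intro C hC x hx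
    rw [← hcov, Finset.mem_biUnion]
    exact ⟨C, hC, hx⟩
  have hdis0 : ∀ C ∈ 𝒞, Disjoint C₀ C := by
    intro C hC
    rw [Finset.disjoint_left]
    intro x hx hx'
    exact (Finset.mem_sdiff.1 (hCsub C hC hx')).2 hx
  have hCnot : C₀ ∉ 𝒞 := by
    intro h
    have h1 := hdis0 C₀ h
    rw [Finset.disjoint_self_iff_empty] at h1
    rw [h1, Finset.card_empty] at hCcard
    omega
  have hno0 : ∀ C ∈ 𝒞, ∀ x ∈ C₀, ∀ y ∈ C, ¬ (lowG G S).Adj x y := by
    intro C hC x hx y hy hxy
    exact (Finset.disjoint_left.1 (hdis0 C hC)) (hCadj x hx y hxy) hy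
  have hconn' : ∀ C ∈ insert C₀ 𝒞, Conn (lowG G S) C := by
    intro C hC
    rcases Finset.mem_insert.1 hC with rfl | h
    · refine as7_conn _ _ u ((hmC u).2 (Or.inl rfl)) fun x hx => ?_
      rcases (hmC x).1 hx with h | h | h
      · exact Or.inl h
      · rw [h]; exact Or.inr huv
      · rw [h]; exact Or.inr huw
    · exact hconn C h
  have hdis' : ∀ C ∈ insert C₀ 𝒞, ∀ D ∈ insert C₀ 𝒞, C ≠ D → Disjoint C D := by
    intro C hC D hD hne
    rcases Finset.mem_insert.1 hC with h | h <;> rcases Finset.mem_insert.1 hD with h' | h'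
    · exact absurd (h.trans h'.symm) hne
    · rw [h]; exact hdis0 D h'
    · rw [h']; exact (hdis0 C h).symm
    · exact hdis C h D h' hne
  have hcov' : (insert C₀ 𝒞).biUnion id = U := by
    rw [Finset.biUnion_insert, hcov]
    exact Finset.union_sdiff_of_subset hCU
  have hno' : ∀ C ∈ insert C₀ 𝒞, ∀ D ∈ insert C₀ 𝒞, C ≠ D → ∀ u ∈ C, ∀ v ∈ D,
      ¬ (lowG G S).Adj u v := by
    intro C hC D hD hne x hx y hy hxy
    rcases Finset.mem_insert.1 hC with h | h <;> rcases Finset.mem_insert.1 hD with h' | h'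
    · exact hne (h.trans h'.symm)
    · rw [h] at hx
      exact hno0 D h' x hx y hy hxy
    · rw [h'] at hy
      exact hno0 C h y hy x hx hxy.symm
    · exact hno C h D h' hne x hx y hy hxy
  have hU : ∀ v, v ∉ S → deg G v ≠ 0 → v ∈ U := fun x h1 h2 => (hmU x).2 ⟨h1, h2⟩
  have hUS : ∀ v ∈ U, v ∉ S := fun x hx => ((hmU x).1 hx).1
  have hU0 : ∀ v ∈ U, deg G v ≠ 0 := fun x hx => ((hmU x).1 hx).2
  have hfail : ∀ k : Fin P.K, ∃ C ∈ 𝒞, ¬ ∃ c : V → Fin 4,
      LCol (lowG G S) (Ls P (NN G S lab') k) C c := by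
    intro k
    obtain ⟨C, hC, hCk⟩ := some_fails G P Kg hg.proper S lab' hK' U hU hUS (insert C₀ 𝒞) hcov'
      hdis' hno' hnc k
    rcases Finset.mem_insert.1 hC with h | h
    · exfalso
      apply hCk
      rw [h, hC₀]
      refine as7_col (lowG G S) P k (NN G S lab') u v w huv.1.ne huw.1.ne hvw.1.ne p.1 p.2
        (hφ k) fun x hx => ?_
      rw [hCN' x (by rw [hC₀]; exact hx)]
    · exact ⟨C, h, hCk⟩
  have hw := weight_le G P hg.closed S lab' hinj' hl' hdeg hH' hk'
    (fun h => by rw [hx3] at h; cases h) U hU hUS hU0 (insert C₀ 𝒞) hconn' hcov' hno' 𝒞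
    (Finset.subset_insert _ _) hfail
  have htl := total_load G P S lab' hinj' hH' U hU hUS (insert C₀ 𝒞) hcov' hdis'
  rw [Finset.sum_insert hCnot] at htl
  have hld := as7_ldp P (lowG G S) (NN G S lab') C₀ {p.1, p.2} (Finset.card_pair hpne) hCN' hCcard
    hCcl
  have hb := hg.budget
  have m1 : P.lam * ∑ v ∈ S, deg G v ≤ P.lam * 30 := Nat.mul_le_mul_left _ hbud
  have m2 : P.tau * nt G ≤ P.tau * 9 := Nat.mul_le_mul_left _ ht
  omega

end Pool.Agent.MP_528dc0_co

end

section

open Finset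

namespace Pool.Agent.MP_528dc0_co

/-- The injective relabelling maps the triangles of `H` (all of whose vertices with an edge come from `S`) injectively to triangles of
`G`: for a triangle `e` of `H` take the set of the `u ∈ S` with `lab u ∈ e`. -/
theorem tH_le_nt {V : Type} [Fintype V] [DecidableEq V] (G : SimpleGraph V) (S : Finset V)
    (lab : V → Fin 8) (hinj : Set.InjOn lab (S : Set V)) (H : SimpleGraph (Fin 8))
    (hH : ∀ a b, H.Adj a b ↔ ∃ u ∈ S, ∃ v ∈ S, lab u = a ∧ lab v = b ∧ G.Adj u v) :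
    Par.tH H ≤ nt G := by
  classical
  have key : ∀ e : Finset (Fin 8), e.card = 3 → H.IsClique (e : Set (Fin 8)) →
      (S.filter fun u => lab u ∈ e).image lab = e := by
    intro e he hc
    ext a
    simp only [Finset.mem_image, Finset.mem_filter]
    constructor
    · rintro ⟨u, ⟨_, hu⟩, rfl⟩
      exact hu
    · intro ha
      obtain ⟨b, hb, hne⟩ : ∃ b ∈ e, b ≠ a :=
        Finset.exists_mem_ne (by omega) a
      obtain ⟨u, hu, v, hv, h1, h2, h3⟩ := (hH a b).1 (hc ha hb hne.symm)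
      exact ⟨u, ⟨hu, by rw [h1]; exact ha⟩, h1⟩
  unfold Par.tH nt
  refine Finset.card_le_card_of_injOn (fun e => S.filter fun u => lab u ∈ e) ?_ ?_
  · intro e he
    have he' := Finset.mem_coe.1 he
    rw [Finset.mem_filter, Finset.mem_powersetCard] at he'
    obtain ⟨⟨-, hcard⟩, hcl⟩ := he'
    have hk := key e hcard hcl
    refine Finset.mem_coe.2 ?_
    refine (@SimpleGraph.mem_cliqueFinset_iff V G _ (fun a b => Classical.propDecidable (a = b))
      (fun a b => Classical.propDecidable (G.Adj a b)) 3 _).2 ((SimpleGraph.isNClique_iff G).2 ?_)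
    constructor
    · intro u hu v hv hne
      have hu' := Finset.mem_filter.1 (Finset.mem_coe.1 hu)
      have hv' := Finset.mem_filter.1 (Finset.mem_coe.1 hv)
      have hl : lab u ≠ lab v := fun h =>
        hne (hinj (Finset.mem_coe.2 hu'.1) (Finset.mem_coe.2 hv'.1) h)
      obtain ⟨u', hu1, v', hv1, h1, h2, h3⟩ := (hH (lab u) (lab v)).1 (hcl hu'.2 hv'.2 hl)
      have e1 : u' = u := hinj (Finset.mem_coe.2 hu1) (Finset.mem_coe.2 hu'.1) h1
      have e2 : v' = v := hinj (Finset.mem_coe.2 hv1) (Finset.mem_coe.2 hv'.1) h2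
      rw [← e1, ← e2]
      exact h3
    · have h1 : ((S.filter fun u => lab u ∈ e).image lab).card =
          (S.filter fun u => lab u ∈ e).card := by
        apply Finset.card_image_of_injOn
        intro u hu v hv h
        exact hinj (Finset.mem_coe.2 (Finset.mem_filter.1 (Finset.mem_coe.1 hu)).1)
          (Finset.mem_coe.2 (Finset.mem_filter.1 (Finset.mem_coe.1 hv)).1) h
      rw [← h1, hk, hcard]
  · intro e he e' he' hee
    have h1 := Finset.mem_filter.1 (Finset.mem_coe.1 he)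
    have h2 := Finset.mem_filter.1 (Finset.mem_coe.1 he')
    have h3 := key e (Finset.mem_powersetCard.1 h1.1).2 h1.2
    have h4 := key e' (Finset.mem_powersetCard.1 h2.1).2 h2.2
    have h5 : (S.filter fun u => lab u ∈ e) = S.filter fun u => lab u ∈ e' := hee
    rw [← h3, h5, h4]

end Pool.Agent.MP_528dc0_co

end
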