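/-!
# The kernel engine

Packed closure computation; written with fully inlined primitive operations on `Nat` (which the
kernel evaluates with GMP) and recursors, so that `by decide +kernel` is fast. Generated.
-/

set_option autoImplicit false
set_option linter.unusedVariables false
noncomputable section
namespace Pool.Agent.MP_528dc0_co.Eng

/-- A packed list: fields `V`, loads `LV`, ones `ON`, all in lanes of `W` bits. -/
structure Lst where
  V : Nat
  LV : Nat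
  ON : Nat

/-- Items. Fields are packed states; `w` = weight minus load. `r1 f`: child form; `r2 p q`, `r3 p q`: root form and
child form; `t2 … v2`: child form; `v3 f n w`: `n` = label mask of the third member. -/
inductive It where
  | r1 (f w : Nat) | r2 (p q w : Nat) | r3 (p q w : Nat) | t2 (f w : Nat) | u2 (f w : Nat)
  | u3 (f w : Nat) | u4 (f w : Nat) | v2 (f w : Nat) | v3 (f n w : Nat) | bad

/-- the type of the main loop -/
abbrev RT := List It → Lst → Lst → Lst → Lst → Lst → Lst → Lst → Lst → Lst → Lst → Bool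

section
variable (kf W g pl sJ sj8 l0 : Nat) (Hf LMf C mF mS CM HC S16 D3 D1 X0 XL XF XY CL ET E3 PT F1 : Nat)
variable (lam tau m0 k0 k1 k2 c1 c2 c3 kp k4 kk kV kW t1 t2e t2u thT th6 th4 th2 thV t4 : Nat)
variable (B1 B2 : Lst) (B3 : List Nat)

/-- test all members of a packed list at once: bit `g` of a lane is set iff the member is viable -/
def pas (l : Lst) (m k : Nat) : Nat := Lst.rec (motive := fun _ => Nat) (fun V LV ON => (Nat.xor (Nat.land (Nat.sub (Nat.add LV (Nat.mul (Nat.shiftLeft k pl) ON)) (Nat.land (Nat.mul (Nat.land (Nat.sub (Nat.mul Hf ON) (Nat.land V (Nat.mul m ON))) (Nat.mul Hf ON)) C) (Nat.mul LMf ON))) (Nat.shiftLeft ON g)) (Nat.shiftLeft ON g))) l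
/-- append a field with load `ld` -/
def app (l : Lst) (f ld : Nat) : Lst := Lst.rec (motive := fun _ => Lst) (fun V LV ON => Lst.mk (Nat.add (Nat.shiftLeft V W) f) (Nat.add (Nat.shiftLeft LV W) (Nat.shiftLeft (Nat.add m0 ld) pl)) (Nat.add (Nat.shiftLeft ON W) 1)) l
/-- enumerate the set bits of `E`, extract the fields, apply `f` -/
def exl (V : Nat) (f : Nat → List It → List It) : Nat → List It → List It :=
  Nat.rec (motive := fun _ => Nat → List It → List It) (fun _ _ => [It.bad])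
    (fun _ ih E st => (Bool.rec (motive := fun _ => List It) (ih (Nat.land E (Nat.sub E 1)) (f (Nat.mod (Nat.land V (Nat.mul (Nat.shiftRight (Nat.sub E (Nat.land E (Nat.sub E 1))) g) mF)) mF) st)) st (Nat.beq E 0))) 2000
def exs (l : Lst) (f : Nat → List It → List It) (m k : Nat) (st : List It) : List It := exl g mF (Lst.rec (motive := fun _ => Nat) (fun V _ _ => V) l) f (pas g pl Hf LMf C l m k) st
/-- root `x` (rank 2), child `y`: rank 1 -/
def edge1 (x y : Nat) (st : List It) : List It := (Bool.rec (motive := fun _ => List It) st (Bool.rec (motive := fun _ => List It) (List.cons (It.r1 (Nat.add (Nat.add (Nat.sub CM (Nat.lor (Nat.land (Nat.lor x y) CM) (Nat.sub (Nat.sub HC (Nat.land (Nat.sub HC (Nat.land (Nat.land x y) CM)) HC)) (Nat.shiftRight (Nat.sub HC (Nat.land (Nat.sub HC (Nat.land (Nat.land x y) CM)) HC)) 5)))) (Nat.sub (Nat.sub HC (Nat.land (Nat.sub HC (Nat.land (Nat.land x y) CM)) HC)) (Nat.shiftRight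 (Nat.sub HC (Nat.land (Nat.sub HC (Nat.land (Nat.land x y) CM)) HC)) 5))) (Nat.add (Nat.land x X0) (Nat.shiftLeft (Nat.add (Nat.add (Nat.shiftRight x l0) (Nat.shiftRight y l0)) (Nat.land (Nat.shiftRight PT (Nat.mul 16 (Nat.land (Nat.shiftRight (Nat.land x y) sJ) 255))) 65535)) l0))) (Nat.sub (Nat.land (Nat.shiftRight (Nat.mul (Nat.land (Nat.sub HC (Nat.land (Nat.land x y) CM)) HC) C) pl) mS) (Nat.add (Nat.add (Nat.shiftRight x l0) (Nat.shiftRight y l0)) (Nat.land (Nat.shiftRight PT (Nat.mul 16 (Nat.land (Nat.shiftRight (Nat.land x y) sJ) 255))) 65535)))) st) st (Nat.ble (Nat.land (Nat.shiftRight (Nat.mul (Nat.land (Nat.sub HC (Nat.land (Nat.land x y) CM)) HC) C) pl) mS) (Nat.add (Nat.add (Nat.add (Nat.shiftRight x l0) (Nat.shiftRight y l0)) (Nat.land (Nat.shiftRight PT (Nat.mul 16 (Nat.land (Nat.shiftRight (Nat.land x y) sJ) 255))) 65535)) c1))) (Nat.beq (Nat.land (Nat.shiftRight ET (Nat.land (Nat.shiftRight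 (Nat.land x y) sJ) 255)) 1) 0))
def edge2 (x y : Nat) (st : List It) : List It := (Bool.rec (motive := fun _ => List It) st (Bool.rec (motive := fun _ => List It) (List.cons (It.r2 (Nat.add (Nat.lor (Nat.land (Nat.lor x y) CM) (Nat.sub (Nat.sub HC (Nat.land (Nat.sub HC (Nat.land (Nat.land x y) CM)) HC)) (Nat.shiftRight (Nat.sub HC (Nat.land (Nat.sub HC (Nat.land (Nat.land x y) CM)) HC)) 5))) (Nat.add (Nat.land x X0) (Nat.shiftLeft (Nat.add (Nat.add (Nat.shiftRight x l0) (Nat.shiftRight y l0)) (Nat.land (Nat.shiftRight PT (Nat.mul 16 (Nat.land (Nat.shiftRight (Nat.land x y) sJ) 255))) 65535)) l0))) (Nat.add (Nat.add (Nat.sub CM (Nat.lor (Nat.land (Nat.lor x y) CM) (Nat.sub (Nat.sub HC (Nat.land (Nat.sub HC (Nat.land (Nat.land x y) CM)) HC)) (Nat.shiftRight (Nat.sub HC (Nat.land (Nat.sub HC (Nat.land (Nat.land x y) CM)) HC)) 5)))) (Nat.sub (Nat.sub HC (Nat.land (Nat.sub HC (Nat.land (Nat.land x y) CM)) HC)) (Nat.shiftRight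 (Nat.sub HC (Nat.land (Nat.sub HC (Nat.land (Nat.land x y) CM)) HC)) 5))) (Nat.add (Nat.land x X0) (Nat.shiftLeft (Nat.add (Nat.add (Nat.shiftRight x l0) (Nat.shiftRight y l0)) (Nat.land (Nat.shiftRight PT (Nat.mul 16 (Nat.land (Nat.shiftRight (Nat.land x y) sJ) 255))) 65535)) l0))) (Nat.sub (Nat.land (Nat.shiftRight (Nat.mul (Nat.land (Nat.sub HC (Nat.land (Nat.land x y) CM)) HC) C) pl) mS) (Nat.add (Nat.add (Nat.shiftRight x l0) (Nat.shiftRight y l0)) (Nat.land (Nat.shiftRight PT (Nat.mul 16 (Nat.land (Nat.shiftRight (Nat.land x y) sJ) 255))) 65535)))) st) st (Nat.ble (Nat.land (Nat.shiftRight (Nat.mul (Nat.land (Nat.sub HC (Nat.land (Nat.land x y) CM)) HC) C) pl) mS) (Nat.add (Nat.add (Nat.add (Nat.shiftRight x l0) (Nat.shiftRight y l0)) (Nat.land (Nat.shiftRight PT (Nat.mul 16 (Nat.land (Nat.shiftRight (Nat.land x y) sJ) 255))) 65535)) c2))) (Nat.beq (Nat.land (Nat.shiftRight ET (Nat.land (Nat.shiftRight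 (Nat.land x y) sJ) 255)) 1) 0))
def edge0 (x y : Nat) (st : List It) : List It := (Bool.rec (motive := fun _ => List It) st (Bool.rec (motive := fun _ => List It) (List.cons It.bad st) st (Nat.ble (Nat.land (Nat.shiftRight (Nat.mul (Nat.land (Nat.sub HC (Nat.land (Nat.land x y) CM)) HC) C) pl) mS) (Nat.add (Nat.add (Nat.shiftRight x l0) (Nat.shiftRight y l0)) (Nat.land (Nat.shiftRight PT (Nat.mul 16 (Nat.land (Nat.shiftRight (Nat.land x y) sJ) 255))) 65535)))) (Nat.beq (Nat.land (Nat.shiftRight ET (Nat.land (Nat.shiftRight (Nat.land x y) sJ) 255)) 1) 0))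
/-- root `x`, closed chain `y`; `k3 = 1` for triangles -/
def close1 (k3 x y : Nat) (st : List It) : List It := (Bool.rec (motive := fun _ => List It) st (Bool.rec (motive := fun _ => List It) (List.cons (It.r1 (Nat.add (Nat.add (Nat.sub CM (Nat.lor (Nat.land (Nat.lor x y) CM) (Nat.sub (Nat.sub HC (Nat.land (Nat.sub HC (Nat.land (Nat.land x y) CM)) HC)) (Nat.shiftRight (Nat.sub HC (Nat.land (Nat.sub HC (Nat.land (Nat.land x y) CM)) HC)) 5)))) (Nat.sub (Nat.sub HC (Nat.land (Nat.sub HC (Nat.land (Nat.land x y) CM)) HC)) (Nat.shiftRight (Nat.sub HC (Nat.land (Nat.sub HC (Nat.land (Nat.land x y) CM)) HC)) 5))) (Nat.add (Nat.land x X0) (Nat.shiftLeft (Nat.add (Nat.add (Nat.shiftRight x l0) (Nat.shiftRight y l0)) (Nat.add (Nat.land (Nat.shiftRight PT (Nat.mul 16 (Nat.land (Nat.shiftRight (Nat.land x y) sJ) 255))) 65535) (Nat.land (Nat.shiftRight PT (Nat.mul 16 (Nat.land (Nat.land (Nat.shiftRight x sJ) (Nat.shiftRight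 y sj8)) 255))) 65535))) l0))) (Nat.sub (Nat.land (Nat.shiftRight (Nat.mul (Nat.land (Nat.sub HC (Nat.land (Nat.land x y) CM)) HC) C) pl) mS) (Nat.add (Nat.add (Nat.shiftRight x l0) (Nat.shiftRight y l0)) (Nat.add (Nat.land (Nat.shiftRight PT (Nat.mul 16 (Nat.land (Nat.shiftRight (Nat.land x y) sJ) 255))) 65535) (Nat.land (Nat.shiftRight PT (Nat.mul 16 (Nat.land (Nat.land (Nat.shiftRight x sJ) (Nat.shiftRight y sj8)) 255))) 65535))))) st) st (Nat.ble (Nat.land (Nat.shiftRight (Nat.mul (Nat.land (Nat.sub HC (Nat.land (Nat.land x y) CM)) HC) C) pl) mS) (Nat.add (Nat.add (Nat.add (Nat.shiftRight x l0) (Nat.shiftRight y l0)) (Nat.add (Nat.land (Nat.shiftRight PT (Nat.mul 16 (Nat.land (Nat.shiftRight (Nat.land x y) sJ) 255))) 65535) (Nat.land (Nat.shiftRight PT (Nat.mul 16 (Nat.land (Nat.land (Nat.shiftRight x sJ) (Nat.shiftRight y sj8)) 255))) 65535))) c1))) (Nat.beq (Nat.add (Nat.mul k3 (Nat.land (Nat.shiftRight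 E3 (Nat.land (Nat.land (Nat.shiftRight (Nat.land x y) sJ) 255) (Nat.land (Nat.land (Nat.shiftRight x sJ) (Nat.shiftRight y sj8)) 255))) 1)) (Nat.land (Nat.lor (Nat.shiftRight ET (Nat.land (Nat.shiftRight (Nat.land x y) sJ) 255)) (Nat.shiftRight ET (Nat.land (Nat.land (Nat.shiftRight x sJ) (Nat.shiftRight y sj8)) 255))) 1)) 0))
def close0 (k3 x y : Nat) (st : List It) : List It := (Bool.rec (motive := fun _ => List It) st (Bool.rec (motive := fun _ => List It) (List.cons It.bad st) st (Nat.ble (Nat.land (Nat.shiftRight (Nat.mul (Nat.land (Nat.sub HC (Nat.land (Nat.land x y) CM)) HC) C) pl) mS) (Nat.add (Nat.add (Nat.shiftRight x l0) (Nat.shiftRight y l0)) (Nat.add (Nat.land (Nat.shiftRight PT (Nat.mul 16 (Nat.land (Nat.shiftRight (Nat.land x y) sJ) 255))) 65535) (Nat.land (Nat.shiftRight PT (Nat.mul 16 (Nat.land (Nat.land (Nat.shiftRight x sJ) (Nat.shiftRight y sj8)) 255))) 65535))))) (Nat.beq (Nat.add (Nat.mul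 k3 (Nat.land (Nat.shiftRight E3 (Nat.land (Nat.land (Nat.shiftRight (Nat.land x y) sJ) 255) (Nat.land (Nat.land (Nat.shiftRight x sJ) (Nat.shiftRight y sj8)) 255))) 1)) (Nat.land (Nat.lor (Nat.shiftRight ET (Nat.land (Nat.shiftRight (Nat.land x y) sJ) 255)) (Nat.shiftRight ET (Nat.land (Nat.land (Nat.shiftRight x sJ) (Nat.shiftRight y sj8)) 255))) 1)) 0))
def chain (r : Nat → Nat → It) (thr x y : Nat) (st : List It) : List It := (Bool.rec (motive := fun _ => List It) st (Bool.rec (motive := fun _ => List It) (List.cons (r (Nat.add (Nat.lor (Nat.land x CM) (Nat.sub (Nat.sub HC (Nat.land (Nat.sub HC (Nat.land (Nat.land x y) CM)) HC)) (Nat.shiftRight (Nat.sub HC (Nat.land (Nat.sub HC (Nat.land (Nat.land x y) CM)) HC)) 5))) (Nat.add (Nat.add (Nat.land y XL) (Nat.land x XF)) (Nat.shiftLeft (Nat.add (Nat.add (Nat.shiftRight x l0) (Nat.shiftRight y l0)) (Nat.land (Nat.shiftRight PT (Nat.mul 16 (Nat.land (Nat.shiftRight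 (Nat.land x y) sJ) 255))) 65535)) l0))) (Nat.sub (Nat.land (Nat.shiftRight (Nat.mul (Nat.land (Nat.sub HC (Nat.land (Nat.land x y) CM)) HC) C) pl) mS) (Nat.add (Nat.add (Nat.shiftRight x l0) (Nat.shiftRight y l0)) (Nat.land (Nat.shiftRight PT (Nat.mul 16 (Nat.land (Nat.shiftRight (Nat.land x y) sJ) 255))) 65535)))) st) st (Nat.ble (Nat.land (Nat.shiftRight (Nat.mul (Nat.land (Nat.sub HC (Nat.land (Nat.land x y) CM)) HC) C) pl) mS) (Nat.add (Nat.add (Nat.add (Nat.shiftRight x l0) (Nat.shiftRight y l0)) (Nat.land (Nat.shiftRight PT (Nat.mul 16 (Nat.land (Nat.shiftRight (Nat.land x y) sJ) 255))) 65535)) thr))) (Nat.beq (Nat.land (Nat.shiftRight ET (Nat.land (Nat.shiftRight (Nat.land x y) sJ) 255)) 1) 0))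
def pairG (y x : Nat) (st : List It) : List It := (Bool.rec (motive := fun _ => List It) st ((fun st => (Bool.rec (motive := fun _ => List It) (List.cons (It.t2 (Nat.add (Nat.lor (Nat.land y CM) (Nat.sub (Nat.sub HC (Nat.land (Nat.sub HC (Nat.land (Nat.land y x) CM)) HC)) (Nat.shiftRight (Nat.sub HC (Nat.land (Nat.sub HC (Nat.land (Nat.land y x) CM)) HC)) 5))) (Nat.add (Nat.add (Nat.land y XL) (Nat.land x XF)) (Nat.shiftLeft (Nat.add (Nat.add (Nat.add (Nat.shiftRight x l0) (Nat.shiftRight y l0)) (Nat.land (Nat.shiftRight PT (Nat.mul 16 (Nat.land (Nat.shiftRight (Nat.land x y) sJ) 255))) 65535)) tau) l0))) (Nat.sub (Nat.land (Nat.shiftRight (Nat.mul (Nat.land (Nat.sub HC (Nat.land (Nat.land x y) CM)) HC) C) pl) mS) (Nat.add (Nat.add (Nat.add (Nat.shiftRight x l0) (Nat.shiftRight y l0)) (Nat.land (Nat.shiftRight PT (Nat.mul 16 (Nat.land (Nat.shiftRight (Nat.land x y) sJ) 255))) 65535)) tau))) st) st (Nat.ble (Nat.land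 (Nat.shiftRight (Nat.mul (Nat.land (Nat.sub HC (Nat.land (Nat.land x y) CM)) HC) C) pl) mS) (Nat.add (Nat.add (Nat.add (Nat.shiftRight x l0) (Nat.shiftRight y l0)) (Nat.land (Nat.shiftRight PT (Nat.mul 16 (Nat.land (Nat.shiftRight (Nat.land x y) sJ) 255))) 65535)) thT)))) ((Bool.rec (motive := fun _ => List It) (List.cons (It.u2 (Nat.add (Nat.lor (Nat.land y CM) (Nat.sub (Nat.sub HC (Nat.land (Nat.sub HC (Nat.land (Nat.land y x) CM)) HC)) (Nat.shiftRight (Nat.sub HC (Nat.land (Nat.sub HC (Nat.land (Nat.land y x) CM)) HC)) 5))) (Nat.add (Nat.add (Nat.land y XL) (Nat.land x XF)) (Nat.shiftLeft (Nat.add (Nat.add (Nat.shiftRight x l0) (Nat.shiftRight y l0)) (Nat.land (Nat.shiftRight PT (Nat.mul 16 (Nat.land (Nat.shiftRight (Nat.land x y) sJ) 255))) 65535)) l0))) (Nat.sub (Nat.land (Nat.shiftRight (Nat.mul (Nat.land (Nat.sub HC (Nat.land (Nat.land x y) CM)) HC) C) pl) mS) (Nat.add (Nat.add (Nat.shiftRight x l0) (Nat.shiftRight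 y l0)) (Nat.land (Nat.shiftRight PT (Nat.mul 16 (Nat.land (Nat.shiftRight (Nat.land x y) sJ) 255))) 65535)))) (Bool.rec (motive := fun _ => List It) (List.cons (It.u2 (Nat.add (Nat.lor (Nat.land y CM) (Nat.sub (Nat.sub HC (Nat.land (Nat.sub HC (Nat.land (Nat.land y x) CM)) HC)) (Nat.shiftRight (Nat.sub HC (Nat.land (Nat.sub HC (Nat.land (Nat.land y x) CM)) HC)) 5))) (Nat.add (Nat.add (Nat.land x XL) (Nat.land y XF)) (Nat.shiftLeft (Nat.add (Nat.add (Nat.shiftRight x l0) (Nat.shiftRight y l0)) (Nat.land (Nat.shiftRight PT (Nat.mul 16 (Nat.land (Nat.shiftRight (Nat.land x y) sJ) 255))) 65535)) l0))) (Nat.sub (Nat.land (Nat.shiftRight (Nat.mul (Nat.land (Nat.sub HC (Nat.land (Nat.land x y) CM)) HC) C) pl) mS) (Nat.add (Nat.add (Nat.shiftRight x l0) (Nat.shiftRight y l0)) (Nat.land (Nat.shiftRight PT (Nat.mul 16 (Nat.land (Nat.shiftRight (Nat.land x y) sJ) 255))) 65535)))) st) st (Nat.beq (Nat.land x XY) (Nat.land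 y XY)))) st (Nat.ble (Nat.land (Nat.shiftRight (Nat.mul (Nat.land (Nat.sub HC (Nat.land (Nat.land x y) CM)) HC) C) pl) mS) (Nat.add (Nat.add (Nat.add (Nat.shiftRight x l0) (Nat.shiftRight y l0)) (Nat.land (Nat.shiftRight PT (Nat.mul 16 (Nat.land (Nat.shiftRight (Nat.land x y) sJ) 255))) 65535)) th6))))) (Nat.beq (Nat.land (Nat.shiftRight ET (Nat.land (Nat.shiftRight (Nat.land x y) sJ) 255)) 1) 0))
def pairV (y x : Nat) (st : List It) : List It := (Bool.rec (motive := fun _ => List It) (List.cons (It.v2 (Nat.add (Nat.lor (Nat.land y CM) (Nat.sub (Nat.sub HC (Nat.land (Nat.sub HC (Nat.land (Nat.land y x) CM)) HC)) (Nat.shiftRight (Nat.sub HC (Nat.land (Nat.sub HC (Nat.land (Nat.land y x) CM)) HC)) 5))) (Nat.add (Nat.add (Nat.land y XL) (Nat.land x XF)) (Nat.shiftLeft (Nat.add (Nat.add (Nat.shiftRight x l0) (Nat.shiftRight y l0)) (Nat.land (Nat.shiftRight PT (Nat.mul 16 (Nat.land (Nat.shiftRight (Nat.land x y)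 sJ) 255))) 65535)) l0))) (Nat.sub (Nat.land (Nat.shiftRight (Nat.mul (Nat.land (Nat.sub HC (Nat.land (Nat.land x y) CM)) HC) C) pl) mS) (Nat.add (Nat.add (Nat.shiftRight x l0) (Nat.shiftRight y l0)) (Nat.land (Nat.shiftRight PT (Nat.mul 16 (Nat.land (Nat.shiftRight (Nat.land x y) sJ) 255))) 65535)))) st) st (Nat.ble (Nat.land (Nat.shiftRight (Nat.mul (Nat.land (Nat.sub HC (Nat.land (Nat.land x y) CM)) HC) C) pl) mS) (Nat.add (Nat.add (Nat.add (Nat.shiftRight x l0) (Nat.shiftRight y l0)) (Nat.land (Nat.shiftRight PT (Nat.mul 16 (Nat.land (Nat.shiftRight (Nat.land x y) sJ) 255))) 65535)) thV)))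
def triV (x y : Nat) (st : List It) : List It := (Bool.rec (motive := fun _ => List It) (List.cons (It.v3 (Nat.add (Nat.lor (Nat.land x CM) (Nat.sub (Nat.sub HC (Nat.land (Nat.sub HC (Nat.land (Nat.land x y) CM)) HC)) (Nat.shiftRight (Nat.sub HC (Nat.land (Nat.sub HC (Nat.land (Nat.land x y) CM)) HC)) 5))) (Nat.add (Nat.land x X0) (Nat.shiftLeft (Nat.add (Nat.add (Nat.add (Nat.shiftRight y l0) (Nat.shiftRight x l0)) (Nat.add (Nat.land (Nat.shiftRight PT (Nat.mul 16 (Nat.land (Nat.shiftRight (Nat.land y x) sJ) 255))) 65535) (Nat.land (Nat.shiftRight PT (Nat.mul 16 (Nat.land (Nat.land (Nat.shiftRight y sJ) (Nat.shiftRight x sj8)) 255))) 65535))) t4) l0))) (Nat.land (Nat.shiftRight y sJ) 255) (Nat.sub (Nat.land (Nat.shiftRight (Nat.mul (Nat.land (Nat.sub HC (Nat.land (Nat.land x y) CM)) HC) C) pl) mS) (Nat.add (Nat.add (Nat.add (Nat.shiftRight y l0) (Nat.shiftRight x l0)) (Nat.add (Nat.land (Nat.shiftRight PT (Nat.mul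 16 (Nat.land (Nat.shiftRight (Nat.land y x) sJ) 255))) 65535) (Nat.land (Nat.shiftRight PT (Nat.mul 16 (Nat.land (Nat.land (Nat.shiftRight y sJ) (Nat.shiftRight x sj8)) 255))) 65535))) t4))) st) st (Nat.ble (Nat.land (Nat.shiftRight (Nat.mul (Nat.land (Nat.sub HC (Nat.land (Nat.land x y) CM)) HC) C) pl) mS) (Nat.add (Nat.add (Nat.add (Nat.add (Nat.shiftRight y l0) (Nat.shiftRight x l0)) (Nat.add (Nat.land (Nat.shiftRight PT (Nat.mul 16 (Nat.land (Nat.shiftRight (Nat.land y x) sJ) 255))) 65535) (Nat.land (Nat.shiftRight PT (Nat.mul 16 (Nat.land (Nat.land (Nat.shiftRight y sJ) (Nat.shiftRight x sj8)) 255))) 65535))) t4) lam)))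
def h1 (ih : RT) (f w : Nat) : RT := fun st L1 L2e L2 L2u L3 LT LU2 LU3 LU4 LV => (Bool.rec (motive := fun _ => Bool) (ih (exs g pl Hf LMf C mF L2e (fun x => edge1 pl sJ l0 C mS CM HC X0 ET PT c1 x f) (Nat.land f D1) (Nat.add (Nat.shiftRight f l0) k1) (exs g pl Hf LMf C mF L3 (fun x => edge2 pl sJ l0 C mS CM HC X0 ET PT c2 x f) (Nat.land f D1) (Nat.add (Nat.shiftRight f l0) k2) (exs g pl Hf LMf C mF B1 (fun x => edge0 pl sJ l0 C mS CM HC ET PT x f) (Nat.land f D1) (Nat.add (Nat.shiftRight f l0) k0) (Bool.rec (motive := fun _ => List It) (List.cons (It.r3 (Nat.lor (Nat.land f CL) S16) (Nat.add (Nat.sub (Nat.lor (Nat.lor (Nat.land f CL) S16) CM) (Nat.land (Nat.lor (Nat.land f CL) S16) CM)) (Nat.sub (Nat.land (Nat.add (Nat.land (Nat.lor (Nat.land f CL) S16) CM) F1) HC) (Nat.shiftRight (Nat.land (Nat.add (Nat.land (Nat.lor (Nat.land f CL) S16) CM) F1) HC) 5))) w) st) st (Nat.ble w c3))))) (app W pl m0 L1 f (Nat.shiftRight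 f l0)) L2e L2 L2u L3 LT LU2 LU3 LU4 LV) (ih (exs g pl Hf LMf C mF L3 (fun x => edge2 pl sJ l0 C mS CM HC X0 ET PT c2 x f) (Nat.land f D1) (Nat.add (Nat.shiftRight f l0) k2) (exs g pl Hf LMf C mF B1 (fun x => edge0 pl sJ l0 C mS CM HC ET PT x f) (Nat.land f D1) (Nat.add (Nat.shiftRight f l0) k0) (Bool.rec (motive := fun _ => List It) (List.cons (It.r3 (Nat.lor (Nat.land f CL) S16) (Nat.add (Nat.sub (Nat.lor (Nat.lor (Nat.land f CL) S16) CM) (Nat.land (Nat.lor (Nat.land f CL) S16) CM)) (Nat.sub (Nat.land (Nat.add (Nat.land (Nat.lor (Nat.land f CL) S16) CM) F1) HC) (Nat.shiftRight (Nat.land (Nat.add (Nat.land (Nat.lor (Nat.land f CL) S16) CM) F1) HC) 5))) w) st) st (Nat.ble w c3)))) L1 L2e L2 L2u L3 LT LU2 LU3 LU4 LV) (Nat.ble w t1))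
def h2b (ih : RT) (p q w : Nat) : RT := fun st L1 L2e L2 L2u L3 LT LU2 LU3 LU4 LV => (Bool.rec (motive := fun _ => Bool) (ih (exs g pl Hf LMf C mF L1 (fun y => edge1 pl sJ l0 C mS CM HC X0 ET PT c1 p y) (Nat.land p D1) (Nat.add (Nat.shiftRight p l0) k1) (Bool.rec (motive := fun _ => List It) (exs g pl Hf LMf C mF LU3 (fun x => chain pl sJ l0 C mS CM HC XL XF ET PT It.u4 th2 x p) (Nat.land p D1) (Nat.add (Nat.shiftRight p l0) kk) (exs g pl Hf LMf C mF LU4 (fun x => chain pl sJ l0 C mS CM HC XL XF ET PT It.u3 th4 x p) (Nat.land p D1) (Nat.add (Nat.shiftRight p l0) k4) (exs g pl Hf LMf C mF LU2 (fun x => chain pl sJ l0 C mS CM HC XL XF ET PT It.u3 th4 x p) (Nat.land p D1) (Nat.add (Nat.shiftRight p l0) k4) st))) st (Nat.ble w t2u))) L1 (app W pl m0 L2e p (Nat.shiftRight p l0)) L2 (Bool.rec (motive := fun _ => Lst) (app W pl m0 L2u p (Nat.shiftRight p l0)) L2u (Nat.ble w t2u)) L3 LT LU2 LU3 LU4 LV) (ih st L1 L2e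 L2 L2u L3 LT LU2 LU3 LU4 LV) (Nat.ble w t2e))
def h2a (ih : RT) (p q w : Nat) : RT := fun st L1 L2e L2 L2u L3 LT LU2 LU3 LU4 LV => h2b W g pl sJ l0 Hf LMf C mF mS CM HC D1 X0 XL XF ET PT m0 k1 c1 k4 kk t2e t2u th4 th2 ih p q w (exs g pl Hf LMf C mF L2 (pairG pl sJ l0 C mS CM HC XL XF XY ET PT tau thT th6 q) (Nat.land q D1) (Nat.add (Nat.shiftRight q l0) kp) st) L1 L2e L2 L2u L3 LT LU2 LU3 LU4 LV
def h2 (ih : RT) (p q w : Nat) : RT := fun st L1 L2e L2 L2u L3 LT LU2 LU3 LU4 LV => h2a W g pl sJ l0 Hf LMf C mF mS CM HC D1 X0 XL XF XY ET PT tau m0 k1 c1 kp k4 kk t2e t2u thT th6 th4 th2 ih p q w st L1 L2e (app W pl m0 L2 p (Nat.shiftRight p l0)) L2u L3 LT LU2 LU3 LU4 LV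
def h3a (ih : RT) (p q w : Nat) : RT := fun st L1 L2e L2 L2u L3 LT LU2 LU3 LU4 LV => (Bool.rec (motive := fun _ => Bool) (ih (exs g pl Hf LMf C mF LV (fun x => triV pl sJ sj8 l0 C mS CM HC X0 PT lam t4 x p) (Nat.land p D3) (Nat.add (Nat.shiftRight p l0) kW) (exs g pl Hf LMf C mF L3 (pairV pl sJ l0 C mS CM HC XL XF PT thV q) (Nat.land q D1) (Nat.add (Nat.shiftRight q l0) kV) st)) L1 L2e L2 L2u L3 LT LU2 LU3 LU4 LV) (ih st L1 L2e L2 L2u L3 LT LU2 LU3 LU4 LV) (Nat.beq kf 1))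
def h3 (ih : RT) (p q w : Nat) : RT := fun st L1 L2e L2 L2u L3 LT LU2 LU3 LU4 LV => h3a kf g pl sJ sj8 l0 Hf LMf C mF mS CM HC D3 D1 X0 XL XF PT lam kV kW thV t4 ih p q w (exs g pl Hf LMf C mF LU4 (fun y => close1 pl sJ sj8 l0 C mS CM HC X0 ET E3 PT c1 0 p y) (Nat.land p D3) (Nat.add (Nat.shiftRight p l0) k1) (exs g pl Hf LMf C mF LT (fun y => close1 pl sJ sj8 l0 C mS CM HC X0 ET E3 PT c1 1 p y) (Nat.land p D3) (Nat.add (Nat.shiftRight p l0) k1) (exs g pl Hf LMf C mF L1 (fun y => edge2 pl sJ l0 C mS CM HC X0 ET PT c2 p y) (Nat.land p D1) (Nat.add (Nat.shiftRight p l0) k2) st))) L1 L2e L2 L2u (app W pl m0 L3 p (Nat.shiftRight p l0)) LT LU2 LU3 LU4 LV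
def ht (ih : RT) (f w : Nat) : RT := fun st L1 L2e L2 L2u L3 LT LU2 LU3 LU4 LV => ih (exs g pl Hf LMf C mF L3 (fun x => close1 pl sJ sj8 l0 C mS CM HC X0 ET E3 PT c1 1 x f) (Nat.land f D3) (Nat.add (Nat.shiftRight f l0) k1) (exs g pl Hf LMf C mF B2 (fun x => close0 pl sJ sj8 l0 C mS CM HC ET E3 PT 1 x f) (Nat.land f D3) (Nat.add (Nat.shiftRight f l0) k0) (Bool.rec (motive := fun _ => List It) (List.cons (It.r2 (Nat.lor (Nat.land f CL) S16) (Nat.add (Nat.sub (Nat.lor (Nat.lor (Nat.land f CL) S16) CM) (Nat.land (Nat.lor (Nat.land f CL) S16) CM)) (Nat.sub (Nat.land (Nat.add (Nat.land (Nat.lor (Nat.land f CL) S16) CM) F1) HC) (Nat.shiftRight (Nat.land (Nat.add (Nat.land (Nat.lor (Nat.land f CL) S16) CM) F1) HC) 5))) w) st) st (Nat.ble w c2)))) L1 L2e L2 L2u L3 (app W pl m0 LT f (Nat.shiftRight f l0)) LU2 LU3 LU4 LV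
def hu2 (ih : RT) (f w : Nat) : RT := fun st L1 L2e L2 L2u L3 LT LU2 LU3 LU4 LV => ih (exs g pl Hf LMf C mF L2u (fun y => chain pl sJ l0 C mS CM HC XL XF ET PT It.u3 th4 f y) (Nat.land f D1) (Nat.add (Nat.shiftRight f l0) k4) st) L1 L2e L2 L2u L3 LT (app W pl m0 LU2 f (Nat.shiftRight f l0)) LU3 LU4 LV
def hu3 (ih : RT) (f w : Nat) : RT := fun st L1 L2e L2 L2u L3 LT LU2 LU3 LU4 LV => ih (exs g pl Hf LMf C mF L2u (fun y => chain pl sJ l0 C mS CM HC XL XF ET PT It.u4 th2 f y) (Nat.land f D1) (Nat.add (Nat.shiftRight f l0) kk) st) L1 L2e L2 L2u L3 LT LU2 (app W pl m0 LU3 f (Nat.shiftRight f l0)) LU4 LV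
def hu4 (ih : RT) (f w : Nat) : RT := fun st L1 L2e L2 L2u L3 LT LU2 LU3 LU4 LV => ih (exs g pl Hf LMf C mF L2u (fun y => chain pl sJ l0 C mS CM HC XL XF ET PT It.u3 th4 f y) (Nat.land f D1) (Nat.add (Nat.shiftRight f l0) k4) (exs g pl Hf LMf C mF L3 (fun x => close1 pl sJ sj8 l0 C mS CM HC X0 ET E3 PT c1 0 x f) (Nat.land f D3) (Nat.add (Nat.shiftRight f l0) k1) (exs g pl Hf LMf C mF B2 (fun x => close0 pl sJ sj8 l0 C mS CM HC ET E3 PT 0 x f) (Nat.land f D3) (Nat.add (Nat.shiftRight f l0) k0) (Bool.rec (motive := fun _ => List It) (List.cons (It.r2 (Nat.lor (Nat.land f CL) S16) (Nat.add (Nat.sub (Nat.lor (Nat.lor (Nat.land f CL) S16) CM) (Nat.land (Nat.lor (Nat.land f CL) S16) CM)) (Nat.sub (Nat.land (Nat.add (Nat.land (Nat.lor (Nat.land f CL) S16) CM) F1) HC) (Nat.shiftRight (Nat.land (Nat.add (Nat.land (Nat.lor (Nat.land f CL) S16) CM) F1) HC) 5))) w) st) st (Nat.ble w c2))))) L1 L2e L2 L2u L3 LT LU2 LU3 (app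 W pl m0 LU4 f (Nat.shiftRight f l0)) LV
def hv2 (ih : RT) (f w : Nat) : RT := fun st L1 L2e L2 L2u L3 LT LU2 LU3 LU4 LV => ih (exs g pl Hf LMf C mF L3 (fun y => triV pl sJ sj8 l0 C mS CM HC X0 PT lam t4 f y) (Nat.land f D3) (Nat.add (Nat.shiftRight f l0) kW) st) L1 L2e L2 L2u L3 LT LU2 LU3 LU4 (app W pl m0 LV f (Nat.shiftRight f l0))
def v0 (f n x : Nat) (st : List It) : List It := (Bool.rec (motive := fun _ => List It) st (Bool.rec (motive := fun _ => List It) (List.cons It.bad st) st (Nat.ble (Nat.land (Nat.shiftRight (Nat.mul (Nat.land (Nat.sub HC (Nat.land (Nat.land x f) CM)) HC) C) pl) mS) (Nat.add (Nat.add (Nat.shiftRight x l0) (Nat.shiftRight f l0)) (Nat.add (Nat.add (Nat.land (Nat.shiftRight PT (Nat.mul 16 (Nat.land (Nat.shiftRight (Nat.land x f) sJ) 255))) 65535) (Nat.land (Nat.shiftRight PT (Nat.mul 16 (Nat.land (Nat.land (Nat.shiftRight x sJ) (Nat.shiftRight f sj8)) 255))) 65535)) (Nat.land (Nat.shiftRight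 PT (Nat.mul 16 (Nat.land (Nat.land (Nat.shiftRight x sJ) 255) n))) 65535))))) (Nat.beq (Nat.land (Nat.land (Nat.land (Nat.shiftRight (Nat.land x f) sJ) 255) (Nat.land (Nat.land (Nat.shiftRight x sJ) (Nat.shiftRight f sj8)) 255)) (Nat.land (Nat.land (Nat.shiftRight x sJ) 255) n)) 0))
def v0s (f n w : Nat) (st : List It) : List It := List.rec (motive := fun _ => List It) (Bool.rec (motive := fun _ => List It) (List.cons (It.r1 (Nat.add (Nat.sub (Nat.lor (Nat.lor (Nat.land f CL) S16) CM) (Nat.land (Nat.lor (Nat.land f CL) S16) CM)) (Nat.sub (Nat.land (Nat.add (Nat.land (Nat.lor (Nat.land f CL) S16) CM) F1) HC) (Nat.shiftRight (Nat.land (Nat.add (Nat.land (Nat.lor (Nat.land f CL) S16) CM) F1) HC) 5))) w) st) st (Nat.ble w c1)) (fun x _ ih => v0 pl sJ sj8 l0 C mS CM HC PT f n x ih) B3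
def hv3 (ih : RT) (f n w : Nat) : RT := fun st L1 L2e L2 L2u L3 LT LU2 LU3 LU4 LV => ih (v0s pl sJ sj8 l0 C mS CM HC S16 CL PT F1 c1 B3 f n w st) L1 L2e L2 L2u L3 LT LU2 LU3 LU4 LV
/-- the main loop -/
def go : Nat → RT :=
  Nat.rec (motive := fun _ => RT) (fun _ _ _ _ _ _ _ _ _ _ _ => false)
   (fun _ ih st => List.rec (motive := fun _ => Lst → Lst → Lst → Lst → Lst → Lst → Lst → Lst → Lst → Lst → Bool) (fun _ _ _ _ _ _ _ _ _ _ => true)
     (fun it st' _ => It.rec (motive := fun _ => RT)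
       (h1 W g pl sJ l0 Hf LMf C mF mS CM HC S16 D1 X0 CL ET PT F1 m0 k0 k1 k2 c1 c2 c3 t1 B1 ih)
       (h2 W g pl sJ l0 Hf LMf C mF mS CM HC D1 X0 XL XF XY ET PT tau m0 k1 c1 kp k4 kk t2e t2u thT th6 th4 th2 ih)
       (h3 kf W g pl sJ sj8 l0 Hf LMf C mF mS CM HC D3 D1 X0 XL XF ET E3 PT lam m0 k1 k2 c1 c2 kV kW thV t4 ih)
       (ht W g pl sJ sj8 l0 Hf LMf C mF mS CM HC S16 D3 X0 CL ET E3 PT F1 m0 k0 k1 c1 c2 B2 ih)
       (hu2 W g pl sJ l0 Hf LMf C mF mS CM HC D1 XL XF ET PT m0 k4 th4 ih)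
       (hu3 W g pl sJ l0 Hf LMf C mF mS CM HC D1 XL XF ET PT m0 kk th2 ih)
       (hu4 W g pl sJ sj8 l0 Hf LMf C mF mS CM HC S16 D3 D1 X0 XL XF CL ET E3 PT F1 m0 k0 k1 c1 c2 k4 th4 B2 ih)
       (hv2 W g pl sJ sj8 l0 Hf LMf C mF mS CM HC D3 X0 PT lam m0 kW t4 ih)
       (hv3 pl sJ sj8 l0 C mS CM HC S16 CL PT F1 c1 B3 ih)
       (fun _ _ _ _ _ _ _ _ _ _ _ => false) it st') st)

/-- alive flags of a root-form field -/
def aliP (p : Nat) : Nat := Nat.sub HC (Nat.land (Nat.add (Nat.land p CM) F1) HC)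
/-- weight minus load of a root-form field -/
def slP (p : Nat) : Nat := Nat.sub (Nat.land (Nat.shiftRight (Nat.mul (aliP CM HC F1 p) C) pl) mS) (Nat.shiftRight p l0)
/-- child form of a root-form field -/
def toQ (p : Nat) : Nat :=
  Nat.add (Nat.add (Nat.sub CM (Nat.land p CM)) (Nat.sub (Nat.sub HC (aliP CM HC F1 p)) (Nat.shiftRight (Nat.sub HC (aliP CM HC F1 p)) 5)))
    (Nat.add (Nat.land p X0) (Nat.shiftLeft (Nat.shiftRight p l0) l0))
/-- the colours of the label `y` are added to the root-form field `x` -/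
def addv (x y : Nat) : Nat :=
  Nat.add (Nat.lor (Nat.land (Nat.lor x y) CM) (Nat.sub (Nat.sub HC (Nat.land (Nat.sub HC (Nat.land (Nat.land x y) CM)) HC)) (Nat.shiftRight (Nat.sub HC (Nat.land (Nat.sub HC (Nat.land (Nat.land x y) CM)) HC)) 5)))
    (Nat.add (Nat.land (Nat.lor x y) (Nat.sub X0 (Nat.shiftLeft 65535 sJ)))
      (Nat.add (Nat.shiftLeft (Nat.mul (Nat.add (Nat.land (Nat.shiftRight x sJ) 255) (Nat.land (Nat.shiftRight y sj8) 255)) 257) sJ)
        (Nat.shiftLeft (Nat.add (Nat.add (Nat.shiftRight x l0) (Nat.shiftRight y l0)) (Nat.land (Nat.shiftRight PT (Nat.mul 16 (Nat.land (Nat.shiftRight (Nat.land x y) sJ) 255))) 65535)) l0)))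
/-- all extensions of `x` by one of the labels `ys`, with the remaining labels -/
def ext1 (x : Nat) (ys : List Nat) (tl : List (Nat × List Nat)) : List (Nat × List Nat) :=
  List.rec (motive := fun _ => List (Nat × List Nat)) tl (fun y ys' ih =>
    Bool.rec (motive := fun _ => List (Nat × List Nat)) ih (List.cons (addv sJ sj8 l0 CM HC X0 PT x y, ys') ih)
     (Nat.beq (Nat.land (Nat.shiftRight ET (Nat.land (Nat.shiftRight (Nat.land x y) sJ) 255)) 1) 0)) ys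
def exts (l : List (Nat × List Nat)) : List (Nat × List Nat) :=
  List.rec (motive := fun _ => List (Nat × List Nat)) [] (fun h _ ih => Prod.rec (motive := fun _ => List (Nat × List Nat)) (fun x ys => ext1 sJ sj8 l0 CM HC X0 ET PT x ys ih) h) l
/-- four labels: the weight of the colourings which are injective is at most the load -/
def z4y (x : Nat) (ys : List Nat) (r : Bool) : Bool :=
  List.rec (motive := fun _ => Bool) r (fun y _ ih =>
    Bool.rec (motive := fun _ => Bool) ih (Bool.rec (motive := fun _ => Bool) false ih (Nat.ble (Nat.land (Nat.shiftRight (Nat.mul (Nat.land (Nat.sub HC (Nat.land (Nat.land x y) CM)) HC) C) pl) mS) (Nat.add (Nat.add (Nat.shiftRight x l0) (Nat.shiftRight y l0)) (Nat.land (Nat.shiftRight PT (Nat.mul 16 (Nat.land (Nat.shiftRight (Nat.land x y) sJ) 255))) 65535))))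
     (Nat.beq (Nat.land (Nat.shiftRight ET (Nat.land (Nat.shiftRight (Nat.land x y) sJ) 255)) 1) 0)) ys
def z4 (l : List (Nat × List Nat)) : Bool :=
  List.rec (motive := fun _ => Bool) true (fun h _ ih => Prod.rec (motive := fun _ => Bool) (fun x ys => z4y pl sJ l0 C mS CM HC ET PT x ys ih) h) l
/-- the fields whose weight minus load exceeds `thr` -/
def filt (thr : Nat) (l : List (Nat × List Nat)) : List (Nat × Nat) :=
  List.rec (motive := fun _ => List (Nat × Nat)) [] (fun h _ ih => Prod.rec (motive := fun _ => List (Nat × Nat)) (fun x _ =>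
    Bool.rec (motive := fun _ => List (Nat × Nat)) (List.cons (x, slP pl l0 C mS CM HC F1 x) ih) ih (Nat.ble (slP pl l0 C mS CM HC F1 x) thr)) h) l
def mapIt (f : Nat → Nat → It) (l : List (Nat × Nat)) (tl : List It) : List It :=
  List.rec (motive := fun _ => List It) tl (fun h _ ih => List.cons (Prod.rec (motive := fun _ => It) f h) ih) l
def appAll (l : List (Nat × Nat)) : Lst → Lst :=
  List.rec (motive := fun _ => Lst → Lst) (fun L => L) (fun h _ ih L => Prod.rec (motive := fun _ => Lst) (fun x _ => ih (app W pl m0 L x (Nat.shiftRight x l0))) h) l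
def fsts (l : List (Nat × Nat)) : List Nat :=
  List.rec (motive := fun _ => List Nat) [] (fun h _ ih => List.cons (Prod.rec (motive := fun _ => Nat) (fun x _ => x) h) ih) l

end

/-- force the evaluation of a natural number -/
def frc (n : Nat) (f : Nat → Bool) : Bool := Nat.rec (motive := fun _ => Bool) (f 0) (fun m _ => f m) (Nat.add n 1)
/-- `if c then x else false` -/
def andB (c x : Bool) : Bool := Bool.rec (motive := fun _ => Bool) false x c
def pow2 (n : Nat) : Nat := Nat.shiftLeft 1 n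
/-- `n` ones in lanes of `s` bits -/
def ones (s n : Nat) : Nat := Nat.div (Nat.sub (pow2 (Nat.mul s n)) 1) (Nat.sub (pow2 s) 1)
def len (l : List Nat) : Nat := List.rec (motive := fun _ => Nat) 0 (fun _ _ ih => Nat.add ih 1) l
/-- total weight -/
def sumW (l : List Nat) : Nat := List.rec (motive := fun _ => Nat) 0 (fun c _ ih => Nat.add ih (Nat.shiftRight c 16)) l
/-- weights, the first code in the highest lane -/
def cW (s : Nat) (l : List Nat) : Nat → Nat :=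
  List.rec (motive := fun _ => Nat → Nat) (fun acc => acc) (fun c _ ih acc => ih (Nat.add (Nat.shiftLeft acc s) (Nat.shiftRight c 16))) l
/-- is `ab` an edge of the graph with mask `h` (0 or 1) -/
def adjn (h a b : Nat) : Nat :=
  Nat.add
    (Nat.mul (Nat.sub 1 (Nat.sub (Nat.add a 1) b)) (Nat.mod (Nat.shiftRight h (Nat.add (Nat.div (Nat.mul b (Nat.sub b 1)) 2) a)) 2))
    (Nat.mul (Nat.sub 1 (Nat.sub (Nat.add b 1) a)) (Nat.mod (Nat.shiftRight h (Nat.add (Nat.div (Nat.mul a (Nat.sub a 1)) 2) b)) 2))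
/-- `f 0 + … + f (n-1)` -/
def sumN (f : Nat → Nat) (n : Nat) : Nat := Nat.rec (motive := fun _ => Nat) 0 (fun m ih => Nat.add ih (f m)) n
def orN (f : Nat → Nat) (n : Nat) : Nat := Nat.rec (motive := fun _ => Nat) 0 (fun m ih => Nat.lor ih (f m)) n
/-- neighbourhood mask -/
def row (h v : Nat) : Nat := sumN (fun u => Nat.shiftLeft (adjn h u v) u) 8
/-- bit `m` (`m < 256`) is set iff bit `a` of `m` is -/
def XX (a : Nat) : Nat := Nat.rec (motive := fun _ => Nat) 77194726158210796949047323339125271902179989777093709359638389338608753093290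
  (fun a' _ => Nat.rec (motive := fun _ => Nat) 92633671389852956338856788006950326282615987732512451231566067206330503711948
  (fun a' _ => Nat.rec (motive := fun _ => Nat) 108980789870415242751596221184647442685430573802955824978313020242741769072880
  (fun a' _ => Nat.rec (motive := fun _ => Nat) 115341536360906404779899502576747487978354537254490211650198994186870666100480
  (fun a' _ => Nat.rec (motive := fun _ => Nat) 115790322417210952336529717160220497262186272106556906860092653394915770695680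
  (fun a' _ => Nat.rec (motive := fun _ => Nat) 115792089210356248762697446947946071893095522863849111501270640965525260206080
  (fun a' _ => Nat.rec (motive := fun _ => Nat) 115792089237316195417293883273301227089774477609353836086800156426807153786880
  (fun a' _ => 115792089237316195423570985008687907852929702298719625575994209400481361428480) a') a') a') a') a') a') a
/-- tables: bit `m` is set iff the graph has a clique of size 2, 3, 4 inside the set `m` -/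
def T2 (h : Nat) : Nat := orN (fun b => orN (fun a => Nat.mul (adjn h a b) (Nat.land (XX a) (XX b))) b) 8
def T3 (h : Nat) : Nat := orN (fun c => orN (fun b => Nat.mul (adjn h b c) (orN (fun a =>
  Nat.mul (Nat.mul (adjn h a b) (adjn h a c)) (Nat.land (Nat.land (XX a) (XX b)) (XX c))) b)) c) 8
/-- number of edges, number of triangles -/
def nE (h : Nat) : Nat := sumN (fun b => sumN (fun a => adjn h a b) b) 8
def nT (h : Nat) : Nat := sumN (fun c => sumN (fun b => Nat.mul (adjn h b c) (sumN (fun a => Nat.mul (adjn h a b) (adjn h a c)) b)) c) 8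
/-- popcount table, lanes of 16 bits -/
def P1 : Nat := 127490579311750601046081628447496474217706479076264195470726953712567342551540884676229505809290107522036551907215304394939794585241848553300601624877099211027759834632900210825209745019702140249615123753427350427690473725049380936668176220292361062473603733658281156957435215946457543159208579263385665098909157092931912186144118575594337719205689464720390887672463229862411508895200862739056167413973908920311394393630667117416347577222064660896973305861966380179548630046744236564366752774941402384681691472759851054764070742723920613517125899129060230670617446639774104849529809247555343611609358462072382852663702676930462695085146560101923808341477898619020676028095721216163070887324230499759365733955193573024659839135020357205095300494342134898964418063263401056830958887299739466802615914281194435458815269556505500384949409551293277870818277802441601326645382713180941319801649622656606735243617905884056623809567521228383094471586784620961713183618252304739752543754232179530511444774130896166260206902161329153045642301785065612593941351577616571842876807756381044677611737852517820475867359180174764623244412440129417697446897136784390487375390482044533059911755278928929588576620533377864147918060816976501736013824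
/-- bit `m` is set iff the set `m` has at least two elements -/
def Q2 : Nat := 115792089237316195423570985008687907852929702298719625575975762656403356843752
/-- field of the label `v` -/
def yv (s K sJ l0 lam h : Nat) (codes : List Nat) (v : Nat) : Nat :=
  Nat.add (Nat.add (List.rec (motive := fun _ => Nat) 0 (fun c _ ih => Nat.add (Nat.shiftLeft 1 (Nat.land (Nat.shiftRight c (Nat.mul 2 v)) 3)) (Nat.shiftLeft ih s)) codes)
    (Nat.shiftLeft 3 (Nat.mul s (Nat.add K v))))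
    (Nat.add (Nat.shiftLeft (Nat.add (row h v) (Nat.shiftLeft 1 (Nat.add v 8))) sJ) (Nat.shiftLeft lam l0))
/-- the colourings are proper for the graph `kg` -/
def prop (CM kg : Nat) (y : Nat → Nat) : Bool :=
  Nat.beq (sumN (fun b => sumN (fun a => Nat.mul (adjn kg a b) (Nat.land (Nat.land (y a) (y b)) CM)) b) 8) 0
def nthN (l : List Nat) : Nat → Nat :=
  List.rec (motive := fun _ => Nat → Nat) (fun _ => 0) (fun x _ ih i => Nat.rec (motive := fun _ => Nat) x (fun j _ => ih j) i) l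
def Vof (l : Lst) : Nat := Lst.rec (motive := fun _ => Nat) (fun V _ _ => V) l
def LVof (l : Lst) : Nat := Lst.rec (motive := fun _ => Nat) (fun _ V _ => V) l
def ONof (l : Lst) : Nat := Lst.rec (motive := fun _ => Nat) (fun _ _ V => V) l
def minN (a b : Nat) : Nat := Nat.sub a (Nat.sub a b)
def chkX (kf : Nat) (lam : Nat) (tau : Nat) (oK : Nat) (sJ : Nat) (sj8 : Nat) (l0 : Nat) (W : Nat) (pl : Nat) (g : Nat) (mS : Nat) (mF : Nat) (Hf : Nat) (LMf : Nat) (C : Nat) (CM : Nat) (HC : Nat) (S16 : Nat) (D1 : Nat) (D3 : Nat) (X0 : Nat) (XL : Nat) (XF : Nat) (XY : Nat) (CL : Nat) (ET : Nat) (E3 : Nat) (PT : Nat) (m0 : Nat) (c1 : Nat) (c2 : Nat) (c3 : Nat) (k0 : Nat) (k1 : Nat) (k2 : Nat) (kp : Nat) (k4 : Nat) (kk : Nat) (kV : Nat) (kW : Nat) (t1 : Nat) (t2e : Nat) (t2u : Nat) (thT : Nat) (th4 : Nat) (th2 : Nat) (thV : Nat) (t4 : Nat) (G3 : List (Nat × Nat)) (G2 : List (Nat × Nat)) (G1 : List (Nat × Nat)) (A1 : Lst)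 (A2 : Lst) : Bool :=
  frc (Vof A1) (fun V1 =>
      frc (LVof A1) (fun W1 =>
      frc (ONof A1) (fun O1 =>
      frc (Vof A2) (fun V2 =>
      frc (LVof A2) (fun W2 =>
      frc (ONof A2) (fun O2 =>
      go kf W g pl sJ sj8 l0 Hf LMf C mF mS CM HC S16 D3 D1 X0 XL XF XY CL ET E3 PT oK lam tau m0 k0 k1 k2 c1 c2 c3 kp k4 kk kV kW t1 t2e t2u thT t2e th4 th2 thV t4 (Lst.mk V1 W1 O1) (Lst.mk V2 W2 O2) (fsts G3) 100000 (mapIt (fun p w => It.r3 p (toQ l0 CM HC X0 oK p) w) G3 (mapIt (fun p w => It.r2 p (toQ l0 CM HC X0 oK p) w) G2 (mapIt (fun p w => It.r1 (toQ l0 CM HC X0 oK p) w) G1 [])))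
        ⟨0, 0, Nat.sub 1 1⟩ ⟨0, 0, Nat.sub 2 2⟩ ⟨0, 0, Nat.sub 3 3⟩ ⟨0, 0, Nat.sub 4 4⟩ ⟨0, 0, Nat.sub 5 5⟩ ⟨0, 0, Nat.sub 6 6⟩ ⟨0, 0, Nat.sub 7 7⟩ ⟨0, 0, Nat.sub 8 8⟩ ⟨0, 0, Nat.sub 9 9⟩ ⟨0, 0, Nat.sub 10 10⟩))))))
def chkU (kf : Nat) (lam : Nat) (tau : Nat) (oK : Nat) (sJ : Nat) (sj8 : Nat) (l0 : Nat) (W : Nat) (pl : Nat) (g : Nat) (mS : Nat) (mF : Nat) (Hf : Nat) (LMf : Nat) (C : Nat) (CM : Nat) (HC : Nat) (S16 : Nat) (D1 : Nat) (D3 : Nat) (X0 : Nat) (XL : Nat) (XF : Nat) (XY : Nat) (CL : Nat) (ET : Nat) (E3 : Nat) (PT : Nat) (m0 : Nat) (c1 : Nat) (c2 : Nat) (c3 : Nat) (k0 : Nat) (k1 : Nat) (k2 : Nat) (kp : Nat) (k4 : Nat) (kk : Nat) (kV : Nat) (kW : Nat) (t1 : Nat) (t2e : Nat) (t2u : Nat) (thT : Nat) (th4 : Nat) (th2 : Nat) (thV : Nat) (t4 : Nat) (G3 : List (Nat × Nat)) (G2 : List (Nat × Nat)) (G1 : List (Nat × Nat)) : Bool :=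
  chkX kf lam tau oK sJ sj8 l0 W pl g mS mF Hf LMf C CM HC S16 D1 D3 X0 XL XF XY CL ET E3 PT m0 c1 c2 c3 k0 k1 k2 kp k4 kk kV kW t1 t2e t2u thT th4 th2 thV t4 G3 G2 G1 (appAll W pl l0 m0 G1 ⟨0, 0, Nat.sub 11 11⟩) (appAll W pl l0 m0 G2 ⟨0, 0, Nat.sub 12 12⟩)
def chkZ (kf : Nat) (lam : Nat) (tau : Nat) (oK : Nat) (sJ : Nat) (sj8 : Nat) (l0 : Nat) (W : Nat) (pl : Nat) (g : Nat) (mS : Nat) (mF : Nat) (Hf : Nat) (LMf : Nat) (C : Nat) (CM : Nat) (HC : Nat) (S16 : Nat) (D1 : Nat) (D3 : Nat) (X0 : Nat) (XL : Nat) (XF : Nat) (XY : Nat) (CL : Nat) (ET : Nat) (E3 : Nat) (PT : Nat) (m0 : Nat) (c1 : Nat) (c2 : Nat) (c3 : Nat) (k0 : Nat) (k1 : Nat) (k2 : Nat) (kp : Nat) (k4 : Nat) (kk : Nat) (kV : Nat) (kW : Nat) (t1 : Nat) (t2e : Nat) (t2u : Nat) (thT : Nat) (th4 : Nat) (th2 : Nat) (thV : Nat) (t4 : Nat) (P1l : List (Nat × List Nat)) (P2l : List (Nat × List Nat)) (P3l : List (Nat × List Nat)) : Bool :=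
  andB (z4 pl sJ l0 C mS CM HC ET PT P3l) (chkU kf lam tau oK sJ sj8 l0 W pl g mS mF Hf LMf C CM HC S16 D1 D3 X0 XL XF XY CL ET E3 PT m0 c1 c2 c3 k0 k1 k2 kp k4 kk kV kW t1 t2e t2u thT th4 th2 thV t4 (filt pl l0 C mS CM HC oK c3 P1l) (filt pl l0 C mS CM HC oK c2 P2l) (filt pl l0 C mS CM HC oK c1 P3l))
def chkR (kf : Nat) (lam : Nat) (tau : Nat) (oK : Nat) (sJ : Nat) (sj8 : Nat) (l0 : Nat) (W : Nat) (pl : Nat) (g : Nat) (mS : Nat) (mF : Nat) (Hf : Nat) (LMf : Nat) (C : Nat) (CM : Nat) (HC : Nat) (S16 : Nat) (D1 : Nat) (D3 : Nat) (X0 : Nat) (XL : Nat) (XF : Nat) (XY : Nat) (CL : Nat) (ET : Nat) (E3 : Nat) (PT : Nat) (m0 : Nat) (c1 : Nat) (c2 : Nat) (c3 : Nat) (k0 : Nat) (k1 : Nat) (k2 : Nat) (kp : Nat) (k4 : Nat) (kk : Nat) (kV : Nat) (kW : Nat) (t1 : Nat) (t2e : Nat) (t2u : Nat) (thT : Nat) (th4 : Nat) (th2 : Nat) (thV : Nat) (t4 : Nat) (P1l : List (Nat × List Nat)) (P2l : List (Nat × List Nat)) : Bool :=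
  chkZ kf lam tau oK sJ sj8 l0 W pl g mS mF Hf LMf C CM HC S16 D1 D3 X0 XL XF XY CL ET E3 PT m0 c1 c2 c3 k0 k1 k2 kp k4 kk kV kW t1 t2e t2u thT th4 th2 thV t4 P1l P2l (exts sJ sj8 l0 CM HC X0 ET PT P2l)
def chkQ (kf : Nat) (lam : Nat) (tau : Nat) (oK : Nat) (sJ : Nat) (sj8 : Nat) (l0 : Nat) (W : Nat) (pl : Nat) (g : Nat) (mS : Nat) (mF : Nat) (Hf : Nat) (LMf : Nat) (C : Nat) (CM : Nat) (HC : Nat) (S16 : Nat) (D1 : Nat) (D3 : Nat) (X0 : Nat) (XL : Nat) (XF : Nat) (XY : Nat) (CL : Nat) (ET : Nat) (E3 : Nat) (PT : Nat) (m0 : Nat) (c1 : Nat) (c2 : Nat) (c3 : Nat) (k0 : Nat) (k1 : Nat) (k2 : Nat) (kp : Nat) (k4 : Nat) (kk : Nat) (kV : Nat) (kW : Nat) (t1 : Nat) (t2e : Nat) (t2u : Nat) (thT : Nat) (th4 : Nat) (th2 : Nat) (thV : Nat) (t4 : Nat) (P1l : List (Nat × List Nat)) : Bool :=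
  chkR kf lam tau oK sJ sj8 l0 W pl g mS mF Hf LMf C CM HC S16 D1 D3 X0 XL XF XY CL ET E3 PT m0 c1 c2 c3 k0 k1 k2 kp k4 kk kV kW t1 t2e t2u thT th4 th2 thV t4 P1l (exts sJ sj8 l0 CM HC X0 ET PT P1l)
def chkP (kf : Nat) (kg : Nat) (lam : Nat) (tau : Nat) (oK : Nat) (sJ : Nat) (sj8 : Nat) (l0 : Nat) (W : Nat) (pl : Nat) (g : Nat) (mS : Nat) (mF : Nat) (Hf : Nat) (LMf : Nat) (C : Nat) (CM : Nat) (HC : Nat) (S16 : Nat) (D1 : Nat) (D3 : Nat) (X0 : Nat) (XL : Nat) (XF : Nat) (XY : Nat) (CL : Nat) (ET : Nat) (E3 : Nat) (PT : Nat) (m0 : Nat) (c1 : Nat) (c2 : Nat) (c3 : Nat) (k0 : Nat) (k1 : Nat) (k2 : Nat) (kp : Nat) (k4 : Nat) (kk : Nat) (kV : Nat) (kW : Nat) (t1 : Nat) (t2e : Nat) (t2u : Nat) (thT : Nat) (th4 : Nat) (th2 : Nat) (thV : Nat) (t4 : Nat) (y0 : Nat) (y1 : Nat) (y2 : Nat) (y3 : Nat) (y4 : Nat) (y5 : Nat) (y6 : Nat) (y7 : Nat) : Bool :=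
  andB (prop CM kg (nthN [y0, y1, y2, y3, y4, y5, y6, y7])) (chkQ kf lam tau oK sJ sj8 l0 W pl g mS mF Hf LMf C CM HC S16 D1 D3 X0 XL XF XY CL ET E3 PT m0 c1 c2 c3 k0 k1 k2 kp k4 kk kV kW t1 t2e t2u thT th4 th2 thV t4 (exts sJ sj8 l0 CM HC X0 ET PT [(S16, Bool.rec (motive := fun _ => List Nat) [y0, y1, y2, y3, y4, y5] [y0, y1, y2, y3, y4, y5, y6, y7] (Nat.beq kf 1))]))
def chkY (kf : Nat) (h : Nat) (kg : Nat) (s : Nat) (lam : Nat) (tau : Nat) (codes : List Nat) (K : Nat) (oK : Nat) (sJ : Nat) (sj8 : Nat) (l0 : Nat) (W : Nat) (pl : Nat) (g : Nat) (mS : Nat) (mF : Nat) (Hf : Nat) (LMf : Nat) (C : Nat) (CM : Nat) (HC : Nat) (S16 : Nat) (D1 : Nat) (D3 : Nat) (X0 : Nat) (XL : Nat) (XF : Nat) (XY : Nat) (CL : Nat) (ET : Nat) (E3 : Nat) (PT : Nat) (m0 : Nat) (c1 : Nat) (c2 : Nat) (c3 : Nat) (k0 : Nat) (k1 : Nat) (k2 : Nat) (kp : Nat) (k4 : Nat) (kk : Nat) (kV : Nat) (kW : Nat) (t1 : Nat) (t2e : Nat) (t2u : Nat) (thT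 : Nat) (th4 : Nat) (th2 : Nat) (thV : Nat) (t4 : Nat) : Bool :=
  frc (yv s K sJ l0 lam h codes 0) (fun y0 =>
  frc (yv s K sJ l0 lam h codes 1) (fun y1 =>
  frc (yv s K sJ l0 lam h codes 2) (fun y2 =>
  frc (yv s K sJ l0 lam h codes 3) (fun y3 =>
  frc (yv s K sJ l0 lam h codes 4) (fun y4 =>
  frc (yv s K sJ l0 lam h codes 5) (fun y5 =>
  frc (yv s K sJ l0 lam h codes 6) (fun y6 =>
  frc (yv s K sJ l0 lam h codes 7) (fun y7 =>
  chkP kf kg lam tau oK sJ sj8 l0 W pl g mS mF Hf LMf C CM HC S16 D1 D3 X0 XL XF XY CL ET E3 PT m0 c1 c2 c3 k0 k1 k2 kp k4 kk kV kW t1 t2e t2u thT th4 th2 thV t4 y0 y1 y2 y3 y4 y5 y6 y7))))))))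
def chk5 (kf : Nat) (h : Nat) (kg : Nat) (s : Nat) (lam : Nat) (tau : Nat) (codes : List Nat) (K : Nat) (oK : Nat) (sJ : Nat) (sj8 : Nat) (l0 : Nat) (W : Nat) (pl : Nat) (g : Nat) (mS : Nat) (mF : Nat) (Hf : Nat) (LMf : Nat) (C : Nat) (CM : Nat) (HC : Nat) (S16 : Nat) (D1 : Nat) (D3 : Nat) (X0 : Nat) (XL : Nat) (XF : Nat) (XY : Nat) (CL : Nat) (ET : Nat) (E3 : Nat) (PT : Nat) (m0 : Nat) (c1 : Nat) (c2 : Nat) (c3 : Nat) (k0 : Nat) (k1 : Nat) (k2 : Nat) (kp : Nat) (k4 : Nat) (kk : Nat) (kV : Nat) (kW : Nat) (t1 : Nat) : Bool :=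
  frc (Nat.mul 6 lam) (fun t2e =>
  frc (Nat.mul 8 lam) (fun t2u =>
  frc (Nat.add tau (Nat.mul 2 lam)) (fun thT =>
  frc (Nat.mul 4 lam) (fun th4 =>
  frc (Nat.mul 2 lam) (fun th2 =>
  frc (Nat.add (Nat.mul 2 lam) (Nat.mul 4 tau)) (fun thV =>
  frc (Nat.mul 4 tau) (fun t4 =>
  chkY kf h kg s lam tau codes K oK sJ sj8 l0 W pl g mS mF Hf LMf C CM HC S16 D1 D3 X0 XL XF XY CL ET E3 PT m0 c1 c2 c3 k0 k1 k2 kp k4 kk kV kW t1 t2e t2u thT th4 th2 thV t4)))))))
def chk4 (kf : Nat) (h : Nat) (kg : Nat) (s : Nat) (lam : Nat) (tau : Nat) (codes : List Nat) (K : Nat) (oK : Nat) (sJ : Nat) (sj8 : Nat) (l0 : Nat) (W : Nat) (pl : Nat) (g : Nat) (mS : Nat) (mF : Nat) (Hf : Nat) (LMf : Nat) (C : Nat) (CM : Nat) (HC : Nat) (S16 : Nat) (D1 : Nat) (D3 : Nat) (X0 : Nat) (XL : Nat) (XF : Nat) (XY : Nat) (CL : Nat) (ET : Nat) (E3 : Nat) (PT : Nat) (m0 : Nat) (c1 : Nat) (c2 : Nat) (c3 : Nat) : Bool :=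
  frc (Nat.mul 8 tau) (fun k0 =>
  frc (Nat.add k0 c1) (fun k1 =>
  frc (Nat.add k0 c2) (fun k2 =>
  frc (Nat.add k0 (minN (Nat.add tau (Nat.mul 2 lam)) (Nat.mul 6 lam))) (fun kp =>
  frc (Nat.add k0 (Nat.mul 4 lam)) (fun k4 =>
  frc (Nat.add k0 (Nat.mul 2 lam)) (fun kk =>
  frc (Nat.add k0 (Nat.add (Nat.mul 2 lam) (Nat.mul 4 tau))) (fun kV =>
  frc (Nat.add k0 (Nat.add lam (Nat.mul 4 tau))) (fun kW =>
  frc (Nat.mul 5 lam) (fun t1 =>
  chk5 kf h kg s lam tau codes K oK sJ sj8 l0 W pl g mS mF Hf LMf C CM HC S16 D1 D3 X0 XL XF XY CL ET E3 PT m0 c1 c2 c3 k0 k1 k2 kp k4 kk kV kW t1)))))))))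
def chk3 (kf : Nat) (x3 : Nat) (h : Nat) (kg : Nat) (s : Nat) (lam : Nat) (tau : Nat) (codes : List Nat) (K : Nat) (oK : Nat) (sJ : Nat) (sj8 : Nat) (l0 : Nat) (W : Nat) (pl : Nat) (g : Nat) (mS : Nat) (mF : Nat) (Hf : Nat) (LMf : Nat) (C : Nat) (CM : Nat) (HC : Nat) (S16 : Nat) (D1 : Nat) (D3 : Nat) (X0 : Nat) (XL : Nat) (XF : Nat) (XY : Nat) (CL : Nat) : Bool :=
  frc (T2 h) (fun TT2 =>
  frc (T3 h) (fun TT3 =>
  frc (Nat.add (Nat.mul kf TT2) (Nat.mul (Nat.sub 1 kf) TT3)) (fun ET =>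
  frc (Nat.add (Nat.mul kf (Nat.sub (pow2 256) 2)) (Nat.mul (Nat.sub 1 kf) (Nat.add (Nat.mul x3 Q2) (Nat.mul (Nat.sub 1 x3) TT2)))) (fun E3 =>
  frc (Nat.mul tau P1) (fun PT =>
  frc (pow2 (Nat.add s 2)) (fun m0 =>
  frc (Nat.mul 3 lam) (fun c1 =>
  frc (minN (Nat.mul 6 lam) (Nat.add (Nat.mul 4 lam) tau)) (fun c2 =>
  frc (Nat.add (Nat.mul kf (minN (Nat.add c2 (Nat.mul 3 lam)) (Nat.add (Nat.mul 7 lam) tau))) (Nat.mul (Nat.sub 1 kf) (minN (minN (Nat.add c2 (Nat.mul 3 lam)) (Nat.add (Nat.mul 7 lam) tau)) (Nat.add (Nat.mul 3 lam) (Nat.mul 4 tau))))) (fun c3 =>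
  chk4 kf h kg s lam tau codes K oK sJ sj8 l0 W pl g mS mF Hf LMf C CM HC S16 D1 D3 X0 XL XF XY CL ET E3 PT m0 c1 c2 c3)))))))))
def chk2 (kf : Nat) (x3 : Nat) (h : Nat) (kg : Nat) (s : Nat) (lam : Nat) (tau : Nat) (codes : List Nat) (K : Nat) (oK : Nat) (o8 : Nat) (sK : Nat) (sJ : Nat) (sj8 : Nat) (l0 : Nat) (W : Nat) (pl : Nat) (g : Nat) (mS : Nat) (mF : Nat) : Bool :=
  frc (Nat.mul 32 (ones s (Nat.add K 8))) (fun Hf =>
  frc (Nat.shiftLeft mS pl) (fun LMf =>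
  frc (Nat.add (Nat.shiftLeft (cW s codes 0) (Nat.mul 8 s)) (Nat.mul tau o8)) (fun C =>
  frc (Nat.mul 31 oK) (fun CM =>
  frc (Nat.mul 32 oK) (fun HC =>
  frc (Nat.mul 16 oK) (fun S16 =>
  frc (Nat.add CM (Nat.shiftLeft o8 sK)) (fun D1 =>
  frc (Nat.add CM (Nat.shiftLeft (Nat.mul 3 o8) sK)) (fun D3 =>
  frc (Nat.add (Nat.shiftLeft (Nat.mul 3 o8) sK) (Nat.shiftLeft 65535 sJ)) (fun X0 =>
  frc (Nat.add (Nat.shiftLeft o8 sK) (Nat.shiftLeft 255 sJ)) (fun XL =>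
  frc (Nat.add (Nat.shiftLeft (Nat.mul 2 o8) sK) (Nat.shiftLeft 255 sj8)) (fun XF =>
  frc (Nat.shiftLeft 255 sJ) (fun XY =>
  frc (Nat.add CM (Nat.shiftLeft mS l0)) (fun CL =>
  chk3 kf x3 h kg s lam tau codes K oK sJ sj8 l0 W pl g mS mF Hf LMf C CM HC S16 D1 D3 X0 XL XF XY CL)))))))))))))
def chk1 (kf : Nat) (x3 : Nat) (h : Nat) (kg : Nat) (s : Nat) (lam : Nat) (tau : Nat) (codes : List Nat) (K : Nat) : Bool :=
  frc (ones s K) (fun oK =>
  frc (ones s 8) (fun o8 =>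
  frc (Nat.mul s K) (fun sK =>
  frc (Nat.mul s (Nat.add K 8)) (fun sJ =>
  frc (Nat.add sJ 8) (fun sj8 =>
  frc (Nat.add sJ 16) (fun l0 =>
  frc (Nat.mul s (Nat.add K 11)) (fun W =>
  frc (Nat.add (Nat.mul s (Nat.add K 7)) 5) (fun pl =>
  frc (Nat.add (Nat.mul s (Nat.add K 8)) 7) (fun g =>
  frc (Nat.sub (pow2 s) 1) (fun mS =>
  frc (Nat.sub (pow2 W) 1) (fun mF =>
  chk2 kf x3 h kg s lam tau codes K oK o8 sK sJ sj8 l0 W pl g mS mF)))))))))))
/-- the check of a certificate -/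
def chk (kf x3 h kg s lam tau B T : Nat) (codes : List Nat) : Bool :=
  frc (len codes) (fun K =>
  frc (sumW codes) (fun M =>
  andB (Nat.ble 9 s) (andB (Nat.ble (Nat.add (Nat.add M (Nat.mul 8 tau)) 1) (pow2 s)) (andB (Nat.ble (Nat.add (Nat.mul 12 lam) (Nat.mul 16 tau)) (pow2 (Nat.add s 1))) (andB (Nat.ble (Nat.mul 8 tau) 65535) (andB (Nat.ble kf 1) (andB (Nat.ble x3 1)
  (andB (Nat.ble (Nat.add (Nat.add (Nat.mul lam B) (Nat.mul T tau)) 1) (Nat.add M (Nat.add (Nat.mul (Nat.mul 2 lam) (nE h)) (Nat.mul tau (nT h))))) (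
  chk1 kf x3 h kg s lam tau codes K)))))))))

end Pool.Agent.MP_528dc0_co.Eng

end
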