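import Mathlib
import Pool.Agent.MP_528dc0_co.Eng
import Pool.Agent.MP_528dc0_co.PDefs

/-!
# Encoding of the states used by the kernel engine
-/

section

/-!
# The engine: specification

`EP` = the parameters of a certificate; `e.W`, `e.C`, ... = the constants computed by `Eng.chk`;
`e.edge1` etc. = the engine functions at these constants.
-/

open Finset

namespace Pool.Agent.MP_528dc0_co

open Eng (Lst It)

/-- Parameters of a certificate. -/
structure EP where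
  kf : ℕ
  x3 : ℕ
  h : ℕ
  s : ℕ
  lam : ℕ
  tau : ℕ
  codes : List ℕ

noncomputable section

namespace EP

def K (e : EP) : ℕ := Eng.len e.codes
def M (e : EP) : ℕ := Eng.sumW e.codes
def oK (e : EP) : ℕ := Eng.ones e.s e.K
def o8 (e : EP) : ℕ := Eng.ones e.s 8
def sK (e : EP) : ℕ := Nat.mul e.s e.K
def sJ (e : EP) : ℕ := Nat.mul e.s (Nat.add e.K 8)
def sj8 (e : EP) : ℕ := Nat.add e.sJ 8
def l0 (e : EP) : ℕ := Nat.add e.sJ 16
def W (e : EP) : ℕ := Nat.mul e.s (Nat.add e.K 11)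
def pl (e : EP) : ℕ := Nat.add (Nat.mul e.s (Nat.add e.K 7)) 5
def g (e : EP) : ℕ := Nat.add (Nat.mul e.s (Nat.add e.K 8)) 7
def mS (e : EP) : ℕ := Nat.sub (Eng.pow2 e.s) 1
def mF (e : EP) : ℕ := Nat.sub (Eng.pow2 e.W) 1
def Hf (e : EP) : ℕ := Nat.mul 32 (Eng.ones e.s (Nat.add e.K 8))
def LMf (e : EP) : ℕ := Nat.shiftLeft e.mS e.pl
def C (e : EP) : ℕ := Nat.add (Nat.shiftLeft (Eng.cW e.s e.codes 0) (Nat.mul 8 e.s)) (Nat.mul e.tau e.o8)
def CM (e : EP) : ℕ := Nat.mul 31 e.oK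
def HC (e : EP) : ℕ := Nat.mul 32 e.oK
def S16 (e : EP) : ℕ := Nat.mul 16 e.oK
def D1 (e : EP) : ℕ := Nat.add e.CM (Nat.shiftLeft e.o8 e.sK)
def D3 (e : EP) : ℕ := Nat.add e.CM (Nat.shiftLeft (Nat.mul 3 e.o8) e.sK)
def X0 (e : EP) : ℕ := Nat.add (Nat.shiftLeft (Nat.mul 3 e.o8) e.sK) (Nat.shiftLeft 65535 e.sJ)
def XL (e : EP) : ℕ := Nat.add (Nat.shiftLeft e.o8 e.sK) (Nat.shiftLeft 255 e.sJ)
def XF (e : EP) : ℕ := Nat.add (Nat.shiftLeft (Nat.mul 2 e.o8) e.sK) (Nat.shiftLeft 255 e.sj8)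
def XY (e : EP) : ℕ := Nat.shiftLeft 255 e.sJ
def CL (e : EP) : ℕ := Nat.add e.CM (Nat.shiftLeft e.mS e.l0)
def TT2 (e : EP) : ℕ := Eng.T2 e.h
def TT3 (e : EP) : ℕ := Eng.T3 e.h
def ET (e : EP) : ℕ := Nat.add (Nat.mul e.kf e.TT2) (Nat.mul (Nat.sub 1 e.kf) e.TT3)
def E3 (e : EP) : ℕ := Nat.add (Nat.mul e.kf (Nat.sub (Eng.pow2 256) 2)) (Nat.mul (Nat.sub 1 e.kf) (Nat.add (Nat.mul e.x3 Eng.Q2) (Nat.mul (Nat.sub 1 e.x3) e.TT2)))
def PT (e : EP) : ℕ := Nat.mul e.tau Eng.P1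
def m0 (e : EP) : ℕ := Eng.pow2 (Nat.add e.s 2)
def c1 (e : EP) : ℕ := Nat.mul 3 e.lam
def c2 (e : EP) : ℕ := Eng.minN (Nat.mul 6 e.lam) (Nat.add (Nat.mul 4 e.lam) e.tau)
def c3 (e : EP) : ℕ := Nat.add (Nat.mul e.kf (Eng.minN (Nat.add e.c2 (Nat.mul 3 e.lam)) (Nat.add (Nat.mul 7 e.lam) e.tau))) (Nat.mul (Nat.sub 1 e.kf) (Eng.minN (Eng.minN (Nat.add e.c2 (Nat.mul 3 e.lam)) (Nat.add (Nat.mul 7 e.lam) e.tau)) (Nat.add (Nat.mul 3 e.lam) (Nat.mul 4 e.tau))))
def k0 (e : EP) : ℕ := Nat.mul 8 e.tau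
def k1 (e : EP) : ℕ := Nat.add e.k0 e.c1
def k2 (e : EP) : ℕ := Nat.add e.k0 e.c2
def kp (e : EP) : ℕ := Nat.add e.k0 (Eng.minN (Nat.add e.tau (Nat.mul 2 e.lam)) (Nat.mul 6 e.lam))
def k4 (e : EP) : ℕ := Nat.add e.k0 (Nat.mul 4 e.lam)
def kk (e : EP) : ℕ := Nat.add e.k0 (Nat.mul 2 e.lam)
def kV (e : EP) : ℕ := Nat.add e.k0 (Nat.add (Nat.mul 2 e.lam) (Nat.mul 4 e.tau))
def kW (e : EP) : ℕ := Nat.add e.k0 (Nat.add e.lam (Nat.mul 4 e.tau))
def t1 (e : EP) : ℕ := Nat.mul 5 e.lam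
def t2e (e : EP) : ℕ := Nat.mul 6 e.lam
def t2u (e : EP) : ℕ := Nat.mul 8 e.lam
def thT (e : EP) : ℕ := Nat.add e.tau (Nat.mul 2 e.lam)
def th4 (e : EP) : ℕ := Nat.mul 4 e.lam
def th2 (e : EP) : ℕ := Nat.mul 2 e.lam
def thV (e : EP) : ℕ := Nat.add (Nat.mul 2 e.lam) (Nat.mul 4 e.tau)
def t4 (e : EP) : ℕ := Nat.mul 4 e.tau
def F1 (e : EP) : ℕ := e.oK
def th6 (e : EP) : ℕ := e.t2e


/-! ### the engine functions -/

def pas (e : EP) : Lst → ℕ → ℕ → ℕ := Eng.pas e.g e.pl e.Hf e.LMf e.C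
def app (e : EP) : Lst → ℕ → ℕ → Lst := Eng.app e.W e.pl e.m0
def exl (e : EP) : ℕ → (ℕ → List It → List It) → ℕ → List It → List It := Eng.exl e.g e.mF
def exs (e : EP) : Lst → (ℕ → List It → List It) → ℕ → ℕ → List It → List It := Eng.exs e.g e.pl e.Hf e.LMf e.C e.mF
def edge1 (e : EP) : ℕ → ℕ → List It → List It := Eng.edge1 e.pl e.sJ e.l0 e.C e.mS e.CM e.HC e.X0 e.ET e.PT e.c1
def edge2 (e : EP) : ℕ → ℕ → List It → List It := Eng.edge2 e.pl e.sJ e.l0 e.C e.mS e.CM e.HC e.X0 e.ET e.PT e.c2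
def edge0 (e : EP) : ℕ → ℕ → List It → List It := Eng.edge0 e.pl e.sJ e.l0 e.C e.mS e.CM e.HC e.ET e.PT
def close1 (e : EP) : ℕ → ℕ → ℕ → List It → List It := Eng.close1 e.pl e.sJ e.sj8 e.l0 e.C e.mS e.CM e.HC e.X0 e.ET e.E3 e.PT e.c1
def close0 (e : EP) : ℕ → ℕ → ℕ → List It → List It := Eng.close0 e.pl e.sJ e.sj8 e.l0 e.C e.mS e.CM e.HC e.ET e.E3 e.PT
def chain (e : EP) : (ℕ → ℕ → It) → ℕ → ℕ → ℕ → List It → List It := Eng.chain e.pl e.sJ e.l0 e.C e.mS e.CM e.HC e.XL e.XF e.ET e.PT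
def pairG (e : EP) : ℕ → ℕ → List It → List It := Eng.pairG e.pl e.sJ e.l0 e.C e.mS e.CM e.HC e.XL e.XF e.XY e.ET e.PT e.tau e.thT e.th6
def pairV (e : EP) : ℕ → ℕ → List It → List It := Eng.pairV e.pl e.sJ e.l0 e.C e.mS e.CM e.HC e.XL e.XF e.PT e.thV
def triV (e : EP) : ℕ → ℕ → List It → List It := Eng.triV e.pl e.sJ e.sj8 e.l0 e.C e.mS e.CM e.HC e.X0 e.PT e.lam e.t4
def v0 (e : EP) : ℕ → ℕ → ℕ → List It → List It := Eng.v0 e.pl e.sJ e.sj8 e.l0 e.C e.mS e.CM e.HC e.PT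
def aliP (e : EP) : ℕ → ℕ := Eng.aliP e.CM e.HC e.F1
def slP (e : EP) : ℕ → ℕ := Eng.slP e.pl e.l0 e.C e.mS e.CM e.HC e.F1
def toQ (e : EP) : ℕ → ℕ := Eng.toQ e.l0 e.CM e.HC e.X0 e.F1
def addv (e : EP) : ℕ → ℕ → ℕ := Eng.addv e.sJ e.sj8 e.l0 e.CM e.HC e.X0 e.PT
def ext1 (e : EP) : ℕ → List ℕ → List (ℕ × List ℕ) → List (ℕ × List ℕ) := Eng.ext1 e.sJ e.sj8 e.l0 e.CM e.HC e.X0 e.ET e.PT
def exts (e : EP) : List (ℕ × List ℕ) → List (ℕ × List ℕ) := Eng.exts e.sJ e.sj8 e.l0 e.CM e.HC e.X0 e.ET e.PT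
def filt (e : EP) : ℕ → List (ℕ × List ℕ) → List (ℕ × ℕ) := Eng.filt e.pl e.l0 e.C e.mS e.CM e.HC e.F1
def appAll (e : EP) : List (ℕ × ℕ) → Lst → Lst := Eng.appAll e.W e.pl e.l0 e.m0
def v0s (e : EP) (B3 : List ℕ) : ℕ → ℕ → ℕ → List It → List It := Eng.v0s e.pl e.sJ e.sj8 e.l0 e.C e.mS e.CM e.HC e.S16 e.CL e.PT e.F1 e.c1 B3
/-- the main loop -/
def go (e : EP) (B1 B2 : Lst) (B3 : List ℕ) : ℕ → Eng.RT := Eng.go e.kf e.W e.g e.pl e.sJ e.sj8 e.l0 e.Hf e.LMf e.C e.mF e.mS e.CM e.HC e.S16 e.D3 e.D1 e.X0 e.XL e.XF e.XY e.CL e.ET e.E3 e.PT e.F1 e.lam e.tau e.m0 e.k0 e.k1 e.k2 e.c1 e.c2 e.c3 e.kp e.k4 e.kk e.kV e.kW e.t1 e.t2e e.t2u e.thT e.t2e e.th4 e.th2 e.thV e.t4 B1 B2 B3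

/-! ### semantics -/

/-- The conditions checked by `Eng.chk`. -/
structure Ok (e : EP) : Prop where
  hs : 9 ≤ e.s
  hM : e.M + 8 * e.tau + 1 ≤ 2 ^ e.s
  hl : 12 * e.lam + 16 * e.tau ≤ 2 ^ (e.s + 1)
  ht : 8 * e.tau ≤ 65535
  hkf : e.kf ≤ 1
  hx3 : e.x3 ≤ 1

/-- weight of the colouring `k` -/
def w (e : EP) (k : Fin e.K) : ℕ := (e.codes.getD k.val 0) >>> 16

/-- the colouring `k` -/
def φ (e : EP) (k : Fin e.K) (v : Fin 8) : Fin 4 :=
  ⟨((e.codes.getD k.val 0) >>> (2 * v.val)) % 4, Nat.mod_lt _ (by norm_num)⟩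

end EP

/-- the graph with edge mask `h` -/
def mkH (h : ℕ) : SimpleGraph (Fin 8) where
  Adj a b := Eng.adjn h a.val b.val = 1
  symm := ⟨fun a b hab => by
    have h1 : Eng.adjn h b.val a.val = Eng.adjn h a.val b.val := Nat.add_comm _ _
    rw [h1]; exact hab⟩
  loopless := ⟨fun a h1 => by
    have h2 : Eng.adjn h a.val a.val = 0 := by
      show Nat.add (Nat.mul (Nat.sub 1 (Nat.sub (Nat.add a.val 1) a.val)) _) (Nat.mul (Nat.sub 1 (Nat.sub (Nat.add a.val 1) a.val)) _) = 0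
      have h3 : Nat.sub 1 (Nat.sub (Nat.add a.val 1) a.val) = 0 := by
        show 1 - (a.val + 1 - a.val) = 0
        omega
      rw [h3]
      show 0 * _ + 0 * _ = 0
      simp
    rw [h2] at h1
    exact absurd h1 (by norm_num)⟩

/-- the certificate -/
def EP.par (e : EP) : Par where
  kf := decide (e.kf = 1)
  x3 := decide (e.x3 = 1 ∧ e.kf = 0)
  K := e.K
  lam := e.lam
  tau := e.tau
  H := mkH e.h
  φ := e.φ
  w := e.w

/-- Digit states: the digit of every colouring lane, the label sets and the load. -/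
@[ext] structure DS (K : ℕ) where
  dg : Fin K → ℕ
  N₁ : Finset (Fin 8)
  N₂ : Finset (Fin 8)
  ld : ℕ

/-- the mask of a set of labels -/
def msk (N : Finset (Fin 8)) : ℕ := ∑ a ∈ N, 2 ^ a.val

/-- number with the digits `f 0, …, f (n-1)` in base `2 ^ s` -/
def oc (s : ℕ) (f : ℕ → ℕ) (n : ℕ) : ℕ := ∑ j ∈ range n, f j * 2 ^ (s * j)

namespace EP

/-- normal form: colouring digits `c`, label digits `l`, top part `t` -/
def nf (e : EP) (c l : ℕ → ℕ) (t : ℕ) : ℕ :=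
  oc e.s (fun j => if j < e.K then c j else l (j - e.K)) (e.K + 8) + 2 ^ (e.s * (e.K + 8)) * t

/-- colouring digits of a digit state -/
def cd (e : EP) (x : DS e.K) (j : ℕ) : ℕ := if h : j < e.K then x.dg ⟨j, h⟩ else 0

/-- label digits -/
def lb (N₁ N₂ : Finset (Fin 8)) (j : ℕ) : ℕ :=
  if h : j < 8 then (if (⟨j, h⟩ : Fin 8) ∈ N₁ then 1 else 0) + (if (⟨j, h⟩ : Fin 8) ∈ N₂ then 2 else 0)
  else 0

/-- the packed field of a digit state -/
def enc (e : EP) (x : DS e.K) : ℕ :=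
  e.nf (e.cd x) (lb x.N₁ x.N₂) (msk x.N₁ + 2 ^ 8 * msk x.N₂ + 2 ^ 16 * x.ld)

def OkD (e : EP) (x : DS e.K) : Prop := (∀ k, x.dg k ≤ 31) ∧ x.ld < 2 ^ e.s
/-- root form: bit 4 is set -/
def Pd (e : EP) (x : DS e.K) : Prop := ∀ k, 16 ≤ x.dg k ∧ x.dg k ≤ 31
/-- child form: at most 15, or 31 = dead -/
def Qd (e : EP) (x : DS e.K) : Prop := ∀ k, x.dg k ≤ 15 ∨ x.dg k = 31

/-- compatible weight -/
def wtD (e : EP) (x y : DS e.K) : ℕ := ∑ k, if x.dg k &&& y.dg k = 0 then e.w k else 0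
/-- weight of the lanes which are not dead -/
def alvQ (e : EP) (y : DS e.K) : ℕ := ∑ k, if y.dg k ≠ 31 then e.w k else 0

/-- root form of the result of root `x` and child `y` -/
def mkP (e : EP) (x y : DS e.K) (N₁ N₂ : Finset (Fin 8)) (l : ℕ) : DS e.K :=
  ⟨fun k => if x.dg k &&& y.dg k = 0 then x.dg k ||| y.dg k else 31, N₁, N₂, l⟩
/-- child form of the result of root `x` and child `y` -/
def mkQ (e : EP) (x y : DS e.K) (N₁ N₂ : Finset (Fin 8)) (l : ℕ) : DS e.K :=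
  ⟨fun k => if x.dg k &&& y.dg k = 0 then 31 - (x.dg k ||| y.dg k) else 31, N₁, N₂, l⟩
/-- the digits of `x` are kept -/
def mkK (e : EP) (x y : DS e.K) (N₁ N₂ : Finset (Fin 8)) (l : ℕ) : DS e.K :=
  ⟨fun k => if x.dg k &&& y.dg k = 0 then x.dg k else 31, N₁, N₂, l⟩

/-- load of `x` and `y` joined (`y` and the last member of `x`) -/
def dE (e : EP) (x y : DS e.K) : ℕ := x.ld + y.ld + e.tau * (x.N₁ ∩ y.N₁).card
/-- load of the piece `x` and the chain `y` closed at `x` -/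
def dC (e : EP) (x y : DS e.K) : ℕ :=
  x.ld + y.ld + e.tau * (x.N₁ ∩ y.N₁).card + e.tau * (x.N₁ ∩ y.N₂).card

/-- trivial root, child `f`: packed root form and child form -/
def trivP (e : EP) (f : ℕ) : ℕ := Nat.lor (Nat.land f e.CL) e.S16
def trivQ (e : EP) (f : ℕ) : ℕ :=
  Nat.add (Nat.sub (Nat.lor (e.trivP f) e.CM) (Nat.land (e.trivP f) e.CM))
    (Nat.sub (Nat.land (Nat.add (Nat.land (e.trivP f) e.CM) e.F1) e.HC)
      (Nat.shiftRight (Nat.land (Nat.add (Nat.land (e.trivP f) e.CM) e.F1) e.HC) 5))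
def trvP (e : EP) (y : DS e.K) : DS e.K := ⟨fun k => y.dg k ||| 16, ∅, ∅, y.ld⟩
def trvQ (e : EP) (y : DS e.K) : DS e.K :=
  ⟨fun k => if y.dg k ||| 16 = 31 then 31 else 31 - (y.dg k ||| 16), ∅, ∅, y.ld⟩

/-- packed list with given entries (field, load), the first entry in the lowest lane -/
def pk (e : EP) (t : List (ℕ × ℕ)) : Lst := t.foldr (fun a L => e.app L a.1 a.2) ⟨0, 0, 0⟩

/-- a legal entry -/
def EntOk (e : EP) (a : ℕ × ℕ) : Prop := ∃ x : DS e.K, e.OkD x ∧ a = (e.enc x, x.ld)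

/-! ### the lists as functions of the processed items -/

def sel1 (e : EP) : It → Option (ℕ × ℕ)
  | It.r1 f w => if w ≤ e.t1 then none else some (f, f >>> e.l0)
  | _ => none
def sel2e (e : EP) : It → Option (ℕ × ℕ)
  | It.r2 p _ w => if w ≤ e.t2e then none else some (p, p >>> e.l0)
  | _ => none
def sel2 (e : EP) : It → Option (ℕ × ℕ)
  | It.r2 p _ _ => some (p, p >>> e.l0)
  | _ => none
def sel2u (e : EP) : It → Option (ℕ × ℕ)
  | It.r2 p _ w => if w ≤ e.t2e then none else if w ≤ e.t2u then none else some (p, p >>> e.l0)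
  | _ => none
def sel3 (e : EP) : It → Option (ℕ × ℕ)
  | It.r3 p _ _ => some (p, p >>> e.l0)
  | _ => none
def selT (e : EP) : It → Option (ℕ × ℕ)
  | It.t2 f _ => some (f, f >>> e.l0)
  | _ => none
def selU2 (e : EP) : It → Option (ℕ × ℕ)
  | It.u2 f _ => some (f, f >>> e.l0)
  | _ => none
def selU3 (e : EP) : It → Option (ℕ × ℕ)
  | It.u3 f _ => some (f, f >>> e.l0)
  | _ => none
def selU4 (e : EP) : It → Option (ℕ × ℕ)
  | It.u4 f _ => some (f, f >>> e.l0)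
  | _ => none
def selV (e : EP) : It → Option (ℕ × ℕ)
  | It.v2 f _ => some (f, f >>> e.l0)
  | _ => none

/-- the packed list of the processed items selected by `s` -/
def ls (e : EP) (s : It → Option (ℕ × ℕ)) (D : List It) : Lst := e.pk (D.filterMap s)

/-- the state of the main loop: fuel `n`, worklist `st`, processed items `D` (last first); `b1`, `b2`
entries of the static lists -/
def run (e : EP) (b1 b2 : List (ℕ × ℕ)) (b3 : List ℕ) (n : ℕ) (st D : List It) : Bool :=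
  e.go (e.pk b1) (e.pk b2) b3 n st (e.ls e.sel1 D) (e.ls e.sel2e D) (e.ls e.sel2 D) (e.ls e.sel2u D)
    (e.ls e.sel3 D) (e.ls e.selT D) (e.ls e.selU2 D) (e.ls e.selU3 D) (e.ls e.selU4 D)
    (e.ls e.selV D)

/-- the new worklist after processing an item -/
def out (e : EP) (b1 b2 : List (ℕ × ℕ)) (b3 : List ℕ) (it : It) (st D : List It) : List It :=
  match it with
  | It.r1 f w =>
    let st0 := if w ≤ e.c3 then st else It.r3 (e.trivP f) (e.trivQ f) w :: st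
    let st1 := e.exs (e.pk b1) (fun x => e.edge0 x f) (Nat.land f e.D1) (f >>> e.l0 + e.k0) st0
    let st2 := e.exs (e.ls e.sel3 D) (fun x => e.edge2 x f) (Nat.land f e.D1) (f >>> e.l0 + e.k2) st1
    if w ≤ e.t1 then st2 else
      e.exs (e.ls e.sel2e D) (fun x => e.edge1 x f) (Nat.land f e.D1) (f >>> e.l0 + e.k1) st2
  | It.r2 p q w =>
    let st1 := e.exs (e.ls e.sel2 (It.r2 p q w :: D)) (e.pairG q) (Nat.land q e.D1)
      (q >>> e.l0 + e.kp) st
    if w ≤ e.t2e then st1 else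
    let st2 := if w ≤ e.t2u then st1 else
      e.exs (e.ls e.selU3 D) (fun x => e.chain It.u4 e.th2 x p) (Nat.land p e.D1) (p >>> e.l0 + e.kk)
      (e.exs (e.ls e.selU4 D) (fun x => e.chain It.u3 e.th4 x p) (Nat.land p e.D1) (p >>> e.l0 + e.k4)
      (e.exs (e.ls e.selU2 D) (fun x => e.chain It.u3 e.th4 x p) (Nat.land p e.D1) (p >>> e.l0 + e.k4)
        st1))
    e.exs (e.ls e.sel1 D) (fun y => e.edge1 p y) (Nat.land p e.D1) (p >>> e.l0 + e.k1) st2
  | It.r3 p q w =>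
    let st1 := e.exs (e.ls e.selU4 D) (fun y => e.close1 0 p y) (Nat.land p e.D3) (p >>> e.l0 + e.k1)
      (e.exs (e.ls e.selT D) (fun y => e.close1 1 p y) (Nat.land p e.D3) (p >>> e.l0 + e.k1)
      (e.exs (e.ls e.sel1 D) (fun y => e.edge2 p y) (Nat.land p e.D1) (p >>> e.l0 + e.k2) st))
    if e.kf = 1 then st1 else
      e.exs (e.ls e.selV D) (fun x => e.triV x p) (Nat.land p e.D3) (p >>> e.l0 + e.kW)
      (e.exs (e.ls e.sel3 (It.r3 p q w :: D)) (e.pairV q) (Nat.land q e.D1) (q >>> e.l0 + e.kV) st1)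
  | It.t2 f w =>
    e.exs (e.ls e.sel3 D) (fun x => e.close1 1 x f) (Nat.land f e.D3) (f >>> e.l0 + e.k1)
      (e.exs (e.pk b2) (fun x => e.close0 1 x f) (Nat.land f e.D3) (f >>> e.l0 + e.k0)
      (if w ≤ e.c2 then st else It.r2 (e.trivP f) (e.trivQ f) w :: st))
  | It.u2 f w =>
    e.exs (e.ls e.sel2u D) (fun y => e.chain It.u3 e.th4 f y) (Nat.land f e.D1) (f >>> e.l0 + e.k4) st
  | It.u3 f w =>
    e.exs (e.ls e.sel2u D) (fun y => e.chain It.u4 e.th2 f y) (Nat.land f e.D1) (f >>> e.l0 + e.kk) st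
  | It.u4 f w =>
    e.exs (e.ls e.sel2u D) (fun y => e.chain It.u3 e.th4 f y) (Nat.land f e.D1) (f >>> e.l0 + e.k4)
      (e.exs (e.ls e.sel3 D) (fun x => e.close1 0 x f) (Nat.land f e.D3) (f >>> e.l0 + e.k1)
      (e.exs (e.pk b2) (fun x => e.close0 0 x f) (Nat.land f e.D3) (f >>> e.l0 + e.k0)
      (if w ≤ e.c2 then st else It.r2 (e.trivP f) (e.trivQ f) w :: st)))
  | It.v2 f w =>
    e.exs (e.ls e.sel3 D) (fun y => e.triV f y) (Nat.land f e.D3) (f >>> e.l0 + e.kW) st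
  | It.v3 f n w => e.v0s b3 f n w st
  | It.bad => st

/-- Well-formed items. -/
def GoodIt (e : EP) : It → Prop
  | It.r1 f w => ∃ y : DS e.K, e.OkD y ∧ e.Qd y ∧ y.N₁ = y.N₂ ∧ f = e.enc y ∧ e.alvQ y ≤ w + y.ld
  | It.r2 p q w => ∃ x y : DS e.K, e.OkD x ∧ e.Pd x ∧ e.OkD y ∧ e.Qd y ∧ y.N₁ = y.N₂ ∧
      x.N₁ = y.N₁ ∧ x.N₂ = y.N₂ ∧ x.ld = y.ld ∧ p = e.enc x ∧ q = e.enc y ∧ e.alvQ y ≤ w + y.ld
  | It.r3 p q w => ∃ x y : DS e.K, e.OkD x ∧ e.Pd x ∧ e.OkD y ∧ e.Qd y ∧ y.N₁ = y.N₂ ∧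
      x.N₁ = y.N₁ ∧ x.N₂ = y.N₂ ∧ x.ld = y.ld ∧ p = e.enc x ∧ q = e.enc y ∧ e.alvQ y ≤ w + y.ld
  | It.t2 f w => ∃ y : DS e.K, e.OkD y ∧ e.Qd y ∧ f = e.enc y ∧ e.alvQ y ≤ w + y.ld
  | It.u2 f w => ∃ y : DS e.K, e.OkD y ∧ e.Qd y ∧ f = e.enc y ∧ e.alvQ y ≤ w + y.ld
  | It.u3 f w => ∃ y : DS e.K, e.OkD y ∧ e.Qd y ∧ f = e.enc y ∧ e.alvQ y ≤ w + y.ld
  | It.u4 f w => ∃ y : DS e.K, e.OkD y ∧ e.Qd y ∧ f = e.enc y ∧ e.alvQ y ≤ w + y.ld
  | It.v2 f w => ∃ y : DS e.K, e.OkD y ∧ e.Qd y ∧ f = e.enc y ∧ e.alvQ y ≤ w + y.ld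
  | It.v3 f n w => ∃ y : DS e.K, ∃ N : Finset (Fin 8), e.OkD y ∧ e.Qd y ∧ f = e.enc y ∧ n = msk N ∧
      e.alvQ y ≤ w + y.ld
  | It.bad => False

/-- The rules hold for the processed items `D`, with results in `D` or in the worklist `st`. -/
structure Part (e : EP) (b1 b2 : List (ℕ × ℕ)) (b3 : List ℕ) (D st : List It) : Prop where
  e0 : ∀ f w, It.r1 f w ∈ D → ∀ a ∈ b1, ∀ it ∈ e.edge0 a.1 f [], it ∈ D ∨ it ∈ st
  e1 : ∀ p q w f w', It.r2 p q w ∈ D → It.r1 f w' ∈ D → e.t2e < w → e.t1 < w' →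
    ∀ it ∈ e.edge1 p f [], it ∈ D ∨ it ∈ st
  e2 : ∀ p q w f w', It.r3 p q w ∈ D → It.r1 f w' ∈ D → e.t1 < w' →
    ∀ it ∈ e.edge2 p f [], it ∈ D ∨ it ∈ st
  e3 : ∀ f w, It.r1 f w ∈ D → e.c3 < w →
    It.r3 (e.trivP f) (e.trivQ f) w ∈ D ∨ It.r3 (e.trivP f) (e.trivQ f) w ∈ st
  pr : ∀ p q w p' q' w', It.r2 p q w ∈ D → It.r2 p' q' w' ∈ D →
    (∀ it ∈ e.pairG q' p [], it ∈ D ∨ it ∈ st) ∨ (∀ it ∈ e.pairG q p' [], it ∈ D ∨ it ∈ st)
  u2 : ∀ f w p q w', It.u2 f w ∈ D → It.r2 p q w' ∈ D → e.t2u < w' →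
    ∀ it ∈ e.chain It.u3 e.th4 f p [], it ∈ D ∨ it ∈ st
  u4 : ∀ f w p q w', It.u4 f w ∈ D → It.r2 p q w' ∈ D → e.t2u < w' →
    ∀ it ∈ e.chain It.u3 e.th4 f p [], it ∈ D ∨ it ∈ st
  u3 : ∀ f w p q w', It.u3 f w ∈ D → It.r2 p q w' ∈ D → e.t2u < w' →
    ∀ it ∈ e.chain It.u4 e.th2 f p [], it ∈ D ∨ it ∈ st
  tc0 : ∀ f w, It.t2 f w ∈ D → ∀ a ∈ b2, ∀ it ∈ e.close0 1 a.1 f [], it ∈ D ∨ it ∈ st
  uc0 : ∀ f w, It.u4 f w ∈ D → ∀ a ∈ b2, ∀ it ∈ e.close0 0 a.1 f [], it ∈ D ∨ it ∈ st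
  tc1 : ∀ p q w f w', It.r3 p q w ∈ D → It.t2 f w' ∈ D → ∀ it ∈ e.close1 1 p f [], it ∈ D ∨ it ∈ st
  uc1 : ∀ p q w f w', It.r3 p q w ∈ D → It.u4 f w' ∈ D → ∀ it ∈ e.close1 0 p f [], it ∈ D ∨ it ∈ st
  tc2 : ∀ f w, It.t2 f w ∈ D → e.c2 < w →
    It.r2 (e.trivP f) (e.trivQ f) w ∈ D ∨ It.r2 (e.trivP f) (e.trivQ f) w ∈ st
  uc2 : ∀ f w, It.u4 f w ∈ D → e.c2 < w →
    It.r2 (e.trivP f) (e.trivQ f) w ∈ D ∨ It.r2 (e.trivP f) (e.trivQ f) w ∈ st
  v2 : e.kf ≠ 1 → ∀ p q w p' q' w', It.r3 p q w ∈ D → It.r3 p' q' w' ∈ D →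
    (∀ it ∈ e.pairV q' p [], it ∈ D ∨ it ∈ st) ∨ (∀ it ∈ e.pairV q p' [], it ∈ D ∨ it ∈ st)
  v3 : e.kf ≠ 1 → ∀ f w p q w', It.v2 f w ∈ D → It.r3 p q w' ∈ D →
    ∀ it ∈ e.triV f p [], it ∈ D ∨ it ∈ st
  vc : ∀ f n w, It.v3 f n w ∈ D → ∀ it ∈ e.v0s b3 f n w [], it ∈ D ∨ it ∈ st

end EP

end

end Pool.Agent.MP_528dc0_co

end

section

open Finset

namespace Pool.Agent.MP_528dc0_co

open Eng (Lst It)

theorem ea1_land {s c c' : ℕ} (hc : c < 2 ^ s) (hc' : c' < 2 ^ s) (A A' : ℕ) :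
    (c + 2 ^ s * A) &&& (c' + 2 ^ s * A') = (c &&& c') + 2 ^ s * (A &&& A') := by
  apply Nat.eq_of_testBit_eq
  intro i
  rw [Nat.testBit_and, add_comm c, add_comm c', add_comm (c &&& c'),
    Nat.testBit_two_pow_mul_add _ hc, Nat.testBit_two_pow_mul_add _ hc',
    Nat.testBit_two_pow_mul_add _ (Nat.and_lt_two_pow c hc')]
  split_ifs
  · rw [Nat.testBit_and]
  · rw [Nat.testBit_and]

theorem ea1_lor {s c c' : ℕ} (hc : c < 2 ^ s) (hc' : c' < 2 ^ s) (A A' : ℕ) :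
    (c + 2 ^ s * A) ||| (c' + 2 ^ s * A') = (c ||| c') + 2 ^ s * (A ||| A') := by
  apply Nat.eq_of_testBit_eq
  intro i
  rw [Nat.testBit_or, add_comm c, add_comm c', add_comm (c ||| c'),
    Nat.testBit_two_pow_mul_add _ hc, Nat.testBit_two_pow_mul_add _ hc',
    Nat.testBit_two_pow_mul_add _ (Nat.or_lt_two_pow hc hc')]
  split_ifs
  · rw [Nat.testBit_or]
  · rw [Nat.testBit_or]

theorem ea1_xor {s c c' : ℕ} (hc : c < 2 ^ s) (hc' : c' < 2 ^ s) (A A' : ℕ) :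
    (c + 2 ^ s * A) ^^^ (c' + 2 ^ s * A') = (c ^^^ c') + 2 ^ s * (A ^^^ A') := by
  apply Nat.eq_of_testBit_eq
  intro i
  rw [Nat.testBit_xor, add_comm c, add_comm c', add_comm (c ^^^ c'),
    Nat.testBit_two_pow_mul_add _ hc, Nat.testBit_two_pow_mul_add _ hc',
    Nat.testBit_two_pow_mul_add _ (Nat.xor_lt_two_pow hc hc')]
  split_ifs
  · rw [Nat.testBit_xor]
  · rw [Nat.testBit_xor]

theorem ea1_succ (s n : ℕ) (f : ℕ → ℕ) :
    oc s f (n + 1) = f 0 + 2 ^ s * oc s (fun j => f (j + 1)) n := by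
  unfold oc
  rw [Finset.sum_range_succ', Finset.mul_sum, Nat.mul_zero, pow_zero, Nat.mul_one, add_comm]
  congr 1
  refine Finset.sum_congr rfl fun j _ => ?_
  rw [Nat.mul_add, Nat.mul_one, pow_add]
  ring

theorem ea1_succ' (s n : ℕ) (f : ℕ → ℕ) (a : ℕ) :
    oc s f (n + 1) + 2 ^ (s * (n + 1)) * a =
      f 0 + 2 ^ s * (oc s (fun j => f (j + 1)) n + 2 ^ (s * n) * a) := by
  rw [ea1_succ, Nat.mul_add s, Nat.mul_one, pow_add]
  ring

theorem ea1_zero (s : ℕ) (f : ℕ → ℕ) : oc s f 0 = 0 := by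
  simp [oc]

/-- Digitwise operations. `oc s f n = ∑_{j<n} f j 2^(s j)`; an arbitrary top part `a` is allowed.
Proofs: induction on `n` (peel off the lowest digit, `Finset.sum_range_succ'`, or the highest one);
`Nat.eq_of_testBit_eq` and `Nat.testBit_two_pow_mul_add`-type lemmas: for `c < 2^s`,
`(c + 2^s * A) &&& (c' + 2^s * A') = (c &&& c') + 2^s * (A &&& A')`. -/
theorem oc_land (s n : ℕ) (f g : ℕ → ℕ) (a b : ℕ) (hf : ∀ j < n, f j < 2 ^ s)
    (hg : ∀ j < n, g j < 2 ^ s) :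
    (oc s f n + 2 ^ (s * n) * a) &&& (oc s g n + 2 ^ (s * n) * b) =
      oc s (fun j => f j &&& g j) n + 2 ^ (s * n) * (a &&& b) := by
  induction n generalizing f g with
  | zero => simp [ea1_zero]
  | succ n ih =>
    rw [ea1_succ', ea1_succ', ea1_succ', ea1_land (hf 0 (by omega)) (hg 0 (by omega)),
      ih _ _ (fun j hj => hf (j + 1) (by omega)) (fun j hj => hg (j + 1) (by omega))]

theorem oc_lor (s n : ℕ) (f g : ℕ → ℕ) (a b : ℕ) (hf : ∀ j < n, f j < 2 ^ s)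
    (hg : ∀ j < n, g j < 2 ^ s) :
    (oc s f n + 2 ^ (s * n) * a) ||| (oc s g n + 2 ^ (s * n) * b) =
      oc s (fun j => f j ||| g j) n + 2 ^ (s * n) * (a ||| b) := by
  induction n generalizing f g with
  | zero => simp [ea1_zero]
  | succ n ih =>
    rw [ea1_succ', ea1_succ', ea1_succ', ea1_lor (hf 0 (by omega)) (hg 0 (by omega)),
      ih _ _ (fun j hj => hf (j + 1) (by omega)) (fun j hj => hg (j + 1) (by omega))]

theorem oc_xor (s n : ℕ) (f g : ℕ → ℕ) (hf : ∀ j < n, f j < 2 ^ s)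
    (hg : ∀ j < n, g j < 2 ^ s) :
    oc s f n ^^^ oc s g n = oc s (fun j => f j ^^^ g j) n := by
  induction n generalizing f g with
  | zero => simp [ea1_zero]
  | succ n ih =>
    rw [ea1_succ, ea1_succ, ea1_succ, ea1_xor (hf 0 (by omega)) (hg 0 (by omega)),
      ih _ _ (fun j hj => hf (j + 1) (by omega)) (fun j hj => hg (j + 1) (by omega))]

theorem oc_lt (s n : ℕ) (f : ℕ → ℕ) (hf : ∀ j < n, f j < 2 ^ s) : oc s f n < 2 ^ (s * n) := by
  induction n generalizing f with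
  | zero => simp [ea1_zero]
  | succ n ih =>
    have h1 := ih (fun j => f (j + 1)) (fun j hj => hf (j + 1) (by omega))
    have h2 := hf 0 (by omega)
    rw [ea1_succ, Nat.mul_add s, Nat.mul_one, pow_add]
    have h3 : 2 ^ s * (oc s (fun j => f (j + 1)) n + 1) ≤ 2 ^ s * 2 ^ (s * n) :=
      Nat.mul_le_mul_left _ h1
    rw [Nat.mul_add, Nat.mul_one] at h3
    rw [Nat.mul_comm (2 ^ (s * n))]
    omega

theorem oc_congr (s n : ℕ) (f g : ℕ → ℕ) (h : ∀ j < n, f j = g j) : oc s f n = oc s g n := by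
  unfold oc
  refine Finset.sum_congr rfl fun j hj => ?_
  rw [h j (Finset.mem_range.1 hj)]

theorem oc_add (s n : ℕ) (f g : ℕ → ℕ) : oc s f n + oc s g n = oc s (fun j => f j + g j) n := by
  unfold oc
  rw [← Finset.sum_add_distrib]
  refine Finset.sum_congr rfl fun j _ => ?_
  ring

theorem oc_sub (s n : ℕ) (f g : ℕ → ℕ) (h : ∀ j < n, g j ≤ f j) :
    oc s f n - oc s g n = oc s (fun j => f j - g j) n := by
  have h1 : oc s (fun j => f j - g j) n + oc s g n = oc s f n := by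
    rw [oc_add]
    apply oc_congr
    intro j hj
    have := h j hj
    omega
  omega

theorem oc_smul (s n c : ℕ) (f : ℕ → ℕ) : c * oc s f n = oc s (fun j => c * f j) n := by
  unfold oc
  rw [Finset.mul_sum]
  refine Finset.sum_congr rfl fun j _ => ?_
  ring

theorem oc_split (s m n : ℕ) (f : ℕ → ℕ) :
    oc s f (m + n) = oc s f m + 2 ^ (s * m) * oc s (fun j => f (m + j)) n := by
  unfold oc
  rw [Finset.sum_range_add, Finset.mul_sum]
  congr 1
  refine Finset.sum_congr rfl fun j _ => ?_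
  rw [Nat.mul_add s, pow_add]
  ring

/-- the digits of `oc` -/
theorem oc_digit (s n : ℕ) (f : ℕ → ℕ) (a : ℕ) (hf : ∀ j < n, f j < 2 ^ s) (j : ℕ) (hj : j < n) :
    (oc s f n + 2 ^ (s * n) * a) / 2 ^ (s * j) % 2 ^ s = f j := by
  obtain ⟨r, rfl⟩ : ∃ r, n = j + (r + 1) := ⟨n - j - 1, by omega⟩
  have h1 : oc s f (j + (r + 1)) + 2 ^ (s * (j + (r + 1))) * a =
      oc s f j + 2 ^ (s * j) * (f j + 2 ^ s * (oc s (fun i => f (j + (i + 1))) r +
        2 ^ (s * r) * a)) := by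
    rw [oc_split, ea1_succ]
    have e : 2 ^ (s * (j + (r + 1))) = 2 ^ (s * j) * (2 ^ s * 2 ^ (s * r)) := by
      rw [← pow_add, ← pow_add]
      congr 1
      ring
    rw [e, Nat.add_zero]
    ring
  have h2 : oc s f j < 2 ^ (s * j) := oc_lt s j f (fun i hi => hf i (by omega))
  rw [h1, Nat.add_mul_div_left _ _ (by positivity), Nat.div_eq_of_lt h2, Nat.zero_add,
    Nat.add_mul_mod_self_left, Nat.mod_eq_of_lt (hf j (by omega))]

theorem oc_top (s n : ℕ) (f : ℕ → ℕ) (a : ℕ) (hf : ∀ j < n, f j < 2 ^ s) :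
    (oc s f n + 2 ^ (s * n) * a) / 2 ^ (s * n) = a := by
  rw [Nat.add_mul_div_left _ _ (by positivity), Nat.div_eq_of_lt (oc_lt s n f hf), Nat.zero_add]

/-- the ones -/
theorem ones_eq (s n : ℕ) (hs : 1 ≤ s) : Eng.ones s n = oc s (fun _ => 1) n := by
  have h2 : 2 ≤ 2 ^ s := by
    calc 2 = 2 ^ 1 := by norm_num
      _ ≤ 2 ^ s := Nat.pow_le_pow_right (by norm_num) hs
  have h1 : Eng.ones s n = (2 ^ (s * n) - 1) / (2 ^ s - 1) := by
    have e : ∀ m, Eng.pow2 m = 2 ^ m := fun m => by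
      show Nat.shiftLeft 1 m = 2 ^ m
      have h3 : (1 <<< m : ℕ) = 1 * 2 ^ m := Nat.shiftLeft_eq 1 m
      rw [one_mul] at h3
      exact h3
    show (Eng.pow2 (s * n) - 1) / (Eng.pow2 s - 1) = _
    rw [e, e]
  rw [h1, pow_mul, ← Nat.geomSum_eq h2]
  unfold oc
  refine Finset.sum_congr rfl fun j _ => ?_
  rw [one_mul, pow_mul]

end Pool.Agent.MP_528dc0_co

end

section

open Finset

namespace Pool.Agent.MP_528dc0_co

open Eng (Lst It)

private theorem ea2_nf (e : EP) (c l : ℕ → ℕ) (t : ℕ) :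
    e.nf c l t = oc e.s c e.K + 2 ^ (e.s * e.K) * oc e.s l 8 + 2 ^ (e.s * (e.K + 8)) * t := by
  unfold EP.nf
  rw [oc_split]
  have h1 : oc e.s (fun j => if j < e.K then c j else l (j - e.K)) e.K = oc e.s c e.K :=
    oc_congr _ _ _ _ fun j hj => if_pos hj
  have h2 : oc e.s (fun j => (fun j => if j < e.K then c j else l (j - e.K)) (e.K + j)) 8 =
      oc e.s l 8 := by
    refine oc_congr _ _ _ _ fun j hj => ?_
    show (if e.K + j < e.K then c (e.K + j) else l (e.K + j - e.K)) = l j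
    rw [if_neg (by omega), Nat.add_sub_cancel_left]
  rw [h1, h2]

private theorem ea2_oc0 (s n : ℕ) : oc s (fun _ => 0) n = 0 := by
  unfold oc
  exact sum_eq_zero fun j _ => Nat.zero_mul _

private theorem ea2_c (s n c : ℕ) (hs : 1 ≤ s) : oc s (fun _ => c) n = c * Eng.ones s n := by
  rw [ones_eq s n hs, oc_smul]
  exact oc_congr _ _ _ _ fun j _ => (Nat.mul_one c).symm

private theorem ea2_dig (e : EP) (c l : ℕ → ℕ) (h1 : ∀ j, c j < 2 ^ e.s) (h2 : ∀ j, l j < 2 ^ e.s) :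
    ∀ j < e.K + 8, (fun j => if j < e.K then c j else l (j - e.K)) j < 2 ^ e.s := by
  intro j _
  show (if j < e.K then c j else l (j - e.K)) < 2 ^ e.s
  by_cases h : j < e.K
  · rw [if_pos h]
    exact h1 j
  · rw [if_neg h]
    exact h2 _

private theorem ea2_op (e : EP) (c l c' l' : ℕ → ℕ) (f : ℕ → ℕ → ℕ) :
    oc e.s (fun j => f ((fun j => if j < e.K then c j else l (j - e.K)) j)
      ((fun j => if j < e.K then c' j else l' (j - e.K)) j)) (e.K + 8) =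
    oc e.s (fun j => if j < e.K then (fun j => f (c j) (c' j)) j else
      (fun j => f (l j) (l' j)) (j - e.K)) (e.K + 8) := by
  refine oc_congr _ _ _ _ fun j _ => ?_
  show f (if j < e.K then c j else l (j - e.K)) (if j < e.K then c' j else l' (j - e.K)) =
    if j < e.K then f (c j) (c' j) else f (l (j - e.K)) (l' (j - e.K))
  by_cases h : j < e.K
  · rw [if_pos h, if_pos h, if_pos h]
  · rw [if_neg h, if_neg h, if_neg h]

private theorem ea2_len (l : List ℕ) : Eng.len l = l.length := by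
  induction l with
  | nil => rfl
  | cons a l ih =>
    have h : Eng.len (a :: l) = Eng.len l + 1 := rfl
    rw [h, ih, List.length_cons]

private theorem ea2_sumW (l : List ℕ) :
    Eng.sumW l = ∑ j ∈ range l.length, (l.getD j 0) >>> 16 := by
  induction l with
  | nil => rfl
  | cons a l ih =>
    have h : Eng.sumW (a :: l) = Eng.sumW l + a >>> 16 := rfl
    rw [h, ih, List.length_cons, sum_range_succ']
    rfl

private theorem ea2_cW (s : ℕ) (l : List ℕ) : ∀ acc : ℕ, Eng.cW s l acc =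
    acc * 2 ^ (s * l.length) +
      oc s (fun q => (l.getD (l.length - 1 - q) 0) >>> 16) l.length := by
  induction l with
  | nil =>
    intro acc
    show acc = acc * 2 ^ (s * 0) + 0
    rw [Nat.mul_zero, Nat.pow_zero, Nat.mul_one, Nat.add_zero]
  | cons a l ih =>
    intro acc
    have h : Eng.cW s (a :: l) acc = Eng.cW s l (acc <<< s + a >>> 16) := rfl
    rw [h, ih, Nat.shiftLeft_eq, List.length_cons]
    have h3 : oc s (fun q => ((a :: l).getD (l.length + 1 - 1 - q) 0) >>> 16) (l.length + 1) =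
        oc s (fun q => (l.getD (l.length - 1 - q) 0) >>> 16) l.length +
          a >>> 16 * 2 ^ (s * l.length) := by
      unfold oc
      rw [sum_range_succ]
      congr 1
      · refine sum_congr rfl fun q hq => ?_
        have hq' : q < l.length := mem_range.1 hq
        have e1 : l.length + 1 - 1 - q = (l.length - 1 - q) + 1 := by omega
        show ((a :: l).getD (l.length + 1 - 1 - q) 0) >>> 16 * 2 ^ (s * q) =
          (l.getD (l.length - 1 - q) 0) >>> 16 * 2 ^ (s * q)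
        rw [e1]
        rfl
      · have e2 : l.length + 1 - 1 - l.length = 0 := by omega
        show ((a :: l).getD (l.length + 1 - 1 - l.length) 0) >>> 16 * 2 ^ (s * l.length) =
          a >>> 16 * 2 ^ (s * l.length)
        rw [e2]
        rfl
    rw [h3, Nat.mul_add, Nat.mul_one, Nat.pow_add]
    ring

private theorem ea2_pow2 (n : ℕ) : Eng.pow2 n = 2 ^ n := by
  show 1 <<< n = 2 ^ n
  rw [Nat.shiftLeft_eq, Nat.one_mul]

private theorem ea2_K (e : EP) : e.K = e.codes.length := ea2_len e.codes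

private theorem ea2_M (e : EP) : e.M = ∑ j ∈ range e.K, (e.codes.getD j 0) >>> 16 := by
  rw [ea2_K]
  exact ea2_sumW e.codes

private theorem ea2_hs (e : EP) (h : e.Ok) : 1 ≤ e.s := by
  have := h.hs
  omega

private theorem ea2_CM (e : EP) : e.CM = 31 * Eng.ones e.s e.K := rfl

theorem nf_land (e : EP) (c l c' l' : ℕ → ℕ) (t t' : ℕ) (h1 : ∀ j, c j < 2 ^ e.s)
    (h2 : ∀ j, l j < 2 ^ e.s) (h3 : ∀ j, c' j < 2 ^ e.s) (h4 : ∀ j, l' j < 2 ^ e.s) :
    e.nf c l t &&& e.nf c' l' t' =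
      e.nf (fun j => c j &&& c' j) (fun j => l j &&& l' j) (t &&& t') := by
  have h := oc_land e.s (e.K + 8) (fun j => if j < e.K then c j else l (j - e.K))
    (fun j => if j < e.K then c' j else l' (j - e.K)) t t' (ea2_dig e c l h1 h2)
    (ea2_dig e c' l' h3 h4)
  rw [ea2_op e c l c' l' (fun a b => a &&& b)] at h
  exact h

theorem nf_lor (e : EP) (c l c' l' : ℕ → ℕ) (t t' : ℕ) (h1 : ∀ j, c j < 2 ^ e.s)
    (h2 : ∀ j, l j < 2 ^ e.s) (h3 : ∀ j, c' j < 2 ^ e.s) (h4 : ∀ j, l' j < 2 ^ e.s) :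
    e.nf c l t ||| e.nf c' l' t' =
      e.nf (fun j => c j ||| c' j) (fun j => l j ||| l' j) (t ||| t') := by
  have h := oc_lor e.s (e.K + 8) (fun j => if j < e.K then c j else l (j - e.K))
    (fun j => if j < e.K then c' j else l' (j - e.K)) t t' (ea2_dig e c l h1 h2)
    (ea2_dig e c' l' h3 h4)
  rw [ea2_op e c l c' l' (fun a b => a ||| b)] at h
  exact h

theorem nf_add (e : EP) (c l c' l' : ℕ → ℕ) (t t' : ℕ) :
    e.nf c l t + e.nf c' l' t' = e.nf (fun j => c j + c' j) (fun j => l j + l' j) (t + t') := by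
  rw [ea2_nf, ea2_nf, ea2_nf, ← oc_add, ← oc_add]
  ring

theorem nf_sub (e : EP) (c l c' l' : ℕ → ℕ) (t t' : ℕ) (h1 : ∀ j, c' j ≤ c j)
    (h2 : ∀ j, l' j ≤ l j) (h3 : t' ≤ t) :
    e.nf c l t - e.nf c' l' t' = e.nf (fun j => c j - c' j) (fun j => l j - l' j) (t - t') := by
  rw [ea2_nf, ea2_nf, ea2_nf, ← oc_sub _ _ _ _ fun j _ => h1 j, ← oc_sub _ _ _ _ fun j _ => h2 j]
  have b1 : oc e.s c' e.K ≤ oc e.s c e.K :=
    sum_le_sum fun j _ => Nat.mul_le_mul_right _ (h1 j)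
  have b2 : oc e.s l' 8 ≤ oc e.s l 8 :=
    sum_le_sum fun j _ => Nat.mul_le_mul_right _ (h2 j)
  have b3 := Nat.mul_le_mul_left (2 ^ (e.s * e.K)) b2
  have b4 := Nat.mul_le_mul_left (2 ^ (e.s * (e.K + 8))) h3
  rw [Nat.mul_sub, Nat.mul_sub]
  omega

/-- constants, with `e.Ok` (so `9 ≤ e.s`) -/
theorem K_eq (e : EP) : e.K = e.codes.length := by
  exact ea2_K e
theorem CM_eq (e : EP) (h : e.Ok) : e.CM = e.nf (fun _ => 31) (fun _ => 0) 0 := by
  rw [ea2_nf, ea2_c _ _ 31 (ea2_hs e h), ea2_oc0, Nat.mul_zero, Nat.mul_zero]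
  rfl
theorem HC_eq (e : EP) (h : e.Ok) : e.HC = e.nf (fun _ => 32) (fun _ => 0) 0 := by
  rw [ea2_nf, ea2_c _ _ 32 (ea2_hs e h), ea2_oc0, Nat.mul_zero, Nat.mul_zero]
  rfl
theorem S16_eq (e : EP) (h : e.Ok) : e.S16 = e.nf (fun _ => 16) (fun _ => 0) 0 := by
  rw [ea2_nf, ea2_c _ _ 16 (ea2_hs e h), ea2_oc0, Nat.mul_zero, Nat.mul_zero]
  rfl
theorem F1_eq (e : EP) (h : e.Ok) : e.F1 = e.nf (fun _ => 1) (fun _ => 0) 0 := by
  rw [ea2_nf, ea2_c _ _ 1 (ea2_hs e h), ea2_oc0, Nat.mul_zero, Nat.mul_zero, Nat.one_mul]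
  rfl
theorem D1_eq (e : EP) (h : e.Ok) : e.D1 = e.nf (fun _ => 31) (fun _ => 1) 0 := by
  rw [ea2_nf, ea2_c _ _ 31 (ea2_hs e h), ea2_c _ _ 1 (ea2_hs e h), Nat.mul_zero]
  show 31 * Eng.ones e.s e.K + (Eng.ones e.s 8) <<< (e.s * e.K) = _
  rw [Nat.shiftLeft_eq]
  ring
theorem D3_eq (e : EP) (h : e.Ok) : e.D3 = e.nf (fun _ => 31) (fun _ => 3) 0 := by
  rw [ea2_nf, ea2_c _ _ 31 (ea2_hs e h), ea2_c _ _ 3 (ea2_hs e h), Nat.mul_zero]
  show 31 * Eng.ones e.s e.K + (3 * Eng.ones e.s 8) <<< (e.s * e.K) = _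
  rw [Nat.shiftLeft_eq]
  ring
theorem X0_eq (e : EP) (h : e.Ok) : e.X0 = e.nf (fun _ => 0) (fun _ => 3) 65535 := by
  rw [ea2_nf, ea2_oc0, ea2_c _ _ 3 (ea2_hs e h)]
  show (3 * Eng.ones e.s 8) <<< (e.s * e.K) + 65535 <<< (e.s * (e.K + 8)) = _
  rw [Nat.shiftLeft_eq, Nat.shiftLeft_eq]
  ring
theorem XL_eq (e : EP) (h : e.Ok) : e.XL = e.nf (fun _ => 0) (fun _ => 1) 255 := by
  rw [ea2_nf, ea2_oc0, ea2_c _ _ 1 (ea2_hs e h)]
  show (Eng.ones e.s 8) <<< (e.s * e.K) + 255 <<< (e.s * (e.K + 8)) = _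
  rw [Nat.shiftLeft_eq, Nat.shiftLeft_eq]
  ring
theorem XF_eq (e : EP) (h : e.Ok) : e.XF = e.nf (fun _ => 0) (fun _ => 2) (255 * 256) := by
  rw [ea2_nf, ea2_oc0, ea2_c _ _ 2 (ea2_hs e h)]
  show (2 * Eng.ones e.s 8) <<< (e.s * e.K) + 255 <<< (e.s * (e.K + 8) + 8) = _
  rw [Nat.shiftLeft_eq, Nat.shiftLeft_eq, Nat.pow_add _ _ 8]
  ring
theorem XY_eq (e : EP) (h : e.Ok) : e.XY = e.nf (fun _ => 0) (fun _ => 0) 255 := by
  rw [ea2_nf, ea2_oc0, ea2_oc0]
  show 255 <<< (e.s * (e.K + 8)) = _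
  rw [Nat.shiftLeft_eq]
  ring
theorem CL_eq (e : EP) (h : e.Ok) :
    e.CL = e.nf (fun _ => 31) (fun _ => 0) ((2 ^ e.s - 1) * 65536) := by
  rw [ea2_nf, ea2_c _ _ 31 (ea2_hs e h), ea2_oc0]
  show 31 * Eng.ones e.s e.K + (Eng.pow2 e.s - 1) <<< (e.s * (e.K + 8) + 16) = _
  rw [Nat.shiftLeft_eq, ea2_pow2, Nat.pow_add _ _ 16]
  ring
theorem Hf_eq (e : EP) (h : e.Ok) : e.Hf = oc e.s (fun _ => 32) (e.K + 8) := by
  rw [ea2_c _ _ 32 (ea2_hs e h)]
  rfl
/-- the weight of a lane: colouring lanes `w j`, label lanes `tau` -/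
noncomputable def EP.wl (e : EP) (j : ℕ) : ℕ := if j < e.K then (e.codes.getD j 0) >>> 16 else e.tau
theorem C_eq (e : EP) (h : e.Ok) :
    e.C = oc e.s (fun q => e.wl (e.K + 7 - q)) (e.K + 8) := by
  have h1 : e.C = (Eng.cW e.s e.codes 0) <<< (8 * e.s) + e.tau * Eng.ones e.s 8 := rfl
  rw [h1, ea2_cW, Nat.zero_mul, Nat.zero_add, Nat.shiftLeft_eq, ← ea2_K, ← ea2_c _ _ _ (ea2_hs e h),
    Nat.add_comm e.K 8, oc_split]
  have h2 : oc e.s (fun q => e.wl (e.K + 7 - q)) 8 = oc e.s (fun _ => e.tau) 8 := by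
    refine oc_congr _ _ _ _ fun q hq => ?_
    show (if e.K + 7 - q < e.K then (e.codes.getD (e.K + 7 - q) 0) >>> 16 else e.tau) = e.tau
    rw [if_neg (by omega)]
  have h3 : oc e.s (fun j => (fun q => e.wl (e.K + 7 - q)) (8 + j)) e.K =
      oc e.s (fun q => (e.codes.getD (e.K - 1 - q) 0) >>> 16) e.K := by
    refine oc_congr _ _ _ _ fun q hq => ?_
    show (if e.K + 7 - (8 + q) < e.K then (e.codes.getD (e.K + 7 - (8 + q)) 0) >>> 16
      else e.tau) = (e.codes.getD (e.K - 1 - q) 0) >>> 16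
    have e1 : e.K + 7 - (8 + q) = e.K - 1 - q := by omega
    rw [e1, if_pos (by omega)]
  rw [h2, h3, Nat.mul_comm 8 e.s]
  ring
theorem M_eq (e : EP) : e.M = ∑ k : Fin e.K, e.w k := by
  rw [ea2_M, ← Fin.sum_univ_eq_sum_range (fun j => (e.codes.getD j 0) >>> 16) e.K]
  rfl
theorem wl_sum (e : EP) : ∑ j ∈ range (e.K + 8), e.wl j = e.M + 8 * e.tau := by
  rw [sum_range_add]
  have h1 : ∑ j ∈ range e.K, e.wl j = e.M := by
    rw [ea2_M]
    exact sum_congr rfl fun j hj => if_pos (mem_range.1 hj)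
  have h2 : ∑ j ∈ range 8, e.wl (e.K + j) = 8 * e.tau := by
    have h3 : ∀ j ∈ range 8, e.wl (e.K + j) = e.tau := fun j _ => if_neg (by omega)
    rw [sum_congr rfl h3, sum_const, card_range, smul_eq_mul]
  rw [h1, h2]

end Pool.Agent.MP_528dc0_co

end

section

open Finset

namespace Pool.Agent.MP_528dc0_co

open Eng (Lst It)

/-- the sum of eight bits -/
def ea3_v (b0 b1 b2 b3 b4 b5 b6 b7 : Bool) : ℕ :=
  b0.toNat + 2 * b1.toNat + 4 * b2.toNat + 8 * b3.toNat + 16 * b4.toNat + 32 * b5.toNat +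
    64 * b6.toNat + 128 * b7.toNat

theorem ea3_bits : ∀ b0 b1 b2 b3 b4 b5 b6 b7 : Bool,
    ea3_v b0 b1 b2 b3 b4 b5 b6 b7 < 256 ∧
    (ea3_v b0 b1 b2 b3 b4 b5 b6 b7).testBit 0 = b0 ∧
    (ea3_v b0 b1 b2 b3 b4 b5 b6 b7).testBit 1 = b1 ∧
    (ea3_v b0 b1 b2 b3 b4 b5 b6 b7).testBit 2 = b2 ∧
    (ea3_v b0 b1 b2 b3 b4 b5 b6 b7).testBit 3 = b3 ∧
    (ea3_v b0 b1 b2 b3 b4 b5 b6 b7).testBit 4 = b4 ∧
    (ea3_v b0 b1 b2 b3 b4 b5 b6 b7).testBit 5 = b5 ∧
    (ea3_v b0 b1 b2 b3 b4 b5 b6 b7).testBit 6 = b6 ∧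
    (ea3_v b0 b1 b2 b3 b4 b5 b6 b7).testBit 7 = b7 := by
  decide +kernel

theorem ea3_msk (N : Finset (Fin 8)) : msk N =
    ea3_v (decide (0 ∈ N)) (decide (1 ∈ N)) (decide (2 ∈ N)) (decide (3 ∈ N)) (decide (4 ∈ N))
      (decide (5 ∈ N)) (decide (6 ∈ N)) (decide (7 ∈ N)) := by
  have h1 : msk N = ∑ a : Fin 8, (decide (a ∈ N)).toNat * 2 ^ a.val := by
    unfold msk
    rw [← Finset.sum_filter_add_sum_filter_not Finset.univ (fun a => a ∈ N)
      (fun a : Fin 8 => (decide (a ∈ N)).toNat * 2 ^ a.val)]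
    have h2 : ∑ a ∈ Finset.univ.filter (fun a : Fin 8 => a ∈ N),
        (decide (a ∈ N)).toNat * 2 ^ a.val = ∑ a ∈ N, 2 ^ a.val := by
      have h3 : Finset.univ.filter (fun a : Fin 8 => a ∈ N) = N := by
        ext a
        simp
      rw [h3]
      apply Finset.sum_congr rfl
      intro a ha
      simp [ha]
    have h4 : ∑ a ∈ Finset.univ.filter (fun a : Fin 8 => ¬ a ∈ N),
        (decide (a ∈ N)).toNat * 2 ^ a.val = 0 := by
      apply Finset.sum_eq_zero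
      intro a ha
      have h5 := (Finset.mem_filter.1 ha).2
      simp [h5]
    rw [h2, h4, add_zero]
  rw [h1, Fin.sum_univ_eight]
  unfold ea3_v
  change _ * 2 ^ 0 + _ * 2 ^ 1 + _ * 2 ^ 2 + _ * 2 ^ 3 + _ * 2 ^ 4 + _ * 2 ^ 5 + _ * 2 ^ 6 +
    _ * 2 ^ 7 = _
  ring

theorem msk_lt (N : Finset (Fin 8)) : msk N < 256 := by
  rw [ea3_msk]
  exact (ea3_bits _ _ _ _ _ _ _ _).1

theorem ea3_testBit (N : Finset (Fin 8)) (a : Fin 8) :
    (msk N).testBit a.val = decide (a ∈ N) := by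
  obtain ⟨h, h0, h1, h2, h3, h4, h5, h6, h7⟩ :=
    ea3_bits (decide (0 ∈ N)) (decide (1 ∈ N)) (decide (2 ∈ N)) (decide (3 ∈ N))
      (decide (4 ∈ N)) (decide (5 ∈ N)) (decide (6 ∈ N)) (decide (7 ∈ N))
  rw [ea3_msk]
  match a with
  | ⟨0, _⟩ => exact h0
  | ⟨1, _⟩ => exact h1
  | ⟨2, _⟩ => exact h2
  | ⟨3, _⟩ => exact h3
  | ⟨4, _⟩ => exact h4
  | ⟨5, _⟩ => exact h5
  | ⟨6, _⟩ => exact h6
  | ⟨7, _⟩ => exact h7

theorem ea3_high (N : Finset (Fin 8)) {i : ℕ} (hi : 8 ≤ i) : (msk N).testBit i = false := by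
  apply Nat.testBit_lt_two_pow
  exact (msk_lt N).trans_le (Nat.pow_le_pow_right (by norm_num) hi : 2 ^ 8 ≤ 2 ^ i)

theorem msk_inj (N N' : Finset (Fin 8)) (h : msk N = msk N') : N = N' := by
  ext a
  have h1 := ea3_testBit N a
  rw [h, ea3_testBit N' a] at h1
  exact (decide_eq_decide.1 h1).symm
/-- (all by `decide` over `Finset (Fin 8)` - 256 or 256^2 cases - or by `testBit`) -/
theorem msk_land (N N' : Finset (Fin 8)) : msk N &&& msk N' = msk (N ∩ N') := by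
  apply Nat.eq_of_testBit_eq
  intro i
  rw [Nat.testBit_and]
  by_cases hi : i < 8
  · have h1 := ea3_testBit N ⟨i, hi⟩
    have h2 := ea3_testBit N' ⟨i, hi⟩
    have h3 := ea3_testBit (N ∩ N') ⟨i, hi⟩
    simp only at h1 h2 h3
    rw [h1, h2, h3, ← Bool.decide_and]
    exact decide_eq_decide.2 Finset.mem_inter.symm
  · rw [ea3_high N (by omega), ea3_high (N ∩ N') (by omega), Bool.false_and]
theorem msk_testBit (N : Finset (Fin 8)) (a : Fin 8) : (msk N).testBit a.val = decide (a ∈ N) := by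
  exact ea3_testBit N a
theorem msk_zero (N : Finset (Fin 8)) : msk N = 0 ↔ N = ∅ := by
  constructor
  · intro h
    apply msk_inj
    rw [h]
    simp [msk]
  · rintro rfl
    simp [msk]
theorem msk_disj (N N' : Finset (Fin 8)) (h : Disjoint N N') :
    msk N + msk N' = msk (N ∪ N') := by
  unfold msk
  rw [Finset.sum_union h]
theorem ea3_tab : ∀ m < 256, 65535 * (Eng.P1 % 2 ^ (16 * m)) ≤ 8 * (2 ^ (16 * m) - 1) ∧
    (Eng.P1 / 2 ^ (16 * m)) % 65536 = (m.testBit 0).toNat + (m.testBit 1).toNat +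
      (m.testBit 2).toNat + (m.testBit 3).toNat + (m.testBit 4).toNat + (m.testBit 5).toNat +
      (m.testBit 6).toNat + (m.testBit 7).toNat := by
  decide +kernel

theorem ea3_card (N : Finset (Fin 8)) : N.card = ((msk N).testBit 0).toNat +
    ((msk N).testBit 1).toNat + ((msk N).testBit 2).toNat + ((msk N).testBit 3).toNat +
      ((msk N).testBit 4).toNat + ((msk N).testBit 5).toNat +
      ((msk N).testBit 6).toNat + ((msk N).testBit 7).toNat := by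
  have h1 : N.card = ∑ a : Fin 8, (decide (a ∈ N)).toNat := by
    have h3 : Finset.univ.filter (fun a : Fin 8 => a ∈ N) = N := by
      ext a
      simp
    have h4 : N.card = (Finset.univ.filter (fun a : Fin 8 => a ∈ N)).card := by rw [h3]
    rw [h4, Finset.card_filter]
    apply Finset.sum_congr rfl
    intro a _
    by_cases ha : a ∈ N <;> simp [ha]
  have h2 : ∑ a : Fin 8, (decide (a ∈ N)).toNat = ∑ a : Fin 8, ((msk N).testBit a.val).toNat := by
    apply Finset.sum_congr rfl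
    intro a _
    rw [ea3_testBit]
  rw [h1, h2, Fin.sum_univ_eight]
  rfl

theorem ea3_dig (t P d m : ℕ) (ht : 8 * t ≤ 65535)
    (h1 : 65535 * (P % 2 ^ (16 * m)) ≤ 8 * (2 ^ (16 * m) - 1))
    (h2 : (P / 2 ^ (16 * m)) % 65536 = d) (hd : d ≤ 8) :
    (t * P / 2 ^ (16 * m)) % 65536 = t * d := by
  set B := 2 ^ (16 * m) with hB
  have hB0 : 0 < B := Nat.two_pow_pos _
  set lo := P % B with hlo
  set q := P / B with hq
  have hP : P = lo + B * q := (Nat.mod_add_div P B).symm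
  have hlow : t * lo < B := by
    have h3 : 65535 * (t * lo) ≤ 65535 * (B - 1) := by
      calc 65535 * (t * lo) = t * (65535 * lo) := by ring
        _ ≤ t * (8 * (B - 1)) := Nat.mul_le_mul_left _ h1
        _ = (8 * t) * (B - 1) := by ring
        _ ≤ 65535 * (B - 1) := Nat.mul_le_mul_right _ ht
    omega
  have h4 : t * P / B = t * q := by
    have h5 : t * P = t * lo + B * (t * q) := by
      rw [hP]
      ring
    rw [h5, Nat.add_mul_div_left _ _ hB0, Nat.div_eq_of_lt hlow, zero_add]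
  have h6 : q = d + 65536 * (q / 65536) := by
    rw [← h2]
    exact (Nat.mod_add_div q 65536).symm
  rw [h4, h6]
  have h7 : t * (d + 65536 * (q / 65536)) = t * d + 65536 * (t * (q / 65536)) := by ring
  rw [h7, Nat.add_mul_mod_self_left]
  apply Nat.mod_eq_of_lt
  have h8 : t * d ≤ t * 8 := Nat.mul_le_mul_left _ hd
  omega

/-- popcount table (`Eng.P1`, lanes of 16 bits, all entries at most 8) times `tau` -/
theorem pc_eq (e : EP) (h : e.Ok) (N : Finset (Fin 8)) :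
    Nat.land (Nat.shiftRight e.PT (Nat.mul 16 (msk N))) 65535 = e.tau * N.card := by
  obtain ⟨h1, h2⟩ := ea3_tab (msk N) (msk_lt N)
  have h3 : N.card ≤ 8 := by
    have h4 := Finset.card_le_univ N
    simpa using h4
  rw [← ea3_card] at h2
  have h5 := ea3_dig e.tau Eng.P1 N.card (msk N) h.ht h1 h2 h3
  have h6 : Nat.land (Nat.shiftRight e.PT (Nat.mul 16 (msk N))) 65535 =
      (e.PT >>> (16 * msk N)) &&& (2 ^ 16 - 1) := rfl
  rw [h6, Nat.and_two_pow_sub_one_eq_mod, Nat.shiftRight_eq_div_pow]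
  exact h5

end Pool.Agent.MP_528dc0_co

end

section

open Finset

namespace Pool.Agent.MP_528dc0_co

open Eng (Lst It)

private theorem ea4_eq (h a b : ℕ) : Eng.adjn h a b =
    (1 - (a + 1 - b)) * ((h >>> (b * (b - 1) / 2 + a)) % 2) +
    (1 - (b + 1 - a)) * ((h >>> (a * (a - 1) / 2 + b)) % 2) := rfl

/-- `Eng.adjn` is 0 or 1, and symmetric. -/
theorem adjn_le (h a b : ℕ) : Eng.adjn h a b ≤ 1 := by
  rw [ea4_eq]
  rcases Nat.lt_trichotomy a b with hab | hab | hab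
  · have e1 : 1 - (a + 1 - b) = 1 := by omega
    have e2 : 1 - (b + 1 - a) = 0 := by omega
    rw [e1, e2, one_mul, zero_mul, add_zero]
    omega
  · have e1 : 1 - (a + 1 - b) = 0 := by omega
    have e2 : 1 - (b + 1 - a) = 0 := by omega
    rw [e1, e2, zero_mul, zero_mul]
    omega
  · have e1 : 1 - (a + 1 - b) = 0 := by omega
    have e2 : 1 - (b + 1 - a) = 1 := by omega
    rw [e1, e2, one_mul, zero_mul, zero_add]
    omega
theorem adjn_symm (h a b : ℕ) : Eng.adjn h a b = Eng.adjn h b a := by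
  exact Nat.add_comm _ _
private theorem ea4_XX : ∀ a < 8, ∀ m < 256, (Eng.XX a).testBit m = m.testBit a := by
  decide +kernel

/-- bit `m` of `XX a` is bit `a` of `m` -/
theorem XX_testBit (a : ℕ) (ha : a < 8) (m : ℕ) (hm : m < 256) :
    (Eng.XX a).testBit m = m.testBit a := by
  exact ea4_XX a ha m hm
private theorem ea4_orN (f : ℕ → ℕ) (n m : ℕ) :
    (Eng.orN f n).testBit m = true ↔ ∃ i, i < n ∧ (f i).testBit m = true := by
  induction n with
  | zero =>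
    have h0 : Eng.orN f 0 = 0 := rfl
    rw [h0]
    simp
  | succ n ih =>
    have h0 : Eng.orN f (n + 1) = Eng.orN f n ||| f n := rfl
    rw [h0, Nat.testBit_or, Bool.or_eq_true, ih]
    constructor
    · rintro (⟨i, hi, h⟩ | h)
      · exact ⟨i, by omega, h⟩
      · exact ⟨n, by omega, h⟩
    · rintro ⟨i, hi, h⟩
      by_cases h1 : i < n
      · exact Or.inl ⟨i, h1, h⟩
      · have h2 : i = n := by omega
        rw [h2] at h
        exact Or.inr h

private theorem ea4_mul (x y m : ℕ) (hx : x ≤ 1) :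
    (Nat.mul x y).testBit m = true ↔ x = 1 ∧ y.testBit m = true := by
  have h1 : x = 0 ∨ x = 1 := by omega
  rcases h1 with h1 | h1
  · subst h1
    have h0 : Nat.mul 0 y = 0 := Nat.zero_mul y
    rw [h0]
    simp
  · subst h1
    have h0 : Nat.mul 1 y = y := Nat.one_mul y
    rw [h0]
    simp

private theorem ea4_land (x y m : ℕ) :
    (Nat.land x y).testBit m = true ↔ x.testBit m = true ∧ y.testBit m = true := by
  have h0 : Nat.land x y = x &&& y := rfl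
  rw [h0, Nat.testBit_and, Bool.and_eq_true]

private theorem ea4_XXm (N : Finset (Fin 8)) (a : Fin 8) :
    (Eng.XX a.val).testBit (msk N) = true ↔ a ∈ N := by
  rw [XX_testBit a.val a.2 _ (msk_lt N), msk_testBit, decide_eq_true_iff]

private theorem ea4_T2 (h : ℕ) (N : Finset (Fin 8)) :
    (Eng.T2 h).testBit (msk N) = true ↔
      ∃ a b : Fin 8, a < b ∧ Eng.adjn h a.val b.val = 1 ∧ a ∈ N ∧ b ∈ N := by
  unfold Eng.T2
  rw [ea4_orN]
  constructor
  · rintro ⟨b, hb, h1⟩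
    rw [ea4_orN] at h1
    obtain ⟨a, ha, h2⟩ := h1
    rw [ea4_mul _ _ _ (adjn_le h a b), ea4_land] at h2
    obtain ⟨h3, h4, h5⟩ := h2
    exact ⟨⟨a, by omega⟩, ⟨b, hb⟩, ha, h3, (ea4_XXm N ⟨a, by omega⟩).1 h4, (ea4_XXm N ⟨b, hb⟩).1 h5⟩
  · rintro ⟨a, b, hab, h3, h4, h5⟩
    refine ⟨b.val, b.2, ?_⟩
    rw [ea4_orN]
    refine ⟨a.val, hab, ?_⟩
    rw [ea4_mul _ _ _ (adjn_le h a b), ea4_land]
    exact ⟨h3, (ea4_XXm N a).2 h4, (ea4_XXm N b).2 h5⟩

private theorem ea4_T3 (h : ℕ) (N : Finset (Fin 8)) :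
    (Eng.T3 h).testBit (msk N) = true ↔
      ∃ a b c : Fin 8, a < b ∧ b < c ∧ Eng.adjn h b.val c.val = 1 ∧ Eng.adjn h a.val b.val = 1 ∧
        Eng.adjn h a.val c.val = 1 ∧ a ∈ N ∧ b ∈ N ∧ c ∈ N := by
  have hm : ∀ a b c, Nat.mul (Eng.adjn h a b) (Eng.adjn h a c) ≤ 1 := by
    intro a b c
    have h1 := adjn_le h a b
    have h2 := adjn_le h a c
    calc Nat.mul (Eng.adjn h a b) (Eng.adjn h a c) ≤ 1 * 1 := Nat.mul_le_mul h1 h2
      _ = 1 := by norm_num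
  have hm' : ∀ a b c, Nat.mul (Eng.adjn h a b) (Eng.adjn h a c) = 1 ↔
      Eng.adjn h a b = 1 ∧ Eng.adjn h a c = 1 := by
    intro a b c
    exact mul_eq_one
  unfold Eng.T3
  rw [ea4_orN]
  constructor
  · rintro ⟨c, hc, h1⟩
    rw [ea4_orN] at h1
    obtain ⟨b, hb, h2⟩ := h1
    rw [ea4_mul _ _ _ (adjn_le h b c)] at h2
    obtain ⟨h3, h4⟩ := h2
    rw [ea4_orN] at h4
    obtain ⟨a, ha, h5⟩ := h4
    rw [ea4_mul _ _ _ (hm a b c), ea4_land, ea4_land, hm'] at h5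
    obtain ⟨⟨h6, h7⟩, ⟨h8, h9⟩, h10⟩ := h5
    exact ⟨⟨a, by omega⟩, ⟨b, by omega⟩, ⟨c, hc⟩, ha, hb, h3, h6, h7,
      (ea4_XXm N ⟨a, by omega⟩).1 h8, (ea4_XXm N ⟨b, by omega⟩).1 h9, (ea4_XXm N ⟨c, hc⟩).1 h10⟩
  · rintro ⟨a, b, c, hab, hbc, h3, h6, h7, h8, h9, h10⟩
    refine ⟨c.val, c.2, ?_⟩
    rw [ea4_orN]
    refine ⟨b.val, hbc, ?_⟩
    rw [ea4_mul _ _ _ (adjn_le h b c)]
    refine ⟨h3, ?_⟩
    rw [ea4_orN]
    refine ⟨a.val, hab, ?_⟩
    rw [ea4_mul _ _ _ (hm a b c), ea4_land, ea4_land, hm']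
    exact ⟨⟨h6, h7⟩, ⟨(ea4_XXm N a).2 h8, (ea4_XXm N b).2 h9⟩, (ea4_XXm N c).2 h10⟩

private theorem ea4_two (e : Finset (Fin 8)) (he : e.card = 2) :
    ∃ a b : Fin 8, a < b ∧ e = {a, b} := by
  obtain ⟨x, y, hxy, rfl⟩ := Finset.card_eq_two.1 he
  rcases lt_or_gt_of_ne hxy with h | h
  · exact ⟨x, y, h, rfl⟩
  · exact ⟨y, x, h, Finset.pair_comm x y⟩

private theorem ea4_three (e : Finset (Fin 8)) (he : e.card = 3) :
    ∃ a b c : Fin 8, a < b ∧ b < c ∧ e = {a, b, c} := by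
  let f := e.orderEmbOfFin he
  have h01 : f 0 < f 1 := f.strictMono (by decide)
  have h12 : f 1 < f 2 := f.strictMono (by decide)
  refine ⟨f 0, f 1, f 2, h01, h12, ?_⟩
  symm
  apply Finset.eq_of_subset_of_card_le
  · intro x hx
    simp only [Finset.mem_insert, Finset.mem_singleton] at hx
    rcases hx with rfl | rfl | rfl
    · exact Finset.orderEmbOfFin_mem e he 0
    · exact Finset.orderEmbOfFin_mem e he 1
    · exact Finset.orderEmbOfFin_mem e he 2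
  · rw [he]
    have h0 : f 0 ∉ ({f 1, f 2} : Finset (Fin 8)) := by
      simp only [Finset.mem_insert, Finset.mem_singleton, not_or]
      exact ⟨h01.ne, (h01.trans h12).ne⟩
    rw [Finset.card_insert_of_notMem h0, Finset.card_pair h12.ne]

private theorem ea4_adj (h : ℕ) (a b : Fin 8) : (mkH h).Adj a b ↔ Eng.adjn h a.val b.val = 1 :=
  Iff.rfl

private theorem ea4_cl2 (h : ℕ) (a b : Fin 8) (hab : a < b) :
    (mkH h).IsClique (({a, b} : Finset (Fin 8)) : Set (Fin 8)) ↔ Eng.adjn h a.val b.val = 1 := by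
  rw [← ea4_adj]
  constructor
  · intro hc
    exact hc (by simp) (by simp) hab.ne
  · intro hadj x hx y hy hxy
    simp only [Finset.coe_insert, Finset.coe_singleton, Set.mem_insert_iff,
      Set.mem_singleton_iff] at hx hy
    rcases hx with rfl | rfl <;> rcases hy with rfl | rfl
    · exact absurd rfl hxy
    · exact hadj
    · exact hadj.symm
    · exact absurd rfl hxy

private theorem ea4_cl3 (h : ℕ) (a b c : Fin 8) (hab : a < b) (hbc : b < c) :
    (mkH h).IsClique (({a, b, c} : Finset (Fin 8)) : Set (Fin 8)) ↔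
      Eng.adjn h b.val c.val = 1 ∧ Eng.adjn h a.val b.val = 1 ∧ Eng.adjn h a.val c.val = 1 := by
  rw [← ea4_adj, ← ea4_adj, ← ea4_adj]
  constructor
  · intro hc
    exact ⟨hc (by simp) (by simp) hbc.ne, hc (by simp) (by simp) hab.ne,
      hc (by simp) (by simp) (hab.trans hbc).ne⟩
  · rintro ⟨h1, h2, h3⟩ x hx y hy hxy
    simp only [Finset.coe_insert, Finset.coe_singleton, Set.mem_insert_iff,
      Set.mem_singleton_iff] at hx hy
    rcases hx with rfl | rfl | rfl <;> rcases hy with rfl | rfl | rfl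
    · exact absurd rfl hxy
    · exact h2
    · exact h3
    · exact h2.symm
    · exact absurd rfl hxy
    · exact h1
    · exact h3.symm
    · exact h1.symm
    · exact absurd rfl hxy

private theorem ea4_card3 (a b c : Fin 8) (hab : a < b) (hbc : b < c) :
    ({a, b, c} : Finset (Fin 8)).card = 3 := by
  have h0 : a ∉ ({b, c} : Finset (Fin 8)) := by
    simp only [Finset.mem_insert, Finset.mem_singleton, not_or]
    exact ⟨hab.ne, (hab.trans hbc).ne⟩
  rw [Finset.card_insert_of_notMem h0, Finset.card_pair hbc.ne]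

/-- The table for cliques of size two and three.
`Eng.T2 h = OR_{a<b<8} adjn h a b * (XX a &&& XX b)` (`Eng.orN` is an OR over `0, …, n-1`), so bit
`msk N` is set iff there are `a < b` in `N` with `adjn h a b = 1`; similarly for `Eng.T3`. -/
theorem T2_testBit (h : ℕ) (N : Finset (Fin 8)) :
    (Eng.T2 h).testBit (msk N) = true ↔ HasC (mkH h) 2 N := by
  rw [ea4_T2]
  constructor
  · rintro ⟨a, b, hab, h1, ha, hb⟩
    refine ⟨{a, b}, ?_, Finset.card_pair hab.ne, (ea4_cl2 h a b hab).2 h1⟩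
    intro x hx
    simp only [Finset.mem_insert, Finset.mem_singleton] at hx
    rcases hx with rfl | rfl
    · exact ha
    · exact hb
  · rintro ⟨e, he, hc, hcl⟩
    obtain ⟨a, b, hab, rfl⟩ := ea4_two e hc
    exact ⟨a, b, hab, (ea4_cl2 h a b hab).1 hcl, he (by simp), he (by simp)⟩
theorem T3_testBit (h : ℕ) (N : Finset (Fin 8)) :
    (Eng.T3 h).testBit (msk N) = true ↔ HasC (mkH h) 3 N := by
  rw [ea4_T3]
  constructor
  · rintro ⟨a, b, c, hab, hbc, h1, h2, h3, ha, hb, hc⟩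
    refine ⟨{a, b, c}, ?_, ea4_card3 a b c hab hbc, (ea4_cl3 h a b c hab hbc).2 ⟨h1, h2, h3⟩⟩
    intro x hx
    simp only [Finset.mem_insert, Finset.mem_singleton] at hx
    rcases hx with rfl | rfl | rfl
    · exact ha
    · exact hb
    · exact hc
  · rintro ⟨e, he, hc, hcl⟩
    obtain ⟨a, b, c, hab, hbc, rfl⟩ := ea4_three e hc
    obtain ⟨h1, h2, h3⟩ := (ea4_cl3 h a b c hab hbc).1 hcl
    exact ⟨a, b, c, hab, hbc, h1, h2, h3, he (by simp), he (by simp), he (by simp)⟩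
private theorem ea4_bit (x m : ℕ) :
    Nat.land (Nat.shiftRight x m) 1 = 0 ↔ ¬ (x.testBit m = true) := by
  have h0 : Nat.land (Nat.shiftRight x m) 1 = (x >>> m) &&& 1 := rfl
  rw [h0, Nat.testBit, Nat.and_comm]
  simp

private theorem ea4_Q2 : ∀ N : Finset (Fin 8), (Eng.Q2).testBit (msk N) = decide (2 ≤ N.card) := by
  decide +kernel

private theorem ea4_full : ∀ m < 256, (2 ^ 256 - 2 : ℕ).testBit m = decide (m ≠ 0) := by
  decide +kernel

/-- the two exclusion tables -/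
theorem ex2_iff (e : EP) (h : e.Ok) (N : Finset (Fin 8)) :
    Nat.land (Nat.shiftRight e.ET (msk N)) 1 = 0 ↔ ¬ e.par.ex2 N := by
  rw [ea4_bit, not_iff_not]
  have hET : e.ET = e.kf * Eng.T2 e.h + (1 - e.kf) * Eng.T3 e.h := rfl
  have hkf := h.hkf
  have h1 : e.kf = 0 ∨ e.kf = 1 := by omega
  unfold Par.ex2
  have hH : e.par.H = mkH e.h := rfl
  have hk : e.par.kf = decide (e.kf = 1) := rfl
  rw [hH, hk, hET]
  rcases h1 with h1 | h1
  · rw [h1]
    simp only [zero_mul, zero_add, Nat.sub_zero, one_mul]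
    rw [T3_testBit]
    simp
  · rw [h1]
    simp only [Nat.sub_self, zero_mul, add_zero, one_mul]
    rw [T2_testBit]
    simp
theorem ex3_iff (e : EP) (h : e.Ok) (N : Finset (Fin 8)) :
    Nat.land (Nat.shiftRight e.E3 (msk N)) 1 = 0 ↔ ¬ e.par.ex3 N := by
  rw [ea4_bit, not_iff_not]
  have hE3 : e.E3 = e.kf * (2 ^ 256 - 2) + (1 - e.kf) * (e.x3 * Eng.Q2 + (1 - e.x3) * Eng.T2 e.h) := by
    have hp : Eng.pow2 256 = 2 ^ 256 := by decide +kernel
    have h0 : e.E3 = e.kf * (Eng.pow2 256 - 2) + (1 - e.kf) * (e.x3 * Eng.Q2 + (1 - e.x3) * Eng.T2 e.h) := rfl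
    rw [h0, hp]
  have hkf := h.hkf
  have hx3 := h.hx3
  have h1 : e.kf = 0 ∨ e.kf = 1 := by omega
  have h2 : e.x3 = 0 ∨ e.x3 = 1 := by omega
  unfold Par.ex3
  have hH : e.par.H = mkH e.h := rfl
  have hk : e.par.kf = decide (e.kf = 1) := rfl
  have hx : e.par.x3 = decide (e.x3 = 1 ∧ e.kf = 0) := rfl
  rw [hH, hk, hx, hE3]
  rcases h1 with h1 | h1
  · rw [h1]
    rcases h2 with h2 | h2
    · rw [h2]
      simp only [zero_mul, zero_add, Nat.sub_zero, one_mul]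
      rw [T2_testBit]
      simp
    · rw [h2]
      simp only [zero_mul, zero_add, Nat.sub_zero, one_mul, Nat.sub_self, add_zero]
      rw [ea4_Q2]
      simp
  · rw [h1]
    simp only [Nat.sub_self, zero_mul, add_zero, one_mul]
    rw [ea4_full _ (msk_lt N)]
    have h3 : HasC (mkH e.h) 1 N ↔ N ≠ ∅ := by
      constructor
      · rintro ⟨t, ht, hc, -⟩ hN
        rw [hN, Finset.subset_empty] at ht
        rw [ht] at hc
        simp at hc
      · intro hN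
        obtain ⟨a, ha⟩ := Finset.nonempty_iff_ne_empty.2 hN
        exact ⟨{a}, by simpa using ha, by simp, by simp⟩
    have h4 : msk N ≠ 0 ↔ N ≠ ∅ := not_iff_not.2 (msk_zero N)
    simp [h3, h4]
private theorem ea4_sumN (f : ℕ → ℕ) (n : ℕ) : Eng.sumN f n = ∑ i ∈ range n, f i := by
  induction n with
  | zero => rfl
  | succ n ih =>
    have h0 : Eng.sumN f (n + 1) = Eng.sumN f n + f n := rfl
    rw [h0, ih, Finset.sum_range_succ]

private theorem ea4_inner (g : ℕ → ℕ) (n : ℕ) (hn : n ≤ 8) :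
    ∑ i ∈ range n, g i = ∑ i : Fin 8, if i.val < n then g i.val else 0 := by
  rw [← Finset.sum_range (fun i => if i < n then g i else 0), ← Finset.sum_filter]
  apply Finset.sum_congr _ fun _ _ => rfl
  ext i
  simp only [Finset.mem_range, Finset.mem_filter]
  omega

private theorem ea4_nE (h : ℕ) : Eng.nE h =
    ((univ : Finset (Fin 8 × Fin 8)).filter
      (fun p => p.1 < p.2 ∧ Eng.adjn h p.1.val p.2.val = 1)).card := by
  rw [Finset.card_filter, Fintype.sum_prod_type_right]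
  unfold Eng.nE
  rw [ea4_sumN, Finset.sum_range]
  apply Finset.sum_congr rfl
  intro b _
  rw [ea4_sumN, ea4_inner _ _ b.2.le]
  apply Finset.sum_congr rfl
  intro a _
  have h1 : Eng.adjn h a.val b.val = 0 ∨ Eng.adjn h a.val b.val = 1 := by
    have := adjn_le h a.val b.val
    omega
  by_cases hab : a.val < b.val
  · have hab' : a < b := hab
    rcases h1 with h1 | h1
    · simp [h1]
    · simp [h1, hab, hab']
  · have hab' : ¬ a < b := hab
    simp [hab, hab']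

private theorem ea4_nT (h : ℕ) : Eng.nT h =
    ((univ : Finset ((Fin 8 × Fin 8) × Fin 8)).filter
      (fun p => (p.1.1 < p.1.2 ∧ p.1.2 < p.2) ∧ Eng.adjn h p.1.2.val p.2.val = 1 ∧
        Eng.adjn h p.1.1.val p.1.2.val = 1 ∧ Eng.adjn h p.1.1.val p.2.val = 1)).card := by
  rw [Finset.card_filter, Fintype.sum_prod_type_right]
  unfold Eng.nT
  rw [ea4_sumN, Finset.sum_range]
  apply Finset.sum_congr rfl
  intro c _
  rw [Fintype.sum_prod_type_right, ea4_sumN, ea4_inner _ _ c.2.le]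
  apply Finset.sum_congr rfl
  intro b _
  rw [ea4_sumN, ea4_inner _ _ b.2.le]
  have hmul : ∀ x y : ℕ, Nat.mul x y = x * y := fun _ _ => rfl
  have hl := fun a b => adjn_le h a b
  have h01 : ∀ a b, Eng.adjn h a b = 0 ∨ Eng.adjn h a b = 1 := by
    intro a b
    have := adjn_le h a b
    omega
  by_cases hbc : b.val < c.val
  · have hbc' : b < c := hbc
    rw [if_pos hbc, hmul, Finset.mul_sum]
    apply Finset.sum_congr rfl
    intro a _
    by_cases hab : a.val < b.val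
    · have hab' : a < b := hab
      rcases h01 b.val c.val with h1 | h1 <;> rcases h01 a.val b.val with h2 | h2 <;>
        rcases h01 a.val c.val with h3 | h3 <;> simp [h1, h2, h3, hab, hab', hbc']
    · have hab' : ¬ a < b := hab
      simp [hab, hab']
  · have hbc' : ¬ b < c := hbc
    rw [if_neg hbc]
    symm
    apply Finset.sum_eq_zero
    intro a _
    simp [hbc']

private theorem ea4_pair_inj (a b a' b' : Fin 8) (hab : a < b) (hab' : a' < b')
    (h : ({a, b} : Finset (Fin 8)) = {a', b'}) : a = a' ∧ b = b' := by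
  have h1 : a ∈ ({a', b'} : Finset (Fin 8)) := h ▸ (by simp)
  have h2 : b ∈ ({a', b'} : Finset (Fin 8)) := h ▸ (by simp)
  have h3 : a' ∈ ({a, b} : Finset (Fin 8)) := h ▸ (by simp)
  have h4 : b' ∈ ({a, b} : Finset (Fin 8)) := h ▸ (by simp)
  simp only [Finset.mem_insert, Finset.mem_singleton, Fin.ext_iff] at h1 h2 h3 h4
  rw [Fin.lt_def] at hab hab'
  constructor
  · apply Fin.ext
    omega
  · apply Fin.ext
    omega

private theorem ea4_trip_inj (a b c a' b' c' : Fin 8) (hab : a < b) (hbc : b < c) (hab' : a' < b')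
    (hbc' : b' < c') (h : ({a, b, c} : Finset (Fin 8)) = {a', b', c'}) :
    a = a' ∧ b = b' ∧ c = c' := by
  have h1 : a ∈ ({a', b', c'} : Finset (Fin 8)) := h ▸ (by simp)
  have h2 : b ∈ ({a', b', c'} : Finset (Fin 8)) := h ▸ (by simp)
  have h3 : c ∈ ({a', b', c'} : Finset (Fin 8)) := h ▸ (by simp)
  have h4 : a' ∈ ({a, b, c} : Finset (Fin 8)) := h ▸ (by simp)
  have h5 : b' ∈ ({a, b, c} : Finset (Fin 8)) := h ▸ (by simp)
  have h6 : c' ∈ ({a, b, c} : Finset (Fin 8)) := h ▸ (by simp)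
  simp only [Finset.mem_insert, Finset.mem_singleton, Fin.ext_iff] at h1 h2 h3 h4 h5 h6
  rw [Fin.lt_def] at hab hab' hbc hbc'
  refine ⟨?_, ?_, ?_⟩
  · apply Fin.ext
    omega
  · apply Fin.ext
    omega
  · apply Fin.ext
    omega

/-- numbers of edges and triangles -/
theorem nE_eq (h : ℕ) : Eng.nE h = eH (mkH h) univ := by
  classical
  rw [ea4_nE]
  unfold eH
  apply Finset.card_bij (fun (p : Fin 8 × Fin 8) _ => ({p.1, p.2} : Finset (Fin 8)))
  · rintro ⟨a, b⟩ hp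
    rw [Finset.mem_filter] at hp
    obtain ⟨-, hab, h1⟩ := hp
    rw [Finset.mem_filter, Finset.mem_powersetCard]
    exact ⟨⟨Finset.subset_univ _, Finset.card_pair hab.ne⟩, (ea4_cl2 h a b hab).2 h1⟩
  · rintro ⟨a, b⟩ hp ⟨a', b'⟩ hp' heq
    rw [Finset.mem_filter] at hp hp'
    obtain ⟨e1, e2⟩ := ea4_pair_inj a b a' b' hp.2.1 hp'.2.1 heq
    rw [e1, e2]
  · intro e he
    rw [Finset.mem_filter, Finset.mem_powersetCard] at he
    obtain ⟨⟨-, hc⟩, hcl⟩ := he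
    obtain ⟨a, b, hab, rfl⟩ := ea4_two e hc
    refine ⟨(a, b), ?_, rfl⟩
    rw [Finset.mem_filter]
    exact ⟨Finset.mem_univ _, hab, (ea4_cl2 h a b hab).1 hcl⟩
private theorem ea4_bij3 (h : ℕ) (S : Finset ((Fin 8 × Fin 8) × Fin 8))
    (hS : ∀ p, p ∈ S ↔ (p.1.1 < p.1.2 ∧ p.1.2 < p.2) ∧ Eng.adjn h p.1.2.val p.2.val = 1 ∧
        Eng.adjn h p.1.1.val p.1.2.val = 1 ∧ Eng.adjn h p.1.1.val p.2.val = 1) :
    S.card = Par.tH (mkH h) := by
  classical
  unfold Par.tH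
  apply Finset.card_bij (fun (p : (Fin 8 × Fin 8) × Fin 8) _ => ({p.1.1, p.1.2, p.2} : Finset (Fin 8)))
  · rintro ⟨⟨a, b⟩, c⟩ hp
    rw [hS] at hp
    obtain ⟨⟨hab, hbc⟩, h1⟩ := hp
    rw [Finset.mem_filter, Finset.mem_powersetCard]
    exact ⟨⟨Finset.subset_univ _, ea4_card3 a b c hab hbc⟩, (ea4_cl3 h a b c hab hbc).2 h1⟩
  · rintro ⟨⟨a, b⟩, c⟩ hp ⟨⟨a', b'⟩, c'⟩ hp' heq
    rw [hS] at hp hp'
    obtain ⟨e1, e2, e3⟩ := ea4_trip_inj a b c a' b' c' hp.1.1 hp.1.2 hp'.1.1 hp'.1.2 heq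
    rw [e1, e2, e3]
  · intro e he
    rw [Finset.mem_filter, Finset.mem_powersetCard] at he
    obtain ⟨⟨-, hc⟩, hcl⟩ := he
    obtain ⟨a, b, c, hab, hbc, rfl⟩ := ea4_three e hc
    refine ⟨((a, b), c), ?_, rfl⟩
    rw [hS]
    exact ⟨⟨hab, hbc⟩, (ea4_cl3 h a b c hab hbc).1 hcl⟩

theorem nT_eq (h : ℕ) : Eng.nT h = Par.tH (mkH h) := by
  rw [ea4_nT]
  apply ea4_bij3
  intro p
  simp only [Finset.mem_filter, Finset.mem_univ, true_and]
/-- neighbourhood mask -/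
theorem row_eq (h : ℕ) (v : Fin 8) :
    Eng.row h v.val = msk (univ.filter (fun u : Fin 8 => Eng.adjn h u.val v.val = 1)) := by
  unfold Eng.row msk
  rw [ea4_sumN, Finset.sum_range, Finset.sum_filter]
  apply Finset.sum_congr rfl
  intro u _
  have h0 : Nat.shiftLeft (Eng.adjn h u.val v.val) u.val = Eng.adjn h u.val v.val <<< u.val := rfl
  have h1 : Eng.adjn h u.val v.val = 0 ∨ Eng.adjn h u.val v.val = 1 := by
    have := adjn_le h u.val v.val
    omega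
  rw [h0, Nat.shiftLeft_eq]
  rcases h1 with h1 | h1
  · simp [h1]
  · simp [h1]

end Pool.Agent.MP_528dc0_co

end

section

open Finset

namespace Pool.Agent.MP_528dc0_co

open Eng (Lst It)

theorem ea5_nf_congr (e : EP) (c l c' l' : ℕ → ℕ) (t t' : ℕ) (h1 : ∀ j < e.K, c j = c' j)
    (h2 : ∀ j < 8, l j = l' j) (h3 : t = t') : e.nf c l t = e.nf c' l' t' := by
  unfold EP.nf
  rw [h3]
  congr 1
  apply oc_congr
  intro j hj
  split_ifs with h
  · exact h1 j h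
  · exact h2 _ (by omega)

theorem ea5_cd_le (e : EP) (x : DS e.K) (hx : ∀ k, x.dg k ≤ 31) (j : ℕ) : e.cd x j ≤ 31 := by
  unfold EP.cd
  split_ifs
  · exact hx _
  · omega

theorem ea5_lb_le (N N' : Finset (Fin 8)) (j : ℕ) : EP.lb N N' j ≤ 3 := by
  unfold EP.lb
  split_ifs <;> omega

theorem ea5_pow (e : EP) (h : e.Ok) : 512 ≤ 2 ^ e.s :=
  calc 512 = 2 ^ 9 := by norm_num
    _ ≤ 2 ^ e.s := Nat.pow_le_pow_right (by norm_num) h.hs

theorem ea5_cd_lt (e : EP) (h : e.Ok) (x : DS e.K) (hx : e.OkD x) (j : ℕ) :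
    e.cd x j < 2 ^ e.s := by
  have h1 := ea5_pow e h
  have h2 := ea5_cd_le e x hx.1 j
  omega

theorem ea5_lb_lt (e : EP) (h : e.Ok) (N N' : Finset (Fin 8)) (j : ℕ) :
    EP.lb N N' j < 2 ^ e.s := by
  have h1 := ea5_pow e h
  have h2 := ea5_lb_le N N' j
  omega

theorem ea5_and_lt (a b c : ℕ) (h : a < c) : a &&& b < c := lt_of_le_of_lt Nat.and_le_left h

/-- digits of the field restricted to the colouring lanes -/
theorem ea5_dig1 : ∀ d ≤ 31, (32 - (d &&& 31)) &&& 32 = if d = 0 then 32 else 0 := by decide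

theorem ea5_andland (e : EP) (h : e.Ok) (x y : DS e.K) (hx : e.OkD x) (hy : e.OkD y) :
    e.enc x &&& e.enc y = e.nf (fun j => e.cd x j &&& e.cd y j)
      (fun j => EP.lb x.N₁ x.N₂ j &&& EP.lb y.N₁ y.N₂ j)
      ((msk x.N₁ + 2 ^ 8 * msk x.N₂ + 2 ^ 16 * x.ld) &&&
        (msk y.N₁ + 2 ^ 8 * msk y.N₂ + 2 ^ 16 * y.ld)) := by
  unfold EP.enc
  exact nf_land e _ _ _ _ _ _ (ea5_cd_lt e h x hx) (ea5_lb_lt e h _ _) (ea5_cd_lt e h y hy)
    (ea5_lb_lt e h _ _)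

/-- alive flags: digit 32 in the compatible lanes. (`32 - d`, `d ≤ 31`, has bit 5 iff `d = 0`.) -/
theorem al_eq (e : EP) (h : e.Ok) (x y : DS e.K) (hx : e.OkD x) (hy : e.OkD y) :
    Nat.land (Nat.sub e.HC (Nat.land (Nat.land (e.enc x) (e.enc y)) e.CM)) e.HC =
      e.nf (fun j => if e.cd x j &&& e.cd y j = 0 then 32 else 0) (fun _ => 0) 0 := by
  have hp := ea5_pow e h
  have hd : ∀ j, e.cd x j &&& e.cd y j ≤ 31 := fun j =>
    le_trans Nat.and_le_left (ea5_cd_le e x hx.1 j)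
  change (e.HC - ((e.enc x &&& e.enc y) &&& e.CM)) &&& e.HC = _
  rw [ea5_andland e h x y hx hy, CM_eq e h, HC_eq e h,
    nf_land e _ _ _ _ _ _ (fun j => by have := hd j; omega)
      (fun j => ea5_and_lt _ _ _ (ea5_lb_lt e h _ _ j)) (fun j => by omega) (fun j => by omega),
    nf_sub e _ _ _ _ _ _ (fun j => by
      have : (e.cd x j &&& e.cd y j) &&& 31 ≤ 31 := Nat.and_le_right
      omega) (fun j => by simp) (by simp),
    nf_land e _ _ _ _ _ _ (fun j => by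
      have : 32 - ((e.cd x j &&& e.cd y j) &&& 31) ≤ 32 := Nat.sub_le _ _
      omega) (fun j => by simp) (fun j => by omega) (fun j => by omega)]
  apply ea5_nf_congr
  · intro j _
    exact ea5_dig1 _ (hd j)
  · intro j _
    simp
  · simp

theorem ea5_conv (s n : ℕ) (b c : ℕ → ℕ) :
    oc s b n * oc s c n = oc s (fun m =>
      ∑ p ∈ (range n ×ˢ range n).filter (fun p => p.1 + p.2 = m), b p.1 * c p.2) (2 * n) := by
  unfold oc
  rw [sum_mul_sum, ← sum_product', ← sum_fiberwise_of_maps_to (s := range n ×ˢ range n)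
    (t := range (2 * n)) (g := fun p => p.1 + p.2)]
  · refine sum_congr rfl fun m _ => ?_
    rw [sum_mul]
    refine sum_congr rfl fun p hp => ?_
    rw [mem_filter] at hp
    rw [← hp.2, Nat.mul_add, pow_add]
    ring
  · intro p hp
    rw [mem_product, mem_range, mem_range] at hp
    rw [mem_range]
    omega

/-- General: the weight of a set of lanes by one multiplication. `b j ≤ 1`; the digit at position
`K + 7` of the product `(∑ b_j 2^(s j)) * C` is `∑_j b_j wl_j`; no carries because the digits of the product are at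
most `∑ wl = M + 8 tau < 2^s`. -/
theorem conv_weight (e : EP) (h : e.Ok) (b : ℕ → ℕ) (hb : ∀ j, b j ≤ 1) :
    Nat.land (Nat.shiftRight (Nat.mul (oc e.s (fun j => 32 * b j) (e.K + 8)) e.C) e.pl) e.mS =
      ∑ j ∈ range (e.K + 8), b j * e.wl j := by
  have hpl : e.pl = e.s * (e.K + 7) + 5 := rfl
  have hmS : e.mS = 2 ^ e.s - 1 := by
    change (1 <<< e.s) - 1 = _
    rw [Nat.one_shiftLeft]
  change ((oc e.s (fun j => 32 * b j) (e.K + 8) * e.C) >>> e.pl) &&& e.mS = _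
  rw [hmS, Nat.and_two_pow_sub_one_eq_mod, hpl, Nat.shiftRight_eq_div_pow, C_eq e h, ← oc_smul,
    mul_assoc, ea5_conv, pow_add, mul_comm (2 ^ (e.s * (e.K + 7))) (2 ^ 5),
    show (32 : ℕ) = 2 ^ 5 by norm_num, Nat.mul_div_mul_left _ _ (by norm_num)]
  set n := e.K + 8 with hn
  set D : ℕ → ℕ := fun m => ∑ p ∈ (range n ×ˢ range n).filter (fun p => p.1 + p.2 = m),
    b p.1 * e.wl (e.K + 7 - p.2) with hD
  have hsum : ∑ q ∈ range n, e.wl (e.K + 7 - q) = e.M + 8 * e.tau := by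
    rw [← wl_sum e, ← sum_range_reflect]
    refine sum_congr rfl fun q hq => ?_
    rw [mem_range] at hq
    congr 1
    omega
  have hDlt : ∀ m, D m < 2 ^ e.s := by
    intro m
    have h1 : D m ≤ ∑ q ∈ range n, e.wl (e.K + 7 - q) := by
      calc D m ≤ ∑ p ∈ (range n ×ˢ range n).filter (fun p => p.1 + p.2 = m),
            e.wl (e.K + 7 - p.2) := by
            refine sum_le_sum fun p _ => ?_
            have := hb p.1
            calc b p.1 * e.wl (e.K + 7 - p.2) ≤ 1 * e.wl (e.K + 7 - p.2) :=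
                  Nat.mul_le_mul_right _ this
              _ = e.wl (e.K + 7 - p.2) := one_mul _
        _ = ∑ q ∈ ((range n ×ˢ range n).filter (fun p => p.1 + p.2 = m)).image Prod.snd,
            e.wl (e.K + 7 - q) := by
            rw [sum_image]
            intro p hp p' hp' hpp
            simp only [coe_filter, Set.mem_ofPred_eq] at hp hp'
            ext
            · have := hp.2
              have := hp'.2
              omega
            · exact hpp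
        _ ≤ ∑ q ∈ range n, e.wl (e.K + 7 - q) := by
            apply sum_le_sum_of_subset
            intro q hq
            rw [mem_image] at hq
            obtain ⟨p, hp, rfl⟩ := hq
            rw [mem_filter, mem_product] at hp
            exact hp.1.2
    have h2 := h.hM
    omega
  have h3 := oc_digit e.s (2 * n) D 0 (fun j _ => hDlt j) (e.K + 7) (by omega)
  rw [mul_zero, add_zero] at h3
  rw [h3, hD]
  have h4 : (range n ×ˢ range n).filter (fun p => p.1 + p.2 = e.K + 7) =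
      (range n).image (fun i => (i, e.K + 7 - i)) := by
    ext ⟨i, q⟩
    simp only [mem_filter, mem_product, mem_range, mem_image, Prod.mk.injEq]
    constructor
    · rintro ⟨⟨h1, h2⟩, h5⟩
      exact ⟨i, h1, rfl, by omega⟩
    · rintro ⟨i', h1, rfl, rfl⟩
      omega
  show ∑ p ∈ (range n ×ˢ range n).filter (fun p => p.1 + p.2 = e.K + 7),
    b p.1 * e.wl (e.K + 7 - p.2) = _
  rw [h4, sum_image]
  · refine sum_congr rfl fun i hi => ?_
    rw [mem_range] at hi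
    congr 2
    show e.K + 7 - (e.K + 7 - i) = i
    omega
  · intro i _ i' _ hii
    simp only [Prod.mk.injEq] at hii
    exact hii.1

theorem wt_eq (e : EP) (h : e.Ok) (x y : DS e.K) (hx : e.OkD x) (hy : e.OkD y) :
    Nat.land (Nat.shiftRight (Nat.mul (Nat.land (Nat.sub e.HC (Nat.land (Nat.land (e.enc x) (e.enc y))
      e.CM)) e.HC) e.C) e.pl) e.mS = e.wtD x y := by
  rw [al_eq e h x y hx hy]
  have h1 : e.nf (fun j => if e.cd x j &&& e.cd y j = 0 then 32 else 0) (fun _ => 0) 0 =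
      oc e.s (fun j => 32 * (if j < e.K then (if e.cd x j &&& e.cd y j = 0 then 1 else 0) else 0))
        (e.K + 8) := by
    unfold EP.nf
    rw [mul_zero, add_zero]
    apply oc_congr
    intro j _
    by_cases h1 : j < e.K
    · simp only [h1, if_true]
      split_ifs <;> rfl
    · simp only [h1, if_false, mul_zero]
  rw [h1, conv_weight e h _ (fun j => by split_ifs <;> omega), sum_range_add]
  have h2 : ∑ j ∈ range 8, (if e.K + j < e.K then
      (if e.cd x (e.K + j) &&& e.cd y (e.K + j) = 0 then 1 else 0) else 0) * e.wl (e.K + j) = 0 := by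
    refine sum_eq_zero fun j _ => ?_
    rw [if_neg (by omega), zero_mul]
  rw [h2, add_zero, sum_range]
  unfold EP.wtD
  refine sum_congr rfl fun k _ => ?_
  rw [if_pos k.isLt]
  have h3 : e.wl k = e.w k := by
    unfold EP.wl EP.w
    rw [if_pos k.isLt]
  have h4 : e.cd x k = x.dg k := by
    unfold EP.cd
    rw [dif_pos k.isLt]
  have h5 : e.cd y k = y.dg k := by
    unfold EP.cd
    rw [dif_pos k.isLt]
  rw [h3, h4, h5]
  split_ifs <;> simp

theorem ea5_top (e : EP) (h : e.Ok) (x : DS e.K) (hx : ∀ k, x.dg k ≤ 31) :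
    (e.enc x) >>> e.sJ = msk x.N₁ + 2 ^ 8 * msk x.N₂ + 2 ^ 16 * x.ld := by
  have hsJ : e.sJ = e.s * (e.K + 8) := rfl
  have hp := ea5_pow e h
  rw [hsJ, Nat.shiftRight_eq_div_pow]
  unfold EP.enc EP.nf
  apply oc_top
  intro j _
  split_ifs
  · have := ea5_cd_le e x hx j
    omega
  · exact ea5_lb_lt e h _ _ _

theorem ea5_mod (N₁ N₂ : Finset (Fin 8)) (l : ℕ) :
    (msk N₁ + 2 ^ 8 * msk N₂ + 2 ^ 16 * l) &&& 255 = msk N₁ := by
  have h1 := msk_lt N₁
  have h2 := msk_lt N₂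
  rw [show 255 = 2 ^ 8 - 1 by norm_num, Nat.and_two_pow_sub_one_eq_mod]
  omega

theorem sh_eq (e : EP) (h : e.Ok) (x y : DS e.K) (hx : e.OkD x) (hy : e.OkD y) :
    Nat.land (Nat.shiftRight (Nat.land (e.enc x) (e.enc y)) e.sJ) 255 = msk (x.N₁ ∩ y.N₁) := by
  change ((e.enc x &&& e.enc y) >>> e.sJ) &&& 255 = _
  rw [Nat.shiftRight_and_distrib, ea5_top e h x hx.1, ea5_top e h y hy.1, ← msk_land]
  conv_rhs => rw [← ea5_mod x.N₁ x.N₂ x.ld, ← ea5_mod y.N₁ y.N₂ y.ld]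
  generalize msk x.N₁ + 2 ^ 8 * msk x.N₂ + 2 ^ 16 * x.ld = a
  generalize msk y.N₁ + 2 ^ 8 * msk y.N₂ + 2 ^ 16 * y.ld = b
  apply Nat.eq_of_testBit_eq
  intro i
  simp only [Nat.testBit_and]
  cases a.testBit i <;> cases b.testBit i <;> cases (255 : ℕ).testBit i <;> rfl

theorem s2_eq (e : EP) (h : e.Ok) (x y : DS e.K) (hx : e.OkD x) (hy : e.OkD y) :
    Nat.land (Nat.land (Nat.shiftRight (e.enc x) e.sJ) (Nat.shiftRight (e.enc y) e.sj8)) 255 =
      msk (x.N₁ ∩ y.N₂) := by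
  change (((e.enc x) >>> e.sJ) &&& ((e.enc y) >>> (e.sJ + 8))) &&& 255 = _
  rw [Nat.shiftRight_add, ea5_top e h x hx.1, ea5_top e h y hy.1]
  have h1 : (msk y.N₁ + 2 ^ 8 * msk y.N₂ + 2 ^ 16 * y.ld) >>> 8 = msk y.N₂ + 2 ^ 8 * y.ld := by
    have h1 := msk_lt y.N₁
    rw [Nat.shiftRight_eq_div_pow]
    omega
  have h2 : (msk y.N₂ + 2 ^ 8 * y.ld) &&& 255 = msk y.N₂ := by
    have h1 := msk_lt y.N₂
    rw [show 255 = 2 ^ 8 - 1 by norm_num, Nat.and_two_pow_sub_one_eq_mod]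
    omega
  rw [h1, ← msk_land]
  conv_rhs => rw [← ea5_mod x.N₁ x.N₂ x.ld, ← h2]
  generalize msk x.N₁ + 2 ^ 8 * msk x.N₂ + 2 ^ 16 * x.ld = a
  generalize msk y.N₂ + 2 ^ 8 * y.ld = b
  apply Nat.eq_of_testBit_eq
  intro i
  simp only [Nat.testBit_and]
  cases a.testBit i <;> cases b.testBit i <;> cases (255 : ℕ).testBit i <;> rfl

theorem n1_eq (e : EP) (h : e.Ok) (x : DS e.K) (hx : e.OkD x) :
    Nat.land (Nat.shiftRight (e.enc x) e.sJ) 255 = msk x.N₁ := by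
  change ((e.enc x) >>> e.sJ) &&& 255 = _
  rw [ea5_top e h x hx.1, ea5_mod]

theorem ea5_ld (e : EP) (h : e.Ok) (x : DS e.K) (hx : ∀ k, x.dg k ≤ 31) :
    (e.enc x) >>> e.l0 = x.ld := by
  change (e.enc x) >>> (e.sJ + 16) = _
  rw [Nat.shiftRight_add, ea5_top e h x hx, Nat.shiftRight_eq_div_pow]
  have h1 := msk_lt x.N₁
  have h2 := msk_lt x.N₂
  omega

theorem ld_eq (e : EP) (h : e.Ok) (x : DS e.K) (hx : e.OkD x) :
    Nat.shiftRight (e.enc x) e.l0 = x.ld :=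
  ea5_ld e h x hx.1

theorem wtD_symm (e : EP) (x y : DS e.K) : e.wtD x y = e.wtD y x := by
  unfold EP.wtD
  refine sum_congr rfl fun k _ => ?_
  rw [Nat.and_comm]

theorem wtD_lt (e : EP) (h : e.Ok) (x y : DS e.K) : e.wtD x y < 2 ^ e.s := by
  have h1 : e.wtD x y ≤ e.M := by
    rw [M_eq e]
    unfold EP.wtD
    refine sum_le_sum fun k _ => ?_
    split_ifs <;> omega
  have h2 := h.hM
  omega

end Pool.Agent.MP_528dc0_co

end

section

open Finset

namespace Pool.Agent.MP_528dc0_co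

open Eng (Lst It)

theorem ea6_nf_congr (e : EP) (c l c' l' : ℕ → ℕ) (t t' : ℕ) (h1 : ∀ j < e.K, c j = c' j)
    (h2 : ∀ j < 8, l j = l' j) (h3 : t = t') : e.nf c l t = e.nf c' l' t' := by
  unfold EP.nf
  rw [h3]
  congr 1
  apply oc_congr
  intro j hj
  split_ifs with h
  · exact h1 j h
  · exact h2 _ (by omega)

theorem ea6_cd_le (e : EP) (x : DS e.K) (hx : ∀ k, x.dg k ≤ 31) (j : ℕ) : e.cd x j ≤ 31 := by
  unfold EP.cd
  split_ifs
  · exact hx _
  · omega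

theorem ea6_lb_le (N N' : Finset (Fin 8)) (j : ℕ) : EP.lb N N' j ≤ 3 := by
  unfold EP.lb
  split_ifs <;> omega

theorem ea6_pow (e : EP) (h : e.Ok) : 512 ≤ 2 ^ e.s :=
  calc 512 = 2 ^ 9 := by norm_num
    _ ≤ 2 ^ e.s := Nat.pow_le_pow_right (by norm_num) h.hs

theorem ea6_cd_lt (e : EP) (h : e.Ok) (x : DS e.K) (hx : e.OkD x) (j : ℕ) :
    e.cd x j < 2 ^ e.s := by
  have h1 := ea6_pow e h
  have h2 := ea6_cd_le e x hx.1 j
  omega

theorem ea6_lb_lt (e : EP) (h : e.Ok) (N N' : Finset (Fin 8)) (j : ℕ) :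
    EP.lb N N' j < 2 ^ e.s := by
  have h1 := ea6_pow e h
  have h2 := ea6_lb_le N N' j
  omega

theorem ea6_cd_mk (e : EP) (F : Fin e.K → ℕ) (N₁ N₂ : Finset (Fin 8)) (l j : ℕ) (hj : j < e.K) :
    e.cd ⟨F, N₁, N₂, l⟩ j = F ⟨j, hj⟩ := by
  unfold EP.cd
  rw [dif_pos hj]

theorem ea6_cd_of (e : EP) (x : DS e.K) (j : ℕ) (hj : j < e.K) : e.cd x j = x.dg ⟨j, hj⟩ := by
  unfold EP.cd
  rw [dif_pos hj]

theorem ea6_or_le (a b : ℕ) (ha : a ≤ 31) (hb : b ≤ 31) : a ||| b ≤ 31 := by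
  have : a ||| b < 2 ^ 5 := Nat.or_lt_two_pow (by omega) (by omega)
  omega

theorem ea6_and31 (a : ℕ) (ha : a ≤ 31) : a &&& 31 = a := by
  rw [show 31 = 2 ^ 5 - 1 by norm_num, Nat.and_two_pow_sub_one_eq_mod]
  omega

theorem ea6_or31 : ∀ a ≤ 31, a ||| 31 = 31 := by decide

/-- `DD (AL x y)`: digit 31 in the incompatible lanes. -/
theorem dd_eq (e : EP) (h : e.Ok) (x y : DS e.K) (hx : e.OkD x) (hy : e.OkD y) (A : ℕ)
    (hA : A = Nat.land (Nat.sub e.HC (Nat.land (Nat.land (e.enc x) (e.enc y)) e.CM)) e.HC) :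
    Nat.sub (Nat.sub e.HC A) (Nat.shiftRight (Nat.sub e.HC A) 5) =
      e.nf (fun j => if e.cd x j &&& e.cd y j = 0 then 0 else 31) (fun _ => 0) 0 := by
  rw [al_eq e h x y hx hy] at hA
  change (e.HC - A) - (e.HC - A) >>> 5 = _
  have h1 : e.HC - A =
      e.nf (fun j => if e.cd x j &&& e.cd y j = 0 then 0 else 32) (fun _ => 0) 0 := by
    rw [hA, HC_eq e h, nf_sub e _ _ _ _ _ _ (fun j => by split_ifs <;> omega)
      (fun j => le_rfl) le_rfl]
    apply ea6_nf_congr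
    · intro j _
      show 32 - (if e.cd x j &&& e.cd y j = 0 then 32 else 0) =
        if e.cd x j &&& e.cd y j = 0 then 0 else 32
      split_ifs <;> rfl
    · intro j _
      rfl
    · rfl
  have h2 : (e.HC - A) >>> 5 =
      e.nf (fun j => if e.cd x j &&& e.cd y j = 0 then 0 else 1) (fun _ => 0) 0 := by
    have h3 : e.HC - A =
        32 * e.nf (fun j => if e.cd x j &&& e.cd y j = 0 then 0 else 1) (fun _ => 0) 0 := by
      rw [h1]
      unfold EP.nf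
      rw [mul_zero, add_zero, add_zero, oc_smul]
      apply oc_congr
      intro j _
      by_cases h1 : j < e.K
      · simp only [h1, if_true]
        split_ifs <;> rfl
      · simp only [h1, if_false, mul_zero]
    rw [h3, Nat.shiftRight_eq_div_pow]
    exact Nat.mul_div_cancel_left _ (by norm_num)
  rw [h2, h1, nf_sub e _ _ _ _ _ _ (fun j => by split_ifs <;> omega) (fun j => le_rfl) le_rfl]
  apply ea6_nf_congr
  · intro j _
    show (if e.cd x j &&& e.cd y j = 0 then 0 else 32) -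
      (if e.cd x j &&& e.cd y j = 0 then 0 else 1) = if e.cd x j &&& e.cd y j = 0 then 0 else 31
    split_ifs <;> rfl
  · intro j _
    rfl
  · rfl

theorem ea6_shl (e : EP) (l : ℕ) : l <<< e.l0 = e.nf (fun _ => 0) (fun _ => 0) (2 ^ 16 * l) := by
  have h1 : e.l0 = e.s * (e.K + 8) + 16 := rfl
  rw [h1, Nat.shiftLeft_eq, pow_add]
  unfold EP.nf
  have h2 : oc e.s (fun j => if j < e.K then 0 else 0) (e.K + 8) = 0 := by
    unfold oc
    refine sum_eq_zero fun j _ => ?_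
    simp
  rw [h2]
  ring

/-- the label part of a field -/
theorem ea6_x0 (e : EP) (h : e.Ok) (x : DS e.K) (hx : e.OkD x) :
    e.enc x &&& e.X0 = e.nf (fun _ => 0) (EP.lb x.N₁ x.N₂) (msk x.N₁ + 2 ^ 8 * msk x.N₂) := by
  have hp := ea6_pow e h
  rw [X0_eq e h]
  unfold EP.enc
  rw [nf_land e _ _ _ _ _ _ (ea6_cd_lt e h x hx) (ea6_lb_lt e h _ _) (fun j => by omega)
    (fun j => by omega)]
  apply ea6_nf_congr
  · intro j _
    simp
  · intro j _
    have h1 := ea6_lb_le x.N₁ x.N₂ j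
    show EP.lb x.N₁ x.N₂ j &&& 3 = _
    rw [show 3 = 2 ^ 2 - 1 by norm_num, Nat.and_two_pow_sub_one_eq_mod]
    omega
  · have h1 := msk_lt x.N₁
    have h2 := msk_lt x.N₂
    rw [show 65535 = 2 ^ 16 - 1 by norm_num, Nat.and_two_pow_sub_one_eq_mod]
    omega

theorem ea6_tail (e : EP) (h : e.Ok) (x : DS e.K) (hx : e.OkD x) (l : ℕ) :
    Nat.add (Nat.land (e.enc x) e.X0) (Nat.shiftLeft l e.l0) =
      e.nf (fun _ => 0) (EP.lb x.N₁ x.N₂) (msk x.N₁ + 2 ^ 8 * msk x.N₂ + 2 ^ 16 * l) := by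
  change (e.enc x &&& e.X0) + l <<< e.l0 = _
  rw [ea6_x0 e h x hx, ea6_shl, nf_add]
  apply ea6_nf_congr
  · intro j _
    rfl
  · intro j _
    rfl
  · rfl

theorem ea6_orCM (e : EP) (h : e.Ok) (x y : DS e.K) (hx : e.OkD x) (hy : e.OkD y) :
    (e.enc x ||| e.enc y) &&& e.CM = e.nf (fun j => e.cd x j ||| e.cd y j) (fun _ => 0) 0 := by
  have hp := ea6_pow e h
  rw [CM_eq e h]
  unfold EP.enc
  have hor : ∀ j, e.cd x j ||| e.cd y j ≤ 31 := fun j =>
    ea6_or_le _ _ (ea6_cd_le e x hx.1 j) (ea6_cd_le e y hy.1 j)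
  rw [nf_lor e _ _ _ _ _ _ (ea6_cd_lt e h x hx) (ea6_lb_lt e h _ _) (ea6_cd_lt e h y hy)
    (ea6_lb_lt e h _ _), nf_land e _ _ _ _ _ _ (fun j => by have := hor j; omega)
    (fun j => Nat.or_lt_two_pow (ea6_lb_lt e h _ _ j) (ea6_lb_lt e h _ _ j))
    (fun j => by omega) (fun j => by omega)]
  apply ea6_nf_congr
  · intro j _
    exact ea6_and31 _ (hor j)
  · intro j _
    simp
  · simp

theorem ea6_andCM (e : EP) (h : e.Ok) (x : DS e.K) (hx : e.OkD x) :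
    e.enc x &&& e.CM = e.nf (e.cd x) (fun _ => 0) 0 := by
  have hp := ea6_pow e h
  rw [CM_eq e h]
  unfold EP.enc
  rw [nf_land e _ _ _ _ _ _ (ea6_cd_lt e h x hx) (ea6_lb_lt e h _ _)
    (fun j => by omega) (fun j => by omega)]
  apply ea6_nf_congr
  · intro j _
    exact ea6_and31 _ (ea6_cd_le e x hx.1 j)
  · intro j _
    simp
  · simp

theorem ea6_P (e : EP) (h : e.Ok) (x y : DS e.K) (hx : e.OkD x) (hy : e.OkD y) (A : ℕ)
    (hA : A = Nat.land (Nat.sub e.HC (Nat.land (Nat.land (e.enc x) (e.enc y)) e.CM)) e.HC) :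
    Nat.lor (Nat.land (Nat.lor (e.enc x) (e.enc y)) e.CM)
      (Nat.sub (Nat.sub e.HC A) (Nat.shiftRight (Nat.sub e.HC A) 5)) =
    e.nf (fun j => if e.cd x j &&& e.cd y j = 0 then e.cd x j ||| e.cd y j else 31)
      (fun _ => 0) 0 := by
  have hp := ea6_pow e h
  rw [dd_eq e h x y hx hy A hA]
  change ((e.enc x ||| e.enc y) &&& e.CM) ||| _ = _
  have hor : ∀ j, e.cd x j ||| e.cd y j ≤ 31 := fun j =>
    ea6_or_le _ _ (ea6_cd_le e x hx.1 j) (ea6_cd_le e y hy.1 j)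
  rw [ea6_orCM e h x y hx hy, nf_lor e _ _ _ _ _ _ (fun j => by have := hor j; omega)
    (fun j => by omega) (fun j => by split_ifs <;> omega) (fun j => by omega)]
  apply ea6_nf_congr
  · intro j _
    show (e.cd x j ||| e.cd y j) ||| (if e.cd x j &&& e.cd y j = 0 then 0 else 31) = _
    split_ifs
    · rw [Nat.or_zero]
    · exact ea6_or31 _ (hor j)
  · intro j _
    rfl
  · rfl

theorem ea6_Kf (e : EP) (h : e.Ok) (x y : DS e.K) (hx : e.OkD x) (hy : e.OkD y) (A : ℕ)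
    (hA : A = Nat.land (Nat.sub e.HC (Nat.land (Nat.land (e.enc x) (e.enc y)) e.CM)) e.HC) :
    Nat.lor (Nat.land (e.enc x) e.CM)
      (Nat.sub (Nat.sub e.HC A) (Nat.shiftRight (Nat.sub e.HC A) 5)) =
    e.nf (fun j => if e.cd x j &&& e.cd y j = 0 then e.cd x j else 31)
      (fun _ => 0) 0 := by
  have hp := ea6_pow e h
  rw [dd_eq e h x y hx hy A hA]
  change (e.enc x &&& e.CM) ||| _ = _
  rw [ea6_andCM e h x hx, nf_lor e _ _ _ _ _ _ (ea6_cd_lt e h x hx)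
    (fun j => by omega) (fun j => by split_ifs <;> omega) (fun j => by omega)]
  apply ea6_nf_congr
  · intro j _
    show e.cd x j ||| (if e.cd x j &&& e.cd y j = 0 then 0 else 31) = _
    split_ifs
    · rw [Nat.or_zero]
    · exact ea6_or31 _ (ea6_cd_le e x hx.1 j)
  · intro j _
    rfl
  · rfl

/-- root form: `((x ∨ y) ∧ CM) ∨ DD`, labels and load from `x` and `l` -/
theorem encP_eq (e : EP) (h : e.Ok) (x y : DS e.K) (hx : e.OkD x) (hy : e.OkD y) (l A : ℕ)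
    (hl : l < 2 ^ e.s)
    (hA : A = Nat.land (Nat.sub e.HC (Nat.land (Nat.land (e.enc x) (e.enc y)) e.CM)) e.HC) :
    Nat.add (Nat.lor (Nat.land (Nat.lor (e.enc x) (e.enc y)) e.CM)
      (Nat.sub (Nat.sub e.HC A) (Nat.shiftRight (Nat.sub e.HC A) 5)))
      (Nat.add (Nat.land (e.enc x) e.X0) (Nat.shiftLeft l e.l0)) =
      e.enc (e.mkP x y x.N₁ x.N₂ l) := by
  rw [ea6_P e h x y hx hy A hA, ea6_tail e h x hx l]
  refine (nf_add e _ _ _ _ _ _).trans ?_
  unfold EP.enc EP.mkP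
  apply ea6_nf_congr
  · intro j hj
    rw [ea6_cd_of e x j hj, ea6_cd_of e y j hj, add_zero, ea6_cd_mk e _ _ _ _ j hj]
  · intro j _
    exact zero_add _
  · exact zero_add _

/-- child form: `(CM - (…)) + DD` -/
theorem encQ_eq (e : EP) (h : e.Ok) (x y : DS e.K) (hx : e.OkD x) (hy : e.OkD y) (l A : ℕ)
    (hl : l < 2 ^ e.s)
    (hA : A = Nat.land (Nat.sub e.HC (Nat.land (Nat.land (e.enc x) (e.enc y)) e.CM)) e.HC) :
    Nat.add (Nat.add (Nat.sub e.CM (Nat.lor (Nat.land (Nat.lor (e.enc x) (e.enc y)) e.CM)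
      (Nat.sub (Nat.sub e.HC A) (Nat.shiftRight (Nat.sub e.HC A) 5))))
      (Nat.sub (Nat.sub e.HC A) (Nat.shiftRight (Nat.sub e.HC A) 5)))
      (Nat.add (Nat.land (e.enc x) e.X0) (Nat.shiftLeft l e.l0)) =
      e.enc (e.mkQ x y x.N₁ x.N₂ l) := by
  have hor : ∀ j, e.cd x j ||| e.cd y j ≤ 31 := fun j =>
    ea6_or_le _ _ (ea6_cd_le e x hx.1 j) (ea6_cd_le e y hy.1 j)
  rw [ea6_P e h x y hx hy A hA, dd_eq e h x y hx hy A hA, ea6_tail e h x hx l]
  change (e.CM - _) + _ + _ = _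
  rw [CM_eq e h, nf_sub e _ _ _ _ _ _ (fun j => by
    have := hor j
    split_ifs <;> omega) (fun j => le_rfl) le_rfl, nf_add, nf_add]
  unfold EP.enc EP.mkQ
  apply ea6_nf_congr
  · intro j hj
    rw [ea6_cd_of e x j hj, ea6_cd_of e y j hj, add_zero, ea6_cd_mk e _ _ _ _ j hj]
    split_ifs
    · rw [add_zero]
    · rfl
  · intro j _
    rw [Nat.sub_self, zero_add, zero_add]
  · rw [Nat.sub_self, zero_add, zero_add]

theorem ea6_lb1 (e : EP) (h : e.Ok) (u v : DS e.K) (hu : e.OkD u) (hv : e.OkD v) :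
    (e.enc u &&& e.XL) + (e.enc v &&& e.XF) =
      e.nf (fun _ => 0) (EP.lb u.N₁ v.N₂) (msk u.N₁ + 2 ^ 8 * msk v.N₂) := by
  have hp := ea6_pow e h
  rw [XL_eq e h, XF_eq e h]
  unfold EP.enc
  rw [nf_land e _ _ _ _ _ _ (ea6_cd_lt e h u hu) (ea6_lb_lt e h _ _) (fun j => by omega)
    (fun j => by omega), nf_land e _ _ _ _ _ _ (ea6_cd_lt e h v hv) (ea6_lb_lt e h _ _)
    (fun j => by omega) (fun j => by omega), nf_add]
  apply ea6_nf_congr
  · intro j _
    simp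
  · intro j hj
    unfold EP.lb
    simp only [hj, dif_pos]
    by_cases h1 : (⟨j, hj⟩ : Fin 8) ∈ u.N₁ <;> by_cases h2 : (⟨j, hj⟩ : Fin 8) ∈ u.N₂ <;>
      by_cases h3 : (⟨j, hj⟩ : Fin 8) ∈ v.N₁ <;> by_cases h4 : (⟨j, hj⟩ : Fin 8) ∈ v.N₂ <;>
      simp [h1, h2, h3, h4]
  · have h1 := msk_lt u.N₁
    have h2 := msk_lt u.N₂
    have h3 := msk_lt v.N₁
    have h4 := msk_lt v.N₂
    have e1 : (msk u.N₁ + 2 ^ 8 * msk u.N₂ + 2 ^ 16 * u.ld) &&& 255 = msk u.N₁ := by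
      rw [show 255 = 2 ^ 8 - 1 by norm_num, Nat.and_two_pow_sub_one_eq_mod]
      omega
    have e2 : (msk v.N₁ + 2 ^ 8 * msk v.N₂ + 2 ^ 16 * v.ld) &&& (255 * 256) =
        2 ^ 8 * msk v.N₂ := by
      have e3 : msk v.N₁ + 2 ^ 8 * msk v.N₂ + 2 ^ 16 * v.ld =
          2 ^ 8 * (msk v.N₂ + 2 ^ 8 * v.ld) + msk v.N₁ := by ring
      have e4 : 255 * 256 = 2 ^ 8 * 255 + 0 := by norm_num
      have e5 : (msk v.N₂ + 2 ^ 8 * v.ld) &&& 255 = msk v.N₂ := by
        rw [show 255 = 2 ^ 8 - 1 by norm_num, Nat.and_two_pow_sub_one_eq_mod]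
        omega
      rw [e3, e4]
      apply Nat.eq_of_testBit_eq
      intro i
      rw [Nat.testBit_and, Nat.testBit_two_pow_mul_add _ (by omega),
        Nat.testBit_two_pow_mul_add _ (by norm_num), Nat.testBit_two_pow_mul]
      by_cases hi : i < 8
      · simp [hi]
      · have hi' : 8 ≤ i := by omega
        simp only [hi, if_false, hi', decide_true, Bool.true_and]
        rw [← Nat.testBit_and, e5]
    rw [e1, e2]

/-- chains: the digits of `x` are kept (`(x ∧ CM) ∨ DD`), last label set from `u`, first from `v` -/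
theorem encK_eq (e : EP) (h : e.Ok) (x y u v : DS e.K) (hx : e.OkD x) (hy : e.OkD y)
    (hu : e.OkD u) (hv : e.OkD v) (l A : ℕ) (hl : l < 2 ^ e.s)
    (hA : A = Nat.land (Nat.sub e.HC (Nat.land (Nat.land (e.enc x) (e.enc y)) e.CM)) e.HC) :
    Nat.add (Nat.lor (Nat.land (e.enc x) e.CM)
      (Nat.sub (Nat.sub e.HC A) (Nat.shiftRight (Nat.sub e.HC A) 5)))
      (Nat.add (Nat.add (Nat.land (e.enc u) e.XL) (Nat.land (e.enc v) e.XF)) (Nat.shiftLeft l e.l0)) =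
      e.enc (e.mkK x y u.N₁ v.N₂ l) := by
  rw [ea6_Kf e h x y hx hy A hA]
  change _ + (((e.enc u &&& e.XL) + (e.enc v &&& e.XF)) + l <<< e.l0) = _
  rw [ea6_lb1 e h u v hu hv, ea6_shl, nf_add, nf_add]
  unfold EP.enc EP.mkK
  apply ea6_nf_congr
  · intro j hj
    rw [ea6_cd_of e x j hj, ea6_cd_of e y j hj, ea6_cd_mk e _ _ _ _ j hj]
    rfl
  · intro j _
    rw [add_zero, zero_add]
  · rw [zero_add]

/-- the same with both label sets from `x` -/
theorem encK0_eq (e : EP) (h : e.Ok) (x y : DS e.K) (hx : e.OkD x) (hy : e.OkD y) (l A : ℕ)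
    (hl : l < 2 ^ e.s)
    (hA : A = Nat.land (Nat.sub e.HC (Nat.land (Nat.land (e.enc x) (e.enc y)) e.CM)) e.HC) :
    Nat.add (Nat.lor (Nat.land (e.enc x) e.CM)
      (Nat.sub (Nat.sub e.HC A) (Nat.shiftRight (Nat.sub e.HC A) 5)))
      (Nat.add (Nat.land (e.enc x) e.X0) (Nat.shiftLeft l e.l0)) =
      e.enc (e.mkK x y x.N₁ x.N₂ l) := by
  rw [ea6_Kf e h x y hx hy A hA, ea6_tail e h x hx l]
  refine (nf_add e _ _ _ _ _ _).trans ?_
  unfold EP.enc EP.mkK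
  apply ea6_nf_congr
  · intro j hj
    rw [ea6_cd_of e x j hj, ea6_cd_of e y j hj, add_zero, ea6_cd_mk e _ _ _ _ j hj]
  · intro j _
    exact zero_add _
  · exact zero_add _

theorem ea6_triv (e : EP) (h : e.Ok) (y : DS e.K) (hy : e.OkD y) :
    e.trivP (e.enc y) = e.nf (fun j => e.cd y j ||| 16) (fun _ => 0) (2 ^ 16 * y.ld) := by
  have hp := ea6_pow e h
  unfold EP.trivP
  change (e.enc y &&& e.CL) ||| e.S16 = _
  rw [CL_eq e h, S16_eq e h]
  unfold EP.enc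
  rw [nf_land e _ _ _ _ _ _ (ea6_cd_lt e h y hy) (ea6_lb_lt e h _ _) (fun j => by omega)
    (fun j => by omega), nf_lor e _ _ _ _ _ _
    (fun j => lt_of_le_of_lt Nat.and_le_left (ea6_cd_lt e h y hy j))
    (fun j => lt_of_le_of_lt Nat.and_le_left (ea6_lb_lt e h _ _ j)) (fun j => by omega)
    (fun j => by omega)]
  apply ea6_nf_congr
  · intro j _
    show (e.cd y j &&& 31) ||| 16 = _
    rw [ea6_and31 _ (ea6_cd_le e y hy.1 j)]
  · intro j _
    simp
  · have h1 := msk_lt y.N₁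
    have h2 := msk_lt y.N₂
    rw [Nat.or_zero]
    have e3 : msk y.N₁ + 2 ^ 8 * msk y.N₂ + 2 ^ 16 * y.ld =
        2 ^ 16 * y.ld + (msk y.N₁ + 2 ^ 8 * msk y.N₂) := by ring
    have e4 : (2 ^ e.s - 1) * 65536 = 2 ^ 16 * (2 ^ e.s - 1) + 0 := by
      rw [add_zero, mul_comm]
      norm_num
    have e5 : y.ld &&& (2 ^ e.s - 1) = y.ld := by
      rw [Nat.and_two_pow_sub_one_eq_mod, Nat.mod_eq_of_lt hy.2]
    rw [e3, e4]
    apply Nat.eq_of_testBit_eq
    intro i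
    rw [Nat.testBit_and, Nat.testBit_two_pow_mul_add _ (by omega),
      Nat.testBit_two_pow_mul_add _ (by norm_num), Nat.testBit_two_pow_mul]
    by_cases hi : i < 16
    · simp [hi]
    · have hi' : 16 ≤ i := by omega
      simp only [hi, if_false, hi', decide_true, Bool.true_and]
      rw [← Nat.testBit_and, e5]

theorem ea6_lbe (j : ℕ) : EP.lb ∅ ∅ j = 0 := by
  unfold EP.lb
  split_ifs <;> simp_all

theorem ea6_mske : msk ∅ = 0 := by
  unfold msk
  simp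

/-- trivial root -/
theorem trivP_eq (e : EP) (h : e.Ok) (y : DS e.K) (hy : e.OkD y) :
    e.trivP (e.enc y) = e.enc (e.trvP y) := by
  rw [ea6_triv e h y hy]
  unfold EP.enc EP.trvP
  apply ea6_nf_congr
  · intro j hj
    rw [ea6_cd_of e y j hj, ea6_cd_mk e _ _ _ _ j hj]
  · intro j _
    exact (ea6_lbe j).symm
  · show _ = msk ∅ + 2 ^ 8 * msk ∅ + 2 ^ 16 * y.ld
    rw [ea6_mske, mul_zero, zero_add, zero_add]

theorem ea6_flag : ∀ d ≤ 31, (d + 1) &&& 32 = if d = 31 then 32 else 0 := by decide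

theorem trivQ_eq (e : EP) (h : e.Ok) (y : DS e.K) (hy : e.OkD y) :
    e.trivQ (e.enc y) = e.enc (e.trvQ y) := by
  have hp := ea6_pow e h
  have hor : ∀ j, e.cd y j ||| 16 ≤ 31 := fun j =>
    ea6_or_le _ _ (ea6_cd_le e y hy.1 j) (by norm_num)
  have hP := ea6_triv e h y hy
  have hand : e.trivP (e.enc y) &&& e.CM = e.nf (fun j => e.cd y j ||| 16) (fun _ => 0) 0 := by
    rw [hP, CM_eq e h, nf_land e _ _ _ _ _ _ (fun j => by have := hor j; omega)
      (fun j => by omega) (fun j => by omega) (fun j => by omega)]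
    apply ea6_nf_congr
    · intro j _
      exact ea6_and31 _ (hor j)
    · intro j _
      rfl
    · simp
  have hlor : e.trivP (e.enc y) ||| e.CM = e.nf (fun _ => 31) (fun _ => 0) (2 ^ 16 * y.ld) := by
    rw [hP, CM_eq e h, nf_lor e _ _ _ _ _ _ (fun j => by have := hor j; omega)
      (fun j => by omega) (fun j => by omega) (fun j => by omega)]
    apply ea6_nf_congr
    · intro j _
      exact ea6_or31 _ (hor j)
    · intro j _
      rfl
    · simp
  have hflag : (e.trivP (e.enc y) &&& e.CM) + e.F1 &&& e.HC =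
      e.nf (fun j => if e.cd y j ||| 16 = 31 then 32 else 0) (fun _ => 0) 0 := by
    rw [hand, F1_eq e h, HC_eq e h, nf_add, nf_land e _ _ _ _ _ _
      (fun j => by have := hor j; omega) (fun j => by omega) (fun j => by omega)
      (fun j => by omega)]
    apply ea6_nf_congr
    · intro j _
      exact ea6_flag _ (hor j)
    · intro j _
      rfl
    · rfl
  have hflag5 : ((e.trivP (e.enc y) &&& e.CM) + e.F1 &&& e.HC) >>> 5 =
      e.nf (fun j => if e.cd y j ||| 16 = 31 then 1 else 0) (fun _ => 0) 0 := by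
    have h3 : (e.trivP (e.enc y) &&& e.CM) + e.F1 &&& e.HC =
        32 * e.nf (fun j => if e.cd y j ||| 16 = 31 then 1 else 0) (fun _ => 0) 0 := by
      rw [hflag]
      unfold EP.nf
      rw [mul_zero, add_zero, add_zero, oc_smul]
      apply oc_congr
      intro j _
      by_cases h1 : j < e.K
      · simp only [h1, if_true]
        split_ifs <;> rfl
      · simp only [h1, if_false, mul_zero]
    rw [h3, Nat.shiftRight_eq_div_pow]
    exact Nat.mul_div_cancel_left _ (by norm_num)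
  unfold EP.trivQ
  change ((e.trivP (e.enc y) ||| e.CM) - (e.trivP (e.enc y) &&& e.CM)) +
    (((e.trivP (e.enc y) &&& e.CM) + e.F1 &&& e.HC) -
      ((e.trivP (e.enc y) &&& e.CM) + e.F1 &&& e.HC) >>> 5) = _
  rw [hflag5, hflag, hand, hlor, nf_sub e _ _ _ _ _ _ (fun j => hor j) (fun j => le_rfl)
    (Nat.zero_le _), nf_sub e _ _ _ _ _ _ (fun j => by split_ifs <;> omega) (fun j => le_rfl)
    le_rfl, nf_add]
  unfold EP.enc EP.trvQ
  apply ea6_nf_congr
  · intro j hj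
    rw [ea6_cd_of e y j hj, ea6_cd_mk e _ _ _ _ j hj]
    split_ifs with h1
    · rw [h1]
    · rfl
  · intro j _
    rw [ea6_lbe]
  · show _ = msk ∅ + 2 ^ 8 * msk ∅ + 2 ^ 16 * y.ld
    rw [ea6_mske]
    omega

theorem ea6_top (e : EP) (h : e.Ok) (x : DS e.K) (hx : ∀ k, x.dg k ≤ 31) :
    e.enc x / 2 ^ (e.s * (e.K + 8)) = msk x.N₁ + 2 ^ 8 * msk x.N₂ + 2 ^ 16 * x.ld := by
  have hp := ea6_pow e h
  unfold EP.enc EP.nf
  apply oc_top
  intro j _
  split_ifs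
  · have := ea6_cd_le e x hx j
    omega
  · exact ea6_lb_lt e h _ _ _

theorem ea6_dig (e : EP) (h : e.Ok) (x : DS e.K) (hx : ∀ k, x.dg k ≤ 31) (k : Fin e.K) :
    e.enc x / 2 ^ (e.s * k) % 2 ^ e.s = x.dg k := by
  have hp := ea6_pow e h
  unfold EP.enc EP.nf
  rw [oc_digit]
  · rw [if_pos k.isLt, ea6_cd_of e x k k.isLt]
  · intro j _
    split_ifs
    · have := ea6_cd_le e x hx j
      omega
    · exact ea6_lb_lt e h _ _ _
  · have := k.isLt
    omega

theorem enc_inj (e : EP) (h : e.Ok) (x y : DS e.K) (hx : ∀ k, x.dg k ≤ 31) (hy : ∀ k, y.dg k ≤ 31)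
    (hxy : e.enc x = e.enc y) : x = y := by
  have h1 := ea6_top e h x hx
  rw [hxy, ea6_top e h y hy] at h1
  have a1 := msk_lt x.N₁
  have a2 := msk_lt x.N₂
  have b1 := msk_lt y.N₁
  have b2 := msk_lt y.N₂
  have c1 : msk x.N₁ = msk y.N₁ := by omega
  have c2 : msk x.N₂ = msk y.N₂ := by omega
  have c3 : x.ld = y.ld := by omega
  ext1
  · funext k
    rw [← ea6_dig e h x hx k, ← ea6_dig e h y hy k, hxy]
  · exact msk_inj _ _ c1
  · exact msk_inj _ _ c2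
  · exact c3

/-- fields are small -/
theorem enc_lt (e : EP) (h : e.Ok) (x : DS e.K) (hx : e.OkD x) :
    e.enc x < 2 ^ e.W - 1 := by
  have hW : e.W = e.s * (e.K + 11) := rfl
  have hs := h.hs
  have h1 : e.enc x < 2 ^ (e.s * (e.K + 8)) * 2 ^ (16 + e.s) := by
    rw [mul_comm, ← Nat.div_lt_iff_lt_mul (by positivity), ea6_top e h x hx.1]
    have a1 := msk_lt x.N₁
    have a2 := msk_lt x.N₂
    have a3 := hx.2
    rw [pow_add]
    omega
  have h2 : 2 ^ (e.s * (e.K + 8)) * 2 ^ (16 + e.s) * 2 ≤ 2 ^ e.W := by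
    rw [← pow_add, ← pow_succ, hW]
    apply Nat.pow_le_pow_right (by norm_num)
    nlinarith
  have h3 : 2 ≤ 2 ^ (e.s * (e.K + 8)) * 2 ^ (16 + e.s) := by
    have h4 : 1 ≤ 2 ^ (e.s * (e.K + 8)) := Nat.one_le_two_pow
    have h5 : 2 ^ 1 ≤ 2 ^ (16 + e.s) := Nat.pow_le_pow_right (by norm_num) (by omega)
    nlinarith
  omega

end Pool.Agent.MP_528dc0_co

end

section

/-!
# From digit states to states: definitions

`pdig X`, `qdig X` = the digits of a set of colours in the roles root and child; `e.aP a`, `e.aQ a` = the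
digit states of the state `a`; `e.R1 D a` etc. = the items of `D` which are packed states; the static
lists of the engine.
-/

open Finset

namespace Pool.Agent.MP_528dc0_co

open Eng (Lst It)

noncomputable section

/-- the code of a set of colours -/
def code (X : Finset (Fin 4)) : ℕ := ∑ c ∈ X, 2 ^ c.val
/-- the digit of a root: bit `c` is set iff the colour `c` is not available, and bit 4; `31` = dead -/
def pdig (X : Finset (Fin 4)) : ℕ := 31 - code X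
/-- the digit of a child; `31` = dead -/
def qdig (X : Finset (Fin 4)) : ℕ := if X = ∅ then 31 else code X

namespace EP

/-- digit state in the role root -/
def aP (e : EP) (a : AS e.K) : DS e.K := ⟨fun k => pdig (a.A k), a.N₁, a.N₂, a.ld⟩
/-- digit state in the role child -/
def aQ (e : EP) (a : AS e.K) : DS e.K := ⟨fun k => qdig (a.A k), a.N₁, a.N₂, a.ld⟩
/-- the pair underlying three members of a `K₄` -/
def prj (e : EP) (v : AS3 e.K) : AS e.K := ⟨v.A, v.N₁, v.N₂, v.ld⟩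

def R1 (e : EP) (D : List It) (a : AS e.K) : Prop := ∃ w, It.r1 (e.enc (e.aQ a)) w ∈ D
def R2 (e : EP) (D : List It) (a : AS e.K) : Prop :=
  ∃ w, It.r2 (e.enc (e.aP a)) (e.enc (e.aQ a)) w ∈ D
def R3 (e : EP) (D : List It) (a : AS e.K) : Prop :=
  ∃ w, It.r3 (e.enc (e.aP a)) (e.enc (e.aQ a)) w ∈ D
def RT (e : EP) (D : List It) (a : AS e.K) : Prop := ∃ w, It.t2 (e.enc (e.aQ a)) w ∈ D
def RU2 (e : EP) (D : List It) (a : AS e.K) : Prop := ∃ w, It.u2 (e.enc (e.aQ a)) w ∈ D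
def RU3 (e : EP) (D : List It) (a : AS e.K) : Prop := ∃ w, It.u3 (e.enc (e.aQ a)) w ∈ D
def RU4 (e : EP) (D : List It) (a : AS e.K) : Prop := ∃ w, It.u4 (e.enc (e.aQ a)) w ∈ D
def RV2 (e : EP) (D : List It) (a : AS e.K) : Prop := ∃ w, It.v2 (e.enc (e.aQ a)) w ∈ D
def RV3 (e : EP) (D : List It) (v : AS3 e.K) : Prop :=
  ∃ w, It.v3 (e.enc (e.aQ (e.prj v))) (msk v.N₃) w ∈ D

/-- field of the label `v` -/
def yv (e : EP) (v : ℕ) : ℕ := Eng.yv e.s e.K e.sJ e.l0 e.lam e.h e.codes v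
/-- the fields of the labels which occur -/
def ys (e : EP) : List ℕ :=
  Bool.rec (motive := fun _ => List ℕ) [e.yv 0, e.yv 1, e.yv 2, e.yv 3, e.yv 4, e.yv 5]
    [e.yv 0, e.yv 1, e.yv 2, e.yv 3, e.yv 4, e.yv 5, e.yv 6, e.yv 7] (Nat.beq e.kf 1)
/-- the base states with one, two, three labels, with the labels which may be added -/
def P1 (e : EP) : List (ℕ × List ℕ) := e.exts [(e.S16, e.ys)]
def P2 (e : EP) : List (ℕ × List ℕ) := e.exts e.P1
def P3 (e : EP) : List (ℕ × List ℕ) := e.exts e.P2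
def G3 (e : EP) : List (ℕ × ℕ) := e.filt e.c3 e.P1
def G2 (e : EP) : List (ℕ × ℕ) := e.filt e.c2 e.P2
def G1 (e : EP) : List (ℕ × ℕ) := e.filt e.c1 e.P3
/-- the check for bases with four labels -/
def z4 (e : EP) : List (ℕ × List ℕ) → Bool := Eng.z4 e.pl e.sJ e.l0 e.C e.mS e.CM e.HC e.ET e.PT
/-- the initial worklist -/
def st0 (e : EP) : List It :=
  Eng.mapIt (fun p w => It.r3 p (e.toQ p) w) e.G3 (Eng.mapIt (fun p w => It.r2 p (e.toQ p) w) e.G2
    (Eng.mapIt (fun p w => It.r1 (e.toQ p) w) e.G1 []))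
/-- entries of the static lists -/
def b1 (e : EP) : List (ℕ × ℕ) := (e.G1.map (fun a => (a.1, a.1 >>> e.l0))).reverse
def b2 (e : EP) : List (ℕ × ℕ) := (e.G2.map (fun a => (a.1, a.1 >>> e.l0))).reverse
def b3 (e : EP) : List ℕ := e.G3.map Prod.fst

/-- the entries of the bases and the corresponding items -/
structure Bas (e : EP) (b1 b2 : List (ℕ × ℕ)) (b3 : List ℕ) (D : List It) : Prop where
  z4 : ∀ N ⊆ e.par.Lab, N.card = 4 → ¬ e.par.ex1 N →
    e.par.bw N ≤ 4 * e.par.lam + e.par.tau * eH e.par.H N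
  b1 : ∀ N ⊆ e.par.Lab, N.card = 3 → ¬ e.par.ex1 N →
    3 * e.par.lam + e.par.tau * eH e.par.H N + e.par.c1 < e.par.bw N →
    (e.enc (e.aP (e.par.bs N)), (e.par.bs N).ld) ∈ b1 ∧ e.R1 D (e.par.bs N)
  b2 : ∀ N ⊆ e.par.Lab, N.card = 2 → ¬ e.par.ex1 N →
    2 * e.par.lam + e.par.tau * eH e.par.H N + e.par.c2 < e.par.bw N →
    (e.enc (e.aP (e.par.bs N)), (e.par.bs N).ld) ∈ b2 ∧ e.R2 D (e.par.bs N)
  b3 : ∀ N ⊆ e.par.Lab, N.card = 1 → ¬ e.par.ex1 N →
    e.par.lam + e.par.tau * eH e.par.H N + e.par.c3 < e.par.bw N →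
    e.enc (e.aP (e.par.bs N)) ∈ b3 ∧ e.R3 D (e.par.bs N)

end EP

end

end Pool.Agent.MP_528dc0_co

end

section

open Finset

namespace Pool.Agent.MP_528dc0_co

open Eng (Lst It)

/-- All by `decide` over `Finset (Fin 4)` (after unfolding `cmp`, `sb`, `code`), or by `revert; decide`. -/
theorem code_le (X : Finset (Fin 4)) : code X ≤ 15 := by
  revert X; decide +kernel
theorem pdig_bd (X : Finset (Fin 4)) : 16 ≤ pdig X ∧ pdig X ≤ 31 := by
  revert X; decide +kernel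
theorem qdig_bd (X : Finset (Fin 4)) : qdig X ≤ 15 ∨ qdig X = 31 := by
  revert X; decide +kernel
theorem qdig_31 (X : Finset (Fin 4)) : qdig X = 31 ↔ X = ∅ := by
  revert X; decide +kernel
theorem pdig_31 (X : Finset (Fin 4)) : pdig X = 31 ↔ X = ∅ := by
  revert X; decide +kernel
theorem dig_cmp (P Q : Finset (Fin 4)) : pdig P &&& qdig Q = 0 ↔ cmp P Q := by
  revert P Q; unfold cmp; decide +kernel
theorem dig_cmp' (P Q : Finset (Fin 4)) : qdig Q &&& pdig P = 0 ↔ cmp P Q := by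
  revert P Q; unfold cmp; decide +kernel
theorem dig_sbP (P Q : Finset (Fin 4)) (h : cmp P Q) : pdig P ||| qdig Q = pdig (P \ Q) := by
  revert P Q; unfold cmp; decide +kernel
theorem dig_sbQ (P Q : Finset (Fin 4)) (h : cmp P Q) (h' : P \ Q ≠ ∅) :
    31 - (pdig P ||| qdig Q) = qdig (P \ Q) := by
  revert P Q; unfold cmp; decide +kernel
theorem ed1_sb (Q : Finset (Fin 4)) : sb univ Q = if Q = ∅ then ∅ else univ \ Q := by
  unfold sb
  by_cases h : Q = ∅
  · rw [if_pos h, if_neg]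
    intro hc
    exact (Finset.nonempty_iff_ne_empty.1 hc.1) h
  · rw [if_neg h, if_pos]
    exact ⟨Finset.nonempty_iff_ne_empty.2 h, Finset.subset_univ _⟩
theorem dig_trvP (Q : Finset (Fin 4)) : qdig Q ||| 16 = pdig (sb univ Q) := by
  rw [ed1_sb]; revert Q; decide +kernel
theorem dig_trvQ (Q : Finset (Fin 4)) :
    (if qdig Q ||| 16 = 31 then 31 else 31 - (qdig Q ||| 16)) = qdig (sb univ Q) := by
  rw [ed1_sb]; revert Q; decide +kernel
/-- adding the colour `c` to the used colours `I` -/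
theorem dig_add (I : Finset (Fin 4)) (c : Fin 4) :
    (pdig (univ \ I) &&& 2 ^ c.val = 0 ↔ c ∉ I) ∧
    (c ∉ I → pdig (univ \ I) ||| 2 ^ c.val = pdig (univ \ insert c I)) ∧ 31 &&& 2 ^ c.val ≠ 0 := by
  revert I c; decide +kernel
theorem dig_pq (X : Finset (Fin 4)) :
    31 - pdig X + (if pdig X = 31 then 31 else 0) = qdig X := by
  revert X; decide +kernel

end Pool.Agent.MP_528dc0_co

end

section

open Finset

namespace Pool.Agent.MP_528dc0_co

open Eng (Lst It)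

theorem minN_eq (a b : ℕ) : Eng.minN a b = min a b := by
  show a - (a - b) = min a b
  omega
theorem par_c1 (e : EP) : e.par.c1 = e.c1 := by
  rfl
theorem par_c2 (e : EP) : e.par.c2 = e.c2 := by
  show min (6 * e.lam) (4 * e.lam + e.tau) = Eng.minN (6 * e.lam) (4 * e.lam + e.tau)
  rw [minN_eq]
theorem par_c3 (e : EP) (h : e.Ok) : e.par.c3 = e.c3 := by
  have hc2 := par_c2 e
  have h1 : e.par.c3 = if decide (e.kf = 1) = true then min (e.par.c2 + 3 * e.lam) (7 * e.lam + e.tau)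
    else min (min (e.par.c2 + 3 * e.lam) (7 * e.lam + e.tau)) (3 * e.lam + 4 * e.tau) := rfl
  have h2 : e.c3 = e.kf * Eng.minN (e.c2 + 3 * e.lam) (7 * e.lam + e.tau) +
      (1 - e.kf) * Eng.minN (Eng.minN (e.c2 + 3 * e.lam) (7 * e.lam + e.tau))
        (3 * e.lam + 4 * e.tau) := rfl
  rw [h1, h2, hc2, minN_eq, minN_eq]
  have hkf := h.hkf
  have h3 : e.kf = 0 ∨ e.kf = 1 := by omega
  rcases h3 with h3 | h3
  · rw [h3]
    simp
  · rw [h3]
    simp
theorem aP_dg (e : EP) (x : AS e.K) : e.Pd (e.aP x) := by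
  exact fun k => pdig_bd (x.A k)
theorem aQ_dg (e : EP) (x : AS e.K) : e.Qd (e.aQ x) := by
  exact fun k => qdig_bd (x.A k)
theorem wt_PQ (e : EP) (x y : AS e.K) : e.par.wt x.A y.A = e.wtD (e.aP x) (e.aQ y) := by
  classical
  show (∑ k, if cmp (x.A k) (y.A k) then e.w k else 0) =
    ∑ k, if pdig (x.A k) &&& qdig (y.A k) = 0 then e.w k else 0
  refine Finset.sum_congr rfl fun k _ => ?_
  by_cases h : cmp (x.A k) (y.A k)
  · rw [if_pos h, if_pos ((dig_cmp _ _).2 h)]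
  · rw [if_neg h, if_neg (fun h' => h ((dig_cmp _ _).1 h'))]
theorem wt_QP (e : EP) (x y : AS e.K) : e.par.wt x.A y.A = e.wtD (e.aQ y) (e.aP x) := by
  classical
  show (∑ k, if cmp (x.A k) (y.A k) then e.w k else 0) =
    ∑ k, if qdig (y.A k) &&& pdig (x.A k) = 0 then e.w k else 0
  refine Finset.sum_congr rfl fun k _ => ?_
  by_cases h : cmp (x.A k) (y.A k)
  · rw [if_pos h, if_pos ((dig_cmp' _ _).2 h)]
  · rw [if_neg h, if_neg (fun h' => h ((dig_cmp' _ _).1 h'))]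
theorem ed2_eq (r : ℕ) (X Y : Finset (Fin 4)) (hx : X = ∅ ∨ X.card = r) (hy : Y = ∅ ∨ Y.card = r)
    (h : cmp X Y) : X = Y := by
  obtain ⟨h1, h2⟩ := h
  have hX : X ≠ ∅ := by
    rintro rfl
    obtain ⟨a, ha⟩ := h1
    exact absurd (h2 ha) (Finset.notMem_empty a)
  have hY : Y ≠ ∅ := h1.ne_empty
  have e1 : X.card = r := hx.resolve_left hX
  have e2 : Y.card = r := hy.resolve_left hY
  exact (Finset.eq_of_subset_of_card_le h2 (by rw [e1, e2])).symm

theorem ed2_comm (r : ℕ) (X Y : Finset (Fin 4)) (hx : X = ∅ ∨ X.card = r)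
    (hy : Y = ∅ ∨ Y.card = r) (h : cmp X Y) : cmp Y X := by
  have h1 := ed2_eq r X Y hx hy h
  subst h1
  exact h

theorem ed2_le {K : ℕ} (w : Fin K → ℕ) (p q : Fin K → Prop) [DecidablePred p] [DecidablePred q]
    (h : ∀ k, p k → q k) : (∑ k, if p k then w k else 0) ≤ ∑ k, if q k then w k else 0 := by
  refine Finset.sum_le_sum fun k _ => ?_
  by_cases hp : p k
  · rw [if_pos hp, if_pos (h k hp)]
  · rw [if_neg hp]
    exact Nat.zero_le _

/-- equal cardinalities: `cmp` is equality of non-empty sets -/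
theorem wt_comm (e : EP) (r : ℕ) (x y : AS e.K) (hx : ∀ k, x.A k = ∅ ∨ (x.A k).card = r)
    (hy : ∀ k, y.A k = ∅ ∨ (y.A k).card = r) : e.par.wt x.A y.A = e.par.wt y.A x.A := by
  classical
  show (∑ k, if cmp (x.A k) (y.A k) then e.w k else 0) =
    ∑ k, if cmp (y.A k) (x.A k) then e.w k else 0
  refine Finset.sum_congr rfl fun k _ => ?_
  by_cases h : cmp (x.A k) (y.A k)
  · rw [if_pos h, if_pos (ed2_comm r _ _ (hx k) (hy k) h)]
  · rw [if_neg h, if_neg (fun h' => h (ed2_comm r _ _ (hy k) (hx k) h'))]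
theorem kp_comm (r : ℕ) (X Y : Finset (Fin 4)) (hx : X = ∅ ∨ X.card = r) (hy : Y = ∅ ∨ Y.card = r) :
    kp X Y = kp Y X := by
  classical
  unfold kp
  by_cases h : cmp X Y
  · have h1 := ed2_eq r X Y hx hy h
    subst h1
    rfl
  · rw [if_neg h, if_neg (fun h' => h (ed2_comm r _ _ hy hx h'))]
theorem aw_eq (e : EP) (y : AS e.K) : e.par.aw y.A = e.alvQ (e.aQ y) := by
  classical
  show (∑ k, if (y.A k).Nonempty then e.w k else 0) = ∑ k, if qdig (y.A k) ≠ 31 then e.w k else 0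
  refine Finset.sum_congr rfl fun k _ => ?_
  by_cases h : (y.A k).Nonempty
  · rw [if_pos h, if_pos (fun h' => h.ne_empty ((qdig_31 _).1 h'))]
  · rw [if_neg h, if_neg (fun h' => h' ((qdig_31 _).2 (Finset.not_nonempty_iff_eq_empty.1 h)))]
theorem wt_le_child (e : EP) (x y : AS e.K) : e.par.wt x.A y.A ≤ e.alvQ (e.aQ y) := by
  classical
  show (∑ k, if cmp (x.A k) (y.A k) then e.w k else 0) ≤
    ∑ k, if qdig (y.A k) ≠ 31 then e.w k else 0
  exact ed2_le e.w (fun k => cmp (x.A k) (y.A k)) (fun k => qdig (y.A k) ≠ 31)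
    (fun k hk h31 => hk.1.ne_empty ((qdig_31 _).1 h31))
/-- if `x` and `y` are compatible then `x.A k` is not empty -/
theorem wt_le_root (e : EP) (x y : AS e.K) : e.par.wt x.A y.A ≤ e.alvQ (e.aQ x) := by
  classical
  show (∑ k, if cmp (x.A k) (y.A k) then e.w k else 0) ≤
    ∑ k, if qdig (x.A k) ≠ 31 then e.w k else 0
  exact ed2_le e.w (fun k => cmp (x.A k) (y.A k)) (fun k => qdig (x.A k) ≠ 31)
    (fun k hk h31 => (hk.1.mono hk.2).ne_empty ((qdig_31 _).1 h31))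
theorem ldE_eq (e : EP) (x y : AS e.K) : e.par.ldE x y = e.dE (e.aP x) (e.aQ y) := by
  rfl
theorem ldE_eq' (e : EP) (x y : AS e.K) : e.par.ldE x y = e.dE (e.aQ x) (e.aP y) := by
  rfl
theorem ldC_eq (e : EP) (x t : AS e.K) : e.par.ldC x t = e.dC (e.aP x) (e.aQ t) := by
  rfl

end Pool.Agent.MP_528dc0_co

end
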