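import Mathlib
import Pool.Agent.MP_528dc0_co.Enc

/-!
# The engine: filters and steps
-/

section

open Finset

namespace Pool.Agent.MP_528dc0_co

open Eng (Lst It)

namespace EP

/-- the weight of the lanes of `z` with digit zero -/
noncomputable def wz (e : EP) (z : ℕ) : ℕ :=
  ∑ j ∈ range (e.K + 8), if z / 2 ^ (e.s * j) % 2 ^ e.s = 0 then e.wl j else 0

open Classical in
/-- bit `g` of lane `i` is set iff `v` holds for the `i`-th entry -/
noncomputable def bits (e : EP) (v : ℕ × ℕ → Prop) : List (ℕ × ℕ) → ℕ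
  | [] => 0
  | a :: t => (if v a then 2 ^ e.g else 0) + 2 ^ e.W * bits e v t

end EP

private theorem eb1_succ (s n : ℕ) (f : ℕ → ℕ) :
    oc s f (n + 1) = 2 ^ s * oc s (fun j => f (j + 1)) n + f 0 := by
  unfold oc
  rw [Finset.sum_range_succ', Finset.mul_sum]
  have h0 : f 0 * 2 ^ (s * 0) = f 0 := by simp
  rw [h0]
  congr 1
  apply Finset.sum_congr rfl
  intro j _
  rw [Nat.mul_add, Nat.mul_one, pow_add]
  ring

private theorem eb1_digits (s n z : ℕ) :
    oc s (fun j => z / 2 ^ (s * j) % 2 ^ s) n = z % 2 ^ (s * n) := by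
  induction n with
  | zero => simp [oc, Nat.mod_one]
  | succ n ih =>
    unfold oc at ih ⊢
    rw [Finset.sum_range_succ, ih, Nat.mul_add, Nat.mul_one, pow_add, Nat.mod_mul]
    ring

private theorem eb1_and (a b k s : ℕ) :
    (a &&& b) / 2 ^ k % 2 ^ s = (a / 2 ^ k % 2 ^ s) &&& (b / 2 ^ k % 2 ^ s) := by
  rw [Nat.and_div_two_pow, Nat.and_mod_two_pow]

private theorem eb1_land0 (s n : ℕ) (f g : ℕ → ℕ) (hf : ∀ j < n, f j < 2 ^ s)
    (hg : ∀ j < n, g j < 2 ^ s) : oc s f n &&& oc s g n = oc s (fun j => f j &&& g j) n := by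
  have h := oc_land s n f g 0 0 hf hg
  simpa using h

private theorem eb1_mono (s n : ℕ) (f g : ℕ → ℕ) (h : ∀ j < n, f j ≤ g j) :
    oc s f n ≤ oc s g n := by
  unfold oc
  apply Finset.sum_le_sum
  intro j hj
  exact Nat.mul_le_mul_right _ (h j (Finset.mem_range.1 hj))

private theorem eb1_bit (d : ℕ) (hd : d ≤ 31) : (32 - d) &&& 32 = 32 * (if d = 0 then 1 else 0) := by
  interval_cases d <;> rfl

/-- packed lists: `V = ∑ f_i 2^(W i)`, `LV = ∑ (m0 + ld_i) 2^(pl + W i)`, `ON = ∑ 2^(W i)` -/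
theorem pk_eq (e : EP) (t : List (ℕ × ℕ)) :
    e.pk t = ⟨oc e.W (fun i => (t.getD i (0, 0)).1) t.length,
      oc e.W (fun i => (e.m0 + (t.getD i (0, 0)).2) * 2 ^ e.pl) t.length,
      oc e.W (fun _ => 1) t.length⟩ := by
  induction t with
  | nil => rfl
  | cons a t ih =>
    have h0 : e.pk (a :: t) = e.app (e.pk t) a.1 a.2 := rfl
    rw [h0, ih]
    have h1 : ∀ V LV ON : ℕ, e.app ⟨V, LV, ON⟩ a.1 a.2 =
        ⟨V <<< e.W + a.1, LV <<< e.W + (e.m0 + a.2) <<< e.pl, ON <<< e.W + 1⟩ := fun _ _ _ => rfl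
    rw [h1, List.length_cons]
    rw [eb1_succ, eb1_succ, eb1_succ]
    rw [Nat.shiftLeft_eq, Nat.shiftLeft_eq, Nat.shiftLeft_eq, Nat.shiftLeft_eq]
    simp only [List.getD_cons_succ, List.getD_cons_zero]
    rw [Nat.mul_comm (2 ^ e.W), Nat.mul_comm (2 ^ e.W), Nat.mul_comm (2 ^ e.W)]

/-- **Zero test of the digits, all lanes at once.** `z_i = f_i &&& m`, digits at most 31, `z_i < 2^(s (K + 8))`.
`oc_land`, `oc_sub`, `oc_smul` in base `2^W` (`W = s (K + 11)`): `V &&& (m * ON) = ∑ 2^(W i) (f_i &&& m)`,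
`Hf * ON = ∑ 2^(W i) Hf`, the difference is `∑ 2^(W i) (Hf - z_i)` (`z_i ≤ Hf` digitwise), and
`(Hf - z_i) &&& Hf = ∑_j ((32 - d_ij) &&& 32) 2^(s j)` with `(32 - d) &&& 32 = 32` iff `d = 0`, else `0` (`d ≤ 31`)
(`Hf_eq`, `oc_land`, `oc_sub` in base `2^s`). -/
theorem zero_lanes (e : EP) (h : e.Ok) (n m : ℕ) (f : ℕ → ℕ) (hf : ∀ i < n, f i < 2 ^ e.W)
    (hm : ∀ j < e.K + 8, m / 2 ^ (e.s * j) % 2 ^ e.s ≤ 31) (hm' : m < 2 ^ (e.s * (e.K + 8))) :
    Nat.land (Nat.sub (Nat.mul e.Hf (oc e.W (fun _ => 1) n))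
      (Nat.land (oc e.W f n) (Nat.mul m (oc e.W (fun _ => 1) n)))) (Nat.mul e.Hf (oc e.W (fun _ => 1) n)) =
    oc e.W (fun i => 32 * oc e.s (fun j => if (f i &&& m) / 2 ^ (e.s * j) % 2 ^ e.s = 0 then 1 else 0)
      (e.K + 8)) n := by
  have hs := h.hs
  have hsp : 32 < 2 ^ e.s := by
    calc 32 < 2 ^ 9 := by norm_num
      _ ≤ 2 ^ e.s := Nat.pow_le_pow_right (by norm_num) hs
  have hW : e.W = e.s * (e.K + 11) := rfl
  have hle : 2 ^ (e.s * (e.K + 8)) ≤ 2 ^ e.W := by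
    rw [hW]
    exact Nat.pow_le_pow_right (by norm_num) (Nat.mul_le_mul_left _ (by omega))
  have hHf := Hf_eq e h
  have hHlt : e.Hf < 2 ^ (e.s * (e.K + 8)) := by
    rw [hHf]
    exact oc_lt _ _ _ fun _ _ => hsp
  have hmW : m < 2 ^ e.W := lt_of_lt_of_le hm' hle
  have hz : ∀ i, (f i &&& m) < 2 ^ (e.s * (e.K + 8)) := fun i =>
    lt_of_le_of_lt Nat.and_le_right hm'
  have hd : ∀ i, ∀ j < e.K + 8, (f i &&& m) / 2 ^ (e.s * j) % 2 ^ e.s ≤ 31 := by
    intro i j hj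
    rw [eb1_and]
    exact le_trans Nat.and_le_right (hm j hj)
  have hzoc : ∀ i, (f i &&& m) = oc e.s (fun j => (f i &&& m) / 2 ^ (e.s * j) % 2 ^ e.s) (e.K + 8) := by
    intro i
    rw [eb1_digits, Nat.mod_eq_of_lt (hz i)]
  have hzle : ∀ i, (f i &&& m) ≤ e.Hf := by
    intro i
    rw [hzoc i, hHf]
    apply eb1_mono
    intro j hj
    exact le_trans (hd i j hj) (by norm_num)
  have e1 : Nat.mul m (oc e.W (fun _ => 1) n) = oc e.W (fun _ => m) n := by
    have h0 : Nat.mul m (oc e.W (fun _ => 1) n) = m * oc e.W (fun _ => 1) n := rfl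
    rw [h0, oc_smul]
    exact oc_congr _ _ _ _ fun j _ => Nat.mul_one m
  have e2 : Nat.mul e.Hf (oc e.W (fun _ => 1) n) = oc e.W (fun _ => e.Hf) n := by
    have h0 : Nat.mul e.Hf (oc e.W (fun _ => 1) n) = e.Hf * oc e.W (fun _ => 1) n := rfl
    rw [h0, oc_smul]
    exact oc_congr _ _ _ _ fun j _ => Nat.mul_one e.Hf
  rw [e1, e2]
  have e3 : Nat.land (oc e.W f n) (oc e.W (fun _ => m) n) = oc e.W (fun j => f j &&& m) n :=
    eb1_land0 e.W n f (fun _ => m) hf (fun _ _ => hmW)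
  rw [e3]
  have e4 : Nat.sub (oc e.W (fun _ => e.Hf) n) (oc e.W (fun j => f j &&& m) n)
      = oc e.W (fun j => e.Hf - (f j &&& m)) n :=
    oc_sub e.W n (fun _ => e.Hf) (fun j => f j &&& m) fun j _ => hzle j
  rw [e4]
  have e5 : Nat.land (oc e.W (fun j => e.Hf - (f j &&& m)) n) (oc e.W (fun _ => e.Hf) n)
      = oc e.W (fun j => (e.Hf - (f j &&& m)) &&& e.Hf) n :=
    eb1_land0 e.W n (fun j => e.Hf - (f j &&& m)) (fun _ => e.Hf)
      (fun j _ => lt_of_le_of_lt (Nat.sub_le _ _) (lt_of_lt_of_le hHlt hle))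
      (fun _ _ => lt_of_lt_of_le hHlt hle)
  rw [e5]
  apply oc_congr
  intro i _
  have e6 : e.Hf - (f i &&& m) =
      oc e.s (fun j => 32 - (f i &&& m) / 2 ^ (e.s * j) % 2 ^ e.s) (e.K + 8) := by
    have h1 := oc_sub e.s (e.K + 8) (fun _ => 32)
      (fun j => (f i &&& m) / 2 ^ (e.s * j) % 2 ^ e.s)
      (fun j hj => le_trans (hd i j hj) (by norm_num))
    rw [← hHf, ← hzoc i] at h1
    exact h1
  rw [e6]
  have e7 : oc e.s (fun j => 32 - (f i &&& m) / 2 ^ (e.s * j) % 2 ^ e.s) (e.K + 8) &&& e.Hf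
      = oc e.s (fun j => (32 - (f i &&& m) / 2 ^ (e.s * j) % 2 ^ e.s) &&& 32) (e.K + 8) := by
    rw [hHf]
    exact eb1_land0 _ _ _ _ (fun j _ => lt_of_le_of_lt (Nat.sub_le _ _) hsp) (fun _ _ => hsp)
  rw [e7]
  show _ = 32 * oc e.s _ (e.K + 8)
  rw [oc_smul]
  apply oc_congr
  intro j hj
  exact eb1_bit _ (hd i j hj)

end Pool.Agent.MP_528dc0_co

end

section

open Finset

namespace Pool.Agent.MP_528dc0_co

open Eng (Lst It)

theorem eb1b_block (L : ℕ) (F : ℕ → ℕ) (n : ℕ) :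
    ∑ Q ∈ range (n * L), F Q = ∑ i ∈ range n, ∑ r ∈ range L, F (i * L + r) := by
  induction n with
  | zero => simp
  | succ n ih =>
    rw [Nat.succ_mul, Finset.sum_range_add, ih, Finset.sum_range_succ]

theorem eb1b_mul (s m J : ℕ) (x c : ℕ → ℕ) (hx : ∀ k, m ≤ k → x k = 0) :
    oc s x m * oc s c J =
      oc s (fun Q => ∑ q ∈ range J, if q ≤ Q then x (Q - q) * c q else 0) (m + J) := by
  unfold oc
  rw [Finset.sum_mul_sum, Finset.sum_comm]
  have h1 : ∀ Q, (∑ q ∈ range J, if q ≤ Q then x (Q - q) * c q else 0) * 2 ^ (s * Q) =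
      ∑ q ∈ range J, (if q ≤ Q then x (Q - q) * c q else 0) * 2 ^ (s * Q) := fun Q =>
    Finset.sum_mul _ _ _
  have hR : ∑ Q ∈ range (m + J), (∑ q ∈ range J, if q ≤ Q then x (Q - q) * c q else 0) * 2 ^ (s * Q) =
      ∑ q ∈ range J, ∑ Q ∈ range (m + J), (if q ≤ Q then x (Q - q) * c q else 0) * 2 ^ (s * Q) := by
    rw [Finset.sum_congr rfl fun Q _ => h1 Q, Finset.sum_comm]
  rw [hR]
  refine Finset.sum_congr rfl fun q hq => ?_
  have hq' := Finset.mem_range.1 hq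
  have h2 : m + J = q + (m + (J - q)) := by omega
  rw [h2, Finset.sum_range_add, Finset.sum_range_add (n := m)]
  have h3 : ∑ Q ∈ range q, (if q ≤ Q then x (Q - q) * c q else 0) * 2 ^ (s * Q) = 0 := by
    apply Finset.sum_eq_zero
    intro Q hQ
    have := Finset.mem_range.1 hQ
    rw [if_neg (by omega), zero_mul]
  have h4 : ∑ r ∈ range (J - q), (if q ≤ q + (m + r) then x (q + (m + r) - q) * c q else 0) *
      2 ^ (s * (q + (m + r))) = 0 := by
    apply Finset.sum_eq_zero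
    intro r _
    rw [if_pos (by omega), hx _ (by omega), zero_mul, zero_mul]
  rw [h3, h4, zero_add, add_zero]
  refine Finset.sum_congr rfl fun k _ => ?_
  have h5 : q + k - q = k := by omega
  rw [if_pos (by omega), h5, mul_add, pow_add]
  ring

/-- **Weights of all lanes by one multiplication.**

Proof. Put `L = K + 11`, `J = K + 8` (`W = s L`, `pl = s (J - 1) + 5`), `C = ∑_{q<J} wl (J-1-q) 2^(s q)` (`C_eq`). The number
`X = ∑_{i<n} ∑_{j<J} b i j 2^(s (i L + j))` satisfies `X * C = oc s y (n L + J)` with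
`y Q = ∑_{i<n} ∑_{j<J} ∑_{q<J} if i L + j + q = Q then b i j * wl (J-1-q) else 0` (every exponent `i L + j + q` is
`< n L + J` because `j + q ≤ 2 J - 2 < L + J`). For given `Q` and `q` there is at most one pair `(i, j)` with `i L + j = Q - q`, as
`j < J < L`; hence `y Q ≤ ∑_q wl (J-1-q) = M + 8 tau < 2^s` (`wl_sum`). The mask:
`LMf * ON = 32 * oc s z (n L + J)` with `z Q = 2^s - 1` if `Q = i L + J - 1` for an `i < n`, else `0`. So
(`oc_land`; the factor `32` is a shift) the left side is `32 * oc s (fun Q => y Q &&& z Q) (n L + J)`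
`= ∑_i 2^(s (i L + J - 1) + 5) y (i L + J - 1)`. Finally `i' L + j + q = i L + J - 1` with `j + q ≤ 2 J - 2 < L + J - 1`
forces `i' = i` (if `i' < i` then `j + q ≥ L + J - 1`; if `i' > i` then `L ≤ J - 1`), so `q = J - 1 - j` and
`y (i L + J - 1) = ∑_j b i j * wl j`. (Alternatively: induction on `n`.) -/
theorem conv_lanes (e : EP) (h : e.Ok) (n : ℕ) (b : ℕ → ℕ → ℕ) (hb : ∀ i j, b i j ≤ 1) :
    Nat.land (Nat.mul (oc e.W (fun i => 32 * oc e.s (b i) (e.K + 8)) n) e.C)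
      (Nat.mul e.LMf (oc e.W (fun _ => 1) n)) =
    oc e.W (fun i => 2 ^ e.pl * ∑ j ∈ range (e.K + 8), b i j * e.wl j) n := by
  obtain ⟨s, hs⟩ : ∃ s, s = e.s := ⟨_, rfl⟩
  obtain ⟨J, hJ⟩ : ∃ J, J = e.K + 8 := ⟨_, rfl⟩
  obtain ⟨L, hL⟩ : ∃ L, L = e.K + 11 := ⟨_, rfl⟩
  have hJL : J + 3 = L := by omega
  have hJ8 : 8 ≤ J := by omega
  have hW : e.W = s * L := by rw [hs, hL]; rfl
  have hpl : e.pl = s * (J - 1) + 5 := by
    have h1 : J - 1 = e.K + 7 := by omega
    rw [h1, hs]; rfl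
  have hmS : e.mS = 2 ^ s - 1 := by
    rw [hs]
    show Nat.shiftLeft 1 e.s - 1 = _
    have : Nat.shiftLeft 1 e.s = 1 <<< e.s := rfl
    rw [this, Nat.shiftLeft_eq, one_mul]
  have hLM : e.LMf = (2 ^ s - 1) * 2 ^ (s * (J - 1) + 5) := by
    show e.mS <<< e.pl = _
    rw [Nat.shiftLeft_eq, hmS, hpl]
  have hC : e.C = oc s (fun q => e.wl (J - 1 - q)) J := by
    rw [C_eq e h, hs, hJ]
    rfl
  have hy2 : ∑ q ∈ range J, e.wl (J - 1 - q) < 2 ^ s := by
    rw [Finset.sum_range_reflect, hJ, wl_sum, hs]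
    have := h.hM
    omega
  -- the digits of the packed list
  obtain ⟨x, hx⟩ : ∃ x : ℕ → ℕ, ∀ k, x k = if k % L < J ∧ k / L < n then b (k / L) (k % L) else 0 :=
    ⟨_, fun _ => rfl⟩
  have hx1 : ∀ k, x k ≤ 1 := by
    intro k
    rw [hx]
    split_ifs
    · exact hb _ _
    · exact Nat.zero_le _
  have hx0 : ∀ k, n * L ≤ k → x k = 0 := by
    intro k hk
    rw [hx, if_neg]
    rintro ⟨_, h2⟩
    rw [Nat.div_lt_iff_lt_mul (by omega)] at h2
    omega
  have hxb : ∀ i r, i < n → r < J → x (i * L + r) = b i r := by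
    intro i r hi hr
    have e1 : (i * L + r) % L = r := by
      rw [Nat.mul_comm, Nat.mul_add_mod]
      exact Nat.mod_eq_of_lt (by omega)
    have e2 : (i * L + r) / L = i := by
      rw [Nat.mul_comm, Nat.mul_add_div (by omega), Nat.div_eq_of_lt (by omega), Nat.add_zero]
    rw [hx, e1, e2, if_pos ⟨hr, hi⟩]
  have hxz : ∀ i r, J ≤ r → r < L → x (i * L + r) = 0 := by
    intro i r hr1 hr2
    have e1 : (i * L + r) % L = r := by
      rw [Nat.mul_comm, Nat.mul_add_mod]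
      exact Nat.mod_eq_of_lt (by omega)
    rw [hx, e1, if_neg (by omega)]
  have hX : oc e.W (fun i => 32 * oc e.s (b i) (e.K + 8)) n = 32 * oc s x (n * L) := by
    rw [← hs, ← hJ, hW]
    unfold oc
    rw [eb1b_block, Finset.mul_sum]
    refine Finset.sum_congr rfl fun i hi => ?_
    have hi' := Finset.mem_range.1 hi
    rw [← hJL, Finset.sum_range_add, hJL]
    have e1 : ∑ r ∈ range 3, x (i * L + (J + r)) * 2 ^ (s * (i * L + (J + r))) = 0 := by
      apply Finset.sum_eq_zero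
      intro r hr
      have := Finset.mem_range.1 hr
      rw [hxz i (J + r) (by omega) (by omega), zero_mul]
    rw [e1, add_zero, mul_assoc, Finset.sum_mul]
    congr 1
    refine Finset.sum_congr rfl fun r hr => ?_
    rw [hxb i r hi' (Finset.mem_range.1 hr), mul_assoc, ← pow_add]
    congr 2
    ring
  obtain ⟨y, hy⟩ : ∃ y : ℕ → ℕ, ∀ Q, y Q = ∑ q ∈ range J, if q ≤ Q then x (Q - q) * e.wl (J - 1 - q) else 0 :=
    ⟨_, fun _ => rfl⟩
  have hylt : ∀ Q, y Q < 2 ^ s := by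
    intro Q
    rw [hy]
    refine lt_of_le_of_lt (Finset.sum_le_sum fun q _ => ?_) hy2
    split_ifs
    · calc x (Q - q) * e.wl (J - 1 - q) ≤ 1 * e.wl (J - 1 - q) := Nat.mul_le_mul_right _ (hx1 _)
        _ = _ := one_mul _
    · exact Nat.zero_le _
  have hXC : oc s x (n * L) * oc s (fun q => e.wl (J - 1 - q)) J = oc s y (n * L + J) := by
    rw [eb1b_mul s (n * L) J x _ hx0]
    apply oc_congr
    intro Q _
    rw [hy]
  obtain ⟨z, hz⟩ : ∃ z : ℕ → ℕ, ∀ Q, z Q = if Q % L = J - 1 ∧ Q / L < n then 2 ^ s - 1 else 0 :=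
    ⟨_, fun _ => rfl⟩
  have hs0 : 0 < 2 ^ s := by positivity
  have hzlt : ∀ Q, z Q < 2 ^ s := by
    intro Q
    rw [hz]
    split_ifs <;> omega
  -- sums over marked digits
  have hmark : ∀ F : ℕ → ℕ, ∑ Q ∈ range (n * L + J), (if Q % L = J - 1 ∧ Q / L < n then F Q else 0) =
      ∑ i ∈ range n, F (i * L + (J - 1)) := by
    intro F
    rw [Finset.sum_range_add, eb1b_block]
    have e1 : ∑ r ∈ range J, (if (n * L + r) % L = J - 1 ∧ (n * L + r) / L < n then F (n * L + r) else 0) = 0 := by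
      apply Finset.sum_eq_zero
      intro r _
      rw [if_neg]
      rintro ⟨_, h2⟩
      rw [Nat.div_lt_iff_lt_mul (by omega)] at h2
      omega
    rw [e1, add_zero]
    refine Finset.sum_congr rfl fun i hi => ?_
    have hi' := Finset.mem_range.1 hi
    rw [Finset.sum_eq_single (J - 1)]
    · rw [if_pos]
      constructor
      · rw [Nat.mul_comm, Nat.mul_add_mod]
        exact Nat.mod_eq_of_lt (by omega)
      · rw [Nat.mul_comm, Nat.mul_add_div (by omega), Nat.div_eq_of_lt (by omega), Nat.add_zero]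
        exact hi'
    · intro r hr hne
      have := Finset.mem_range.1 hr
      rw [if_neg]
      rintro ⟨h2, _⟩
      rw [Nat.mul_comm, Nat.mul_add_mod, Nat.mod_eq_of_lt this] at h2
      exact hne h2
    · intro h2
      exact absurd (Finset.mem_range.2 (by omega)) h2
  have hMask : e.LMf * oc e.W (fun _ => 1) n = 32 * oc s z (n * L + J) := by
    have e1 : oc s z (n * L + J) = ∑ Q ∈ range (n * L + J),
        (if Q % L = J - 1 ∧ Q / L < n then (2 ^ s - 1) * 2 ^ (s * Q) else 0) := by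
      unfold oc
      refine Finset.sum_congr rfl fun Q _ => ?_
      rw [hz]
      split_ifs
      · rfl
      · rw [zero_mul]
    rw [e1, hmark (fun Q => (2 ^ s - 1) * 2 ^ (s * Q)), hLM, hW]
    unfold oc
    rw [Finset.mul_sum, Finset.mul_sum]
    refine Finset.sum_congr rfl fun i _ => ?_
    have e2 : s * (i * L + (J - 1)) = s * L * i + s * (J - 1) := by ring
    rw [e2, pow_add, pow_add]
    ring
  have hand : (32 * oc s y (n * L + J)) &&& (32 * oc s z (n * L + J)) =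
      32 * oc s (fun Q => y Q &&& z Q) (n * L + J) := by
    have e1 := oc_land s (n * L + J) y z 0 0 (fun j _ => hylt j) (fun j _ => hzlt j)
    rw [mul_zero, add_zero, add_zero, Nat.and_zero, mul_zero, add_zero] at e1
    rw [← e1]
    have e2 : ∀ a : ℕ, 32 * a = a <<< 5 := by
      intro a
      rw [Nat.shiftLeft_eq]
      ring
    rw [e2, e2, e2, ← Nat.shiftLeft_and_distrib]
  show (oc e.W (fun i => 32 * oc e.s (b i) (e.K + 8)) n * e.C) &&& (e.LMf * oc e.W (fun _ => 1) n) = _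
  rw [hX, hC, mul_assoc, hXC, hMask, hand]
  have hfin : oc s (fun Q => y Q &&& z Q) (n * L + J) = ∑ Q ∈ range (n * L + J),
      (if Q % L = J - 1 ∧ Q / L < n then y Q * 2 ^ (s * Q) else 0) := by
    unfold oc
    refine Finset.sum_congr rfl fun Q _ => ?_
    show (y Q &&& z Q) * 2 ^ (s * Q) = _
    rw [hz]
    split_ifs
    · rw [Nat.and_two_pow_sub_one_eq_mod, Nat.mod_eq_of_lt (hylt Q)]
    · rw [Nat.and_zero, zero_mul]
  rw [hfin, hmark (fun Q => y Q * 2 ^ (s * Q)), Finset.mul_sum, hW, hpl, ← hJ]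
  unfold oc
  refine Finset.sum_congr rfl fun i hi => ?_
  have hi' := Finset.mem_range.1 hi
  have hyi : y (i * L + (J - 1)) = ∑ j ∈ range J, b i j * e.wl j := by
    rw [hy, ← Finset.sum_range_reflect]
    refine Finset.sum_congr rfl fun j hj => ?_
    have hj' := Finset.mem_range.1 hj
    have e1 : i * L + (J - 1) - (J - 1 - j) = i * L + j := by omega
    have e2 : J - 1 - (J - 1 - j) = j := by omega
    rw [if_pos (by omega), e1, e2, hxb i j hi' hj']
  show 32 * (y (i * L + (J - 1)) * 2 ^ (s * (i * L + (J - 1)))) = _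
  rw [hyi]
  have e2 : s * (i * L + (J - 1)) = s * L * i + s * (J - 1) := by ring
  rw [e2, pow_add, pow_add]
  ring

end Pool.Agent.MP_528dc0_co

end

section

open Finset

namespace Pool.Agent.MP_528dc0_co

open Eng (Lst It)

theorem eb1c_bits (e : EP) (v : ℕ × ℕ → Prop) (t : List (ℕ × ℕ)) : ∀ f : ℕ → ℕ,
    (∀ i < t.length, v (t.getD i (0, 0)) → f i = 2 ^ e.g) →
    (∀ i < t.length, ¬ v (t.getD i (0, 0)) → f i = 0) →
    oc e.W f t.length = e.bits v t := by
  classical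
  induction t with
  | nil =>
    intro f _ _
    show oc e.W f 0 = 0
    unfold oc
    rw [Finset.range_zero, Finset.sum_empty]
  | cons a t ih =>
    intro f h1 h2
    have hlen : (a :: t).length = 1 + t.length := by
      rw [List.length_cons, Nat.add_comm]
    rw [hlen, oc_split]
    have h3 : oc e.W f 1 = f 0 := by
      unfold oc
      rw [Finset.sum_range_one, Nat.mul_zero, pow_zero, Nat.mul_one]
    have h4 : oc e.W (fun j => f (1 + j)) t.length = e.bits v t := by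
      refine ih (fun j => f (1 + j)) ?_ ?_
      · intro i hi hv
        refine h1 (1 + i) (by rw [hlen]; omega) ?_
        have h5 : (a :: t).getD (1 + i) (0, 0) = t.getD i (0, 0) := by
          rw [Nat.add_comm 1 i, List.getD_cons_succ]
        rw [h5]
        exact hv
      · intro i hi hv
        refine h2 (1 + i) (by rw [hlen]; omega) ?_
        have h5 : (a :: t).getD (1 + i) (0, 0) = t.getD i (0, 0) := by
          rw [Nat.add_comm 1 i, List.getD_cons_succ]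
        rw [h5]
        exact hv
    rw [h3, h4, Nat.mul_one]
    have h0 : (0 : ℕ) < (a :: t).length := by
      rw [hlen]
      omega
    show f 0 + 2 ^ e.W * e.bits v t = (if v a then 2 ^ e.g else 0) + 2 ^ e.W * e.bits v t
    by_cases hv : v a
    · rw [if_pos hv, h1 0 h0 hv]
    · rw [if_neg hv, h2 0 h0 hv]

theorem eb1c_bit (p q D : ℕ) (hD : D < 2 ^ (q + 1)) :
    (2 ^ q ≤ D → (2 ^ p * D &&& 2 ^ (p + q)) ^^^ 2 ^ (p + q) = 0) ∧
    (D < 2 ^ q → (2 ^ p * D &&& 2 ^ (p + q)) ^^^ 2 ^ (p + q) = 2 ^ (p + q)) := by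
  have key : ∀ i, (2 ^ p * D &&& 2 ^ (p + q)).testBit i = (decide (i = p + q) && D.testBit q) := by
    intro i
    rw [Nat.testBit_and, Nat.testBit_two_pow]
    by_cases hi : i = p + q
    · rw [hi, Nat.testBit_two_pow_mul]
      simp
    · have h1 : ¬ (p + q = i) := fun h => hi h.symm
      simp [hi, h1]
  have hmul : ∀ E : Bool, D.testBit q = E →
      (2 ^ p * D &&& 2 ^ (p + q)) = if E then 2 ^ (p + q) else 0 := by
    intro E hE
    refine Nat.eq_of_testBit_eq fun i => ?_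
    rw [key i, hE]
    cases E
    · simp
    · rw [if_pos rfl, Nat.testBit_two_pow]
      by_cases hi : i = p + q
      · simp [hi]
      · have h1 : ¬ (p + q = i) := fun h => hi h.symm
        simp [hi, h1]
  constructor
  · intro hq
    have h1 : D.testBit q = true := by
      have h2 : D / 2 ^ q = 1 := by
        rw [Nat.div_eq_iff (by positivity)]
        rw [pow_succ] at hD
        constructor <;> omega
      rw [Nat.testBit_eq_decide_div_mod_eq, h2]
      rfl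
    rw [hmul true h1, if_pos rfl, Nat.xor_self]
  · intro hq
    have h1 : D.testBit q = false := Nat.testBit_lt_two_pow hq
    rw [hmul false h1]
    simp

/-- **The SIMD test.** `Eng.pas` tests all entries at once.

Proof. `pk_eq`, `zero_lanes`, `conv_lanes` with `b i j = 1` iff digit `j` of `f_i &&& m` is zero: the weights are
`wt_i = wz (f_i &&& m)`. So (`oc_add`, `oc_sub` in base `2^W`) the difference is
`T = ∑_i 2^(W i) 2^pl (m0 + ld_i + k - wt_i)`, where `wt_i ≤ M + 8 tau < 2^s ≤ m0 = 2^(s+2)` and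
`m0 + ld_i + k - wt_i < 2^(s+3)` (`ld_i < 2^s`, `k ≤ 3 * 2^s`). `g = pl + s + 2`: bit `g` of lane `i` is bit `s + 2` of
`m0 + ld_i + k - wt_i`, it is set iff `wt_i ≤ ld_i + k`. `ON << g = ∑_i 2^(W i) 2^g` (`g + 1 ≤ W`), so
`T &&& (ON << g)` has the digit `2^g` or `0` in lane `i` (`oc_land`), and `xor` with `ON << g` (`oc_xor`) exchanges
the two. -/
theorem pas_spec (e : EP) (h : e.Ok) (t : List (ℕ × ℕ))
    (ht : ∀ a ∈ t, a.1 < 2 ^ e.W ∧ a.2 < 2 ^ e.s) (m : ℕ)
    (hm : ∀ j < e.K + 8, m / 2 ^ (e.s * j) % 2 ^ e.s ≤ 31) (hm' : m < 2 ^ (e.s * (e.K + 8)))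
    (k : ℕ) (hk : k ≤ 3 * 2 ^ e.s) :
    e.pas (e.pk t) m k = e.bits (fun a => a.2 + k < e.wz (a.1 &&& m)) t := by
  have hs := h.hs
  have hW : e.W = e.s * (e.K + 11) := rfl
  have hpl : e.pl = e.s * (e.K + 7) + 5 := rfl
  have hg : e.g = e.s * (e.K + 8) + 7 := rfl
  have hg' : e.g = e.pl + (e.s + 2) := by
    rw [hg, hpl]
    ring
  have hm0 : e.m0 = 2 ^ (e.s + 2) := by
    show 1 <<< (e.s + 2) = 2 ^ (e.s + 2)
    rw [Nat.shiftLeft_eq, Nat.one_mul]
  have hgW : e.g < e.W := by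
    rw [hg, hW]
    have h1 : e.s * (e.K + 11) = e.s * (e.K + 8) + 3 * e.s := by ring
    omega
  have hplW : e.pl + (e.s + 3) ≤ e.W := by
    rw [hpl, hW]
    have h1 : e.s * (e.K + 11) = e.s * (e.K + 7) + 4 * e.s := by ring
    omega
  set n := t.length with hn
  set f : ℕ → ℕ := fun i => (t.getD i (0, 0)).1 with hf
  set ld : ℕ → ℕ := fun i => (t.getD i (0, 0)).2 with hld
  set wt : ℕ → ℕ := fun i => e.wz (f i &&& m) with hwt
  have hfW : ∀ i < n, f i < 2 ^ e.W := by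
    intro i hi
    have h1 : t.getD i (0, 0) ∈ t := by
      rw [List.getD_eq_getElem t (0, 0) hi]
      exact List.getElem_mem hi
    exact (ht _ h1).1
  have hlds : ∀ i < n, ld i < 2 ^ e.s := by
    intro i hi
    have h1 : t.getD i (0, 0) ∈ t := by
      rw [List.getD_eq_getElem t (0, 0) hi]
      exact List.getElem_mem hi
    exact (ht _ h1).2
  have hwts : ∀ i, wt i < 2 ^ e.s := by
    intro i
    have h1 : wt i ≤ ∑ j ∈ range (e.K + 8), e.wl j := by
      refine Finset.sum_le_sum fun j _ => ?_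
      split_ifs
      · exact le_rfl
      · exact Nat.zero_le _
    rw [wl_sum] at h1
    have h2 := h.hM
    omega
  have hz := zero_lanes e h n m f hfW hm hm'
  have hc := conv_lanes e h n
    (fun i j => if (f i &&& m) / 2 ^ (e.s * j) % 2 ^ e.s = 0 then 1 else 0) (by
      intro i j
      show (if (f i &&& m) / 2 ^ (e.s * j) % 2 ^ e.s = 0 then 1 else 0) ≤ 1
      split_ifs
      · exact le_rfl
      · exact Nat.zero_le _)
  have hwt' : ∀ i, ∑ j ∈ range (e.K + 8),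
      (if (f i &&& m) / 2 ^ (e.s * j) % 2 ^ e.s = 0 then 1 else 0) * e.wl j = wt i := by
    intro i
    refine Finset.sum_congr rfl fun j _ => ?_
    split_ifs
    · exact Nat.one_mul _
    · exact Nat.zero_mul _
  have hc' : Nat.land (Nat.mul (Nat.land (Nat.sub (Nat.mul e.Hf (oc e.W (fun _ => 1) n))
      (Nat.land (oc e.W f n) (Nat.mul m (oc e.W (fun _ => 1) n))))
      (Nat.mul e.Hf (oc e.W (fun _ => 1) n))) e.C) (Nat.mul e.LMf (oc e.W (fun _ => 1) n)) =
      oc e.W (fun i => 2 ^ e.pl * wt i) n := by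
    rw [hz]
    refine hc.trans (oc_congr _ _ _ _ fun i _ => ?_)
    show 2 ^ e.pl * _ = 2 ^ e.pl * wt i
    rw [← hwt' i]
  -- the difference
  set D : ℕ → ℕ := fun i => e.m0 + ld i + k - wt i with hDdef
  have hm0s : e.m0 = 4 * 2 ^ e.s := by
    rw [hm0, pow_add]
    ring
  have hwm : ∀ i, wt i ≤ e.m0 + ld i + k := by
    intro i
    have h1 := hwts i
    omega
  have hT : Nat.sub (Nat.add (oc e.W (fun i => (e.m0 + ld i) * 2 ^ e.pl) n)
      (Nat.mul (Nat.shiftLeft k e.pl) (oc e.W (fun _ => 1) n)))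
      (oc e.W (fun i => 2 ^ e.pl * wt i) n) = oc e.W (fun i => 2 ^ e.pl * D i) n := by
    have h1 : Nat.mul (Nat.shiftLeft k e.pl) (oc e.W (fun _ => 1) n) =
        oc e.W (fun _ => k * 2 ^ e.pl) n := by
      show (k <<< e.pl) * oc e.W (fun _ => 1) n = _
      rw [Nat.shiftLeft_eq, oc_smul]
      refine oc_congr _ _ _ _ fun i _ => ?_
      exact Nat.mul_one _
    rw [h1]
    show oc e.W (fun i => (e.m0 + ld i) * 2 ^ e.pl) n + oc e.W (fun _ => k * 2 ^ e.pl) n
      - oc e.W (fun i => 2 ^ e.pl * wt i) n = _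
    rw [oc_add, oc_sub]
    · refine oc_congr _ _ _ _ fun i _ => ?_
      show (e.m0 + ld i) * 2 ^ e.pl + k * 2 ^ e.pl - 2 ^ e.pl * wt i = 2 ^ e.pl * D i
      rw [← Nat.add_mul, Nat.mul_comm _ (2 ^ e.pl), ← Nat.mul_sub]
    · intro i _
      show 2 ^ e.pl * wt i ≤ (e.m0 + ld i) * 2 ^ e.pl + k * 2 ^ e.pl
      rw [← Nat.add_mul, Nat.mul_comm _ (2 ^ e.pl)]
      exact Nat.mul_le_mul_left _ (hwm i)
  have hON : Nat.shiftLeft (oc e.W (fun _ => 1) n) e.g = oc e.W (fun _ => 2 ^ e.g) n := by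
    show (oc e.W (fun _ => 1) n) <<< e.g = _
    rw [Nat.shiftLeft_eq, Nat.mul_comm, oc_smul]
    refine oc_congr _ _ _ _ fun i _ => ?_
    exact Nat.mul_one _
  have hDlt : ∀ i < n, D i < 2 ^ (e.s + 2 + 1) := by
    intro i hi
    have h1 := hlds i hi
    have h2 : 2 ^ (e.s + 2 + 1) = 8 * 2 ^ e.s := by
      rw [pow_add, pow_add]
      ring
    show e.m0 + ld i + k - wt i < _
    rw [h2]
    omega
  have hDW : ∀ i < n, 2 ^ e.pl * D i < 2 ^ e.W := by
    intro i hi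
    calc 2 ^ e.pl * D i < 2 ^ e.pl * 2 ^ (e.s + 2 + 1) :=
          Nat.mul_lt_mul_of_pos_left (hDlt i hi) (by positivity)
      _ = 2 ^ (e.pl + (e.s + 3)) := by rw [← pow_add]
      _ ≤ 2 ^ e.W := Nat.pow_le_pow_right (by norm_num) hplW
  have hgW' : ∀ i < n, (2 : ℕ) ^ e.g < 2 ^ e.W := fun i _ => Nat.pow_lt_pow_right (by norm_num) hgW
  have hland : Nat.land (oc e.W (fun i => 2 ^ e.pl * D i) n) (oc e.W (fun _ => 2 ^ e.g) n) =
      oc e.W (fun i => 2 ^ e.pl * D i &&& 2 ^ e.g) n := by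
    have h1 := oc_land e.W n (fun i => 2 ^ e.pl * D i) (fun _ => 2 ^ e.g) 0 0 hDW hgW'
    rw [Nat.mul_zero, Nat.add_zero, Nat.add_zero, Nat.zero_and, Nat.mul_zero, Nat.add_zero] at h1
    exact h1
  have hxor : Nat.xor (oc e.W (fun i => 2 ^ e.pl * D i &&& 2 ^ e.g) n)
      (oc e.W (fun _ => 2 ^ e.g) n) =
      oc e.W (fun i => (2 ^ e.pl * D i &&& 2 ^ e.g) ^^^ 2 ^ e.g) n := by
    refine oc_xor e.W n (fun i => 2 ^ e.pl * D i &&& 2 ^ e.g) (fun _ => 2 ^ e.g) ?_ hgW'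
    intro i hi
    exact lt_of_le_of_lt Nat.and_le_left (hDW i hi)
  have hpas : e.pas (e.pk t) m k =
      Nat.xor (Nat.land (Nat.sub (Nat.add (oc e.W (fun i => (e.m0 + ld i) * 2 ^ e.pl) n)
      (Nat.mul (Nat.shiftLeft k e.pl) (oc e.W (fun _ => 1) n)))
      (Nat.land (Nat.mul (Nat.land (Nat.sub (Nat.mul e.Hf (oc e.W (fun _ => 1) n))
      (Nat.land (oc e.W f n) (Nat.mul m (oc e.W (fun _ => 1) n))))
      (Nat.mul e.Hf (oc e.W (fun _ => 1) n))) e.C) (Nat.mul e.LMf (oc e.W (fun _ => 1) n))))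
      (Nat.shiftLeft (oc e.W (fun _ => 1) n) e.g)) (Nat.shiftLeft (oc e.W (fun _ => 1) n) e.g) := by
    rw [pk_eq]
    rfl
  rw [hpas, hc', hT, hON, hland, hxor]
  refine eb1c_bits e _ t _ ?_ ?_
  · intro i hi hv
    have hv' : ld i + k < wt i := hv
    show (2 ^ e.pl * D i &&& 2 ^ e.g) ^^^ 2 ^ e.g = 2 ^ e.g
    rw [hg']
    refine (eb1c_bit e.pl (e.s + 2) (D i) (hDlt i hi)).2 ?_
    show e.m0 + ld i + k - wt i < 2 ^ (e.s + 2)
    rw [← hm0]
    have h1 := hwm i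
    omega
  · intro i hi hv
    have hv' : ¬ (ld i + k < wt i) := hv
    show (2 ^ e.pl * D i &&& 2 ^ e.g) ^^^ 2 ^ e.g = 0
    rw [hg']
    refine (eb1c_bit e.pl (e.s + 2) (D i) (hDlt i hi)).1 ?_
    show 2 ^ (e.s + 2) ≤ e.m0 + ld i + k - wt i
    rw [← hm0]
    omega

end Pool.Agent.MP_528dc0_co

end

section

open Finset

namespace Pool.Agent.MP_528dc0_co

open Eng (Lst It)

open Classical in
/-- apply `F` to the entries satisfying `v`, in order -/
noncomputable def EP.apl (F : ℕ → List It → List It) (v : ℕ × ℕ → Prop) (t : List (ℕ × ℕ))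
    (st : List It) : List It :=
  t.foldl (fun st a => if v a then F a.1 st else st) st

/-- the recursion with fuel `n` -/
def eb2_x (g mF V : ℕ) (f : ℕ → List It → List It) (n : ℕ) : ℕ → List It → List It :=
  Nat.rec (motive := fun _ => Nat → List It → List It) (fun _ _ => [It.bad])
    (fun _ ih E st => (Bool.rec (motive := fun _ => List It) (ih (Nat.land E (Nat.sub E 1)) (f (Nat.mod (Nat.land V (Nat.mul (Nat.shiftRight (Nat.sub E (Nat.land E (Nat.sub E 1))) g) mF)) mF) st)) st (Nat.beq E 0))) n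

theorem eb2_exl (g mF V : ℕ) (f : ℕ → List It → List It) :
    Eng.exl g mF V f = eb2_x g mF V f 2000 := by
  unfold Eng.exl eb2_x
  with_reducible rfl

theorem eb2_x0 (g mF V : ℕ) (f : ℕ → List It → List It) (E : ℕ) (st : List It) :
    eb2_x g mF V f 0 E st = [It.bad] := rfl

theorem eb2_xs (g mF V : ℕ) (f : ℕ → List It → List It) (n E : ℕ) (st : List It) :
    eb2_x g mF V f (n + 1) E st = if E = 0 then st else
      eb2_x g mF V f n (E &&& (E - 1))
        (f ((V &&& (((E - (E &&& (E - 1))) >>> g) * mF)) % mF) st) := by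
  have h1 : eb2_x g mF V f (n + 1) E st = (Bool.rec (motive := fun _ => List It)
      (eb2_x g mF V f n (E &&& (E - 1))
        (f ((V &&& (((E - (E &&& (E - 1))) >>> g) * mF)) % mF) st)) st (Nat.beq E 0)) := rfl
  rw [h1]
  by_cases h : E = 0
  · rw [if_pos h]
    have h2 : Nat.beq E 0 = true := Nat.beq_eq.symm ▸ h
    rw [h2]
  · rw [if_neg h]
    have h2 : Nat.beq E 0 = false := by
      rw [← Bool.not_eq_true, Nat.beq_eq]
      exact h
    rw [h2]

/-- bits of a list of flags and fields -/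
def eb2_E (W g : ℕ) : List (Bool × ℕ) → ℕ
  | [] => 0
  | a :: u => (if a.1 = true then 2 ^ g else 0) + 2 ^ W * eb2_E W g u
/-- fields -/
def eb2_V (W : ℕ) : List (Bool × ℕ) → ℕ
  | [] => 0
  | a :: u => a.2 + 2 ^ W * eb2_V W u
/-- application -/
def eb2_A (F : ℕ → List It → List It) : List (Bool × ℕ) → List It → List It
  | [], st => st
  | a :: u, st => eb2_A F u (if a.1 = true then F a.2 st else st)

theorem eb2_split (W g : ℕ) : ∀ u : List (Bool × ℕ), eb2_E W g u ≠ 0 →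
    ∃ (pre : List (Bool × ℕ)) (f : ℕ) (post : List (Bool × ℕ)),
      u = pre ++ (true, f) :: post ∧ ∀ a ∈ pre, a.1 = false
  | [], h => absurd rfl h
  | (true, f) :: u, _ => ⟨[], f, u, rfl, by simp⟩
  | (false, f) :: u, h => by
    have h1 : eb2_E W g u ≠ 0 := by
      intro h2
      apply h
      unfold eb2_E
      rw [h2]
      simp
    obtain ⟨pre, f', post, rfl, hp⟩ := eb2_split W g u h1
    refine ⟨(false, f) :: pre, f', post, rfl, ?_⟩
    intro a ha
    rcases List.mem_cons.1 ha with rfl | ha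
    · rfl
    · exact hp a ha

theorem eb2_zero (W g : ℕ) (F : ℕ → List It → List It) : ∀ (u : List (Bool × ℕ)) (st : List It),
    eb2_E W g u = 0 → eb2_A F u st = st
  | [], _, _ => rfl
  | (b, f) :: u, st, h => by
    unfold eb2_E at h
    have h1 : eb2_E W g u = 0 := by
      have h2 : 2 ^ W * eb2_E W g u = 0 := by omega
      rcases Nat.mul_eq_zero.1 h2 with h3 | h3
      · exact absurd h3 (Nat.two_pow_pos W).ne'
      · exact h3
    have h2 : b = false := by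
      cases b
      · rfl
      · have h3 := Nat.two_pow_pos g
        simp only [if_true] at h
        omega
    subst h2
    unfold eb2_A
    rw [eb2_zero W g F u _ h1]
    simp

theorem eb2_Eapp (W g : ℕ) (x : List (Bool × ℕ)) : ∀ pre : List (Bool × ℕ),
    (∀ a ∈ pre, a.1 = false) → eb2_E W g (pre ++ x) = 2 ^ (W * pre.length) * eb2_E W g x
  | [], _ => by simp
  | (b, f) :: pre, h => by
    have h1 : b = false := h (b, f) List.mem_cons_self
    subst h1
    have h2 := eb2_Eapp W g x pre (fun a ha => h a (List.mem_cons_of_mem _ ha))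
    have h3 : eb2_E W g ((false, f) :: (pre ++ x)) = 0 + 2 ^ W * eb2_E W g (pre ++ x) := rfl
    rw [List.cons_append, h3, h2, List.length_cons, Nat.mul_succ, pow_add]
    ring

theorem eb2_Aapp (F : ℕ → List It → List It) (x : List (Bool × ℕ)) :
    ∀ (pre : List (Bool × ℕ)) (st : List It),
    (∀ a ∈ pre, a.1 = false) → eb2_A F (pre ++ x) st = eb2_A F x st
  | [], _, _ => rfl
  | (b, f) :: pre, st, h => by
    have h1 : b = false := h (b, f) List.mem_cons_self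
    subst h1
    have h2 := eb2_Aapp F x pre st (fun a ha => h a (List.mem_cons_of_mem _ ha))
    have h3 : eb2_A F ((false, f) :: (pre ++ x)) st = eb2_A F (pre ++ x) st := rfl
    rw [List.cons_append, h3, h2]

theorem eb2_Vapp (W : ℕ) (x : List (Bool × ℕ)) : ∀ pre : List (Bool × ℕ),
    (∀ a ∈ pre, a.2 < 2 ^ W) → ∃ Y < 2 ^ (W * pre.length),
      eb2_V W (pre ++ x) = 2 ^ (W * pre.length) * eb2_V W x + Y
  | [], _ => ⟨0, by simp, by simp⟩
  | (b, f) :: pre, h => by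
    have h1 : f < 2 ^ W := h (b, f) List.mem_cons_self
    obtain ⟨Y, hY, h2⟩ := eb2_Vapp W x pre (fun a ha => h a (List.mem_cons_of_mem _ ha))
    refine ⟨f + 2 ^ W * Y, ?_, ?_⟩
    · rw [List.length_cons, Nat.mul_succ, Nat.add_comm (W * pre.length), pow_add]
      calc f + 2 ^ W * Y < 2 ^ W + 2 ^ W * Y := by omega
        _ = 2 ^ W * (Y + 1) := by ring
        _ ≤ 2 ^ W * 2 ^ (W * pre.length) := Nat.mul_le_mul_left _ hY
    · rw [List.cons_append]
      have h3 : eb2_V W ((b, f) :: (pre ++ x)) = f + 2 ^ W * eb2_V W (pre ++ x) := rfl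
      rw [h3, h2, List.length_cons, Nat.mul_succ, Nat.add_comm (W * pre.length), pow_add]
      ring

theorem eb2_land (a x y x' y' : ℕ) (hy : y < 2 ^ a) (hy' : y' < 2 ^ a) :
    (2 ^ a * x + y) &&& (2 ^ a * x' + y') = 2 ^ a * (x &&& x') + (y &&& y') := by
  apply Nat.eq_of_testBit_eq
  intro i
  have h3 : y &&& y' < 2 ^ a := lt_of_le_of_lt Nat.and_le_left hy
  rw [Nat.testBit_and, Nat.testBit_two_pow_mul_add _ hy, Nat.testBit_two_pow_mul_add _ hy',
    Nat.testBit_two_pow_mul_add _ h3]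
  split_ifs
  · rw [Nat.testBit_and]
  · rw [Nat.testBit_and]

theorem eb2_low (a m : ℕ) :
    (2 ^ a * (2 * m + 1)) &&& (2 ^ a * (2 * m + 1) - 1) = 2 ^ a * (2 * m) := by
  have h0 := Nat.two_pow_pos a
  have h1 : 2 ^ a * (2 * m + 1) - 1 = 2 ^ a * (2 * m) + (2 ^ a - 1) := by
    rw [Nat.mul_succ]
    omega
  have h2 : (2 * m + 1) &&& (2 * m) = 2 * m := by
    have h3 := eb2_land 1 m 1 m 0 (by norm_num) (by norm_num)
    simpa using h3
  have h4 := eb2_land a (2 * m + 1) 0 (2 * m) (2 ^ a - 1) h0 (by omega)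
  rw [h1]
  rw [Nat.add_zero, h2] at h4
  rw [h4]
  simp

theorem eb2_step (W g : ℕ) (hg : g < W) (pre : List (Bool × ℕ)) (f : ℕ) (post : List (Bool × ℕ))
    (hp : ∀ a ∈ pre, a.1 = false) (hf : f < 2 ^ W - 1) (hv : ∀ a ∈ pre, a.2 < 2 ^ W)
    (E V : ℕ) (hE : E = eb2_E W g (pre ++ (true, f) :: post))
    (hV : V = eb2_V W (pre ++ (true, f) :: post)) :
    (E &&& (E - 1)) = eb2_E W g (pre ++ (false, f) :: post) ∧
      (V &&& (((E - (E &&& (E - 1))) >>> g) * (2 ^ W - 1))) % (2 ^ W - 1) = f := by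
  have h1 : E = 2 ^ (W * pre.length + g) * (2 * (2 ^ (W - g - 1) * eb2_E W g post) + 1) := by
    rw [hE, eb2_Eapp W g _ pre hp]
    have h2 : eb2_E W g ((true, f) :: post) = 2 ^ g + 2 ^ W * eb2_E W g post := rfl
    have h3 : (2 : ℕ) ^ W = 2 ^ g * (2 * 2 ^ (W - g - 1)) := by
      rw [← pow_succ', ← pow_add]
      congr 1
      omega
    rw [h2, h3, pow_add]
    ring
  have h4 : E &&& (E - 1) =
      2 ^ (W * pre.length + g) * (2 * (2 ^ (W - g - 1) * eb2_E W g post)) := by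
    rw [h1]
    exact eb2_low _ _
  have h5 : eb2_E W g (pre ++ (false, f) :: post) =
      2 ^ (W * pre.length + g) * (2 * (2 ^ (W - g - 1) * eb2_E W g post)) := by
    rw [eb2_Eapp W g _ pre hp]
    have h2 : eb2_E W g ((false, f) :: post) = 0 + 2 ^ W * eb2_E W g post := rfl
    have h3 : (2 : ℕ) ^ W = 2 ^ g * (2 * 2 ^ (W - g - 1)) := by
      rw [← pow_succ', ← pow_add]
      congr 1
      omega
    rw [h2, h3, pow_add]
    ring
  refine ⟨h4.trans h5.symm, ?_⟩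
  have h6 : E - (E &&& (E - 1)) = 2 ^ (W * pre.length) * 2 ^ g := by
    rw [h4]
    conv_lhs => rw [h1]
    rw [Nat.mul_succ, Nat.add_sub_cancel_left, pow_add]
  have h7 : (E - (E &&& (E - 1))) >>> g = 2 ^ (W * pre.length) := by
    rw [h6, Nat.shiftRight_eq_div_pow, Nat.mul_div_cancel _ (Nat.two_pow_pos g)]
  rw [h7]
  obtain ⟨Y, hY, h8⟩ := eb2_Vapp W ((true, f) :: post) pre hv
  have h9 : eb2_V W ((true, f) :: post) = f + 2 ^ W * eb2_V W post := rfl
  have h10 := eb2_land (W * pre.length) (f + 2 ^ W * eb2_V W post) Y (2 ^ W - 1) 0 hY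
    (Nat.two_pow_pos _)
  have h11 : (f + 2 ^ W * eb2_V W post) &&& (2 ^ W - 1) = f := by
    rw [Nat.and_two_pow_sub_one_eq_mod, Nat.add_mul_mod_self_left, Nat.mod_eq_of_lt (by omega)]
  rw [hV, h8, h9]
  rw [Nat.add_zero, h11, Nat.and_zero, Nat.add_zero] at h10
  rw [h10]
  have h12 : 2 ^ (W * pre.length) * f ≡ 1 * f [MOD (2 ^ W - 1)] := by
    apply Nat.ModEq.mul_right
    rw [pow_mul]
    have h13 : 2 ^ W ≡ 1 [MOD (2 ^ W - 1)] := by
      have h14 : 2 ^ W = 1 + (2 ^ W - 1) := by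
        have := Nat.two_pow_pos W
        omega
      have h15 : 1 + (2 ^ W - 1) ≡ 1 [MOD (2 ^ W - 1)] := by
        unfold Nat.ModEq
        rw [Nat.add_mod_right]
      rwa [← h14] at h15
    have h16 := h13.pow pre.length
    rwa [one_pow] at h16
  have h17 : (2 ^ (W * pre.length) * f) % (2 ^ W - 1) = (1 * f) % (2 ^ W - 1) := h12
  rw [h17, one_mul, Nat.mod_eq_of_lt hf]

theorem eb2_main (W g : ℕ) (hg : g < W) (F : ℕ → List It → List It) (V : ℕ) :
    ∀ (n : ℕ) (u : List (Bool × ℕ)) (st : List It), (∀ a ∈ u, a.2 < 2 ^ W - 1) →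
      V = eb2_V W u →
      eb2_x g (2 ^ W - 1) V F n (eb2_E W g u) st = [It.bad] ∨
        eb2_x g (2 ^ W - 1) V F n (eb2_E W g u) st = eb2_A F u st
  | 0, u, st, _, _ => Or.inl (eb2_x0 _ _ _ _ _ _)
  | n + 1, u, st, hu, hV => by
    rw [eb2_xs]
    by_cases h : eb2_E W g u = 0
    · rw [if_pos h]
      exact Or.inr (eb2_zero W g F u st h).symm
    · rw [if_neg h]
      obtain ⟨pre, f, post, rfl, hp⟩ := eb2_split W g u h
      have hf : f < 2 ^ W - 1 := hu (true, f) (by simp)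
      have hv : ∀ a ∈ pre, a.2 < 2 ^ W := fun a ha => by
        have := hu a (List.mem_append_left _ ha)
        omega
      obtain ⟨h1, h2⟩ := eb2_step W g hg pre f post hp hf hv _ V rfl hV
      rw [h2, h1]
      have hV' : V = eb2_V W (pre ++ (false, f) :: post) := by
        rw [hV]
        have h3 : ∀ pre : List (Bool × ℕ), eb2_V W (pre ++ (true, f) :: post) =
            eb2_V W (pre ++ (false, f) :: post) := by
          intro pre
          induction pre with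
          | nil => rfl
          | cons a pre ih =>
            rw [List.cons_append, List.cons_append]
            unfold eb2_V
            rw [ih]
        exact h3 pre
      have h4 := eb2_main W g hg F V n (pre ++ (false, f) :: post) (F f st) (by
        intro a ha
        rcases List.mem_append.1 ha with ha | ha
        · exact hu a (List.mem_append_left _ ha)
        · rcases List.mem_cons.1 ha with rfl | ha
          · exact hf
          · exact hu a (List.mem_append_right _ (List.mem_cons_of_mem _ ha))) hV'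
      have h5 : eb2_A F (pre ++ (true, f) :: post) st =
          eb2_A F (pre ++ (false, f) :: post) (F f st) := by
        rw [eb2_Aapp F _ pre st hp, eb2_Aapp F _ pre (F f st) hp]
        rfl
      rw [h5]
      exact h4

theorem eb2_Vof (W pl m0 : ℕ) (l : Lst) (f ld : ℕ) :
    Eng.Vof (Eng.app W pl m0 l f ld) = Eng.Vof l * 2 ^ W + f := by
  cases l with
  | mk V LV ON =>
    change (V <<< W) + f = V * 2 ^ W + f
    rw [Nat.shiftLeft_eq]

/-- **Enumeration.** `Eng.exl` visits the set bits of `E` from the lowest to the highest one and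
extracts the corresponding fields; if there are too many (fuel 2000) the result is `[bad]`.

Proof. For `E = bits v t ≠ 0` let `i` be the first viable entry: `E &&& (E - 1)` deletes the lowest set
bit `2^(W i + g)`, `E - (E &&& (E - 1)) = 2^(W i + g)`, shifted by `g`: `2^(W i)`;
`V &&& (2^(W i) * mF) = f_i * 2^(W i)` (`mF = 2^W - 1`), and modulo `2^W - 1` this is `f_i` since
`f_i < 2^W - 1`. Induction on the fuel, generalising `v` (replace `v` by `v` and not the `i`-th entry; it is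
convenient to argue with a finite set of positions instead of `v`) and `st`. -/
theorem exl_spec (e : EP) (h : e.Ok) (t : List (ℕ × ℕ)) (ht : ∀ a ∈ t, a.1 < 2 ^ e.W - 1)
    (v : ℕ × ℕ → Prop) (F : ℕ → List It → List It) (st : List It) :
    e.exl (Eng.Vof (e.pk t)) F (e.bits v t) st = [It.bad] ∨
      e.exl (Eng.Vof (e.pk t)) F (e.bits v t) st = EP.apl F v t st := by
  classical
  have hmF : e.mF = 2 ^ e.W - 1 := by
    have h1 : e.mF = (1 <<< e.W) - 1 := rfl
    rw [h1, Nat.shiftLeft_eq, one_mul]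
  have hgW : e.g < e.W := by
    have h1 : e.g = e.s * (e.K + 8) + 7 := rfl
    have h2 : e.W = e.s * (e.K + 11) := rfl
    have h3 := h.hs
    rw [h1, h2]
    have h4 : e.s * (e.K + 11) = e.s * (e.K + 8) + e.s * 3 := by ring
    omega
  have hV : ∀ t : List (ℕ × ℕ), Eng.Vof (e.pk t) =
      eb2_V e.W (t.map (fun a => (decide (v a), a.1))) := by
    intro t
    induction t with
    | nil => rfl
    | cons a t ih =>
      have h1 : e.pk (a :: t) = e.app (e.pk t) a.1 a.2 := rfl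
      rw [h1]
      unfold EP.app
      have h2 : eb2_V e.W ((decide (v a), a.1) :: t.map (fun a => (decide (v a), a.1))) =
          a.1 + 2 ^ e.W * eb2_V e.W (t.map (fun a => (decide (v a), a.1))) := rfl
      rw [eb2_Vof, ih, List.map_cons, h2]
      ring
  have hE : ∀ t : List (ℕ × ℕ), e.bits v t =
      eb2_E e.W e.g (t.map (fun a => (decide (v a), a.1))) := by
    intro t
    induction t with
    | nil => rfl
    | cons a t ih =>
      rw [List.map_cons]
      unfold EP.bits eb2_E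
      rw [ih]
      congr 1
      by_cases h1 : v a
      · simp [h1]
      · simp [h1]
  have hA : ∀ (t : List (ℕ × ℕ)) (st : List It), EP.apl F v t st =
      eb2_A F (t.map (fun a => (decide (v a), a.1))) st := by
    intro t
    induction t with
    | nil => intro st; rfl
    | cons a t ih =>
      intro st
      rw [List.map_cons]
      unfold EP.apl eb2_A
      rw [List.foldl_cons]
      have h2 := ih (if v a then F a.1 st else st)
      unfold EP.apl at h2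
      rw [h2]
      congr 1
      by_cases h1 : v a
      · simp [h1]
      · simp [h1]
  unfold EP.exl
  rw [hV t, hE t, hA t st, eb2_exl, hmF]
  apply eb2_main e.W e.g hgW F _ 2000 _ st _ rfl
  intro a ha
  obtain ⟨b, hb, rfl⟩ := List.mem_map.1 ha
  exact ht b hb

end Pool.Agent.MP_528dc0_co

end

section

open Finset

namespace Pool.Agent.MP_528dc0_co

open Eng (Lst It)

theorem eb3_dig (a b k s : ℕ) :
    (a &&& b) / 2 ^ k % 2 ^ s = (a / 2 ^ k % 2 ^ s) &&& (b / 2 ^ k % 2 ^ s) := by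
  apply Nat.eq_of_testBit_eq
  intro i
  simp only [Nat.testBit_mod_two_pow, Nat.testBit_div_two_pow, Nat.testBit_and]
  by_cases hi : i < s <;> simp [hi]

theorem eb3_and31 {a : ℕ} (h : a ≤ 31) : a &&& 31 = a := by
  interval_cases a <;> rfl

theorem eb3_pow (e : EP) (h : e.Ok) : 512 ≤ 2 ^ e.s := by
  calc 512 = 2 ^ 9 := by norm_num
    _ ≤ 2 ^ e.s := Nat.pow_le_pow_right (by norm_num) h.hs

/-- the digits of a normal form -/
theorem eb3_nfd (e : EP) (c l : ℕ → ℕ) (t : ℕ) (h1 : ∀ j, c j < 2 ^ e.s) (h2 : ∀ j, l j < 2 ^ e.s)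
    (j : ℕ) (hj : j < e.K + 8) :
    e.nf c l t / 2 ^ (e.s * j) % 2 ^ e.s = if j < e.K then c j else l (j - e.K) := by
  unfold EP.nf
  rw [oc_digit e.s (e.K + 8) _ t _ j hj]
  intro i _
  split_ifs
  · exact h1 i
  · exact h2 _

theorem eb3_nf0 (e : EP) (c l : ℕ → ℕ) (h1 : ∀ j, c j < 2 ^ e.s) (h2 : ∀ j, l j < 2 ^ e.s) :
    e.nf c l 0 < 2 ^ (e.s * (e.K + 8)) := by
  unfold EP.nf
  rw [mul_zero, add_zero]
  apply oc_lt
  intro i _
  split_ifs
  · exact h1 i
  · exact h2 _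

theorem eb3_cd (e : EP) (x : DS e.K) (hx : e.OkD x) (j : ℕ) : e.cd x j ≤ 31 := by
  unfold EP.cd
  split_ifs
  · exact hx.1 _
  · exact Nat.zero_le _

theorem eb3_lb (N₁ N₂ : Finset (Fin 8)) (j : ℕ) : EP.lb N₁ N₂ j ≤ 3 := by
  unfold EP.lb
  split_ifs <;> norm_num

/-- the test, for an arbitrary label mask `c` -/
theorem eb3_wz (e : EP) (h : e.Ok) (x y : DS e.K) (hx : e.OkD x) (hy : e.OkD y) (D c : ℕ) (hc : c ≤ 3)
    (hD : D = e.nf (fun _ => 31) (fun _ => c) 0) :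
    e.wz (e.enc x &&& Nat.land (e.enc y) D) = e.wtD x y +
      ∑ i : Fin 8, if EP.lb x.N₁ x.N₂ i &&& (EP.lb y.N₁ y.N₂ i &&& c) = 0 then e.tau else 0 := by
  have hp := eb3_pow e h
  have hcx : ∀ j, e.cd x j < 2 ^ e.s := fun j => by have := eb3_cd e x hx j; omega
  have hcy : ∀ j, e.cd y j < 2 ^ e.s := fun j => by have := eb3_cd e y hy j; omega
  have hlx : ∀ j, EP.lb x.N₁ x.N₂ j < 2 ^ e.s := fun j => by have := eb3_lb x.N₁ x.N₂ j; omega
  have hly : ∀ j, EP.lb y.N₁ y.N₂ j < 2 ^ e.s := fun j => by have := eb3_lb y.N₁ y.N₂ j; omega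
  have h31 : 31 < 2 ^ e.s := by omega
  have hc' : c < 2 ^ e.s := by omega
  have hdig : ∀ j < e.K + 8, (e.enc x &&& Nat.land (e.enc y) D) / 2 ^ (e.s * j) % 2 ^ e.s =
      if j < e.K then e.cd x j &&& e.cd y j
        else EP.lb x.N₁ x.N₂ (j - e.K) &&& (EP.lb y.N₁ y.N₂ (j - e.K) &&& c) := by
    intro j hj
    have h0 : e.enc x &&& Nat.land (e.enc y) D = e.enc x &&& (e.enc y &&& D) := rfl
    rw [h0, eb3_dig, eb3_dig, hD]
    unfold EP.enc
    rw [eb3_nfd e _ _ _ hcx hlx j hj, eb3_nfd e _ _ _ hcy hly j hj,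
      eb3_nfd e _ _ _ (fun _ => h31) (fun _ => hc') j hj]
    split_ifs
    · rw [eb3_and31 (eb3_cd e y hy j)]
    · rfl
  unfold EP.wz
  have h1 : (∑ j ∈ range (e.K + 8), if (e.enc x &&& Nat.land (e.enc y) D) / 2 ^ (e.s * j) % 2 ^ e.s = 0
      then e.wl j else 0) = ∑ j ∈ range (e.K + 8), if (if j < e.K then e.cd x j &&& e.cd y j
        else EP.lb x.N₁ x.N₂ (j - e.K) &&& (EP.lb y.N₁ y.N₂ (j - e.K) &&& c)) = 0 then e.wl j else 0 := by
    apply Finset.sum_congr rfl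
    intro j hj
    rw [hdig j (Finset.mem_range.1 hj)]
  rw [h1, Finset.sum_range_add, Finset.sum_range, Finset.sum_range]
  congr 1
  · unfold EP.wtD
    apply Finset.sum_congr rfl
    intro k _
    have hk : k.val < e.K := k.isLt
    rw [if_pos hk]
    have h2 : e.cd x k = x.dg k := by unfold EP.cd; rw [dif_pos hk]
    have h3 : e.cd y k = y.dg k := by unfold EP.cd; rw [dif_pos hk]
    have h4 : e.wl k = e.w k := by unfold EP.wl EP.w; rw [if_pos hk]
    rw [h2, h3, h4]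
  · apply Finset.sum_congr rfl
    intro i _
    have hi : ¬ e.K + i.val < e.K := by omega
    have h2 : e.wl (e.K + i.val) = e.tau := by unfold EP.wl; rw [if_neg hi]
    rw [if_neg hi, Nat.add_sub_cancel_left, h2]

theorem eb3_sum (c : ℕ) (P : Fin 8 → Prop) [DecidablePred P] (N : Finset (Fin 8))
    (hP : ∀ i, P i ↔ i ∉ N) : (∑ i : Fin 8, if P i then c else 0) = c * (8 - N.card) := by
  have h1 : (Finset.univ.filter P).card = 8 - N.card := by
    have h2 : Finset.univ.filter P = Nᶜ := by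
      ext i
      rw [Finset.mem_filter, Finset.mem_compl, hP]
      exact ⟨fun h => h.2, fun h => ⟨Finset.mem_univ _, h⟩⟩
    rw [h2, Finset.card_compl, Fintype.card_fin]
  rw [← Finset.sum_filter, Finset.sum_const, h1, smul_eq_mul, mul_comm]

theorem eb3_lbe (N₁ N₂ : Finset (Fin 8)) (i : Fin 8) :
    EP.lb N₁ N₂ i = (if i ∈ N₁ then 1 else 0) + (if i ∈ N₂ then 2 else 0) := by
  unfold EP.lb
  rw [dif_pos i.isLt]

/-- membership in the result of a pass -/
theorem eb3_apl (F : ℕ → List It → List It) (v : ℕ × ℕ → Prop) (hF : ∀ x st, F x st = F x [] ++ st)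
    (t : List (ℕ × ℕ)) (it : It) : ∀ st : List It,
    it ∈ EP.apl F v t st ↔ it ∈ st ∨ ∃ a ∈ t, v a ∧ it ∈ F a.1 [] := by
  induction t with
  | nil =>
    intro st
    constructor
    · intro h; exact Or.inl h
    · rintro (h | ⟨a, ha, _⟩)
      · exact h
      · exact absurd ha (List.not_mem_nil)
  | cons b t ih =>
    intro st
    have h0 : EP.apl F v (b :: t) st =
        EP.apl F v t (@ite _ (v b) (Classical.propDecidable _) (F b.1 st) st) := rfl
    rw [h0, ih]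
    by_cases hb : v b
    · rw [if_pos hb, hF, List.mem_append]
      constructor
      · rintro ((h | h) | ⟨a, ha, hva, hia⟩)
        · exact Or.inr ⟨b, List.mem_cons_self, hb, h⟩
        · exact Or.inl h
        · exact Or.inr ⟨a, List.mem_cons_of_mem _ ha, hva, hia⟩
      · rintro (h | ⟨a, ha, hva, hia⟩)
        · exact Or.inl (Or.inr h)
        · rcases List.mem_cons.1 ha with rfl | ha
          · exact Or.inl (Or.inl hia)
          · exact Or.inr ⟨a, ha, hva, hia⟩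
    · rw [if_neg hb]
      constructor
      · rintro (h | ⟨a, ha, hva, hia⟩)
        · exact Or.inl h
        · exact Or.inr ⟨a, List.mem_cons_of_mem _ ha, hva, hia⟩
      · rintro (h | ⟨a, ha, hva, hia⟩)
        · exact Or.inl h
        · rcases List.mem_cons.1 ha with rfl | ha
          · exact absurd hva hb
          · exact Or.inr ⟨a, ha, hva, hia⟩

/-- the recursion of `Eng.exl` -/
def eb3_rec (g mF V : ℕ) (f : ℕ → List It → List It) : ℕ → ℕ → List It → List It :=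
  Nat.rec (motive := fun _ => Nat → List It → List It) (fun _ _ => [It.bad])
    (fun _ ih E st => (Bool.rec (motive := fun _ => List It) (ih (Nat.land E (Nat.sub E 1)) (f (Nat.mod (Nat.land V (Nat.mul (Nat.shiftRight (Nat.sub E (Nat.land E (Nat.sub E 1))) g) mF)) mF) st)) st (Nat.beq E 0)))

theorem eb3_exl (g mF V : ℕ) (f : ℕ → List It → List It) : Eng.exl g mF V f = eb3_rec g mF V f 2000 :=
  rfl

theorem eb3_mono (g mF V : ℕ) (F : ℕ → List It → List It) (hF : ∀ x st, F x st = F x [] ++ st)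
    (it : It) (n : ℕ) : ∀ (E : ℕ) (st : List It), it ∈ st →
    it ∈ eb3_rec g mF V F n E st ∨ It.bad ∈ eb3_rec g mF V F n E st := by
  induction n with
  | zero =>
    intro E st _
    exact Or.inr (List.mem_singleton.2 rfl)
  | succ n ih =>
    intro E st h
    have h0 : eb3_rec g mF V F (n + 1) E st = (Bool.rec (motive := fun _ => List It)
      (eb3_rec g mF V F n (Nat.land E (Nat.sub E 1)) (F (Nat.mod (Nat.land V (Nat.mul (Nat.shiftRight
        (Nat.sub E (Nat.land E (Nat.sub E 1))) g) mF)) mF) st)) st (Nat.beq E 0)) := rfl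
    rw [h0]
    cases Nat.beq E 0 with
    | true => exact Or.inl h
    | false =>
      apply ih
      rw [hF]
      exact List.mem_append_right _ h

/-- legal entries are small -/
theorem ent_lt (e : EP) (h : e.Ok) (a : ℕ × ℕ) (ha : e.EntOk a) :
    a.1 < 2 ^ e.W - 1 ∧ a.2 < 2 ^ e.s := by
  obtain ⟨x, hx, rfl⟩ := ha
  exact ⟨enc_lt e h x hx, hx.2⟩

/-- the masks -/
theorem mask1_ok (e : EP) (h : e.Ok) (f : ℕ) :
    (∀ j < e.K + 8, Nat.land f e.D1 / 2 ^ (e.s * j) % 2 ^ e.s ≤ 31) ∧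
      Nat.land f e.D1 < 2 ^ (e.s * (e.K + 8)) := by
  have hp := eb3_pow e h
  have h31 : 31 < 2 ^ e.s := by omega
  have hc : 1 < 2 ^ e.s := by omega
  have h0 : Nat.land f e.D1 = f &&& e.D1 := rfl
  constructor
  · intro j hj
    rw [h0, eb3_dig, D1_eq e h, eb3_nfd e _ _ _ (fun _ => h31) (fun _ => hc) j hj]
    refine le_trans Nat.and_le_right ?_
    split_ifs <;> norm_num
  · rw [h0]
    refine lt_of_le_of_lt Nat.and_le_right ?_
    rw [D1_eq e h]
    exact eb3_nf0 e _ _ (fun _ => h31) (fun _ => hc)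
theorem mask3_ok (e : EP) (h : e.Ok) (f : ℕ) :
    (∀ j < e.K + 8, Nat.land f e.D3 / 2 ^ (e.s * j) % 2 ^ e.s ≤ 31) ∧
      Nat.land f e.D3 < 2 ^ (e.s * (e.K + 8)) := by
  have hp := eb3_pow e h
  have h31 : 31 < 2 ^ e.s := by omega
  have hc : 3 < 2 ^ e.s := by omega
  have h0 : Nat.land f e.D3 = f &&& e.D3 := rfl
  constructor
  · intro j hj
    rw [h0, eb3_dig, D3_eq e h, eb3_nfd e _ _ _ (fun _ => h31) (fun _ => hc) j hj]
    refine le_trans Nat.and_le_right ?_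
    split_ifs <;> norm_num
  · rw [h0]
    refine lt_of_le_of_lt Nat.and_le_right ?_
    rw [D3_eq e h]
    exact eb3_nf0 e _ _ (fun _ => h31) (fun _ => hc)

/-- what the test computes: mask `D1` (bit 0 of the label digits: `N₁ ∩ N₁`), mask `D3` -/
theorem wz1_eq (e : EP) (h : e.Ok) (x y : DS e.K) (hx : e.OkD x) (hy : e.OkD y) :
    e.wz (e.enc x &&& Nat.land (e.enc y) e.D1) = e.wtD x y + e.tau * (8 - (x.N₁ ∩ y.N₁).card) := by
  rw [eb3_wz e h x y hx hy e.D1 1 (by norm_num) (D1_eq e h)]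
  congr 1
  apply eb3_sum
  intro i
  rw [eb3_lbe, eb3_lbe, Finset.mem_inter]
  by_cases h1 : i ∈ x.N₁ <;> by_cases h2 : i ∈ x.N₂ <;> by_cases h3 : i ∈ y.N₁ <;>
    by_cases h4 : i ∈ y.N₂ <;> simp [h1, h2, h3, h4]
theorem wz3_eq (e : EP) (h : e.Ok) (x y : DS e.K) (hx : e.OkD x) (hy : e.OkD y) :
    e.wz (e.enc x &&& Nat.land (e.enc y) e.D3) =
      e.wtD x y + e.tau * (8 - ((x.N₁ ∩ y.N₁) ∪ (x.N₂ ∩ y.N₂)).card) := by
  rw [eb3_wz e h x y hx hy e.D3 3 (by norm_num) (D3_eq e h)]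
  congr 1
  apply eb3_sum
  intro i
  rw [eb3_lbe, eb3_lbe, Finset.mem_union, Finset.mem_inter, Finset.mem_inter]
  by_cases h1 : i ∈ x.N₁ <;> by_cases h2 : i ∈ x.N₂ <;> by_cases h3 : i ∈ y.N₁ <;>
    by_cases h4 : i ∈ y.N₂ <;> simp [h1, h2, h3, h4]

/-- **One pass.** `F` prepends items which do not depend on the list, it prepends nothing for
entries which are not viable, and `bad` is not in the result. Then the result consists of `st` and
all items produced by `F`. (`pas_spec`, `exl_spec`; `e.exs (e.pk t) F m k st` is definitionally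
`e.exl (Vof (e.pk t)) F (e.pas (e.pk t) m k) st`.) -/
theorem pass_mem (e : EP) (h : e.Ok) (t : List (ℕ × ℕ)) (ht : ∀ a ∈ t, e.EntOk a) (m k : ℕ)
    (hm : ∀ j < e.K + 8, m / 2 ^ (e.s * j) % 2 ^ e.s ≤ 31) (hm' : m < 2 ^ (e.s * (e.K + 8)))
    (hk : k ≤ 3 * 2 ^ e.s) (F : ℕ → List It → List It) (hF : ∀ x st, F x st = F x [] ++ st)
    (hz : ∀ a ∈ t, ¬ a.2 + k < e.wz (a.1 &&& m) → F a.1 [] = []) (st : List It)
    (hb : It.bad ∉ e.exs (e.pk t) F m k st) (it : It) :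
    it ∈ e.exs (e.pk t) F m k st ↔ it ∈ st ∨ ∃ a ∈ t, it ∈ F a.1 [] := by
  have h1 : e.exs (e.pk t) F m k st = e.exl (Eng.Vof (e.pk t)) F (e.pas (e.pk t) m k) st := rfl
  have h2 : e.pas (e.pk t) m k = e.bits (fun a => a.2 + k < e.wz (a.1 &&& m)) t := by
    apply pas_spec e h t _ m hm hm' k hk
    intro a ha
    have h3 := ent_lt e h a (ht a ha)
    exact ⟨by omega, h3.2⟩
  rw [h1, h2] at hb ⊢
  rcases exl_spec e h t (fun a ha => (ent_lt e h a (ht a ha)).1)
    (fun a => a.2 + k < e.wz (a.1 &&& m)) F st with h3 | h3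
  · rw [h3] at hb
    exact absurd (List.mem_singleton.2 rfl) hb
  · rw [h3, eb3_apl F _ hF]
    constructor
    · rintro (h4 | ⟨a, ha, _, hia⟩)
      · exact Or.inl h4
      · exact Or.inr ⟨a, ha, hia⟩
    · rintro (h4 | ⟨a, ha, hia⟩)
      · exact Or.inl h4
      · refine Or.inr ⟨a, ha, ?_, hia⟩
        by_contra hv
        rw [hz a ha hv] at hia
        exact absurd hia (List.not_mem_nil)

/-- For arbitrary packed lists and masks: the worklist is kept, or `bad` is in the result. (`Eng.exl` is a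
recursion on the fuel: fuel `0`: `[bad]`; fuel `n + 1`: `st` if `E = 0`, otherwise fuel `n` with `F x st = F x [] ++ st` instead of
`st`.) -/
theorem pass_mono (e : EP) (L : Lst) (m k : ℕ) (F : ℕ → List It → List It)
    (hF : ∀ x st, F x st = F x [] ++ st) (st : List It) (it : It) (hit : it ∈ st) :
    it ∈ e.exs L F m k st ∨ It.bad ∈ e.exs L F m k st := by
  unfold EP.exs Eng.exs
  rw [eb3_exl]
  exact eb3_mono _ _ _ F hF it 2000 _ st hit

end Pool.Agent.MP_528dc0_co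

end

section

open Finset

namespace Pool.Agent.MP_528dc0_co

open Eng (Lst It)

/-- the test `n = 0` -/
theorem es1_beq_true {n : ℕ} (h : n = 0) : Nat.beq n 0 = true := by
  subst h
  rfl

theorem es1_beq_false {n : ℕ} (h : n ≠ 0) : Nat.beq n 0 = false := by
  cases hh : Nat.beq n 0 with
  | false => rfl
  | true => exact absurd (Nat.eq_of_beq_eq_true hh) h

theorem es1_ble_true {a b : ℕ} (h : a ≤ b) : Nat.ble a b = true := Nat.ble_eq_true_of_le h

theorem es1_ble_false {a b : ℕ} (h : ¬ a ≤ b) : Nat.ble a b = false := by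
  cases hh : Nat.ble a b with
  | false => rfl
  | true => exact absurd (Nat.le_of_ble_eq_true hh) h

theorem es1_le (e : EP) (x y : DS e.K) (c : ℕ) :
    e.wtD x y ≤ Nat.add (Nat.add (Nat.add x.ld y.ld) (e.tau * (x.N₁ ∩ y.N₁).card)) c ↔
      e.wtD x y ≤ e.dE x y + c := Iff.rfl

/-- two nested tests -/
theorem es1_two {p q : Prop} [Decidable (p ∨ q)] (a : ℕ) (U V : ℕ) (st r : List It)
    (hp : a = 0 ↔ ¬ p) (hq : U ≤ V ↔ q) :
    Bool.rec (motive := fun _ => List It) st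
      (Bool.rec (motive := fun _ => List It) r st (Nat.ble U V)) (Nat.beq a 0) =
      if p ∨ q then st else r := by
  by_cases h1 : a = 0
  · rw [es1_beq_true h1]
    by_cases h2 : U ≤ V
    · rw [if_pos (Or.inr (hq.1 h2))]
      show Bool.rec (motive := fun _ => List It) r st (Nat.ble U V) = st
      rw [es1_ble_true h2]
    · rw [if_neg (not_or.2 ⟨hp.1 h1, fun h => h2 (hq.2 h)⟩)]
      show Bool.rec (motive := fun _ => List It) r st (Nat.ble U V) = r
      rw [es1_ble_false h2]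
  · rw [es1_beq_false h1, if_pos (Or.inl (not_not.1 fun h => h1 (hp.2 h)))]

theorem es1_edge1_gen (pl sJ l0 C mS CM HC X0 ET PT c1 x y : ℕ) (st : List It)
    (A SH LX LY PC WT : ℕ)
    (hA : A = Nat.land (Nat.sub HC (Nat.land (Nat.land x y) CM)) HC)
    (hWT : WT = Nat.land (Nat.shiftRight (Nat.mul A C) pl) mS)
    (hSH : SH = Nat.land (Nat.shiftRight (Nat.land x y) sJ) 255)
    (hLX : LX = Nat.shiftRight x l0) (hLY : LY = Nat.shiftRight y l0)
    (hPC : PC = Nat.land (Nat.shiftRight PT (Nat.mul 16 SH)) 65535) :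
    Eng.edge1 pl sJ l0 C mS CM HC X0 ET PT c1 x y st =
      Bool.rec (motive := fun _ => List It) st
        (Bool.rec (motive := fun _ => List It)
          (It.r1 (Nat.add (Nat.add (Nat.sub CM (Nat.lor (Nat.land (Nat.lor x y) CM) (Nat.sub (Nat.sub HC A) (Nat.shiftRight (Nat.sub HC A) 5)))) (Nat.sub (Nat.sub HC A) (Nat.shiftRight (Nat.sub HC A) 5))) (Nat.add (Nat.land x X0) (Nat.shiftLeft (Nat.add (Nat.add LX LY) PC) l0))) (Nat.sub WT (Nat.add (Nat.add LX LY) PC)) :: st) st (Nat.ble WT (Nat.add (Nat.add (Nat.add LX LY) PC) c1)))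
        (Nat.beq (Nat.land (Nat.shiftRight ET SH) 1) 0) := by
  subst hPC hWT hA hSH hLX hLY
  rfl

theorem es1_edge2_gen (pl sJ l0 C mS CM HC X0 ET PT c2 x y : ℕ) (st : List It)
    (A SH LX LY PC WT : ℕ)
    (hA : A = Nat.land (Nat.sub HC (Nat.land (Nat.land x y) CM)) HC)
    (hWT : WT = Nat.land (Nat.shiftRight (Nat.mul A C) pl) mS)
    (hSH : SH = Nat.land (Nat.shiftRight (Nat.land x y) sJ) 255)
    (hLX : LX = Nat.shiftRight x l0) (hLY : LY = Nat.shiftRight y l0)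
    (hPC : PC = Nat.land (Nat.shiftRight PT (Nat.mul 16 SH)) 65535) :
    Eng.edge2 pl sJ l0 C mS CM HC X0 ET PT c2 x y st =
      Bool.rec (motive := fun _ => List It) st
        (Bool.rec (motive := fun _ => List It)
          (It.r2 (Nat.add (Nat.lor (Nat.land (Nat.lor x y) CM) (Nat.sub (Nat.sub HC A) (Nat.shiftRight (Nat.sub HC A) 5))) (Nat.add (Nat.land x X0) (Nat.shiftLeft (Nat.add (Nat.add LX LY) PC) l0))) (Nat.add (Nat.add (Nat.sub CM (Nat.lor (Nat.land (Nat.lor x y) CM) (Nat.sub (Nat.sub HC A) (Nat.shiftRight (Nat.sub HC A) 5)))) (Nat.sub (Nat.sub HC A) (Nat.shiftRight (Nat.sub HC A) 5))) (Nat.add (Nat.land x X0) (Nat.shiftLeft (Nat.add (Nat.add LX LY) PC) l0))) (Nat.sub WT (Nat.add (Nat.add LX LY) PC)) :: st) st (Nat.ble WT (Nat.add (Nat.add (Nat.add LX LY) PC) c2)))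
        (Nat.beq (Nat.land (Nat.shiftRight ET SH) 1) 0) := by
  subst hPC hWT hA hSH hLX hLY
  rfl

theorem es1_edge0_gen (pl sJ l0 C mS CM HC ET PT x y : ℕ) (st : List It)
    (A SH LX LY PC WT : ℕ)
    (hA : A = Nat.land (Nat.sub HC (Nat.land (Nat.land x y) CM)) HC)
    (hWT : WT = Nat.land (Nat.shiftRight (Nat.mul A C) pl) mS)
    (hSH : SH = Nat.land (Nat.shiftRight (Nat.land x y) sJ) 255)
    (hLX : LX = Nat.shiftRight x l0) (hLY : LY = Nat.shiftRight y l0)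
    (hPC : PC = Nat.land (Nat.shiftRight PT (Nat.mul 16 SH)) 65535) :
    Eng.edge0 pl sJ l0 C mS CM HC ET PT x y st =
      Bool.rec (motive := fun _ => List It) st
        (Bool.rec (motive := fun _ => List It)
          (It.bad :: st) st (Nat.ble WT (Nat.add (Nat.add LX LY) PC)))
        (Nat.beq (Nat.land (Nat.shiftRight ET SH) 1) 0) := by
  subst hPC hWT hA hSH hLX hLY
  rfl

open Classical in
/-- Unfold the definition (`Eng.edge1` is fully inlined; it is definitionally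
`bif (EX) then (bif (WT ≤ LL + c1) then st else item :: st) else st` written with `Bool.rec`), then
rewrite with `sh_eq`, `ex2_iff`, `ld_eq`, `pc_eq`, `wt_eq`, `encQ_eq`. If the item is pushed,
`dE < wtD < 2^s`. -/
theorem edge1_spec (e : EP) (h : e.Ok) (x y : DS e.K) (hx : e.OkD x) (hy : e.OkD y)
    (st : List It) :
    e.edge1 (e.enc x) (e.enc y) st = if e.par.ex2 (x.N₁ ∩ y.N₁) ∨ e.wtD x y ≤ e.dE x y + e.c1
      then st else It.r1 (e.enc (e.mkQ x y x.N₁ x.N₂ (e.dE x y))) (e.wtD x y - e.dE x y) :: st := by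
  have key := es1_edge1_gen e.pl e.sJ e.l0 e.C e.mS e.CM e.HC e.X0 e.ET e.PT e.c1 (e.enc x) (e.enc y) st
    _ (msk (x.N₁ ∩ y.N₁)) x.ld y.ld (e.tau * (x.N₁ ∩ y.N₁).card) (e.wtD x y) rfl
    (wt_eq e h x y hx hy).symm (sh_eq e h x y hx hy).symm (ld_eq e h x hx).symm
    (ld_eq e h y hy).symm (pc_eq e h _).symm
  have e1 : e.edge1 (e.enc x) (e.enc y) st =
      Eng.edge1 e.pl e.sJ e.l0 e.C e.mS e.CM e.HC e.X0 e.ET e.PT e.c1 (e.enc x) (e.enc y) st := rfl
  rw [e1, key]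
  clear key e1
  refine (es1_two (q := e.wtD x y ≤ e.dE x y + e.c1) _ _ _ st _ (ex2_iff e h _) (es1_le e x y e.c1)).trans ?_
  by_cases hc : e.par.ex2 (x.N₁ ∩ y.N₁) ∨ e.wtD x y ≤ e.dE x y + e.c1
  · rw [if_pos hc, if_pos hc]
  · rw [if_neg hc, if_neg hc]
    have hl : e.dE x y < 2 ^ e.s := by
      have h1 := wtD_lt e h x y
      have h2 := (not_or.1 hc).2
      omega
    have hq := encQ_eq e h x y hx hy (e.dE x y) _ hl rfl
    have hd : Nat.add (Nat.add x.ld y.ld) (e.tau * (x.N₁ ∩ y.N₁).card) = e.dE x y := rfl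
    have hs : Nat.sub (e.wtD x y) (e.dE x y) = e.wtD x y - e.dE x y := rfl
    rw [hd, hq, hs]

open Classical in
theorem edge2_spec (e : EP) (h : e.Ok) (x y : DS e.K) (hx : e.OkD x) (hy : e.OkD y)
    (st : List It) :
    e.edge2 (e.enc x) (e.enc y) st = if e.par.ex2 (x.N₁ ∩ y.N₁) ∨ e.wtD x y ≤ e.dE x y + e.c2
      then st else It.r2 (e.enc (e.mkP x y x.N₁ x.N₂ (e.dE x y)))
        (e.enc (e.mkQ x y x.N₁ x.N₂ (e.dE x y))) (e.wtD x y - e.dE x y) :: st := by
  have key := es1_edge2_gen e.pl e.sJ e.l0 e.C e.mS e.CM e.HC e.X0 e.ET e.PT e.c2 (e.enc x) (e.enc y) st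
    _ (msk (x.N₁ ∩ y.N₁)) x.ld y.ld (e.tau * (x.N₁ ∩ y.N₁).card) (e.wtD x y) rfl
    (wt_eq e h x y hx hy).symm (sh_eq e h x y hx hy).symm (ld_eq e h x hx).symm
    (ld_eq e h y hy).symm (pc_eq e h _).symm
  have e1 : e.edge2 (e.enc x) (e.enc y) st =
      Eng.edge2 e.pl e.sJ e.l0 e.C e.mS e.CM e.HC e.X0 e.ET e.PT e.c2 (e.enc x) (e.enc y) st := rfl
  rw [e1, key]
  clear key e1
  refine (es1_two (q := e.wtD x y ≤ e.dE x y + e.c2) _ _ _ st _ (ex2_iff e h _) (es1_le e x y e.c2)).trans ?_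
  by_cases hc : e.par.ex2 (x.N₁ ∩ y.N₁) ∨ e.wtD x y ≤ e.dE x y + e.c2
  · rw [if_pos hc, if_pos hc]
  · rw [if_neg hc, if_neg hc]
    have hl : e.dE x y < 2 ^ e.s := by
      have h1 := wtD_lt e h x y
      have h2 := (not_or.1 hc).2
      omega
    have hq := encQ_eq e h x y hx hy (e.dE x y) _ hl rfl
    have hp := encP_eq e h x y hx hy (e.dE x y) _ hl rfl
    have hd : Nat.add (Nat.add x.ld y.ld) (e.tau * (x.N₁ ∩ y.N₁).card) = e.dE x y := rfl
    have hs : Nat.sub (e.wtD x y) (e.dE x y) = e.wtD x y - e.dE x y := rfl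
    rw [hd, hp, hq, hs]

open Classical in
theorem edge0_spec (e : EP) (h : e.Ok) (x y : DS e.K) (hx : e.OkD x) (hy : e.OkD y)
    (st : List It) :
    e.edge0 (e.enc x) (e.enc y) st = if e.par.ex2 (x.N₁ ∩ y.N₁) ∨ e.wtD x y ≤ e.dE x y
      then st else It.bad :: st := by
  have key := es1_edge0_gen e.pl e.sJ e.l0 e.C e.mS e.CM e.HC e.ET e.PT (e.enc x) (e.enc y) st
    _ (msk (x.N₁ ∩ y.N₁)) x.ld y.ld (e.tau * (x.N₁ ∩ y.N₁).card) (e.wtD x y) rfl
    (wt_eq e h x y hx hy).symm (sh_eq e h x y hx hy).symm (ld_eq e h x hx).symm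
    (ld_eq e h y hy).symm (pc_eq e h _).symm
  have e1 : e.edge0 (e.enc x) (e.enc y) st =
      Eng.edge0 e.pl e.sJ e.l0 e.C e.mS e.CM e.HC e.ET e.PT (e.enc x) (e.enc y) st := rfl
  rw [e1, key]
  clear key e1
  exact es1_two _ _ _ st _ (ex2_iff e h _) Iff.rfl

end Pool.Agent.MP_528dc0_co

end

section

open Finset

namespace Pool.Agent.MP_528dc0_co

open Eng (Lst It)

private theorem es2_lor (u v : ℕ) : Nat.land (Nat.lor u v) 1 = 0 ↔
    Nat.land u 1 = 0 ∧ Nat.land v 1 = 0 := by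
  have h1 : Nat.land (Nat.lor u v) 1 = Nat.lor (Nat.land u 1) (Nat.land v 1) :=
    Nat.and_or_distrib_right u v 1
  have h2 : Nat.land u 1 = u % 2 := Nat.and_one_is_mod u
  have h3 : Nat.land v 1 = v % 2 := Nat.and_one_is_mod v
  rw [h1, h2, h3]
  rcases Nat.mod_two_eq_zero_or_one u with h4 | h4 <;>
    rcases Nat.mod_two_eq_zero_or_one v with h5 | h5 <;> rw [h4, h5] <;> decide

private theorem es2_ex (e : EP) (h : e.Ok) (k3 : ℕ) (hk : k3 ≤ 1) (N N' : Finset (Fin 8)) :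
    Nat.add (Nat.mul k3 (Nat.land (Nat.shiftRight e.E3 (Nat.land (msk N) (msk N'))) 1))
      (Nat.land (Nat.lor (Nat.shiftRight e.ET (msk N)) (Nat.shiftRight e.ET (msk N'))) 1) = 0 ↔
      ¬ (e.par.ex2 N ∨ e.par.ex2 N' ∨ (k3 = 1 ∧ e.par.ex3 (N ∩ N'))) := by
  have h0 : Nat.land (msk N) (msk N') = msk (N ∩ N') := msk_land N N'
  have h1 : ∀ a b : ℕ, Nat.add (Nat.mul k3 a) b = 0 ↔ (k3 = 0 ∨ a = 0) ∧ b = 0 := by
    intro a b
    show k3 * a + b = 0 ↔ _
    rw [Nat.add_eq_zero_iff, Nat.mul_eq_zero]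
  rw [h0, h1, es2_lor, ex2_iff e h, ex2_iff e h, ex3_iff e h]
  have h2 : k3 = 0 ∨ k3 = 1 := by omega
  rcases h2 with h2 | h2
  · subst h2
    constructor
    · rintro ⟨-, h3, h4⟩ (h5 | h5 | ⟨h5, -⟩)
      · exact h3 h5
      · exact h4 h5
      · exact absurd h5 (by norm_num)
    · intro h3
      exact ⟨Or.inl rfl, fun h4 => h3 (Or.inl h4), fun h4 => h3 (Or.inr (Or.inl h4))⟩
  · subst h2
    constructor
    · rintro ⟨h6, h3, h4⟩ (h5 | h5 | ⟨-, h5⟩)
      · exact h3 h5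
      · exact h4 h5
      · rcases h6 with h6 | h6
        · exact absurd h6 (by norm_num)
        · exact h6 h5
    · intro h3
      exact ⟨Or.inr (fun h4 => h3 (Or.inr (Or.inr ⟨rfl, h4⟩))), fun h4 => h3 (Or.inl h4),
        fun h4 => h3 (Or.inr (Or.inl h4))⟩

private theorem es2_inter (A B D : Finset (Fin 8)) : (A ∩ B) ∩ (A ∩ D) = A ∩ B ∩ D := by
  ext a
  simp only [Finset.mem_inter]
  tauto

private theorem es2_dC (e : EP) (x y : DS e.K) :
    Nat.add (Nat.add x.ld y.ld) (Nat.add (e.tau * (x.N₁ ∩ y.N₁).card)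
      (e.tau * (x.N₁ ∩ y.N₂).card)) = e.dC x y := by
  unfold EP.dC
  show x.ld + y.ld + (e.tau * (x.N₁ ∩ y.N₁).card + e.tau * (x.N₁ ∩ y.N₂).card) = _
  omega

/-- generic form of `Eng.close1` -/
private theorem es2_gen1 (pl sJ sj8 l0 C mS CM HC X0 ET E3 PT c1 k3 x y : ℕ) (st : List It)
    (wt a b lx ly p1 p2 L : ℕ) (bx bl : Bool)
    (hwt : Nat.land (Nat.shiftRight (Nat.mul (Nat.land (Nat.sub HC (Nat.land (Nat.land x y) CM)) HC)
      C) pl) mS = wt)
    (ha : Nat.land (Nat.shiftRight (Nat.land x y) sJ) 255 = a)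
    (hb : Nat.land (Nat.land (Nat.shiftRight x sJ) (Nat.shiftRight y sj8)) 255 = b)
    (hlx : Nat.shiftRight x l0 = lx) (hly : Nat.shiftRight y l0 = ly)
    (hp1 : Nat.land (Nat.shiftRight PT (Nat.mul 16 a)) 65535 = p1)
    (hp2 : Nat.land (Nat.shiftRight PT (Nat.mul 16 b)) 65535 = p2)
    (hL : Nat.add (Nat.add lx ly) (Nat.add p1 p2) = L)
    (hbx : Nat.beq (Nat.add (Nat.mul k3 (Nat.land (Nat.shiftRight E3 (Nat.land a b)) 1))
      (Nat.land (Nat.lor (Nat.shiftRight ET a) (Nat.shiftRight ET b)) 1)) 0 = bx)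
    (hbl : Nat.ble wt (Nat.add L c1) = bl) :
    Eng.close1 pl sJ sj8 l0 C mS CM HC X0 ET E3 PT c1 k3 x y st =
      Bool.rec (motive := fun _ => List It) st (Bool.rec (motive := fun _ => List It)
        (List.cons (It.r1 (Nat.add (Nat.add (Nat.sub CM (Nat.lor (Nat.land (Nat.lor x y) CM)
          (Nat.sub (Nat.sub HC (Nat.land (Nat.sub HC (Nat.land (Nat.land x y) CM)) HC))
            (Nat.shiftRight (Nat.sub HC (Nat.land (Nat.sub HC (Nat.land (Nat.land x y) CM)) HC)) 5))))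
          (Nat.sub (Nat.sub HC (Nat.land (Nat.sub HC (Nat.land (Nat.land x y) CM)) HC))
            (Nat.shiftRight (Nat.sub HC (Nat.land (Nat.sub HC (Nat.land (Nat.land x y) CM)) HC)) 5)))
          (Nat.add (Nat.land x X0) (Nat.shiftLeft L l0))) (Nat.sub wt L)) st) st bl) bx := by
  subst hbl hbx hL hp1 hp2 hlx hly hb ha hwt
  rfl

/-- generic form of `Eng.close0` -/
private theorem es2_gen0 (pl sJ sj8 l0 C mS CM HC ET E3 PT k3 x y : ℕ) (st : List It)
    (wt a b lx ly p1 p2 L : ℕ) (bx bl : Bool)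
    (hwt : Nat.land (Nat.shiftRight (Nat.mul (Nat.land (Nat.sub HC (Nat.land (Nat.land x y) CM)) HC)
      C) pl) mS = wt)
    (ha : Nat.land (Nat.shiftRight (Nat.land x y) sJ) 255 = a)
    (hb : Nat.land (Nat.land (Nat.shiftRight x sJ) (Nat.shiftRight y sj8)) 255 = b)
    (hlx : Nat.shiftRight x l0 = lx) (hly : Nat.shiftRight y l0 = ly)
    (hp1 : Nat.land (Nat.shiftRight PT (Nat.mul 16 a)) 65535 = p1)
    (hp2 : Nat.land (Nat.shiftRight PT (Nat.mul 16 b)) 65535 = p2)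
    (hL : Nat.add (Nat.add lx ly) (Nat.add p1 p2) = L)
    (hbx : Nat.beq (Nat.add (Nat.mul k3 (Nat.land (Nat.shiftRight E3 (Nat.land a b)) 1))
      (Nat.land (Nat.lor (Nat.shiftRight ET a) (Nat.shiftRight ET b)) 1)) 0 = bx)
    (hbl : Nat.ble wt L = bl) :
    Eng.close0 pl sJ sj8 l0 C mS CM HC ET E3 PT k3 x y st =
      Bool.rec (motive := fun _ => List It) st (Bool.rec (motive := fun _ => List It)
        (List.cons It.bad st) st bl) bx := by
  subst hbl hbx hL hp1 hp2 hlx hly hb ha hwt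
  rfl

private theorem es2_beqF (e : EP) (h : e.Ok) (k3 : ℕ) (hk : k3 ≤ 1) (N N' M : Finset (Fin 8))
    (hM : N ∩ N' = M) (h1 : e.par.ex2 N ∨ e.par.ex2 N' ∨ (k3 = 1 ∧ e.par.ex3 M)) :
    Nat.beq (Nat.add (Nat.mul k3 (Nat.land (Nat.shiftRight e.E3 (Nat.land (msk N) (msk N'))) 1))
      (Nat.land (Nat.lor (Nat.shiftRight e.ET (msk N)) (Nat.shiftRight e.ET (msk N'))) 1)) 0 =
        false := by
  subst hM
  rw [Bool.eq_false_iff]
  intro h3
  exact (es2_ex e h k3 hk N N').1 (Nat.eq_of_beq_eq_true h3) h1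

private theorem es2_beqT (e : EP) (h : e.Ok) (k3 : ℕ) (hk : k3 ≤ 1) (N N' M : Finset (Fin 8))
    (hM : N ∩ N' = M) (h1 : ¬ (e.par.ex2 N ∨ e.par.ex2 N' ∨ (k3 = 1 ∧ e.par.ex3 M))) :
    Nat.beq (Nat.add (Nat.mul k3 (Nat.land (Nat.shiftRight e.E3 (Nat.land (msk N) (msk N'))) 1))
      (Nat.land (Nat.lor (Nat.shiftRight e.ET (msk N)) (Nat.shiftRight e.ET (msk N'))) 1)) 0 =
        true := by
  subst hM
  rw [(es2_ex e h k3 hk N N').2 h1]
  rfl

open Classical in
/-- `k3 = 1` for triangles, `0` for longer cycles. -/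
theorem close1_spec (e : EP) (h : e.Ok) (k3 : ℕ) (hk : k3 ≤ 1) (x y : DS e.K) (hx : e.OkD x)
    (hy : e.OkD y) (st : List It) :
    e.close1 k3 (e.enc x) (e.enc y) st =
      if (e.par.ex2 (x.N₁ ∩ y.N₁) ∨ e.par.ex2 (x.N₁ ∩ y.N₂) ∨
        (k3 = 1 ∧ e.par.ex3 (x.N₁ ∩ y.N₁ ∩ y.N₂))) ∨ e.wtD x y ≤ e.dC x y + e.c1
      then st else It.r1 (e.enc (e.mkQ x y x.N₁ x.N₂ (e.dC x y))) (e.wtD x y - e.dC x y) :: st := by
  have hg := fun bx bl => es2_gen1 e.pl e.sJ e.sj8 e.l0 e.C e.mS e.CM e.HC e.X0 e.ET e.E3 e.PT e.c1 k3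
    (e.enc x) (e.enc y) st _ _ _ _ _ _ _ _ bx bl (wt_eq e h x y hx hy) (sh_eq e h x y hx hy)
    (s2_eq e h x y hx hy) (ld_eq e h x hx) (ld_eq e h y hy) (pc_eq e h (x.N₁ ∩ y.N₁))
    (pc_eq e h (x.N₁ ∩ y.N₂)) (es2_dC e x y)
  have hc : e.close1 k3 (e.enc x) (e.enc y) st = Eng.close1 e.pl e.sJ e.sj8 e.l0 e.C e.mS e.CM e.HC
    e.X0 e.ET e.E3 e.PT e.c1 k3 (e.enc x) (e.enc y) st := rfl
  rw [hc]
  by_cases h1 : e.par.ex2 (x.N₁ ∩ y.N₁) ∨ e.par.ex2 (x.N₁ ∩ y.N₂) ∨
        (k3 = 1 ∧ e.par.ex3 (x.N₁ ∩ y.N₁ ∩ y.N₂))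
  · rw [if_pos (Or.inl h1)]
    exact hg false _ (es2_beqF e h k3 hk _ _ _ (es2_inter _ _ _) h1) rfl
  · by_cases h3 : e.wtD x y ≤ e.dC x y + e.c1
    · rw [if_pos (Or.inr h3)]
      exact hg true true (es2_beqT e h k3 hk _ _ _ (es2_inter _ _ _) h1) (Nat.ble_eq_true_of_le h3)
    · have h4 : Nat.ble (e.wtD x y) (Nat.add (e.dC x y) e.c1) = false := by
        rw [Bool.eq_false_iff]
        intro h5
        exact h3 (Nat.le_of_ble_eq_true h5)
      have h5 : e.dC x y < 2 ^ e.s := by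
        have h6 := wtD_lt e h x y
        omega
      rw [if_neg (not_or.2 ⟨h1, h3⟩)]
      have h6 := hg true false (es2_beqT e h k3 hk _ _ _ (es2_inter _ _ _) h1) h4
      rw [encQ_eq e h x y hx hy (e.dC x y) _ h5 rfl] at h6
      exact h6

open Classical in
theorem close0_spec (e : EP) (h : e.Ok) (k3 : ℕ) (hk : k3 ≤ 1) (x y : DS e.K) (hx : e.OkD x)
    (hy : e.OkD y) (st : List It) :
    e.close0 k3 (e.enc x) (e.enc y) st =
      if (e.par.ex2 (x.N₁ ∩ y.N₁) ∨ e.par.ex2 (x.N₁ ∩ y.N₂) ∨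
        (k3 = 1 ∧ e.par.ex3 (x.N₁ ∩ y.N₁ ∩ y.N₂))) ∨ e.wtD x y ≤ e.dC x y
      then st else It.bad :: st := by
  have hg := fun bx bl => es2_gen0 e.pl e.sJ e.sj8 e.l0 e.C e.mS e.CM e.HC e.ET e.E3 e.PT k3
    (e.enc x) (e.enc y) st _ _ _ _ _ _ _ _ bx bl (wt_eq e h x y hx hy) (sh_eq e h x y hx hy)
    (s2_eq e h x y hx hy) (ld_eq e h x hx) (ld_eq e h y hy) (pc_eq e h (x.N₁ ∩ y.N₁))
    (pc_eq e h (x.N₁ ∩ y.N₂)) (es2_dC e x y)
  have hc : e.close0 k3 (e.enc x) (e.enc y) st = Eng.close0 e.pl e.sJ e.sj8 e.l0 e.C e.mS e.CM e.HC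
    e.ET e.E3 e.PT k3 (e.enc x) (e.enc y) st := rfl
  rw [hc]
  by_cases h1 : e.par.ex2 (x.N₁ ∩ y.N₁) ∨ e.par.ex2 (x.N₁ ∩ y.N₂) ∨
        (k3 = 1 ∧ e.par.ex3 (x.N₁ ∩ y.N₁ ∩ y.N₂))
  · rw [if_pos (Or.inl h1)]
    exact hg false _ (es2_beqF e h k3 hk _ _ _ (es2_inter _ _ _) h1) rfl
  · by_cases h3 : e.wtD x y ≤ e.dC x y
    · rw [if_pos (Or.inr h3)]
      exact hg true true (es2_beqT e h k3 hk _ _ _ (es2_inter _ _ _) h1) (Nat.ble_eq_true_of_le h3)
    · have h4 : Nat.ble (e.wtD x y) (e.dC x y) = false := by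
        rw [Bool.eq_false_iff]
        intro h5
        exact h3 (Nat.le_of_ble_eq_true h5)
      rw [if_neg (not_or.2 ⟨h1, h3⟩)]
      exact hg true false (es2_beqT e h k3 hk _ _ _ (es2_inter _ _ _) h1) h4

end Pool.Agent.MP_528dc0_co

end

section

open Finset

namespace Pool.Agent.MP_528dc0_co

open Eng (Lst It)

/-- compatible lanes -/
def es3_al (CM HC x y : ℕ) : ℕ :=
  Nat.land (Nat.sub HC (Nat.land (Nat.land x y) CM)) HC
/-- compatible weight -/
def es3_wt (pl C mS CM HC x y : ℕ) : ℕ :=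
  Nat.land (Nat.shiftRight (Nat.mul (es3_al CM HC x y) C) pl) mS
/-- common labels -/
def es3_sh (sJ x y : ℕ) : ℕ := Nat.land (Nat.shiftRight (Nat.land x y) sJ) 255
/-- load -/
def es3_ll (sJ l0 PT x y : ℕ) : ℕ :=
  Nat.add (Nat.add (Nat.shiftRight x l0) (Nat.shiftRight y l0))
    (Nat.land (Nat.shiftRight PT (Nat.mul 16 (es3_sh sJ x y))) 65535)
/-- new field -/
def es3_k (l0 CM HC XL XF x y u v l : ℕ) : ℕ :=
  Nat.add (Nat.lor (Nat.land x CM)
      (Nat.sub (Nat.sub HC (es3_al CM HC x y)) (Nat.shiftRight (Nat.sub HC (es3_al CM HC x y)) 5)))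
      (Nat.add (Nat.add (Nat.land u XL) (Nat.land v XF)) (Nat.shiftLeft l l0))

theorem es3_chain0 (pl sJ l0 C mS CM HC XL XF ET PT : ℕ) (r : ℕ → ℕ → It) (thr x y : ℕ)
    (st : List It) :
    Eng.chain pl sJ l0 C mS CM HC XL XF ET PT r thr x y st = (Bool.rec (motive := fun _ => List It) st
      (Bool.rec (motive := fun _ => List It)
        (List.cons (r (es3_k l0 CM HC XL XF x y y x (es3_ll sJ l0 PT x y))
          (Nat.sub (es3_wt pl C mS CM HC x y) (es3_ll sJ l0 PT x y))) st)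
        st (Nat.ble (es3_wt pl C mS CM HC x y) (Nat.add (es3_ll sJ l0 PT x y) thr)))
      (Nat.beq (Nat.land (Nat.shiftRight ET (es3_sh sJ x y)) 1) 0)) := by
  unfold Eng.chain es3_k es3_ll es3_wt es3_al es3_sh
  with_reducible rfl

theorem es3_pairG0 (pl sJ l0 C mS CM HC XL XF XY ET PT tau thT th6 : ℕ) (y x : ℕ)
    (st : List It) :
    Eng.pairG pl sJ l0 C mS CM HC XL XF XY ET PT tau thT th6 y x st =
      (Bool.rec (motive := fun _ => List It) st
      ((fun st => (Bool.rec (motive := fun _ => List It)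
        (List.cons (It.t2 (es3_k l0 CM HC XL XF y x y x (Nat.add (es3_ll sJ l0 PT x y) tau))
          (Nat.sub (es3_wt pl C mS CM HC x y) (Nat.add (es3_ll sJ l0 PT x y) tau))) st)
        st (Nat.ble (es3_wt pl C mS CM HC x y) (Nat.add (es3_ll sJ l0 PT x y) thT))))
      (Bool.rec (motive := fun _ => List It)
        (List.cons (It.u2 (es3_k l0 CM HC XL XF y x y x (es3_ll sJ l0 PT x y))
          (Nat.sub (es3_wt pl C mS CM HC x y) (es3_ll sJ l0 PT x y)))
          (Bool.rec (motive := fun _ => List It)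
            (List.cons (It.u2 (es3_k l0 CM HC XL XF y x x y (es3_ll sJ l0 PT x y))
              (Nat.sub (es3_wt pl C mS CM HC x y) (es3_ll sJ l0 PT x y))) st) st
            (Nat.beq (Nat.land x XY) (Nat.land y XY))))
        st (Nat.ble (es3_wt pl C mS CM HC x y) (Nat.add (es3_ll sJ l0 PT x y) th6))))
      (Nat.beq (Nat.land (Nat.shiftRight ET (es3_sh sJ x y)) 1) 0)) := by
  unfold Eng.pairG es3_k es3_ll es3_wt es3_al es3_sh
  with_reducible rfl

theorem es3_rec (a b : List It) (c : Bool) :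
    (Bool.rec (motive := fun _ => List It) a b c) = if c = true then b else a := by
  cases c <;> rfl

theorem es3_beq (a b : ℕ) : (Nat.beq a b = true) = (a = b) := Nat.beq_eq
theorem es3_ble (a b : ℕ) : (Nat.ble a b = true) = (a ≤ b) := Nat.ble_eq

theorem es3_chain1 (pl sJ l0 C mS CM HC XL XF ET PT : ℕ) (r : ℕ → ℕ → It) (thr x y : ℕ)
    (st : List It) {ll wt k : ℕ} (hl : es3_ll sJ l0 PT x y = ll)
    (hw : es3_wt pl C mS CM HC x y = wt) (hk : ¬ wt ≤ ll + thr → es3_k l0 CM HC XL XF x y y x ll = k)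
    {ex : Prop} (hex : Nat.land (Nat.shiftRight ET (es3_sh sJ x y)) 1 = 0 ↔ ¬ ex) [Decidable ex] :
    Eng.chain pl sJ l0 C mS CM HC XL XF ET PT r thr x y st =
      if ex ∨ wt ≤ ll + thr then st else r k (wt - ll) :: st := by
  rw [es3_chain0, es3_rec, es3_rec, hl, hw]
  by_cases h1 : ex
  · rw [if_pos (Or.inl h1), if_neg]
    rw [es3_beq, hex]
    exact fun h2 => h2 h1
  · have h2 : Nat.beq (Nat.land (Nat.shiftRight ET (es3_sh sJ x y)) 1) 0 = true := by
      rw [es3_beq, hex]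
      exact h1
    rw [if_pos h2]
    by_cases h3 : wt ≤ ll + thr
    · rw [if_pos (Or.inr h3), if_pos]
      rw [es3_ble]
      exact h3
    · rw [if_neg (not_or.2 ⟨h1, h3⟩), if_neg, hk h3]
      · rfl
      · rw [es3_ble]
        exact h3

theorem es3_pairG1 (pl sJ l0 C mS CM HC XL XF XY ET PT tau thT th6 : ℕ) (y x : ℕ)
    (st : List It) {ll wt k1 k2 k3 : ℕ} (hl : es3_ll sJ l0 PT x y = ll)
    (hw : es3_wt pl C mS CM HC x y = wt)
    (hk1 : ¬ wt ≤ ll + thT → es3_k l0 CM HC XL XF y x y x (ll + tau) = k1)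
    (hk2 : ¬ wt ≤ ll + th6 → es3_k l0 CM HC XL XF y x y x ll = k2)
    (hk3 : ¬ wt ≤ ll + th6 → es3_k l0 CM HC XL XF y x x y ll = k3)
    {ex : Prop} (hex : Nat.land (Nat.shiftRight ET (es3_sh sJ x y)) 1 = 0 ↔ ¬ ex) [Decidable ex]
    {eN : Prop} (heN : Nat.land x XY = Nat.land y XY ↔ eN) [Decidable eN]
    {st1 : List It}
    (h1 : st1 = if wt ≤ ll + th6 then st else It.u2 k2 (wt - ll) ::
        (if eN then st else It.u2 k3 (wt - ll) :: st)) :
    Eng.pairG pl sJ l0 C mS CM HC XL XF XY ET PT tau thT th6 y x st =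
      if ex then st else if wt ≤ ll + thT then st1 else It.t2 k1 (wt - (ll + tau)) :: st1 := by
  rw [es3_pairG0]
  simp only [es3_rec, hl, hw, es3_beq, es3_ble]
  by_cases h2 : ex
  · rw [if_pos h2, if_neg]
    rw [hex]
    exact fun h3 => h3 h2
  rw [if_neg h2, if_pos (hex.2 h2)]
  have hst : (if wt ≤ Nat.add ll th6 then st else
      It.u2 (es3_k l0 CM HC XL XF y x y x ll) (Nat.sub wt ll) ::
        (if Nat.land x XY = Nat.land y XY then st else
          It.u2 (es3_k l0 CM HC XL XF y x x y ll) (Nat.sub wt ll) :: st)) = st1 := by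
    rw [h1]
    by_cases h3 : wt ≤ ll + th6
    · rw [if_pos h3, if_pos]
      exact h3
    · rw [if_neg h3, if_neg (show ¬ wt ≤ Nat.add ll th6 from h3), hk2 h3, hk3 h3]
      by_cases h4 : eN
      · rw [if_pos h4, if_pos (heN.2 h4)]
        rfl
      · rw [if_neg h4, if_neg (fun h5 => h4 (heN.1 h5))]
        rfl
  rw [hst]
  by_cases h3 : wt ≤ ll + thT
  · rw [if_pos h3, if_pos (show wt ≤ Nat.add ll thT from h3)]
  · rw [if_neg h3, if_neg (show ¬ wt ≤ Nat.add ll thT from h3)]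
    have h4 : es3_k l0 CM HC XL XF y x y x (Nat.add ll tau) = k1 := hk1 h3
    rw [h4]
    rfl

theorem es3_sh_eq (e : EP) (h : e.Ok) (x y : DS e.K) (hx : e.OkD x) (hy : e.OkD y) :
    es3_sh e.sJ (e.enc x) (e.enc y) = msk (x.N₁ ∩ y.N₁) := by
  unfold es3_sh
  rw [sh_eq e h x y hx hy]

theorem es3_ll_eq (e : EP) (h : e.Ok) (x y : DS e.K) (hx : e.OkD x) (hy : e.OkD y) :
    es3_ll e.sJ e.l0 e.PT (e.enc x) (e.enc y) = e.dE x y := by
  unfold es3_ll EP.dE
  rw [es3_sh_eq e h x y hx hy, pc_eq e h, ld_eq e h x hx, ld_eq e h y hy, Nat.add_eq, Nat.add_eq]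

theorem es3_wt_eq (e : EP) (h : e.Ok) (x y : DS e.K) (hx : e.OkD x) (hy : e.OkD y) :
    es3_wt e.pl e.C e.mS e.CM e.HC (e.enc x) (e.enc y) = e.wtD x y := by
  unfold es3_wt es3_al
  rw [wt_eq e h x y hx hy]

theorem es3_k_eq (e : EP) (h : e.Ok) (x y u v : DS e.K) (hx : e.OkD x) (hy : e.OkD y)
    (hu : e.OkD u) (hv : e.OkD v) (l : ℕ) (hl : l < 2 ^ e.s) :
    es3_k e.l0 e.CM e.HC e.XL e.XF (e.enc x) (e.enc y) (e.enc u) (e.enc v) l =
      e.enc (e.mkK x y u.N₁ v.N₂ l) := by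
  unfold es3_k
  apply encK_eq e h x y u v hx hy hu hv l _ hl
  unfold es3_al
  with_reducible rfl

theorem es3_land (a j : ℕ) : Nat.land a (Nat.shiftLeft 255 j) = ((a >>> j) &&& 255) <<< j := by
  change a &&& (255 <<< j) = ((a >>> j) &&& 255) <<< j
  apply Nat.eq_of_testBit_eq
  intro i
  simp only [Nat.testBit_and, Nat.testBit_shiftLeft, Nat.testBit_shiftRight]
  by_cases hij : j ≤ i
  · have h1 : j + (i - j) = i := by omega
    simp [hij, h1]
  · simp [hij]

theorem es3_XY (e : EP) (h : e.Ok) (x y : DS e.K) (hx : e.OkD x) (hy : e.OkD y) :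
    Nat.land (e.enc x) e.XY = Nat.land (e.enc y) e.XY ↔ x.N₁ = y.N₁ := by
  have h1 := n1_eq e h x hx
  have h2 := n1_eq e h y hy
  unfold EP.XY
  generalize e.enc x = X at *
  generalize e.enc y = Y at *
  generalize e.sJ = j at *
  rw [es3_land, es3_land]
  have h1' : (X >>> j) &&& 255 = msk x.N₁ := h1
  have h2' : (Y >>> j) &&& 255 = msk y.N₁ := h2
  rw [h1', h2']
  constructor
  · intro h3
    rw [Nat.shiftLeft_eq, Nat.shiftLeft_eq] at h3
    exact msk_inj _ _ (Nat.eq_of_mul_eq_mul_right (Nat.two_pow_pos _) h3)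
  · intro h3
    rw [h3]

open Classical in
/-- `x` = chain (child form), `y` = piece (root form). -/
theorem chain_spec (e : EP) (h : e.Ok) (r : ℕ → ℕ → It) (thr : ℕ) (x y : DS e.K) (hx : e.OkD x)
    (hy : e.OkD y) (st : List It) :
    e.chain r thr (e.enc x) (e.enc y) st =
      if e.par.ex2 (x.N₁ ∩ y.N₁) ∨ e.wtD x y ≤ e.dE x y + thr
      then st else r (e.enc (e.mkK x y y.N₁ x.N₂ (e.dE x y))) (e.wtD x y - e.dE x y) :: st := by
  have hlt := wtD_lt e h x y
  unfold EP.chain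
  refine es3_chain1 (hl := es3_ll_eq e h x y hx hy) (hw := es3_wt_eq e h x y hx hy)
    (hk := fun h1 => es3_k_eq e h x y y x hx hy hy hx _ (by omega)) (hex := ?_) ..
  rw [es3_sh_eq e h x y hx hy]
  exact ex2_iff e h _

open Classical in
/-- `x` = piece from the list (root form), `y` = new piece (child form). -/
theorem pairG_spec (e : EP) (h : e.Ok) (x y : DS e.K) (hx : e.OkD x) (hy : e.OkD y)
    (st st1 : List It)
    (h1 : st1 = if e.wtD x y ≤ e.dE x y + e.th6 then st else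
      It.u2 (e.enc (e.mkK y x y.N₁ x.N₂ (e.dE x y))) (e.wtD x y - e.dE x y) ::
        (if x.N₁ = y.N₁ then st else
          It.u2 (e.enc (e.mkK y x x.N₁ y.N₂ (e.dE x y))) (e.wtD x y - e.dE x y) :: st)) :
    e.pairG (e.enc y) (e.enc x) st =
      if e.par.ex2 (x.N₁ ∩ y.N₁) then st else
      if e.wtD x y ≤ e.dE x y + e.thT then st1 else
        It.t2 (e.enc (e.mkK y x y.N₁ x.N₂ (e.dE x y + e.tau))) (e.wtD x y - (e.dE x y + e.tau)) ::
          st1 := by
  have hlt := wtD_lt e h x y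
  have hT : e.tau ≤ e.thT := Nat.le_add_right _ _
  unfold EP.pairG
  refine es3_pairG1 (hl := es3_ll_eq e h x y hx hy) (hw := es3_wt_eq e h x y hx hy)
    (hk1 := fun h1 => es3_k_eq e h y x y x hy hx hy hx _ (by omega))
    (hk2 := fun h1 => es3_k_eq e h y x y x hy hx hy hx _ (by omega))
    (hk3 := fun h1 => es3_k_eq e h y x x y hy hx hx hy _ (by omega))
    (hex := ?_) (heN := es3_XY e h x y hx hy) (h1 := h1) ..
  rw [es3_sh_eq e h x y hx hy]
  exact ex2_iff e h _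

end Pool.Agent.MP_528dc0_co

end

section

open Finset

namespace Pool.Agent.MP_528dc0_co

open Eng (Lst It)

theorem es4_ble {a b : ℕ} (h : ¬ a ≤ b) : Nat.ble a b = false :=
  Bool.eq_false_of_not_eq_true (fun hh => h (Nat.le_of_ble_eq_true hh))

theorem es4_land (N N' : Finset (Fin 8)) : Nat.land (msk N) (msk N') = msk (N ∩ N') := msk_land N N'

theorem es4_v0_mem (e : EP) (f n x : ℕ) (st : List It) (it : It) :
    it ∈ e.v0 f n x st ↔ it ∈ st ∨ it ∈ e.v0 f n x [] := by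
  unfold EP.v0 Eng.v0
  generalize Nat.ble _ _ = b2
  generalize Nat.beq _ _ = b1
  cases b1 <;> cases b2 <;> simp [or_comm]

theorem pairV_spec (e : EP) (h : e.Ok) (x y : DS e.K) (hx : e.OkD x) (hy : e.OkD y)
    (st : List It) :
    e.pairV (e.enc y) (e.enc x) st = if e.wtD x y ≤ e.dE x y + e.thV then st else
      It.v2 (e.enc (e.mkK y x y.N₁ x.N₂ (e.dE x y))) (e.wtD x y - e.dE x y) :: st := by
  have hW := wt_eq e h x y hx hy
  have hS := sh_eq e h x y hx hy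
  have hP := pc_eq e h (x.N₁ ∩ y.N₁)
  have hlx := ld_eq e h x hx
  have hly := ld_eq e h y hy
  have hlt := wtD_lt e h x y
  unfold EP.pairV Eng.pairV
  rw [hS, hP, hlx, hly, hW]
  have hLL : Nat.add (Nat.add x.ld y.ld) (e.tau * (x.N₁ ∩ y.N₁).card) = e.dE x y := rfl
  rw [hLL]
  by_cases hc : e.wtD x y ≤ e.dE x y + e.thV
  · rw [if_pos hc]
    have hb : Nat.ble (e.wtD x y) (Nat.add (e.dE x y) e.thV) = true := Nat.ble_eq_true_of_le hc
    rw [hb]
  · rw [if_neg hc]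
    have hb : Nat.ble (e.wtD x y) (Nat.add (e.dE x y) e.thV) = false := es4_ble hc
    rw [hb]
    have hK := encK_eq e h y x y x hy hx hy hx (e.dE x y) _ (by omega) rfl
    rw [hK]
    rfl

/-- `x` = pair (child form), `y` = piece (root form). -/
theorem triV_spec (e : EP) (h : e.Ok) (x y : DS e.K) (hx : e.OkD x) (hy : e.OkD y)
    (st : List It) :
    e.triV (e.enc x) (e.enc y) st =
      if e.wtD x y ≤ e.dC y x + 4 * e.tau + e.lam then st else
      It.v3 (e.enc (e.mkK x y x.N₁ x.N₂ (e.dC y x + 4 * e.tau))) (msk y.N₁)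
        (e.wtD x y - (e.dC y x + 4 * e.tau)) :: st := by
  have hW := wt_eq e h x y hx hy
  have hS := sh_eq e h y x hy hx
  have hS2 := s2_eq e h y x hy hx
  have hN := n1_eq e h y hy
  have hP := pc_eq e h (y.N₁ ∩ x.N₁)
  have hP2 := pc_eq e h (y.N₁ ∩ x.N₂)
  have hlx := ld_eq e h x hx
  have hly := ld_eq e h y hy
  have hlt := wtD_lt e h x y
  unfold EP.triV Eng.triV
  rw [hS, hS2, hN, hP, hP2, hlx, hly, hW]
  have hLL : Nat.add (Nat.add (Nat.add y.ld x.ld) (Nat.add (e.tau * (y.N₁ ∩ x.N₁).card)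
      (e.tau * (y.N₁ ∩ x.N₂).card))) e.t4 = e.dC y x + 4 * e.tau := by
    show y.ld + x.ld + (e.tau * (y.N₁ ∩ x.N₁).card + e.tau * (y.N₁ ∩ x.N₂).card) + 4 * e.tau = _
    unfold EP.dC
    ring
  rw [hLL]
  by_cases hc : e.wtD x y ≤ e.dC y x + 4 * e.tau + e.lam
  · rw [if_pos hc]
    have hb : Nat.ble (e.wtD x y) (Nat.add (e.dC y x + 4 * e.tau) e.lam) = true :=
      Nat.ble_eq_true_of_le hc
    rw [hb]
  · rw [if_neg hc]
    have hb : Nat.ble (e.wtD x y) (Nat.add (e.dC y x + 4 * e.tau) e.lam) = false := es4_ble hc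
    rw [hb]
    have hK := encK0_eq e h x y hx hy (e.dC y x + 4 * e.tau) _ (by omega) rfl
    rw [hK]
    rfl

/-- `y` = triple (child form) with third label set `N`, `x` = base (root form). -/
theorem v0_spec (e : EP) (h : e.Ok) (x y : DS e.K) (N : Finset (Fin 8)) (hx : e.OkD x)
    (hy : e.OkD y) (st : List It) :
    e.v0 (e.enc y) (msk N) (e.enc x) st =
      if x.N₁ ∩ y.N₁ ∩ y.N₂ ∩ N = ∅ ∧ e.dC x y + e.tau * (x.N₁ ∩ N).card < e.wtD x y
      then It.bad :: st else st := by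
  have hW := wt_eq e h x y hx hy
  have hS := sh_eq e h x y hx hy
  have hS2 := s2_eq e h x y hx hy
  have hN := n1_eq e h x hx
  have hP := pc_eq e h (x.N₁ ∩ y.N₁)
  have hP2 := pc_eq e h (x.N₁ ∩ y.N₂)
  have hP3 := pc_eq e h (x.N₁ ∩ N)
  have hlx := ld_eq e h x hx
  have hly := ld_eq e h y hy
  unfold EP.v0 Eng.v0
  rw [hS, hS2, hN, es4_land x.N₁ N, es4_land, es4_land, hP, hP2, hP3, hlx, hly, hW]
  have hLL : Nat.add (Nat.add x.ld y.ld) (Nat.add (Nat.add (e.tau * (x.N₁ ∩ y.N₁).card)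
      (e.tau * (x.N₁ ∩ y.N₂).card)) (e.tau * (x.N₁ ∩ N).card)) =
      e.dC x y + e.tau * (x.N₁ ∩ N).card := by
    show x.ld + y.ld + (e.tau * (x.N₁ ∩ y.N₁).card + e.tau * (x.N₁ ∩ y.N₂).card +
      e.tau * (x.N₁ ∩ N).card) = _
    unfold EP.dC
    ring
  rw [hLL]
  have hset : x.N₁ ∩ y.N₁ ∩ (x.N₁ ∩ y.N₂) ∩ (x.N₁ ∩ N) = x.N₁ ∩ y.N₁ ∩ y.N₂ ∩ N := by
    ext a
    simp only [Finset.mem_inter]
    tauto
  rw [hset]
  by_cases hE : x.N₁ ∩ y.N₁ ∩ y.N₂ ∩ N = ∅
  · have hb0 : Nat.beq (msk (x.N₁ ∩ y.N₁ ∩ y.N₂ ∩ N)) 0 = true := by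
      rw [hE, (msk_zero ∅).2 rfl]
      rfl
    rw [hb0]
    by_cases hc : e.wtD x y ≤ e.dC x y + e.tau * (x.N₁ ∩ N).card
    · rw [if_neg (fun hh => absurd hh.2 (not_lt.2 hc))]
      have hb : Nat.ble (e.wtD x y) (e.dC x y + e.tau * (x.N₁ ∩ N).card) = true :=
        Nat.ble_eq_true_of_le hc
      rw [hb]
    · rw [if_pos ⟨hE, not_le.1 hc⟩]
      have hb : Nat.ble (e.wtD x y) (e.dC x y + e.tau * (x.N₁ ∩ N).card) = false := es4_ble hc
      rw [hb]
  · have hb0 : Nat.beq (msk (x.N₁ ∩ y.N₁ ∩ y.N₂ ∩ N)) 0 = false := by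
      refine Bool.eq_false_of_not_eq_true (fun hh => hE ?_)
      exact (msk_zero _).1 (Nat.eq_of_beq_eq_true hh)
    rw [hb0, if_neg (fun hh => hE hh.1)]

/-- the loop over the bases: `v0` for all elements of `B3`, after the item for the trivial root -/
theorem v0s_mem (e : EP) (b3 : List ℕ) (f n w : ℕ) (st : List It) (it : It) :
    it ∈ e.v0s b3 f n w st ↔ it ∈ st ∨ (e.c1 < w ∧ it = It.r1 (e.trivQ f) w) ∨
      ∃ x ∈ b3, it ∈ e.v0 f n x [] := by
  induction b3 with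
  | nil =>
    have h0 : e.v0s [] f n w st =
        Bool.rec (motive := fun _ => List It) (It.r1 (e.trivQ f) w :: st) st (Nat.ble w e.c1) := rfl
    rw [h0]
    by_cases hc : w ≤ e.c1
    · have hb : Nat.ble w e.c1 = true := Nat.ble_eq_true_of_le hc
      rw [hb]
      constructor
      · intro hh
        exact Or.inl hh
      · rintro (hh | ⟨hh, _⟩ | ⟨x, hx, _⟩)
        · exact hh
        · omega
        · exact absurd hx (List.not_mem_nil)
    · have hb : Nat.ble w e.c1 = false := es4_ble hc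
      rw [hb]
      constructor
      · intro hh
        rcases List.mem_cons.1 hh with hh | hh
        · exact Or.inr (Or.inl ⟨by omega, hh⟩)
        · exact Or.inl hh
      · rintro (hh | ⟨_, hh⟩ | ⟨x, hx, _⟩)
        · exact List.mem_cons_of_mem _ hh
        · exact List.mem_cons.2 (Or.inl hh)
        · exact absurd hx (List.not_mem_nil)
  | cons x l ih =>
    have h0 : e.v0s (x :: l) f n w st = e.v0 f n x (e.v0s l f n w st) := rfl
    rw [h0, es4_v0_mem, ih]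
    constructor
    · rintro ((hh | hh | ⟨z, hz, hh⟩) | hh)
      · exact Or.inl hh
      · exact Or.inr (Or.inl hh)
      · exact Or.inr (Or.inr ⟨z, List.mem_cons_of_mem _ hz, hh⟩)
      · exact Or.inr (Or.inr ⟨x, List.mem_cons_self, hh⟩)
    · rintro (hh | hh | ⟨z, hz, hh⟩)
      · exact Or.inl (Or.inl hh)
      · exact Or.inl (Or.inr (Or.inl hh))
      · rcases List.mem_cons.1 hz with rfl | hz
        · exact Or.inr hh
        · exact Or.inl (Or.inr (Or.inr ⟨z, hz, hh⟩))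

end Pool.Agent.MP_528dc0_co

end

section

open Finset

namespace Pool.Agent.MP_528dc0_co

open Eng (Lst It)

theorem eb4_min_le_left (a b : ℕ) : Eng.minN a b ≤ a ∧ Eng.minN a b ≤ b := by
  constructor
  · show Eng.minN a b ≤ a
    unfold Eng.minN
    show a - (a - b) ≤ a
    omega
  · show Eng.minN a b ≤ b
    unfold Eng.minN
    show a - (a - b) ≤ b
    omega

/-- all keys are in range: `ld < 2^s` and the constants are at most `12 lam + 16 tau ≤ 2^(s+1)` -/
theorem key_le (e : EP) (h : e.Ok) (y : DS e.K) (hy : e.OkD y) (c : ℕ)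
    (hc : c ∈ [e.k0, e.k1, e.k2, e.kp, e.k4, e.kk, e.kV, e.kW]) :
    (e.enc y) >>> e.l0 + c ≤ 3 * 2 ^ e.s := by
  have h1 : (e.enc y) >>> e.l0 = y.ld := ld_eq e h y hy
  have h2 := hy.2
  have h3 := h.hl
  have hk0 : e.k0 = 8 * e.tau := rfl
  have hk1 : e.k1 = 8 * e.tau + 3 * e.lam := rfl
  have hk2 : e.k2 = 8 * e.tau + Eng.minN (6 * e.lam) (4 * e.lam + e.tau) := rfl
  have hkp : e.kp = 8 * e.tau + Eng.minN (e.tau + 2 * e.lam) (6 * e.lam) := rfl
  have hk4 : e.k4 = 8 * e.tau + 4 * e.lam := rfl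
  have hkk : e.kk = 8 * e.tau + 2 * e.lam := rfl
  have hkV : e.kV = 8 * e.tau + (2 * e.lam + 4 * e.tau) := rfl
  have hkW : e.kW = 8 * e.tau + (e.lam + 4 * e.tau) := rfl
  have hm1 := (eb4_min_le_left (6 * e.lam) (4 * e.lam + e.tau)).1
  have hm2 := (eb4_min_le_left (e.tau + 2 * e.lam) (6 * e.lam)).2
  have h4 : c ≤ 12 * e.lam + 16 * e.tau := by
    simp only [List.mem_cons, List.not_mem_nil, or_false] at hc
    rcases hc with hc | hc | hc | hc | hc | hc | hc | hc <;> omega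
  rw [h1]
  rw [pow_succ] at h3
  omega

theorem eb4_two (b c : Bool) (a : It) : ∃ l : List It, ∀ st : List It,
    (Bool.rec (motive := fun _ => List It) st
      (Bool.rec (motive := fun _ => List It) (List.cons a st) st b) c) = l ++ st := by
  cases b <;> cases c
  · exact ⟨[], fun st => rfl⟩
  · exact ⟨[a], fun st => rfl⟩
  · exact ⟨[], fun st => rfl⟩
  · exact ⟨[], fun st => rfl⟩

theorem eb4_one (b : Bool) (a : It) : ∃ l : List It, ∀ st : List It,
    (Bool.rec (motive := fun _ => List It) (List.cons a st) st b) = l ++ st := by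
  cases b
  · exact ⟨[a], fun st => rfl⟩
  · exact ⟨[], fun st => rfl⟩

theorem eb4_G (b b1 b2 c : Bool) (a a1 a2 : It) : ∃ l : List It, ∀ st : List It,
    (Bool.rec (motive := fun _ => List It) st ((fun st : List It =>
      (Bool.rec (motive := fun _ => List It) (List.cons a st) st b))
      (Bool.rec (motive := fun _ => List It) (List.cons a1
        (Bool.rec (motive := fun _ => List It) (List.cons a2 st) st b2)) st b1)) c) = l ++ st := by
  cases b <;> cases b1 <;> cases b2 <;> cases c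
  all_goals first
    | exact ⟨[], fun st => rfl⟩
    | exact ⟨[a], fun st => rfl⟩
    | exact ⟨[a1], fun st => rfl⟩
    | exact ⟨[a1, a2], fun st => rfl⟩
    | exact ⟨[a, a1], fun st => rfl⟩
    | exact ⟨[a, a1, a2], fun st => rfl⟩

theorem eb4_edge0_gen (pl sJ l0 C mS CM HC ET PT : ℕ) (x y : ℕ) :
    ∃ l : List It, ∀ st, Eng.edge0 pl sJ l0 C mS CM HC ET PT x y st = l ++ st := eb4_two _ _ _

theorem eb4_edge1_gen (pl sJ l0 C mS CM HC X0 ET PT c1 : ℕ) (x y : ℕ) :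
    ∃ l : List It, ∀ st, Eng.edge1 pl sJ l0 C mS CM HC X0 ET PT c1 x y st = l ++ st := eb4_two _ _ _

theorem eb4_edge2_gen (pl sJ l0 C mS CM HC X0 ET PT c2 : ℕ) (x y : ℕ) :
    ∃ l : List It, ∀ st, Eng.edge2 pl sJ l0 C mS CM HC X0 ET PT c2 x y st = l ++ st := eb4_two _ _ _

theorem eb4_close0_gen (pl sJ sj8 l0 C mS CM HC ET E3 PT : ℕ) (k3 x y : ℕ) :
    ∃ l : List It, ∀ st, Eng.close0 pl sJ sj8 l0 C mS CM HC ET E3 PT k3 x y st = l ++ st := eb4_two _ _ _

theorem eb4_close1_gen (pl sJ sj8 l0 C mS CM HC X0 ET E3 PT c1 : ℕ) (k3 x y : ℕ) :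
    ∃ l : List It, ∀ st, Eng.close1 pl sJ sj8 l0 C mS CM HC X0 ET E3 PT c1 k3 x y st = l ++ st := eb4_two _ _ _

theorem eb4_chain_gen (pl sJ l0 C mS CM HC XL XF ET PT : ℕ) (r : ℕ → ℕ → It) (thr x y : ℕ) :
    ∃ l : List It, ∀ st, Eng.chain pl sJ l0 C mS CM HC XL XF ET PT r thr x y st = l ++ st := eb4_two _ _ _

theorem eb4_pairG_gen (pl sJ l0 C mS CM HC XL XF XY ET PT tau thT th6 : ℕ) (y x : ℕ) :
    ∃ l : List It, ∀ st, Eng.pairG pl sJ l0 C mS CM HC XL XF XY ET PT tau thT th6 y x st = l ++ st := eb4_G _ _ _ _ _ _ _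

theorem eb4_pairV_gen (pl sJ l0 C mS CM HC XL XF PT thV : ℕ) (y x : ℕ) :
    ∃ l : List It, ∀ st, Eng.pairV pl sJ l0 C mS CM HC XL XF PT thV y x st = l ++ st := eb4_one _ _

theorem eb4_triV_gen (pl sJ sj8 l0 C mS CM HC X0 PT lam t4 : ℕ) (x y : ℕ) :
    ∃ l : List It, ∀ st, Eng.triV pl sJ sj8 l0 C mS CM HC X0 PT lam t4 x y st = l ++ st := eb4_one _ _

/-- the functions prepend (by their definitions: `Bool.rec` on conditions not involving `st`) -/
theorem app_edge (e : EP) (x y : ℕ) (st : List It) :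
    e.edge0 x y st = e.edge0 x y [] ++ st ∧ e.edge1 x y st = e.edge1 x y [] ++ st ∧
    e.edge2 x y st = e.edge2 x y [] ++ st := by
  obtain ⟨l_edge0, h_edge0⟩ := eb4_edge0_gen e.pl e.sJ e.l0 e.C e.mS e.CM e.HC e.ET e.PT x y
  obtain ⟨l_edge1, h_edge1⟩ := eb4_edge1_gen e.pl e.sJ e.l0 e.C e.mS e.CM e.HC e.X0 e.ET e.PT e.c1 x y
  obtain ⟨l_edge2, h_edge2⟩ := eb4_edge2_gen e.pl e.sJ e.l0 e.C e.mS e.CM e.HC e.X0 e.ET e.PT e.c2 x y
  refine ⟨?_, ?_, ?_⟩
  · show Eng.edge0 e.pl e.sJ e.l0 e.C e.mS e.CM e.HC e.ET e.PT x y st = Eng.edge0 e.pl e.sJ e.l0 e.C e.mS e.CM e.HC e.ET e.PT x y [] ++ st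
    rw [h_edge0 st, h_edge0 [], List.append_nil]
  · show Eng.edge1 e.pl e.sJ e.l0 e.C e.mS e.CM e.HC e.X0 e.ET e.PT e.c1 x y st = Eng.edge1 e.pl e.sJ e.l0 e.C e.mS e.CM e.HC e.X0 e.ET e.PT e.c1 x y [] ++ st
    rw [h_edge1 st, h_edge1 [], List.append_nil]
  · show Eng.edge2 e.pl e.sJ e.l0 e.C e.mS e.CM e.HC e.X0 e.ET e.PT e.c2 x y st = Eng.edge2 e.pl e.sJ e.l0 e.C e.mS e.CM e.HC e.X0 e.ET e.PT e.c2 x y [] ++ st
    rw [h_edge2 st, h_edge2 [], List.append_nil]
theorem app_close (e : EP) (k3 x y : ℕ) (st : List It) :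
    e.close0 k3 x y st = e.close0 k3 x y [] ++ st ∧
    e.close1 k3 x y st = e.close1 k3 x y [] ++ st := by
  obtain ⟨l_close0, h_close0⟩ := eb4_close0_gen e.pl e.sJ e.sj8 e.l0 e.C e.mS e.CM e.HC e.ET e.E3 e.PT k3 x y
  obtain ⟨l_close1, h_close1⟩ := eb4_close1_gen e.pl e.sJ e.sj8 e.l0 e.C e.mS e.CM e.HC e.X0 e.ET e.E3 e.PT e.c1 k3 x y
  refine ⟨?_, ?_⟩
  · show Eng.close0 e.pl e.sJ e.sj8 e.l0 e.C e.mS e.CM e.HC e.ET e.E3 e.PT k3 x y st = Eng.close0 e.pl e.sJ e.sj8 e.l0 e.C e.mS e.CM e.HC e.ET e.E3 e.PT k3 x y [] ++ st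
    rw [h_close0 st, h_close0 [], List.append_nil]
  · show Eng.close1 e.pl e.sJ e.sj8 e.l0 e.C e.mS e.CM e.HC e.X0 e.ET e.E3 e.PT e.c1 k3 x y st = Eng.close1 e.pl e.sJ e.sj8 e.l0 e.C e.mS e.CM e.HC e.X0 e.ET e.E3 e.PT e.c1 k3 x y [] ++ st
    rw [h_close1 st, h_close1 [], List.append_nil]
theorem app_chain (e : EP) (r : ℕ → ℕ → It) (thr x y : ℕ) (st : List It) :
    e.chain r thr x y st = e.chain r thr x y [] ++ st := by
  obtain ⟨l_chain, h_chain⟩ := eb4_chain_gen e.pl e.sJ e.l0 e.C e.mS e.CM e.HC e.XL e.XF e.ET e.PT r thr x y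
  show Eng.chain e.pl e.sJ e.l0 e.C e.mS e.CM e.HC e.XL e.XF e.ET e.PT r thr x y st = Eng.chain e.pl e.sJ e.l0 e.C e.mS e.CM e.HC e.XL e.XF e.ET e.PT r thr x y [] ++ st
  rw [h_chain st, h_chain [], List.append_nil]
theorem app_pair (e : EP) (x y : ℕ) (st : List It) :
    e.pairG x y st = e.pairG x y [] ++ st ∧ e.pairV x y st = e.pairV x y [] ++ st ∧
    e.triV x y st = e.triV x y [] ++ st := by
  obtain ⟨l_pairG, h_pairG⟩ := eb4_pairG_gen e.pl e.sJ e.l0 e.C e.mS e.CM e.HC e.XL e.XF e.XY e.ET e.PT e.tau e.thT e.th6 x y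
  obtain ⟨l_pairV, h_pairV⟩ := eb4_pairV_gen e.pl e.sJ e.l0 e.C e.mS e.CM e.HC e.XL e.XF e.PT e.thV x y
  obtain ⟨l_triV, h_triV⟩ := eb4_triV_gen e.pl e.sJ e.sj8 e.l0 e.C e.mS e.CM e.HC e.X0 e.PT e.lam e.t4 x y
  refine ⟨?_, ?_, ?_⟩
  · show Eng.pairG e.pl e.sJ e.l0 e.C e.mS e.CM e.HC e.XL e.XF e.XY e.ET e.PT e.tau e.thT e.th6 x y st = Eng.pairG e.pl e.sJ e.l0 e.C e.mS e.CM e.HC e.XL e.XF e.XY e.ET e.PT e.tau e.thT e.th6 x y [] ++ st
    rw [h_pairG st, h_pairG [], List.append_nil]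
  · show Eng.pairV e.pl e.sJ e.l0 e.C e.mS e.CM e.HC e.XL e.XF e.PT e.thV x y st = Eng.pairV e.pl e.sJ e.l0 e.C e.mS e.CM e.HC e.XL e.XF e.PT e.thV x y [] ++ st
    rw [h_pairV st, h_pairV [], List.append_nil]
  · show Eng.triV e.pl e.sJ e.sj8 e.l0 e.C e.mS e.CM e.HC e.X0 e.PT e.lam e.t4 x y st = Eng.triV e.pl e.sJ e.sj8 e.l0 e.C e.mS e.CM e.HC e.X0 e.PT e.lam e.t4 x y [] ++ st
    rw [h_triV st, h_triV [], List.append_nil]

theorem eb4_card (N : Finset (Fin 8)) : N.card ≤ 8 := by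
  have := Finset.card_le_univ N
  simpa using this

theorem eb4_tau (t m : ℕ) (hm : m ≤ 8) : t * (8 - m) + t * m = 8 * t := by
  rw [← Nat.mul_add, Nat.sub_add_cancel hm, Nat.mul_comm]

/-- mask `D1`, key `y.ld + 8 tau + c`: not viable means `wtD x y ≤ dE x y + c` -/
theorem nv1 (e : EP) (h : e.Ok) (x y : DS e.K) (hx : e.OkD x) (hy : e.OkD y) (c : ℕ)
    (hn : ¬ x.ld + ((e.enc y) >>> e.l0 + (8 * e.tau + c)) < e.wz (e.enc x &&& Nat.land (e.enc y) e.D1)) :
    e.wtD x y ≤ e.dE x y + c := by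
  have h1 : (e.enc y) >>> e.l0 = y.ld := ld_eq e h y hy
  rw [h1, wz1_eq e h x y hx hy] at hn
  have h2 := eb4_tau e.tau _ (eb4_card (x.N₁ ∩ y.N₁))
  unfold EP.dE
  omega
/-- mask `D3`: not viable means `wtD x y ≤ dC x y + c` if `x` is a piece (`N₁ = N₂`), because
`|(N ∩ y.N₁) ∪ (N ∩ y.N₂)| ≤ |N ∩ y.N₁| + |N ∩ y.N₂|` -/
theorem nv3 (e : EP) (h : e.Ok) (x y : DS e.K) (hx : e.OkD x) (hy : e.OkD y) (c : ℕ)
    (hp : x.N₁ = x.N₂)
    (hn : ¬ x.ld + ((e.enc y) >>> e.l0 + (8 * e.tau + c)) < e.wz (e.enc x &&& Nat.land (e.enc y) e.D3)) :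
    e.wtD x y ≤ e.dC x y + c := by
  have h1 : (e.enc y) >>> e.l0 = y.ld := ld_eq e h y hy
  rw [h1, wz3_eq e h x y hx hy] at hn
  have h2 := eb4_tau e.tau _ (eb4_card ((x.N₁ ∩ y.N₁) ∪ (x.N₂ ∩ y.N₂)))
  have h3 : ((x.N₁ ∩ y.N₁) ∪ (x.N₂ ∩ y.N₂)).card ≤ (x.N₁ ∩ y.N₁).card + (x.N₁ ∩ y.N₂).card := by
    rw [← hp]
    exact Finset.card_union_le _ _
  have h4 := Nat.mul_le_mul_left e.tau h3
  rw [Nat.mul_add] at h4
  unfold EP.dC
  omega
/-- the same with the roles of list and new item exchanged: `x` is the chain, `y` the piece -/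
theorem nv3' (e : EP) (h : e.Ok) (x y : DS e.K) (hx : e.OkD x) (hy : e.OkD y) (c : ℕ)
    (hp : y.N₁ = y.N₂)
    (hn : ¬ x.ld + ((e.enc y) >>> e.l0 + (8 * e.tau + c)) < e.wz (e.enc x &&& Nat.land (e.enc y) e.D3)) :
    e.wtD x y ≤ e.dC y x + c := by
  have h1 : (e.enc y) >>> e.l0 = y.ld := ld_eq e h y hy
  rw [h1, wz3_eq e h x y hx hy] at hn
  have h2 := eb4_tau e.tau _ (eb4_card ((x.N₁ ∩ y.N₁) ∪ (x.N₂ ∩ y.N₂)))
  have h3 : ((x.N₁ ∩ y.N₁) ∪ (x.N₂ ∩ y.N₂)).card ≤ (y.N₁ ∩ x.N₁).card + (y.N₁ ∩ x.N₂).card := by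
    rw [← hp, Finset.inter_comm y.N₁ x.N₁, Finset.inter_comm y.N₁ x.N₂]
    exact Finset.card_union_le _ _
  have h4 := Nat.mul_le_mul_left e.tau h3
  rw [Nat.mul_add] at h4
  unfold EP.dC
  omega

end Pool.Agent.MP_528dc0_co

end
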