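import Mathlib
import Pool.Agent.MP_528dc0_co.Enc
import Pool.Agent.MP_528dc0_co.EncB

/-!
# The engine: the closure computation
-/

section

open Finset

namespace Pool.Agent.MP_528dc0_co

open Eng (Lst It)

theorem ec1_none (e : EP) (s : It → Option (ℕ × ℕ)) (it : It) (D : List It) (h : s it = none) :
    e.ls s (it :: D) = e.ls s D := by
  unfold EP.ls
  rw [List.filterMap_cons_none h]

theorem ec1_some (e : EP) (s : It → Option (ℕ × ℕ)) (it : It) (D : List It) (a : ℕ × ℕ)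
    (h : s it = some a) : e.ls s (it :: D) = e.app (e.ls s D) a.1 a.2 := by
  unfold EP.ls
  rw [List.filterMap_cons_some h]
  rfl

theorem ec1_ble_true {a b : ℕ} (h : a ≤ b) : Nat.ble a b = true := Nat.ble_eq_true_of_le h

theorem ec1_ble_false {a b : ℕ} (h : ¬ a ≤ b) : Nat.ble a b = false := by
  rw [← Bool.not_eq_true, Nat.ble_eq]
  exact h

theorem ec1_r1 (e : EP) (b1 b2 : List (ℕ × ℕ)) (b3 : List ℕ) (n : ℕ) (f w : ℕ)
    (st D : List It) :
    e.run b1 b2 b3 (n + 1) (It.r1 f w :: st) D =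
      e.run b1 b2 b3 n (e.out b1 b2 b3 (It.r1 f w) st D) (It.r1 f w :: D) := by
  have e1 : e.run b1 b2 b3 (n + 1) (It.r1 f w :: st) D =
    Eng.h1 e.W e.g e.pl e.sJ e.l0 e.Hf e.LMf e.C e.mF e.mS e.CM e.HC e.S16 e.D1 e.X0 e.CL e.ET
      e.PT e.F1 e.m0 e.k0 e.k1 e.k2 e.c1 e.c2 e.c3 e.t1 (e.pk b1)
      (e.go (e.pk b1) (e.pk b2) b3 n) f w st (e.ls e.sel1 D) (e.ls e.sel2e D) (e.ls e.sel2 D)
      (e.ls e.sel2u D) (e.ls e.sel3 D) (e.ls e.selT D) (e.ls e.selU2 D) (e.ls e.selU3 D)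
      (e.ls e.selU4 D) (e.ls e.selV D) := rfl
  rw [e1]
  unfold Eng.h1
  unfold EP.run
  rw [ec1_none e e.sel2e _ D rfl, ec1_none e e.sel2 _ D rfl, ec1_none e e.sel2u _ D rfl,
    ec1_none e e.sel3 _ D rfl, ec1_none e e.selT _ D rfl, ec1_none e e.selU2 _ D rfl,
    ec1_none e e.selU3 _ D rfl, ec1_none e e.selU4 _ D rfl, ec1_none e e.selV _ D rfl]
  by_cases h1 : w ≤ e.t1
  · have hs : e.sel1 (It.r1 f w) = none := by
      simp only [EP.sel1, if_pos h1]
    rw [ec1_ble_true h1, ec1_none e e.sel1 _ D hs]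
    by_cases h3 : w ≤ e.c3
    · rw [ec1_ble_true h3]
      simp only [EP.out, if_pos h1, if_pos h3]
      rfl
    · rw [ec1_ble_false h3]
      simp only [EP.out, if_pos h1, if_neg h3]
      rfl
  · have hs : e.sel1 (It.r1 f w) = some (f, f >>> e.l0) := by
      simp only [EP.sel1, if_neg h1]
    rw [ec1_ble_false h1, ec1_some e e.sel1 _ D _ hs]
    by_cases h3 : w ≤ e.c3
    · rw [ec1_ble_true h3]
      simp only [EP.out, if_neg h1, if_pos h3]
      rfl
    · rw [ec1_ble_false h3]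
      simp only [EP.out, if_neg h1, if_neg h3]
      rfl

theorem ec1_r2 (e : EP) (b1 b2 : List (ℕ × ℕ)) (b3 : List ℕ) (n : ℕ) (p q w : ℕ)
    (st D : List It) :
    e.run b1 b2 b3 (n + 1) (It.r2 p q w :: st) D =
      e.run b1 b2 b3 n (e.out b1 b2 b3 (It.r2 p q w) st D) (It.r2 p q w :: D) := by
  have e1 : e.run b1 b2 b3 (n + 1) (It.r2 p q w :: st) D =
    Eng.h2 e.W e.g e.pl e.sJ e.l0 e.Hf e.LMf e.C e.mF e.mS e.CM e.HC e.D1 e.X0 e.XL e.XF e.XY e.ET
      e.PT e.tau e.m0 e.k1 e.c1 e.kp e.k4 e.kk e.t2e e.t2u e.thT e.t2e e.th4 e.th2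
      (e.go (e.pk b1) (e.pk b2) b3 n) p q w st (e.ls e.sel1 D) (e.ls e.sel2e D) (e.ls e.sel2 D)
      (e.ls e.sel2u D) (e.ls e.sel3 D) (e.ls e.selT D) (e.ls e.selU2 D) (e.ls e.selU3 D)
      (e.ls e.selU4 D) (e.ls e.selV D) := rfl
  rw [e1]
  unfold Eng.h2 Eng.h2a Eng.h2b
  have hs2 : e.sel2 (It.r2 p q w) = some (p, p >>> e.l0) := rfl
  unfold EP.run
  rw [ec1_none e e.sel1 _ D rfl,
    ec1_none e e.sel3 _ D rfl,
    ec1_none e e.selT _ D rfl,
    ec1_none e e.selU2 _ D rfl,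
    ec1_none e e.selU3 _ D rfl,
    ec1_none e e.selU4 _ D rfl,
    ec1_none e e.selV _ D rfl,
    ec1_some e e.sel2 _ D _ hs2]
  by_cases h1 : w ≤ e.t2e
  · have hs : e.sel2e (It.r2 p q w) = none := by
      simp only [EP.sel2e, if_pos h1]
    have hs' : e.sel2u (It.r2 p q w) = none := by
      simp only [EP.sel2u, if_pos h1]
    rw [ec1_ble_true h1, ec1_none e e.sel2e _ D hs, ec1_none e e.sel2u _ D hs']
    simp only [EP.out, if_pos h1]
    rw [ec1_some e e.sel2 _ D _ hs2]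
    rfl
  · have hs : e.sel2e (It.r2 p q w) = some (p, p >>> e.l0) := by
      simp only [EP.sel2e, if_neg h1]
    rw [ec1_ble_false h1, ec1_some e e.sel2e _ D _ hs]
    by_cases h3 : w ≤ e.t2u
    · have hs' : e.sel2u (It.r2 p q w) = none := by
        simp only [EP.sel2u, if_neg h1, if_pos h3]
      rw [ec1_ble_true h3, ec1_none e e.sel2u _ D hs']
      simp only [EP.out, if_neg h1, if_pos h3]
      rw [ec1_some e e.sel2 _ D _ hs2]
      rfl
    · have hs' : e.sel2u (It.r2 p q w) = some (p, p >>> e.l0) := by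
        simp only [EP.sel2u, if_neg h1, if_neg h3]
      rw [ec1_ble_false h3, ec1_some e e.sel2u _ D _ hs']
      simp only [EP.out, if_neg h1, if_neg h3]
      rw [ec1_some e e.sel2 _ D _ hs2]
      rfl

theorem ec1_r3 (e : EP) (b1 b2 : List (ℕ × ℕ)) (b3 : List ℕ) (n : ℕ) (p q w : ℕ)
    (st D : List It) :
    e.run b1 b2 b3 (n + 1) (It.r3 p q w :: st) D =
      e.run b1 b2 b3 n (e.out b1 b2 b3 (It.r3 p q w) st D) (It.r3 p q w :: D) := by
  have e1 : e.run b1 b2 b3 (n + 1) (It.r3 p q w :: st) D =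
    Eng.h3 e.kf e.W e.g e.pl e.sJ e.sj8 e.l0 e.Hf e.LMf e.C e.mF e.mS e.CM e.HC e.D3 e.D1 e.X0 e.XL
      e.XF e.ET e.E3 e.PT e.lam e.m0 e.k1 e.k2 e.c1 e.c2 e.kV e.kW e.thV e.t4
      (e.go (e.pk b1) (e.pk b2) b3 n) p q w st (e.ls e.sel1 D) (e.ls e.sel2e D) (e.ls e.sel2 D)
      (e.ls e.sel2u D) (e.ls e.sel3 D) (e.ls e.selT D) (e.ls e.selU2 D) (e.ls e.selU3 D)
      (e.ls e.selU4 D) (e.ls e.selV D) := rfl
  rw [e1]
  unfold Eng.h3 Eng.h3a
  have hs3 : e.sel3 (It.r3 p q w) = some (p, p >>> e.l0) := rfl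
  unfold EP.run
  rw [ec1_none e e.sel1 _ D rfl,
    ec1_none e e.sel2e _ D rfl,
    ec1_none e e.sel2 _ D rfl,
    ec1_none e e.sel2u _ D rfl,
    ec1_none e e.selT _ D rfl,
    ec1_none e e.selU2 _ D rfl,
    ec1_none e e.selU3 _ D rfl,
    ec1_none e e.selU4 _ D rfl,
    ec1_none e e.selV _ D rfl,
    ec1_some e e.sel3 _ D _ hs3]
  by_cases h1 : e.kf = 1
  · have hb : Nat.beq e.kf 1 = true := Nat.beq_eq.mpr h1
    rw [hb]
    simp only [EP.out, if_pos h1]
    rfl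
  · have hb : Nat.beq e.kf 1 = false := by
      rw [← Bool.not_eq_true, Nat.beq_eq]
      exact h1
    rw [hb]
    simp only [EP.out, if_neg h1]
    rw [ec1_some e e.sel3 _ D _ hs3]
    rfl

theorem ec1_t2 (e : EP) (b1 b2 : List (ℕ × ℕ)) (b3 : List ℕ) (n : ℕ) (f w : ℕ)
    (st D : List It) :
    e.run b1 b2 b3 (n + 1) (It.t2 f w :: st) D =
      e.run b1 b2 b3 n (e.out b1 b2 b3 (It.t2 f w) st D) (It.t2 f w :: D) := by
  have e1 : e.run b1 b2 b3 (n + 1) (It.t2 f w :: st) D =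
    Eng.ht e.W e.g e.pl e.sJ e.sj8 e.l0 e.Hf e.LMf e.C e.mF e.mS e.CM e.HC e.S16 e.D3 e.X0 e.CL
      e.ET e.E3 e.PT e.F1 e.m0 e.k0 e.k1 e.c1 e.c2 (e.pk b2)
      (e.go (e.pk b1) (e.pk b2) b3 n) f w st (e.ls e.sel1 D) (e.ls e.sel2e D) (e.ls e.sel2 D)
      (e.ls e.sel2u D) (e.ls e.sel3 D) (e.ls e.selT D) (e.ls e.selU2 D) (e.ls e.selU3 D)
      (e.ls e.selU4 D) (e.ls e.selV D) := rfl
  rw [e1]
  unfold Eng.ht
  have hsT : e.selT (It.t2 f w) = some (f, f >>> e.l0) := rfl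
  unfold EP.run
  rw [ec1_none e e.sel1 _ D rfl,
    ec1_none e e.sel2e _ D rfl,
    ec1_none e e.sel2 _ D rfl,
    ec1_none e e.sel2u _ D rfl,
    ec1_none e e.sel3 _ D rfl,
    ec1_none e e.selU2 _ D rfl,
    ec1_none e e.selU3 _ D rfl,
    ec1_none e e.selU4 _ D rfl,
    ec1_none e e.selV _ D rfl,
    ec1_some e e.selT _ D _ hsT]
  by_cases h1 : w ≤ e.c2
  · rw [ec1_ble_true h1]
    simp only [EP.out, if_pos h1]
    rfl
  · rw [ec1_ble_false h1]
    simp only [EP.out, if_neg h1]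
    rfl

theorem ec1_u2 (e : EP) (b1 b2 : List (ℕ × ℕ)) (b3 : List ℕ) (n : ℕ) (f w : ℕ)
    (st D : List It) :
    e.run b1 b2 b3 (n + 1) (It.u2 f w :: st) D =
      e.run b1 b2 b3 n (e.out b1 b2 b3 (It.u2 f w) st D) (It.u2 f w :: D) := by
  have hs : e.selU2 (It.u2 f w) = some (f, f >>> e.l0) := rfl
  unfold EP.run
  rw [ec1_none e e.sel1 _ D rfl,
    ec1_none e e.sel2e _ D rfl,
    ec1_none e e.sel2 _ D rfl,
    ec1_none e e.sel2u _ D rfl,
    ec1_none e e.sel3 _ D rfl,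
    ec1_none e e.selT _ D rfl,
    ec1_none e e.selU3 _ D rfl,
    ec1_none e e.selU4 _ D rfl,
    ec1_none e e.selV _ D rfl,
    ec1_some e e.selU2 _ D _ hs]
  rfl

theorem ec1_u3 (e : EP) (b1 b2 : List (ℕ × ℕ)) (b3 : List ℕ) (n : ℕ) (f w : ℕ)
    (st D : List It) :
    e.run b1 b2 b3 (n + 1) (It.u3 f w :: st) D =
      e.run b1 b2 b3 n (e.out b1 b2 b3 (It.u3 f w) st D) (It.u3 f w :: D) := by
  have hs : e.selU3 (It.u3 f w) = some (f, f >>> e.l0) := rfl
  unfold EP.run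
  rw [ec1_none e e.sel1 _ D rfl,
    ec1_none e e.sel2e _ D rfl,
    ec1_none e e.sel2 _ D rfl,
    ec1_none e e.sel2u _ D rfl,
    ec1_none e e.sel3 _ D rfl,
    ec1_none e e.selT _ D rfl,
    ec1_none e e.selU2 _ D rfl,
    ec1_none e e.selU4 _ D rfl,
    ec1_none e e.selV _ D rfl,
    ec1_some e e.selU3 _ D _ hs]
  rfl

theorem ec1_u4 (e : EP) (b1 b2 : List (ℕ × ℕ)) (b3 : List ℕ) (n : ℕ) (f w : ℕ)
    (st D : List It) :
    e.run b1 b2 b3 (n + 1) (It.u4 f w :: st) D =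
      e.run b1 b2 b3 n (e.out b1 b2 b3 (It.u4 f w) st D) (It.u4 f w :: D) := by
  have e1 : e.run b1 b2 b3 (n + 1) (It.u4 f w :: st) D =
    Eng.hu4 e.W e.g e.pl e.sJ e.sj8 e.l0 e.Hf e.LMf e.C e.mF e.mS e.CM e.HC e.S16 e.D3 e.D1 e.X0
      e.XL e.XF e.CL e.ET e.E3 e.PT e.F1 e.m0 e.k0 e.k1 e.c1 e.c2 e.k4 e.th4 (e.pk b2)
      (e.go (e.pk b1) (e.pk b2) b3 n) f w st (e.ls e.sel1 D) (e.ls e.sel2e D) (e.ls e.sel2 D)
      (e.ls e.sel2u D) (e.ls e.sel3 D) (e.ls e.selT D) (e.ls e.selU2 D) (e.ls e.selU3 D)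
      (e.ls e.selU4 D) (e.ls e.selV D) := rfl
  rw [e1]
  unfold Eng.hu4
  have hs : e.selU4 (It.u4 f w) = some (f, f >>> e.l0) := rfl
  unfold EP.run
  rw [ec1_none e e.sel1 _ D rfl,
    ec1_none e e.sel2e _ D rfl,
    ec1_none e e.sel2 _ D rfl,
    ec1_none e e.sel2u _ D rfl,
    ec1_none e e.sel3 _ D rfl,
    ec1_none e e.selT _ D rfl,
    ec1_none e e.selU2 _ D rfl,
    ec1_none e e.selU3 _ D rfl,
    ec1_none e e.selV _ D rfl,
    ec1_some e e.selU4 _ D _ hs]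
  by_cases h1 : w ≤ e.c2
  · rw [ec1_ble_true h1]
    simp only [EP.out, if_pos h1]
    rfl
  · rw [ec1_ble_false h1]
    simp only [EP.out, if_neg h1]
    rfl

theorem ec1_v2 (e : EP) (b1 b2 : List (ℕ × ℕ)) (b3 : List ℕ) (n : ℕ) (f w : ℕ)
    (st D : List It) :
    e.run b1 b2 b3 (n + 1) (It.v2 f w :: st) D =
      e.run b1 b2 b3 n (e.out b1 b2 b3 (It.v2 f w) st D) (It.v2 f w :: D) := by
  have hs : e.selV (It.v2 f w) = some (f, f >>> e.l0) := rfl
  unfold EP.run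
  rw [ec1_none e e.sel1 _ D rfl,
    ec1_none e e.sel2e _ D rfl,
    ec1_none e e.sel2 _ D rfl,
    ec1_none e e.sel2u _ D rfl,
    ec1_none e e.sel3 _ D rfl,
    ec1_none e e.selT _ D rfl,
    ec1_none e e.selU2 _ D rfl,
    ec1_none e e.selU3 _ D rfl,
    ec1_none e e.selU4 _ D rfl,
    ec1_some e e.selV _ D _ hs]
  rfl

theorem ec1_v3 (e : EP) (b1 b2 : List (ℕ × ℕ)) (b3 : List ℕ) (n : ℕ) (f m w : ℕ)
    (st D : List It) :
    e.run b1 b2 b3 (n + 1) (It.v3 f m w :: st) D =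
      e.run b1 b2 b3 n (e.out b1 b2 b3 (It.v3 f m w) st D) (It.v3 f m w :: D) := by
  unfold EP.run
  rw [ec1_none e e.sel1 _ D rfl,
    ec1_none e e.sel2e _ D rfl,
    ec1_none e e.sel2 _ D rfl,
    ec1_none e e.sel2u _ D rfl,
    ec1_none e e.sel3 _ D rfl,
    ec1_none e e.selT _ D rfl,
    ec1_none e e.selU2 _ D rfl,
    ec1_none e e.selU3 _ D rfl,
    ec1_none e e.selU4 _ D rfl,
    ec1_none e e.selV _ D rfl]
  rfl

/-- One step. By definition: `Eng.go` with fuel `n + 1` and worklist `it :: st` calls the handler of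
`it`; `e.ls s (it :: D) = e.app (e.ls s D) …` if `s it = some …` and `e.ls s D` otherwise. (Cases on `it` and on
the Booleans `Nat.ble w e.t1` etc.; `Nat.ble a b = true ↔ a ≤ b`; everything else is `rfl`. The
handlers are `Eng.h1`, …, with `Bool.rec`.) -/
theorem run_step (e : EP) (b1 b2 : List (ℕ × ℕ)) (b3 : List ℕ) (n : ℕ) (it : It)
    (st D : List It) (hb : it ≠ It.bad) :
    e.run b1 b2 b3 (n + 1) (it :: st) D = e.run b1 b2 b3 n (e.out b1 b2 b3 it st D) (it :: D) := by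
  cases it with
  | r1 f w => exact ec1_r1 e b1 b2 b3 n f w st D
  | r2 p q w => exact ec1_r2 e b1 b2 b3 n p q w st D
  | r3 p q w => exact ec1_r3 e b1 b2 b3 n p q w st D
  | t2 f w => exact ec1_t2 e b1 b2 b3 n f w st D
  | u2 f w => exact ec1_u2 e b1 b2 b3 n f w st D
  | u3 f w => exact ec1_u3 e b1 b2 b3 n f w st D
  | u4 f w => exact ec1_u4 e b1 b2 b3 n f w st D
  | v2 f w => exact ec1_v2 e b1 b2 b3 n f w st D
  | v3 f m w => exact ec1_v3 e b1 b2 b3 n f m w st D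
  | bad => exact absurd rfl hb

theorem run_bad (e : EP) (b1 b2 : List (ℕ × ℕ)) (b3 : List ℕ) (n : ℕ) (st D : List It) :
    e.run b1 b2 b3 (n + 1) (It.bad :: st) D = false := rfl

theorem run_zero (e : EP) (b1 b2 : List (ℕ × ℕ)) (b3 : List ℕ) (st D : List It) :
    e.run b1 b2 b3 0 st D = false := rfl

end Pool.Agent.MP_528dc0_co

end

section

open Finset

namespace Pool.Agent.MP_528dc0_co

open Eng (Lst It)

theorem ec2_ent (e : EP) (h : e.Ok) (y : DS e.K) (hy : e.OkD y) :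
    e.EntOk (e.enc y, e.enc y >>> e.l0) := by
  refine ⟨y, hy, ?_⟩
  have h1 : e.enc y >>> e.l0 = y.ld := ld_eq e h y hy
  rw [h1]

/-- entries of the lists of good items are legal -/
theorem ls_ok (e : EP) (h : e.Ok) (D : List It) (hD : ∀ it ∈ D, e.GoodIt it)
    (s : It → Option (ℕ × ℕ))
    (hs : s ∈ [e.sel1, e.sel2e, e.sel2, e.sel2u, e.sel3, e.selT, e.selU2, e.selU3, e.selU4, e.selV]) :
    ∀ a ∈ D.filterMap s, e.EntOk a := by
  intro a ha
  rw [List.mem_filterMap] at ha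
  obtain ⟨it, hit, ha⟩ := ha
  have hg := hD it hit
  simp only [List.mem_cons, List.not_mem_nil, or_false] at hs
  rcases hs with rfl | rfl | rfl | rfl | rfl | rfl | rfl | rfl | rfl | rfl
  · cases it with
    | r1 f w =>
      obtain ⟨y, hy, _, _, rfl, _⟩ := hg
      simp only [EP.sel1] at ha
      split_ifs at ha
      obtain rfl := Option.some.inj ha
      exact ec2_ent e h y hy
    | _ => exact absurd ha (by simp [EP.sel1])
  · cases it with
    | r2 p q w =>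
      obtain ⟨x, y, hx, _, _, _, _, _, _, _, rfl, _, _⟩ := hg
      simp only [EP.sel2e] at ha
      split_ifs at ha
      obtain rfl := Option.some.inj ha
      exact ec2_ent e h x hx
    | _ => exact absurd ha (by simp [EP.sel2e])
  · cases it with
    | r2 p q w =>
      obtain ⟨x, y, hx, _, _, _, _, _, _, _, rfl, _, _⟩ := hg
      simp only [EP.sel2] at ha
      obtain rfl := Option.some.inj ha
      exact ec2_ent e h x hx
    | _ => exact absurd ha (by simp [EP.sel2])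
  · cases it with
    | r2 p q w =>
      obtain ⟨x, y, hx, _, _, _, _, _, _, _, rfl, _, _⟩ := hg
      simp only [EP.sel2u] at ha
      split_ifs at ha
      obtain rfl := Option.some.inj ha
      exact ec2_ent e h x hx
    | _ => exact absurd ha (by simp [EP.sel2u])
  · cases it with
    | r3 p q w =>
      obtain ⟨x, y, hx, _, _, _, _, _, _, _, rfl, _, _⟩ := hg
      simp only [EP.sel3] at ha
      obtain rfl := Option.some.inj ha
      exact ec2_ent e h x hx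
    | _ => exact absurd ha (by simp [EP.sel3])
  · cases it with
    | t2 f w =>
      obtain ⟨y, hy, _, rfl, _⟩ := hg
      simp only [EP.selT] at ha
      obtain rfl := Option.some.inj ha
      exact ec2_ent e h y hy
    | _ => exact absurd ha (by simp [EP.selT])
  · cases it with
    | u2 f w =>
      obtain ⟨y, hy, _, rfl, _⟩ := hg
      simp only [EP.selU2] at ha
      obtain rfl := Option.some.inj ha
      exact ec2_ent e h y hy
    | _ => exact absurd ha (by simp [EP.selU2])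
  · cases it with
    | u3 f w =>
      obtain ⟨y, hy, _, rfl, _⟩ := hg
      simp only [EP.selU3] at ha
      obtain rfl := Option.some.inj ha
      exact ec2_ent e h y hy
    | _ => exact absurd ha (by simp [EP.selU3])
  · cases it with
    | u4 f w =>
      obtain ⟨y, hy, _, rfl, _⟩ := hg
      simp only [EP.selU4] at ha
      obtain rfl := Option.some.inj ha
      exact ec2_ent e h y hy
    | _ => exact absurd ha (by simp [EP.selU4])
  · cases it with
    | v2 f w =>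
      obtain ⟨y, hy, _, rfl, _⟩ := hg
      simp only [EP.selV] at ha
      obtain rfl := Option.some.inj ha
      exact ec2_ent e h y hy
    | _ => exact absurd ha (by simp [EP.selV])

/-- kept, or `bad` -/
def ec2_Q (x : It) (l : List It) : Prop := x ∈ l ∨ It.bad ∈ l

theorem ec2_cons {x it : It} {l : List It} (h : ec2_Q x l) : ec2_Q x (it :: l) :=
  h.imp (List.mem_cons_of_mem _) (List.mem_cons_of_mem _)

theorem ec2_ite {x : It} {c : Prop} [Decidable c] {A B : List It} (hA : ec2_Q x A)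
    (hB : ec2_Q x B) : ec2_Q x (if c then A else B) := by
  split_ifs
  · exact hA
  · exact hB

theorem ec2_step (e : EP) (L : Lst) (F : ℕ → List It → List It) (m k : ℕ)
    (hF : ∀ x st, F x st = F x [] ++ st) {x : It} {st : List It} (h : ec2_Q x st) :
    ec2_Q x (e.exs L F m k st) := by
  rcases h with h | h
  · exact pass_mono e L m k F hF st x h
  · exact Or.inr ((pass_mono e L m k F hF st It.bad h).elim id id)

/-- The old worklist is contained in the new one, or `bad` is in it (no hypotheses on the data).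
`pass_mono` for every pass (with `app_*` of EB4: all functions prepend), for `v3`: `v0s_mem`. -/
theorem out_mono (e : EP) (b1 b2 : List (ℕ × ℕ)) (b3 : List ℕ) (it : It) (st D : List It)
    (x : It) (hx : x ∈ st) :
    x ∈ e.out b1 b2 b3 it st D ∨ It.bad ∈ e.out b1 b2 b3 it st D := by
  have h0 : ec2_Q x st := Or.inl hx
  change ec2_Q x _
  cases it with
  | r1 f w =>
    have s0 : ec2_Q x (if w ≤ e.c3 then st else It.r3 (e.trivP f) (e.trivQ f) w :: st) :=
      ec2_ite h0 (ec2_cons h0)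
    have s1 := ec2_step e (e.pk b1) (fun x => e.edge0 x f) (Nat.land f e.D1)
      (f >>> e.l0 + e.k0) (fun x st => (app_edge e x f st).1) s0
    have s2 := ec2_step e (e.ls e.sel3 D) (fun x => e.edge2 x f) (Nat.land f e.D1)
      (f >>> e.l0 + e.k2) (fun x st => (app_edge e x f st).2.2) s1
    exact ec2_ite s2 (ec2_step e (e.ls e.sel2e D) (fun x => e.edge1 x f) (Nat.land f e.D1)
      (f >>> e.l0 + e.k1) (fun x st => (app_edge e x f st).2.1) s2)
  | r2 p q w =>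
    have s1 := ec2_step e (e.ls e.sel2 (It.r2 p q w :: D)) (e.pairG q) (Nat.land q e.D1)
      (q >>> e.l0 + e.kp) (fun x st => (app_pair e q x st).1) h0
    have s2 := ec2_step e (e.ls e.selU2 D) (fun x => e.chain It.u3 e.th4 x p) (Nat.land p e.D1)
      (p >>> e.l0 + e.k4) (fun x st => app_chain e It.u3 e.th4 x p st) s1
    have s3 := ec2_step e (e.ls e.selU4 D) (fun x => e.chain It.u3 e.th4 x p) (Nat.land p e.D1)
      (p >>> e.l0 + e.k4) (fun x st => app_chain e It.u3 e.th4 x p st) s2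
    have s4 := ec2_step e (e.ls e.selU3 D) (fun x => e.chain It.u4 e.th2 x p) (Nat.land p e.D1)
      (p >>> e.l0 + e.kk) (fun x st => app_chain e It.u4 e.th2 x p st) s3
    exact ec2_ite s1 (ec2_step e (e.ls e.sel1 D) (fun y => e.edge1 p y) (Nat.land p e.D1)
      (p >>> e.l0 + e.k1) (fun y st => (app_edge e p y st).2.1) (ec2_ite s1 s4))
  | r3 p q w =>
    have s1 := ec2_step e (e.ls e.sel1 D) (fun y => e.edge2 p y) (Nat.land p e.D1)
      (p >>> e.l0 + e.k2) (fun y st => (app_edge e p y st).2.2) h0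
    have s2 := ec2_step e (e.ls e.selT D) (fun y => e.close1 1 p y) (Nat.land p e.D3)
      (p >>> e.l0 + e.k1) (fun y st => (app_close e 1 p y st).2) s1
    have s3 := ec2_step e (e.ls e.selU4 D) (fun y => e.close1 0 p y) (Nat.land p e.D3)
      (p >>> e.l0 + e.k1) (fun y st => (app_close e 0 p y st).2) s2
    have s4 := ec2_step e (e.ls e.sel3 (It.r3 p q w :: D)) (e.pairV q) (Nat.land q e.D1)
      (q >>> e.l0 + e.kV) (fun y st => (app_pair e q y st).2.1) s3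
    have s5 := ec2_step e (e.ls e.selV D) (fun x => e.triV x p) (Nat.land p e.D3)
      (p >>> e.l0 + e.kW) (fun y st => (app_pair e y p st).2.2) s4
    exact ec2_ite s3 s5
  | t2 f w =>
    have s0 : ec2_Q x (if w ≤ e.c2 then st else It.r2 (e.trivP f) (e.trivQ f) w :: st) :=
      ec2_ite h0 (ec2_cons h0)
    have s1 := ec2_step e (e.pk b2) (fun x => e.close0 1 x f) (Nat.land f e.D3)
      (f >>> e.l0 + e.k0) (fun y st => (app_close e 1 y f st).1) s0
    exact ec2_step e (e.ls e.sel3 D) (fun x => e.close1 1 x f) (Nat.land f e.D3)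
      (f >>> e.l0 + e.k1) (fun y st => (app_close e 1 y f st).2) s1
  | u2 f w =>
    exact ec2_step e (e.ls e.sel2u D) (fun y => e.chain It.u3 e.th4 f y) (Nat.land f e.D1)
      (f >>> e.l0 + e.k4) (fun y st => app_chain e It.u3 e.th4 f y st) h0
  | u3 f w =>
    exact ec2_step e (e.ls e.sel2u D) (fun y => e.chain It.u4 e.th2 f y) (Nat.land f e.D1)
      (f >>> e.l0 + e.kk) (fun y st => app_chain e It.u4 e.th2 f y st) h0
  | u4 f w =>
    have s0 : ec2_Q x (if w ≤ e.c2 then st else It.r2 (e.trivP f) (e.trivQ f) w :: st) :=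
      ec2_ite h0 (ec2_cons h0)
    have s1 := ec2_step e (e.pk b2) (fun x => e.close0 0 x f) (Nat.land f e.D3)
      (f >>> e.l0 + e.k0) (fun y st => (app_close e 0 y f st).1) s0
    have s2 := ec2_step e (e.ls e.sel3 D) (fun x => e.close1 0 x f) (Nat.land f e.D3)
      (f >>> e.l0 + e.k1) (fun y st => (app_close e 0 y f st).2) s1
    exact ec2_step e (e.ls e.sel2u D) (fun y => e.chain It.u3 e.th4 f y) (Nat.land f e.D1)
      (f >>> e.l0 + e.k4) (fun y st => app_chain e It.u3 e.th4 f y st) s2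
  | v2 f w =>
    exact ec2_step e (e.ls e.sel3 D) (fun y => e.triV f y) (Nat.land f e.D3)
      (f >>> e.l0 + e.kW) (fun y st => (app_pair e f y st).2.2) h0
  | v3 f n w => exact Or.inl ((v0s_mem e b3 f n w st x).2 (Or.inl hx))
  | bad => exact h0

/-- `bad` stays in the worklist. -/
theorem bad_mono (e : EP) (b1 b2 : List (ℕ × ℕ)) (b3 : List ℕ) (it : It) (st D : List It)
    (hx : It.bad ∈ st) : It.bad ∈ e.out b1 b2 b3 it st D := by
  exact (out_mono e b1 b2 b3 it st D It.bad hx).elim id id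

/-- `bad` in the worklist: the loop returns `false`. Induction on `n`, for all `st`, `D`: `run_zero`; `st = bad :: st'`:
`run_bad`; otherwise `st = it :: st'` with `bad ∈ st'`: `run_step` and `bad_mono`. -/
theorem run_false (e : EP) (b1 b2 : List (ℕ × ℕ)) (b3 : List ℕ) (n : ℕ) (st D : List It)
    (hx : It.bad ∈ st) : e.run b1 b2 b3 n st D = false := by
  induction n generalizing st D with
  | zero => exact run_zero e b1 b2 b3 st D
  | succ n ih =>
    cases st with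
    | nil => simp at hx
    | cons it st' =>
      by_cases hb : it = It.bad
      · subst hb
        exact run_bad e b1 b2 b3 n st' D
      · rw [run_step e b1 b2 b3 n it st' D hb]
        apply ih
        apply bad_mono
        rcases List.mem_cons.1 hx with h | h
        · exact absurd h.symm hb
        · exact h

end Pool.Agent.MP_528dc0_co

end

section

open Finset

namespace Pool.Agent.MP_528dc0_co

open Eng (Lst It)

/-- all items are good unless `bad` is among them -/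
def ec3_Inv (e : EP) (L : List It) : Prop := It.bad ∉ L → ∀ z ∈ L, e.GoodIt z

/-! ### digits -/

theorem ec3_or_le (a b : ℕ) (ha : a ≤ 31) (hb : b ≤ 31) : a ||| b ≤ 31 := by
  have h1 : a ||| b < 2 ^ 5 := Nat.or_lt_two_pow (by omega) (by omega)
  omega

theorem ec3_digQ (a b : ℕ) (ha : 16 ≤ a ∧ a ≤ 31) :
    (if a &&& b = 0 then 31 - (a ||| b) else 31) ≤ 15 ∨
      (if a &&& b = 0 then 31 - (a ||| b) else 31) = 31 := by
  split_ifs
  · left
    have h1 : a ≤ a ||| b := Nat.left_le_or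
    omega
  · right; rfl

theorem ec3_digP (a b : ℕ) (ha : 16 ≤ a ∧ a ≤ 31) (hb : b ≤ 31) :
    16 ≤ (if a &&& b = 0 then a ||| b else 31) ∧ (if a &&& b = 0 then a ||| b else 31) ≤ 31 := by
  split_ifs
  · have h1 : a ≤ a ||| b := Nat.left_le_or
    have h2 := ec3_or_le a b ha.2 hb
    omega
  · omega

theorem ec3_Qd31 (e : EP) (y : DS e.K) (h : e.Qd y) (k : Fin e.K) : y.dg k ≤ 31 := by
  rcases h k with h1 | h1 <;> omega

theorem ec3_ite_le (P Q : Prop) [Decidable P] [Decidable Q] (w : ℕ) (h : P → Q) :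
    (if P then w else 0) ≤ if Q then w else 0 := by
  by_cases hP : P
  · rw [if_pos hP, if_pos (h hP)]
  · rw [if_neg hP]
    exact Nat.zero_le _

theorem ec3_alv_mkQ (e : EP) (x y : DS e.K) (N₁ N₂ : Finset (Fin 8)) (l : ℕ) :
    e.alvQ (e.mkQ x y N₁ N₂ l) ≤ e.wtD x y := by
  refine Finset.sum_le_sum fun k _ => ec3_ite_le _ _ _ fun hne => ?_
  by_contra hc
  exact hne (if_neg hc)

theorem ec3_alv_mkK (e : EP) (x y : DS e.K) (N₁ N₂ : Finset (Fin 8)) (l : ℕ) :
    e.alvQ (e.mkK x y N₁ N₂ l) ≤ e.wtD x y := by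
  refine Finset.sum_le_sum fun k _ => ec3_ite_le _ _ _ fun hne => ?_
  by_contra hc
  exact hne (if_neg hc)

theorem ec3_Qd_mkQ (e : EP) (x y : DS e.K) (hx : e.Pd x)
    (N₁ N₂ : Finset (Fin 8)) (l : ℕ) : e.Qd (e.mkQ x y N₁ N₂ l) :=
  fun k => ec3_digQ _ _ (hx k)

theorem ec3_Pd_mkP (e : EP) (x y : DS e.K) (hx : e.Pd x) (hy : ∀ k, y.dg k ≤ 31)
    (N₁ N₂ : Finset (Fin 8)) (l : ℕ) : e.Pd (e.mkP x y N₁ N₂ l) :=
  fun k => ec3_digP _ _ (hx k) (hy k)

theorem ec3_Qd_mkK (e : EP) (x y : DS e.K) (hx : e.Qd x)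
    (N₁ N₂ : Finset (Fin 8)) (l : ℕ) : e.Qd (e.mkK x y N₁ N₂ l) := by
  intro k
  show (if x.dg k &&& y.dg k = 0 then x.dg k else 31) ≤ 15 ∨
    (if x.dg k &&& y.dg k = 0 then x.dg k else 31) = 31
  split_ifs
  · exact hx k
  · right; rfl

/-- the child form of a new result -/
theorem ec3_goodQ (e : EP) (h : e.Ok) (x y : DS e.K) (hx : e.Pd x)
    (l : ℕ) (hl : l < e.wtD x y) :
    e.OkD (e.mkQ x y x.N₁ x.N₂ l) ∧ e.Qd (e.mkQ x y x.N₁ x.N₂ l) ∧
      e.alvQ (e.mkQ x y x.N₁ x.N₂ l) ≤ (e.wtD x y - l) + (e.mkQ x y x.N₁ x.N₂ l).ld := by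
  have hq := ec3_Qd_mkQ e x y hx x.N₁ x.N₂ l
  refine ⟨⟨ec3_Qd31 e _ hq, ?_⟩, hq, ?_⟩
  · exact hl.trans (wtD_lt e h x y)
  · have h1 := ec3_alv_mkQ e x y x.N₁ x.N₂ l
    show _ ≤ (e.wtD x y - l) + l
    omega

theorem ec3_goodP (e : EP) (h : e.Ok) (x y : DS e.K) (hx : e.Pd x) (hy : ∀ k, y.dg k ≤ 31)
    (l : ℕ) (hl : l < e.wtD x y) :
    e.OkD (e.mkP x y x.N₁ x.N₂ l) ∧ e.Pd (e.mkP x y x.N₁ x.N₂ l) := by
  have hq := ec3_Pd_mkP e x y hx hy x.N₁ x.N₂ l
  exact ⟨⟨fun k => (hq k).2, hl.trans (wtD_lt e h x y)⟩, hq⟩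

theorem ec3_goodK (e : EP) (h : e.Ok) (x y : DS e.K) (hx : e.Qd x) (N₁ N₂ : Finset (Fin 8))
    (l : ℕ) (hl : l < e.wtD x y) :
    e.OkD (e.mkK x y N₁ N₂ l) ∧ e.Qd (e.mkK x y N₁ N₂ l) ∧
      e.alvQ (e.mkK x y N₁ N₂ l) ≤ (e.wtD x y - l) + (e.mkK x y N₁ N₂ l).ld := by
  have hq := ec3_Qd_mkK e x y hx N₁ N₂ l
  refine ⟨⟨ec3_Qd31 e _ hq, ?_⟩, hq, ?_⟩
  · exact hl.trans (wtD_lt e h x y)
  · have h1 := ec3_alv_mkK e x y N₁ N₂ l
    show _ ≤ (e.wtD x y - l) + l
    omega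

theorem ec3_triv (e : EP) (y : DS e.K) (hy : e.OkD y) (w : ℕ) (hw : e.alvQ y ≤ w + y.ld) :
    e.OkD (e.trvP y) ∧ e.Pd (e.trvP y) ∧ e.OkD (e.trvQ y) ∧ e.Qd (e.trvQ y) ∧
      e.alvQ (e.trvQ y) ≤ w + (e.trvQ y).ld := by
  have hP : e.Pd (e.trvP y) := by
    intro k
    show 16 ≤ y.dg k ||| 16 ∧ y.dg k ||| 16 ≤ 31
    exact ⟨Nat.right_le_or, ec3_or_le _ _ (hy.1 k) (by norm_num)⟩
  have hQ : e.Qd (e.trvQ y) := by
    intro k
    show (if y.dg k ||| 16 = 31 then 31 else 31 - (y.dg k ||| 16)) ≤ 15 ∨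
      (if y.dg k ||| 16 = 31 then 31 else 31 - (y.dg k ||| 16)) = 31
    split_ifs
    · right; rfl
    · left
      have h1 : 16 ≤ y.dg k ||| 16 := Nat.right_le_or
      omega
  refine ⟨⟨fun k => (hP k).2, hy.2⟩, hP, ⟨ec3_Qd31 e _ hQ, hy.2⟩, hQ, ?_⟩
  refine le_trans ?_ hw
  refine Finset.sum_le_sum fun k _ => ec3_ite_le _ _ _ fun hne hc => hne ?_
  show (if y.dg k ||| 16 = 31 then 31 else 31 - (y.dg k ||| 16)) = 31
  rw [hc]
  rfl

/-! ### good items -/

theorem ec3_r1 (e : EP) (h : e.Ok) (x y : DS e.K) (hx : e.Pd x) (hn : x.N₁ = x.N₂) (l : ℕ) (hl : l < e.wtD x y) :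
    e.GoodIt (It.r1 (e.enc (e.mkQ x y x.N₁ x.N₂ l)) (e.wtD x y - l)) := by
  obtain ⟨h1, h2, h3⟩ := ec3_goodQ e h x y hx l hl
  exact ⟨_, h1, h2, hn, rfl, h3⟩

theorem ec3_r2 (e : EP) (h : e.Ok) (x y : DS e.K) (hx : e.Pd x) (hn : x.N₁ = x.N₂)
    (hy : ∀ k, y.dg k ≤ 31) (l : ℕ) (hl : l < e.wtD x y) :
    e.GoodIt (It.r2 (e.enc (e.mkP x y x.N₁ x.N₂ l)) (e.enc (e.mkQ x y x.N₁ x.N₂ l))
      (e.wtD x y - l)) := by
  obtain ⟨h1, h2, h3⟩ := ec3_goodQ e h x y hx l hl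
  obtain ⟨h4, h5⟩ := ec3_goodP e h x y hx hy l hl
  exact ⟨_, _, h4, h5, h1, h2, hn, rfl, rfl, rfl, rfl, rfl, h3⟩

theorem ec3_chainI (e : EP) (h : e.Ok) (r : ℕ → ℕ → It)
    (hr : ∀ f w, (∃ y : DS e.K, e.OkD y ∧ e.Qd y ∧ f = e.enc y ∧ e.alvQ y ≤ w + y.ld) →
      e.GoodIt (r f w))
    (x y : DS e.K) (hx : e.Qd x) (N₁ N₂ : Finset (Fin 8)) (l : ℕ) (hl : l < e.wtD x y) :
    e.GoodIt (r (e.enc (e.mkK x y N₁ N₂ l)) (e.wtD x y - l)) := by
  obtain ⟨h1, h2, h3⟩ := ec3_goodK e h x y hx N₁ N₂ l hl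
  exact hr _ _ ⟨_, h1, h2, rfl, h3⟩

/-! ### one pass -/

theorem ec3_pass (e : EP) (h : e.Ok) (R : DS e.K → Prop) (t : List (ℕ × ℕ))
    (ht : ∀ a ∈ t, ∃ x : DS e.K, e.OkD x ∧ R x ∧ a = (e.enc x, x.ld)) (m k : ℕ)
    (hm : (∀ j < e.K + 8, m / 2 ^ (e.s * j) % 2 ^ e.s ≤ 31) ∧ m < 2 ^ (e.s * (e.K + 8)))
    (hk : k ≤ 3 * 2 ^ e.s) (F : ℕ → List It → List It) (hF : ∀ x st, F x st = F x [] ++ st)
    (hz : ∀ x : DS e.K, e.OkD x → R x → ¬ x.ld + k < e.wz (e.enc x &&& m) → F (e.enc x) [] = [])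
    (hnew : ∀ x : DS e.K, e.OkD x → R x → ∀ z ∈ F (e.enc x) [], z ≠ It.bad → e.GoodIt z)
    (st : List It) (hst : ec3_Inv e st) : ec3_Inv e (e.exs (e.pk t) F m k st) := by
  intro hb z hzm
  have ht' : ∀ a ∈ t, e.EntOk a := by
    intro a ha
    obtain ⟨x, hx, -, hax⟩ := ht a ha
    exact ⟨x, hx, hax⟩
  have hz' : ∀ a ∈ t, ¬ a.2 + k < e.wz (a.1 &&& m) → F a.1 [] = [] := by
    intro a ha hn
    obtain ⟨x, hx, hR, rfl⟩ := ht a ha
    exact hz x hx hR hn
  have key := pass_mem e h t ht' m k hm.1 hm.2 hk F hF hz' st hb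
  have hbst : It.bad ∉ st := fun hc => hb ((key It.bad).2 (Or.inl hc))
  rcases (key z).1 hzm with h1 | ⟨a, ha, h1⟩
  · exact hst hbst z h1
  · obtain ⟨x, hx, hR, rfl⟩ := ht a ha
    refine hnew x hx hR z h1 ?_
    rintro rfl
    exact hb hzm

/-! ### entries -/

/-- pieces in root form -/
def ec3_RP (e : EP) (x : DS e.K) : Prop := e.Pd x ∧ x.N₁ = x.N₂

theorem ec3_lde (e : EP) (h : e.Ok) (x : DS e.K) (hx : e.OkD x) : e.enc x >>> e.l0 = x.ld :=
  ld_eq e h x hx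

theorem ec3_sel1 (e : EP) (h : e.Ok) (D : List It) (hD : ∀ it ∈ D, e.GoodIt it) :
    ∀ a ∈ D.filterMap e.sel1, ∃ x : DS e.K, e.OkD x ∧ e.Qd x ∧ a = (e.enc x, x.ld) := by
  intro a ha
  obtain ⟨it, hit, hs⟩ := List.mem_filterMap.1 ha
  have hg := hD it hit
  cases it with
  | r1 f w =>
    obtain ⟨y, h1, h2, -, rfl, -⟩ := hg
    simp only [EP.sel1] at hs
    split_ifs at hs
    refine ⟨y, h1, h2, ?_⟩
    rw [ec3_lde e h y h1] at hs
    exact (Option.some_inj.1 hs).symm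
  | _ => simp [EP.sel1] at hs

theorem ec3_sel2e (e : EP) (h : e.Ok) (D : List It) (hD : ∀ it ∈ D, e.GoodIt it) :
    ∀ a ∈ D.filterMap e.sel2e, ∃ x : DS e.K, e.OkD x ∧ ec3_RP e x ∧ a = (e.enc x, x.ld) := by
  intro a ha
  obtain ⟨it, hit, hs⟩ := List.mem_filterMap.1 ha
  have hg := hD it hit
  cases it with
  | r2 p q w =>
    obtain ⟨x, y, h1, h2, h3, h4, h5, h6, h7, h8, rfl, rfl, -⟩ := hg
    simp only [EP.sel2e] at hs
    split_ifs at hs
    refine ⟨x, h1, ⟨h2, h6.trans (h5.trans h7.symm)⟩, ?_⟩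
    rw [ec3_lde e h x h1] at hs
    exact (Option.some_inj.1 hs).symm
  | _ => simp [EP.sel2e] at hs

theorem ec3_sel2 (e : EP) (h : e.Ok) (D : List It) (hD : ∀ it ∈ D, e.GoodIt it) :
    ∀ a ∈ D.filterMap e.sel2, ∃ x : DS e.K, e.OkD x ∧ ec3_RP e x ∧ a = (e.enc x, x.ld) := by
  intro a ha
  obtain ⟨it, hit, hs⟩ := List.mem_filterMap.1 ha
  have hg := hD it hit
  cases it with
  | r2 p q w =>
    obtain ⟨x, y, h1, h2, h3, h4, h5, h6, h7, h8, rfl, rfl, -⟩ := hg
    simp only [EP.sel2] at hs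
    refine ⟨x, h1, ⟨h2, h6.trans (h5.trans h7.symm)⟩, ?_⟩
    rw [ec3_lde e h x h1] at hs
    exact (Option.some_inj.1 hs).symm
  | _ => simp [EP.sel2] at hs

theorem ec3_sel2u (e : EP) (h : e.Ok) (D : List It) (hD : ∀ it ∈ D, e.GoodIt it) :
    ∀ a ∈ D.filterMap e.sel2u, ∃ x : DS e.K, e.OkD x ∧ ec3_RP e x ∧ a = (e.enc x, x.ld) := by
  intro a ha
  obtain ⟨it, hit, hs⟩ := List.mem_filterMap.1 ha
  have hg := hD it hit
  cases it with
  | r2 p q w =>
    obtain ⟨x, y, h1, h2, h3, h4, h5, h6, h7, h8, rfl, rfl, -⟩ := hg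
    simp only [EP.sel2u] at hs
    split_ifs at hs
    refine ⟨x, h1, ⟨h2, h6.trans (h5.trans h7.symm)⟩, ?_⟩
    rw [ec3_lde e h x h1] at hs
    exact (Option.some_inj.1 hs).symm
  | _ => simp [EP.sel2u] at hs

theorem ec3_sel3 (e : EP) (h : e.Ok) (D : List It) (hD : ∀ it ∈ D, e.GoodIt it) :
    ∀ a ∈ D.filterMap e.sel3, ∃ x : DS e.K, e.OkD x ∧ ec3_RP e x ∧ a = (e.enc x, x.ld) := by
  intro a ha
  obtain ⟨it, hit, hs⟩ := List.mem_filterMap.1 ha
  have hg := hD it hit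
  cases it with
  | r3 p q w =>
    obtain ⟨x, y, h1, h2, h3, h4, h5, h6, h7, h8, rfl, rfl, -⟩ := hg
    simp only [EP.sel3] at hs
    refine ⟨x, h1, ⟨h2, h6.trans (h5.trans h7.symm)⟩, ?_⟩
    rw [ec3_lde e h x h1] at hs
    exact (Option.some_inj.1 hs).symm
  | _ => simp [EP.sel3] at hs

theorem ec3_selT (e : EP) (h : e.Ok) (D : List It) (hD : ∀ it ∈ D, e.GoodIt it) :
    ∀ a ∈ D.filterMap e.selT, ∃ x : DS e.K, e.OkD x ∧ e.Qd x ∧ a = (e.enc x, x.ld) := by
  intro a ha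
  obtain ⟨it, hit, hs⟩ := List.mem_filterMap.1 ha
  have hg := hD it hit
  cases it with
  | t2 f w =>
    obtain ⟨y, h1, h2, rfl, -⟩ := hg
    simp only [EP.selT] at hs
    refine ⟨y, h1, h2, ?_⟩
    rw [ec3_lde e h y h1] at hs
    exact (Option.some_inj.1 hs).symm
  | _ => simp [EP.selT] at hs

theorem ec3_selU2 (e : EP) (h : e.Ok) (D : List It) (hD : ∀ it ∈ D, e.GoodIt it) :
    ∀ a ∈ D.filterMap e.selU2, ∃ x : DS e.K, e.OkD x ∧ e.Qd x ∧ a = (e.enc x, x.ld) := by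
  intro a ha
  obtain ⟨it, hit, hs⟩ := List.mem_filterMap.1 ha
  have hg := hD it hit
  cases it with
  | u2 f w =>
    obtain ⟨y, h1, h2, rfl, -⟩ := hg
    simp only [EP.selU2] at hs
    refine ⟨y, h1, h2, ?_⟩
    rw [ec3_lde e h y h1] at hs
    exact (Option.some_inj.1 hs).symm
  | _ => simp [EP.selU2] at hs

theorem ec3_selU3 (e : EP) (h : e.Ok) (D : List It) (hD : ∀ it ∈ D, e.GoodIt it) :
    ∀ a ∈ D.filterMap e.selU3, ∃ x : DS e.K, e.OkD x ∧ e.Qd x ∧ a = (e.enc x, x.ld) := by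
  intro a ha
  obtain ⟨it, hit, hs⟩ := List.mem_filterMap.1 ha
  have hg := hD it hit
  cases it with
  | u3 f w =>
    obtain ⟨y, h1, h2, rfl, -⟩ := hg
    simp only [EP.selU3] at hs
    refine ⟨y, h1, h2, ?_⟩
    rw [ec3_lde e h y h1] at hs
    exact (Option.some_inj.1 hs).symm
  | _ => simp [EP.selU3] at hs

theorem ec3_selU4 (e : EP) (h : e.Ok) (D : List It) (hD : ∀ it ∈ D, e.GoodIt it) :
    ∀ a ∈ D.filterMap e.selU4, ∃ x : DS e.K, e.OkD x ∧ e.Qd x ∧ a = (e.enc x, x.ld) := by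
  intro a ha
  obtain ⟨it, hit, hs⟩ := List.mem_filterMap.1 ha
  have hg := hD it hit
  cases it with
  | u4 f w =>
    obtain ⟨y, h1, h2, rfl, -⟩ := hg
    simp only [EP.selU4] at hs
    refine ⟨y, h1, h2, ?_⟩
    rw [ec3_lde e h y h1] at hs
    exact (Option.some_inj.1 hs).symm
  | _ => simp [EP.selU4] at hs

theorem ec3_selV (e : EP) (h : e.Ok) (D : List It) (hD : ∀ it ∈ D, e.GoodIt it) :
    ∀ a ∈ D.filterMap e.selV, ∃ x : DS e.K, e.OkD x ∧ e.Qd x ∧ a = (e.enc x, x.ld) := by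
  intro a ha
  obtain ⟨it, hit, hs⟩ := List.mem_filterMap.1 ha
  have hg := hD it hit
  cases it with
  | v2 f w =>
    obtain ⟨y, h1, h2, rfl, -⟩ := hg
    simp only [EP.selV] at hs
    refine ⟨y, h1, h2, ?_⟩
    rw [ec3_lde e h y h1] at hs
    exact (Option.some_inj.1 hs).symm
  | _ => simp [EP.selV] at hs

/-! ### the passes -/

theorem ec3_dE_symm (e : EP) (x y : DS e.K) : e.dE x y = e.dE y x := by
  unfold EP.dE
  rw [Finset.inter_comm x.N₁ y.N₁, Nat.add_comm x.ld y.ld]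

theorem ec3_minN_le (a b : ℕ) : Eng.minN a b ≤ a ∧ Eng.minN a b ≤ b := eb4_min_le_left a b

theorem ec3_k0 (e : EP) : e.k0 = 8 * e.tau + 0 := rfl
theorem ec3_k1 (e : EP) : e.k1 = 8 * e.tau + e.c1 := rfl
theorem ec3_k2 (e : EP) : e.k2 = 8 * e.tau + e.c2 := rfl
theorem ec3_kp (e : EP) : e.kp = 8 * e.tau + Eng.minN e.thT e.th6 := rfl
theorem ec3_kV (e : EP) : e.kV = 8 * e.tau + e.thV := rfl
theorem ec3_kW (e : EP) : e.kW = 8 * e.tau + (e.lam + 4 * e.tau) := rfl

/-- new child, `edge0` -/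
theorem ec3_p_edge0 (e : EP) (h : e.Ok) (Y : DS e.K) (hY : e.OkD Y) (t : List (ℕ × ℕ))
    (ht : ∀ a ∈ t, ∃ x : DS e.K, e.OkD x ∧ ec3_RP e x ∧ a = (e.enc x, x.ld)) (st : List It)
    (hst : ec3_Inv e st) : ec3_Inv e (e.exs (e.pk t) (fun x => e.edge0 x (e.enc Y))
      (Nat.land (e.enc Y) e.D1) ((e.enc Y) >>> e.l0 + e.k0) st) := by
  have hF : ∀ (x : ℕ) (st : List It), e.edge0 x (e.enc Y) st = e.edge0 x (e.enc Y) [] ++ st :=
    fun x st => (app_edge e x (e.enc Y) st).1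
  refine ec3_pass e h (ec3_RP e) t ht _ _ (mask1_ok e h _) (key_le e h Y hY _ (by simp)) _
    hF ?_ ?_ st hst
  · intro x hx hR hn
    rw [ec3_k0] at hn
    have h1 := nv1 e h x Y hx hY 0 hn
    rw [Nat.add_zero] at h1
    show e.edge0 (e.enc x) (e.enc Y) [] = []
    rw [edge0_spec e h x Y hx hY, if_pos (Or.inr h1)]
  · intro x hx hR z hz hne
    change z ∈ e.edge0 (e.enc x) (e.enc Y) [] at hz
    rw [edge0_spec e h x Y hx hY] at hz
    split_ifs at hz
    · exact absurd hz List.not_mem_nil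
    · exact absurd (List.mem_singleton.1 hz) hne

theorem ec3_p_edge1 (e : EP) (h : e.Ok) (Y : DS e.K) (hY : e.OkD Y) (t : List (ℕ × ℕ))
    (ht : ∀ a ∈ t, ∃ x : DS e.K, e.OkD x ∧ ec3_RP e x ∧ a = (e.enc x, x.ld)) (st : List It)
    (hst : ec3_Inv e st) : ec3_Inv e (e.exs (e.pk t) (fun x => e.edge1 x (e.enc Y))
      (Nat.land (e.enc Y) e.D1) ((e.enc Y) >>> e.l0 + e.k1) st) := by
  have hF : ∀ (x : ℕ) (st : List It), e.edge1 x (e.enc Y) st = e.edge1 x (e.enc Y) [] ++ st :=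
    fun x st => (app_edge e x (e.enc Y) st).2.1
  refine ec3_pass e h (ec3_RP e) t ht _ _ (mask1_ok e h _) (key_le e h Y hY _ (by simp)) _
    hF ?_ ?_ st hst
  · intro x hx hR hn
    rw [ec3_k1] at hn
    have h1 := nv1 e h x Y hx hY e.c1 hn
    show e.edge1 (e.enc x) (e.enc Y) [] = []
    rw [edge1_spec e h x Y hx hY, if_pos (Or.inr h1)]
  · intro x hx hR z hz hne
    change z ∈ e.edge1 (e.enc x) (e.enc Y) [] at hz
    rw [edge1_spec e h x Y hx hY] at hz
    split_ifs at hz with hc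
    · exact absurd hz List.not_mem_nil
    · rw [List.mem_singleton.1 hz]
      push Not at hc
      exact ec3_r1 e h x Y hR.1 hR.2 _ (by omega)

theorem ec3_p_edge2 (e : EP) (h : e.Ok) (Y : DS e.K) (hY : e.OkD Y) (t : List (ℕ × ℕ))
    (ht : ∀ a ∈ t, ∃ x : DS e.K, e.OkD x ∧ ec3_RP e x ∧ a = (e.enc x, x.ld)) (st : List It)
    (hst : ec3_Inv e st) : ec3_Inv e (e.exs (e.pk t) (fun x => e.edge2 x (e.enc Y))
      (Nat.land (e.enc Y) e.D1) ((e.enc Y) >>> e.l0 + e.k2) st) := by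
  have hF : ∀ (x : ℕ) (st : List It), e.edge2 x (e.enc Y) st = e.edge2 x (e.enc Y) [] ++ st :=
    fun x st => (app_edge e x (e.enc Y) st).2.2
  refine ec3_pass e h (ec3_RP e) t ht _ _ (mask1_ok e h _) (key_le e h Y hY _ (by simp)) _
    hF ?_ ?_ st hst
  · intro x hx hR hn
    rw [ec3_k2] at hn
    have h1 := nv1 e h x Y hx hY e.c2 hn
    show e.edge2 (e.enc x) (e.enc Y) [] = []
    rw [edge2_spec e h x Y hx hY, if_pos (Or.inr h1)]
  · intro x hx hR z hz hne
    change z ∈ e.edge2 (e.enc x) (e.enc Y) [] at hz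
    rw [edge2_spec e h x Y hx hY] at hz
    split_ifs at hz with hc
    · exact absurd hz List.not_mem_nil
    · rw [List.mem_singleton.1 hz]
      push Not at hc
      exact ec3_r2 e h x Y hR.1 hR.2 hY.1 _ (by omega)

/-- new root, `edge1` -/
theorem ec3_q_edge1 (e : EP) (h : e.Ok) (X : DS e.K) (hX : e.OkD X) (hP : ec3_RP e X)
    (t : List (ℕ × ℕ))
    (ht : ∀ a ∈ t, ∃ x : DS e.K, e.OkD x ∧ e.Qd x ∧ a = (e.enc x, x.ld)) (st : List It)
    (hst : ec3_Inv e st) : ec3_Inv e (e.exs (e.pk t) (fun y => e.edge1 (e.enc X) y)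
      (Nat.land (e.enc X) e.D1) ((e.enc X) >>> e.l0 + e.k1) st) := by
  have hF : ∀ (y : ℕ) (st : List It), e.edge1 (e.enc X) y st = e.edge1 (e.enc X) y [] ++ st :=
    fun y st => (app_edge e (e.enc X) y st).2.1
  refine ec3_pass e h e.Qd t ht _ _ (mask1_ok e h _) (key_le e h X hX _ (by simp)) _
    hF ?_ ?_ st hst
  · intro y hy hR hn
    rw [ec3_k1] at hn
    have h1 := nv1 e h y X hy hX e.c1 hn
    rw [wtD_symm, ec3_dE_symm] at h1
    show e.edge1 (e.enc X) (e.enc y) [] = []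
    rw [edge1_spec e h X y hX hy, if_pos (Or.inr h1)]
  · intro y hy hR z hz hne
    change z ∈ e.edge1 (e.enc X) (e.enc y) [] at hz
    rw [edge1_spec e h X y hX hy] at hz
    split_ifs at hz with hc
    · exact absurd hz List.not_mem_nil
    · rw [List.mem_singleton.1 hz]
      push Not at hc
      exact ec3_r1 e h X y hP.1 hP.2 _ (by omega)

theorem ec3_q_edge2 (e : EP) (h : e.Ok) (X : DS e.K) (hX : e.OkD X) (hP : ec3_RP e X)
    (t : List (ℕ × ℕ))
    (ht : ∀ a ∈ t, ∃ x : DS e.K, e.OkD x ∧ e.Qd x ∧ a = (e.enc x, x.ld)) (st : List It)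
    (hst : ec3_Inv e st) : ec3_Inv e (e.exs (e.pk t) (fun y => e.edge2 (e.enc X) y)
      (Nat.land (e.enc X) e.D1) ((e.enc X) >>> e.l0 + e.k2) st) := by
  have hF : ∀ (y : ℕ) (st : List It), e.edge2 (e.enc X) y st = e.edge2 (e.enc X) y [] ++ st :=
    fun y st => (app_edge e (e.enc X) y st).2.2
  refine ec3_pass e h e.Qd t ht _ _ (mask1_ok e h _) (key_le e h X hX _ (by simp)) _
    hF ?_ ?_ st hst
  · intro y hy hR hn
    rw [ec3_k2] at hn
    have h1 := nv1 e h y X hy hX e.c2 hn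
    rw [wtD_symm, ec3_dE_symm] at h1
    show e.edge2 (e.enc X) (e.enc y) [] = []
    rw [edge2_spec e h X y hX hy, if_pos (Or.inr h1)]
  · intro y hy hR z hz hne
    change z ∈ e.edge2 (e.enc X) (e.enc y) [] at hz
    rw [edge2_spec e h X y hX hy] at hz
    split_ifs at hz with hc
    · exact absurd hz List.not_mem_nil
    · rw [List.mem_singleton.1 hz]
      push Not at hc
      exact ec3_r2 e h X y hP.1 hP.2 hy.1 _ (by omega)

/-- new root, `close1` -/
theorem ec3_q_close1 (e : EP) (h : e.Ok) (k3 : ℕ) (hk3 : k3 ≤ 1) (X : DS e.K) (hX : e.OkD X)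
    (hP : ec3_RP e X) (t : List (ℕ × ℕ))
    (ht : ∀ a ∈ t, ∃ x : DS e.K, e.OkD x ∧ e.Qd x ∧ a = (e.enc x, x.ld)) (st : List It)
    (hst : ec3_Inv e st) : ec3_Inv e (e.exs (e.pk t) (fun y => e.close1 k3 (e.enc X) y)
      (Nat.land (e.enc X) e.D3) ((e.enc X) >>> e.l0 + e.k1) st) := by
  have hF : ∀ (y : ℕ) (st : List It), e.close1 k3 (e.enc X) y st = e.close1 k3 (e.enc X) y [] ++ st :=
    fun y st => (app_close e k3 (e.enc X) y st).2
  refine ec3_pass e h e.Qd t ht _ _ (mask3_ok e h _) (key_le e h X hX _ (by simp)) _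
    hF ?_ ?_ st hst
  · intro y hy hR hn
    rw [ec3_k1] at hn
    have h1 := nv3' e h y X hy hX e.c1 hP.2 hn
    rw [wtD_symm] at h1
    show e.close1 k3 (e.enc X) (e.enc y) [] = []
    rw [close1_spec e h k3 hk3 X y hX hy, if_pos (Or.inr h1)]
  · intro y hy hR z hz hne
    change z ∈ e.close1 k3 (e.enc X) (e.enc y) [] at hz
    rw [close1_spec e h k3 hk3 X y hX hy] at hz
    split_ifs at hz with hc
    · exact absurd hz List.not_mem_nil
    · rw [List.mem_singleton.1 hz]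
      have hc' := fun hh => hc (Or.inr hh)
      exact ec3_r1 e h X y hP.1 hP.2 _ (by omega)

/-- new chain, `close1`, `close0` -/
theorem ec3_p_close1 (e : EP) (h : e.Ok) (k3 : ℕ) (hk3 : k3 ≤ 1) (Y : DS e.K) (hY : e.OkD Y)
    (t : List (ℕ × ℕ))
    (ht : ∀ a ∈ t, ∃ x : DS e.K, e.OkD x ∧ ec3_RP e x ∧ a = (e.enc x, x.ld)) (st : List It)
    (hst : ec3_Inv e st) : ec3_Inv e (e.exs (e.pk t) (fun x => e.close1 k3 x (e.enc Y))
      (Nat.land (e.enc Y) e.D3) ((e.enc Y) >>> e.l0 + e.k1) st) := by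
  have hF : ∀ (x : ℕ) (st : List It), e.close1 k3 x (e.enc Y) st = e.close1 k3 x (e.enc Y) [] ++ st :=
    fun x st => (app_close e k3 x (e.enc Y) st).2
  refine ec3_pass e h (ec3_RP e) t ht _ _ (mask3_ok e h _) (key_le e h Y hY _ (by simp)) _
    hF ?_ ?_ st hst
  · intro x hx hR hn
    rw [ec3_k1] at hn
    have h1 := nv3 e h x Y hx hY e.c1 hR.2 hn
    show e.close1 k3 (e.enc x) (e.enc Y) [] = []
    rw [close1_spec e h k3 hk3 x Y hx hY, if_pos (Or.inr h1)]
  · intro x hx hR z hz hne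
    change z ∈ e.close1 k3 (e.enc x) (e.enc Y) [] at hz
    rw [close1_spec e h k3 hk3 x Y hx hY] at hz
    split_ifs at hz with hc
    · exact absurd hz List.not_mem_nil
    · rw [List.mem_singleton.1 hz]
      have hc' := fun hh => hc (Or.inr hh)
      exact ec3_r1 e h x Y hR.1 hR.2 _ (by omega)

theorem ec3_p_close0 (e : EP) (h : e.Ok) (k3 : ℕ) (hk3 : k3 ≤ 1) (Y : DS e.K) (hY : e.OkD Y)
    (t : List (ℕ × ℕ))
    (ht : ∀ a ∈ t, ∃ x : DS e.K, e.OkD x ∧ ec3_RP e x ∧ a = (e.enc x, x.ld)) (st : List It)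
    (hst : ec3_Inv e st) : ec3_Inv e (e.exs (e.pk t) (fun x => e.close0 k3 x (e.enc Y))
      (Nat.land (e.enc Y) e.D3) ((e.enc Y) >>> e.l0 + e.k0) st) := by
  have hF : ∀ (x : ℕ) (st : List It), e.close0 k3 x (e.enc Y) st = e.close0 k3 x (e.enc Y) [] ++ st :=
    fun x st => (app_close e k3 x (e.enc Y) st).1
  refine ec3_pass e h (ec3_RP e) t ht _ _ (mask3_ok e h _) (key_le e h Y hY _ (by simp)) _
    hF ?_ ?_ st hst
  · intro x hx hR hn
    rw [ec3_k0] at hn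
    have h1 := nv3 e h x Y hx hY 0 hR.2 hn
    rw [Nat.add_zero] at h1
    show e.close0 k3 (e.enc x) (e.enc Y) [] = []
    rw [close0_spec e h k3 hk3 x Y hx hY, if_pos (Or.inr h1)]
  · intro x hx hR z hz hne
    change z ∈ e.close0 k3 (e.enc x) (e.enc Y) [] at hz
    rw [close0_spec e h k3 hk3 x Y hx hY] at hz
    split_ifs at hz with hc
    · exact absurd hz List.not_mem_nil
    · exact absurd (List.mem_singleton.1 hz) hne

/-- new piece in root form `Y`, chains in the list -/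
theorem ec3_q_chain (e : EP) (h : e.Ok) (r : ℕ → ℕ → It)
    (hr : ∀ f w, (∃ y : DS e.K, e.OkD y ∧ e.Qd y ∧ f = e.enc y ∧ e.alvQ y ≤ w + y.ld) →
      e.GoodIt (r f w)) (thr key : ℕ) (hkey : key = 8 * e.tau + thr)
    (hk : key ∈ [e.k0, e.k1, e.k2, e.kp, e.k4, e.kk, e.kV, e.kW]) (Y : DS e.K)
    (hY : e.OkD Y) (t : List (ℕ × ℕ))
    (ht : ∀ a ∈ t, ∃ x : DS e.K, e.OkD x ∧ e.Qd x ∧ a = (e.enc x, x.ld)) (st : List It)
    (hst : ec3_Inv e st) : ec3_Inv e (e.exs (e.pk t) (fun x => e.chain r thr x (e.enc Y))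
      (Nat.land (e.enc Y) e.D1) ((e.enc Y) >>> e.l0 + key) st) := by
  have hF : ∀ (x : ℕ) (st : List It), e.chain r thr x (e.enc Y) st = e.chain r thr x (e.enc Y) [] ++ st :=
    fun x st => app_chain e r thr x (e.enc Y) st
  refine ec3_pass e h e.Qd t ht _ _ (mask1_ok e h _) (key_le e h Y hY _ hk) _
    hF ?_ ?_ st hst
  · intro x hx hR hn
    rw [hkey] at hn
    have h1 := nv1 e h x Y hx hY thr hn
    show e.chain r thr (e.enc x) (e.enc Y) [] = []
    rw [chain_spec e h r thr x Y hx hY, if_pos (Or.inr h1)]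
  · intro x hx hR z hz hne
    change z ∈ e.chain r thr (e.enc x) (e.enc Y) [] at hz
    rw [chain_spec e h r thr x Y hx hY] at hz
    split_ifs at hz with hc
    · exact absurd hz List.not_mem_nil
    · rw [List.mem_singleton.1 hz]
      push Not at hc
      exact ec3_chainI e h r hr x Y hR _ _ _ (by omega)

/-- new chain `X`, pieces in the list -/
theorem ec3_p_chain (e : EP) (h : e.Ok) (r : ℕ → ℕ → It)
    (hr : ∀ f w, (∃ y : DS e.K, e.OkD y ∧ e.Qd y ∧ f = e.enc y ∧ e.alvQ y ≤ w + y.ld) →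
      e.GoodIt (r f w)) (thr key : ℕ) (hkey : key = 8 * e.tau + thr)
    (hk : key ∈ [e.k0, e.k1, e.k2, e.kp, e.k4, e.kk, e.kV, e.kW]) (X : DS e.K)
    (hX : e.OkD X) (hQ : e.Qd X) (t : List (ℕ × ℕ))
    (ht : ∀ a ∈ t, ∃ x : DS e.K, e.OkD x ∧ ec3_RP e x ∧ a = (e.enc x, x.ld)) (st : List It)
    (hst : ec3_Inv e st) : ec3_Inv e (e.exs (e.pk t) (fun y => e.chain r thr (e.enc X) y)
      (Nat.land (e.enc X) e.D1) ((e.enc X) >>> e.l0 + key) st) := by
  have hF : ∀ (y : ℕ) (st : List It), e.chain r thr (e.enc X) y st = e.chain r thr (e.enc X) y [] ++ st :=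
    fun y st => app_chain e r thr (e.enc X) y st
  refine ec3_pass e h (ec3_RP e) t ht _ _ (mask1_ok e h _) (key_le e h X hX _ hk) _
    hF ?_ ?_ st hst
  · intro y hy hR hn
    rw [hkey] at hn
    have h1 := nv1 e h y X hy hX thr hn
    rw [wtD_symm, ec3_dE_symm] at h1
    show e.chain r thr (e.enc X) (e.enc y) [] = []
    rw [chain_spec e h r thr X y hX hy, if_pos (Or.inr h1)]
  · intro y hy hR z hz hne
    change z ∈ e.chain r thr (e.enc X) (e.enc y) [] at hz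
    rw [chain_spec e h r thr X y hX hy] at hz
    split_ifs at hz with hc
    · exact absurd hz List.not_mem_nil
    · rw [List.mem_singleton.1 hz]
      push Not at hc
      exact ec3_chainI e h r hr X y hQ _ _ _ (by omega)

/-- new piece (child form `Y`), pairs -/
theorem ec3_p_pairG (e : EP) (h : e.Ok) (Y : DS e.K) (hY : e.OkD Y) (hQ : e.Qd Y)
    (t : List (ℕ × ℕ))
    (ht : ∀ a ∈ t, ∃ x : DS e.K, e.OkD x ∧ ec3_RP e x ∧ a = (e.enc x, x.ld)) (st : List It)
    (hst : ec3_Inv e st) : ec3_Inv e (e.exs (e.pk t) (e.pairG (e.enc Y))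
      (Nat.land (e.enc Y) e.D1) ((e.enc Y) >>> e.l0 + e.kp) st) := by
  have hF : ∀ (x : ℕ) (st : List It), e.pairG (e.enc Y) x st = e.pairG (e.enc Y) x [] ++ st :=
    fun x st => (app_pair e (e.enc Y) x st).1
  refine ec3_pass e h (ec3_RP e) t ht _ _ (mask1_ok e h _) (key_le e h Y hY _ (by simp)) _
    hF ?_ ?_ st hst
  · intro x hx hR hn
    rw [ec3_kp] at hn
    have h1 := nv1 e h x Y hx hY (Eng.minN e.thT e.th6) hn
    have h2 := ec3_minN_le e.thT e.th6
    have h3 : e.wtD x Y ≤ e.dE x Y + e.th6 := by omega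
    have h4 : e.wtD x Y ≤ e.dE x Y + e.thT := by omega
    rw [pairG_spec e h x Y hx hY [] _ rfl, if_pos h3, if_pos h4]
    split_ifs <;> rfl
  · intro x hx hR z hz hne
    rw [pairG_spec e h x Y hx hY [] _ rfl] at hz
    have hu : ∀ u v : DS e.K, ¬ e.wtD x Y ≤ e.dE x Y + e.th6 →
        e.GoodIt (It.u2 (e.enc (e.mkK Y x u.N₁ v.N₂ (e.dE x Y))) (e.wtD x Y - e.dE x Y)) := by
      intro u v hc
      have h1 := ec3_chainI e h It.u2 (fun f w hh => hh) Y x hQ u.N₁ v.N₂ (e.dE x Y)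
        (by rw [wtD_symm]; omega)
      rw [wtD_symm] at h1
      exact h1
    have hst1 : z ∈ (if e.wtD x Y ≤ e.dE x Y + e.th6 then ([] : List It) else
      It.u2 (e.enc (e.mkK Y x Y.N₁ x.N₂ (e.dE x Y))) (e.wtD x Y - e.dE x Y) ::
        (if x.N₁ = Y.N₁ then ([] : List It) else
          It.u2 (e.enc (e.mkK Y x x.N₁ Y.N₂ (e.dE x Y))) (e.wtD x Y - e.dE x Y) :: [])) →
        e.GoodIt z := by
      intro hz
      by_cases hc : e.wtD x Y ≤ e.dE x Y + e.th6
      · rw [if_pos hc] at hz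
        exact absurd hz List.not_mem_nil
      · rw [if_neg hc] at hz
        rcases List.mem_cons.1 hz with hz | hz
        · rw [hz]
          exact hu Y x hc
        · split_ifs at hz
          · exact absurd hz List.not_mem_nil
          · rw [List.mem_singleton.1 hz]
            exact hu x Y hc
    by_cases he : e.par.ex2 (x.N₁ ∩ Y.N₁)
    · rw [if_pos he] at hz
      exact absurd hz List.not_mem_nil
    · rw [if_neg he] at hz
      by_cases hT : e.wtD x Y ≤ e.dE x Y + e.thT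
      · rw [if_pos hT] at hz
        exact hst1 hz
      · rw [if_neg hT] at hz
        rcases List.mem_cons.1 hz with hz | hz
        · rw [hz]
          have hT' : e.thT = e.tau + 2 * e.lam := rfl
          have h1 := ec3_chainI e h It.t2 (fun f w hh => hh) Y x hQ Y.N₁ x.N₂ (e.dE x Y + e.tau)
            (by rw [wtD_symm]; omega)
          rw [wtD_symm] at h1
          exact h1
        · exact hst1 hz

theorem ec3_p_pairV (e : EP) (h : e.Ok) (Y : DS e.K) (hY : e.OkD Y) (hQ : e.Qd Y)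
    (t : List (ℕ × ℕ))
    (ht : ∀ a ∈ t, ∃ x : DS e.K, e.OkD x ∧ ec3_RP e x ∧ a = (e.enc x, x.ld)) (st : List It)
    (hst : ec3_Inv e st) : ec3_Inv e (e.exs (e.pk t) (e.pairV (e.enc Y))
      (Nat.land (e.enc Y) e.D1) ((e.enc Y) >>> e.l0 + e.kV) st) := by
  have hF : ∀ (x : ℕ) (st : List It), e.pairV (e.enc Y) x st = e.pairV (e.enc Y) x [] ++ st :=
    fun x st => (app_pair e (e.enc Y) x st).2.1
  refine ec3_pass e h (ec3_RP e) t ht _ _ (mask1_ok e h _) (key_le e h Y hY _ (by simp)) _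
    hF ?_ ?_ st hst
  · intro x hx hR hn
    rw [ec3_kV] at hn
    have h1 := nv1 e h x Y hx hY e.thV hn
    rw [pairV_spec e h x Y hx hY, if_pos h1]
  · intro x hx hR z hz hne
    rw [pairV_spec e h x Y hx hY] at hz
    split_ifs at hz with hc
    · exact absurd hz List.not_mem_nil
    · rw [List.mem_singleton.1 hz]
      have h1 := ec3_chainI e h It.v2 (fun f w hh => hh) Y x hQ Y.N₁ x.N₂ (e.dE x Y)
        (by rw [wtD_symm]; omega)
      rw [wtD_symm] at h1
      exact h1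

/-- `triV`: good results -/
theorem ec3_triV_good (e : EP) (h : e.Ok) (x y : DS e.K) (hx : e.OkD x) (hQ : e.Qd x)
    (hy : e.OkD y) (z : It) (hz : z ∈ e.triV (e.enc x) (e.enc y) []) : e.GoodIt z := by
  rw [triV_spec e h x y hx hy] at hz
  split_ifs at hz with hc
  · exact absurd hz List.not_mem_nil
  · rw [List.mem_singleton.1 hz]
    obtain ⟨h1, h2, h3⟩ := ec3_goodK e h x y hQ x.N₁ x.N₂ (e.dC y x + 4 * e.tau) (by omega)
    exact ⟨_, _, h1, h2, rfl, rfl, h3⟩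

theorem ec3_q_triV (e : EP) (h : e.Ok) (Y : DS e.K) (hY : e.OkD Y) (hP : ec3_RP e Y)
    (t : List (ℕ × ℕ))
    (ht : ∀ a ∈ t, ∃ x : DS e.K, e.OkD x ∧ e.Qd x ∧ a = (e.enc x, x.ld)) (st : List It)
    (hst : ec3_Inv e st) : ec3_Inv e (e.exs (e.pk t) (fun x => e.triV x (e.enc Y))
      (Nat.land (e.enc Y) e.D3) ((e.enc Y) >>> e.l0 + e.kW) st) := by
  have hF : ∀ (x : ℕ) (st : List It), e.triV x (e.enc Y) st = e.triV x (e.enc Y) [] ++ st :=
    fun x st => (app_pair e x (e.enc Y) st).2.2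
  refine ec3_pass e h e.Qd t ht _ _ (mask3_ok e h _) (key_le e h Y hY _ (by simp)) _
    hF ?_ ?_ st hst
  · intro x hx hR hn
    rw [ec3_kW] at hn
    have h1 := nv3' e h x Y hx hY (e.lam + 4 * e.tau) hP.2 hn
    show e.triV (e.enc x) (e.enc Y) [] = []
    rw [triV_spec e h x Y hx hY, if_pos (by omega)]
  · intro x hx hR z hz hne
    exact ec3_triV_good e h x Y hx hR hY z hz

theorem ec3_p_triV (e : EP) (h : e.Ok) (X : DS e.K) (hX : e.OkD X) (hQ : e.Qd X)
    (t : List (ℕ × ℕ))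
    (ht : ∀ a ∈ t, ∃ x : DS e.K, e.OkD x ∧ ec3_RP e x ∧ a = (e.enc x, x.ld)) (st : List It)
    (hst : ec3_Inv e st) : ec3_Inv e (e.exs (e.pk t) (fun y => e.triV (e.enc X) y)
      (Nat.land (e.enc X) e.D3) ((e.enc X) >>> e.l0 + e.kW) st) := by
  have hF : ∀ (y : ℕ) (st : List It), e.triV (e.enc X) y st = e.triV (e.enc X) y [] ++ st :=
    fun y st => (app_pair e (e.enc X) y st).2.2
  refine ec3_pass e h (ec3_RP e) t ht _ _ (mask3_ok e h _) (key_le e h X hX _ (by simp)) _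
    hF ?_ ?_ st hst
  · intro y hy hR hn
    rw [ec3_kW] at hn
    have h1 := nv3 e h y X hy hX (e.lam + 4 * e.tau) hR.2 hn
    rw [wtD_symm] at h1
    show e.triV (e.enc X) (e.enc y) [] = []
    rw [triV_spec e h X y hX hy, if_pos (by omega)]
  · intro y hy hR z hz hne
    exact ec3_triV_good e h X y hX hQ hy z hz

theorem ec3_cons (e : EP) (it : It) (hit : e.GoodIt it) (st : List It) (hst : ec3_Inv e st) :
    ec3_Inv e (it :: st) := by
  intro hb z hz
  rcases List.mem_cons.1 hz with h1 | h1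
  · rw [h1]
    exact hit
  · exact hst (fun hc => hb (List.mem_cons_of_mem _ hc)) z h1

theorem ec3_triv2 (e : EP) (h : e.Ok) (y : DS e.K) (hy : e.OkD y) (w : ℕ)
    (hw : e.alvQ y ≤ w + y.ld) :
    e.GoodIt (It.r2 (e.trivP (e.enc y)) (e.trivQ (e.enc y)) w) ∧
    e.GoodIt (It.r3 (e.trivP (e.enc y)) (e.trivQ (e.enc y)) w) ∧
    e.GoodIt (It.r1 (e.trivQ (e.enc y)) w) := by
  obtain ⟨h1, h2, h3, h4, h5⟩ := ec3_triv e y hy w hw
  rw [trivP_eq e h y hy, trivQ_eq e h y hy]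
  exact ⟨⟨_, _, h1, h2, h3, h4, rfl, rfl, rfl, rfl, rfl, rfl, h5⟩,
    ⟨_, _, h1, h2, h3, h4, rfl, rfl, rfl, rfl, rfl, rfl, h5⟩, ⟨_, h3, h4, rfl, rfl, h5⟩⟩

/-- **New items are well-formed** (unless `bad` is among them).
Proof. `pass_mem` describes the output of each pass (its hypotheses: `ls_ok`, `mask1_ok`, `mask3_ok`, `key_le`,
`app_*`; the non-viable entries produce nothing by `nv1`, `nv3`, `nv3'` and the specifications); so every new item comes from a call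
`F a.1 []` with two good fields, and the specifications give the item. Digits: `16 ≤ x.dg ≤ 31`, `y.dg ≤ 15`
or `31`: compatible implies `y.dg ≤ 15`, `mkP` has digits `16 … 31`, `mkQ` has digits `31 - (x ||| y) ≤ 15`
or `31`, `mkK` keeps the digits of the child form. Weight: `alvQ (mkQ …) = wtD x y` because a compatible lane has a digit `≤ 15`
and the other lanes are `31`; `w = wtD - l`, so `alvQ ≤ w + l`; for `trvQ`: the lanes with
`trvQ ≠ 31` are among those with `y.dg ≠ 31`. Loads: the item is pushed only if `l < wtD < 2^s`. `chain` etc.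
with `pairG`: `mkK y x` keeps the digits of the child form `y`. -/
theorem good_out (e : EP) (h : e.Ok) (b1 b2 : List (ℕ × ℕ)) (b3 : List ℕ)
    (h1 : ∀ a ∈ b1, ∃ x : DS e.K, e.OkD x ∧ e.Pd x ∧ x.N₁ = x.N₂ ∧ a = (e.enc x, x.ld))
    (h2 : ∀ a ∈ b2, ∃ x : DS e.K, e.OkD x ∧ e.Pd x ∧ x.N₁ = x.N₂ ∧ a = (e.enc x, x.ld))
    (h3 : ∀ a ∈ b3, ∃ x : DS e.K, e.OkD x ∧ e.Pd x ∧ x.N₁ = x.N₂ ∧ a = e.enc x)
    (it : It) (hit : e.GoodIt it) (st D : List It) (hst : ∀ it ∈ st, e.GoodIt it)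
    (hD : ∀ it ∈ D, e.GoodIt it) (hb : It.bad ∉ e.out b1 b2 b3 it st D) (x : It)
    (hx : x ∈ e.out b1 b2 b3 it st D) : e.GoodIt x := by
  have h1' : ∀ a ∈ b1, ∃ x : DS e.K, e.OkD x ∧ ec3_RP e x ∧ a = (e.enc x, x.ld) := by
    intro a ha
    obtain ⟨x, hx1, hx2, hx3, hx4⟩ := h1 a ha
    exact ⟨x, hx1, ⟨hx2, hx3⟩, hx4⟩
  have h2' : ∀ a ∈ b2, ∃ x : DS e.K, e.OkD x ∧ ec3_RP e x ∧ a = (e.enc x, x.ld) := by
    intro a ha
    obtain ⟨x, hx1, hx2, hx3, hx4⟩ := h2 a ha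
    exact ⟨x, hx1, ⟨hx2, hx3⟩, hx4⟩
  have hst' : ec3_Inv e st := fun _ => hst
  suffices hI : ec3_Inv e (e.out b1 b2 b3 it st D) from hI hb x hx
  cases it with
  | r1 f w =>
    obtain ⟨y, hy1, hy2, hy3, rfl, hy5⟩ := hit
    have hI0 : ec3_Inv e (if w ≤ e.c3 then st else
        It.r3 (e.trivP (e.enc y)) (e.trivQ (e.enc y)) w :: st) := by
      split_ifs
      · exact hst'
      · exact ec3_cons e _ (ec3_triv2 e h y hy1 w hy5).2.1 st hst'
    have hI1 := ec3_p_edge0 e h y hy1 b1 h1' _ hI0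
    have hI2 := ec3_p_edge2 e h y hy1 _ (ec3_sel3 e h D hD) _ hI1
    by_cases hw : w ≤ e.t1
    · simp only [EP.out, if_pos hw]
      exact hI2
    · simp only [EP.out, if_neg hw]
      exact ec3_p_edge1 e h y hy1 _ (ec3_sel2e e h D hD) _ hI2
  | r2 p q w =>
    obtain ⟨x, y, hx1, hx2, hy1, hy2, hn, hn1, hn2, hl, rfl, rfl, hy5⟩ := hit
    have hRP : ec3_RP e x := ⟨hx2, hn1.trans (hn.trans hn2.symm)⟩
    have hD' : ∀ it ∈ It.r2 (e.enc x) (e.enc y) w :: D, e.GoodIt it := by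
      intro it hit
      rcases List.mem_cons.1 hit with hi | hi
      · rw [hi]
        exact ⟨x, y, hx1, hx2, hy1, hy2, hn, hn1, hn2, hl, rfl, rfl, hy5⟩
      · exact hD it hi
    have hI1 := ec3_p_pairG e h y hy1 hy2 _ (ec3_sel2 e h _ hD') st hst'
    by_cases hw : w ≤ e.t2e
    · simp only [EP.out, if_pos hw]
      exact hI1
    · by_cases hw2 : w ≤ e.t2u
      · simp only [EP.out, if_neg hw, if_pos hw2]
        exact ec3_q_edge1 e h x hx1 hRP _ (ec3_sel1 e h D hD) _ hI1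
      · simp only [EP.out, if_neg hw, if_neg hw2]
        refine ec3_q_edge1 e h x hx1 hRP _ (ec3_sel1 e h D hD) _ ?_
        refine ec3_q_chain e h It.u4 (fun f w hh => hh) e.th2 e.kk rfl (by simp) x hx1 _
          (ec3_selU3 e h D hD) _ ?_
        refine ec3_q_chain e h It.u3 (fun f w hh => hh) e.th4 e.k4 rfl (by simp) x hx1 _
          (ec3_selU4 e h D hD) _ ?_
        exact ec3_q_chain e h It.u3 (fun f w hh => hh) e.th4 e.k4 rfl (by simp) x hx1 _
          (ec3_selU2 e h D hD) _ hI1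
  | r3 p q w =>
    obtain ⟨x, y, hx1, hx2, hy1, hy2, hn, hn1, hn2, hl, rfl, rfl, hy5⟩ := hit
    have hRP : ec3_RP e x := ⟨hx2, hn1.trans (hn.trans hn2.symm)⟩
    have hD' : ∀ it ∈ It.r3 (e.enc x) (e.enc y) w :: D, e.GoodIt it := by
      intro it hit
      rcases List.mem_cons.1 hit with hi | hi
      · rw [hi]
        exact ⟨x, y, hx1, hx2, hy1, hy2, hn, hn1, hn2, hl, rfl, rfl, hy5⟩
      · exact hD it hi
    have hI1 := ec3_q_edge2 e h x hx1 hRP _ (ec3_sel1 e h D hD) st hst'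
    have hI2 := ec3_q_close1 e h 1 le_rfl x hx1 hRP _ (ec3_selT e h D hD) _ hI1
    have hI3 := ec3_q_close1 e h 0 (by norm_num) x hx1 hRP _ (ec3_selU4 e h D hD) _ hI2
    by_cases hk : e.kf = 1
    · simp only [EP.out, if_pos hk]
      exact hI3
    · simp only [EP.out, if_neg hk]
      have hI4 := ec3_p_pairV e h y hy1 hy2 _ (ec3_sel3 e h _ hD') _ hI3
      exact ec3_q_triV e h x hx1 hRP _ (ec3_selV e h D hD) _ hI4
  | t2 f w =>
    obtain ⟨y, hy1, hy2, rfl, hy5⟩ := hit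
    have hI0 : ec3_Inv e (if w ≤ e.c2 then st else
        It.r2 (e.trivP (e.enc y)) (e.trivQ (e.enc y)) w :: st) := by
      split_ifs
      · exact hst'
      · exact ec3_cons e _ (ec3_triv2 e h y hy1 w hy5).1 st hst'
    have hI1 := ec3_p_close0 e h 1 le_rfl y hy1 b2 h2' _ hI0
    exact ec3_p_close1 e h 1 le_rfl y hy1 _ (ec3_sel3 e h D hD) _ hI1
  | u2 f w =>
    obtain ⟨y, hy1, hy2, rfl, hy5⟩ := hit
    exact ec3_p_chain e h It.u3 (fun f w hh => hh) e.th4 e.k4 rfl (by simp) y hy1 hy2 _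
      (ec3_sel2u e h D hD) _ hst'
  | u3 f w =>
    obtain ⟨y, hy1, hy2, rfl, hy5⟩ := hit
    exact ec3_p_chain e h It.u4 (fun f w hh => hh) e.th2 e.kk rfl (by simp) y hy1 hy2 _
      (ec3_sel2u e h D hD) _ hst'
  | u4 f w =>
    obtain ⟨y, hy1, hy2, rfl, hy5⟩ := hit
    have hI0 : ec3_Inv e (if w ≤ e.c2 then st else
        It.r2 (e.trivP (e.enc y)) (e.trivQ (e.enc y)) w :: st) := by
      split_ifs
      · exact hst'
      · exact ec3_cons e _ (ec3_triv2 e h y hy1 w hy5).1 st hst'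
    have hI1 := ec3_p_close0 e h 0 (by norm_num) y hy1 b2 h2' _ hI0
    have hI2 := ec3_p_close1 e h 0 (by norm_num) y hy1 _ (ec3_sel3 e h D hD) _ hI1
    exact ec3_p_chain e h It.u3 (fun f w hh => hh) e.th4 e.k4 rfl (by simp) y hy1 hy2 _
      (ec3_sel2u e h D hD) _ hI2
  | v2 f w =>
    obtain ⟨y, hy1, hy2, rfl, hy5⟩ := hit
    exact ec3_p_triV e h y hy1 hy2 _ (ec3_sel3 e h D hD) _ hst'
  | v3 f n w =>
    obtain ⟨y, N, hy1, hy2, rfl, rfl, hy5⟩ := hit
    intro hb z hz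
    change z ∈ e.v0s b3 (e.enc y) (msk N) w st at hz
    rcases (v0s_mem e b3 (e.enc y) (msk N) w st z).1 hz with h4 | ⟨h4, h5⟩ | ⟨a, ha, h4⟩
    · exact hst z h4
    · rw [h5]
      exact (ec3_triv2 e h y hy1 w hy5).2.2
    · obtain ⟨x, hx1, hx2, hx3, rfl⟩ := h3 a ha
      rw [v0_spec e h x y N hx1 hy1] at h4
      split_ifs at h4
      · exfalso
        apply hb
        rw [List.mem_singleton.1 h4] at hz
        exact hz
      · exact absurd h4 List.not_mem_nil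
  | bad => exact absurd hit (fun hh => hh)

end Pool.Agent.MP_528dc0_co

end

section

open Finset

namespace Pool.Agent.MP_528dc0_co

open Eng (Lst It)

/-- a pass keeps the worklist -/
theorem ec4a_keep (e : EP) (L : Lst) (m k : ℕ) (F : ℕ → List It → List It)
    (hF : ∀ x st, F x st = F x [] ++ st) (st : List It)
    (hb : It.bad ∉ e.exs L F m k st) {it : It} (hit : it ∈ st) : it ∈ e.exs L F m k st :=
  (pass_mono e L m k F hF st it hit).resolve_right hb

/-- no `bad` before a pass -/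
theorem ec4a_nb (e : EP) (L : Lst) (m k : ℕ) (F : ℕ → List It → List It)
    (hF : ∀ x st, F x st = F x [] ++ st) (st : List It)
    (hb : It.bad ∉ e.exs L F m k st) : It.bad ∉ st := fun hx =>
  (pass_mono e L m k F hF st It.bad hx).elim hb hb

theorem ec4a_dE_symm (e : EP) (x y : DS e.K) : e.dE x y = e.dE y x := by
  unfold EP.dE
  rw [Finset.inter_comm]
  ring

/-- results of a pass with the mask `D1` -/
theorem ec4a_new (e : EP) (h : e.Ok) (t : List (ℕ × ℕ)) (ht : ∀ a ∈ t, e.EntOk a)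
    (y : DS e.K) (hy : e.OkD y) (c kc : ℕ) (hkc : kc = 8 * e.tau + c)
    (hkm : kc ∈ [e.k0, e.k1, e.k2, e.kp, e.k4, e.kk, e.kV, e.kW])
    (F : ℕ → List It → List It) (hF : ∀ x st, F x st = F x [] ++ st)
    (hz : ∀ x : DS e.K, e.OkD x → e.wtD x y ≤ e.dE x y + c → F (e.enc x) [] = [])
    (st : List It)
    (hb : It.bad ∉ e.exs (e.pk t) F (Nat.land (e.enc y) e.D1) ((e.enc y) >>> e.l0 + kc) st)
    {a : ℕ × ℕ} (ha : a ∈ t) {it : It} (hit : it ∈ F a.1 []) :
    it ∈ e.exs (e.pk t) F (Nat.land (e.enc y) e.D1) ((e.enc y) >>> e.l0 + kc) st := by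
  have hm := mask1_ok e h (e.enc y)
  refine (pass_mem e h t ht _ _ hm.1 hm.2 (key_le e h y hy kc hkm) F hF ?_ st hb it).2
    (Or.inr ⟨a, ha, hit⟩)
  intro b hb' hn
  obtain ⟨x, hx, rfl⟩ := ht b hb'
  refine hz x hx (nv1 e h x y hx hy c ?_)
  rw [← hkc]
  exact hn

theorem part_r1 (e : EP) (h : e.Ok) (b1 b2 : List (ℕ × ℕ)) (b3 : List ℕ)
    (h1 : ∀ a ∈ b1, ∃ x : DS e.K, e.OkD x ∧ e.Pd x ∧ x.N₁ = x.N₂ ∧ a = (e.enc x, x.ld))
    (h2 : ∀ a ∈ b2, ∃ x : DS e.K, e.OkD x ∧ e.Pd x ∧ x.N₁ = x.N₂ ∧ a = (e.enc x, x.ld))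
    (h3 : ∀ a ∈ b3, ∃ x : DS e.K, e.OkD x ∧ e.Pd x ∧ x.N₁ = x.N₂ ∧ a = e.enc x)
    (f w : ℕ) (st D : List It) (hit : e.GoodIt (It.r1 f w)) (hD : ∀ it ∈ D, e.GoodIt it)
    (hb : It.bad ∉ e.out b1 b2 b3 (It.r1 f w) st D) (hP : e.Part b1 b2 b3 D (It.r1 f w :: st)) :
    e.Part b1 b2 b3 (It.r1 f w :: D) (e.out b1 b2 b3 (It.r1 f w) st D) := by
  have old : ∀ x : It, (x ∈ D ∨ x ∈ It.r1 f w :: st) →
      (x ∈ It.r1 f w :: D ∨ x ∈ e.out b1 b2 b3 (It.r1 f w) st D) := by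
    intro x hx
    rcases hx with hx | hx
    · exact Or.inl (List.mem_cons_of_mem _ hx)
    · rcases List.mem_cons.1 hx with hx | hx
      · exact Or.inl (hx ▸ List.mem_cons_self)
      · exact Or.inr ((out_mono e b1 b2 b3 _ st D x hx).resolve_right hb)
  obtain ⟨y, hyO, hyQ, hyN, hfy, -⟩ := hit
  -- the passes
  have hF0 : ∀ x st, (fun x => e.edge0 x f) x st = (fun x => e.edge0 x f) x [] ++ st :=
    fun x st => (app_edge e x f st).1
  have hF1 : ∀ x st, (fun x => e.edge1 x f) x st = (fun x => e.edge1 x f) x [] ++ st :=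
    fun x st => (app_edge e x f st).2.1
  have hF2 : ∀ x st, (fun x => e.edge2 x f) x st = (fun x => e.edge2 x f) x [] ++ st :=
    fun x st => (app_edge e x f st).2.2
  have hz0 : ∀ x : DS e.K, e.OkD x → e.wtD x y ≤ e.dE x y + 0 →
      (fun x => e.edge0 x f) (e.enc x) [] = [] := by
    intro x hx hw
    show e.edge0 (e.enc x) f [] = []
    rw [hfy, edge0_spec e h x y hx hyO, if_pos (Or.inr (by simpa using hw))]
  have hz1 : ∀ x : DS e.K, e.OkD x → e.wtD x y ≤ e.dE x y + e.c1 →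
      (fun x => e.edge1 x f) (e.enc x) [] = [] := by
    intro x hx hw
    show e.edge1 (e.enc x) f [] = []
    rw [hfy, edge1_spec e h x y hx hyO, if_pos (Or.inr hw)]
  have hz2 : ∀ x : DS e.K, e.OkD x → e.wtD x y ≤ e.dE x y + e.c2 →
      (fun x => e.edge2 x f) (e.enc x) [] = [] := by
    intro x hx hw
    show e.edge2 (e.enc x) f [] = []
    rw [hfy, edge2_spec e h x y hx hyO, if_pos (Or.inr hw)]
  have hb1 : ∀ a ∈ b1, e.EntOk a := by
    intro a ha
    obtain ⟨x, hx, -, -, hax⟩ := h1 a ha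
    exact ⟨x, hx, hax⟩
  have hl3 : ∀ a ∈ D.filterMap e.sel3, e.EntOk a := ls_ok e h D hD e.sel3 (by simp)
  have hl2 : ∀ a ∈ D.filterMap e.sel2e, e.EntOk a := ls_ok e h D hD e.sel2e (by simp)
  -- the intermediate worklists
  set st0 : List It := if w ≤ e.c3 then st else It.r3 (e.trivP f) (e.trivQ f) w :: st with hst0
  set st1 : List It :=
    e.exs (e.pk b1) (fun x => e.edge0 x f) (Nat.land f e.D1) (f >>> e.l0 + e.k0) st0 with hst1
  set st2 : List It :=
    e.exs (e.ls e.sel3 D) (fun x => e.edge2 x f) (Nat.land f e.D1) (f >>> e.l0 + e.k2) st1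
    with hst2
  have hout : e.out b1 b2 b3 (It.r1 f w) st D = if w ≤ e.t1 then st2 else
      e.exs (e.ls e.sel2e D) (fun x => e.edge1 x f) (Nat.land f e.D1) (f >>> e.l0 + e.k1) st2 := rfl
  have hb2 : It.bad ∉ st2 := by
    rw [hout] at hb
    split_ifs at hb with hw
    · exact hb
    · exact ec4a_nb e _ _ _ _ hF1 _ hb
  have hk2 : ∀ x ∈ st2, x ∈ e.out b1 b2 b3 (It.r1 f w) st D := by
    intro x hx
    rw [hout] at hb ⊢
    split_ifs at hb ⊢ with hw
    · exact hx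
    · exact ec4a_keep e _ _ _ _ hF1 _ hb hx
  have hb1' : It.bad ∉ st1 := ec4a_nb e _ _ _ _ hF2 _ hb2
  have hk1 : ∀ x ∈ st1, x ∈ e.out b1 b2 b3 (It.r1 f w) st D := fun x hx =>
    hk2 x (ec4a_keep e _ _ _ _ hF2 _ hb2 hx)
  have hk0 : ∀ x ∈ st0, x ∈ e.out b1 b2 b3 (It.r1 f w) st D := fun x hx =>
    hk1 x (ec4a_keep e _ _ _ _ hF0 _ hb1' hx)
  -- new pairs
  have n0 : ∀ a ∈ b1, ∀ it ∈ e.edge0 a.1 f [], it ∈ e.out b1 b2 b3 (It.r1 f w) st D := by
    intro a ha it hi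
    apply hk1
    have := hb1'
    rw [hst1] at this ⊢
    revert this
    have hf := hfy
    intro this
    have key := ec4a_new e h b1 hb1 y hyO 0 e.k0 rfl (by simp) (fun x => e.edge0 x f) hF0 hz0 st0
      (by rw [← hfy]; exact this) ha hi
    rw [← hfy] at key
    exact key
  have n2 : ∀ a ∈ D.filterMap e.sel3, ∀ it ∈ e.edge2 a.1 f [],
      it ∈ e.out b1 b2 b3 (It.r1 f w) st D := by
    intro a ha it hi
    apply hk2
    have this := hb2
    rw [hst2] at this ⊢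
    have key := ec4a_new e h (D.filterMap e.sel3) hl3 y hyO e.c2 e.k2 rfl (by simp)
      (fun x => e.edge2 x f) hF2 hz2 st1 (by rw [← hfy]; exact this) ha hi
    rw [← hfy] at key
    exact key
  have n1 : e.t1 < w → ∀ a ∈ D.filterMap e.sel2e, ∀ it ∈ e.edge1 a.1 f [],
      it ∈ e.out b1 b2 b3 (It.r1 f w) st D := by
    intro hw a ha it hi
    have hw' : ¬ w ≤ e.t1 := not_le.2 hw
    rw [hout, if_neg hw'] at hb ⊢
    have key := ec4a_new e h (D.filterMap e.sel2e) hl2 y hyO e.c1 e.k1 rfl (by simp)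
      (fun x => e.edge1 x f) hF1 hz1 st2 (by rw [← hfy]; exact hb) ha hi
    rw [← hfy] at key
    exact key
  constructor
  · -- e0
    intro f' w' hm a ha it hi
    rcases List.mem_cons.1 hm with hm | hm
    · obtain ⟨rfl, rfl⟩ := It.r1.inj hm
      exact Or.inr (n0 a ha it hi)
    · exact old it (hP.e0 f' w' hm a ha it hi)
  · -- e1
    intro p q w2 f' w' hm hm' hw hw' it hi
    have hmD : It.r2 p q w2 ∈ D := by simpa using hm
    rcases List.mem_cons.1 hm' with hm' | hm'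
    · obtain ⟨rfl, rfl⟩ := It.r1.inj hm'
      refine Or.inr (n1 hw' (p, p >>> e.l0) ?_ it hi)
      rw [List.mem_filterMap]
      exact ⟨_, hmD, by simp [EP.sel2e, not_le.2 hw]⟩
    · exact old it (hP.e1 p q w2 f' w' hmD hm' hw hw' it hi)
  · -- e2
    intro p q w2 f' w' hm hm' hw' it hi
    have hmD : It.r3 p q w2 ∈ D := by simpa using hm
    rcases List.mem_cons.1 hm' with hm' | hm'
    · obtain ⟨rfl, rfl⟩ := It.r1.inj hm'
      refine Or.inr (n2 (p, p >>> e.l0) ?_ it hi)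
      rw [List.mem_filterMap]
      exact ⟨_, hmD, by simp [EP.sel3]⟩
    · exact old it (hP.e2 p q w2 f' w' hmD hm' hw' it hi)
  · -- e3
    intro f' w' hm hw
    rcases List.mem_cons.1 hm with hm | hm
    · obtain ⟨rfl, rfl⟩ := It.r1.inj hm
      refine Or.inr (hk0 _ ?_)
      rw [hst0, if_neg (not_le.2 hw)]
      exact List.mem_cons_self
    · exact old _ (hP.e3 f' w' hm hw)
  · -- pr
    intro p q w2 p' q' w' hm hm'
    have hmD : It.r2 p q w2 ∈ D := by simpa using hm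
    have hmD' : It.r2 p' q' w' ∈ D := by simpa using hm'
    rcases hP.pr p q w2 p' q' w' hmD hmD' with hh | hh
    · exact Or.inl fun it hi => old it (hh it hi)
    · exact Or.inr fun it hi => old it (hh it hi)
  · -- u2
    intro f' w' p q w2 hm hm' hw it hi
    exact old it (hP.u2 f' w' p q w2 (by simpa using hm) (by simpa using hm') hw it hi)
  · -- u4
    intro f' w' p q w2 hm hm' hw it hi
    exact old it (hP.u4 f' w' p q w2 (by simpa using hm) (by simpa using hm') hw it hi)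
  · -- u3
    intro f' w' p q w2 hm hm' hw it hi
    exact old it (hP.u3 f' w' p q w2 (by simpa using hm) (by simpa using hm') hw it hi)
  · -- tc0
    intro f' w' hm a ha it hi
    exact old it (hP.tc0 f' w' (by simpa using hm) a ha it hi)
  · -- uc0
    intro f' w' hm a ha it hi
    exact old it (hP.uc0 f' w' (by simpa using hm) a ha it hi)
  · -- tc1
    intro p q w2 f' w' hm hm' it hi
    exact old it (hP.tc1 p q w2 f' w' (by simpa using hm) (by simpa using hm') it hi)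
  · -- uc1
    intro p q w2 f' w' hm hm' it hi
    exact old it (hP.uc1 p q w2 f' w' (by simpa using hm) (by simpa using hm') it hi)
  · -- tc2
    intro f' w' hm hw
    exact old _ (hP.tc2 f' w' (by simpa using hm) hw)
  · -- uc2
    intro f' w' hm hw
    exact old _ (hP.uc2 f' w' (by simpa using hm) hw)
  · -- v2
    intro hkf p q w2 p' q' w' hm hm'
    rcases hP.v2 hkf p q w2 p' q' w' (by simpa using hm) (by simpa using hm') with hh | hh
    · exact Or.inl fun it hi => old it (hh it hi)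
    · exact Or.inr fun it hi => old it (hh it hi)
  · -- v3
    intro hkf f' w' p q w2 hm hm' it hi
    exact old it (hP.v3 hkf f' w' p q w2 (by simpa using hm) (by simpa using hm') it hi)
  · -- vc
    intro f' n' w' hm it hi
    exact old it (hP.vc f' n' w' (by simpa using hm) it hi)

end Pool.Agent.MP_528dc0_co

end

section

open Finset

namespace Pool.Agent.MP_528dc0_co

open Eng (Lst It)

/-- a pass keeps the worklist -/
theorem ec4b_keep (e : EP) (L : Lst) (m k : ℕ) (F : ℕ → List It → List It)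
    (hF : ∀ x st, F x st = F x [] ++ st) (st : List It)
    (hb : It.bad ∉ e.exs L F m k st) {it : It} (hit : it ∈ st) : it ∈ e.exs L F m k st :=
  (pass_mono e L m k F hF st it hit).resolve_right hb

/-- no `bad` before a pass -/
theorem ec4b_nb (e : EP) (L : Lst) (m k : ℕ) (F : ℕ → List It → List It)
    (hF : ∀ x st, F x st = F x [] ++ st) (st : List It)
    (hb : It.bad ∉ e.exs L F m k st) : It.bad ∉ st := fun hx =>
  (pass_mono e L m k F hF st It.bad hx).elim hb hb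

theorem ec4b_dE_symm (e : EP) (x y : DS e.K) : e.dE x y = e.dE y x := by
  unfold EP.dE
  rw [Finset.inter_comm]
  ring

/-- results of a pass with the mask `D1` -/
theorem ec4b_new (e : EP) (h : e.Ok) (t : List (ℕ × ℕ)) (ht : ∀ a ∈ t, e.EntOk a)
    (y : DS e.K) (hy : e.OkD y) (c kc : ℕ) (hkc : kc = 8 * e.tau + c)
    (hkm : kc ∈ [e.k0, e.k1, e.k2, e.kp, e.k4, e.kk, e.kV, e.kW])
    (F : ℕ → List It → List It) (hF : ∀ x st, F x st = F x [] ++ st)
    (hz : ∀ x : DS e.K, e.OkD x → e.wtD x y ≤ e.dE x y + c → F (e.enc x) [] = [])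
    (st : List It)
    (hb : It.bad ∉ e.exs (e.pk t) F (Nat.land (e.enc y) e.D1) ((e.enc y) >>> e.l0 + kc) st)
    {a : ℕ × ℕ} (ha : a ∈ t) {it : It} (hit : it ∈ F a.1 []) :
    it ∈ e.exs (e.pk t) F (Nat.land (e.enc y) e.D1) ((e.enc y) >>> e.l0 + kc) st := by
  have hm := mask1_ok e h (e.enc y)
  refine (pass_mem e h t ht _ _ hm.1 hm.2 (key_le e h y hy kc hkm) F hF ?_ st hb it).2
    (Or.inr ⟨a, ha, hit⟩)
  intro b hb' hn
  obtain ⟨x, hx, rfl⟩ := ht b hb'
  refine hz x hx (nv1 e h x y hx hy c ?_)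
  rw [← hkc]
  exact hn

theorem part_r2 (e : EP) (h : e.Ok) (b1 b2 : List (ℕ × ℕ)) (b3 : List ℕ)
    (h1 : ∀ a ∈ b1, ∃ x : DS e.K, e.OkD x ∧ e.Pd x ∧ x.N₁ = x.N₂ ∧ a = (e.enc x, x.ld))
    (h2 : ∀ a ∈ b2, ∃ x : DS e.K, e.OkD x ∧ e.Pd x ∧ x.N₁ = x.N₂ ∧ a = (e.enc x, x.ld))
    (h3 : ∀ a ∈ b3, ∃ x : DS e.K, e.OkD x ∧ e.Pd x ∧ x.N₁ = x.N₂ ∧ a = e.enc x)
    (p q w : ℕ) (st D : List It) (hit : e.GoodIt (It.r2 p q w)) (hD : ∀ it ∈ D, e.GoodIt it)
    (hb : It.bad ∉ e.out b1 b2 b3 (It.r2 p q w) st D) (hP : e.Part b1 b2 b3 D (It.r2 p q w :: st)) :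
    e.Part b1 b2 b3 (It.r2 p q w :: D) (e.out b1 b2 b3 (It.r2 p q w) st D) := by
  have old : ∀ x : It, (x ∈ D ∨ x ∈ It.r2 p q w :: st) →
      (x ∈ It.r2 p q w :: D ∨ x ∈ e.out b1 b2 b3 (It.r2 p q w) st D) := by
    intro x hx
    rcases hx with hx | hx
    · exact Or.inl (List.mem_cons_of_mem _ hx)
    · rcases List.mem_cons.1 hx with hx | hx
      · exact Or.inl (hx ▸ List.mem_cons_self)
      · exact Or.inr ((out_mono e b1 b2 b3 _ st D x hx).resolve_right hb)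
  have hDD : ∀ it ∈ It.r2 p q w :: D, e.GoodIt it := by
    intro it hi
    rcases List.mem_cons.1 hi with hi | hi
    · rw [hi]; exact hit
    · exact hD it hi
  obtain ⟨x, y, hxO, hxP, hyO, hyQ, hyN, -, -, -, hpx, hqy, -⟩ := hit
  -- the passes
  have hFp : ∀ x st, (e.pairG q) x st = (e.pairG q) x [] ++ st :=
    fun x st => (app_pair e q x st).1
  have hFe : ∀ x st, (fun y => e.edge1 p y) x st = (fun y => e.edge1 p y) x [] ++ st :=
    fun x st => (app_edge e p x st).2.1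
  have hF4 : ∀ x st, (fun x => e.chain It.u3 e.th4 x p) x st =
      (fun x => e.chain It.u3 e.th4 x p) x [] ++ st :=
    fun x st => app_chain e It.u3 e.th4 x p st
  have hFk : ∀ x st, (fun x => e.chain It.u4 e.th2 x p) x st =
      (fun x => e.chain It.u4 e.th2 x p) x [] ++ st :=
    fun x st => app_chain e It.u4 e.th2 x p st
  have hminP : e.kp = 8 * e.tau + min e.thT e.th6 := by
    have hm : ∀ a b : ℕ, Eng.minN a b = min a b := by
      intro a b
      show a - (a - b) = min a b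
      omega
    show 8 * e.tau + Eng.minN (e.tau + 2 * e.lam) (6 * e.lam) = _
    rw [hm]
    rfl
  have hzp : ∀ z : DS e.K, e.OkD z → e.wtD z y ≤ e.dE z y + min e.thT e.th6 →
      (e.pairG q) (e.enc z) [] = [] := by
    intro z hz hw
    have hw1 : e.wtD z y ≤ e.dE z y + e.thT := le_trans hw (by gcongr; exact min_le_left _ _)
    have hw2 : e.wtD z y ≤ e.dE z y + e.th6 := le_trans hw (by gcongr; exact min_le_right _ _)
    rw [hqy, pairG_spec e h z y hz hyO [] _ rfl, if_pos hw1, if_pos hw2]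
    simp
  have hze : ∀ z : DS e.K, e.OkD z → e.wtD z x ≤ e.dE z x + e.c1 →
      (fun y => e.edge1 p y) (e.enc z) [] = [] := by
    intro z hz hw
    show e.edge1 p (e.enc z) [] = []
    rw [wtD_symm, ec4b_dE_symm] at hw
    rw [hpx, edge1_spec e h x z hxO hz, if_pos (Or.inr hw)]
  have hz4 : ∀ z : DS e.K, e.OkD z → e.wtD z x ≤ e.dE z x + e.th4 →
      (fun x => e.chain It.u3 e.th4 x p) (e.enc z) [] = [] := by
    intro z hz hw
    show e.chain It.u3 e.th4 (e.enc z) p [] = []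
    rw [hpx, chain_spec e h It.u3 e.th4 z x hz hxO, if_pos (Or.inr hw)]
  have hzk : ∀ z : DS e.K, e.OkD z → e.wtD z x ≤ e.dE z x + e.th2 →
      (fun x => e.chain It.u4 e.th2 x p) (e.enc z) [] = [] := by
    intro z hz hw
    show e.chain It.u4 e.th2 (e.enc z) p [] = []
    rw [hpx, chain_spec e h It.u4 e.th2 z x hz hxO, if_pos (Or.inr hw)]
  have hlp : ∀ a ∈ (It.r2 p q w :: D).filterMap e.sel2, e.EntOk a :=
    ls_ok e h _ hDD e.sel2 (by simp)
  have hl1 : ∀ a ∈ D.filterMap e.sel1, e.EntOk a := ls_ok e h D hD e.sel1 (by simp)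
  have hlu2 : ∀ a ∈ D.filterMap e.selU2, e.EntOk a := ls_ok e h D hD e.selU2 (by simp)
  have hlu3 : ∀ a ∈ D.filterMap e.selU3, e.EntOk a := ls_ok e h D hD e.selU3 (by simp)
  have hlu4 : ∀ a ∈ D.filterMap e.selU4, e.EntOk a := ls_ok e h D hD e.selU4 (by simp)
  -- the intermediate worklists
  set st1 : List It := e.exs (e.ls e.sel2 (It.r2 p q w :: D)) (e.pairG q) (Nat.land q e.D1)
      (q >>> e.l0 + e.kp) st with hst1
  set sa : List It := e.exs (e.ls e.selU2 D) (fun x => e.chain It.u3 e.th4 x p)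
      (Nat.land p e.D1) (p >>> e.l0 + e.k4) st1 with hsa
  set sb : List It := e.exs (e.ls e.selU4 D) (fun x => e.chain It.u3 e.th4 x p)
      (Nat.land p e.D1) (p >>> e.l0 + e.k4) sa with hsb
  set sc : List It := e.exs (e.ls e.selU3 D) (fun x => e.chain It.u4 e.th2 x p)
      (Nat.land p e.D1) (p >>> e.l0 + e.kk) sb with hsc
  set st2 : List It := if w ≤ e.t2u then st1 else sc with hst2
  set st3 : List It := e.exs (e.ls e.sel1 D) (fun y => e.edge1 p y) (Nat.land p e.D1)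
      (p >>> e.l0 + e.k1) st2 with hst3
  have hout : e.out b1 b2 b3 (It.r2 p q w) st D = if w ≤ e.t2e then st1 else st3 := rfl
  have hb3 : ¬ w ≤ e.t2e → It.bad ∉ st3 := by
    intro hw
    rw [hout, if_neg hw] at hb
    exact hb
  have hk3 : ¬ w ≤ e.t2e → ∀ x ∈ st3, x ∈ e.out b1 b2 b3 (It.r2 p q w) st D := by
    intro hw x hx
    rw [hout, if_neg hw]
    exact hx
  have hb2 : ¬ w ≤ e.t2e → It.bad ∉ st2 := fun hw => ec4b_nb e _ _ _ _ hFe _ (hb3 hw)
  have hk2 : ¬ w ≤ e.t2e → ∀ x ∈ st2, x ∈ e.out b1 b2 b3 (It.r2 p q w) st D := fun hw x hx =>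
    hk3 hw x (ec4b_keep e _ _ _ _ hFe _ (hb3 hw) hx)
  have ht : ¬ w ≤ e.t2u → ¬ w ≤ e.t2e := by
    intro hw
    have h6 : e.t2e ≤ e.t2u := by
      show 6 * e.lam ≤ 8 * e.lam
      omega
    omega
  have hbc : ¬ w ≤ e.t2u → It.bad ∉ sc := by
    intro hw
    have := hb2 (ht hw)
    rw [hst2, if_neg hw] at this
    exact this
  have hkc : ¬ w ≤ e.t2u → ∀ x ∈ sc, x ∈ e.out b1 b2 b3 (It.r2 p q w) st D := by
    intro hw x hx
    refine hk2 (ht hw) x ?_
    rw [hst2, if_neg hw]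
    exact hx
  have hbb : ¬ w ≤ e.t2u → It.bad ∉ sb := fun hw => ec4b_nb e _ _ _ _ hFk _ (hbc hw)
  have hkb : ¬ w ≤ e.t2u → ∀ x ∈ sb, x ∈ e.out b1 b2 b3 (It.r2 p q w) st D := fun hw x hx =>
    hkc hw x (ec4b_keep e _ _ _ _ hFk _ (hbc hw) hx)
  have hba : ¬ w ≤ e.t2u → It.bad ∉ sa := fun hw => ec4b_nb e _ _ _ _ hF4 _ (hbb hw)
  have hka : ¬ w ≤ e.t2u → ∀ x ∈ sa, x ∈ e.out b1 b2 b3 (It.r2 p q w) st D := fun hw x hx =>
    hkb hw x (ec4b_keep e _ _ _ _ hF4 _ (hbb hw) hx)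
  have hb1 : It.bad ∉ st1 := by
    by_cases hw : w ≤ e.t2e
    · rw [hout, if_pos hw] at hb
      exact hb
    · have h2' := hb2 hw
      by_cases hw' : w ≤ e.t2u
      · rw [hst2, if_pos hw'] at h2'
        exact h2'
      · exact ec4b_nb e _ _ _ _ hF4 _ (hba hw')
  have hk1 : ∀ x ∈ st1, x ∈ e.out b1 b2 b3 (It.r2 p q w) st D := by
    intro x hx
    by_cases hw : w ≤ e.t2e
    · rw [hout, if_pos hw]
      exact hx
    · by_cases hw' : w ≤ e.t2u
      · refine hk2 hw x ?_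
        rw [hst2, if_pos hw']
        exact hx
      · exact hka hw' x (ec4b_keep e _ _ _ _ hF4 _ (hba hw') hx)
  -- new pairs
  have np : ∀ a ∈ (It.r2 p q w :: D).filterMap e.sel2, ∀ it ∈ e.pairG q a.1 [],
      it ∈ e.out b1 b2 b3 (It.r2 p q w) st D := by
    intro a ha it hi
    apply hk1
    have this := hb1
    rw [hst1] at this ⊢
    have key := ec4b_new e h _ hlp y hyO (min e.thT e.th6) e.kp hminP (by simp)
      (e.pairG q) hFp hzp st (by rw [← hqy]; exact this) ha hi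
    rw [← hqy] at key
    exact key
  have ne : ¬ w ≤ e.t2e → ∀ a ∈ D.filterMap e.sel1, ∀ it ∈ e.edge1 p a.1 [],
      it ∈ e.out b1 b2 b3 (It.r2 p q w) st D := by
    intro hw a ha it hi
    apply hk3 hw
    have this := hb3 hw
    rw [hst3] at this ⊢
    have key := ec4b_new e h _ hl1 x hxO e.c1 e.k1 rfl (by simp)
      (fun y => e.edge1 p y) hFe hze st2 (by rw [← hpx]; exact this) ha hi
    rw [← hpx] at key
    exact key
  have nu2 : ¬ w ≤ e.t2u → ∀ a ∈ D.filterMap e.selU2, ∀ it ∈ e.chain It.u3 e.th4 a.1 p [],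
      it ∈ e.out b1 b2 b3 (It.r2 p q w) st D := by
    intro hw a ha it hi
    apply hka hw
    have this := hba hw
    rw [hsa] at this ⊢
    have key := ec4b_new e h _ hlu2 x hxO e.th4 e.k4 rfl (by simp)
      (fun x => e.chain It.u3 e.th4 x p) hF4 hz4 st1 (by rw [← hpx]; exact this) ha hi
    rw [← hpx] at key
    exact key
  have nu4 : ¬ w ≤ e.t2u → ∀ a ∈ D.filterMap e.selU4, ∀ it ∈ e.chain It.u3 e.th4 a.1 p [],
      it ∈ e.out b1 b2 b3 (It.r2 p q w) st D := by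
    intro hw a ha it hi
    apply hkb hw
    have this := hbb hw
    rw [hsb] at this ⊢
    have key := ec4b_new e h _ hlu4 x hxO e.th4 e.k4 rfl (by simp)
      (fun x => e.chain It.u3 e.th4 x p) hF4 hz4 sa (by rw [← hpx]; exact this) ha hi
    rw [← hpx] at key
    exact key
  have nu3 : ¬ w ≤ e.t2u → ∀ a ∈ D.filterMap e.selU3, ∀ it ∈ e.chain It.u4 e.th2 a.1 p [],
      it ∈ e.out b1 b2 b3 (It.r2 p q w) st D := by
    intro hw a ha it hi
    apply hkc hw
    have this := hbc hw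
    rw [hsc] at this ⊢
    have key := ec4b_new e h _ hlu3 x hxO e.th2 e.kk rfl (by simp)
      (fun x => e.chain It.u4 e.th2 x p) hFk hzk sb (by rw [← hpx]; exact this) ha hi
    rw [← hpx] at key
    exact key
  constructor
  · -- e0
    intro f' w' hm a ha it hi
    exact old it (hP.e0 f' w' (by simpa using hm) a ha it hi)
  · -- e1
    intro p' q' w2 f' w' hm hm' hw hw' it hi
    have hmD : It.r1 f' w' ∈ D := by simpa using hm'
    rcases List.mem_cons.1 hm with hm | hm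
    · obtain ⟨rfl, rfl, rfl⟩ := It.r2.inj hm
      refine Or.inr (ne (not_le.2 hw) (f', f' >>> e.l0) ?_ it hi)
      rw [List.mem_filterMap]
      exact ⟨_, hmD, by simp [EP.sel1, not_le.2 hw']⟩
    · exact old it (hP.e1 p' q' w2 f' w' hm hmD hw hw' it hi)
  · -- e2
    intro p' q' w2 f' w' hm hm' hw' it hi
    exact old it (hP.e2 p' q' w2 f' w' (by simpa using hm) (by simpa using hm') hw' it hi)
  · -- e3
    intro f' w' hm hw
    exact old _ (hP.e3 f' w' (by simpa using hm) hw)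
  · -- pr
    intro pa qa wa pb qb wb hm hm'
    rcases List.mem_cons.1 hm' with hmb | hmb
    · obtain ⟨rfl, rfl, rfl⟩ := It.r2.inj hmb
      refine Or.inl fun it hi => Or.inr (np (pa, pa >>> e.l0) ?_ it hi)
      rw [List.mem_filterMap]
      exact ⟨_, hm, rfl⟩
    · rcases List.mem_cons.1 hm with hma | hma
      · obtain ⟨rfl, rfl, rfl⟩ := It.r2.inj hma
        refine Or.inr fun it hi => Or.inr (np (pb, pb >>> e.l0) ?_ it hi)
        rw [List.mem_filterMap]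
        exact ⟨_, hm', rfl⟩
      · rcases hP.pr pa qa wa pb qb wb hma hmb with hh | hh
        · exact Or.inl fun it hi => old it (hh it hi)
        · exact Or.inr fun it hi => old it (hh it hi)
  · -- u2
    intro f' w' p' q' w2 hm hm' hw it hi
    have hmD : It.u2 f' w' ∈ D := by simpa using hm
    rcases List.mem_cons.1 hm' with hm' | hm'
    · obtain ⟨rfl, rfl, rfl⟩ := It.r2.inj hm'
      refine Or.inr (nu2 (not_le.2 hw) (f', f' >>> e.l0) ?_ it hi)
      rw [List.mem_filterMap]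
      exact ⟨_, hmD, rfl⟩
    · exact old it (hP.u2 f' w' p' q' w2 hmD hm' hw it hi)
  · -- u4
    intro f' w' p' q' w2 hm hm' hw it hi
    have hmD : It.u4 f' w' ∈ D := by simpa using hm
    rcases List.mem_cons.1 hm' with hm' | hm'
    · obtain ⟨rfl, rfl, rfl⟩ := It.r2.inj hm'
      refine Or.inr (nu4 (not_le.2 hw) (f', f' >>> e.l0) ?_ it hi)
      rw [List.mem_filterMap]
      exact ⟨_, hmD, rfl⟩
    · exact old it (hP.u4 f' w' p' q' w2 hmD hm' hw it hi)
  · -- u3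
    intro f' w' p' q' w2 hm hm' hw it hi
    have hmD : It.u3 f' w' ∈ D := by simpa using hm
    rcases List.mem_cons.1 hm' with hm' | hm'
    · obtain ⟨rfl, rfl, rfl⟩ := It.r2.inj hm'
      refine Or.inr (nu3 (not_le.2 hw) (f', f' >>> e.l0) ?_ it hi)
      rw [List.mem_filterMap]
      exact ⟨_, hmD, rfl⟩
    · exact old it (hP.u3 f' w' p' q' w2 hmD hm' hw it hi)
  · -- tc0
    intro f' w' hm a ha it hi
    exact old it (hP.tc0 f' w' (by simpa using hm) a ha it hi)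
  · -- uc0
    intro f' w' hm a ha it hi
    exact old it (hP.uc0 f' w' (by simpa using hm) a ha it hi)
  · -- tc1
    intro p' q' w2 f' w' hm hm' it hi
    exact old it (hP.tc1 p' q' w2 f' w' (by simpa using hm) (by simpa using hm') it hi)
  · -- uc1
    intro p' q' w2 f' w' hm hm' it hi
    exact old it (hP.uc1 p' q' w2 f' w' (by simpa using hm) (by simpa using hm') it hi)
  · -- tc2
    intro f' w' hm hw
    exact old _ (hP.tc2 f' w' (by simpa using hm) hw)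
  · -- uc2
    intro f' w' hm hw
    exact old _ (hP.uc2 f' w' (by simpa using hm) hw)
  · -- v2
    intro hkf p' q' w2 p'' q'' w' hm hm'
    rcases hP.v2 hkf p' q' w2 p'' q'' w' (by simpa using hm) (by simpa using hm') with hh | hh
    · exact Or.inl fun it hi => old it (hh it hi)
    · exact Or.inr fun it hi => old it (hh it hi)
  · -- v3
    intro hkf f' w' p' q' w2 hm hm' it hi
    exact old it (hP.v3 hkf f' w' p' q' w2 (by simpa using hm) (by simpa using hm') it hi)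
  · -- vc
    intro f' n' w' hm it hi
    exact old it (hP.vc f' n' w' (by simpa using hm) it hi)

end Pool.Agent.MP_528dc0_co

end

section

open Finset

namespace Pool.Agent.MP_528dc0_co

open Eng (Lst It)

/-- One pass over the processed items selected by `s`. -/
theorem ec4c_pass (e : EP) (h : e.Ok) (D : List It) (hD : ∀ it ∈ D, e.GoodIt it)
    (s : It → Option (ℕ × ℕ))
    (hs : s ∈ [e.sel1, e.sel2e, e.sel2, e.sel2u, e.sel3, e.selT, e.selU2, e.selU3, e.selU4, e.selV])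
    (m k : ℕ) (hm : ∀ j < e.K + 8, m / 2 ^ (e.s * j) % 2 ^ e.s ≤ 31)
    (hm' : m < 2 ^ (e.s * (e.K + 8)))
    (hk : k ≤ 3 * 2 ^ e.s) (F : ℕ → List It → List It) (hF : ∀ x st, F x st = F x [] ++ st)
    (hz : ∀ y : DS e.K, e.OkD y → ¬ y.ld + k < e.wz (e.enc y &&& m) → F (e.enc y) [] = [])
    (st : List It) (hb : It.bad ∉ e.exs (e.ls s D) F m k st) :
    It.bad ∉ st ∧ (∀ it ∈ st, it ∈ e.exs (e.ls s D) F m k st) ∧
      ∀ it' ∈ D, ∀ a, s it' = some a → ∀ it ∈ F a.1 [], it ∈ e.exs (e.ls s D) F m k st := by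
  have hmono : ∀ it ∈ st, it ∈ e.exs (e.ls s D) F m k st := by
    intro it hit
    rcases pass_mono e (e.ls s D) m k F hF st it hit with h1 | h1
    · exact h1
    · exact absurd h1 hb
  refine ⟨fun h1 => hb (hmono _ h1), hmono, ?_⟩
  intro it' hit' a ha it hit
  have hok := ls_ok e h D hD s hs
  have h2 := pass_mem e h (D.filterMap s) hok m k hm hm' hk F hF (by
    intro b hb1 hb2
    obtain ⟨y, hy, rfl⟩ := hok b hb1
    exact hz y hy hb2) st hb it
  exact h2.2 (Or.inr ⟨a, List.mem_filterMap.2 ⟨it', hit', ha⟩, hit⟩)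

/-- **The rules stay valid.** Old pairs: the result is in `D`, or in `it :: st`, hence in `it :: D` or
(`out_mono`, `hb`) in the new worklist. New pairs (one or both members are the new item): the result is
produced by one of the passes: `pass_mem` (membership `↔`), used for every pass with `bad ∉` (since
`bad` is not in the final list it is not in the intermediate ones: `pass_mono`). The entries of the lists:
`List.mem_filterMap`; `GoodIt` gives that the load in the entry is the load of the field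
(`ld_eq`). Non-viable entries produce nothing: specifications + `nv1`, `nv3`, `nv3'`. -/
theorem part_r3 (e : EP) (h : e.Ok) (b1 b2 : List (ℕ × ℕ)) (b3 : List ℕ)
    (h1 : ∀ a ∈ b1, ∃ x : DS e.K, e.OkD x ∧ e.Pd x ∧ x.N₁ = x.N₂ ∧ a = (e.enc x, x.ld))
    (h2 : ∀ a ∈ b2, ∃ x : DS e.K, e.OkD x ∧ e.Pd x ∧ x.N₁ = x.N₂ ∧ a = (e.enc x, x.ld))
    (h3 : ∀ a ∈ b3, ∃ x : DS e.K, e.OkD x ∧ e.Pd x ∧ x.N₁ = x.N₂ ∧ a = e.enc x)
    (p q w : ℕ) (st D : List It) (hit : e.GoodIt (It.r3 p q w)) (hD : ∀ it ∈ D, e.GoodIt it)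
    (hb : It.bad ∉ e.out b1 b2 b3 (It.r3 p q w) st D) (hP : e.Part b1 b2 b3 D (It.r3 p q w :: st)) :
    e.Part b1 b2 b3 (It.r3 p q w :: D) (e.out b1 b2 b3 (It.r3 p q w) st D) := by
  have hold : ∀ it, (it ∈ D ∨ it ∈ (It.r3 p q w :: st)) →
      it ∈ (It.r3 p q w :: D) ∨ it ∈ e.out b1 b2 b3 (It.r3 p q w) st D := by
    intro it h0
    rcases h0 with h0 | h0
    · exact Or.inl (List.mem_cons_of_mem _ h0)
    · rcases List.mem_cons.1 h0 with h0 | h0
      · exact Or.inl (h0 ▸ List.mem_cons_self)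
      · rcases out_mono e b1 b2 b3 (It.r3 p q w) st D it h0 with h0 | h0
        · exact Or.inr h0
        · exact absurd h0 hb
  obtain ⟨X, Y, hX, hXP, hY, hYQ, hYN, hX1, hX2, hXl, hp, hq, hw⟩ := id hit
  have hXN : X.N₁ = X.N₂ := by rw [hX1, hX2, hYN]
  have hD' : ∀ it ∈ (It.r3 p q w :: D), e.GoodIt it := by
    intro it h0
    rcases List.mem_cons.1 h0 with h0 | h0
    · rw [h0]; exact hit
    · exact hD it h0
  -- the passes
  set s1 := e.exs (e.ls e.sel1 D) (fun y => e.edge2 p y) (Nat.land p e.D1)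
    (p >>> e.l0 + e.k2) st with hs1
  set s2 := e.exs (e.ls e.selT D) (fun y => e.close1 1 p y) (Nat.land p e.D3)
    (p >>> e.l0 + e.k1) s1 with hs2
  set s3 := e.exs (e.ls e.selU4 D) (fun y => e.close1 0 p y) (Nat.land p e.D3)
    (p >>> e.l0 + e.k1) s2 with hs3
  set s4 := e.exs (e.ls e.sel3 (It.r3 p q w :: D)) (e.pairV q) (Nat.land q e.D1)
    (q >>> e.l0 + e.kV) s3 with hs4
  set s5 := e.exs (e.ls e.selV D) (fun x => e.triV x p) (Nat.land p e.D3)
    (p >>> e.l0 + e.kW) s4 with hs5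
  have hout : e.out b1 b2 b3 (It.r3 p q w) st D = if e.kf = 1 then s3 else s5 := rfl
  -- non-viable entries
  have hz1 : ∀ y : DS e.K, e.OkD y →
      ¬ y.ld + (p >>> e.l0 + e.k2) < e.wz (e.enc y &&& Nat.land p e.D1) →
        e.edge2 p (e.enc y) [] = [] := by
    intro y hy hn
    rw [hp] at hn ⊢
    have h5 : e.wtD y X ≤ e.dE y X + e.c2 := nv1 e h y X hy hX e.c2 hn
    have h6 : e.wtD X y ≤ e.dE X y + e.c2 := by
      rw [wtD_symm]
      have h7 : e.dE y X = e.dE X y := by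
        unfold EP.dE
        rw [Finset.inter_comm, Nat.add_comm y.ld X.ld]
      rw [← h7]; exact h5
    rw [edge2_spec e h X y hX hy [], if_pos (Or.inr h6)]
  have hzc : ∀ k3 ≤ 1, ∀ y : DS e.K, e.OkD y →
      ¬ y.ld + (p >>> e.l0 + e.k1) < e.wz (e.enc y &&& Nat.land p e.D3) →
        e.close1 k3 p (e.enc y) [] = [] := by
    intro k3 hk3 y hy hn
    rw [hp] at hn ⊢
    have h5 : e.wtD y X ≤ e.dC X y + e.c1 := nv3' e h y X hy hX e.c1 hXN hn
    have h6 : e.wtD X y ≤ e.dC X y + e.c1 := by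
      rw [wtD_symm]; exact h5
    rw [close1_spec e h k3 hk3 X y hX hy [], if_pos (Or.inr h6)]
  have hzv : ∀ y : DS e.K, e.OkD y →
      ¬ y.ld + (q >>> e.l0 + e.kV) < e.wz (e.enc y &&& Nat.land q e.D1) →
        e.pairV q (e.enc y) [] = [] := by
    intro y hy hn
    rw [hq] at hn ⊢
    have h5 : e.wtD y Y ≤ e.dE y Y + e.thV := nv1 e h y Y hy hY e.thV hn
    rw [pairV_spec e h y Y hy hY [], if_pos h5]
  have hzt : ∀ y : DS e.K, e.OkD y →
      ¬ y.ld + (p >>> e.l0 + e.kW) < e.wz (e.enc y &&& Nat.land p e.D3) →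
        e.triV (e.enc y) p [] = [] := by
    intro y hy hn
    rw [hp] at hn ⊢
    have h5 : e.wtD y X ≤ e.dC X y + (e.lam + 4 * e.tau) :=
      nv3' e h y X hy hX (e.lam + 4 * e.tau) hXN hn
    rw [triV_spec e h y X hy hX [], if_pos (by omega)]
  -- bounds
  have hk1 : p >>> e.l0 + e.k1 ≤ 3 * 2 ^ e.s := by
    rw [hp]; exact key_le e h X hX e.k1 (by simp)
  have hk2 : p >>> e.l0 + e.k2 ≤ 3 * 2 ^ e.s := by
    rw [hp]; exact key_le e h X hX e.k2 (by simp)
  have hkV : q >>> e.l0 + e.kV ≤ 3 * 2 ^ e.s := by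
    rw [hq]; exact key_le e h Y hY e.kV (by simp)
  have hkW : p >>> e.l0 + e.kW ≤ 3 * 2 ^ e.s := by
    rw [hp]; exact key_le e h X hX e.kW (by simp)
  -- the later passes keep the results
  have P5 : e.kf ≠ 1 → It.bad ∉ s4 ∧ (∀ it ∈ s4, it ∈ s5) ∧
      ∀ it' ∈ D, ∀ a, e.selV it' = some a → ∀ it ∈ e.triV a.1 p [], it ∈ s5 := by
    intro hkf
    have hb5 : It.bad ∉ s5 := by
      rw [hout, if_neg hkf] at hb; exact hb
    exact ec4c_pass e h D hD e.selV (by simp) (Nat.land p e.D3) (p >>> e.l0 + e.kW)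
      (mask3_ok e h p).1 (mask3_ok e h p).2 hkW (fun x => e.triV x p)
      (fun x st => (app_pair e x p st).2.2) hzt s4 hb5
  have P4 : e.kf ≠ 1 → It.bad ∉ s3 ∧ (∀ it ∈ s3, it ∈ s4) ∧
      ∀ it' ∈ (It.r3 p q w :: D), ∀ a, e.sel3 it' = some a → ∀ it ∈ e.pairV q a.1 [], it ∈ s4 := by
    intro hkf
    exact ec4c_pass e h (It.r3 p q w :: D) hD' e.sel3 (by simp) (Nat.land q e.D1)
      (q >>> e.l0 + e.kV) (mask1_ok e h q).1 (mask1_ok e h q).2 hkV (e.pairV q)
      (fun x st => (app_pair e q x st).2.1) hzv s3 (P5 hkf).1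
  have hb3 : It.bad ∉ s3 := by
    by_cases hkf : e.kf = 1
    · rw [hout, if_pos hkf] at hb; exact hb
    · exact (P4 hkf).1
  have hs3o : ∀ it ∈ s3, it ∈ e.out b1 b2 b3 (It.r3 p q w) st D := by
    intro it h0
    by_cases hkf : e.kf = 1
    · rw [hout, if_pos hkf]; exact h0
    · rw [hout, if_neg hkf]
      exact (P5 hkf).2.1 it ((P4 hkf).2.1 it h0)
  have P3 := ec4c_pass e h D hD e.selU4 (by simp) (Nat.land p e.D3) (p >>> e.l0 + e.k1)
      (mask3_ok e h p).1 (mask3_ok e h p).2 hk1 (fun y => e.close1 0 p y)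
      (fun x st => (app_close e 0 p x st).2) (hzc 0 (by norm_num)) s2 hb3
  have P2 := ec4c_pass e h D hD e.selT (by simp) (Nat.land p e.D3) (p >>> e.l0 + e.k1)
      (mask3_ok e h p).1 (mask3_ok e h p).2 hk1 (fun y => e.close1 1 p y)
      (fun x st => (app_close e 1 p x st).2) (hzc 1 (le_refl 1)) s1 P3.1
  have P1 := ec4c_pass e h D hD e.sel1 (by simp) (Nat.land p e.D1) (p >>> e.l0 + e.k2)
      (mask1_ok e h p).1 (mask1_ok e h p).2 hk2 (fun y => e.edge2 p y)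
      (fun x st => (app_edge e p x st).2.2) hz1 st P2.1
  -- the rules
  constructor
  · intro f w0 hm a ha it hi
    exact hold it (hP.e0 f w0 (by simpa using hm) a ha it hi)
  · intro p0 q0 w0 f w' hm hm' hw0 hw' it hi
    exact hold it (hP.e1 p0 q0 w0 f w' (by simpa using hm) (by simpa using hm') hw0 hw' it hi)
  · intro p0 q0 w0 f w' hm hm' hw' it hi
    have hm2 : It.r1 f w' ∈ D := by simpa using hm'
    rcases List.mem_cons.1 hm with h0 | h0
    · obtain ⟨rfl, rfl, rfl⟩ : p0 = p ∧ q0 = q ∧ w0 = w := by simpa using h0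
      refine Or.inr (hs3o it (P3.2.1 it (P2.2.1 it (P1.2.2 _ hm2 (f, f >>> e.l0) ?_ it hi))))
      show (if w' ≤ e.t1 then none else some (f, f >>> e.l0)) = _
      rw [if_neg (by omega)]
    · exact hold it (hP.e2 p0 q0 w0 f w' h0 hm2 hw' it hi)
  · intro f w0 hm hw0
    exact hold _ (hP.e3 f w0 (by simpa using hm) hw0)
  · intro p0 q0 w0 p' q' w' hm hm'
    rcases hP.pr p0 q0 w0 p' q' w' (by simpa using hm) (by simpa using hm') with h0 | h0
    · exact Or.inl (fun it hi => hold it (h0 it hi))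
    · exact Or.inr (fun it hi => hold it (h0 it hi))
  · intro f w0 p0 q0 w' hm hm' hw' it hi
    exact hold it (hP.u2 f w0 p0 q0 w' (by simpa using hm) (by simpa using hm') hw' it hi)
  · intro f w0 p0 q0 w' hm hm' hw' it hi
    exact hold it (hP.u4 f w0 p0 q0 w' (by simpa using hm) (by simpa using hm') hw' it hi)
  · intro f w0 p0 q0 w' hm hm' hw' it hi
    exact hold it (hP.u3 f w0 p0 q0 w' (by simpa using hm) (by simpa using hm') hw' it hi)
  · intro f w0 hm a ha it hi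
    exact hold it (hP.tc0 f w0 (by simpa using hm) a ha it hi)
  · intro f w0 hm a ha it hi
    exact hold it (hP.uc0 f w0 (by simpa using hm) a ha it hi)
  · intro p0 q0 w0 f w' hm hm' it hi
    have hm2 : It.t2 f w' ∈ D := by simpa using hm'
    rcases List.mem_cons.1 hm with h0 | h0
    · obtain ⟨rfl, rfl, rfl⟩ : p0 = p ∧ q0 = q ∧ w0 = w := by simpa using h0
      exact Or.inr (hs3o it (P3.2.1 it (P2.2.2 _ hm2 (f, f >>> e.l0) rfl it hi)))
    · exact hold it (hP.tc1 p0 q0 w0 f w' h0 hm2 it hi)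
  · intro p0 q0 w0 f w' hm hm' it hi
    have hm2 : It.u4 f w' ∈ D := by simpa using hm'
    rcases List.mem_cons.1 hm with h0 | h0
    · obtain ⟨rfl, rfl, rfl⟩ : p0 = p ∧ q0 = q ∧ w0 = w := by simpa using h0
      exact Or.inr (hs3o it (P3.2.2 _ hm2 (f, f >>> e.l0) rfl it hi))
    · exact hold it (hP.uc1 p0 q0 w0 f w' h0 hm2 it hi)
  · intro f w0 hm hw0
    exact hold _ (hP.tc2 f w0 (by simpa using hm) hw0)
  · intro f w0 hm hw0
    exact hold _ (hP.uc2 f w0 (by simpa using hm) hw0)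
  · intro hkf p0 q0 w0 p' q' w' hm hm'
    have hs4o : ∀ it ∈ s4, it ∈ e.out b1 b2 b3 (It.r3 p q w) st D := by
      intro it h0
      rw [hout, if_neg hkf]
      exact (P5 hkf).2.1 it h0
    rcases List.mem_cons.1 hm with h0 | h0
    · obtain ⟨rfl, rfl, rfl⟩ : p0 = p ∧ q0 = q ∧ w0 = w := by simpa using h0
      exact Or.inr (fun it hi => Or.inr (hs4o it ((P4 hkf).2.2 _ hm' (p', p' >>> e.l0) rfl it hi)))
    · rcases List.mem_cons.1 hm' with h0' | h0'
      · obtain ⟨rfl, rfl, rfl⟩ : p' = p ∧ q' = q ∧ w' = w := by simpa using h0'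
        exact Or.inl (fun it hi => Or.inr (hs4o it ((P4 hkf).2.2 _ hm (p0, p0 >>> e.l0) rfl it hi)))
      · rcases hP.v2 hkf p0 q0 w0 p' q' w' h0 h0' with h1 | h1
        · exact Or.inl (fun it hi => hold it (h1 it hi))
        · exact Or.inr (fun it hi => hold it (h1 it hi))
  · intro hkf f w0 p0 q0 w' hm hm' it hi
    have hm2 : It.v2 f w0 ∈ D := by simpa using hm
    rcases List.mem_cons.1 hm' with h0 | h0
    · obtain ⟨rfl, rfl, rfl⟩ : p0 = p ∧ q0 = q ∧ w' = w := by simpa using h0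
      refine Or.inr ?_
      rw [hout, if_neg hkf]
      exact (P5 hkf).2.2 _ hm2 (f, f >>> e.l0) rfl it hi
    · exact hold it (hP.v3 hkf f w0 p0 q0 w' hm2 h0 it hi)
  · intro f n w0 hm it hi
    exact hold it (hP.vc f n w0 (by simpa using hm) it hi)

end Pool.Agent.MP_528dc0_co

end

section

open Finset

namespace Pool.Agent.MP_528dc0_co

open Eng (Lst It)

theorem ec4d_keep (e : EP) (b1 b2 : List (ℕ × ℕ)) (b3 : List ℕ) (it0 : It) (st D : List It)
    (hb : It.bad ∉ e.out b1 b2 b3 it0 st D) (it : It) (h : it ∈ D ∨ it ∈ it0 :: st) :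
    it ∈ it0 :: D ∨ it ∈ e.out b1 b2 b3 it0 st D := by
  rcases h with h | h
  · exact Or.inl (List.mem_cons_of_mem _ h)
  · rcases List.mem_cons.1 h with h | h
    · exact Or.inl (h ▸ List.mem_cons_self)
    · rcases out_mono e b1 b2 b3 it0 st D it h with h | h
      · exact Or.inr h
      · exact absurd h hb

/-- entries of the list of the closed pieces -/
theorem ec4d_sel3 (e : EP) (h : e.Ok) (D : List It) (hD : ∀ it ∈ D, e.GoodIt it) (a : ℕ × ℕ)
    (ha : a ∈ D.filterMap e.sel3) :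
    ∃ x : DS e.K, e.OkD x ∧ x.N₁ = x.N₂ ∧ a = (e.enc x, x.ld) := by
  obtain ⟨it, hit, hs⟩ := List.mem_filterMap.1 ha
  have hg := hD it hit
  cases it <;> simp only [EP.sel3, reduceCtorEq] at hs
  obtain ⟨x, y, hx, -, -, -, h12, h1, h2, -, hp, -, -⟩ := hg
  refine ⟨x, hx, by rw [h1, h2, h12], ?_⟩
  rw [← Option.some.inj hs, hp]
  congr 1
  exact ld_eq e h x hx

theorem ec4d_sel2u (e : EP) (h : e.Ok) (D : List It) (hD : ∀ it ∈ D, e.GoodIt it) (a : ℕ × ℕ)
    (ha : a ∈ D.filterMap e.sel2u) :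
    ∃ x : DS e.K, e.OkD x ∧ a = (e.enc x, x.ld) :=
  ls_ok e h D hD e.sel2u (by simp) a ha

/-- the first pass -/
theorem ec4d_close0 (e : EP) (h : e.Ok) (k3 : ℕ) (hk : k3 ≤ 1) (b2 : List (ℕ × ℕ))
    (h2 : ∀ a ∈ b2, ∃ x : DS e.K, e.OkD x ∧ e.Pd x ∧ x.N₁ = x.N₂ ∧ a = (e.enc x, x.ld))
    (y : DS e.K) (hy : e.OkD y) (st : List It)
    (hb : It.bad ∉ e.exs (e.pk b2) (fun x => e.close0 k3 x (e.enc y)) (Nat.land (e.enc y) e.D3)
      (e.enc y >>> e.l0 + e.k0) st) (it : It) :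
    it ∈ e.exs (e.pk b2) (fun x => e.close0 k3 x (e.enc y)) (Nat.land (e.enc y) e.D3)
      (e.enc y >>> e.l0 + e.k0) st ↔ it ∈ st ∨ ∃ a ∈ b2, it ∈ e.close0 k3 a.1 (e.enc y) [] := by
  refine pass_mem e h b2 ?_ _ _ (mask3_ok e h _).1 (mask3_ok e h _).2
    (key_le e h y hy e.k0 (by simp)) (fun x => e.close0 k3 x (e.enc y))
    (fun x st => (app_close e k3 x (e.enc y) st).1) ?_ st hb it
  · intro a ha
    obtain ⟨x, hx, -, -, hax⟩ := h2 a ha
    exact ⟨x, hx, hax⟩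
  · intro a ha hn
    obtain ⟨x, hx, -, hx12, rfl⟩ := h2 a ha
    have h3 := nv3 e h x y hx hy 0 hx12 hn
    rw [Nat.add_zero] at h3
    show e.close0 k3 (e.enc x) (e.enc y) [] = []
    rw [close0_spec e h k3 hk x y hx hy, if_pos (Or.inr h3)]

/-- the second pass -/
theorem ec4d_close1 (e : EP) (h : e.Ok) (k3 : ℕ) (hk : k3 ≤ 1) (D : List It)
    (hD : ∀ it ∈ D, e.GoodIt it)
    (y : DS e.K) (hy : e.OkD y) (st : List It)
    (hb : It.bad ∉ e.exs (e.ls e.sel3 D) (fun x => e.close1 k3 x (e.enc y))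
      (Nat.land (e.enc y) e.D3) (e.enc y >>> e.l0 + e.k1) st) (it : It) :
    it ∈ e.exs (e.ls e.sel3 D) (fun x => e.close1 k3 x (e.enc y)) (Nat.land (e.enc y) e.D3)
      (e.enc y >>> e.l0 + e.k1) st ↔
        it ∈ st ∨ ∃ a ∈ D.filterMap e.sel3, it ∈ e.close1 k3 a.1 (e.enc y) [] := by
  refine pass_mem e h (D.filterMap e.sel3) ?_ _ _ (mask3_ok e h _).1 (mask3_ok e h _).2
    (key_le e h y hy e.k1 (by simp)) (fun x => e.close1 k3 x (e.enc y))
    (fun x st => (app_close e k3 x (e.enc y) st).2) ?_ st hb it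
  · intro a ha
    obtain ⟨x, hx, -, hax⟩ := ec4d_sel3 e h D hD a ha
    exact ⟨x, hx, hax⟩
  · intro a ha hn
    obtain ⟨x, hx, hx12, rfl⟩ := ec4d_sel3 e h D hD a ha
    have h3 := nv3 e h x y hx hy e.c1 hx12 hn
    show e.close1 k3 (e.enc x) (e.enc y) [] = []
    rw [close1_spec e h k3 hk x y hx hy, if_pos (Or.inr h3)]

theorem ec4d_dE_symm (e : EP) (x y : DS e.K) : e.dE x y = e.dE y x := by
  unfold EP.dE
  rw [Finset.inter_comm]
  omega

/-- the pass with the open pieces -/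
theorem ec4d_chain (e : EP) (h : e.Ok) (r : ℕ → ℕ → It) (D : List It)
    (hD : ∀ it ∈ D, e.GoodIt it)
    (y : DS e.K) (hy : e.OkD y) (st : List It)
    (hb : It.bad ∉ e.exs (e.ls e.sel2u D) (fun x => e.chain r e.th4 (e.enc y) x)
      (Nat.land (e.enc y) e.D1) (e.enc y >>> e.l0 + e.k4) st) (it : It) :
    it ∈ e.exs (e.ls e.sel2u D) (fun x => e.chain r e.th4 (e.enc y) x) (Nat.land (e.enc y) e.D1)
      (e.enc y >>> e.l0 + e.k4) st ↔
        it ∈ st ∨ ∃ a ∈ D.filterMap e.sel2u, it ∈ e.chain r e.th4 (e.enc y) a.1 [] := by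
  refine pass_mem e h (D.filterMap e.sel2u) (ec4d_sel2u e h D hD) _ _ (mask1_ok e h _).1
    (mask1_ok e h _).2 (key_le e h y hy e.k4 (by simp)) (fun x => e.chain r e.th4 (e.enc y) x)
    (fun x st => app_chain e r e.th4 (e.enc y) x st) ?_ st hb it
  intro a ha hn
  obtain ⟨x, hx, rfl⟩ := ec4d_sel2u e h D hD a ha
  have h3 := nv1 e h x y hx hy e.th4 hn
  rw [wtD_symm, ec4d_dE_symm] at h3
  show e.chain r e.th4 (e.enc y) (e.enc x) [] = []
  rw [chain_spec e h r e.th4 y x hy hx, if_pos (Or.inr h3)]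

theorem ec4d_mem3 (e : EP) (D : List It) (p q w : ℕ) (hr : It.r3 p q w ∈ D) :
    (p, p >>> e.l0) ∈ D.filterMap e.sel3 :=
  List.mem_filterMap.2 ⟨It.r3 p q w, hr, rfl⟩

theorem ec4d_mem2u (e : EP) (D : List It) (p q w : ℕ) (hr : It.r2 p q w ∈ D) (hw : e.t2u < w) :
    (p, p >>> e.l0) ∈ D.filterMap e.sel2u := by
  refine List.mem_filterMap.2 ⟨It.r2 p q w, hr, ?_⟩
  have h1 : e.t2e ≤ e.t2u := by
    show 6 * e.lam ≤ 8 * e.lam
    omega
  show (if w ≤ e.t2e then none else if w ≤ e.t2u then none else some (p, p >>> e.l0)) = _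
  rw [if_neg (by omega), if_neg (by omega)]

/-- **The rules stay valid.** Old pairs: the result is in `D`, or in `it :: st`, hence in `it :: D` or
(`out_mono`, `hb`) in the new worklist. New pairs (one or both members are the new item): the result is
produced by one of the passes: `pass_mem` (membership `↔`), used for every pass with `bad ∉` (since
`bad` is not in the final list it is not in the intermediate ones: `pass_mono`). The entries of the lists:
`List.mem_filterMap`; `GoodIt` gives that the load in the entry is the load of the field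
(`ld_eq`). Non-viable entries produce nothing: specifications + `nv1`, `nv3`, `nv3'`. -/
theorem part_t2 (e : EP) (h : e.Ok) (b1 b2 : List (ℕ × ℕ)) (b3 : List ℕ)
    (h1 : ∀ a ∈ b1, ∃ x : DS e.K, e.OkD x ∧ e.Pd x ∧ x.N₁ = x.N₂ ∧ a = (e.enc x, x.ld))
    (h2 : ∀ a ∈ b2, ∃ x : DS e.K, e.OkD x ∧ e.Pd x ∧ x.N₁ = x.N₂ ∧ a = (e.enc x, x.ld))
    (h3 : ∀ a ∈ b3, ∃ x : DS e.K, e.OkD x ∧ e.Pd x ∧ x.N₁ = x.N₂ ∧ a = e.enc x)
    (f w : ℕ) (st D : List It) (hit : e.GoodIt (It.t2 f w)) (hD : ∀ it ∈ D, e.GoodIt it)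
    (hb : It.bad ∉ e.out b1 b2 b3 (It.t2 f w) st D) (hP : e.Part b1 b2 b3 D (It.t2 f w :: st)) :
    e.Part b1 b2 b3 (It.t2 f w :: D) (e.out b1 b2 b3 (It.t2 f w) st D) := by
  have keep := ec4d_keep e b1 b2 b3 (It.t2 f w) st D hb
  obtain ⟨y, hy, -, hf, -⟩ := hit
  have hout : e.out b1 b2 b3 (It.t2 f w) st D =
      e.exs (e.ls e.sel3 D) (fun x => e.close1 1 x f) (Nat.land f e.D3) (f >>> e.l0 + e.k1)
      (e.exs (e.pk b2) (fun x => e.close0 1 x f) (Nat.land f e.D3) (f >>> e.l0 + e.k0)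
      (if w ≤ e.c2 then st else It.r2 (e.trivP f) (e.trivQ f) w :: st)) := rfl
  have hb1 := hb
  rw [hout, hf] at hb1
  have p1 := ec4d_close1 e h 1 le_rfl D hD y hy _ hb1
  have hb2 : It.bad ∉ e.exs (e.pk b2) (fun x => e.close0 1 x (e.enc y)) (Nat.land (e.enc y) e.D3)
      (e.enc y >>> e.l0 + e.k0)
      (if w ≤ e.c2 then st else It.r2 (e.trivP (e.enc y)) (e.trivQ (e.enc y)) w :: st) :=
    fun h' => hb1 ((p1 _).2 (Or.inl h'))
  have p2 := ec4d_close0 e h 1 le_rfl b2 h2 y hy _ hb2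
  rw [← hf] at p1 p2
  constructor
  · intro f' w' hm a ha it hi
    exact keep it (hP.e0 f' w' (by simpa using hm) a ha it hi)
  · intro p q w1 f' w' hm hm' hw1 hw2 it hi
    exact keep it (hP.e1 p q w1 f' w' (by simpa using hm) (by simpa using hm') hw1 hw2 it hi)
  · intro p q w1 f' w' hm hm' hw2 it hi
    exact keep it (hP.e2 p q w1 f' w' (by simpa using hm) (by simpa using hm') hw2 it hi)
  · intro f' w' hm hw
    exact keep _ (hP.e3 f' w' (by simpa using hm) hw)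
  · intro p q w1 p' q' w' hm hm'
    rcases hP.pr p q w1 p' q' w' (by simpa using hm) (by simpa using hm') with h' | h'
    · exact Or.inl fun it hi => keep it (h' it hi)
    · exact Or.inr fun it hi => keep it (h' it hi)
  · intro f' w1 p q w' hm hm' hw it hi
    exact keep it (hP.u2 f' w1 p q w' (by simpa using hm) (by simpa using hm') hw it hi)
  · intro f' w1 p q w' hm hm' hw it hi
    exact keep it (hP.u4 f' w1 p q w' (by simpa using hm) (by simpa using hm') hw it hi)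
  · intro f' w1 p q w' hm hm' hw it hi
    exact keep it (hP.u3 f' w1 p q w' (by simpa using hm) (by simpa using hm') hw it hi)
  · intro f' w' hm a ha it hi
    rcases List.mem_cons.1 hm with hm | hm
    · obtain ⟨rfl, rfl⟩ := It.t2.inj hm
      right
      rw [hout]
      exact (p1 it).2 (Or.inl ((p2 it).2 (Or.inr ⟨a, ha, hi⟩)))
    · exact keep it (hP.tc0 f' w' hm a ha it hi)
  · intro f' w' hm a ha it hi
    exact keep it (hP.uc0 f' w' (by simpa using hm) a ha it hi)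
  · intro p q w1 f' w' hm hm' it hi
    have hm1 : It.r3 p q w1 ∈ D := by simpa using hm
    rcases List.mem_cons.1 hm' with hm' | hm'
    · obtain ⟨rfl, rfl⟩ := It.t2.inj hm'
      right
      rw [hout]
      exact (p1 it).2 (Or.inr ⟨_, ec4d_mem3 e D p q w1 hm1, hi⟩)
    · exact keep it (hP.tc1 p q w1 f' w' hm1 hm' it hi)
  · intro p q w1 f' w' hm hm' it hi
    exact keep it (hP.uc1 p q w1 f' w' (by simpa using hm) (by simpa using hm') it hi)
  · intro f' w' hm hw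
    rcases List.mem_cons.1 hm with hm | hm
    · obtain ⟨rfl, rfl⟩ := It.t2.inj hm
      right
      rw [hout]
      refine (p1 _).2 (Or.inl ((p2 _).2 (Or.inl ?_)))
      rw [if_neg (by omega)]
      exact List.mem_cons_self
    · exact keep _ (hP.tc2 f' w' hm hw)
  · intro f' w' hm hw
    exact keep _ (hP.uc2 f' w' (by simpa using hm) hw)
  · intro hkf p q w1 p' q' w' hm hm'
    rcases hP.v2 hkf p q w1 p' q' w' (by simpa using hm) (by simpa using hm') with h' | h'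
    · exact Or.inl fun it hi => keep it (h' it hi)
    · exact Or.inr fun it hi => keep it (h' it hi)
  · intro hkf f' w1 p q w' hm hm' it hi
    exact keep it (hP.v3 hkf f' w1 p q w' (by simpa using hm) (by simpa using hm') it hi)
  · intro f' n w' hm it hi
    exact keep it (hP.vc f' n w' (by simpa using hm) it hi)

theorem part_u4 (e : EP) (h : e.Ok) (b1 b2 : List (ℕ × ℕ)) (b3 : List ℕ)
    (h1 : ∀ a ∈ b1, ∃ x : DS e.K, e.OkD x ∧ e.Pd x ∧ x.N₁ = x.N₂ ∧ a = (e.enc x, x.ld))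
    (h2 : ∀ a ∈ b2, ∃ x : DS e.K, e.OkD x ∧ e.Pd x ∧ x.N₁ = x.N₂ ∧ a = (e.enc x, x.ld))
    (h3 : ∀ a ∈ b3, ∃ x : DS e.K, e.OkD x ∧ e.Pd x ∧ x.N₁ = x.N₂ ∧ a = e.enc x)
    (f w : ℕ) (st D : List It) (hit : e.GoodIt (It.u4 f w)) (hD : ∀ it ∈ D, e.GoodIt it)
    (hb : It.bad ∉ e.out b1 b2 b3 (It.u4 f w) st D) (hP : e.Part b1 b2 b3 D (It.u4 f w :: st)) :
    e.Part b1 b2 b3 (It.u4 f w :: D) (e.out b1 b2 b3 (It.u4 f w) st D) := by
  have keep := ec4d_keep e b1 b2 b3 (It.u4 f w) st D hb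
  obtain ⟨y, hy, -, hf, -⟩ := hit
  have hout : e.out b1 b2 b3 (It.u4 f w) st D =
      e.exs (e.ls e.sel2u D) (fun y => e.chain It.u3 e.th4 f y) (Nat.land f e.D1)
        (f >>> e.l0 + e.k4)
      (e.exs (e.ls e.sel3 D) (fun x => e.close1 0 x f) (Nat.land f e.D3) (f >>> e.l0 + e.k1)
      (e.exs (e.pk b2) (fun x => e.close0 0 x f) (Nat.land f e.D3) (f >>> e.l0 + e.k0)
      (if w ≤ e.c2 then st else It.r2 (e.trivP f) (e.trivQ f) w :: st))) := rfl
  have hb0 := hb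
  rw [hout, hf] at hb0
  have p0 := ec4d_chain e h It.u3 D hD y hy _ hb0
  have hb1 : It.bad ∉ e.exs (e.ls e.sel3 D) (fun x => e.close1 0 x (e.enc y))
      (Nat.land (e.enc y) e.D3) (e.enc y >>> e.l0 + e.k1)
      (e.exs (e.pk b2) (fun x => e.close0 0 x (e.enc y)) (Nat.land (e.enc y) e.D3)
      (e.enc y >>> e.l0 + e.k0)
      (if w ≤ e.c2 then st else It.r2 (e.trivP (e.enc y)) (e.trivQ (e.enc y)) w :: st)) :=
    fun h' => hb0 ((p0 _).2 (Or.inl h'))
  have p1 := ec4d_close1 e h 0 zero_le_one D hD y hy _ hb1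
  have hb2 : It.bad ∉ e.exs (e.pk b2) (fun x => e.close0 0 x (e.enc y)) (Nat.land (e.enc y) e.D3)
      (e.enc y >>> e.l0 + e.k0)
      (if w ≤ e.c2 then st else It.r2 (e.trivP (e.enc y)) (e.trivQ (e.enc y)) w :: st) :=
    fun h' => hb1 ((p1 _).2 (Or.inl h'))
  have p2 := ec4d_close0 e h 0 zero_le_one b2 h2 y hy _ hb2
  rw [← hf] at p0 p1 p2
  constructor
  · intro f' w' hm a ha it hi
    exact keep it (hP.e0 f' w' (by simpa using hm) a ha it hi)
  · intro p q w1 f' w' hm hm' hw1 hw2 it hi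
    exact keep it (hP.e1 p q w1 f' w' (by simpa using hm) (by simpa using hm') hw1 hw2 it hi)
  · intro p q w1 f' w' hm hm' hw2 it hi
    exact keep it (hP.e2 p q w1 f' w' (by simpa using hm) (by simpa using hm') hw2 it hi)
  · intro f' w' hm hw
    exact keep _ (hP.e3 f' w' (by simpa using hm) hw)
  · intro p q w1 p' q' w' hm hm'
    rcases hP.pr p q w1 p' q' w' (by simpa using hm) (by simpa using hm') with h' | h'
    · exact Or.inl fun it hi => keep it (h' it hi)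
    · exact Or.inr fun it hi => keep it (h' it hi)
  · intro f' w1 p q w' hm hm' hw it hi
    exact keep it (hP.u2 f' w1 p q w' (by simpa using hm) (by simpa using hm') hw it hi)
  · intro f' w1 p q w' hm hm' hw it hi
    have hm1 : It.r2 p q w' ∈ D := by simpa using hm'
    rcases List.mem_cons.1 hm with hm | hm
    · obtain ⟨rfl, rfl⟩ := It.u4.inj hm
      right
      rw [hout]
      exact (p0 it).2 (Or.inr ⟨_, ec4d_mem2u e D p q w' hm1 hw, hi⟩)
    · exact keep it (hP.u4 f' w1 p q w' hm hm1 hw it hi)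
  · intro f' w1 p q w' hm hm' hw it hi
    exact keep it (hP.u3 f' w1 p q w' (by simpa using hm) (by simpa using hm') hw it hi)
  · intro f' w' hm a ha it hi
    exact keep it (hP.tc0 f' w' (by simpa using hm) a ha it hi)
  · intro f' w' hm a ha it hi
    rcases List.mem_cons.1 hm with hm | hm
    · obtain ⟨rfl, rfl⟩ := It.u4.inj hm
      right
      rw [hout]
      exact (p0 it).2 (Or.inl ((p1 it).2 (Or.inl ((p2 it).2 (Or.inr ⟨a, ha, hi⟩)))))
    · exact keep it (hP.uc0 f' w' hm a ha it hi)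
  · intro p q w1 f' w' hm hm' it hi
    exact keep it (hP.tc1 p q w1 f' w' (by simpa using hm) (by simpa using hm') it hi)
  · intro p q w1 f' w' hm hm' it hi
    have hm1 : It.r3 p q w1 ∈ D := by simpa using hm
    rcases List.mem_cons.1 hm' with hm' | hm'
    · obtain ⟨rfl, rfl⟩ := It.u4.inj hm'
      right
      rw [hout]
      exact (p0 it).2 (Or.inl ((p1 it).2 (Or.inr ⟨_, ec4d_mem3 e D p q w1 hm1, hi⟩)))
    · exact keep it (hP.uc1 p q w1 f' w' hm1 hm' it hi)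
  · intro f' w' hm hw
    exact keep _ (hP.tc2 f' w' (by simpa using hm) hw)
  · intro f' w' hm hw
    rcases List.mem_cons.1 hm with hm | hm
    · obtain ⟨rfl, rfl⟩ := It.u4.inj hm
      right
      rw [hout]
      refine (p0 _).2 (Or.inl ((p1 _).2 (Or.inl ((p2 _).2 (Or.inl ?_)))))
      rw [if_neg (by omega)]
      exact List.mem_cons_self
    · exact keep _ (hP.uc2 f' w' hm hw)
  · intro hkf p q w1 p' q' w' hm hm'
    rcases hP.v2 hkf p q w1 p' q' w' (by simpa using hm) (by simpa using hm') with h' | h'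
    · exact Or.inl fun it hi => keep it (h' it hi)
    · exact Or.inr fun it hi => keep it (h' it hi)
  · intro hkf f' w1 p q w' hm hm' it hi
    exact keep it (hP.v3 hkf f' w1 p q w' (by simpa using hm) (by simpa using hm') it hi)
  · intro f' n w' hm it hi
    exact keep it (hP.vc f' n w' (by simpa using hm) it hi)

end Pool.Agent.MP_528dc0_co

end

section

open Finset

namespace Pool.Agent.MP_528dc0_co

open Eng (Lst It)

/-- generic step for the items `u2`, `u3`, `v2`, `v3` -/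
theorem ec4e_gen (e : EP) (b1 b2 : List (ℕ × ℕ)) (b3 : List ℕ) (it0 : It) (st D st' : List It)
    (hP : e.Part b1 b2 b3 D (it0 :: st)) (hT : ∀ x, x ∈ st → x ∈ st')
    (hr1 : ∀ f w, It.r1 f w ≠ it0) (hr2 : ∀ p q w, It.r2 p q w ≠ it0)
    (hr3 : ∀ p q w, It.r3 p q w ≠ it0) (ht2 : ∀ f w, It.t2 f w ≠ it0)
    (hu4 : ∀ f w, It.u4 f w ≠ it0)
    (Hu2 : ∀ f w, It.u2 f w = it0 → ∀ p q w', It.r2 p q w' ∈ D → e.t2u < w' →
      ∀ it ∈ e.chain It.u3 e.th4 f p [], it ∈ st')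
    (Hu3 : ∀ f w, It.u3 f w = it0 → ∀ p q w', It.r2 p q w' ∈ D → e.t2u < w' →
      ∀ it ∈ e.chain It.u4 e.th2 f p [], it ∈ st')
    (Hv2 : ∀ f w, It.v2 f w = it0 → ∀ p q w', It.r3 p q w' ∈ D →
      ∀ it ∈ e.triV f p [], it ∈ st')
    (Hv3 : ∀ f n w, It.v3 f n w = it0 → ∀ it ∈ e.v0s b3 f n w [], it ∈ st') :
    e.Part b1 b2 b3 (it0 :: D) st' := by
  have T : ∀ x, x ∈ D ∨ x ∈ it0 :: st → x ∈ it0 :: D ∨ x ∈ st' := by
    intro x hx
    rcases hx with hx | hx
    · exact Or.inl (List.mem_cons_of_mem _ hx)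
    · rcases List.mem_cons.1 hx with rfl | hx
      · exact Or.inl List.mem_cons_self
      · exact Or.inr (hT x hx)
  have S : ∀ x, x ∈ it0 :: D → x ≠ it0 → x ∈ D := fun x hx hne =>
    (List.mem_cons.1 hx).resolve_left hne
  refine ⟨?_, ?_, ?_, ?_, ?_, ?_, ?_, ?_, ?_, ?_, ?_, ?_, ?_, ?_, ?_, ?_, ?_⟩
  · exact fun f w hf a ha it hit => T it (hP.e0 f w (S _ hf (hr1 _ _)) a ha it hit)
  · exact fun p q w f w' hp hf h1 h2 it hit =>
      T it (hP.e1 p q w f w' (S _ hp (hr2 _ _ _)) (S _ hf (hr1 _ _)) h1 h2 it hit)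
  · exact fun p q w f w' hp hf h2 it hit =>
      T it (hP.e2 p q w f w' (S _ hp (hr3 _ _ _)) (S _ hf (hr1 _ _)) h2 it hit)
  · exact fun f w hf hc => T _ (hP.e3 f w (S _ hf (hr1 _ _)) hc)
  · intro p q w p' q' w' hp hp'
    rcases hP.pr p q w p' q' w' (S _ hp (hr2 _ _ _)) (S _ hp' (hr2 _ _ _)) with h | h
    · exact Or.inl fun it hit => T it (h it hit)
    · exact Or.inr fun it hit => T it (h it hit)
  · intro f w p q w' hf hp hw it hit
    have hp' := S _ hp (hr2 _ _ _)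
    rcases List.mem_cons.1 hf with h | h
    · exact Or.inr (Hu2 f w h p q w' hp' hw it hit)
    · exact T it (hP.u2 f w p q w' h hp' hw it hit)
  · exact fun f w p q w' hf hp hw it hit =>
      T it (hP.u4 f w p q w' (S _ hf (hu4 _ _)) (S _ hp (hr2 _ _ _)) hw it hit)
  · intro f w p q w' hf hp hw it hit
    have hp' := S _ hp (hr2 _ _ _)
    rcases List.mem_cons.1 hf with h | h
    · exact Or.inr (Hu3 f w h p q w' hp' hw it hit)
    · exact T it (hP.u3 f w p q w' h hp' hw it hit)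
  · exact fun f w hf a ha it hit => T it (hP.tc0 f w (S _ hf (ht2 _ _)) a ha it hit)
  · exact fun f w hf a ha it hit => T it (hP.uc0 f w (S _ hf (hu4 _ _)) a ha it hit)
  · exact fun p q w f w' hp hf it hit =>
      T it (hP.tc1 p q w f w' (S _ hp (hr3 _ _ _)) (S _ hf (ht2 _ _)) it hit)
  · exact fun p q w f w' hp hf it hit =>
      T it (hP.uc1 p q w f w' (S _ hp (hr3 _ _ _)) (S _ hf (hu4 _ _)) it hit)
  · exact fun f w hf hc => T _ (hP.tc2 f w (S _ hf (ht2 _ _)) hc)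
  · exact fun f w hf hc => T _ (hP.uc2 f w (S _ hf (hu4 _ _)) hc)
  · intro hk p q w p' q' w' hp hp'
    rcases hP.v2 hk p q w p' q' w' (S _ hp (hr3 _ _ _)) (S _ hp' (hr3 _ _ _)) with h | h
    · exact Or.inl fun it hit => T it (h it hit)
    · exact Or.inr fun it hit => T it (h it hit)
  · intro hk f w p q w' hf hp it hit
    have hp' := S _ hp (hr3 _ _ _)
    rcases List.mem_cons.1 hf with h | h
    · exact Or.inr (Hv2 f w h p q w' hp' it hit)
    · exact T it (hP.v3 hk f w p q w' h hp' it hit)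
  · intro f n w hf it hit
    rcases List.mem_cons.1 hf with h | h
    · exact Or.inr (Hv3 f n w h it hit)
    · exact T it (hP.vc f n w h it hit)

theorem ec4e_dE_symm (e : EP) (x y : DS e.K) : e.dE x y = e.dE y x := by
  unfold EP.dE
  rw [Finset.inter_comm y.N₁ x.N₁, Nat.add_comm y.ld x.ld]

/-- a member of the list `sel2u` -/
theorem ec4e_mem2u (e : EP) (D : List It) (p q w' : ℕ) (hp : It.r2 p q w' ∈ D) (hw : e.t2u < w') :
    (p, p >>> e.l0) ∈ D.filterMap e.sel2u := by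
  rw [List.mem_filterMap]
  refine ⟨_, hp, ?_⟩
  have h1 : ¬ w' ≤ e.t2u := not_le.2 hw
  have h0 : e.t2e ≤ e.t2u := Nat.mul_le_mul_right _ (by norm_num)
  have h2 : ¬ w' ≤ e.t2e := fun h => h1 (h.trans h0)
  show (if w' ≤ e.t2e then none else if w' ≤ e.t2u then none else some (p, p >>> e.l0)) = _
  rw [if_neg h2, if_neg h1]

theorem ec4e_mem2u' (e : EP) (D : List It) (a : ℕ × ℕ) (ha : a ∈ D.filterMap e.sel2u) :
    ∃ p q w', It.r2 p q w' ∈ D ∧ a = (p, p >>> e.l0) := by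
  rw [List.mem_filterMap] at ha
  obtain ⟨it, hit, ha⟩ := ha
  cases it with
  | r2 p q w =>
    refine ⟨p, q, w, hit, ?_⟩
    have ha' : (if w ≤ e.t2e then none else if w ≤ e.t2u then none else some (p, p >>> e.l0)) =
      some a := ha
    split_ifs at ha' with h1 h2
    exact (Option.some.inj ha').symm
  | _ => exact absurd ha (by simp [EP.sel2u])

theorem ec4e_mem3 (e : EP) (D : List It) (p q w' : ℕ) (hp : It.r3 p q w' ∈ D) :
    (p, p >>> e.l0) ∈ D.filterMap e.sel3 := by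
  rw [List.mem_filterMap]
  exact ⟨_, hp, rfl⟩

theorem ec4e_mem3' (e : EP) (D : List It) (a : ℕ × ℕ) (ha : a ∈ D.filterMap e.sel3) :
    ∃ p q w', It.r3 p q w' ∈ D ∧ a = (p, p >>> e.l0) := by
  rw [List.mem_filterMap] at ha
  obtain ⟨it, hit, ha⟩ := ha
  cases it with
  | r3 p q w => exact ⟨p, q, w, hit, (Option.some.inj ha).symm⟩
  | _ => exact absurd ha (by simp [EP.sel3])

/-- the pass of the chains -/
theorem ec4e_chain (e : EP) (h : e.Ok) (r : ℕ → ℕ → It) (thr k : ℕ)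
    (hk : k ∈ [e.k0, e.k1, e.k2, e.kp, e.k4, e.kk, e.kV, e.kW]) (hkt : k = 8 * e.tau + thr)
    (f : ℕ) (st D : List It) (hf : ∃ y : DS e.K, e.OkD y ∧ f = e.enc y)
    (hD : ∀ it ∈ D, e.GoodIt it)
    (hb : It.bad ∉ e.exs (e.ls e.sel2u D) (fun y => e.chain r thr f y) (Nat.land f e.D1)
      (f >>> e.l0 + k) st) (p q w' : ℕ) (hp : It.r2 p q w' ∈ D) (hw : e.t2u < w') (it : It)
    (hit : it ∈ e.chain r thr f p []) :
    it ∈ e.exs (e.ls e.sel2u D) (fun y => e.chain r thr f y) (Nat.land f e.D1)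
      (f >>> e.l0 + k) st := by
  obtain ⟨y, hy, rfl⟩ := hf
  have hpm := pass_mem e h (D.filterMap e.sel2u) (ls_ok e h D hD e.sel2u (by simp))
    (Nat.land (e.enc y) e.D1) (e.enc y >>> e.l0 + k) (mask1_ok e h _).1 (mask1_ok e h _).2
    (key_le e h y hy k hk) (fun z => e.chain r thr (e.enc y) z)
    (fun z s => app_chain e r thr (e.enc y) z s) ?_ st hb it
  · exact hpm.2 (Or.inr ⟨_, ec4e_mem2u e D p q w' hp hw, hit⟩)
  · intro a ha hn
    obtain ⟨p', q', w'', hm, rfl⟩ := ec4e_mem2u' e D a ha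
    obtain ⟨x, z, hx, -, -, -, -, -, -, -, hpx, -, -⟩ := hD _ hm
    subst hpx
    have hld : e.enc x >>> e.l0 = x.ld := ld_eq e h x hx
    have hn' : ¬ x.ld + ((e.enc y) >>> e.l0 + (8 * e.tau + thr)) <
        e.wz (e.enc x &&& Nat.land (e.enc y) e.D1) := by
      rw [← hkt, ← hld]
      exact hn
    have hnv := nv1 e h x y hx hy thr hn'
    rw [wtD_symm, ec4e_dE_symm] at hnv
    show e.chain r thr (e.enc y) (e.enc x) [] = []
    rw [chain_spec e h r thr y x hy hx, if_pos (Or.inr hnv)]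

theorem ec4e_st (e : EP) (b1 b2 : List (ℕ × ℕ)) (b3 : List ℕ) (it : It) (st D : List It)
    (hb : It.bad ∉ e.out b1 b2 b3 it st D) (x : It) (hx : x ∈ st) :
    x ∈ e.out b1 b2 b3 it st D := (out_mono e b1 b2 b3 it st D x hx).resolve_right hb

/-- **The rules stay valid.** Old pairs: the result is in `D`, or in `it :: st`, hence in `it :: D` or
(`out_mono`, `hb`) in the new worklist. New pairs (one or both members are the new item): the result is
produced by one of the passes: `pass_mem` (membership `↔`), used for every pass with `bad ∉` (since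
`bad` is not in the final list it is not in the intermediate ones: `pass_mono`). The entries of the lists:
`List.mem_filterMap`; `GoodIt` gives that the load in the entry is the load of the field
(`ld_eq`). Non-viable entries produce nothing: specifications + `nv1`, `nv3`, `nv3'`. -/
theorem part_u2 (e : EP) (h : e.Ok) (b1 b2 : List (ℕ × ℕ)) (b3 : List ℕ)
    (h1 : ∀ a ∈ b1, ∃ x : DS e.K, e.OkD x ∧ e.Pd x ∧ x.N₁ = x.N₂ ∧ a = (e.enc x, x.ld))
    (h2 : ∀ a ∈ b2, ∃ x : DS e.K, e.OkD x ∧ e.Pd x ∧ x.N₁ = x.N₂ ∧ a = (e.enc x, x.ld))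
    (h3 : ∀ a ∈ b3, ∃ x : DS e.K, e.OkD x ∧ e.Pd x ∧ x.N₁ = x.N₂ ∧ a = e.enc x)
    (f w : ℕ) (st D : List It) (hit : e.GoodIt (It.u2 f w)) (hD : ∀ it ∈ D, e.GoodIt it)
    (hb : It.bad ∉ e.out b1 b2 b3 (It.u2 f w) st D) (hP : e.Part b1 b2 b3 D (It.u2 f w :: st)) :
    e.Part b1 b2 b3 (It.u2 f w :: D) (e.out b1 b2 b3 (It.u2 f w) st D) := by
  obtain ⟨y, hy, -, hf, -⟩ := hit
  refine ec4e_gen e b1 b2 b3 _ st D _ hP (ec4e_st e b1 b2 b3 _ st D hb) (fun _ _ => nofun)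
    (fun _ _ _ => nofun) (fun _ _ _ => nofun) (fun _ _ => nofun) (fun _ _ => nofun) ?_
    (fun _ _ => nofun) (fun _ _ => nofun) (fun _ _ _ => nofun)
  intro f' w'' hfw p q w' hp hw it hit
  injection hfw with h4 h5
  subst h4
  exact ec4e_chain e h It.u3 e.th4 e.k4 (by simp) rfl f' st D ⟨y, hy, hf⟩ hD hb p q w' hp hw it hit

theorem part_u3 (e : EP) (h : e.Ok) (b1 b2 : List (ℕ × ℕ)) (b3 : List ℕ)
    (h1 : ∀ a ∈ b1, ∃ x : DS e.K, e.OkD x ∧ e.Pd x ∧ x.N₁ = x.N₂ ∧ a = (e.enc x, x.ld))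
    (h2 : ∀ a ∈ b2, ∃ x : DS e.K, e.OkD x ∧ e.Pd x ∧ x.N₁ = x.N₂ ∧ a = (e.enc x, x.ld))
    (h3 : ∀ a ∈ b3, ∃ x : DS e.K, e.OkD x ∧ e.Pd x ∧ x.N₁ = x.N₂ ∧ a = e.enc x)
    (f w : ℕ) (st D : List It) (hit : e.GoodIt (It.u3 f w)) (hD : ∀ it ∈ D, e.GoodIt it)
    (hb : It.bad ∉ e.out b1 b2 b3 (It.u3 f w) st D) (hP : e.Part b1 b2 b3 D (It.u3 f w :: st)) :
    e.Part b1 b2 b3 (It.u3 f w :: D) (e.out b1 b2 b3 (It.u3 f w) st D) := by
  obtain ⟨y, hy, -, hf, -⟩ := hit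
  refine ec4e_gen e b1 b2 b3 _ st D _ hP (ec4e_st e b1 b2 b3 _ st D hb) (fun _ _ => nofun)
    (fun _ _ _ => nofun) (fun _ _ _ => nofun) (fun _ _ => nofun) (fun _ _ => nofun)
    (fun _ _ => nofun) ?_ (fun _ _ => nofun) (fun _ _ _ => nofun)
  intro f' w'' hfw p q w' hp hw it hit
  injection hfw with h4 h5
  subst h4
  exact ec4e_chain e h It.u4 e.th2 e.kk (by simp) rfl f' st D ⟨y, hy, hf⟩ hD hb p q w' hp hw it hit

theorem part_v2 (e : EP) (h : e.Ok) (b1 b2 : List (ℕ × ℕ)) (b3 : List ℕ)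
    (h1 : ∀ a ∈ b1, ∃ x : DS e.K, e.OkD x ∧ e.Pd x ∧ x.N₁ = x.N₂ ∧ a = (e.enc x, x.ld))
    (h2 : ∀ a ∈ b2, ∃ x : DS e.K, e.OkD x ∧ e.Pd x ∧ x.N₁ = x.N₂ ∧ a = (e.enc x, x.ld))
    (h3 : ∀ a ∈ b3, ∃ x : DS e.K, e.OkD x ∧ e.Pd x ∧ x.N₁ = x.N₂ ∧ a = e.enc x)
    (f w : ℕ) (st D : List It) (hit : e.GoodIt (It.v2 f w)) (hD : ∀ it ∈ D, e.GoodIt it)
    (hb : It.bad ∉ e.out b1 b2 b3 (It.v2 f w) st D) (hP : e.Part b1 b2 b3 D (It.v2 f w :: st)) :
    e.Part b1 b2 b3 (It.v2 f w :: D) (e.out b1 b2 b3 (It.v2 f w) st D) := by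
  obtain ⟨y, hy, -, hf, -⟩ := hit
  refine ec4e_gen e b1 b2 b3 _ st D _ hP (ec4e_st e b1 b2 b3 _ st D hb) (fun _ _ => nofun)
    (fun _ _ _ => nofun) (fun _ _ _ => nofun) (fun _ _ => nofun) (fun _ _ => nofun)
    (fun _ _ => nofun) (fun _ _ => nofun) ?_ (fun _ _ _ => nofun)
  intro f' w'' hfw p q w' hp it hit
  injection hfw with h4 h5
  subst h4
  subst hf
  have hpm := pass_mem e h (D.filterMap e.sel3) (ls_ok e h D hD e.sel3 (by simp))
    (Nat.land (e.enc y) e.D3) (e.enc y >>> e.l0 + e.kW) (mask3_ok e h _).1 (mask3_ok e h _).2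
    (key_le e h y hy e.kW (by simp)) (fun z => e.triV (e.enc y) z)
    (fun z s => (app_pair e (e.enc y) z s).2.2) ?_ st hb it
  · exact hpm.2 (Or.inr ⟨_, ec4e_mem3 e D p q w' hp, hit⟩)
  · intro a ha hn
    obtain ⟨p', q', w3, hm, rfl⟩ := ec4e_mem3' e D a ha
    obtain ⟨x, z, hx, -, -, -, hz, hx1, hx2, -, hpx, -, -⟩ := hD _ hm
    subst hpx
    have hp1 : x.N₁ = x.N₂ := by rw [hx1, hx2, hz]
    have hld : e.enc x >>> e.l0 = x.ld := ld_eq e h x hx
    have hn' : ¬ x.ld + ((e.enc y) >>> e.l0 + (8 * e.tau + (e.lam + 4 * e.tau))) <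
        e.wz (e.enc x &&& Nat.land (e.enc y) e.D3) := by
      rw [← hld]
      exact hn
    have hnv := nv3 e h x y hx hy _ hp1 hn'
    rw [wtD_symm] at hnv
    have hnv' : e.wtD y x ≤ e.dC x y + 4 * e.tau + e.lam := by omega
    show e.triV (e.enc y) (e.enc x) [] = []
    rw [triV_spec e h y x hy hx, if_pos hnv']

theorem part_v3 (e : EP) (h : e.Ok) (b1 b2 : List (ℕ × ℕ)) (b3 : List ℕ)
    (h1 : ∀ a ∈ b1, ∃ x : DS e.K, e.OkD x ∧ e.Pd x ∧ x.N₁ = x.N₂ ∧ a = (e.enc x, x.ld))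
    (h2 : ∀ a ∈ b2, ∃ x : DS e.K, e.OkD x ∧ e.Pd x ∧ x.N₁ = x.N₂ ∧ a = (e.enc x, x.ld))
    (h3 : ∀ a ∈ b3, ∃ x : DS e.K, e.OkD x ∧ e.Pd x ∧ x.N₁ = x.N₂ ∧ a = e.enc x)
    (f n w : ℕ) (st D : List It) (hit : e.GoodIt (It.v3 f n w)) (hD : ∀ it ∈ D, e.GoodIt it)
    (hb : It.bad ∉ e.out b1 b2 b3 (It.v3 f n w) st D) (hP : e.Part b1 b2 b3 D (It.v3 f n w :: st)) :
    e.Part b1 b2 b3 (It.v3 f n w :: D) (e.out b1 b2 b3 (It.v3 f n w) st D) := by
  refine ec4e_gen e b1 b2 b3 _ st D _ hP (ec4e_st e b1 b2 b3 _ st D hb) (fun _ _ => nofun)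
    (fun _ _ _ => nofun) (fun _ _ _ => nofun) (fun _ _ => nofun) (fun _ _ => nofun)
    (fun _ _ => nofun) (fun _ _ => nofun) (fun _ _ => nofun) ?_
  intro f' n' w'' hfw it hv
  injection hfw with h4 h5 h6
  subst h4
  subst h5
  subst h6
  show it ∈ e.v0s b3 f' n' w'' st
  rw [v0s_mem] at hv ⊢
  rcases hv with hv | hv
  · exact absurd hv (by simp)
  · exact Or.inr hv

end Pool.Agent.MP_528dc0_co

end

section

open Finset

namespace Pool.Agent.MP_528dc0_co

open Eng (Lst It)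

/-- **Main loop.** Induction on `n`, for all `st`, `D`. `n = 0`: `run_zero`. `st = []`: `D' = D`. `st = it :: st'`: `it ≠ bad` as
`GoodIt bad = False`; by `run_step` the loop continues with the worklist `out` and the items `it :: D`; `bad ∉ out` by
`run_false`; `good_out`, `part_r1`, …, `part_v3` (by the constructor of `it`), `out_mono` and the induction hypothesis. -/
theorem run_closed (e : EP) (h : e.Ok) (b1 b2 : List (ℕ × ℕ)) (b3 : List ℕ)
    (h1 : ∀ a ∈ b1, ∃ x : DS e.K, e.OkD x ∧ e.Pd x ∧ x.N₁ = x.N₂ ∧ a = (e.enc x, x.ld))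
    (h2 : ∀ a ∈ b2, ∃ x : DS e.K, e.OkD x ∧ e.Pd x ∧ x.N₁ = x.N₂ ∧ a = (e.enc x, x.ld))
    (h3 : ∀ a ∈ b3, ∃ x : DS e.K, e.OkD x ∧ e.Pd x ∧ x.N₁ = x.N₂ ∧ a = e.enc x)
    (n : ℕ) (st D : List It) (hr : e.run b1 b2 b3 n st D = true)
    (hst : ∀ it ∈ st, e.GoodIt it) (hD : ∀ it ∈ D, e.GoodIt it) (hP : e.Part b1 b2 b3 D st) :
    ∃ D' : List It, (∀ it ∈ D, it ∈ D') ∧ (∀ it ∈ st, it ∈ D') ∧ (∀ it ∈ D', e.GoodIt it) ∧
      e.Part b1 b2 b3 D' [] := by
  induction n generalizing st D with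
  | zero =>
    rw [run_zero] at hr
    exact absurd hr (by simp)
  | succ n ih =>
    cases st with
    | nil =>
      exact ⟨D, fun it h' => h', fun it h' => absurd h' (by simp), hD, hP⟩
    | cons it st' =>
      have hit : e.GoodIt it := hst it (by simp)
      have hst' : ∀ x ∈ st', e.GoodIt x := fun x hx => hst x (List.mem_cons_of_mem _ hx)
      have hne : it ≠ It.bad := by
        rintro rfl
        exact hit
      rw [run_step e b1 b2 b3 n it st' D hne] at hr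
      have hb : It.bad ∉ e.out b1 b2 b3 it st' D := by
        intro hb
        rw [run_false e b1 b2 b3 n _ _ hb] at hr
        exact absurd hr (by simp)
      have hgo : ∀ x ∈ e.out b1 b2 b3 it st' D, e.GoodIt x := fun x hx =>
        good_out e h b1 b2 b3 h1 h2 h3 it hit st' D hst' hD hb x hx
      have hD' : ∀ x ∈ it :: D, e.GoodIt x := by
        intro x hx
        rcases List.mem_cons.1 hx with rfl | hx
        · exact hit
        · exact hD x hx
      have hpart : e.Part b1 b2 b3 (it :: D) (e.out b1 b2 b3 it st' D) := by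
        cases it with
        | r1 f w => exact part_r1 e h b1 b2 b3 h1 h2 h3 f w st' D hit hD hb hP
        | r2 p q w => exact part_r2 e h b1 b2 b3 h1 h2 h3 p q w st' D hit hD hb hP
        | r3 p q w => exact part_r3 e h b1 b2 b3 h1 h2 h3 p q w st' D hit hD hb hP
        | t2 f w => exact part_t2 e h b1 b2 b3 h1 h2 h3 f w st' D hit hD hb hP
        | u2 f w => exact part_u2 e h b1 b2 b3 h1 h2 h3 f w st' D hit hD hb hP
        | u3 f w => exact part_u3 e h b1 b2 b3 h1 h2 h3 f w st' D hit hD hb hP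
        | u4 f w => exact part_u4 e h b1 b2 b3 h1 h2 h3 f w st' D hit hD hb hP
        | v2 f w => exact part_v2 e h b1 b2 b3 h1 h2 h3 f w st' D hit hD hb hP
        | v3 f n w => exact part_v3 e h b1 b2 b3 h1 h2 h3 f n w st' D hit hD hb hP
        | bad => exact absurd rfl hne
      obtain ⟨D', c1, c2, c3, c4⟩ := ih _ _ hr hgo hD' hpart
      refine ⟨D', fun x hx => c1 x (List.mem_cons_of_mem _ hx), ?_, c3, c4⟩
      intro x hx
      rcases List.mem_cons.1 hx with rfl | hx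
      · exact c1 _ (by simp)
      · rcases out_mono e b1 b2 b3 it st' D x hx with h5 | h5
        · exact c2 x h5
        · exact absurd h5 hb

end Pool.Agent.MP_528dc0_co

end
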