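import Mathlib
import Pool.Agent.MP_528dc0_co.Enc
import Pool.Agent.MP_528dc0_co.EncB

/-!
# The engine: the closed system
-/

section

open Finset

namespace Pool.Agent.MP_528dc0_co

open Eng (Lst It)

theorem ed3_P (P Q : Finset (Fin 4)) :
    (if pdig P &&& qdig Q = 0 then pdig P ||| qdig Q else 31) = pdig (sb P Q) := by
  by_cases h : cmp P Q
  · rw [if_pos ((dig_cmp P Q).2 h), dig_sbP P Q h]
    unfold sb
    rw [if_pos h]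
  · rw [if_neg fun h' => h ((dig_cmp P Q).1 h')]
    unfold sb
    rw [if_neg h]
    exact ((pdig_31 ∅).2 rfl).symm

theorem ed3_Q (P Q : Finset (Fin 4)) (hne : cmp P Q → P \ Q ≠ ∅) :
    (if pdig P &&& qdig Q = 0 then 31 - (pdig P ||| qdig Q) else 31) = qdig (sb P Q) := by
  by_cases h : cmp P Q
  · rw [if_pos ((dig_cmp P Q).2 h), dig_sbQ P Q h (hne h)]
    unfold sb
    rw [if_pos h]
  · rw [if_neg fun h' => h ((dig_cmp P Q).1 h')]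
    unfold sb
    rw [if_neg h]
    exact ((qdig_31 ∅).2 rfl).symm

theorem ed3_K (P Q : Finset (Fin 4)) :
    (if qdig Q &&& pdig P = 0 then qdig Q else 31) = qdig (kp P Q) := by
  by_cases h : cmp P Q
  · rw [if_pos ((dig_cmp' P Q).2 h)]
    unfold kp
    rw [if_pos h]
  · rw [if_neg fun h' => h ((dig_cmp' P Q).1 h')]
    unfold kp
    rw [if_neg h]
    exact ((qdig_31 ∅).2 rfl).symm

theorem ed3_ne (P Q : Finset (Fin 4)) (r t : ℕ) (hr : t < r) (hP : P = ∅ ∨ P.card = r)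
    (hQ : Q = ∅ ∨ Q.card = t) (h : cmp P Q) : P \ Q ≠ ∅ := by
  obtain ⟨h1, h2⟩ := h
  intro h0
  have hQ' : Q.card = t := by
    rcases hQ with h | h
    · rw [h] at h1
      exact absurd h1 (by simp)
    · exact h
  have hP' : P.card = r := by
    rcases hP with h | h
    · rw [h] at h2
      obtain ⟨x, hx⟩ := h1
      exact absurd (h2 hx) (by simp)
    · exact h
  have h3 : P ⊆ Q := Finset.sdiff_eq_empty_iff_subset.1 h0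
  have := Finset.card_le_card h3
  omega

theorem ed3_aP (e : EP) (h : e.Ok) (a : AS e.K) (w : ℕ) (y : DS e.K) (hy : e.OkD y)
    (hf : e.enc (e.aQ a) = e.enc y) (hw : e.alvQ y ≤ w + y.ld) :
    e.OkD (e.aQ a) ∧ e.OkD (e.aP a) ∧ e.alvQ (e.aQ a) ≤ w + a.ld := by
  have hq : ∀ k, (e.aQ a).dg k ≤ 31 := by
    intro k
    have : qdig (a.A k) ≤ 15 ∨ qdig (a.A k) = 31 := qdig_bd _
    show qdig (a.A k) ≤ 31
    omega
  have h1 : e.aQ a = y := enc_inj e h _ _ hq hy.1 hf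
  subst h1
  refine ⟨hy, ⟨fun k => (pdig_bd (a.A k)).2, hy.2⟩, hw⟩

theorem edgP_eq (e : EP) (x y : AS e.K) (hx : x.N₁ = x.N₂) (l : ℕ) (hl : l = e.par.ldE x y) :
    e.mkP (e.aP x) (e.aQ y) (e.aP x).N₁ (e.aP x).N₂ l = e.aP (e.par.edg x y) := by
  subst hl
  unfold EP.mkP EP.aP EP.aQ
  refine DS.ext ?_ rfl hx.symm rfl
  funext k
  exact ed3_P _ _
/-- `r ≥ 2` colours minus one colour: not empty (`dig_sbQ`) -/
theorem edgQ_eq (e : EP) (r : ℕ) (hr : 2 ≤ r) (x y : AS e.K) (hx : x.N₁ = x.N₂)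
    (hxc : ∀ k, x.A k = ∅ ∨ (x.A k).card = r) (hyc : ∀ k, y.A k = ∅ ∨ (y.A k).card = 1)
    (l : ℕ) (hl : l = e.par.ldE x y) :
    e.mkQ (e.aP x) (e.aQ y) (e.aP x).N₁ (e.aP x).N₂ l = e.aQ (e.par.edg x y) := by
  subst hl
  unfold EP.mkQ EP.aP EP.aQ
  refine DS.ext ?_ rfl hx.symm rfl
  funext k
  exact ed3_Q _ _ (ed3_ne _ _ r 1 (by omega) (hxc k) (hyc k))
theorem clsQ_eq (e : EP) (x t : AS e.K) (hx : x.N₁ = x.N₂)
    (hxc : ∀ k, x.A k = ∅ ∨ (x.A k).card = 3) (htc : ∀ k, t.A k = ∅ ∨ (t.A k).card = 2)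
    (l : ℕ) (hl : l = e.par.ldC x t) :
    e.mkQ (e.aP x) (e.aQ t) (e.aP x).N₁ (e.aP x).N₂ l = e.aQ (e.par.cls x t) := by
  subst hl
  unfold EP.mkQ EP.aP EP.aQ
  refine DS.ext ?_ rfl hx.symm rfl
  funext k
  exact ed3_Q _ _ (ed3_ne _ _ 3 2 (by omega) (hxc k) (htc k))
theorem chnQ_eq (e : EP) (t y : AS e.K) (l : ℕ) (hl : l = e.par.ldE t y) :
    e.mkK (e.aQ t) (e.aP y) (e.aP y).N₁ (e.aQ t).N₂ l = e.aQ (e.par.chn t y) := by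
  subst hl
  unfold EP.mkK EP.aP EP.aQ
  refine DS.ext ?_ rfl rfl rfl
  funext k
  exact ed3_K _ _
/-- the pair of the list member `x` (root form) and the new item `y` (child form); `kp_comm` -/
theorem pairQ_eq (e : EP) (r : ℕ) (x y : AS e.K) (hxc : ∀ k, x.A k = ∅ ∨ (x.A k).card = r)
    (hyc : ∀ k, y.A k = ∅ ∨ (y.A k).card = r) (l : ℕ) (hl : l = e.par.ldE x y) :
    e.mkK (e.aQ y) (e.aP x) (e.aQ y).N₁ (e.aP x).N₂ l = e.aQ (e.par.chn x y) := by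
  subst hl
  unfold EP.mkK EP.aP EP.aQ
  refine DS.ext ?_ rfl rfl rfl
  funext k
  refine (ed3_K _ _).trans ?_
  show qdig (kp (x.A k) (y.A k)) = qdig (kp (y.A k) (x.A k))
  rw [kp_comm r _ _ (hxc k) (hyc k)]
theorem pairTQ_eq (e : EP) (r : ℕ) (x y : AS e.K) (hxc : ∀ k, x.A k = ∅ ∨ (x.A k).card = r)
    (hyc : ∀ k, y.A k = ∅ ∨ (y.A k).card = r) (l : ℕ) (hl : l = e.par.ldE x y + e.tau) :
    e.mkK (e.aQ y) (e.aP x) (e.aQ y).N₁ (e.aP x).N₂ l = e.aQ (e.par.addT (e.par.chn x y)) := by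
  subst hl
  unfold EP.mkK EP.aP EP.aQ
  refine DS.ext ?_ rfl rfl rfl
  funext k
  refine (ed3_K _ _).trans ?_
  show qdig (kp (x.A k) (y.A k)) = qdig (kp (y.A k) (x.A k))
  rw [kp_comm r _ _ (hxc k) (hyc k)]
theorem trvP_eq' (e : EP) (y : AS e.K) : e.trvP (e.aQ y) = e.aP (e.par.trv y.A y.ld) := by
  unfold EP.trvP EP.aP EP.aQ
  refine DS.ext ?_ rfl rfl rfl
  funext k
  exact dig_trvP _
theorem trvQ_eq' (e : EP) (y : AS e.K) : e.trvQ (e.aQ y) = e.aQ (e.par.trv y.A y.ld) := by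
  unfold EP.trvQ EP.aQ
  refine DS.ext ?_ rfl rfl rfl
  funext k
  exact dig_trvQ _
theorem tri3_eq (e : EP) (v y : AS e.K) (l : ℕ)
    (hl : l = e.dC (e.aP y) (e.aQ v) + 4 * e.tau) :
    e.mkK (e.aQ v) (e.aP y) (e.aQ v).N₁ (e.aQ v).N₂ l = e.aQ (e.prj (e.par.tri3 v y)) := by
  subst hl
  unfold EP.mkK
  refine DS.ext ?_ rfl rfl ?_
  · funext k
    exact ed3_K _ _
  · show y.ld + v.ld + e.tau * (y.N₁ ∩ v.N₁).card + e.tau * (y.N₁ ∩ v.N₂).card + 4 * e.tau =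
      v.ld + y.ld + e.tau * (y.N₁ ∩ v.N₁).card + e.tau * (y.N₁ ∩ v.N₂).card + 4 * e.tau
    rw [add_comm y.ld v.ld]
theorem tri3_ld (e : EP) (v y : AS e.K) :
    (e.par.tri3 v y).ld = e.dC (e.aP y) (e.aQ v) + 4 * e.tau := by
  show v.ld + y.ld + e.tau * (y.N₁ ∩ v.N₁).card + e.tau * (y.N₁ ∩ v.N₂).card + 4 * e.tau =
    y.ld + v.ld + e.tau * (y.N₁ ∩ v.N₁).card + e.tau * (y.N₁ ∩ v.N₂).card + 4 * e.tau
  rw [add_comm y.ld v.ld]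
theorem ldV_eq (e : EP) (x : AS e.K) (v : AS3 e.K) :
    e.par.ldV x v = e.dC (e.aP x) (e.aQ (e.prj v)) + e.tau * (x.N₁ ∩ v.N₃).card := by
  rfl

/-- good items: `enc_inj` (digits of `aP`, `aQ` are at most 31) -/
theorem gd_r1 (e : EP) (h : e.Ok) (a : AS e.K) (w : ℕ) (hg : e.GoodIt (It.r1 (e.enc (e.aQ a)) w)) :
    e.OkD (e.aQ a) ∧ e.OkD (e.aP a) ∧ e.alvQ (e.aQ a) ≤ w + a.ld := by
  obtain ⟨y, h1, _, _, h4, h5⟩ := hg
  exact ed3_aP e h a w y h1 h4 h5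
theorem gd_r2 (e : EP) (h : e.Ok) (a : AS e.K) (w : ℕ)
    (hg : e.GoodIt (It.r2 (e.enc (e.aP a)) (e.enc (e.aQ a)) w)) :
    e.OkD (e.aQ a) ∧ e.OkD (e.aP a) ∧ e.alvQ (e.aQ a) ≤ w + a.ld := by
  obtain ⟨x, y, _, _, h1, _, _, _, _, _, _, h4, h5⟩ := hg
  exact ed3_aP e h a w y h1 h4 h5
theorem gd_r3 (e : EP) (h : e.Ok) (a : AS e.K) (w : ℕ)
    (hg : e.GoodIt (It.r3 (e.enc (e.aP a)) (e.enc (e.aQ a)) w)) :
    e.OkD (e.aQ a) ∧ e.OkD (e.aP a) ∧ e.alvQ (e.aQ a) ≤ w + a.ld := by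
  obtain ⟨x, y, _, _, h1, _, _, _, _, _, _, h4, h5⟩ := hg
  exact ed3_aP e h a w y h1 h4 h5
theorem gd_c (e : EP) (h : e.Ok) (a : AS e.K) (w : ℕ)
    (hg : e.GoodIt (It.t2 (e.enc (e.aQ a)) w) ∨ e.GoodIt (It.u2 (e.enc (e.aQ a)) w) ∨
      e.GoodIt (It.u3 (e.enc (e.aQ a)) w) ∨ e.GoodIt (It.u4 (e.enc (e.aQ a)) w) ∨
      e.GoodIt (It.v2 (e.enc (e.aQ a)) w) ∨ ∃ n, e.GoodIt (It.v3 (e.enc (e.aQ a)) n w)) :
    e.OkD (e.aQ a) ∧ e.OkD (e.aP a) ∧ e.alvQ (e.aQ a) ≤ w + a.ld := by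
  rcases hg with hg | hg | hg | hg | hg | ⟨n, hg⟩
  · obtain ⟨y, h1, _, h4, h5⟩ := hg
    exact ed3_aP e h a w y h1 h4 h5
  · obtain ⟨y, h1, _, h4, h5⟩ := hg
    exact ed3_aP e h a w y h1 h4 h5
  · obtain ⟨y, h1, _, h4, h5⟩ := hg
    exact ed3_aP e h a w y h1 h4 h5
  · obtain ⟨y, h1, _, h4, h5⟩ := hg
    exact ed3_aP e h a w y h1 h4 h5
  · obtain ⟨y, h1, _, h4, h5⟩ := hg
    exact ed3_aP e h a w y h1 h4 h5
  · obtain ⟨y, N, h1, _, h4, _, h5⟩ := hg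
    exact ed3_aP e h a w y h1 h4 h5

end Pool.Agent.MP_528dc0_co

end

section

open Finset

namespace Pool.Agent.MP_528dc0_co

open Eng (Lst It)

/-- The items are in `D` (`Part` with worklist `[]`; `edge0_spec`, `edge1_spec`, `edge2_spec` with `st = []`; an item `bad` is
impossible by `hG`). `OkD` of the states: `gd_r1`, `gd_r2`, `gd_r3` (for the base state `bs N`: from `hB`, which also gives an
item for `bs N`). The filters of `Part.e1`, `Part.e2`: `ldE x y + c1 < wt ≤ alvQ ≤ w + ld` and the minimal loads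
`(4 - r) lam` in `Wf` (`c1 = 3 lam`, `c2 ≥ 4 lam`, `t1 = 5 lam`, `t2e = 6 lam`). -/
theorem cl_e0 (e : EP) (h : e.Ok) (b1 b2 : List (ℕ × ℕ)) (b3 : List ℕ) (D : List It)
    (hG : ∀ it ∈ D, e.GoodIt it) (hP : e.Part b1 b2 b3 D []) (hB : e.Bas b1 b2 b3 D) :
    ∀ N ⊆ e.par.Lab, N.card = 3 → ¬ e.par.ex1 N →
    3 * e.par.lam + e.par.tau * eH e.par.H N + e.par.c1 < e.par.bw N →
    ∀ y, e.R1 D y → e.par.Wf 1 y → ¬ e.par.ex2 (N ∩ y.N₁) →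
    e.par.wt (e.par.bs N).A y.A ≤ e.par.ldE (e.par.bs N) y := by
  intro N hN hc hx hv y hy _ hex
  obtain ⟨hb, w0, hw0⟩ := hB.b1 N hN hc hx hv
  obtain ⟨w, hw⟩ := hy
  obtain ⟨-, okP, -⟩ := gd_r1 e h _ _ (hG _ hw0)
  obtain ⟨okQ, -, -⟩ := gd_r1 e h _ _ (hG _ hw)
  have h1 := hP.e0 _ _ hw _ hb
  simp only at h1
  rw [edge0_spec e h _ _ okP okQ] at h1
  by_contra hcon
  have hneg : ¬ (e.par.ex2 ((e.aP (e.par.bs N)).N₁ ∩ (e.aQ y).N₁) ∨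
      e.wtD (e.aP (e.par.bs N)) (e.aQ y) ≤ e.dE (e.aP (e.par.bs N)) (e.aQ y)) := by
    rintro (h2 | h2)
    · exact hex h2
    · rw [← wt_PQ, ← ldE_eq] at h2
      exact hcon h2
  rw [if_neg hneg] at h1
  rcases h1 It.bad (List.mem_cons_self ..) with h3 | h3
  · exact hG _ h3
  · exact absurd h3 (List.not_mem_nil)

theorem cl_e1 (e : EP) (h : e.Ok) (b1 b2 : List (ℕ × ℕ)) (b3 : List ℕ) (D : List It)
    (hG : ∀ it ∈ D, e.GoodIt it) (hP : e.Part b1 b2 b3 D []) (hB : e.Bas b1 b2 b3 D) :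
    ∀ x y, e.R2 D x → e.par.Wf 2 x → e.R1 D y → e.par.Wf 1 y → ¬ e.par.ex2 (x.N₁ ∩ y.N₁) →
    e.par.ldE x y + e.par.c1 < e.par.wt x.A y.A → e.R1 D (e.par.edg x y) := by
  intro x y hx hwx hy hwy hex hv
  obtain ⟨w, hw⟩ := hx
  obtain ⟨w', hw'⟩ := hy
  obtain ⟨-, okP, hal⟩ := gd_r2 e h _ _ (hG _ hw)
  obtain ⟨okQ, -, hal'⟩ := gd_r1 e h _ _ (hG _ hw')
  have hl1 := wt_le_root e x y
  have hl2 := wt_le_child e x y
  have e1 : e.par.ldE x y = x.ld + y.ld + e.tau * (x.N₁ ∩ y.N₁).card := rfl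
  have e2 : e.par.c1 = 3 * e.lam := rfl
  have e3 : e.t2e = 6 * e.lam := rfl
  have e4 : e.t1 = 5 * e.lam := rfl
  have e5 : 2 * e.lam ≤ x.ld := hwx.2.1
  have e6 : 3 * e.lam ≤ y.ld := hwy.2.1
  have e7 : e.c1 = 3 * e.lam := rfl
  have h1 := hP.e1 _ _ _ _ _ hw hw' (by omega) (by omega)
  rw [edge1_spec e h _ _ okP okQ] at h1
  have hneg : ¬ (e.par.ex2 ((e.aP x).N₁ ∩ (e.aQ y).N₁) ∨
      e.wtD (e.aP x) (e.aQ y) ≤ e.dE (e.aP x) (e.aQ y) + e.c1) := by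
    rintro (h2 | h2)
    · exact hex h2
    · rw [← wt_PQ, ← ldE_eq] at h2
      omega
  rw [if_neg hneg] at h1
  have h2 := h1 _ (List.mem_cons_self ..)
  rw [edgQ_eq e 2 le_rfl x y hwx.2.2 hwx.1 hwy.1 _ (ldE_eq e x y).symm] at h2
  exact ⟨_, h2.resolve_right List.not_mem_nil⟩

theorem cl_e2 (e : EP) (h : e.Ok) (b1 b2 : List (ℕ × ℕ)) (b3 : List ℕ) (D : List It)
    (hG : ∀ it ∈ D, e.GoodIt it) (hP : e.Part b1 b2 b3 D []) (hB : e.Bas b1 b2 b3 D) :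
    ∀ x y, e.R3 D x → e.par.Wf 3 x → e.R1 D y → e.par.Wf 1 y → ¬ e.par.ex2 (x.N₁ ∩ y.N₁) →
    e.par.ldE x y + e.par.c2 < e.par.wt x.A y.A → e.R2 D (e.par.edg x y) := by
  intro x y hx hwx hy hwy hex hv
  obtain ⟨w, hw⟩ := hx
  obtain ⟨w', hw'⟩ := hy
  obtain ⟨-, okP, hal⟩ := gd_r3 e h _ _ (hG _ hw)
  obtain ⟨okQ, -, hal'⟩ := gd_r1 e h _ _ (hG _ hw')
  have hl2 := wt_le_child e x y
  have e1 : e.par.ldE x y = x.ld + y.ld + e.tau * (x.N₁ ∩ y.N₁).card := rfl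
  have e2 : e.par.c2 = min (6 * e.lam) (4 * e.lam + e.tau) := rfl
  have e4 : e.t1 = 5 * e.lam := rfl
  have e5 : 1 * e.lam ≤ x.ld := hwx.2.1
  have e7 := par_c2 e
  have h1 := hP.e2 _ _ _ _ _ hw hw' (by omega)
  rw [edge2_spec e h _ _ okP okQ] at h1
  have hneg : ¬ (e.par.ex2 ((e.aP x).N₁ ∩ (e.aQ y).N₁) ∨
      e.wtD (e.aP x) (e.aQ y) ≤ e.dE (e.aP x) (e.aQ y) + e.c2) := by
    rintro (h2 | h2)
    · exact hex h2
    · rw [← wt_PQ, ← ldE_eq] at h2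
      omega
  rw [if_neg hneg] at h1
  have h2 := h1 _ (List.mem_cons_self ..)
  rw [edgP_eq e x y hwx.2.2 _ (ldE_eq e x y).symm,
    edgQ_eq e 3 (by norm_num) x y hwx.2.2 hwx.1 hwy.1 _ (ldE_eq e x y).symm] at h2
  exact ⟨_, h2.resolve_right List.not_mem_nil⟩

theorem cl_e3 (e : EP) (h : e.Ok) (b1 b2 : List (ℕ × ℕ)) (b3 : List ℕ) (D : List It)
    (hG : ∀ it ∈ D, e.GoodIt it) (hP : e.Part b1 b2 b3 D []) (hB : e.Bas b1 b2 b3 D) :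
    ∀ y, e.R1 D y → e.par.Wf 1 y → y.ld + e.par.c3 < e.par.aw y.A →
    e.R3 D (e.par.trv y.A y.ld) := by
  intro y hy _ hv
  obtain ⟨w, hw⟩ := hy
  obtain ⟨okQ, -, hal⟩ := gd_r1 e h _ _ (hG _ hw)
  have e1 := par_c3 e h
  have e2 := aw_eq e y
  have h1 := (hP.e3 _ _ hw (by omega)).resolve_right List.not_mem_nil
  rw [trivP_eq e h _ okQ, trivQ_eq e h _ okQ, trvP_eq', trvQ_eq'] at h1
  exact ⟨_, h1⟩

end Pool.Agent.MP_528dc0_co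

end

section

open Finset

namespace Pool.Agent.MP_528dc0_co

open Eng (Lst It)

theorem ed5_ldE_comm (e : EP) (x y : AS e.K) : e.par.ldE x y = e.par.ldE y x := by
  unfold Par.ldE
  rw [Finset.inter_comm x.N₁ y.N₁]
  omega

theorem ed5_t2 (e : EP) (h : e.Ok) (D : List It) (hG : ∀ it ∈ D, e.GoodIt it) (x y : AS e.K)
    (w w' : ℕ) (hw : It.r2 (e.enc (e.aP x)) (e.enc (e.aQ x)) w ∈ D)
    (hw' : It.r2 (e.enc (e.aP y)) (e.enc (e.aQ y)) w' ∈ D) (hwx : e.par.Wf 2 x)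
    (hwy : e.par.Wf 2 y) (hex : ¬ e.par.ex2 (x.N₁ ∩ y.N₁))
    (hv : e.par.ldE x y + e.par.tau + 2 * e.par.lam < e.par.wt x.A y.A)
    (h1 : ∀ it ∈ e.pairG (e.enc (e.aQ y)) (e.enc (e.aP x)) [], it ∈ D ∨ it ∈ []) :
    e.RT D (e.par.addT (e.par.chn x y)) := by
  obtain ⟨-, okP, -⟩ := gd_r2 e h _ _ (hG _ hw)
  obtain ⟨okQ, -, -⟩ := gd_r2 e h _ _ (hG _ hw')
  rw [pairG_spec e h _ _ okP okQ [] _ rfl] at h1
  have hneg1 : ¬ e.par.ex2 ((e.aP x).N₁ ∩ (e.aQ y).N₁) := hex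
  have hneg2 : ¬ (e.wtD (e.aP x) (e.aQ y) ≤ e.dE (e.aP x) (e.aQ y) + e.thT) := by
    rw [← wt_PQ, ← ldE_eq]
    have e1 : e.thT = e.tau + 2 * e.lam := rfl
    have e2 : e.par.lam = e.lam := rfl
    have e3 : e.par.tau = e.tau := rfl
    omega
  rw [if_neg hneg1, if_neg hneg2] at h1
  have h2 := h1 _ (List.mem_cons_self ..)
  rw [pairTQ_eq e 2 x y hwx.1 hwy.1 _ (by rw [← ldE_eq])] at h2
  exact ⟨_, h2.resolve_right List.not_mem_nil⟩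

theorem ed5_u2 (e : EP) (h : e.Ok) (D : List It) (hG : ∀ it ∈ D, e.GoodIt it) (x y : AS e.K)
    (w w' : ℕ) (hw : It.r2 (e.enc (e.aP x)) (e.enc (e.aQ x)) w ∈ D)
    (hw' : It.r2 (e.enc (e.aP y)) (e.enc (e.aQ y)) w' ∈ D)
    (hex : ¬ e.par.ex2 (x.N₁ ∩ y.N₁))
    (hv : e.par.ldE x y + 6 * e.par.lam < e.par.wt x.A y.A)
    (h1 : ∀ it ∈ e.pairG (e.enc (e.aQ y)) (e.enc (e.aP x)) [], it ∈ D ∨ it ∈ []) :
    It.u2 (e.enc (e.mkK (e.aQ y) (e.aP x) (e.aQ y).N₁ (e.aP x).N₂ (e.dE (e.aP x) (e.aQ y))))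
      (e.wtD (e.aP x) (e.aQ y) - e.dE (e.aP x) (e.aQ y)) ∈ D ∧
    (x.N₁ ≠ y.N₁ →
      It.u2 (e.enc (e.mkK (e.aQ y) (e.aP x) (e.aP x).N₁ (e.aQ y).N₂ (e.dE (e.aP x) (e.aQ y))))
        (e.wtD (e.aP x) (e.aQ y) - e.dE (e.aP x) (e.aQ y)) ∈ D) := by
  obtain ⟨-, okP, -⟩ := gd_r2 e h _ _ (hG _ hw)
  obtain ⟨okQ, -, -⟩ := gd_r2 e h _ _ (hG _ hw')
  rw [pairG_spec e h _ _ okP okQ [] _ rfl] at h1
  have hneg1 : ¬ e.par.ex2 ((e.aP x).N₁ ∩ (e.aQ y).N₁) := hex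
  have hneg2 : ¬ (e.wtD (e.aP x) (e.aQ y) ≤ e.dE (e.aP x) (e.aQ y) + e.th6) := by
    rw [← wt_PQ, ← ldE_eq]
    have e1 : e.th6 = 6 * e.lam := rfl
    have e2 : e.par.lam = e.lam := rfl
    omega
  rw [if_neg hneg1, if_neg hneg2] at h1
  have key : ∀ it ∈ It.u2 (e.enc (e.mkK (e.aQ y) (e.aP x) (e.aQ y).N₁ (e.aP x).N₂
      (e.dE (e.aP x) (e.aQ y)))) (e.wtD (e.aP x) (e.aQ y) - e.dE (e.aP x) (e.aQ y)) ::
      (if (e.aP x).N₁ = (e.aQ y).N₁ then [] else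
        [It.u2 (e.enc (e.mkK (e.aQ y) (e.aP x) (e.aP x).N₁ (e.aQ y).N₂
          (e.dE (e.aP x) (e.aQ y)))) (e.wtD (e.aP x) (e.aQ y) - e.dE (e.aP x) (e.aQ y))]),
      it ∈ D := by
    intro it hit
    refine (h1 it ?_).resolve_right List.not_mem_nil
    by_cases hT : e.wtD (e.aP x) (e.aQ y) ≤ e.dE (e.aP x) (e.aQ y) + e.thT
    · rw [if_pos hT]
      exact hit
    · rw [if_neg hT]
      exact List.mem_cons_of_mem _ hit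
  refine ⟨key _ (List.mem_cons_self ..), ?_⟩
  intro hN
  refine key _ (List.mem_cons_of_mem _ ?_)
  rw [if_neg (show ¬ (e.aP x).N₁ = (e.aQ y).N₁ from hN)]
  exact List.mem_cons_self ..

theorem ed5_ch (e : EP) (h : e.Ok) (D : List It) (t y : AS e.K) (okQ : e.OkD (e.aQ t))
    (okP : e.OkD (e.aP y)) (r : ℕ → ℕ → It) (thr : ℕ) (hex : ¬ e.par.ex2 (t.N₁ ∩ y.N₁))
    (hv : e.par.ldE t y + thr < e.par.wt y.A t.A)
    (h1 : ∀ it ∈ e.chain r thr (e.enc (e.aQ t)) (e.enc (e.aP y)) [], it ∈ D ∨ it ∈ []) :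
    r (e.enc (e.aQ (e.par.chn t y))) (e.wtD (e.aQ t) (e.aP y) - e.dE (e.aQ t) (e.aP y)) ∈ D := by
  rw [chain_spec e h r thr _ _ okQ okP] at h1
  have hneg : ¬ (e.par.ex2 ((e.aQ t).N₁ ∩ (e.aP y).N₁) ∨
      e.wtD (e.aQ t) (e.aP y) ≤ e.dE (e.aQ t) (e.aP y) + thr) := by
    rintro (h2 | h2)
    · exact hex h2
    · rw [← wt_QP, ← ldE_eq'] at h2
      omega
  rw [if_neg hneg] at h1
  have h2 := h1 _ (List.mem_cons_self ..)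
  rw [chnQ_eq e t y _ (ldE_eq' e t y).symm] at h2
  exact h2.resolve_right List.not_mem_nil

/-- `Part.pr` gives one of two calls of `pairG`; the call for the new item `y` (child form) and the list member `x` (root form)
pushes `t2` for `chn x y` (`pairTQ_eq`) and `u2` for `chn x y` (`pairQ_eq`) and, unless `x.N₁ = y.N₁`, for `chn y x` (`chnQ_eq`
with the roles exchanged); if `x.N₁ = y.N₁` then (`N₁ = N₂` for pieces) `chn x y = chn y x` up to `kp_comm` and the commutativity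
of the load. Weights: `wt_comm`. Filters: `t2u = 8 lam`: `ldE t y + 4 lam < wt ≤ w + y.ld`, `t.ld ≥ 4 lam` (for `u4`: `6 lam`
and `2 lam`). -/
theorem cl_t2 (e : EP) (h : e.Ok) (b1 b2 : List (ℕ × ℕ)) (b3 : List ℕ) (D : List It)
    (hG : ∀ it ∈ D, e.GoodIt it) (hP : e.Part b1 b2 b3 D []) (hB : e.Bas b1 b2 b3 D) :
    ∀ x y, e.R2 D x → e.par.Wf 2 x → e.R2 D y → e.par.Wf 2 y → ¬ e.par.ex2 (x.N₁ ∩ y.N₁) →
    e.par.ldE x y + e.par.tau + 2 * e.par.lam < e.par.wt x.A y.A →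
      e.RT D (e.par.addT (e.par.chn x y)) ∨ e.RT D (e.par.addT (e.par.chn y x)) := by
  intro x y hx hwx hy hwy hex hv
  obtain ⟨w, hw⟩ := hx
  obtain ⟨w', hw'⟩ := hy
  rcases hP.pr _ _ _ _ _ _ hw hw' with h1 | h1
  · exact Or.inl (ed5_t2 e h D hG x y w w' hw hw' hwx hwy hex hv h1)
  · right
    refine ed5_t2 e h D hG y x w' w hw' hw hwy hwx ?_ ?_ h1
    · rwa [Finset.inter_comm]
    · rw [ed5_ldE_comm, ← wt_comm e 2 x y hwx.1 hwy.1]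
      exact hv
theorem cl_u2 (e : EP) (h : e.Ok) (b1 b2 : List (ℕ × ℕ)) (b3 : List ℕ) (D : List It)
    (hG : ∀ it ∈ D, e.GoodIt it) (hP : e.Part b1 b2 b3 D []) (hB : e.Bas b1 b2 b3 D) :
    ∀ x y, e.R2 D x → e.par.Wf 2 x → e.R2 D y → e.par.Wf 2 y → ¬ e.par.ex2 (x.N₁ ∩ y.N₁) →
    e.par.ldE x y + 6 * e.par.lam < e.par.wt x.A y.A → e.RU2 D (e.par.chn x y) := by
  intro x y hx hwx hy hwy hex hv
  obtain ⟨w, hw⟩ := hx
  obtain ⟨w', hw'⟩ := hy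
  have hv' : e.par.ldE y x + 6 * e.par.lam < e.par.wt y.A x.A := by
    rw [ed5_ldE_comm, ← wt_comm e 2 x y hwx.1 hwy.1]
    exact hv
  have hex' : ¬ e.par.ex2 (y.N₁ ∩ x.N₁) := by rwa [Finset.inter_comm]
  rcases hP.pr _ _ _ _ _ _ hw hw' with h1 | h1
  · have h2 := (ed5_u2 e h D hG x y w w' hw hw' hex hv h1).1
    rw [pairQ_eq e 2 x y hwx.1 hwy.1 _ (ldE_eq e x y).symm] at h2
    exact ⟨_, h2⟩
  · obtain ⟨h2, h3⟩ := ed5_u2 e h D hG y x w' w hw' hw hex' hv' h1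
    by_cases hN : y.N₁ = x.N₁
    · rw [pairQ_eq e 2 y x hwy.1 hwx.1 _ (ldE_eq e y x).symm] at h2
      have e1 : e.par.chn y x = e.par.chn x y := by
        have n1 : x.N₁ = x.N₂ := hwx.2.2
        have n2 : y.N₁ = y.N₂ := hwy.2.2
        unfold Par.chn
        rw [ed5_ldE_comm e y x, hN, ← n2, ← n1, hN]
        congr 1
        funext k
        exact kp_comm 2 _ _ (hwx.1 k) (hwy.1 k)
      rw [e1] at h2
      exact ⟨_, h2⟩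
    · have h4 := h3 hN
      rw [chnQ_eq e x y _ (by rw [← ldE_eq, ed5_ldE_comm])] at h4
      exact ⟨_, h4⟩
theorem cl_u3 (e : EP) (h : e.Ok) (b1 b2 : List (ℕ × ℕ)) (b3 : List ℕ) (D : List It)
    (hG : ∀ it ∈ D, e.GoodIt it) (hP : e.Part b1 b2 b3 D []) (hB : e.Bas b1 b2 b3 D) :
    ∀ t y, (e.RU2 D t ∨ e.RU4 D t) → e.par.WfC (4 * e.par.lam) t → e.R2 D y → e.par.Wf 2 y →
    ¬ e.par.ex2 (t.N₁ ∩ y.N₁) → e.par.ldE t y + 4 * e.par.lam < e.par.wt y.A t.A →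
    e.RU3 D (e.par.chn t y) := by
  intro t y ht hwt hy hwy hex hv
  obtain ⟨w', hw'⟩ := hy
  obtain ⟨-, okP, hal⟩ := gd_r2 e h _ _ (hG _ hw')
  have hl1 := wt_le_root e y t
  have e1 : e.par.ldE t y = t.ld + y.ld + e.tau * (t.N₁ ∩ y.N₁).card := rfl
  have e2 : e.par.lam = e.lam := rfl
  have e3 : e.t2u = 8 * e.lam := rfl
  have e5 : 4 * e.lam ≤ t.ld := hwt.2
  have hw8 : e.t2u < w' := by omega
  rcases ht with ⟨w, hw⟩ | ⟨w, hw⟩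
  · obtain ⟨okQ, -, -⟩ := gd_c e h _ _ (Or.inr (Or.inl (hG _ hw)))
    exact ⟨_, ed5_ch e h D t y okQ okP It.u3 e.th4 hex (by
      have : e.th4 = 4 * e.lam := rfl
      omega) (hP.u2 _ _ _ _ _ hw hw' hw8)⟩
  · obtain ⟨okQ, -, -⟩ := gd_c e h _ _ (Or.inr (Or.inr (Or.inr (Or.inl (hG _ hw)))))
    exact ⟨_, ed5_ch e h D t y okQ okP It.u3 e.th4 hex (by
      have : e.th4 = 4 * e.lam := rfl
      omega) (hP.u4 _ _ _ _ _ hw hw' hw8)⟩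
theorem cl_u4 (e : EP) (h : e.Ok) (b1 b2 : List (ℕ × ℕ)) (b3 : List ℕ) (D : List It)
    (hG : ∀ it ∈ D, e.GoodIt it) (hP : e.Part b1 b2 b3 D []) (hB : e.Bas b1 b2 b3 D) :
    ∀ t y, e.RU3 D t → e.par.WfC (6 * e.par.lam) t → e.R2 D y → e.par.Wf 2 y →
    ¬ e.par.ex2 (t.N₁ ∩ y.N₁) → e.par.ldE t y + 2 * e.par.lam < e.par.wt y.A t.A →
    e.RU4 D (e.par.chn t y) := by
  intro t y ht hwt hy hwy hex hv
  obtain ⟨w', hw'⟩ := hy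
  obtain ⟨-, okP, hal⟩ := gd_r2 e h _ _ (hG _ hw')
  have hl1 := wt_le_root e y t
  have e1 : e.par.ldE t y = t.ld + y.ld + e.tau * (t.N₁ ∩ y.N₁).card := rfl
  have e2 : e.par.lam = e.lam := rfl
  have e3 : e.t2u = 8 * e.lam := rfl
  have e5 : 6 * e.lam ≤ t.ld := hwt.2
  have hw8 : e.t2u < w' := by omega
  obtain ⟨w, hw⟩ := ht
  obtain ⟨okQ, -, -⟩ := gd_c e h _ _ (Or.inr (Or.inr (Or.inl (hG _ hw))))
  exact ⟨_, ed5_ch e h D t y okQ okP It.u4 e.th2 hex (by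
    have : e.th2 = 2 * e.lam := rfl
    omega) (hP.u3 _ _ _ _ _ hw hw' hw8)⟩

end Pool.Agent.MP_528dc0_co

end

section

open Finset

namespace Pool.Agent.MP_528dc0_co

open Eng (Lst It)

theorem ed6_bad (e : EP) (D : List It) (hG : ∀ it ∈ D, e.GoodIt it) : It.bad ∉ D := fun h => hG _ h

theorem ed6_okT (e : EP) (h : e.Ok) (D : List It) (hG : ∀ it ∈ D, e.GoodIt it) (t : AS e.K) (w : ℕ)
    (ht : It.t2 (e.enc (e.aQ t)) w ∈ D) : e.OkD (e.aQ t) ∧ e.par.aw t.A ≤ w + t.ld := by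
  have h1 := gd_c e h t w (Or.inl (hG _ ht))
  exact ⟨h1.1, by rw [aw_eq]; exact h1.2.2⟩

theorem ed6_okU (e : EP) (h : e.Ok) (D : List It) (hG : ∀ it ∈ D, e.GoodIt it) (t : AS e.K) (w : ℕ)
    (ht : It.u4 (e.enc (e.aQ t)) w ∈ D) : e.OkD (e.aQ t) ∧ e.par.aw t.A ≤ w + t.ld := by
  have h1 := gd_c e h t w (Or.inr (Or.inr (Or.inr (Or.inl (hG _ ht)))))
  exact ⟨h1.1, by rw [aw_eq]; exact h1.2.2⟩

/-- closing at a base state -/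
theorem ed6_c0 (e : EP) (h : e.Ok) (D : List It) (hG : ∀ it ∈ D, e.GoodIt it) (k3 : ℕ) (hk : k3 ≤ 1)
    (x t : AS e.K) (hx : e.OkD (e.aP x)) (ht : e.OkD (e.aQ t))
    (hit : ∀ it ∈ e.close0 k3 (e.enc (e.aP x)) (e.enc (e.aQ t)) [], it ∈ D ∨ it ∈ ([] : List It))
    (h1 : ¬ e.par.ex2 (x.N₁ ∩ t.N₁)) (h2 : ¬ e.par.ex2 (x.N₁ ∩ t.N₂))
    (h3 : k3 = 1 → ¬ e.par.ex3 (x.N₁ ∩ t.N₁ ∩ t.N₂)) :
    e.par.wt x.A t.A ≤ e.par.ldC x t := by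
  rw [close0_spec e h k3 hk (e.aP x) (e.aQ t) hx ht []] at hit
  rw [wt_PQ, ldC_eq]
  by_contra hcon
  have hc : ¬ ((e.par.ex2 ((e.aP x).N₁ ∩ (e.aQ t).N₁) ∨ e.par.ex2 ((e.aP x).N₁ ∩ (e.aQ t).N₂) ∨
        (k3 = 1 ∧ e.par.ex3 ((e.aP x).N₁ ∩ (e.aQ t).N₁ ∩ (e.aQ t).N₂))) ∨
        e.wtD (e.aP x) (e.aQ t) ≤ e.dC (e.aP x) (e.aQ t)) := by
    rintro ((h4 | h4 | ⟨h4, h5⟩) | h4)
    · exact h1 h4
    · exact h2 h4
    · exact h3 h4 h5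
    · exact hcon h4
  rw [if_neg hc] at hit
  rcases hit It.bad (List.mem_cons_self ..) with h6 | h6
  · exact ed6_bad e D hG h6
  · simp at h6

/-- closing at a root of rank 3 -/
theorem ed6_c1 (e : EP) (h : e.Ok) (D : List It) (k3 : ℕ) (hk : k3 ≤ 1)
    (x t : AS e.K) (hx : e.OkD (e.aP x)) (ht : e.OkD (e.aQ t))
    (hit : ∀ it ∈ e.close1 k3 (e.enc (e.aP x)) (e.enc (e.aQ t)) [], it ∈ D ∨ it ∈ ([] : List It))
    (hN : x.N₁ = x.N₂) (hxc : ∀ k, x.A k = ∅ ∨ (x.A k).card = 3)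
    (htc : ∀ k, t.A k = ∅ ∨ (t.A k).card = 2)
    (h1 : ¬ e.par.ex2 (x.N₁ ∩ t.N₁)) (h2 : ¬ e.par.ex2 (x.N₁ ∩ t.N₂))
    (h3 : k3 = 1 → ¬ e.par.ex3 (x.N₁ ∩ t.N₁ ∩ t.N₂))
    (h4 : e.par.ldC x t + e.par.c1 < e.par.wt x.A t.A) : e.R1 D (e.par.cls x t) := by
  rw [close1_spec e h k3 hk (e.aP x) (e.aQ t) hx ht []] at hit
  rw [wt_PQ, ldC_eq, par_c1] at h4
  have hc : ¬ ((e.par.ex2 ((e.aP x).N₁ ∩ (e.aQ t).N₁) ∨ e.par.ex2 ((e.aP x).N₁ ∩ (e.aQ t).N₂) ∨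
        (k3 = 1 ∧ e.par.ex3 ((e.aP x).N₁ ∩ (e.aQ t).N₁ ∩ (e.aQ t).N₂))) ∨
        e.wtD (e.aP x) (e.aQ t) ≤ e.dC (e.aP x) (e.aQ t) + e.c1) := by
    rintro ((h5 | h5 | ⟨h5, h6⟩) | h5)
    · exact h1 h5
    · exact h2 h5
    · exact h3 h5 h6
    · omega
  rw [if_neg hc] at hit
  have h7 := hit _ (List.mem_cons_self ..)
  rw [clsQ_eq e x t hN hxc htc _ (ldC_eq e x t).symm] at h7
  rcases h7 with h7 | h7
  · exact ⟨_, h7⟩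
  · simp at h7

/-- As in ED4, with `close0_spec`, `close1_spec` (`k3 = 1` for `RT`, `k3 = 0` for `RU4`), `clsQ_eq`, `trivP_eq`, `trivQ_eq`,
`trvP_eq'`, `trvQ_eq'`. -/
theorem cl_tc0 (e : EP) (h : e.Ok) (b1 b2 : List (ℕ × ℕ)) (b3 : List ℕ) (D : List It)
    (hG : ∀ it ∈ D, e.GoodIt it) (hP : e.Part b1 b2 b3 D []) (hB : e.Bas b1 b2 b3 D) :
    ∀ N ⊆ e.par.Lab, N.card = 2 → ¬ e.par.ex1 N →
    2 * e.par.lam + e.par.tau * eH e.par.H N + e.par.c2 < e.par.bw N →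
    ∀ t, e.RT D t → e.par.WfC (4 * e.par.lam + e.par.tau) t → ¬ e.par.ex2 (N ∩ t.N₁) →
    ¬ e.par.ex2 (N ∩ t.N₂) → ¬ e.par.ex3 (N ∩ t.N₁ ∩ t.N₂) →
    e.par.wt (e.par.bs N).A t.A ≤ e.par.ldC (e.par.bs N) t := by
  intro N hN hc h1 hw t ht htw h2 h3 h4
  have hb := hB.b2 N hN hc h1 hw
  generalize hxb : (e.par.bs N : AS e.K) = x at hb
  have hN1 : x.N₁ = N := by rw [← hxb]; rfl
  obtain ⟨hb, w, hw2⟩ := hb
  obtain ⟨w', ht'⟩ := ht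
  have hx := (gd_r2 e h x w (hG _ hw2)).2.1
  have ht2 := (ed6_okT e h D hG t w' ht').1
  have h5 := hP.tc0 _ w' ht' _ hb
  dsimp only at h5
  have h6 : e.par.wt x.A t.A ≤ e.par.ldC x t := by
    refine ed6_c0 e h D hG 1 le_rfl x t hx ht2 h5 ?_ ?_ ?_
    · rw [hN1]; exact h2
    · rw [hN1]; exact h3
    · intro _; rw [hN1]; exact h4
  exact h6
theorem cl_uc0 (e : EP) (h : e.Ok) (b1 b2 : List (ℕ × ℕ)) (b3 : List ℕ) (D : List It)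
    (hG : ∀ it ∈ D, e.GoodIt it) (hP : e.Part b1 b2 b3 D []) (hB : e.Bas b1 b2 b3 D) :
    ∀ N ⊆ e.par.Lab, N.card = 2 → ¬ e.par.ex1 N →
    2 * e.par.lam + e.par.tau * eH e.par.H N + e.par.c2 < e.par.bw N →
    ∀ t, e.RU4 D t → e.par.WfC (8 * e.par.lam) t → ¬ e.par.ex2 (N ∩ t.N₁) →
    ¬ e.par.ex2 (N ∩ t.N₂) → e.par.wt (e.par.bs N).A t.A ≤ e.par.ldC (e.par.bs N) t := by
  intro N hN hc h1 hw t ht htw h2 h3
  have hb := hB.b2 N hN hc h1 hw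
  generalize hxb : (e.par.bs N : AS e.K) = x at hb
  have hN1 : x.N₁ = N := by rw [← hxb]; rfl
  obtain ⟨hb, w, hw2⟩ := hb
  obtain ⟨w', ht'⟩ := ht
  have hx := (gd_r2 e h x w (hG _ hw2)).2.1
  have ht2 := (ed6_okU e h D hG t w' ht').1
  have h5 := hP.uc0 _ w' ht' _ hb
  dsimp only at h5
  have h6 : e.par.wt x.A t.A ≤ e.par.ldC x t := by
    refine ed6_c0 e h D hG 0 (Nat.zero_le _) x t hx ht2 h5 ?_ ?_ ?_
    · rw [hN1]; exact h2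
    · rw [hN1]; exact h3
    · intro h4; exact absurd h4 (by norm_num)
  exact h6
theorem cl_tc1 (e : EP) (h : e.Ok) (b1 b2 : List (ℕ × ℕ)) (b3 : List ℕ) (D : List It)
    (hG : ∀ it ∈ D, e.GoodIt it) (hP : e.Part b1 b2 b3 D []) (hB : e.Bas b1 b2 b3 D) :
    ∀ x t, e.R3 D x → e.par.Wf 3 x → e.RT D t → e.par.WfC (4 * e.par.lam + e.par.tau) t →
    ¬ e.par.ex2 (x.N₁ ∩ t.N₁) → ¬ e.par.ex2 (x.N₁ ∩ t.N₂) → ¬ e.par.ex3 (x.N₁ ∩ t.N₁ ∩ t.N₂) →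
    e.par.ldC x t + e.par.c1 < e.par.wt x.A t.A → e.R1 D (e.par.cls x t) := by
  intro x t hx hxw ht htw h1 h2 h3 h4
  obtain ⟨w, hw⟩ := hx
  obtain ⟨w', ht'⟩ := ht
  exact ed6_c1 e h D 1 le_rfl x t (gd_r3 e h x w (hG _ hw)).2.1 (ed6_okT e h D hG t w' ht').1
    (hP.tc1 _ _ w _ w' hw ht') hxw.2.2 hxw.1 htw.1 h1 h2 (fun _ => h3) h4
theorem cl_uc1 (e : EP) (h : e.Ok) (b1 b2 : List (ℕ × ℕ)) (b3 : List ℕ) (D : List It)
    (hG : ∀ it ∈ D, e.GoodIt it) (hP : e.Part b1 b2 b3 D []) (hB : e.Bas b1 b2 b3 D) :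
    ∀ x t, e.R3 D x → e.par.Wf 3 x → e.RU4 D t → e.par.WfC (8 * e.par.lam) t →
    ¬ e.par.ex2 (x.N₁ ∩ t.N₁) → ¬ e.par.ex2 (x.N₁ ∩ t.N₂) →
    e.par.ldC x t + e.par.c1 < e.par.wt x.A t.A → e.R1 D (e.par.cls x t) := by
  intro x t hx hxw ht htw h1 h2 h4
  obtain ⟨w, hw⟩ := hx
  obtain ⟨w', ht'⟩ := ht
  exact ed6_c1 e h D 0 (Nat.zero_le _) x t (gd_r3 e h x w (hG _ hw)).2.1
    (ed6_okU e h D hG t w' ht').1 (hP.uc1 _ _ w _ w' hw ht') hxw.2.2 hxw.1 htw.1 h1 h2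
    (fun h5 => absurd h5 (by norm_num)) h4
theorem cl_tc2 (e : EP) (h : e.Ok) (b1 b2 : List (ℕ × ℕ)) (b3 : List ℕ) (D : List It)
    (hG : ∀ it ∈ D, e.GoodIt it) (hP : e.Part b1 b2 b3 D []) (hB : e.Bas b1 b2 b3 D) :
    ∀ t, e.RT D t → e.par.WfC (4 * e.par.lam + e.par.tau) t → t.ld + e.par.c2 < e.par.aw t.A →
    e.R2 D (e.par.trv t.A t.ld) := by
  intro t ht htw h1
  obtain ⟨w, hw⟩ := ht
  obtain ⟨hok, haw⟩ := ed6_okT e h D hG t w hw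
  rw [par_c2] at h1
  have h2 := hP.tc2 _ w hw (by omega)
  rw [trivP_eq e h _ hok, trivQ_eq e h _ hok, trvP_eq', trvQ_eq'] at h2
  rcases h2 with h2 | h2
  · exact ⟨w, h2⟩
  · simp at h2
theorem cl_uc2 (e : EP) (h : e.Ok) (b1 b2 : List (ℕ × ℕ)) (b3 : List ℕ) (D : List It)
    (hG : ∀ it ∈ D, e.GoodIt it) (hP : e.Part b1 b2 b3 D []) (hB : e.Bas b1 b2 b3 D) :
    ∀ t, e.RU4 D t → e.par.WfC (8 * e.par.lam) t → t.ld + e.par.c2 < e.par.aw t.A →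
    e.R2 D (e.par.trv t.A t.ld) := by
  intro t ht htw h1
  obtain ⟨w, hw⟩ := ht
  obtain ⟨hok, haw⟩ := ed6_okU e h D hG t w hw
  rw [par_c2] at h1
  have h2 := hP.uc2 _ w hw (by omega)
  rw [trivP_eq e h _ hok, trivQ_eq e h _ hok, trvP_eq', trvQ_eq'] at h2
  rcases h2 with h2 | h2
  · exact ⟨w, h2⟩
  · simp at h2

end Pool.Agent.MP_528dc0_co

end

section

open Finset

namespace Pool.Agent.MP_528dc0_co

open Eng (Lst It)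

theorem ed7_kf (e : EP) (hk : e.par.kf = false) : e.kf ≠ 1 :=
  of_decide_eq_false hk
theorem ed7_ldE (e : EP) (x y : AS e.K) : e.par.ldE x y = e.par.ldE y x := by
  unfold Par.ldE
  rw [Finset.inter_comm]
  omega

/-- `P.kf = false` gives `e.kf ≠ 1`. `Part.v2` gives one of two calls of `pairV` (`pairV_spec`; `pairQ_eq` with `r = 3`);
`triV_spec` with `tri3_eq`, `tri3_ld`; `v0s_mem`, `v0_spec`, `ldV_eq`; an item `bad` is impossible. -/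
theorem cl_v2 (e : EP) (h : e.Ok) (b1 b2 : List (ℕ × ℕ)) (b3 : List ℕ) (D : List It)
    (hG : ∀ it ∈ D, e.GoodIt it) (hP : e.Part b1 b2 b3 D []) (hB : e.Bas b1 b2 b3 D) :
    e.par.kf = false → ∀ x y, e.R3 D x → e.par.Wf 3 x → e.R3 D y → e.par.Wf 3 y →
    e.par.ldE x y + 2 * e.par.lam + 4 * e.par.tau < e.par.wt x.A y.A →
    e.RV2 D (e.par.chn x y) ∨ e.RV2 D (e.par.chn y x) := by
  intro hk x y hRx hWx hRy hWy hlt
  obtain ⟨w, hx⟩ := hRx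
  obtain ⟨w', hy⟩ := hRy
  obtain ⟨hxQ, hxP, _⟩ := gd_r3 e h x w (hG _ hx)
  obtain ⟨hyQ, hyP, _⟩ := gd_r3 e h y w' (hG _ hy)
  have hth : e.thV = 2 * e.par.lam + 4 * e.par.tau := rfl
  rcases hP.v2 (ed7_kf e hk) _ _ _ _ _ _ hx hy with hl | hr
  · left
    have hs := pairV_spec e h (e.aP x) (e.aQ y) hxP hyQ []
    rw [if_neg] at hs
    · have hm : It.v2 (e.enc (e.mkK (e.aQ y) (e.aP x) (e.aQ y).N₁ (e.aP x).N₂
          (e.dE (e.aP x) (e.aQ y)))) (e.wtD (e.aP x) (e.aQ y) - e.dE (e.aP x) (e.aQ y)) ∈ D := by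
        rcases hl _ (by rw [hs]; exact List.mem_cons_self) with h1 | h1
        · exact h1
        · exact absurd h1 List.not_mem_nil
      rw [pairQ_eq e 3 x y hWx.1 hWy.1 _ (ldE_eq e x y).symm] at hm
      exact ⟨_, hm⟩
    · rw [← wt_PQ, ← ldE_eq, hth]
      omega
  · right
    have hs := pairV_spec e h (e.aP y) (e.aQ x) hyP hxQ []
    rw [if_neg] at hs
    · have hm : It.v2 (e.enc (e.mkK (e.aQ x) (e.aP y) (e.aQ x).N₁ (e.aP y).N₂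
          (e.dE (e.aP y) (e.aQ x)))) (e.wtD (e.aP y) (e.aQ x) - e.dE (e.aP y) (e.aQ x)) ∈ D := by
        rcases hr _ (by rw [hs]; exact List.mem_cons_self) with h1 | h1
        · exact h1
        · exact absurd h1 List.not_mem_nil
      rw [pairQ_eq e 3 y x hWy.1 hWx.1 _ (ldE_eq e y x).symm] at hm
      exact ⟨_, hm⟩
    · rw [← wt_PQ, ← ldE_eq, hth, ed7_ldE e y x, wt_comm e 3 y x hWy.1 hWx.1]
      omega
theorem cl_v3 (e : EP) (h : e.Ok) (b1 b2 : List (ℕ × ℕ)) (b3 : List ℕ) (D : List It)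
    (hG : ∀ it ∈ D, e.GoodIt it) (hP : e.Part b1 b2 b3 D []) (hB : e.Bas b1 b2 b3 D) :
    e.par.kf = false → ∀ v y, e.RV2 D v → e.par.WfV v → e.R3 D y → e.par.Wf 3 y →
    v.ld + y.ld + e.par.tau * (y.N₁ ∩ v.N₁).card + e.par.tau * (y.N₁ ∩ v.N₂).card +
      4 * e.par.tau + e.par.lam < e.par.wt y.A v.A → e.RV3 D (e.par.tri3 v y) := by
  intro hk v y hRv hWv hRy hWy hlt
  obtain ⟨w, hv⟩ := hRv
  obtain ⟨w', hy⟩ := hRy
  obtain ⟨hvQ, hvP, _⟩ := gd_c e h v w (Or.inr (Or.inr (Or.inr (Or.inr (Or.inl (hG _ hv))))))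
  obtain ⟨hyQ, hyP, _⟩ := gd_r3 e h y w' (hG _ hy)
  have h3 := hP.v3 (ed7_kf e hk) _ _ _ _ _ hv hy
  have hs := triV_spec e h (e.aQ v) (e.aP y) hvQ hyP []
  rw [if_neg] at hs
  · have hm : It.v3 (e.enc (e.mkK (e.aQ v) (e.aP y) (e.aQ v).N₁ (e.aQ v).N₂
        (e.dC (e.aP y) (e.aQ v) + 4 * e.tau))) (msk (e.aP y).N₁)
        (e.wtD (e.aQ v) (e.aP y) - (e.dC (e.aP y) (e.aQ v) + 4 * e.tau)) ∈ D := by
      rcases h3 _ (by rw [hs]; exact List.mem_cons_self) with h1 | h1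
      · exact h1
      · exact absurd h1 List.not_mem_nil
    rw [tri3_eq e v y _ rfl] at hm
    exact ⟨_, hm⟩
  · rw [← wt_QP]
    have hd : e.dC (e.aP y) (e.aQ v) + 4 * e.tau + e.lam = v.ld + y.ld +
        e.par.tau * (y.N₁ ∩ v.N₁).card + e.par.tau * (y.N₁ ∩ v.N₂).card +
        4 * e.par.tau + e.par.lam := by
      show y.ld + v.ld + e.tau * (y.N₁ ∩ v.N₁).card + e.tau * (y.N₁ ∩ v.N₂).card + 4 * e.tau +
        e.lam = v.ld + y.ld + e.tau * (y.N₁ ∩ v.N₁).card + e.tau * (y.N₁ ∩ v.N₂).card +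
        4 * e.tau + e.lam
      omega
    rw [hd]
    exact not_le.2 hlt
theorem cl_vc0 (e : EP) (h : e.Ok) (b1 b2 : List (ℕ × ℕ)) (b3 : List ℕ) (D : List It)
    (hG : ∀ it ∈ D, e.GoodIt it) (hP : e.Part b1 b2 b3 D []) (hB : e.Bas b1 b2 b3 D) :
    e.par.kf = false → ∀ N ⊆ e.par.Lab, N.card = 1 →
    e.par.lam + e.par.tau * eH e.par.H N + e.par.c3 < e.par.bw N →
    ∀ v, e.RV3 D v → e.par.Wf3 v → N ∩ v.N₁ ∩ v.N₂ ∩ v.N₃ = ∅ →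
    e.par.wt (e.par.bs N).A v.A ≤ e.par.ldV (e.par.bs N) v := by
  intro hk N hN hc hbw v hRv hWv hE
  have hx1 : ¬ e.par.ex1 N := by
    rintro ⟨f, hf, hfc, _⟩
    have := Finset.card_le_card hf
    rw [hfc, hk, hc] at this
    norm_num at this
  obtain ⟨hb, wb, hxb⟩ := hB.b3 N hN hc hx1 hbw
  obtain ⟨_, hxP, _⟩ := gd_r3 e h (e.par.bs N) wb (hG _ hxb)
  obtain ⟨w, hv⟩ := hRv
  obtain ⟨hvQ, _, _⟩ := gd_c e h (e.prj v) w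
    (Or.inr (Or.inr (Or.inr (Or.inr (Or.inr ⟨_, hG _ hv⟩)))))
  by_contra hcon
  have hs := v0_spec e h (e.aP (e.par.bs N)) (e.aQ (e.prj v)) v.N₃ hxP hvQ []
  rw [if_pos] at hs
  · have hmem : It.bad ∈ e.v0s b3 (e.enc (e.aQ (e.prj v))) (msk v.N₃) w [] := by
      rw [v0s_mem]
      right; right
      exact ⟨_, hb, by rw [hs]; exact List.mem_cons_self⟩
    rcases hP.vc _ _ _ hv _ hmem with h1 | h1
    · exact hG _ h1
    · exact List.not_mem_nil h1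
  · refine ⟨hE, ?_⟩
    have h1 := ldV_eq e (e.par.bs N) v
    have h2 := wt_PQ e (e.par.bs N) (e.prj v)
    rw [← h2]
    have h3 : e.dC (e.aP (e.par.bs N)) (e.aQ (e.prj v)) +
        e.tau * ((e.aP (e.par.bs N)).N₁ ∩ v.N₃).card = e.par.ldV (e.par.bs N) v := h1.symm
    rw [h3]
    exact not_le.1 hcon
theorem cl_vc1 (e : EP) (h : e.Ok) (b1 b2 : List (ℕ × ℕ)) (b3 : List ℕ) (D : List It)
    (hG : ∀ it ∈ D, e.GoodIt it) (hP : e.Part b1 b2 b3 D []) (hB : e.Bas b1 b2 b3 D) :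
    e.par.kf = false → ∀ v, e.RV3 D v → e.par.Wf3 v → v.ld + e.par.c1 < e.par.aw v.A →
    e.R1 D (e.par.trv v.A v.ld) := by
  intro hk v hRv hWv hlt
  obtain ⟨w, hv⟩ := hRv
  obtain ⟨hvQ, _, hle⟩ := gd_c e h (e.prj v) w
    (Or.inr (Or.inr (Or.inr (Or.inr (Or.inr ⟨_, hG _ hv⟩)))))
  have ha : e.par.aw v.A = e.alvQ (e.aQ (e.prj v)) := aw_eq e (e.prj v)
  have hl : (e.prj v).ld = v.ld := rfl
  rw [par_c1, ha] at hlt
  rw [hl] at hle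
  have hw : e.c1 < w := by omega
  have hmem : It.r1 (e.trivQ (e.enc (e.aQ (e.prj v)))) w ∈
      e.v0s b3 (e.enc (e.aQ (e.prj v))) (msk v.N₃) w [] := by
    rw [v0s_mem]
    right; left
    exact ⟨hw, rfl⟩
  rcases hP.vc _ _ _ hv _ hmem with h1 | h1
  · rw [trivQ_eq e h _ hvQ, trvQ_eq'] at h1
    exact ⟨w, h1⟩
  · exact absurd h1 List.not_mem_nil

end Pool.Agent.MP_528dc0_co

end

section

open Finset

namespace Pool.Agent.MP_528dc0_co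

open Eng (Lst It)

/-- Constructor of `Par.Closed`: `z4`, `b1`, `b2`, `b3` from `hB` (`Bas`), the others are `cl_e0`, …, `cl_vc1`. -/
theorem closed_of (e : EP) (h : e.Ok) (b1 b2 : List (ℕ × ℕ)) (b3 : List ℕ) (D : List It)
    (hG : ∀ it ∈ D, e.GoodIt it) (hP : e.Part b1 b2 b3 D []) (hB : e.Bas b1 b2 b3 D) :
    e.par.Closed (e.R1 D) (e.R2 D) (e.R3 D) (e.RT D) (e.RU2 D) (e.RU3 D) (e.RU4 D) (e.RV2 D)
      (e.RV3 D) := by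
  exact
    { z4 := hB.z4
      b1 := fun N h1 h2 h3 h4 => (hB.b1 N h1 h2 h3 h4).2
      b2 := fun N h1 h2 h3 h4 => (hB.b2 N h1 h2 h3 h4).2
      b3 := fun N h1 h2 h3 h4 => (hB.b3 N h1 h2 h3 h4).2
      e0 := cl_e0 e h b1 b2 b3 D hG hP hB
      e1 := cl_e1 e h b1 b2 b3 D hG hP hB
      e2 := cl_e2 e h b1 b2 b3 D hG hP hB
      e3 := cl_e3 e h b1 b2 b3 D hG hP hB
      t2 := cl_t2 e h b1 b2 b3 D hG hP hB
      u2 := cl_u2 e h b1 b2 b3 D hG hP hB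
      u3 := cl_u3 e h b1 b2 b3 D hG hP hB
      u4 := cl_u4 e h b1 b2 b3 D hG hP hB
      tc0 := cl_tc0 e h b1 b2 b3 D hG hP hB
      uc0 := cl_uc0 e h b1 b2 b3 D hG hP hB
      tc1 := cl_tc1 e h b1 b2 b3 D hG hP hB
      uc1 := cl_uc1 e h b1 b2 b3 D hG hP hB
      tc2 := cl_tc2 e h b1 b2 b3 D hG hP hB
      uc2 := cl_uc2 e h b1 b2 b3 D hG hP hB
      v2 := cl_v2 e h b1 b2 b3 D hG hP hB
      v3 := cl_v3 e h b1 b2 b3 D hG hP hB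
      vc0 := cl_vc0 e h b1 b2 b3 D hG hP hB
      vc1 := cl_vc1 e h b1 b2 b3 D hG hP hB }

end Pool.Agent.MP_528dc0_co

end
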