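import Mathlib
import Pool.Agent.MP_528dc0_co.Enc

/-!
# The engine: constants and start values
-/

section

open Finset

namespace Pool.Agent.MP_528dc0_co

open Eng (Lst It)

/-- neighbours of `v` -/
def nbs (h : ℕ) (v : Fin 8) : Finset (Fin 8) := univ.filter (fun u => Eng.adjn h u.val v.val = 1)

/-- the digit of the label `v`: its colour -/
noncomputable def EP.yc (e : EP) (v : Fin 8) (j : ℕ) : ℕ :=
  if hj : j < e.K then 2 ^ (e.φ ⟨j, hj⟩ v).val else 0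

private theorem ee1_nf (e : EP) (c l : ℕ → ℕ) (t : ℕ) :
    e.nf c l t = oc e.s c e.K + 2 ^ (e.s * e.K) * oc e.s l 8 + 2 ^ (e.s * (e.K + 8)) * t := by
  unfold EP.nf
  rw [oc_split]
  have h1 : oc e.s (fun j => if j < e.K then c j else l (j - e.K)) e.K = oc e.s c e.K :=
    oc_congr _ _ _ _ fun j hj => if_pos hj
  have h2 : oc e.s (fun j => (fun j => if j < e.K then c j else l (j - e.K)) (e.K + j)) 8 =
      oc e.s l 8 := by
    refine oc_congr _ _ _ _ fun j hj => ?_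
    show (if e.K + j < e.K then c (e.K + j) else l (e.K + j - e.K)) = l j
    rw [if_neg (by omega), Nat.add_sub_cancel_left]
  rw [h1, h2]

private theorem ee1_rec (s v : ℕ) (l : List ℕ) :
    (List.rec (motive := fun _ => Nat) 0 (fun c _ ih => Nat.add (Nat.shiftLeft 1 (Nat.land
      (Nat.shiftRight c (Nat.mul 2 v)) 3)) (Nat.shiftLeft ih s)) l : ℕ) =
    oc s (fun j => 2 ^ (((l.getD j 0) >>> (2 * v)) % 4)) l.length := by
  induction l with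
  | nil => rfl
  | cons c l ih =>
    rw [List.length_cons, ea1_succ]
    show (1 <<< ((c >>> (2 * v)) &&& 3)) + (_ <<< s) = _
    rw [ih, Nat.shiftLeft_eq, Nat.shiftLeft_eq, one_mul,
      show (c >>> (2 * v)) &&& 3 = (c >>> (2 * v)) % 4 from Nat.and_two_pow_sub_one_eq_mod _ 2,
      mul_comm (oc s _ _)]
    rfl

private theorem ee1_yc_lt (e : EP) (h : e.Ok) (v : Fin 8) (j : ℕ) : e.yc v j < 2 ^ e.s := by
  have h1 := ea5_pow e h
  unfold EP.yc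
  split_ifs with hj
  · have h2 := (e.φ ⟨j, hj⟩ v).2
    have h3 : 2 ^ (e.φ ⟨j, hj⟩ v).val ≤ 2 ^ 3 := Nat.pow_le_pow_right (by norm_num) (by omega)
    omega
  · omega

/-- `Eng.yv`: recursion over the codes; the first code is in the lowest lane. `land _ 3 = _ % 4`. `row_eq`. -/
theorem yv_eq (e : EP) (h : e.Ok) (v : Fin 8) :
    e.yv v.val = e.nf (e.yc v) (fun j => if j = v.val then 3 else 0)
      (msk (nbs e.h v) + 2 ^ 8 * 2 ^ v.val + 2 ^ 16 * e.lam) := by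
  have hsJ : e.sJ = e.s * (e.K + 8) := rfl
  have hl0 : e.l0 = e.sJ + 16 := rfl
  have h1 : e.yv v.val = ((List.rec (motive := fun _ => Nat) 0 (fun c _ ih => Nat.add
      (Nat.shiftLeft 1 (Nat.land (Nat.shiftRight c (Nat.mul 2 v.val)) 3)) (Nat.shiftLeft ih e.s)) e.codes : ℕ) +
      3 <<< (e.s * (e.K + v.val))) + ((Eng.row e.h v.val + 1 <<< (v.val + 8)) <<< e.sJ + e.lam <<< e.l0) := rfl
  have h2 : oc e.s (e.yc v) e.K =
      oc e.s (fun j => 2 ^ (((e.codes.getD j 0) >>> (2 * v.val)) % 4)) e.codes.length := by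
    rw [← K_eq]
    refine oc_congr _ _ _ _ fun j hj => ?_
    unfold EP.yc
    rw [dif_pos hj]
    rfl
  have h3 : oc e.s (fun j => if j = v.val then 3 else 0) 8 = 3 * 2 ^ (e.s * v.val) := by
    unfold oc
    rw [Finset.sum_eq_single v.val]
    · show (if v.val = v.val then 3 else 0) * 2 ^ (e.s * v.val) = _
      rw [if_pos rfl]
    · intro j _ hj
      show (if j = v.val then 3 else 0) * 2 ^ (e.s * j) = _
      rw [if_neg hj, zero_mul]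
    · intro hv
      exact absurd (Finset.mem_range.2 v.2) hv
  have h4 : Eng.row e.h v.val = msk (nbs e.h v) := row_eq e.h v
  rw [h1, ee1_rec, ee1_nf, h2, h3, h4, hl0, hsJ, Nat.shiftLeft_eq, Nat.shiftLeft_eq, Nat.shiftLeft_eq,
    Nat.shiftLeft_eq, Nat.mul_add e.s e.K v.val]
  simp only [pow_add]
  ring

private theorem ee1_mem (hm : ℕ) (v u : Fin 8) : u ∈ nbs hm v ↔ (mkH hm).Adj u v := by
  unfold nbs
  rw [Finset.mem_filter]
  exact ⟨fun h => h.2, fun h => ⟨Finset.mem_univ _, h⟩⟩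

theorem eH_insert (hm : ℕ) (N : Finset (Fin 8)) (v : Fin 8) (hv : v ∉ N) :
    eH (mkH hm) (insert v N) = eH (mkH hm) N + (N ∩ nbs hm v).card := by
  classical
  unfold eH
  rw [Finset.powersetCard_succ_insert hv, Finset.filter_union, Finset.card_union_of_disjoint]
  · congr 1
    symm
    refine Finset.card_bij (fun u _ => ({v, u} : Finset (Fin 8))) ?_ ?_ ?_
    · intro u hu
      rw [Finset.mem_inter, ee1_mem] at hu
      rw [Finset.mem_filter, Finset.mem_image]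
      refine ⟨⟨{u}, ?_, rfl⟩, ?_⟩
      · rw [Finset.mem_powersetCard]
        exact ⟨Finset.singleton_subset_iff.2 hu.1, Finset.card_singleton u⟩
      · rw [Finset.coe_pair]
        intro x hx y hy hxy
        rw [Set.mem_insert_iff, Set.mem_singleton_iff] at hx hy
        rcases hx with rfl | rfl <;> rcases hy with rfl | rfl
        · exact absurd rfl hxy
        · exact hu.2.symm
        · exact hu.2
        · exact absurd rfl hxy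
    · intro u hu u' hu' huu
      rw [Finset.mem_inter] at hu hu'
      have h1 : u ∈ ({v, u'} : Finset (Fin 8)) := huu ▸ (by simp)
      rw [Finset.mem_insert, Finset.mem_singleton] at h1
      rcases h1 with rfl | h1
      · exact absurd hu.1 hv
      · exact h1
    · intro t ht
      rw [Finset.mem_filter, Finset.mem_image] at ht
      obtain ⟨⟨w, hw, rfl⟩, hcl⟩ := ht
      rw [Finset.mem_powersetCard, Finset.card_eq_one] at hw
      obtain ⟨hw, u, rfl⟩ := hw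
      have hu : u ∈ N := Finset.singleton_subset_iff.1 hw
      have hne : u ≠ v := by
        rintro rfl
        exact hv hu
      refine ⟨u, ?_, rfl⟩
      rw [Finset.mem_inter, ee1_mem]
      refine ⟨hu, hcl ?_ ?_ hne⟩
      · simp
      · simp
  · rw [Finset.disjoint_left]
    intro t ht ht'
    rw [Finset.mem_filter, Finset.mem_powersetCard] at ht
    rw [Finset.mem_filter, Finset.mem_image] at ht'
    obtain ⟨⟨w, -, rfl⟩, -⟩ := ht'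
    exact hv (ht.1.1 (Finset.mem_insert_self v w))

/-- a clique of size `q + 1` in `insert v N` either lies in `N` or contains `v` and a clique of size `q` of neighbours -/
theorem hasC_insert (hm q : ℕ) (N : Finset (Fin 8)) (v : Fin 8) (hv : v ∉ N) :
    HasC (mkH hm) (q + 1) (insert v N) ↔
      HasC (mkH hm) (q + 1) N ∨ HasC (mkH hm) q (N ∩ nbs hm v) := by
  classical
  constructor
  · rintro ⟨t, ht, hc, hcl⟩
    by_cases hvt : v ∈ t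
    · right
      refine ⟨t.erase v, ?_, ?_, ?_⟩
      · intro u hu
        rw [Finset.mem_erase] at hu
        rw [Finset.mem_inter, ee1_mem]
        refine ⟨(Finset.mem_insert.1 (ht hu.2)).resolve_left hu.1, hcl hu.2 hvt hu.1⟩
      · rw [Finset.card_erase_of_mem hvt, hc, Nat.add_sub_cancel]
      · exact hcl.subset (Finset.coe_subset.2 (Finset.erase_subset v t))
    · left
      refine ⟨t, ?_, hc, hcl⟩
      intro u hu
      refine (Finset.mem_insert.1 (ht hu)).resolve_left ?_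
      rintro rfl
      exact hvt hu
  · rintro (⟨t, ht, hc, hcl⟩ | ⟨t, ht, hc, hcl⟩)
    · exact ⟨t, ht.trans (Finset.subset_insert v N), hc, hcl⟩
    · have hvt : v ∉ t := fun h => hv (Finset.mem_inter.1 (ht h)).1
      refine ⟨insert v t, ?_, ?_, ?_⟩
      · exact Finset.insert_subset_insert v (ht.trans Finset.inter_subset_left)
      · rw [Finset.card_insert_of_notMem hvt, hc]
      · rw [Finset.coe_insert]
        intro x hx y hy hxy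
        rw [Set.mem_insert_iff] at hx hy
        rcases hx with rfl | hx <;> rcases hy with rfl | hy
        · exact absurd rfl hxy
        · exact (((ee1_mem hm _ _).1 (Finset.mem_inter.1 (ht hy)).2)).symm
        · exact (ee1_mem hm _ _).1 (Finset.mem_inter.1 (ht hx)).2
        · exact hcl hx hy hxy

/-- the label masks -/
theorem yv_sh (e : EP) (h : e.Ok) (a : AS e.K) (v : Fin 8) :
    Nat.land (Nat.shiftRight (Nat.land (e.enc (e.aP a)) (e.yv v.val)) e.sJ) 255 =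
      msk (a.N₁ ∩ nbs e.h v) := by
  have hd : ∀ k, (e.aP a).dg k ≤ 31 := by
    intro k
    show 31 - code (a.A k) ≤ 31
    omega
  have hsJ : e.sJ = e.s * (e.K + 8) := rfl
  have hp := ea5_pow e h
  have h1 : (e.enc (e.aP a)) >>> e.sJ = msk a.N₁ + 2 ^ 8 * msk a.N₂ + 2 ^ 16 * a.ld :=
    ea5_top e h (e.aP a) hd
  have h2 : (e.yv v.val) >>> e.sJ = msk (nbs e.h v) + 2 ^ 8 * 2 ^ v.val + 2 ^ 16 * e.lam := by
    rw [yv_eq e h v, hsJ, Nat.shiftRight_eq_div_pow]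
    unfold EP.nf
    apply oc_top
    intro j _
    split_ifs with h5
    · exact ee1_yc_lt e h v j
    · show (if j - e.K = v.val then 3 else 0) < 2 ^ e.s
      split_ifs <;> omega
  have h3 : (msk (nbs e.h v) + 2 ^ 8 * 2 ^ v.val + 2 ^ 16 * e.lam) &&& 255 = msk (nbs e.h v) := by
    have h1 := msk_lt (nbs e.h v)
    rw [show 255 = 2 ^ 8 - 1 by norm_num, Nat.and_two_pow_sub_one_eq_mod]
    omega
  change ((e.enc (e.aP a) &&& e.yv v.val) >>> e.sJ) &&& 255 = _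
  rw [Nat.shiftRight_and_distrib, h1, h2, ← msk_land]
  conv_rhs => rw [← ea5_mod a.N₁ a.N₂ a.ld, ← h3]
  generalize msk a.N₁ + 2 ^ 8 * msk a.N₂ + 2 ^ 16 * a.ld = x
  generalize msk (nbs e.h v) + 2 ^ 8 * 2 ^ v.val + 2 ^ 16 * e.lam = y
  apply Nat.eq_of_testBit_eq
  intro i
  simp only [Nat.testBit_and]
  cases x.testBit i <;> cases y.testBit i <;> cases (255 : ℕ).testBit i <;> rfl

end Pool.Agent.MP_528dc0_co

end

section

open Finset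

namespace Pool.Agent.MP_528dc0_co

open Eng (Lst It)

/-- the digits after adding the label `v` -/
theorem ee2_dig (e : EP) (N : Finset (Fin 8)) (v : Fin 8) (hv : v ∉ N) (j : ℕ) (hj : j < e.K) :
    (e.cd (e.aP (e.par.bs N)) j &&& e.yc v j = 0 ↔
      ((insert v N).image (e.φ ⟨j, hj⟩)).card = (insert v N).card) ∧
    ((e.cd (e.aP (e.par.bs N)) j ||| e.yc v j) &&& 31) |||
      (if e.cd (e.aP (e.par.bs N)) j &&& e.yc v j = 0 then 0 else 31) =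
      e.cd (e.aP (e.par.bs (insert v N))) j := by
  have e1 : e.cd (e.aP (e.par.bs N)) j = pdig ((e.par.bs N).A ⟨j, hj⟩) := ea6_cd_of e _ j hj
  have e2 : e.cd (e.aP (e.par.bs (insert v N))) j = pdig ((e.par.bs (insert v N)).A ⟨j, hj⟩) :=
    ea6_cd_of e _ j hj
  have A1 : (e.par.bs N).A ⟨j, hj⟩ = if (N.image (e.φ ⟨j, hj⟩)).card = N.card then
    univ \ N.image (e.φ ⟨j, hj⟩) else ∅ := rfl
  have A2 : (e.par.bs (insert v N)).A ⟨j, hj⟩ =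
    if ((insert v N).image (e.φ ⟨j, hj⟩)).card = (insert v N).card then
    univ \ (insert v N).image (e.φ ⟨j, hj⟩) else ∅ := rfl
  have hy : e.yc v j = 2 ^ (e.φ ⟨j, hj⟩ v).val := by
    unfold EP.yc
    rw [dif_pos hj]
  have hins : (insert v N).image (e.φ ⟨j, hj⟩) = insert (e.φ ⟨j, hj⟩ v) (N.image (e.φ ⟨j, hj⟩)) :=
    Finset.image_insert _ _ _
  have hcard : (insert v N).card = N.card + 1 := Finset.card_insert_of_notMem hv
  rw [e1, e2, A1, A2, hy, hins, hcard]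
  set I := N.image (e.φ ⟨j, hj⟩) with hI
  set c := e.φ ⟨j, hj⟩ v with hc
  have hIle : I.card ≤ N.card := Finset.card_image_le
  obtain ⟨d1, d2, d3⟩ := dig_add I c
  have hp31 : pdig ∅ = 31 := (pdig_31 ∅).2 rfl
  by_cases hinj : I.card = N.card
  · rw [if_pos hinj]
    by_cases hcI : c ∈ I
    · have h1 : insert c I = I := Finset.insert_eq_self.2 hcI
      have h2 : ¬ (pdig (univ \ I) &&& 2 ^ c.val = 0) := fun h => (d1.1 h) hcI
      have h3 : ¬ ((insert c I).card = N.card + 1) := by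
        rw [h1]
        omega
      rw [if_neg h2, if_neg h3, hp31]
      refine ⟨⟨fun h => absurd h h2, fun h => absurd h h3⟩, ?_⟩
      exact ea6_or31 _ Nat.and_le_right
    · have h2 : pdig (univ \ I) &&& 2 ^ c.val = 0 := d1.2 hcI
      have h3 : (insert c I).card = N.card + 1 := by
        rw [Finset.card_insert_of_notMem hcI, hinj]
      rw [if_pos h2, if_pos h3, d2 hcI, Nat.or_zero]
      refine ⟨⟨fun _ => h3, fun _ => h2⟩, ?_⟩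
      exact ea6_and31 _ (pdig_bd _).2
  · rw [if_neg hinj, hp31]
    have h3 : ¬ ((insert c I).card = N.card + 1) := by
      have := Finset.card_insert_le c I
      omega
    rw [if_neg d3, if_neg h3, hp31]
    refine ⟨⟨fun h => absurd h d3, fun h => absurd h h3⟩, ?_⟩
    exact ea6_or31 _ Nat.and_le_right

theorem ee2_cd_le (e : EP) (a : AS e.K) (j : ℕ) : e.cd (e.aP a) j ≤ 31 :=
  ea6_cd_le e _ (fun _ => (pdig_bd _).2) j

theorem ee2_cd_lt (e : EP) (h : e.Ok) (a : AS e.K) (j : ℕ) : e.cd (e.aP a) j < 2 ^ e.s := by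
  have h1 := ea6_pow e h
  have h2 := ee2_cd_le e a j
  omega

theorem ee2_yc_le (e : EP) (v : Fin 8) (j : ℕ) : e.yc v j ≤ 8 := by
  unfold EP.yc
  split_ifs with hj
  · have h1 : (e.φ ⟨j, hj⟩ v).val ≤ 3 := by omega
    calc 2 ^ (e.φ ⟨j, hj⟩ v).val ≤ 2 ^ 3 := Nat.pow_le_pow_right (by norm_num) h1
      _ = 8 := by norm_num
  · omega

theorem ee2_yc_lt (e : EP) (h : e.Ok) (v : Fin 8) (j : ℕ) : e.yc v j < 2 ^ e.s := by
  have h1 := ea6_pow e h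
  have h2 := ee2_yc_le e v j
  omega

theorem ee2_l_lt (e : EP) (h : e.Ok) (v : Fin 8) (j : ℕ) : (if j = v.val then 3 else 0) < 2 ^ e.s := by
  have h1 := ea6_pow e h
  split_ifs <;> omega

/-- the alive flags -/
theorem ee2_A (e : EP) (h : e.Ok) (a : AS e.K) (v : Fin 8) :
    Nat.land (Nat.sub e.HC (Nat.land (Nat.land (e.enc (e.aP a)) (e.yv v.val)) e.CM)) e.HC =
      e.nf (fun j => if e.cd (e.aP a) j &&& e.yc v j = 0 then 32 else 0) (fun _ => 0) 0 := by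
  have hp := ea6_pow e h
  have hd : ∀ j, e.cd (e.aP a) j &&& e.yc v j ≤ 31 := fun j =>
    le_trans Nat.and_le_left (ee2_cd_le e a j)
  change (e.HC - ((e.enc (e.aP a) &&& e.yv v.val) &&& e.CM)) &&& e.HC = _
  have h1 : (e.enc (e.aP a) &&& e.yv v.val) &&& e.CM =
      e.nf (fun j => e.cd (e.aP a) j &&& e.yc v j) (fun _ => 0) 0 := by
    rw [yv_eq e h v, CM_eq e h]
    unfold EP.enc
    rw [nf_land e _ _ _ _ _ _ (ee2_cd_lt e h a) (ea6_lb_lt e h _ _) (ee2_yc_lt e h v)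
      (ee2_l_lt e h v), nf_land e _ _ _ _ _ _ (fun j => by have := hd j; omega)
      (fun j => lt_of_le_of_lt Nat.and_le_left (ea6_lb_lt e h _ _ j)) (fun j => by omega)
      (fun j => by omega)]
    apply ea6_nf_congr
    · intro j _
      exact ea6_and31 _ (hd j)
    · intro j _
      exact Nat.and_zero _
    · exact Nat.and_zero _
  rw [h1, HC_eq e h, nf_sub e _ _ _ _ _ _ (fun j => by have := hd j; omega) (fun j => le_rfl)
    le_rfl, nf_land e _ _ _ _ _ _ (fun j => by omega) (fun j => by omega) (fun j => by omega)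
    (fun j => by omega)]
  apply ea6_nf_congr
  · intro j _
    have h2 : ∀ d ≤ 31, (32 - d) &&& 32 = if d = 0 then 32 else 0 := by decide
    exact h2 _ (hd j)
  · intro j _
    rfl
  · rfl

/-- the dead lanes -/
theorem ee2_dd (e : EP) (h : e.Ok) (c : ℕ → ℕ) (A : ℕ)
    (hA : A = e.nf (fun j => if c j = 0 then 32 else 0) (fun _ => 0) 0) :
    Nat.sub (Nat.sub e.HC A) (Nat.shiftRight (Nat.sub e.HC A) 5) =
      e.nf (fun j => if c j = 0 then 0 else 31) (fun _ => 0) 0 := by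
  change (e.HC - A) - (e.HC - A) >>> 5 = _
  have h1 : e.HC - A =
      e.nf (fun j => if c j = 0 then 0 else 32) (fun _ => 0) 0 := by
    rw [hA, HC_eq e h, nf_sub e _ _ _ _ _ _ (fun j => by split_ifs <;> omega)
      (fun j => le_rfl) le_rfl]
    apply ea6_nf_congr
    · intro j _
      show 32 - (if c j = 0 then 32 else 0) = if c j = 0 then 0 else 32
      split_ifs <;> rfl
    · intro j _
      rfl
    · rfl
  have h2 : (e.HC - A) >>> 5 =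
      e.nf (fun j => if c j = 0 then 0 else 1) (fun _ => 0) 0 := by
    have h3 : e.HC - A =
        32 * e.nf (fun j => if c j = 0 then 0 else 1) (fun _ => 0) 0 := by
      rw [h1]
      unfold EP.nf
      rw [mul_zero, add_zero, add_zero, oc_smul]
      apply oc_congr
      intro j _
      by_cases h1 : j < e.K
      · simp only [h1, if_true]
        split_ifs <;> rfl
      · simp only [h1, if_false, mul_zero]
    rw [h3, Nat.shiftRight_eq_div_pow]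
    exact Nat.mul_div_cancel_left _ (by norm_num)
  rw [h2, h1, nf_sub e _ _ _ _ _ _ (fun j => by split_ifs <;> omega) (fun j => le_rfl) le_rfl]
  apply ea6_nf_congr
  · intro j _
    show (if c j = 0 then 0 else 32) - (if c j = 0 then 0 else 1) = if c j = 0 then 0 else 31
    split_ifs <;> rfl
  · intro j _
    rfl
  · rfl

theorem ee2_top_y (e : EP) (h : e.Ok) (v : Fin 8) :
    (e.yv v.val) / 2 ^ (e.s * (e.K + 8)) =
      msk (nbs e.h v) + 2 ^ 8 * 2 ^ v.val + 2 ^ 16 * e.lam := by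
  rw [yv_eq e h v]
  unfold EP.nf
  apply oc_top
  intro j _
  by_cases hjK : j < e.K
  · simp only [hjK, if_true]
    exact ee2_yc_lt e h v j
  · simp only [hjK, if_false]
    exact ee2_l_lt e h v _

theorem ee2_shl (e : EP) (t : ℕ) : t <<< e.sJ = e.nf (fun _ => 0) (fun _ => 0) t := by
  have h1 : e.sJ = e.s * (e.K + 8) := rfl
  rw [h1, Nat.shiftLeft_eq]
  unfold EP.nf
  have h2 : oc e.s (fun j => if j < e.K then 0 else 0) (e.K + 8) = 0 := by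
    unfold oc
    refine sum_eq_zero fun j _ => ?_
    simp
  rw [h2]
  ring

theorem ee2_msk (N : Finset (Fin 8)) (v : Fin 8) (hv : v ∉ N) :
    msk (insert v N) = msk N + 2 ^ v.val := by
  unfold msk
  rw [Finset.sum_insert hv, add_comm]

theorem ee2_ldx (e : EP) (h : e.Ok) (a : AS e.K) : (e.enc (e.aP a)) >>> e.l0 = a.ld :=
  ea5_ld e h (e.aP a) (fun _ => (pdig_bd _).2)

theorem ee2_ldy (e : EP) (h : e.Ok) (v : Fin 8) : (e.yv v.val) >>> e.l0 = e.lam := by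
  change (e.yv v.val) >>> (e.sJ + 16) = _
  have hsJ : e.sJ = e.s * (e.K + 8) := rfl
  rw [Nat.shiftRight_add, Nat.shiftRight_eq_div_pow _ e.sJ, hsJ, ee2_top_y e h v,
    Nat.shiftRight_eq_div_pow]
  have h1 := msk_lt (nbs e.h v)
  have h2 : 2 ^ v.val ≤ 2 ^ 7 := Nat.pow_le_pow_right (by norm_num) (by omega)
  omega

/-- the load -/
theorem addv_ld (e : EP) (h : e.Ok) (N : Finset (Fin 8)) (v : Fin 8) (hv : v ∉ N) :
    Nat.add (Nat.add (Nat.shiftRight (e.enc (e.aP (e.par.bs N))) e.l0) (Nat.shiftRight (e.yv v.val) e.l0))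
      (Nat.land (Nat.shiftRight e.PT (Nat.mul 16 (Nat.land (Nat.shiftRight (Nat.land
        (e.enc (e.aP (e.par.bs N))) (e.yv v.val)) e.sJ) 255))) 65535) =
      e.par.lam * (N.card + 1) + e.par.tau * eH e.par.H (insert v N) := by
  rw [yv_sh e h, pc_eq e h]
  have h1 : Nat.shiftRight (e.enc (e.aP (e.par.bs N))) e.l0 = (e.par.bs N).ld :=
    ee2_ldx e h (e.par.bs N)
  have h2 : Nat.shiftRight (e.yv v.val) e.l0 = e.lam := ee2_ldy e h v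
  rw [h1, h2]
  have h3 : (e.par.bs N).ld = e.lam * N.card + e.tau * eH (mkH e.h) N := rfl
  have h4 : e.par.lam = e.lam := rfl
  have h5 : e.par.tau = e.tau := rfl
  have h6 : e.par.H = mkH e.h := rfl
  have h7 : (e.par.bs N).N₁ = N := rfl
  rw [h3, h4, h5, h6, h7, eH_insert e.h N v hv]
  change e.lam * N.card + e.tau * eH (mkH e.h) N + e.lam + e.tau * (N ∩ nbs e.h v).card = _
  ring

/-- **Adding a label.** `nf_land`, `nf_lor`, `nf_sub`, `nf_add` (EA2) for `x = enc (aP (bs N))` and `yv_eq`; digits: `dig_add` with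
`I = N.image (φ k)`, `c = φ k v`; if `φ k` is not injective on `N` the digit of `x` is `31` (dead) and stays `31`; labels: `3` at
`N` and at `v`; top part: `(msk N + 2^v) * 257 = msk (insert v N) * 257` (`msk_disj`), load `eH_insert`, `pc_eq`, `yv_sh`. -/
theorem addv_eq (e : EP) (h : e.Ok) (N : Finset (Fin 8)) (v : Fin 8) (hv : v ∉ N) :
    e.addv (e.enc (e.aP (e.par.bs N))) (e.yv v.val) =
      e.enc (e.aP (e.par.bs (insert v N))) := by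
  have hp := ea6_pow e h
  have hld := addv_ld e h N v hv
  have hA := ee2_A e h (e.par.bs N) v
  have hdd := ee2_dd e h (fun j => e.cd (e.aP (e.par.bs N)) j &&& e.yc v j) _ hA
  change Nat.add (Nat.lor (Nat.land (Nat.lor (e.enc (e.aP (e.par.bs N))) (e.yv v.val)) e.CM)
    (Nat.sub (Nat.sub e.HC (Nat.land (Nat.sub e.HC (Nat.land (Nat.land (e.enc (e.aP (e.par.bs N)))
      (e.yv v.val)) e.CM)) e.HC)) (Nat.shiftRight (Nat.sub e.HC (Nat.land (Nat.sub e.HC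
      (Nat.land (Nat.land (e.enc (e.aP (e.par.bs N))) (e.yv v.val)) e.CM)) e.HC)) 5)))
    (Nat.add (Nat.land (Nat.lor (e.enc (e.aP (e.par.bs N))) (e.yv v.val))
      (Nat.sub e.X0 (Nat.shiftLeft 65535 e.sJ)))
      (Nat.add (Nat.shiftLeft (Nat.mul (Nat.add (Nat.land (Nat.shiftRight
        (e.enc (e.aP (e.par.bs N))) e.sJ) 255) (Nat.land (Nat.shiftRight (e.yv v.val) e.sj8) 255))
        257) e.sJ) (Nat.shiftLeft (Nat.add (Nat.add (Nat.shiftRight (e.enc (e.aP (e.par.bs N)))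
        e.l0) (Nat.shiftRight (e.yv v.val) e.l0)) (Nat.land (Nat.shiftRight e.PT (Nat.mul 16
        (Nat.land (Nat.shiftRight (Nat.land (e.enc (e.aP (e.par.bs N))) (e.yv v.val)) e.sJ) 255)))
        65535)) e.l0))) = _
  rw [hdd, hld]
  -- the digits
  have hdn : ∀ j, e.cd (e.aP (e.par.bs N)) j ||| e.yc v j < 2 ^ e.s := fun j =>
    Nat.or_lt_two_pow (ee2_cd_lt e h _ j) (ee2_yc_lt e h v j)
  have hln : ∀ j, EP.lb (e.aP (e.par.bs N)).N₁ (e.aP (e.par.bs N)).N₂ j |||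
      (if j = v.val then 3 else 0) < 2 ^ e.s := fun j =>
    Nat.or_lt_two_pow (ea6_lb_lt e h _ _ j) (ee2_l_lt e h v j)
  have hor : Nat.lor (e.enc (e.aP (e.par.bs N))) (e.yv v.val) =
      e.nf (fun j => e.cd (e.aP (e.par.bs N)) j ||| e.yc v j)
        (fun j => EP.lb (e.aP (e.par.bs N)).N₁ (e.aP (e.par.bs N)).N₂ j |||
          (if j = v.val then 3 else 0))
        ((msk (e.aP (e.par.bs N)).N₁ + 2 ^ 8 * msk (e.aP (e.par.bs N)).N₂ +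
          2 ^ 16 * (e.aP (e.par.bs N)).ld) |||
          (msk (nbs e.h v) + 2 ^ 8 * 2 ^ v.val + 2 ^ 16 * e.lam)) := by
    change e.enc (e.aP (e.par.bs N)) ||| e.yv v.val = _
    rw [yv_eq e h v]
    unfold EP.enc
    exact nf_lor e _ _ _ _ _ _ (ee2_cd_lt e h _) (ea6_lb_lt e h _ _) (ee2_yc_lt e h v)
      (ee2_l_lt e h v)
  have h1 : Nat.land (Nat.lor (e.enc (e.aP (e.par.bs N))) (e.yv v.val)) e.CM =
      e.nf (fun j => (e.cd (e.aP (e.par.bs N)) j ||| e.yc v j) &&& 31) (fun _ => 0) 0 := by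
    rw [hor]
    change e.nf _ _ _ &&& e.CM = _
    rw [CM_eq e h, nf_land e _ _ _ _ _ _ hdn hln (fun j => by omega) (fun j => by omega)]
    apply ea6_nf_congr
    · intro j _
      rfl
    · intro j _
      exact Nat.and_zero _
    · exact Nat.and_zero _
  have h2 : Nat.sub e.X0 (Nat.shiftLeft 65535 e.sJ) = e.nf (fun _ => 0) (fun _ => 3) 0 := by
    change e.X0 - 65535 <<< e.sJ = _
    rw [X0_eq e h, ee2_shl, nf_sub e _ _ _ _ _ _ (fun j => le_rfl) (fun j => by omega) le_rfl]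
  have h3 : Nat.land (Nat.lor (e.enc (e.aP (e.par.bs N))) (e.yv v.val))
      (Nat.sub e.X0 (Nat.shiftLeft 65535 e.sJ)) =
      e.nf (fun _ => 0) (EP.lb (insert v N) (insert v N)) 0 := by
    rw [hor, h2]
    change e.nf _ _ _ &&& _ = _
    rw [nf_land e _ _ _ _ _ _ hdn hln (fun j => by omega) (fun j => by omega)]
    apply ea6_nf_congr
    · intro j _
      exact Nat.and_zero _
    · intro j hj
      change (EP.lb N N j ||| (if j = v.val then 3 else 0)) &&& 3 = _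
      unfold EP.lb
      simp only [hj, dif_pos]
      by_cases hjv : j = v.val
      · have hm : (⟨j, hj⟩ : Fin 8) = v := Fin.ext hjv
        rw [hm]
        simp [hjv, hv]
      · have hm : (⟨j, hj⟩ : Fin 8) ≠ v := fun hc => hjv (congrArg Fin.val hc)
        by_cases hjN : (⟨j, hj⟩ : Fin 8) ∈ N
        · simp [hjv, hjN]
        · simp [hjv, hjN, hm]
    · exact Nat.and_zero _
  have hv7 : 2 ^ v.val ≤ 2 ^ 7 := Nat.pow_le_pow_right (by norm_num) (by omega)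
  have h4 : Nat.land (Nat.shiftRight (e.enc (e.aP (e.par.bs N))) e.sJ) 255 = msk N := by
    change ((e.enc (e.aP (e.par.bs N))) >>> e.sJ) &&& 255 = _
    rw [ea5_top e h _ (fun _ => (pdig_bd _).2), ea5_mod]
    rfl
  have h5 : Nat.land (Nat.shiftRight (e.yv v.val) e.sj8) 255 = 2 ^ v.val := by
    change ((e.yv v.val) >>> (e.sJ + 8)) &&& 255 = _
    have hsJ : e.sJ = e.s * (e.K + 8) := rfl
    rw [Nat.shiftRight_add, Nat.shiftRight_eq_div_pow _ e.sJ, hsJ, ee2_top_y e h v,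
      Nat.shiftRight_eq_div_pow, show 255 = 2 ^ 8 - 1 by norm_num, Nat.and_two_pow_sub_one_eq_mod]
    have h1 := msk_lt (nbs e.h v)
    omega
  rw [h1, h3, h4, h5]
  change (e.nf _ _ _ ||| e.nf _ _ _) + (e.nf _ _ _ + (((msk N + 2 ^ v.val) * 257) <<< e.sJ +
    (e.par.lam * (N.card + 1) + e.par.tau * eH e.par.H (insert v N)) <<< e.l0)) = _
  rw [nf_lor e _ _ _ _ _ _ (fun j => lt_of_le_of_lt Nat.and_le_left (hdn j))
    (fun j => by omega) (fun j => by split_ifs <;> omega) (fun j => by omega), ee2_shl, ea6_shl,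
    nf_add, nf_add, nf_add]
  unfold EP.enc
  apply ea6_nf_congr
  · intro j hj
    simp only [add_zero]
    exact (ee2_dig e N v hv j hj).2
  · intro j _
    simp only [add_zero, Nat.or_zero, zero_add]
    rfl
  · have e1 : msk (e.aP (e.par.bs (insert v N))).N₁ = msk (insert v N) := rfl
    have e2 : msk (e.aP (e.par.bs (insert v N))).N₂ = msk (insert v N) := rfl
    have e3 : (e.aP (e.par.bs (insert v N))).ld =
      e.par.lam * (insert v N).card + e.par.tau * eH e.par.H (insert v N) := rfl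
    rw [e1, e2, e3, ee2_msk N v hv, Finset.card_insert_of_notMem hv]
    simp only [Nat.or_zero, zero_add]
    ring

/-- the weight of the colourings which are injective on `insert v N` by one multiplication (`conv_weight` of EA5) -/
theorem addv_wt (e : EP) (h : e.Ok) (N : Finset (Fin 8)) (v : Fin 8) (hv : v ∉ N) :
    Nat.land (Nat.shiftRight (Nat.mul (Nat.land (Nat.sub e.HC (Nat.land (Nat.land
      (e.enc (e.aP (e.par.bs N))) (e.yv v.val)) e.CM)) e.HC) e.C) e.pl) e.mS =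
      e.par.bw (insert v N) := by
  rw [ee2_A e h (e.par.bs N) v]
  have h1 : e.nf (fun j => if e.cd (e.aP (e.par.bs N)) j &&& e.yc v j = 0 then 32 else 0)
      (fun _ => 0) 0 =
      oc e.s (fun j => 32 * (if j < e.K then
        (if e.cd (e.aP (e.par.bs N)) j &&& e.yc v j = 0 then 1 else 0) else 0)) (e.K + 8) := by
    unfold EP.nf
    rw [mul_zero, add_zero]
    apply oc_congr
    intro j _
    by_cases h1 : j < e.K
    · simp only [h1, if_true]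
      split_ifs <;> rfl
    · simp only [h1, if_false, mul_zero]
  rw [h1, conv_weight e h _ (fun j => by split_ifs <;> omega), sum_range_add]
  have h2 : ∑ j ∈ range 8, (if e.K + j < e.K then
      (if e.cd (e.aP (e.par.bs N)) (e.K + j) &&& e.yc v (e.K + j) = 0 then 1 else 0) else 0) *
        e.wl (e.K + j) = 0 := by
    refine sum_eq_zero fun j _ => ?_
    rw [if_neg (by omega), zero_mul]
  rw [h2, add_zero, sum_range]
  unfold Par.bw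
  refine sum_congr rfl fun k _ => ?_
  rw [if_pos k.isLt]
  have h3 : e.wl k = e.w k := by
    unfold EP.wl EP.w
    rw [if_pos k.isLt]
  have h4 := (ee2_dig e N v hv k k.isLt).1
  rw [h3]
  have h5 : e.par.w k = e.w k := rfl
  have h6 : e.par.φ k = e.φ k := rfl
  rw [h5, h6]
  by_cases h7 : e.cd (e.aP (e.par.bs N)) k &&& e.yc v k = 0
  · rw [if_pos h7, if_pos (h4.1 h7), one_mul]
  · rw [if_neg h7, if_neg (fun hc => h7 (h4.2 hc)), zero_mul]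

/-- the exclusion test: `ex2_iff` (EA4), `hasC_insert` -/
theorem addv_ex (e : EP) (h : e.Ok) (N : Finset (Fin 8)) (v : Fin 8) (hv : v ∉ N)
    (hN : ¬ e.par.ex1 N) :
    Nat.beq (Nat.land (Nat.shiftRight e.ET (Nat.land (Nat.shiftRight (Nat.land
      (e.enc (e.aP (e.par.bs N))) (e.yv v.val)) e.sJ) 255)) 1) 0 = true ↔
      ¬ e.par.ex1 (insert v N) := by
  rw [yv_sh e h]
  have h7 : (e.par.bs N).N₁ = N := rfl
  rw [h7]
  have h1 := ex2_iff e h (N ∩ nbs e.h v)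
  have h2 : Nat.beq (Nat.land (Nat.shiftRight e.ET (msk (N ∩ nbs e.h v))) 1) 0 = true ↔
      Nat.land (Nat.shiftRight e.ET (msk (N ∩ nbs e.h v))) 1 = 0 := Iff.of_eq Nat.beq_eq
  rw [h2, h1, not_iff_not]
  have hH : e.par.H = mkH e.h := rfl
  unfold Par.ex2
  unfold Par.ex1 at hN ⊢
  rw [hH] at hN ⊢
  cases hk : e.par.kf with
  | true =>
    rw [hk] at hN
    simp only [if_true] at hN ⊢
    rw [hasC_insert e.h 2 N v hv]
    exact ⟨fun hh => Or.inr hh, fun hh => hh.resolve_left hN⟩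
  | false =>
    rw [hk] at hN
    simp only [Bool.false_eq_true, if_false] at hN ⊢
    rw [hasC_insert e.h 3 N v hv]
    exact ⟨fun hh => Or.inr hh, fun hh => hh.resolve_left hN⟩

/-- the empty base -/
theorem base0 (e : EP) (h : e.Ok) : e.S16 = e.enc (e.aP (e.par.bs ∅)) := by
  rw [S16_eq e h]
  unfold EP.enc
  apply ea6_nf_congr
  · intro j hj
    rw [ea6_cd_of e _ j hj]
    have A1 : (e.par.bs ∅).A ⟨j, hj⟩ = if ((∅ : Finset (Fin 8)).image (e.φ ⟨j, hj⟩)).card =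
      (∅ : Finset (Fin 8)).card then univ \ (∅ : Finset (Fin 8)).image (e.φ ⟨j, hj⟩) else ∅ := rfl
    change 16 = pdig ((e.par.bs ∅).A ⟨j, hj⟩)
    rw [A1]
    simp only [Finset.image_empty, Finset.card_empty, if_true, Finset.sdiff_empty]
    decide
  · intro j _
    exact (ea6_lbe j).symm
  · have e1 : msk (e.aP (e.par.bs ∅)).N₁ = msk ∅ := rfl
    have e2 : msk (e.aP (e.par.bs ∅)).N₂ = msk ∅ := rfl
    have e3 : (e.aP (e.par.bs ∅)).ld =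
      e.par.lam * (∅ : Finset (Fin 8)).card + e.par.tau * eH e.par.H ∅ := rfl
    have e4 : eH e.par.H ∅ = 0 := by
      unfold eH
      simp
    rw [e1, e2, e3, e4, ea6_mske]
    simp

end Pool.Agent.MP_528dc0_co

end

section

open Finset

namespace Pool.Agent.MP_528dc0_co

open Eng (Lst It)

/-- the fields of the labels which may be added to `N`: larger than all elements of `N` -/
noncomputable def EP.lbs (e : EP) (N : Finset (Fin 8)) : List ℕ := by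
  classical
  exact ((List.range (if e.kf = 1 then 8 else 6)).filter (fun v => ∀ a ∈ N, a.val < v)).map e.yv

/-- the list enumerates the base states with `q` labels -/
def EP.PInv (e : EP) (q : ℕ) (l : List (ℕ × List ℕ)) : Prop :=
  (∀ a ∈ l, ∃ N ⊆ e.par.Lab, N.card = q ∧ ¬ e.par.ex1 N ∧
    a = (e.enc (e.aP (e.par.bs N)), e.lbs N)) ∧
  ∀ N ⊆ e.par.Lab, N.card = q → ¬ e.par.ex1 N → (e.enc (e.aP (e.par.bs N)), e.lbs N) ∈ l

noncomputable section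

/-- the exclusion test of the engine -/
def EP.ee3_t (e : EP) (x y : ℕ) : Bool :=
  Nat.beq (Nat.land (Nat.shiftRight e.ET (Nat.land (Nat.shiftRight (Nat.land x y) e.sJ) 255)) 1) 0

/-- weight and load of the engine -/
def EP.ee3_w (e : EP) (x y : ℕ) : ℕ :=
  Nat.land (Nat.shiftRight (Nat.mul (Nat.land (Nat.sub e.HC (Nat.land (Nat.land x y) e.CM)) e.HC)
    e.C) e.pl) e.mS
def EP.ee3_l (e : EP) (x y : ℕ) : ℕ :=
  Nat.add (Nat.add (Nat.shiftRight x e.l0) (Nat.shiftRight y e.l0))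
    (Nat.land (Nat.shiftRight e.PT (Nat.mul 16 (Nat.land (Nat.shiftRight (Nat.land x y) e.sJ) 255)))
      65535)

theorem ee3_ext1_nil (e : EP) (x : ℕ) (tl : List (ℕ × List ℕ)) : e.ext1 x [] tl = tl := rfl

theorem ee3_ext1_gen (sJ sj8 l0 CM HC X0 ET PT x y : ℕ) (ys : List ℕ) (tl : List (ℕ × List ℕ)) :
    Eng.ext1 sJ sj8 l0 CM HC X0 ET PT x (y :: ys) tl = Bool.rec (motive := fun _ => List (ℕ × List ℕ))
      (Eng.ext1 sJ sj8 l0 CM HC X0 ET PT x ys tl)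
      ((Eng.addv sJ sj8 l0 CM HC X0 PT x y, ys) :: Eng.ext1 sJ sj8 l0 CM HC X0 ET PT x ys tl)
      (Nat.beq (Nat.land (Nat.shiftRight ET (Nat.land (Nat.shiftRight (Nat.land x y) sJ) 255)) 1) 0) :=
  rfl

theorem ee3_ite {α : Type} (c : Bool) (a b : α) :
    Bool.rec (motive := fun _ => α) a b c = if c = true then b else a := by
  cases c <;> rfl

theorem ee3_ext1_cons (e : EP) (x y : ℕ) (ys : List ℕ) (tl : List (ℕ × List ℕ)) :
    e.ext1 x (y :: ys) tl =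
      if e.ee3_t x y = true then (e.addv x y, ys) :: e.ext1 x ys tl else e.ext1 x ys tl := by
  unfold EP.ext1 EP.addv EP.ee3_t
  rw [ee3_ext1_gen, ee3_ite]

theorem ee3_ext1_mem (e : EP) (x : ℕ) (ys : List ℕ) (tl : List (ℕ × List ℕ)) (a : ℕ × List ℕ) :
    a ∈ e.ext1 x ys tl ↔ a ∈ tl ∨ ∃ pre y ys', ys = pre ++ y :: ys' ∧ e.ee3_t x y = true ∧
      a = (e.addv x y, ys') := by
  induction ys with
  | nil =>
    rw [ee3_ext1_nil]
    constructor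
    · exact Or.inl
    · rintro (h | ⟨pre, y, ys', h, -, -⟩)
      · exact h
      · exact absurd h (by simp)
  | cons y ys ih =>
    rw [ee3_ext1_cons]
    have h1 : (∃ pre z ys', y :: ys = pre ++ z :: ys' ∧ e.ee3_t x z = true ∧
        a = (e.addv x z, ys')) ↔ (e.ee3_t x y = true ∧ a = (e.addv x y, ys)) ∨
        ∃ pre z ys', ys = pre ++ z :: ys' ∧ e.ee3_t x z = true ∧ a = (e.addv x z, ys') := by
      constructor
      · rintro ⟨pre, z, ys', h1, h2, h3⟩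
        cases pre with
        | nil =>
          rw [List.nil_append, List.cons.injEq] at h1
          obtain ⟨rfl, rfl⟩ := h1
          exact Or.inl ⟨h2, h3⟩
        | cons b pre =>
          rw [List.cons_append, List.cons.injEq] at h1
          exact Or.inr ⟨pre, z, ys', h1.2, h2, h3⟩
      · rintro (⟨h1, h2⟩ | ⟨pre, z, ys', h1, h2, h3⟩)
        · exact ⟨[], y, ys, rfl, h1, h2⟩
        · exact ⟨y :: pre, z, ys', by rw [h1]; rfl, h2, h3⟩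
    rw [h1]
    by_cases h2 : e.ee3_t x y = true
    · rw [if_pos h2, List.mem_cons, ih, and_iff_right h2]
      exact or_left_comm
    · rw [if_neg h2, ih]
      constructor
      · rintro (h3 | h3)
        · exact Or.inl h3
        · exact Or.inr (Or.inr h3)
      · rintro (h3 | h3 | h3)
        · exact Or.inl h3
        · exact absurd h3.1 h2
        · exact Or.inr h3

theorem ee3_exts_gen (sJ sj8 l0 CM HC X0 ET PT : ℕ) (h : ℕ × List ℕ) (l : List (ℕ × List ℕ)) :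
    Eng.exts sJ sj8 l0 CM HC X0 ET PT (h :: l) = Eng.ext1 sJ sj8 l0 CM HC X0 ET PT h.1 h.2
      (Eng.exts sJ sj8 l0 CM HC X0 ET PT l) := by
  obtain ⟨x, ys⟩ := h
  rfl

theorem ee3_exts_mem (e : EP) (l : List (ℕ × List ℕ)) (a : ℕ × List ℕ) :
    a ∈ e.exts l ↔ ∃ h ∈ l, ∃ pre y ys', h.2 = pre ++ y :: ys' ∧ e.ee3_t h.1 y = true ∧
      a = (e.addv h.1 y, ys') := by
  induction l with
  | nil =>
    have h0 : e.exts [] = [] := rfl
    rw [h0]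
    simp
  | cons h l ih =>
    have h0 : e.exts (h :: l) = e.ext1 h.1 h.2 (e.exts l) := by
      unfold EP.exts EP.ext1
      exact ee3_exts_gen _ _ _ _ _ _ _ _ _ _
    rw [h0, ee3_ext1_mem, ih]
    constructor
    · rintro (⟨h', h1, h2⟩ | h2)
      · exact ⟨h', List.mem_cons_of_mem _ h1, h2⟩
      · exact ⟨h, List.mem_cons_self, h2⟩
    · rintro ⟨h', h1, h2⟩
      rcases List.mem_cons.1 h1 with rfl | h1
      · exact Or.inr h2
      · exact Or.inl ⟨h', h1, h2⟩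

/-- number of labels -/
def EP.ee3_n (e : EP) : ℕ := if e.kf = 1 then 8 else 6

end

theorem ee3_n_le (e : EP) : e.ee3_n ≤ 8 := by
  unfold EP.ee3_n
  split_ifs <;> norm_num

theorem ee3_mem_Lab (e : EP) (v : Fin 8) : v ∈ e.par.Lab ↔ v.val < e.ee3_n := by
  unfold EP.ee3_n Par.Lab
  show v ∈ (if (decide (e.kf = 1)) = true then univ else {0, 1, 2, 3, 4, 5}) ↔ _
  by_cases h : e.kf = 1
  · simp [h]
  · simp only [h, decide_false, if_false]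
    revert v
    decide

theorem ee3_lbs_split (e : EP) (N : Finset (Fin 8)) (pre : List ℕ) (y : ℕ) (ys' : List ℕ)
    (h : e.lbs N = pre ++ y :: ys') : ∃ v : Fin 8, v.val < e.ee3_n ∧ (∀ a ∈ N, a < v) ∧
      y = e.yv v.val ∧ ys' = e.lbs (insert v N) := by
  classical
  have h0 : ∀ M : Finset (Fin 8), e.lbs M =
      ((List.range e.ee3_n).filter (fun v => decide (∀ a ∈ M, a.val < v))).map e.yv := by
    intro M
    unfold EP.lbs EP.ee3_n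
    congr 1
  rw [h0, List.map_eq_append_iff] at h
  obtain ⟨l₁, l₂, h1, h2, h3⟩ := h
  rw [List.map_eq_cons_iff] at h3
  obtain ⟨w, l₃, h4, h5, h6⟩ := h3
  subst h4
  have hmem : w ∈ (List.range e.ee3_n).filter (fun v => decide (∀ a ∈ N, a.val < v)) := by
    rw [h1]
    simp
  rw [List.mem_filter, List.mem_range, decide_eq_true_eq] at hmem
  have hw : w < 8 := lt_of_lt_of_le hmem.1 (ee3_n_le e)
  refine ⟨⟨w, hw⟩, hmem.1, fun a ha => hmem.2 a ha, h5.symm, ?_⟩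
  have hp : ((List.range e.ee3_n).filter (fun v => decide (∀ a ∈ N, a.val < v))).Pairwise
      (· < ·) := List.Pairwise.filter _ List.pairwise_lt_range
  rw [h1, List.pairwise_append] at hp
  obtain ⟨-, hp2, hp3⟩ := hp
  rw [List.pairwise_cons] at hp2
  have h7 : l₃ = ((List.range e.ee3_n).filter
      (fun v => decide (∀ a ∈ insert (⟨w, hw⟩ : Fin 8) N, a.val < v))) := by
    have h8 : (List.range e.ee3_n).filter
      (fun v => decide (∀ a ∈ insert (⟨w, hw⟩ : Fin 8) N, a.val < v)) =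
      ((List.range e.ee3_n).filter (fun v => decide (∀ a ∈ N, a.val < v))).filter
        (fun v => decide (w < v)) := by
      rw [List.filter_filter]
      apply List.filter_congr
      intro x _
      rw [← Bool.decide_and]
      congr 1
      apply propext
      constructor
      · intro h9
        exact ⟨h9 _ (mem_insert_self _ _), fun a ha => h9 a (mem_insert_of_mem ha)⟩
      · rintro ⟨h9, h10⟩ a ha
        rcases mem_insert.1 ha with rfl | ha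
        · exact h9
        · exact h10 a ha
    rw [h8, h1, List.filter_append, List.filter_cons]
    have h11 : l₁.filter (fun v => decide (w < v)) = [] := by
      rw [List.filter_eq_nil_iff]
      intro a ha
      have := hp3 a ha w List.mem_cons_self
      simp only [decide_eq_true_eq]
      omega
    have h12 : l₃.filter (fun v => decide (w < v)) = l₃ := by
      rw [List.filter_eq_self]
      intro a ha
      have := hp2.1 a ha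
      simpa using this
    rw [h11, h12]
    simp
  rw [← h6, h0, ← h7]

theorem ee3_lbs_mem (e : EP) (N : Finset (Fin 8)) (v : Fin 8) (hv : v.val < e.ee3_n)
    (hN : ∀ a ∈ N, a < v) : ∃ pre, e.lbs N = pre ++ e.yv v.val :: e.lbs (insert v N) := by
  classical
  have h0 : ∀ M : Finset (Fin 8), e.lbs M =
      ((List.range e.ee3_n).filter (fun v => decide (∀ a ∈ M, a.val < v))).map e.yv := by
    intro M
    unfold EP.lbs EP.ee3_n
    congr 1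
  have hmem : v.val ∈ (List.range e.ee3_n).filter (fun v => decide (∀ a ∈ N, a.val < v)) := by
    rw [List.mem_filter, List.mem_range, decide_eq_true_eq]
    exact ⟨hv, fun a ha => hN a ha⟩
  obtain ⟨l₁, l₂, h1⟩ := List.append_of_mem hmem
  have hp : ((List.range e.ee3_n).filter (fun v => decide (∀ a ∈ N, a.val < v))).Pairwise
      (· < ·) := List.Pairwise.filter _ List.pairwise_lt_range
  rw [h1, List.pairwise_append] at hp
  obtain ⟨-, hp2, hp3⟩ := hp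
  rw [List.pairwise_cons] at hp2
  have h7 : l₂ = ((List.range e.ee3_n).filter
      (fun u => decide (∀ a ∈ insert v N, a.val < u))) := by
    have h8 : (List.range e.ee3_n).filter
      (fun u => decide (∀ a ∈ insert v N, a.val < u)) =
      ((List.range e.ee3_n).filter (fun v => decide (∀ a ∈ N, a.val < v))).filter
        (fun u => decide (v.val < u)) := by
      rw [List.filter_filter]
      apply List.filter_congr
      intro x _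
      rw [← Bool.decide_and]
      congr 1
      apply propext
      constructor
      · intro h9
        exact ⟨h9 _ (mem_insert_self _ _), fun a ha => h9 a (mem_insert_of_mem ha)⟩
      · rintro ⟨h9, h10⟩ a ha
        rcases mem_insert.1 ha with rfl | ha
        · exact h9
        · exact h10 a ha
    rw [h8, h1, List.filter_append, List.filter_cons]
    have h11 : l₁.filter (fun u => decide (v.val < u)) = [] := by
      rw [List.filter_eq_nil_iff]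
      intro a ha
      have := hp3 a ha v.val List.mem_cons_self
      simp only [decide_eq_true_eq]
      omega
    have h12 : l₂.filter (fun u => decide (v.val < u)) = l₂ := by
      rw [List.filter_eq_self]
      intro a ha
      have := hp2.1 a ha
      simpa using this
    rw [h11, h12]
    simp
  refine ⟨l₁.map e.yv, ?_⟩
  rw [h0, h0, h1, List.map_append, List.map_cons, ← h7]

theorem ee3_HasC_mono (H : SimpleGraph (Fin 8)) (q : ℕ) (N N' : Finset (Fin 8)) (h : N ⊆ N')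
    (hN : HasC H q N) : HasC H q N' := by
  obtain ⟨s, h1, h2, h3⟩ := hN
  exact ⟨s, h1.trans h, h2, h3⟩

theorem ee3_last (N : Finset (Fin 8)) (q : ℕ) (hN : N.card = q + 1) : ∃ (v : Fin 8)
    (M : Finset (Fin 8)), N = insert v M ∧ v ∉ M ∧ M.card = q ∧ ∀ a ∈ M, a < v := by
  classical
  have hne : N.Nonempty := by
    rw [← Finset.card_pos]
    omega
  refine ⟨N.max' hne, N.erase (N.max' hne), ?_, ?_, ?_, ?_⟩
  · rw [Finset.insert_erase (N.max'_mem hne)]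
  · exact Finset.notMem_erase _ _
  · rw [Finset.card_erase_of_mem (N.max'_mem hne), hN]
    rfl
  · intro a ha
    have h1 := Finset.mem_erase.1 ha
    exact lt_of_le_of_ne (N.le_max' a h1.2) h1.1

/-- `base0`, `ys` = `lbs ∅` -/
theorem pinv0 (e : EP) (h : e.Ok) : e.PInv 0 [(e.S16, e.ys)] := by
  classical
  have hys : e.ys = e.lbs ∅ := by
    unfold EP.lbs EP.ys
    rw [List.filter_eq_self.2 (by intro a _; simp)]
    by_cases hk : e.kf = 1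
    · rw [if_pos hk]
      have : Nat.beq e.kf 1 = true := by rw [hk]; rfl
      rw [this]
      rfl
    · rw [if_neg hk]
      have : Nat.beq e.kf 1 = false := by
        rw [← Bool.not_eq_true]
        intro hc
        exact hk (Nat.eq_of_beq_eq_true hc)
      rw [this]
      rfl
  have hex : ¬ e.par.ex1 ∅ := by
    rintro ⟨s, h1, h2, -⟩
    have h3 : s = ∅ := Finset.subset_empty.1 h1
    rw [h3, Finset.card_empty] at h2
    split_ifs at h2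
  refine ⟨?_, ?_⟩
  · intro a ha
    rw [List.mem_singleton] at ha
    refine ⟨∅, Finset.empty_subset _, Finset.card_empty, hex, ?_⟩
    rw [ha, hys, base0 e h]
  · intro N _ hN _
    rw [Finset.card_eq_zero] at hN
    subst hN
    rw [List.mem_singleton, hys, base0 e h]

/-- `Eng.exts` goes through the list, `Eng.ext1` through the labels `v` with the remaining labels (`lbs N = yv v :: lbs (insert v N)` if
`v` is the first one, `lbs` of `insert v N` = the tail after `v`): `addv_eq`, `addv_ex`. For the second part write a set with `q + 1` labels as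
`insert v N`, `v` its maximum; `ex1` is monotone. -/
theorem pinv_step (e : EP) (h : e.Ok) (q : ℕ) (l : List (ℕ × List ℕ)) (hl : e.PInv q l) :
    e.PInv (q + 1) (e.exts l) := by
  classical
  refine ⟨?_, ?_⟩
  · intro a ha
    rw [ee3_exts_mem] at ha
    obtain ⟨p, hp, pre, y, ys', h1, h2, h3⟩ := ha
    obtain ⟨N, hN1, hN2, hN3, hN4⟩ := hl.1 p hp
    subst hN4
    obtain ⟨v, hv1, hv2, hv3, hv4⟩ := ee3_lbs_split e N pre y ys' h1
    have hv : v ∉ N := fun hc => lt_irrefl _ (hv2 v hc)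
    refine ⟨insert v N, ?_, ?_, ?_, ?_⟩
    · intro b hb
      rcases mem_insert.1 hb with rfl | hb
      · exact (ee3_mem_Lab e b).2 hv1
      · exact hN1 hb
    · rw [Finset.card_insert_of_notMem hv, hN2]
    · have h4 := addv_ex e h N v hv hN3
      rw [← EP.ee3_t] at h4
      rw [← h4, ← hv3]
      exact h2
    · rw [h3, hv4, hv3]
      show (e.addv (e.enc (e.aP (e.par.bs N))) (e.yv v.val), _) = _
      rw [addv_eq e h N v hv]
  · intro N' hN'1 hN'2 hN'3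
    obtain ⟨v, N, rfl, hv, hN, hlt⟩ := ee3_last N' q hN'2
    have hN3 : ¬ e.par.ex1 N := fun hc => hN'3 (ee3_HasC_mono _ _ _ _ (subset_insert _ _) hc)
    have hN1 : N ⊆ e.par.Lab := (subset_insert _ _).trans hN'1
    have hvn : v.val < e.ee3_n := (ee3_mem_Lab e v).1 (hN'1 (mem_insert_self _ _))
    obtain ⟨pre, hpre⟩ := ee3_lbs_mem e N v hvn hlt
    rw [ee3_exts_mem]
    refine ⟨_, hl.2 N hN1 hN hN3, pre, e.yv v.val, e.lbs (insert v N), hpre, ?_, ?_⟩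
    · have h4 := addv_ex e h N v hv hN3
      rw [← EP.ee3_t] at h4
      exact h4.2 hN'3
    · show _ = (e.addv (e.enc (e.aP (e.par.bs N))) (e.yv v.val), _)
      rw [addv_eq e h N v hv]

theorem ee3_abs (T Q : ℕ → Bool) (r : Bool) (ys : List ℕ)
    (h : List.rec (motive := fun _ => Bool) r (fun y _ ih =>
      Bool.rec (motive := fun _ => Bool) ih (Bool.rec (motive := fun _ => Bool) false ih (Q y))
        (T y)) ys = true) : r = true ∧ ∀ y ∈ ys, T y = true → Q y = true := by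
  induction ys with
  | nil => exact ⟨h, by simp⟩
  | cons y ys ih =>
    have h0 : ∀ R : Bool, Bool.rec (motive := fun _ => Bool) R
        (Bool.rec (motive := fun _ => Bool) false R (Q y)) (T y) = true → (T y = true → Q y = true)
          ∧ R = true := by
      intro R
      cases T y <;> cases Q y <;> cases R <;> simp
    obtain ⟨h3, h4⟩ := h0 _ h
    obtain ⟨h1, h2⟩ := ih h4
    refine ⟨h1, ?_⟩
    intro z hz hz'
    rcases List.mem_cons.1 hz with rfl | hz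
    · exact h3 hz'
    · exact h2 z hz hz'

theorem ee3_z4y_gen (pl sJ l0 C mS CM HC ET PT x : ℕ) (ys : List ℕ) (r : Bool)
    (h : Eng.z4y pl sJ l0 C mS CM HC ET PT x ys r = true) :
    r = true ∧ ∀ y ∈ ys, Nat.beq (Nat.land (Nat.shiftRight ET (Nat.land (Nat.shiftRight
      (Nat.land x y) sJ) 255)) 1) 0 = true → Nat.ble (Nat.land (Nat.shiftRight (Nat.mul (Nat.land
        (Nat.sub HC (Nat.land (Nat.land x y) CM)) HC) C) pl) mS)
            (Nat.add (Nat.add (Nat.shiftRight x l0) (Nat.shiftRight y l0)) (Nat.land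
              (Nat.shiftRight PT (Nat.mul 16 (Nat.land (Nat.shiftRight (Nat.land x y) sJ) 255)))
              65535)) = true :=
  ee3_abs (fun y => Nat.beq (Nat.land (Nat.shiftRight ET (Nat.land (Nat.shiftRight
      (Nat.land x y) sJ) 255)) 1) 0) (fun y => Nat.ble (Nat.land (Nat.shiftRight (Nat.mul (Nat.land
        (Nat.sub HC (Nat.land (Nat.land x y) CM)) HC) C) pl) mS)
            (Nat.add (Nat.add (Nat.shiftRight x l0) (Nat.shiftRight y l0)) (Nat.land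
              (Nat.shiftRight PT (Nat.mul 16 (Nat.land (Nat.shiftRight (Nat.land x y) sJ) 255)))
              65535))) r ys h

theorem ee3_z4_gen (pl sJ l0 C mS CM HC ET PT : ℕ) (p : ℕ × List ℕ) (l : List (ℕ × List ℕ)) :
    Eng.z4 pl sJ l0 C mS CM HC ET PT (p :: l) =
      Eng.z4y pl sJ l0 C mS CM HC ET PT p.1 p.2 (Eng.z4 pl sJ l0 C mS CM HC ET PT l) := by
  obtain ⟨x, ys⟩ := p
  rfl

theorem ee3_z4y (e : EP) (x : ℕ) (ys : List ℕ) (r : Bool)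
    (h : Eng.z4y e.pl e.sJ e.l0 e.C e.mS e.CM e.HC e.ET e.PT x ys r = true) :
    r = true ∧ ∀ y ∈ ys, e.ee3_t x y = true → Nat.ble (e.ee3_w x y) (e.ee3_l x y) = true :=
  ee3_z4y_gen e.pl e.sJ e.l0 e.C e.mS e.CM e.HC e.ET e.PT x ys r h

theorem ee3_z4 (e : EP) (l : List (ℕ × List ℕ)) (h : e.z4 l = true) :
    ∀ p ∈ l, ∀ y ∈ p.2, e.ee3_t p.1 y = true → e.ee3_w p.1 y ≤ e.ee3_l p.1 y := by
  induction l with
  | nil => simp
  | cons p l ih =>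
    have h0 : e.z4 (p :: l) =
        Eng.z4y e.pl e.sJ e.l0 e.C e.mS e.CM e.HC e.ET e.PT p.1 p.2 (e.z4 l) := by
      unfold EP.z4
      exact ee3_z4_gen _ _ _ _ _ _ _ _ _ _ _
    rw [h0] at h
    obtain ⟨h1, h2⟩ := ee3_z4y e _ _ _ h
    intro p' hp'
    rcases List.mem_cons.1 hp' with rfl | hp'
    · intro y hy ht
      exact Nat.le_of_ble_eq_true (h2 y hy ht)
    · exact ih h1 p' hp'

/-- the check for four labels: `Eng.z4` goes through the list and `Eng.z4y` through the labels; `addv_wt`, `addv_ld`, `addv_ex` -/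
theorem z4_sound (e : EP) (h : e.Ok) (l : List (ℕ × List ℕ)) (hl : e.PInv 3 l)
    (hz : e.z4 l = true) : ∀ N ⊆ e.par.Lab, N.card = 4 → ¬ e.par.ex1 N →
    e.par.bw N ≤ 4 * e.par.lam + e.par.tau * eH e.par.H N := by
  intro N' hN'1 hN'2 hN'3
  obtain ⟨v, N, rfl, hv, hN, hlt⟩ := ee3_last N' 3 hN'2
  have hN3 : ¬ e.par.ex1 N := fun hc => hN'3 (ee3_HasC_mono _ _ _ _ (subset_insert _ _) hc)
  have hN1 : N ⊆ e.par.Lab := (subset_insert _ _).trans hN'1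
  have hvn : v.val < e.ee3_n := (ee3_mem_Lab e v).1 (hN'1 (mem_insert_self _ _))
  obtain ⟨pre, hpre⟩ := ee3_lbs_mem e N v hvn hlt
  have h4 := addv_ex e h N v hv hN3
  rw [← EP.ee3_t] at h4
  have h1 := ee3_z4 e l hz _ (hl.2 N hN1 hN hN3) (e.yv v.val)
    (by
      show e.yv v.val ∈ e.lbs N
      rw [hpre]
      simp) (h4.2 hN'3)
  have h2 : e.ee3_w (e.enc (e.aP (e.par.bs N))) (e.yv v.val) = e.par.bw (insert v N) := by
    have h5 := addv_wt e h N v hv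
    rw [← EP.ee3_w] at h5
    exact h5
  have h3 : e.ee3_l (e.enc (e.aP (e.par.bs N))) (e.yv v.val) =
      e.par.lam * (N.card + 1) + e.par.tau * eH e.par.H (insert v N) := by
    have h5 := addv_ld e h N v hv
    rw [← EP.ee3_l] at h5
    exact h5
  have h1' : e.ee3_w (e.enc (e.aP (e.par.bs N))) (e.yv v.val) ≤
    e.ee3_l (e.enc (e.aP (e.par.bs N))) (e.yv v.val) := h1
  rw [h2, h3, hN] at h1'
  calc e.par.bw (insert v N) ≤ e.par.lam * (3 + 1) + e.par.tau * eH e.par.H (insert v N) := h1'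
    _ = 4 * e.par.lam + e.par.tau * eH e.par.H (insert v N) := by ring

end Pool.Agent.MP_528dc0_co

end

section

open Finset

namespace Pool.Agent.MP_528dc0_co

open Eng (Lst It)

theorem ee4_dg (e : EP) (a : AS e.K) (k : Fin e.K) : (e.aP a).dg k ≤ 31 :=
  (pdig_bd (a.A k)).2

theorem ee4_cd_lt (e : EP) (h : e.Ok) (a : AS e.K) (j : ℕ) : e.cd (e.aP a) j < 2 ^ e.s := by
  have hp := ea6_pow e h
  have := ea6_cd_le e (e.aP a) (ee4_dg e a) j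
  omega

theorem ee4_andCM (e : EP) (h : e.Ok) (a : AS e.K) :
    e.enc (e.aP a) &&& e.CM = e.nf (e.cd (e.aP a)) (fun _ => 0) 0 := by
  have hp := ea6_pow e h
  rw [CM_eq e h]
  unfold EP.enc
  rw [nf_land e _ _ _ _ _ _ (ee4_cd_lt e h a) (ea6_lb_lt e h _ _)
    (fun j => by omega) (fun j => by omega)]
  apply ea6_nf_congr
  · intro j _
    exact ea6_and31 _ (ea6_cd_le e _ (ee4_dg e a) j)
  · intro j _
    simp
  · simp

theorem ee4_flag (e : EP) (h : e.Ok) (a : AS e.K) :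
    Nat.land (Nat.add (Nat.land (e.enc (e.aP a)) e.CM) e.F1) e.HC =
      e.nf (fun j => if e.cd (e.aP a) j = 31 then 32 else 0) (fun _ => 0) 0 := by
  have hp := ea6_pow e h
  change (e.enc (e.aP a) &&& e.CM) + e.F1 &&& e.HC = _
  rw [ee4_andCM e h a, F1_eq e h, HC_eq e h, nf_add, nf_land e _ _ _ _ _ _
    (fun j => by have := ea6_cd_le e _ (ee4_dg e a) j; omega) (fun j => by omega)
    (fun j => by omega) (fun j => by omega)]
  apply ea6_nf_congr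
  · intro j _
    exact ea6_flag _ (ea6_cd_le e _ (ee4_dg e a) j)
  · intro j _
    rfl
  · rfl

theorem ee4_ali (e : EP) (h : e.Ok) (a : AS e.K) :
    e.aliP (e.enc (e.aP a)) =
      e.nf (fun j => if e.cd (e.aP a) j = 31 then 0 else 32) (fun _ => 0) 0 := by
  unfold EP.aliP Eng.aliP
  rw [ee4_flag e h a, HC_eq e h]
  refine (nf_sub e _ _ _ _ _ _ (fun j => by split_ifs <;> omega) (fun j => le_rfl) le_rfl).trans ?_
  apply ea6_nf_congr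
  · intro j _
    split_ifs <;> rfl
  · intro j _
    rfl
  · rfl

theorem ee4_fl2 (e : EP) (h : e.Ok) (a : AS e.K) :
    Nat.sub e.HC (e.aliP (e.enc (e.aP a))) =
      e.nf (fun j => if e.cd (e.aP a) j = 31 then 32 else 0) (fun _ => 0) 0 := by
  rw [ee4_ali e h a, HC_eq e h]
  refine (nf_sub e _ _ _ _ _ _ (fun j => by split_ifs <;> omega) (fun j => le_rfl) le_rfl).trans ?_
  apply ea6_nf_congr
  · intro j _
    split_ifs <;> rfl
  · intro j _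
    rfl
  · rfl

/-- `slP` = alive weight minus load (`conv_weight`): the digit of a dead lane is `31`: `(31 + 1) &&& 32 = 32` -/
theorem slP_eq (e : EP) (h : e.Ok) (a : AS e.K) :
    e.slP (e.enc (e.aP a)) = e.par.aw a.A - a.ld := by
  have h0 : e.slP (e.enc (e.aP a)) = Nat.land (Nat.shiftRight (Nat.mul
      (e.aliP (e.enc (e.aP a))) e.C) e.pl) e.mS - (e.enc (e.aP a)) >>> e.l0 := by
    unfold EP.slP Eng.slP EP.aliP
    rfl
  have h1 : e.aliP (e.enc (e.aP a)) =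
      oc e.s (fun j => 32 * (if j < e.K then (if e.cd (e.aP a) j = 31 then 0 else 1) else 0))
        (e.K + 8) := by
    rw [ee4_ali e h a]
    unfold EP.nf
    rw [mul_zero, add_zero]
    apply oc_congr
    intro j _
    by_cases h1 : j < e.K
    · simp only [h1, if_true]
      split_ifs <;> rfl
    · simp only [h1, if_false, mul_zero]
  rw [h0, ea5_ld e h _ (ee4_dg e a), h1, conv_weight e h _ (fun j => by split_ifs <;> omega),
    sum_range_add]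
  have h2 : ∑ j ∈ range 8, (if e.K + j < e.K then
      (if e.cd (e.aP a) (e.K + j) = 31 then 0 else 1) else 0) * e.wl (e.K + j) = 0 := by
    refine sum_eq_zero fun j _ => ?_
    rw [if_neg (by omega), zero_mul]
  rw [h2, add_zero, sum_range]
  have h6 : ∑ i : Fin e.K, (if i.val < e.K then (if e.cd (e.aP a) i.val = 31 then 0 else 1) else 0) *
      e.wl i.val = e.par.aw a.A := by
    unfold Par.aw
    refine sum_congr rfl fun k _ => ?_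
    rw [if_pos k.isLt]
    have h3 : e.wl k.val = e.w k := by
      unfold EP.wl EP.w
      rw [if_pos k.isLt]
    have h4 : e.cd (e.aP a) k.val = pdig (a.A k) := by
      unfold EP.cd
      rw [dif_pos k.isLt]
      rfl
    rw [h3, h4]
    have h5 : e.par.w k = e.w k := rfl
    by_cases hA : a.A k = ∅
    · rw [if_pos ((pdig_31 _).2 hA), if_neg (by rw [hA]; exact Finset.not_nonempty_empty), zero_mul]
    · rw [if_neg (fun hc => hA ((pdig_31 _).1 hc)), if_pos (Finset.nonempty_iff_ne_empty.2 hA),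
        one_mul, h5]
  rw [h6]
  rfl

/-- `dig_pq` -/
theorem toQ_eq (e : EP) (h : e.Ok) (a : AS e.K) :
    e.toQ (e.enc (e.aP a)) = e.enc (e.aQ a) := by
  have hp := ea6_pow e h
  have h0 : e.toQ (e.enc (e.aP a)) = ((e.CM - (e.enc (e.aP a) &&& e.CM)) +
      (Nat.sub e.HC (e.aliP (e.enc (e.aP a))) - (Nat.sub e.HC (e.aliP (e.enc (e.aP a)))) >>> 5)) +
      ((e.enc (e.aP a) &&& e.X0) + ((e.enc (e.aP a)) >>> e.l0) <<< e.l0) := by
    unfold EP.toQ Eng.toQ EP.aliP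
    rfl
  have h5 : (Nat.sub e.HC (e.aliP (e.enc (e.aP a)))) >>> 5 =
      e.nf (fun j => if e.cd (e.aP a) j = 31 then 1 else 0) (fun _ => 0) 0 := by
    have h3 : Nat.sub e.HC (e.aliP (e.enc (e.aP a))) =
        32 * e.nf (fun j => if e.cd (e.aP a) j = 31 then 1 else 0) (fun _ => 0) 0 := by
      rw [ee4_fl2 e h a]
      unfold EP.nf
      rw [mul_zero, add_zero, add_zero, oc_smul]
      apply oc_congr
      intro j _
      by_cases h1 : j < e.K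
      · simp only [h1, if_true]
        split_ifs <;> rfl
      · simp only [h1, if_false, mul_zero]
    rw [h3, Nat.shiftRight_eq_div_pow]
    exact Nat.mul_div_cancel_left _ (by norm_num)
  have h6 : e.enc (e.aP a) &&& e.X0 = e.nf (fun _ => 0) (EP.lb a.N₁ a.N₂)
      (msk a.N₁ + 2 ^ 8 * msk a.N₂) := by
    rw [X0_eq e h]
    unfold EP.enc
    rw [nf_land e _ _ _ _ _ _ (ee4_cd_lt e h a) (ea6_lb_lt e h _ _) (fun j => by omega)
      (fun j => by omega)]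
    apply ea6_nf_congr
    · intro j _
      simp
    · intro j _
      have h1 := ea6_lb_le a.N₁ a.N₂ j
      show EP.lb a.N₁ a.N₂ j &&& 3 = _
      rw [show 3 = 2 ^ 2 - 1 by norm_num, Nat.and_two_pow_sub_one_eq_mod]
      omega
    · have h1 := msk_lt a.N₁
      have h2 := msk_lt a.N₂
      show (msk a.N₁ + 2 ^ 8 * msk a.N₂ + 2 ^ 16 * a.ld) &&& 65535 = _
      rw [show 65535 = 2 ^ 16 - 1 by norm_num, Nat.and_two_pow_sub_one_eq_mod]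
      omega
  have h7 : e.CM - e.nf (e.cd (e.aP a)) (fun _ => 0) 0 =
      e.nf (fun j => 31 - e.cd (e.aP a) j) (fun _ => 0) 0 := by
    rw [CM_eq e h, nf_sub e _ _ _ _ _ _ (ea6_cd_le e _ (ee4_dg e a)) (fun j => le_rfl) le_rfl]
  have h8 : e.nf (fun j => if e.cd (e.aP a) j = 31 then 32 else 0) (fun _ => 0) 0 -
      e.nf (fun j => if e.cd (e.aP a) j = 31 then 1 else 0) (fun _ => 0) 0 =
      e.nf (fun j => if e.cd (e.aP a) j = 31 then 31 else 0) (fun _ => 0) 0 := by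
    rw [nf_sub e _ _ _ _ _ _ (fun j => by split_ifs <;> omega) (fun j => le_rfl) le_rfl]
    apply ea6_nf_congr
    · intro j _
      split_ifs <;> rfl
    · intro j _
      rfl
    · rfl
  rw [h0, h5, ee4_fl2 e h a, h8, h6, ee4_andCM e h a, h7, ea5_ld e h _ (ee4_dg e a), ea6_shl,
    nf_add, nf_add, nf_add]
  unfold EP.enc
  apply ea6_nf_congr
  · intro j hj
    have h9 : e.cd (e.aP a) j = pdig (a.A ⟨j, hj⟩) := ea6_cd_of e _ j hj
    have h10 : e.cd (e.aQ a) j = qdig (a.A ⟨j, hj⟩) := ea6_cd_of e _ j hj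
    show 31 - e.cd (e.aP a) j + (if e.cd (e.aP a) j = 31 then 31 else 0) + (0 + 0) = _
    rw [h9, h10, dig_pq, add_zero, add_zero]
  · intro j _
    show 0 + 0 + (EP.lb a.N₁ a.N₂ j + 0) = EP.lb a.N₁ a.N₂ j
    omega
  · show 0 - 0 + (0 - 0) + (msk a.N₁ + 2 ^ 8 * msk a.N₂ + 2 ^ 16 * a.ld) =
      msk a.N₁ + 2 ^ 8 * msk a.N₂ + 2 ^ 16 * a.ld
    omega

/-- at most three labels: the base state is alive for a colouring iff it is injective -/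
theorem aw_bs (e : EP) (N : Finset (Fin 8)) (hN : N.card ≤ 3) :
    e.par.aw (e.par.bs N).A = e.par.bw N := by
  classical
  unfold Par.aw Par.bw Par.bs
  refine sum_congr rfl fun k _ => ?_
  have h1 : (if (N.image (e.par.φ k)).card = N.card then univ \ N.image (e.par.φ k) else
      (∅ : Finset (Fin 4))).Nonempty ↔ (N.image (e.par.φ k)).card = N.card := by
    by_cases hc : (N.image (e.par.φ k)).card = N.card
    · rw [if_pos hc]
      refine iff_of_true ?_ hc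
      rw [← Finset.card_pos, Finset.card_sdiff_of_subset (Finset.subset_univ _), Finset.card_univ,
        Fintype.card_fin, hc]
      omega
    · rw [if_neg hc]
      exact iff_of_false Finset.not_nonempty_empty hc
  by_cases hc : (N.image (e.par.φ k)).card = N.card
  · have h2 := h1.2 hc
    rw [if_pos (by convert h2), if_pos (by convert hc)]
  · have h2 := fun hn => hc (h1.1 hn)
    rw [if_neg (by convert h2), if_neg (by convert hc)]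

theorem ee4_filt (T : ℕ → ℕ) (thr : ℕ) (l : List (ℕ × List ℕ)) (a : ℕ × ℕ) :
    a ∈ (List.rec (motive := fun _ => List (ℕ × ℕ)) []
      (fun h _ ih => Prod.rec (motive := fun _ => List (ℕ × ℕ)) (fun x _ =>
        Bool.rec (motive := fun _ => List (ℕ × ℕ)) (List.cons (x, T x) ih) ih
          (Nat.ble (T x) thr)) h) l : List (ℕ × ℕ)) ↔
      ∃ ys, (a.1, ys) ∈ l ∧ a.2 = T a.1 ∧ thr < a.2 := by
  induction l with
  | nil => simp
  | cons p l ih =>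
    obtain ⟨x, zs⟩ := p
    have h1 : ∀ L : List (ℕ × ℕ), a ∈ (Bool.rec (motive := fun _ => List (ℕ × ℕ))
        (List.cons (x, T x) L) L (Nat.ble (T x) thr) : List (ℕ × ℕ)) ↔
        (a = (x, T x) ∧ thr < T x) ∨ a ∈ L := by
      intro L
      cases hb : Nat.ble (T x) thr with
      | false =>
        have h2 : thr < T x := by
          by_contra hc
          rw [Nat.ble_eq_true_of_le (not_lt.1 hc)] at hb
          exact absurd hb (by simp)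
        show a ∈ (x, T x) :: L ↔ _
        rw [List.mem_cons, and_iff_left h2]
      | true =>
        have h2 : ¬ thr < T x := not_lt.2 (Nat.le_of_ble_eq_true hb)
        show a ∈ L ↔ _
        simp [h2]
    refine (h1 _).trans ?_
    rw [ih]
    constructor
    · rintro (⟨h2, h3⟩ | ⟨ys, h2, h3⟩)
      · subst h2
        exact ⟨zs, List.mem_cons_self, rfl, h3⟩
      · exact ⟨ys, List.mem_cons_of_mem _ h2, h3⟩
    · rintro ⟨ys, h2, h3, h4⟩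
      rcases List.mem_cons.1 h2 with h2 | h2
      · left
        rw [Prod.mk.injEq] at h2
        have h5 : a = (x, T x) := by
          rw [← h2.1, ← h3]
        exact ⟨h5, by rw [h5] at h4; exact h4⟩
      · exact Or.inr ⟨ys, h2, h3, h4⟩

theorem filt_mem (e : EP) (thr : ℕ) (l : List (ℕ × List ℕ)) (a : ℕ × ℕ) :
    a ∈ e.filt thr l ↔ ∃ ys, (a.1, ys) ∈ l ∧ a.2 = e.slP a.1 ∧ thr < a.2 :=
  ee4_filt e.slP thr l a

theorem ee4_app (A : Lst → ℕ → ℕ → Lst) (s : ℕ → ℕ) (l : List (ℕ × ℕ)) : ∀ L : Lst,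
    (List.rec (motive := fun _ => Lst → Lst) (fun L => L)
      (fun h _ ih L => Prod.rec (motive := fun _ => Lst) (fun x _ => ih (A L x (s x))) h) l :
        Lst → Lst) L =
      (l.map (fun a => (a.1, s a.1))).foldl (fun L a => A L a.1 a.2) L := by
  induction l with
  | nil => intro L; rfl
  | cons p l ih =>
    obtain ⟨x, y⟩ := p
    intro L
    rw [List.map_cons, List.foldl_cons]
    exact ih _

/-- `Eng.appAll` appends one after another: the first element is in the highest lane -/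
theorem appAll_eq (e : EP) (l : List (ℕ × ℕ)) :
    e.appAll l ⟨0, 0, 0⟩ = e.pk ((l.map (fun a => (a.1, a.1 >>> e.l0))).reverse) := by
  unfold EP.pk
  rw [List.foldr_reverse]
  exact ee4_app (Eng.app e.W e.pl e.m0) (fun x => x >>> e.l0) l ⟨0, 0, 0⟩

theorem mapIt_mem (f : ℕ → ℕ → It) (l : List (ℕ × ℕ)) (tl : List It) (it : It) :
    it ∈ Eng.mapIt f l tl ↔ it ∈ tl ∨ ∃ a ∈ l, it = f a.1 a.2 := by
  induction l with
  | nil =>
    have h0 : Eng.mapIt f [] tl = tl := rfl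
    rw [h0]
    simp
  | cons p l ih =>
    have h0 : Eng.mapIt f (p :: l) tl = f p.1 p.2 :: Eng.mapIt f l tl := by
      obtain ⟨x, y⟩ := p
      rfl
    rw [h0, List.mem_cons, ih]
    constructor
    · rintro (h1 | h1 | ⟨a, h1, h2⟩)
      · exact Or.inr ⟨p, List.mem_cons_self, h1⟩
      · exact Or.inl h1
      · exact Or.inr ⟨a, List.mem_cons_of_mem _ h1, h2⟩
    · rintro (h1 | ⟨a, h1, h2⟩)
      · exact Or.inr (Or.inl h1)
      · rcases List.mem_cons.1 h1 with rfl | h1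
        · exact Or.inl h2
        · exact Or.inr (Or.inr ⟨a, h1, h2⟩)

theorem fsts_eq (l : List (ℕ × ℕ)) : Eng.fsts l = l.map Prod.fst := by
  induction l with
  | nil => rfl
  | cons p l ih =>
    have h0 : Eng.fsts (p :: l) = p.1 :: Eng.fsts l := by
      obtain ⟨x, y⟩ := p
      rfl
    rw [h0, ih, List.map_cons]

end Pool.Agent.MP_528dc0_co

end

section

open Finset

namespace Pool.Agent.MP_528dc0_co

open Eng (Lst It)

theorem ee5_P1 (e : EP) (h : e.Ok) : e.PInv 1 e.P1 := pinv_step e h 0 _ (pinv0 e h)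
theorem ee5_P2 (e : EP) (h : e.Ok) : e.PInv 2 e.P2 := pinv_step e h 1 _ (ee5_P1 e h)
theorem ee5_P3 (e : EP) (h : e.Ok) : e.PInv 3 e.P3 := pinv_step e h 2 _ (ee5_P2 e h)

theorem ee5_bw_le (e : EP) (N : Finset (Fin 8)) : e.par.bw N ≤ e.M := by
  classical
  rw [M_eq]
  unfold Par.bw
  refine sum_le_sum fun k _ => ?_
  have h1 : e.par.w k = e.w k := rfl
  rw [← h1]
  split_ifs
  · exact le_rfl
  · exact Nat.zero_le _

/-- the elements of the filtered lists -/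
theorem ee5_filt (e : EP) (h : e.Ok) (q : ℕ) (hq : q ≤ 3) (l : List (ℕ × List ℕ))
    (hl : e.PInv q l) (thr : ℕ) (a : ℕ × ℕ) (ha : a ∈ e.filt thr l) :
    ∃ N : Finset (Fin 8), a.1 = e.enc (e.aP (e.par.bs N)) ∧ (e.par.bs N).ld < 2 ^ e.s ∧
      e.par.aw (e.par.bs N).A ≤ a.2 + (e.par.bs N).ld := by
  obtain ⟨ys, h1, h2, h3⟩ := (filt_mem e thr l a).1 ha
  obtain ⟨N, -, hN, -, h4⟩ := hl.1 _ h1
  have h5 : a.1 = e.enc (e.aP (e.par.bs N)) := congrArg Prod.fst h4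
  rw [h5, slP_eq e h] at h2
  have h6 := aw_bs e N (by omega)
  have h7 := ee5_bw_le e N
  have h8 := h.hM
  refine ⟨N, h5, ?_, ?_⟩
  · rw [h6] at h2
    omega
  · omega

theorem ee5_okP (e : EP) (x : AS e.K) (hx : x.ld < 2 ^ e.s) : e.OkD (e.aP x) :=
  ⟨fun _ => (pdig_bd _).2, hx⟩

theorem ee5_okQ (e : EP) (x : AS e.K) (hx : x.ld < 2 ^ e.s) : e.OkD (e.aQ x) := by
  refine ⟨fun k => ?_, hx⟩
  show qdig (x.A k) ≤ 31
  rcases qdig_bd (x.A k) with h1 | h1 <;> omega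

theorem ee5_form (e : EP) (h : e.Ok) (q : ℕ) (hq : q ≤ 3) (l : List (ℕ × List ℕ))
    (hl : e.PInv q l) (thr : ℕ) (a : ℕ × ℕ)
    (ha : a ∈ ((e.filt thr l).map (fun a => (a.1, a.1 >>> e.l0))).reverse) :
    ∃ x : DS e.K, e.OkD x ∧ e.Pd x ∧ x.N₁ = x.N₂ ∧ a = (e.enc x, x.ld) := by
  rw [List.mem_reverse, List.mem_map] at ha
  obtain ⟨b, hb, rfl⟩ := ha
  obtain ⟨N, h1, h2, -⟩ := ee5_filt e h q hq l hl thr b hb
  refine ⟨e.aP (e.par.bs N), ee5_okP e _ h2, aP_dg e _, rfl, ?_⟩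
  rw [h1, ea5_ld e h _ (ee4_dg e _)]

/-- the elements of the static lists -/
theorem b1_form (e : EP) (h : e.Ok) : ∀ a ∈ e.b1, ∃ x : DS e.K, e.OkD x ∧ e.Pd x ∧ x.N₁ = x.N₂ ∧
    a = (e.enc x, x.ld) := fun a ha => ee5_form e h 3 le_rfl _ (ee5_P3 e h) _ a ha
theorem b2_form (e : EP) (h : e.Ok) : ∀ a ∈ e.b2, ∃ x : DS e.K, e.OkD x ∧ e.Pd x ∧ x.N₁ = x.N₂ ∧
    a = (e.enc x, x.ld) := fun a ha => ee5_form e h 2 (by norm_num) _ (ee5_P2 e h) _ a ha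
theorem b3_form (e : EP) (h : e.Ok) : ∀ a ∈ e.b3, ∃ x : DS e.K, e.OkD x ∧ e.Pd x ∧ x.N₁ = x.N₂ ∧
    a = e.enc x := by
  intro a ha
  unfold EP.b3 at ha
  rw [List.mem_map] at ha
  obtain ⟨b, hb, rfl⟩ := ha
  obtain ⟨N, h1, h2, -⟩ := ee5_filt e h 1 (by norm_num) _ (ee5_P1 e h) _ b hb
  exact ⟨e.aP (e.par.bs N), ee5_okP e _ h2, aP_dg e _, rfl, h1⟩

/-- `P1`, `P2`, `P3` enumerate the base states (`pinv0`, `pinv_step`); the filter gives `load < weight ≤ M < 2^s`, so the digit state is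
`OkD`; `toQ_eq`, `slP_eq`, `aw_eq`. -/
theorem st0_good (e : EP) (h : e.Ok) : ∀ it ∈ e.st0, e.GoodIt it := by
  intro it hit
  unfold EP.st0 at hit
  rw [mapIt_mem, mapIt_mem, mapIt_mem] at hit
  rcases hit with ((hit | ⟨a, ha, rfl⟩) | ⟨a, ha, rfl⟩) | ⟨a, ha, rfl⟩
  · exact absurd hit (List.not_mem_nil)
  · obtain ⟨N, h1, h2, h3⟩ := ee5_filt e h 3 le_rfl _ (ee5_P3 e h) _ a ha
    refine ⟨e.aQ (e.par.bs N), ee5_okQ e _ h2, aQ_dg e _, rfl, ?_, ?_⟩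
    · rw [h1, toQ_eq e h]
    · rw [← aw_eq]
      exact h3
  · obtain ⟨N, h1, h2, h3⟩ := ee5_filt e h 2 (by norm_num) _ (ee5_P2 e h) _ a ha
    refine ⟨e.aP (e.par.bs N), e.aQ (e.par.bs N), ee5_okP e _ h2, aP_dg e _, ee5_okQ e _ h2,
      aQ_dg e _, rfl, rfl, rfl, rfl, h1, ?_, ?_⟩
    · rw [h1, toQ_eq e h]
    · rw [← aw_eq]
      exact h3
  · obtain ⟨N, h1, h2, h3⟩ := ee5_filt e h 1 (by norm_num) _ (ee5_P1 e h) _ a ha
    refine ⟨e.aP (e.par.bs N), e.aQ (e.par.bs N), ee5_okP e _ h2, aP_dg e _, ee5_okQ e _ h2,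
      aQ_dg e _, rfl, rfl, rfl, rfl, h1, ?_, ?_⟩
    · rw [h1, toQ_eq e h]
    · rw [← aw_eq]
      exact h3

theorem ee5_in (e : EP) (h : e.Ok) (q : ℕ) (hq : q ≤ 3) (l : List (ℕ × List ℕ))
    (hl : e.PInv q l) (thr : ℕ) (N : Finset (Fin 8)) (hN : N ⊆ e.par.Lab) (hc : N.card = q)
    (hx : ¬ e.par.ex1 N)
    (hw : q * e.par.lam + e.par.tau * eH e.par.H N + thr < e.par.bw N) :
    (e.enc (e.aP (e.par.bs N)), e.par.bw N - (e.par.bs N).ld) ∈ e.filt thr l := by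
  rw [filt_mem]
  have h6 := aw_bs e N (by omega)
  refine ⟨e.lbs N, hl.2 N hN hc hx, ?_, ?_⟩
  · show _ = e.slP (e.enc (e.aP (e.par.bs N)))
    rw [slP_eq e h, h6]
  · show thr < e.par.bw N - (e.par.lam * N.card + e.par.tau * eH e.par.H N)
    rw [hc, Nat.mul_comm e.par.lam q]
    omega

/-- `filt_mem`, `slP_eq`, `aw_bs`, `mapIt_mem`, `toQ_eq`, `par_c1`, …; `z4_sound` -/
theorem bas_of (e : EP) (h : e.Ok) (hz : e.z4 e.P3 = true) (D : List It)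
    (hD : ∀ it ∈ e.st0, it ∈ D) : e.Bas e.b1 e.b2 e.b3 D := by
  refine ⟨z4_sound e h _ (ee5_P3 e h) hz, ?_, ?_, ?_⟩
  · intro N hN hc hx hw
    rw [par_c1] at hw
    have h1 := ee5_in e h 3 le_rfl _ (ee5_P3 e h) _ N hN hc hx hw
    refine ⟨?_, ?_⟩
    · show _ ∈ (e.G1.map (fun a => (a.1, a.1 >>> e.l0))).reverse
      rw [List.mem_reverse, List.mem_map]
      exact ⟨_, h1, by rw [ea5_ld e h _ (ee4_dg e _)]; rfl⟩
    · refine ⟨e.par.bw N - (e.par.bs N).ld, hD _ ?_⟩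
      unfold EP.st0
      rw [mapIt_mem, mapIt_mem, mapIt_mem, ← toQ_eq e h]
      exact Or.inl (Or.inl (Or.inr ⟨_, h1, rfl⟩))
  · intro N hN hc hx hw
    rw [par_c2] at hw
    have h1 := ee5_in e h 2 (by norm_num) _ (ee5_P2 e h) _ N hN hc hx hw
    refine ⟨?_, ?_⟩
    · show _ ∈ (e.G2.map (fun a => (a.1, a.1 >>> e.l0))).reverse
      rw [List.mem_reverse, List.mem_map]
      exact ⟨_, h1, by rw [ea5_ld e h _ (ee4_dg e _)]; rfl⟩
    · refine ⟨e.par.bw N - (e.par.bs N).ld, hD _ ?_⟩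
      unfold EP.st0
      rw [mapIt_mem, mapIt_mem, mapIt_mem, ← toQ_eq e h]
      exact Or.inl (Or.inr ⟨_, h1, rfl⟩)
  · intro N hN hc hx hw
    rw [par_c3 e h] at hw
    have h1 := ee5_in e h 1 (by norm_num) _ (ee5_P1 e h) _ N hN hc hx (by rw [Nat.one_mul]; exact hw)
    refine ⟨?_, ?_⟩
    · show _ ∈ e.G3.map Prod.fst
      rw [List.mem_map]
      exact ⟨_, h1, rfl⟩
    · refine ⟨e.par.bw N - (e.par.bs N).ld, hD _ ?_⟩
      unfold EP.st0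
      rw [mapIt_mem, mapIt_mem, mapIt_mem, ← toQ_eq e h]
      exact Or.inr ⟨_, h1, rfl⟩

end Pool.Agent.MP_528dc0_co

end

section

/-! Unfolding of the check, stage by stage (first with variables, then for the constants of `EP`). -/

open Finset

namespace Pool.Agent.MP_528dc0_co

open Eng

theorem frc_eq (n : ℕ) (f : ℕ → Bool) : Eng.frc n f = f n := rfl

theorem lst_eta (A : Lst) : Lst.mk (Vof A) (LVof A) (ONof A) = A := by cases A; rfl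

/-- the loop started by the check -/
noncomputable def EP.goC (e : EP) : Bool :=
  e.go (e.appAll e.G1 ⟨0, 0, 0⟩) (e.appAll e.G2 ⟨0, 0, 0⟩) (Eng.fsts e.G3) 100000 e.st0
    ⟨0, 0, 0⟩ ⟨0, 0, 0⟩ ⟨0, 0, 0⟩ ⟨0, 0, 0⟩ ⟨0, 0, 0⟩ ⟨0, 0, 0⟩ ⟨0, 0, 0⟩ ⟨0, 0, 0⟩ ⟨0, 0, 0⟩ ⟨0, 0, 0⟩

theorem chkX_gen (kf : ℕ) (lam : ℕ) (tau : ℕ) (oK : ℕ) (sJ : ℕ) (sj8 : ℕ) (l0 : ℕ) (W : ℕ) (pl : ℕ) (g : ℕ) (mS : ℕ) (mF : ℕ) (Hf : ℕ) (LMf : ℕ) (C : ℕ) (CM : ℕ) (HC : ℕ) (S16 : ℕ) (D1 : ℕ) (D3 : ℕ) (X0 : ℕ) (XL : ℕ) (XF : ℕ) (XY : ℕ) (CL : ℕ) (ET : ℕ) (E3 : ℕ) (PT : ℕ) (m0 : ℕ) (c1 : ℕ) (c2 : ℕ) (c3 : ℕ) (k0 : ℕ) (k1 : ℕ) (k2 : ℕ) (kp : ℕ) (k4 : ℕ) (kk : ℕ) (kV : ℕ) (kW : ℕ) (t1 : ℕ) (t2e : ℕ) (t2u : ℕ) (thT : ℕ) (th4 : ℕ) (th2 : ℕ) (thV : ℕ) (t4 : ℕ) (G3 : List (ℕ × ℕ)) (G2 : List (ℕ × ℕ)) (G1 : List (ℕ × ℕ)) (A1 : Lst) (A2 : Lst) :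
    chkX kf lam tau oK sJ sj8 l0 W pl g mS mF Hf LMf C CM HC S16 D1 D3 X0 XL XF XY CL ET E3 PT m0 c1 c2 c3 k0 k1 k2 kp k4 kk kV kW t1 t2e t2u thT th4 th2 thV t4 G3 G2 G1 A1 A2 =
      go kf W g pl sJ sj8 l0 Hf LMf C mF mS CM HC S16 D3 D1 X0 XL XF XY CL ET E3 PT oK lam tau m0 k0 k1 k2 c1 c2 c3 kp k4 kk kV kW t1 t2e t2u thT t2e th4 th2 thV t4 A1 A2 (fsts G3) 100000 (mapIt (fun p w => It.r3 p (toQ l0 CM HC X0 oK p) w) G3 (mapIt (fun p w => It.r2 p (toQ l0 CM HC X0 oK p) w) G2 (mapIt (fun p w => It.r1 (toQ l0 CM HC X0 oK p) w) G1 [])))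
        ⟨0, 0, 0⟩ ⟨0, 0, 0⟩ ⟨0, 0, 0⟩ ⟨0, 0, 0⟩ ⟨0, 0, 0⟩ ⟨0, 0, 0⟩ ⟨0, 0, 0⟩ ⟨0, 0, 0⟩ ⟨0, 0, 0⟩ ⟨0, 0, 0⟩ := by
  unfold chkX
  rw [frc_eq, frc_eq, frc_eq, frc_eq, frc_eq, frc_eq, lst_eta, lst_eta]

theorem chkX_eq (e : EP) : Eng.chkX e.kf e.lam e.tau e.oK e.sJ e.sj8 e.l0 e.W e.pl e.g e.mS e.mF e.Hf e.LMf e.C e.CM e.HC e.S16 e.D1 e.D3 e.X0 e.XL e.XF e.XY e.CL e.ET e.E3 e.PT e.m0 e.c1 e.c2 e.c3 e.k0 e.k1 e.k2 e.kp e.k4 e.kk e.kV e.kW e.t1 e.t2e e.t2u e.thT e.th4 e.th2 e.thV e.t4 e.G3 e.G2 e.G1 (e.appAll e.G1 ⟨0, 0, 0⟩) (e.appAll e.G2 ⟨0, 0, 0⟩) = e.goC := by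
  rw [chkX_gen]
  rfl

theorem chkU_gen (kf : ℕ) (lam : ℕ) (tau : ℕ) (oK : ℕ) (sJ : ℕ) (sj8 : ℕ) (l0 : ℕ) (W : ℕ) (pl : ℕ) (g : ℕ) (mS : ℕ) (mF : ℕ) (Hf : ℕ) (LMf : ℕ) (C : ℕ) (CM : ℕ) (HC : ℕ) (S16 : ℕ) (D1 : ℕ) (D3 : ℕ) (X0 : ℕ) (XL : ℕ) (XF : ℕ) (XY : ℕ) (CL : ℕ) (ET : ℕ) (E3 : ℕ) (PT : ℕ) (m0 : ℕ) (c1 : ℕ) (c2 : ℕ) (c3 : ℕ) (k0 : ℕ) (k1 : ℕ) (k2 : ℕ) (kp : ℕ) (k4 : ℕ) (kk : ℕ) (kV : ℕ) (kW : ℕ) (t1 : ℕ) (t2e : ℕ) (t2u : ℕ) (thT : ℕ) (th4 : ℕ) (th2 : ℕ) (thV : ℕ) (t4 : ℕ) (G3 : List (ℕ × ℕ)) (G2 : List (ℕ × ℕ)) (G1 : List (ℕ × ℕ)) (A1 : Lst) (A2 : Lst)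
    (hA1 : A1 = (appAll W pl l0 m0 G1 ⟨0, 0, 0⟩)) (hA2 : A2 = (appAll W pl l0 m0 G2 ⟨0, 0, 0⟩)) :
    chkU kf lam tau oK sJ sj8 l0 W pl g mS mF Hf LMf C CM HC S16 D1 D3 X0 XL XF XY CL ET E3 PT m0 c1 c2 c3 k0 k1 k2 kp k4 kk kV kW t1 t2e t2u thT th4 th2 thV t4 G3 G2 G1 =
      chkX kf lam tau oK sJ sj8 l0 W pl g mS mF Hf LMf C CM HC S16 D1 D3 X0 XL XF XY CL ET E3 PT m0 c1 c2 c3 k0 k1 k2 kp k4 kk kV kW t1 t2e t2u thT th4 th2 thV t4 G3 G2 G1 A1 A2 := by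
  subst hA1 hA2
  rfl

theorem chkU_eq (e : EP) (kg : ℕ) : Eng.chkU e.kf e.lam e.tau e.oK e.sJ e.sj8 e.l0 e.W e.pl e.g e.mS e.mF e.Hf e.LMf e.C e.CM e.HC e.S16 e.D1 e.D3 e.X0 e.XL e.XF e.XY e.CL e.ET e.E3 e.PT e.m0 e.c1 e.c2 e.c3 e.k0 e.k1 e.k2 e.kp e.k4 e.kk e.kV e.kW e.t1 e.t2e e.t2u e.thT e.th4 e.th2 e.thV e.t4 e.G3 e.G2 e.G1 =
      Eng.chkX e.kf e.lam e.tau e.oK e.sJ e.sj8 e.l0 e.W e.pl e.g e.mS e.mF e.Hf e.LMf e.C e.CM e.HC e.S16 e.D1 e.D3 e.X0 e.XL e.XF e.XY e.CL e.ET e.E3 e.PT e.m0 e.c1 e.c2 e.c3 e.k0 e.k1 e.k2 e.kp e.k4 e.kk e.kV e.kW e.t1 e.t2e e.t2u e.thT e.th4 e.th2 e.thV e.t4 e.G3 e.G2 e.G1 (e.appAll e.G1 ⟨0, 0, 0⟩) (e.appAll e.G2 ⟨0, 0, 0⟩) :=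
  chkU_gen _ _ _ _ _ _ _ _ _ _ _ _ _ _ _ _ _ _ _ _ _ _ _ _ _ _ _ _ _ _ _ _ _ _ _ _ _ _ _ _ _ _ _ _ _ _ _ _ _ _ _ _ _ rfl rfl

theorem chkZ_gen (kf : ℕ) (lam : ℕ) (tau : ℕ) (oK : ℕ) (sJ : ℕ) (sj8 : ℕ) (l0 : ℕ) (W : ℕ) (pl : ℕ) (g : ℕ) (mS : ℕ) (mF : ℕ) (Hf : ℕ) (LMf : ℕ) (C : ℕ) (CM : ℕ) (HC : ℕ) (S16 : ℕ) (D1 : ℕ) (D3 : ℕ) (X0 : ℕ) (XL : ℕ) (XF : ℕ) (XY : ℕ) (CL : ℕ) (ET : ℕ) (E3 : ℕ) (PT : ℕ) (m0 : ℕ) (c1 : ℕ) (c2 : ℕ) (c3 : ℕ) (k0 : ℕ) (k1 : ℕ) (k2 : ℕ) (kp : ℕ) (k4 : ℕ) (kk : ℕ) (kV : ℕ) (kW : ℕ) (t1 : ℕ) (t2e : ℕ) (t2u : ℕ) (thT : ℕ) (th4 : ℕ) (th2 : ℕ) (thV : ℕ) (t4 : ℕ) (P1l : List (ℕ × List ℕ)) (P2l : List (ℕ × List ℕ)) (P3l : List (ℕ × List ℕ)) (G3 : List (ℕ × ℕ)) (G2 : List (ℕ × ℕ)) (G1 : List (ℕ × ℕ))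
    (hG3 : G3 = (filt pl l0 C mS CM HC oK c3 P1l)) (hG2 : G2 = (filt pl l0 C mS CM HC oK c2 P2l)) (hG1 : G1 = (filt pl l0 C mS CM HC oK c1 P3l)) :
    chkZ kf lam tau oK sJ sj8 l0 W pl g mS mF Hf LMf C CM HC S16 D1 D3 X0 XL XF XY CL ET E3 PT m0 c1 c2 c3 k0 k1 k2 kp k4 kk kV kW t1 t2e t2u thT th4 th2 thV t4 P1l P2l P3l =
      andB (z4 pl sJ l0 C mS CM HC ET PT P3l) (chkU kf lam tau oK sJ sj8 l0 W pl g mS mF Hf LMf C CM HC S16 D1 D3 X0 XL XF XY CL ET E3 PT m0 c1 c2 c3 k0 k1 k2 kp k4 kk kV kW t1 t2e t2u thT th4 th2 thV t4 G3 G2 G1) := by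
  subst hG3 hG2 hG1
  rfl

theorem chkZ_eq (e : EP) (kg : ℕ) : Eng.chkZ e.kf e.lam e.tau e.oK e.sJ e.sj8 e.l0 e.W e.pl e.g e.mS e.mF e.Hf e.LMf e.C e.CM e.HC e.S16 e.D1 e.D3 e.X0 e.XL e.XF e.XY e.CL e.ET e.E3 e.PT e.m0 e.c1 e.c2 e.c3 e.k0 e.k1 e.k2 e.kp e.k4 e.kk e.kV e.kW e.t1 e.t2e e.t2u e.thT e.th4 e.th2 e.thV e.t4 e.P1 e.P2 e.P3 =
      Eng.andB (e.z4 e.P3) (Eng.chkU e.kf e.lam e.tau e.oK e.sJ e.sj8 e.l0 e.W e.pl e.g e.mS e.mF e.Hf e.LMf e.C e.CM e.HC e.S16 e.D1 e.D3 e.X0 e.XL e.XF e.XY e.CL e.ET e.E3 e.PT e.m0 e.c1 e.c2 e.c3 e.k0 e.k1 e.k2 e.kp e.k4 e.kk e.kV e.kW e.t1 e.t2e e.t2u e.thT e.th4 e.th2 e.thV e.t4 e.G3 e.G2 e.G1) :=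
  chkZ_gen _ _ _ _ _ _ _ _ _ _ _ _ _ _ _ _ _ _ _ _ _ _ _ _ _ _ _ _ _ _ _ _ _ _ _ _ _ _ _ _ _ _ _ _ _ _ _ _ _ _ _ _ _ _ rfl rfl rfl

theorem chkR_gen (kf : ℕ) (lam : ℕ) (tau : ℕ) (oK : ℕ) (sJ : ℕ) (sj8 : ℕ) (l0 : ℕ) (W : ℕ) (pl : ℕ) (g : ℕ) (mS : ℕ) (mF : ℕ) (Hf : ℕ) (LMf : ℕ) (C : ℕ) (CM : ℕ) (HC : ℕ) (S16 : ℕ) (D1 : ℕ) (D3 : ℕ) (X0 : ℕ) (XL : ℕ) (XF : ℕ) (XY : ℕ) (CL : ℕ) (ET : ℕ) (E3 : ℕ) (PT : ℕ) (m0 : ℕ) (c1 : ℕ) (c2 : ℕ) (c3 : ℕ) (k0 : ℕ) (k1 : ℕ) (k2 : ℕ) (kp : ℕ) (k4 : ℕ) (kk : ℕ) (kV : ℕ) (kW : ℕ) (t1 : ℕ) (t2e : ℕ) (t2u : ℕ) (thT : ℕ) (th4 : ℕ) (th2 : ℕ) (thV : ℕ) (t4 : ℕ) (P1l : List (ℕ × List ℕ)) (P2l : List (ℕ × List ℕ)) (P3l : List (ℕ × List ℕ))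
    (hP3l : P3l = (exts sJ sj8 l0 CM HC X0 ET PT P2l)) :
    chkR kf lam tau oK sJ sj8 l0 W pl g mS mF Hf LMf C CM HC S16 D1 D3 X0 XL XF XY CL ET E3 PT m0 c1 c2 c3 k0 k1 k2 kp k4 kk kV kW t1 t2e t2u thT th4 th2 thV t4 P1l P2l =
      chkZ kf lam tau oK sJ sj8 l0 W pl g mS mF Hf LMf C CM HC S16 D1 D3 X0 XL XF XY CL ET E3 PT m0 c1 c2 c3 k0 k1 k2 kp k4 kk kV kW t1 t2e t2u thT th4 th2 thV t4 P1l P2l P3l := by
  subst hP3l
  rfl

theorem chkR_eq (e : EP) (kg : ℕ) : Eng.chkR e.kf e.lam e.tau e.oK e.sJ e.sj8 e.l0 e.W e.pl e.g e.mS e.mF e.Hf e.LMf e.C e.CM e.HC e.S16 e.D1 e.D3 e.X0 e.XL e.XF e.XY e.CL e.ET e.E3 e.PT e.m0 e.c1 e.c2 e.c3 e.k0 e.k1 e.k2 e.kp e.k4 e.kk e.kV e.kW e.t1 e.t2e e.t2u e.thT e.th4 e.th2 e.thV e.t4 e.P1 e.P2 =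
      Eng.chkZ e.kf e.lam e.tau e.oK e.sJ e.sj8 e.l0 e.W e.pl e.g e.mS e.mF e.Hf e.LMf e.C e.CM e.HC e.S16 e.D1 e.D3 e.X0 e.XL e.XF e.XY e.CL e.ET e.E3 e.PT e.m0 e.c1 e.c2 e.c3 e.k0 e.k1 e.k2 e.kp e.k4 e.kk e.kV e.kW e.t1 e.t2e e.t2u e.thT e.th4 e.th2 e.thV e.t4 e.P1 e.P2 e.P3 :=
  chkR_gen _ _ _ _ _ _ _ _ _ _ _ _ _ _ _ _ _ _ _ _ _ _ _ _ _ _ _ _ _ _ _ _ _ _ _ _ _ _ _ _ _ _ _ _ _ _ _ _ _ _ _ rfl

theorem chkQ_gen (kf : ℕ) (lam : ℕ) (tau : ℕ) (oK : ℕ) (sJ : ℕ) (sj8 : ℕ) (l0 : ℕ) (W : ℕ) (pl : ℕ) (g : ℕ) (mS : ℕ) (mF : ℕ) (Hf : ℕ) (LMf : ℕ) (C : ℕ) (CM : ℕ) (HC : ℕ) (S16 : ℕ) (D1 : ℕ) (D3 : ℕ) (X0 : ℕ) (XL : ℕ) (XF : ℕ) (XY : ℕ) (CL : ℕ) (ET : ℕ) (E3 : ℕ) (PT : ℕ) (m0 : ℕ) (c1 : ℕ) (c2 : ℕ) (c3 : ℕ) (k0 : ℕ) (k1 : ℕ) (k2 : ℕ) (kp : ℕ) (k4 : ℕ) (kk : ℕ) (kV : ℕ) (kW : ℕ) (t1 : ℕ) (t2e : ℕ) (t2u : ℕ) (thT : ℕ) (th4 : ℕ) (th2 : ℕ) (thV : ℕ) (t4 : ℕ) (P1l : List (ℕ × List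 ℕ)) (P2l : List (ℕ × List ℕ))
    (hP2l : P2l = (exts sJ sj8 l0 CM HC X0 ET PT P1l)) :
    chkQ kf lam tau oK sJ sj8 l0 W pl g mS mF Hf LMf C CM HC S16 D1 D3 X0 XL XF XY CL ET E3 PT m0 c1 c2 c3 k0 k1 k2 kp k4 kk kV kW t1 t2e t2u thT th4 th2 thV t4 P1l =
      chkR kf lam tau oK sJ sj8 l0 W pl g mS mF Hf LMf C CM HC S16 D1 D3 X0 XL XF XY CL ET E3 PT m0 c1 c2 c3 k0 k1 k2 kp k4 kk kV kW t1 t2e t2u thT th4 th2 thV t4 P1l P2l := by
  subst hP2l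
  rfl

theorem chkQ_eq (e : EP) (kg : ℕ) : Eng.chkQ e.kf e.lam e.tau e.oK e.sJ e.sj8 e.l0 e.W e.pl e.g e.mS e.mF e.Hf e.LMf e.C e.CM e.HC e.S16 e.D1 e.D3 e.X0 e.XL e.XF e.XY e.CL e.ET e.E3 e.PT e.m0 e.c1 e.c2 e.c3 e.k0 e.k1 e.k2 e.kp e.k4 e.kk e.kV e.kW e.t1 e.t2e e.t2u e.thT e.th4 e.th2 e.thV e.t4 e.P1 =
      Eng.chkR e.kf e.lam e.tau e.oK e.sJ e.sj8 e.l0 e.W e.pl e.g e.mS e.mF e.Hf e.LMf e.C e.CM e.HC e.S16 e.D1 e.D3 e.X0 e.XL e.XF e.XY e.CL e.ET e.E3 e.PT e.m0 e.c1 e.c2 e.c3 e.k0 e.k1 e.k2 e.kp e.k4 e.kk e.kV e.kW e.t1 e.t2e e.t2u e.thT e.th4 e.th2 e.thV e.t4 e.P1 e.P2 :=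
  chkQ_gen _ _ _ _ _ _ _ _ _ _ _ _ _ _ _ _ _ _ _ _ _ _ _ _ _ _ _ _ _ _ _ _ _ _ _ _ _ _ _ _ _ _ _ _ _ _ _ _ _ _ rfl

theorem chkP_gen (kf : ℕ) (kg : ℕ) (lam : ℕ) (tau : ℕ) (oK : ℕ) (sJ : ℕ) (sj8 : ℕ) (l0 : ℕ) (W : ℕ) (pl : ℕ) (g : ℕ) (mS : ℕ) (mF : ℕ) (Hf : ℕ) (LMf : ℕ) (C : ℕ) (CM : ℕ) (HC : ℕ) (S16 : ℕ) (D1 : ℕ) (D3 : ℕ) (X0 : ℕ) (XL : ℕ) (XF : ℕ) (XY : ℕ) (CL : ℕ) (ET : ℕ) (E3 : ℕ) (PT : ℕ) (m0 : ℕ) (c1 : ℕ) (c2 : ℕ) (c3 : ℕ) (k0 : ℕ) (k1 : ℕ) (k2 : ℕ) (kp : ℕ) (k4 : ℕ) (kk : ℕ) (kV : ℕ) (kW : ℕ) (t1 : ℕ) (t2e : ℕ) (t2u : ℕ) (thT : ℕ) (th4 : ℕ) (th2 : ℕ) (thV : ℕ) (t4 : ℕ) (y0 : ℕ) (y1 : ℕ) (y2 : ℕ) (y3 : ℕ) (y4 : ℕ) (y5 : ℕ) (y6 : ℕ) (y7 : ℕ) (P1l : List (ℕ × List ℕ))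
    (hP1l : P1l = (exts sJ sj8 l0 CM HC X0 ET PT [(S16, Bool.rec (motive := fun _ => List Nat) [y0, y1, y2, y3, y4, y5] [y0, y1, y2, y3, y4, y5, y6, y7] (Nat.beq kf 1))])) :
    chkP kf kg lam tau oK sJ sj8 l0 W pl g mS mF Hf LMf C CM HC S16 D1 D3 X0 XL XF XY CL ET E3 PT m0 c1 c2 c3 k0 k1 k2 kp k4 kk kV kW t1 t2e t2u thT th4 th2 thV t4 y0 y1 y2 y3 y4 y5 y6 y7 =
      andB (prop CM kg (nthN [y0, y1, y2, y3, y4, y5, y6, y7])) (chkQ kf lam tau oK sJ sj8 l0 W pl g mS mF Hf LMf C CM HC S16 D1 D3 X0 XL XF XY CL ET E3 PT m0 c1 c2 c3 k0 k1 k2 kp k4 kk kV kW t1 t2e t2u thT th4 th2 thV t4 P1l) := by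
  subst hP1l
  rfl

theorem chkP_eq (e : EP) (kg : ℕ) : Eng.chkP e.kf kg e.lam e.tau e.oK e.sJ e.sj8 e.l0 e.W e.pl e.g e.mS e.mF e.Hf e.LMf e.C e.CM e.HC e.S16 e.D1 e.D3 e.X0 e.XL e.XF e.XY e.CL e.ET e.E3 e.PT e.m0 e.c1 e.c2 e.c3 e.k0 e.k1 e.k2 e.kp e.k4 e.kk e.kV e.kW e.t1 e.t2e e.t2u e.thT e.th4 e.th2 e.thV e.t4 (e.yv 0) (e.yv 1) (e.yv 2) (e.yv 3) (e.yv 4) (e.yv 5) (e.yv 6) (e.yv 7) =
      Eng.andB (Eng.prop e.CM kg (Eng.nthN [e.yv 0, e.yv 1, e.yv 2, e.yv 3, e.yv 4, e.yv 5, e.yv 6, e.yv 7])) (Eng.chkQ e.kf e.lam e.tau e.oK e.sJ e.sj8 e.l0 e.W e.pl e.g e.mS e.mF e.Hf e.LMf e.C e.CM e.HC e.S16 e.D1 e.D3 e.X0 e.XL e.XF e.XY e.CL e.ET e.E3 e.PT e.m0 e.c1 e.c2 e.c3 e.k0 e.k1 e.k2 e.kp e.k4 e.kk e.kV e.kW e.t1 e.t2e e.t2u e.thT e.th4 e.th2 e.thV e.t4 e.P1) :=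
  chkP_gen _ _ _ _ _ _ _ _ _ _ _ _ _ _ _ _ _ _ _ _ _ _ _ _ _ _ _ _ _ _ _ _ _ _ _ _ _ _ _ _ _ _ _ _ _ _ _ _ _ _ _ _ _ _ _ _ _ _ rfl

theorem chkY_gen (kf : ℕ) (h : ℕ) (kg : ℕ) (s : ℕ) (lam : ℕ) (tau : ℕ) (codes : List ℕ) (K : ℕ) (oK : ℕ) (sJ : ℕ) (sj8 : ℕ) (l0 : ℕ) (W : ℕ) (pl : ℕ) (g : ℕ) (mS : ℕ) (mF : ℕ) (Hf : ℕ) (LMf : ℕ) (C : ℕ) (CM : ℕ) (HC : ℕ) (S16 : ℕ) (D1 : ℕ) (D3 : ℕ) (X0 : ℕ) (XL : ℕ) (XF : ℕ) (XY : ℕ) (CL : ℕ) (ET : ℕ) (E3 : ℕ) (PT : ℕ) (m0 : ℕ) (c1 : ℕ) (c2 : ℕ) (c3 : ℕ) (k0 : ℕ) (k1 : ℕ) (k2 : ℕ) (kp : ℕ) (k4 : ℕ) (kk : ℕ) (kV : ℕ) (kW : ℕ) (t1 : ℕ) (t2e : ℕ) (t2u : ℕ) (thT : ℕ) (th4 : ℕ) (th2 : ℕ) (thV : ℕ) (t4 : ℕ) (y0 : ℕ) (y1 : ℕ) (y2 : ℕ) (y3 : ℕ) (y4 : ℕ) (y5 : ℕ) (y6 : ℕ) (y7 : ℕ)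
    (hy0 : y0 = yv s K sJ l0 lam h codes 0) (hy1 : y1 = yv s K sJ l0 lam h codes 1) (hy2 : y2 = yv s K sJ l0 lam h codes 2) (hy3 : y3 = yv s K sJ l0 lam h codes 3) (hy4 : y4 = yv s K sJ l0 lam h codes 4) (hy5 : y5 = yv s K sJ l0 lam h codes 5) (hy6 : y6 = yv s K sJ l0 lam h codes 6) (hy7 : y7 = yv s K sJ l0 lam h codes 7) :
    chkY kf h kg s lam tau codes K oK sJ sj8 l0 W pl g mS mF Hf LMf C CM HC S16 D1 D3 X0 XL XF XY CL ET E3 PT m0 c1 c2 c3 k0 k1 k2 kp k4 kk kV kW t1 t2e t2u thT th4 th2 thV t4 =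
      chkP kf kg lam tau oK sJ sj8 l0 W pl g mS mF Hf LMf C CM HC S16 D1 D3 X0 XL XF XY CL ET E3 PT m0 c1 c2 c3 k0 k1 k2 kp k4 kk kV kW t1 t2e t2u thT th4 th2 thV t4 y0 y1 y2 y3 y4 y5 y6 y7 := by
  subst hy0 hy1 hy2 hy3 hy4 hy5 hy6 hy7
  unfold chkY
  rw [frc_eq, frc_eq, frc_eq, frc_eq, frc_eq, frc_eq, frc_eq, frc_eq]

theorem chkY_eq (e : EP) (kg : ℕ) : Eng.chkY e.kf e.h kg e.s e.lam e.tau e.codes e.K e.oK e.sJ e.sj8 e.l0 e.W e.pl e.g e.mS e.mF e.Hf e.LMf e.C e.CM e.HC e.S16 e.D1 e.D3 e.X0 e.XL e.XF e.XY e.CL e.ET e.E3 e.PT e.m0 e.c1 e.c2 e.c3 e.k0 e.k1 e.k2 e.kp e.k4 e.kk e.kV e.kW e.t1 e.t2e e.t2u e.thT e.th4 e.th2 e.thV e.t4 =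
      Eng.chkP e.kf kg e.lam e.tau e.oK e.sJ e.sj8 e.l0 e.W e.pl e.g e.mS e.mF e.Hf e.LMf e.C e.CM e.HC e.S16 e.D1 e.D3 e.X0 e.XL e.XF e.XY e.CL e.ET e.E3 e.PT e.m0 e.c1 e.c2 e.c3 e.k0 e.k1 e.k2 e.kp e.k4 e.kk e.kV e.kW e.t1 e.t2e e.t2u e.thT e.th4 e.th2 e.thV e.t4 (e.yv 0) (e.yv 1) (e.yv 2) (e.yv 3) (e.yv 4) (e.yv 5) (e.yv 6) (e.yv 7) :=
  chkY_gen _ _ _ _ _ _ _ _ _ _ _ _ _ _ _ _ _ _ _ _ _ _ _ _ _ _ _ _ _ _ _ _ _ _ _ _ _ _ _ _ _ _ _ _ _ _ _ _ _ _ _ _ _ _ _ _ _ _ _ _ _ rfl rfl rfl rfl rfl rfl rfl rfl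

theorem chk5_gen (kf : ℕ) (h : ℕ) (kg : ℕ) (s : ℕ) (lam : ℕ) (tau : ℕ) (codes : List ℕ) (K : ℕ) (oK : ℕ) (sJ : ℕ) (sj8 : ℕ) (l0 : ℕ) (W : ℕ) (pl : ℕ) (g : ℕ) (mS : ℕ) (mF : ℕ) (Hf : ℕ) (LMf : ℕ) (C : ℕ) (CM : ℕ) (HC : ℕ) (S16 : ℕ) (D1 : ℕ) (D3 : ℕ) (X0 : ℕ) (XL : ℕ) (XF : ℕ) (XY : ℕ) (CL : ℕ) (ET : ℕ) (E3 : ℕ) (PT : ℕ) (m0 : ℕ) (c1 : ℕ) (c2 : ℕ) (c3 : ℕ) (k0 : ℕ) (k1 : ℕ) (k2 : ℕ) (kp : ℕ) (k4 : ℕ) (kk : ℕ) (kV : ℕ) (kW : ℕ) (t1 : ℕ) (t2e : ℕ) (t2u : ℕ) (thT : ℕ) (th4 : ℕ) (th2 : ℕ) (thV : ℕ) (t4 : ℕ)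
    (ht2e : t2e = Nat.mul 6 lam) (ht2u : t2u = Nat.mul 8 lam) (hthT : thT = Nat.add tau (Nat.mul 2 lam)) (hth4 : th4 = Nat.mul 4 lam) (hth2 : th2 = Nat.mul 2 lam) (hthV : thV = Nat.add (Nat.mul 2 lam) (Nat.mul 4 tau)) (ht4 : t4 = Nat.mul 4 tau) :
    chk5 kf h kg s lam tau codes K oK sJ sj8 l0 W pl g mS mF Hf LMf C CM HC S16 D1 D3 X0 XL XF XY CL ET E3 PT m0 c1 c2 c3 k0 k1 k2 kp k4 kk kV kW t1 =
      chkY kf h kg s lam tau codes K oK sJ sj8 l0 W pl g mS mF Hf LMf C CM HC S16 D1 D3 X0 XL XF XY CL ET E3 PT m0 c1 c2 c3 k0 k1 k2 kp k4 kk kV kW t1 t2e t2u thT th4 th2 thV t4 := by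
  subst ht2e ht2u hthT hth4 hth2 hthV ht4
  unfold chk5
  rw [frc_eq, frc_eq, frc_eq, frc_eq, frc_eq, frc_eq, frc_eq]

theorem chk5_eq (e : EP) (kg : ℕ) : Eng.chk5 e.kf e.h kg e.s e.lam e.tau e.codes e.K e.oK e.sJ e.sj8 e.l0 e.W e.pl e.g e.mS e.mF e.Hf e.LMf e.C e.CM e.HC e.S16 e.D1 e.D3 e.X0 e.XL e.XF e.XY e.CL e.ET e.E3 e.PT e.m0 e.c1 e.c2 e.c3 e.k0 e.k1 e.k2 e.kp e.k4 e.kk e.kV e.kW e.t1 =
      Eng.chkY e.kf e.h kg e.s e.lam e.tau e.codes e.K e.oK e.sJ e.sj8 e.l0 e.W e.pl e.g e.mS e.mF e.Hf e.LMf e.C e.CM e.HC e.S16 e.D1 e.D3 e.X0 e.XL e.XF e.XY e.CL e.ET e.E3 e.PT e.m0 e.c1 e.c2 e.c3 e.k0 e.k1 e.k2 e.kp e.k4 e.kk e.kV e.kW e.t1 e.t2e e.t2u e.thT e.th4 e.th2 e.thV e.t4 :=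
  chk5_gen _ _ _ _ _ _ _ _ _ _ _ _ _ _ _ _ _ _ _ _ _ _ _ _ _ _ _ _ _ _ _ _ _ _ _ _ _ _ _ _ _ _ _ _ _ _ _ _ _ _ _ _ _ rfl rfl rfl rfl rfl rfl rfl

theorem chk4_gen (kf : ℕ) (h : ℕ) (kg : ℕ) (s : ℕ) (lam : ℕ) (tau : ℕ) (codes : List ℕ) (K : ℕ) (oK : ℕ) (sJ : ℕ) (sj8 : ℕ) (l0 : ℕ) (W : ℕ) (pl : ℕ) (g : ℕ) (mS : ℕ) (mF : ℕ) (Hf : ℕ) (LMf : ℕ) (C : ℕ) (CM : ℕ) (HC : ℕ) (S16 : ℕ) (D1 : ℕ) (D3 : ℕ) (X0 : ℕ) (XL : ℕ) (XF : ℕ) (XY : ℕ) (CL : ℕ) (ET : ℕ) (E3 : ℕ) (PT : ℕ) (m0 : ℕ) (c1 : ℕ) (c2 : ℕ) (c3 : ℕ) (k0 : ℕ) (k1 : ℕ) (k2 : ℕ) (kp : ℕ) (k4 : ℕ) (kk : ℕ) (kV : ℕ) (kW : ℕ) (t1 : ℕ)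
    (hk0 : k0 = Nat.mul 8 tau) (hk1 : k1 = Nat.add k0 c1) (hk2 : k2 = Nat.add k0 c2) (hkp : kp = Nat.add k0 (minN (Nat.add tau (Nat.mul 2 lam)) (Nat.mul 6 lam))) (hk4 : k4 = Nat.add k0 (Nat.mul 4 lam)) (hkk : kk = Nat.add k0 (Nat.mul 2 lam)) (hkV : kV = Nat.add k0 (Nat.add (Nat.mul 2 lam) (Nat.mul 4 tau))) (hkW : kW = Nat.add k0 (Nat.add lam (Nat.mul 4 tau))) (ht1 : t1 = Nat.mul 5 lam) :
    chk4 kf h kg s lam tau codes K oK sJ sj8 l0 W pl g mS mF Hf LMf C CM HC S16 D1 D3 X0 XL XF XY CL ET E3 PT m0 c1 c2 c3 =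
      chk5 kf h kg s lam tau codes K oK sJ sj8 l0 W pl g mS mF Hf LMf C CM HC S16 D1 D3 X0 XL XF XY CL ET E3 PT m0 c1 c2 c3 k0 k1 k2 kp k4 kk kV kW t1 := by
  subst hk0 hk1 hk2 hkp hk4 hkk hkV hkW ht1
  unfold chk4
  rw [frc_eq, frc_eq, frc_eq, frc_eq, frc_eq, frc_eq, frc_eq, frc_eq, frc_eq]

theorem chk4_eq (e : EP) (kg : ℕ) : Eng.chk4 e.kf e.h kg e.s e.lam e.tau e.codes e.K e.oK e.sJ e.sj8 e.l0 e.W e.pl e.g e.mS e.mF e.Hf e.LMf e.C e.CM e.HC e.S16 e.D1 e.D3 e.X0 e.XL e.XF e.XY e.CL e.ET e.E3 e.PT e.m0 e.c1 e.c2 e.c3 =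
      Eng.chk5 e.kf e.h kg e.s e.lam e.tau e.codes e.K e.oK e.sJ e.sj8 e.l0 e.W e.pl e.g e.mS e.mF e.Hf e.LMf e.C e.CM e.HC e.S16 e.D1 e.D3 e.X0 e.XL e.XF e.XY e.CL e.ET e.E3 e.PT e.m0 e.c1 e.c2 e.c3 e.k0 e.k1 e.k2 e.kp e.k4 e.kk e.kV e.kW e.t1 :=
  chk4_gen _ _ _ _ _ _ _ _ _ _ _ _ _ _ _ _ _ _ _ _ _ _ _ _ _ _ _ _ _ _ _ _ _ _ _ _ _ _ _ _ _ _ _ _ _ _ rfl rfl rfl rfl rfl rfl rfl rfl rfl

theorem chk3_gen (kf : ℕ) (x3 : ℕ) (h : ℕ) (kg : ℕ) (s : ℕ) (lam : ℕ) (tau : ℕ) (codes : List ℕ) (K : ℕ) (oK : ℕ) (sJ : ℕ) (sj8 : ℕ) (l0 : ℕ) (W : ℕ) (pl : ℕ) (g : ℕ) (mS : ℕ) (mF : ℕ) (Hf : ℕ) (LMf : ℕ) (C : ℕ) (CM : ℕ) (HC : ℕ) (S16 : ℕ) (D1 : ℕ) (D3 : ℕ) (X0 : ℕ) (XL : ℕ) (XF : ℕ) (XY : ℕ) (CL : ℕ) (TT2 : ℕ) (TT3 : ℕ) (ET : ℕ) (E3 : ℕ) (PT : ℕ) (m0 : ℕ) (c1 : ℕ) (c2 : ℕ) (c3 : ℕ)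
    (hTT2 : TT2 = T2 h) (hTT3 : TT3 = T3 h) (hET : ET = Nat.add (Nat.mul kf TT2) (Nat.mul (Nat.sub 1 kf) TT3)) (hE3 : E3 = Nat.add (Nat.mul kf (Nat.sub (pow2 256) 2)) (Nat.mul (Nat.sub 1 kf) (Nat.add (Nat.mul x3 Q2) (Nat.mul (Nat.sub 1 x3) TT2)))) (hPT : PT = Nat.mul tau P1) (hm0 : m0 = pow2 (Nat.add s 2)) (hc1 : c1 = Nat.mul 3 lam) (hc2 : c2 = minN (Nat.mul 6 lam) (Nat.add (Nat.mul 4 lam) tau)) (hc3 : c3 = Nat.add (Nat.mul kf (minN (Nat.add c2 (Nat.mul 3 lam)) (Nat.add (Nat.mul 7 lam) tau))) (Nat.mul (Nat.sub 1 kf) (minN (minN (Nat.add c2 (Nat.mul 3 lam)) (Nat.add (Nat.mul 7 lam) tau)) (Nat.add (Nat.mul 3 lam) (Nat.mul 4 tau))))) :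
    chk3 kf x3 h kg s lam tau codes K oK sJ sj8 l0 W pl g mS mF Hf LMf C CM HC S16 D1 D3 X0 XL XF XY CL =
      chk4 kf h kg s lam tau codes K oK sJ sj8 l0 W pl g mS mF Hf LMf C CM HC S16 D1 D3 X0 XL XF XY CL ET E3 PT m0 c1 c2 c3 := by
  subst hTT2 hTT3 hET hE3 hPT hm0 hc1 hc2 hc3
  unfold chk3
  rw [frc_eq, frc_eq, frc_eq, frc_eq, frc_eq, frc_eq, frc_eq, frc_eq, frc_eq]

theorem chk3_eq (e : EP) (kg : ℕ) : Eng.chk3 e.kf e.x3 e.h kg e.s e.lam e.tau e.codes e.K e.oK e.sJ e.sj8 e.l0 e.W e.pl e.g e.mS e.mF e.Hf e.LMf e.C e.CM e.HC e.S16 e.D1 e.D3 e.X0 e.XL e.XF e.XY e.CL =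
      Eng.chk4 e.kf e.h kg e.s e.lam e.tau e.codes e.K e.oK e.sJ e.sj8 e.l0 e.W e.pl e.g e.mS e.mF e.Hf e.LMf e.C e.CM e.HC e.S16 e.D1 e.D3 e.X0 e.XL e.XF e.XY e.CL e.ET e.E3 e.PT e.m0 e.c1 e.c2 e.c3 :=
  chk3_gen _ _ _ _ _ _ _ _ _ _ _ _ _ _ _ _ _ _ _ _ _ _ _ _ _ _ _ _ _ _ _ _ _ _ _ _ _ _ _ _ rfl rfl rfl rfl rfl rfl rfl rfl rfl

theorem chk2_gen (kf : ℕ) (x3 : ℕ) (h : ℕ) (kg : ℕ) (s : ℕ) (lam : ℕ) (tau : ℕ) (codes : List ℕ) (K : ℕ) (oK : ℕ) (o8 : ℕ) (sK : ℕ) (sJ : ℕ) (sj8 : ℕ) (l0 : ℕ) (W : ℕ) (pl : ℕ) (g : ℕ) (mS : ℕ) (mF : ℕ) (Hf : ℕ) (LMf : ℕ) (C : ℕ) (CM : ℕ) (HC : ℕ) (S16 : ℕ) (D1 : ℕ) (D3 : ℕ) (X0 : ℕ) (XL : ℕ) (XF : ℕ) (XY : ℕ) (CL : ℕ)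
    (hHf : Hf = Nat.mul 32 (ones s (Nat.add K 8))) (hLMf : LMf = Nat.shiftLeft mS pl) (hC : C = Nat.add (Nat.shiftLeft (cW s codes 0) (Nat.mul 8 s)) (Nat.mul tau o8)) (hCM : CM = Nat.mul 31 oK) (hHC : HC = Nat.mul 32 oK) (hS16 : S16 = Nat.mul 16 oK) (hD1 : D1 = Nat.add CM (Nat.shiftLeft o8 sK)) (hD3 : D3 = Nat.add CM (Nat.shiftLeft (Nat.mul 3 o8) sK)) (hX0 : X0 = Nat.add (Nat.shiftLeft (Nat.mul 3 o8) sK) (Nat.shiftLeft 65535 sJ)) (hXL : XL = Nat.add (Nat.shiftLeft o8 sK) (Nat.shiftLeft 255 sJ)) (hXF : XF = Nat.add (Nat.shiftLeft (Nat.mul 2 o8) sK) (Nat.shiftLeft 255 sj8)) (hXY : XY = Nat.shiftLeft 255 sJ) (hCL : CL = Nat.add CM (Nat.shiftLeft mS l0)) :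
    chk2 kf x3 h kg s lam tau codes K oK o8 sK sJ sj8 l0 W pl g mS mF =
      chk3 kf x3 h kg s lam tau codes K oK sJ sj8 l0 W pl g mS mF Hf LMf C CM HC S16 D1 D3 X0 XL XF XY CL := by
  subst hHf hLMf hC hCM hHC hS16 hD1 hD3 hX0 hXL hXF hXY hCL
  unfold chk2
  rw [frc_eq, frc_eq, frc_eq, frc_eq, frc_eq, frc_eq, frc_eq, frc_eq, frc_eq, frc_eq, frc_eq, frc_eq, frc_eq]

theorem chk2_eq (e : EP) (kg : ℕ) : Eng.chk2 e.kf e.x3 e.h kg e.s e.lam e.tau e.codes e.K e.oK e.o8 e.sK e.sJ e.sj8 e.l0 e.W e.pl e.g e.mS e.mF =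
      Eng.chk3 e.kf e.x3 e.h kg e.s e.lam e.tau e.codes e.K e.oK e.sJ e.sj8 e.l0 e.W e.pl e.g e.mS e.mF e.Hf e.LMf e.C e.CM e.HC e.S16 e.D1 e.D3 e.X0 e.XL e.XF e.XY e.CL :=
  chk2_gen _ _ _ _ _ _ _ _ _ _ _ _ _ _ _ _ _ _ _ _ _ _ _ _ _ _ _ _ _ _ _ _ _ rfl rfl rfl rfl rfl rfl rfl rfl rfl rfl rfl rfl rfl

theorem chk1_gen (kf : ℕ) (x3 : ℕ) (h : ℕ) (kg : ℕ) (s : ℕ) (lam : ℕ) (tau : ℕ) (codes : List ℕ) (K : ℕ) (oK : ℕ) (o8 : ℕ) (sK : ℕ) (sJ : ℕ) (sj8 : ℕ) (l0 : ℕ) (W : ℕ) (pl : ℕ) (g : ℕ) (mS : ℕ) (mF : ℕ)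
    (hoK : oK = ones s K) (ho8 : o8 = ones s 8) (hsK : sK = Nat.mul s K) (hsJ : sJ = Nat.mul s (Nat.add K 8)) (hsj8 : sj8 = Nat.add sJ 8) (hl0 : l0 = Nat.add sJ 16) (hW : W = Nat.mul s (Nat.add K 11)) (hpl : pl = Nat.add (Nat.mul s (Nat.add K 7)) 5) (hg : g = Nat.add (Nat.mul s (Nat.add K 8)) 7) (hmS : mS = Nat.sub (pow2 s) 1) (hmF : mF = Nat.sub (pow2 W) 1) :
    chk1 kf x3 h kg s lam tau codes K =
      chk2 kf x3 h kg s lam tau codes K oK o8 sK sJ sj8 l0 W pl g mS mF := by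
  subst hoK ho8 hsK hsJ hsj8 hl0 hW hpl hg hmS hmF
  unfold chk1
  rw [frc_eq, frc_eq, frc_eq, frc_eq, frc_eq, frc_eq, frc_eq, frc_eq, frc_eq, frc_eq, frc_eq]

theorem chk1_eq (e : EP) (kg : ℕ) : Eng.chk1 e.kf e.x3 e.h kg e.s e.lam e.tau e.codes e.K =
      Eng.chk2 e.kf e.x3 e.h kg e.s e.lam e.tau e.codes e.K e.oK e.o8 e.sK e.sJ e.sj8 e.l0 e.W e.pl e.g e.mS e.mF :=
  chk1_gen _ _ _ _ _ _ _ _ _ _ _ _ _ _ _ _ _ _ _ _ rfl rfl rfl rfl rfl rfl rfl rfl rfl rfl rfl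

theorem chk_gen (kf x3 h kg s lam tau B T : ℕ) (codes : List ℕ) (K M : ℕ) (hK : K = len codes) (hM : M = sumW codes) :
    chk kf x3 h kg s lam tau B T codes =
      andB (Nat.ble 9 s) (andB (Nat.ble (Nat.add (Nat.add M (Nat.mul 8 tau)) 1) (pow2 s))
      (andB (Nat.ble (Nat.add (Nat.mul 12 lam) (Nat.mul 16 tau)) (pow2 (Nat.add s 1)))
      (andB (Nat.ble (Nat.mul 8 tau) 65535) (andB (Nat.ble kf 1) (andB (Nat.ble x3 1)
      (andB (Nat.ble (Nat.add (Nat.add (Nat.mul lam B) (Nat.mul T tau)) 1)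
        (Nat.add M (Nat.add (Nat.mul (Nat.mul 2 lam) (nE h)) (Nat.mul tau (nT h)))))
      (chk1 kf x3 h kg s lam tau codes K))))))) := by
  subst hK hM
  rfl

theorem chk_eq (kf x3 h kg s lam tau B T : ℕ) (codes : List ℕ) (e : EP)
    (he : e = ⟨kf, x3, h, s, lam, tau, codes⟩) :
    Eng.chk kf x3 h kg s lam tau B T codes =
      Eng.andB (Nat.ble 9 s) (Eng.andB (Nat.ble (Nat.add (Nat.add e.M (Nat.mul 8 tau)) 1) (Eng.pow2 s))
      (Eng.andB (Nat.ble (Nat.add (Nat.mul 12 lam) (Nat.mul 16 tau)) (Eng.pow2 (Nat.add s 1)))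
      (Eng.andB (Nat.ble (Nat.mul 8 tau) 65535) (Eng.andB (Nat.ble kf 1) (Eng.andB (Nat.ble x3 1)
      (Eng.andB (Nat.ble (Nat.add (Nat.add (Nat.mul lam B) (Nat.mul T tau)) 1)
        (Nat.add e.M (Nat.add (Nat.mul (Nat.mul 2 lam) (Eng.nE h)) (Nat.mul tau (Eng.nT h)))))
      (Eng.andB (Eng.prop e.CM kg (Eng.nthN [e.yv 0, e.yv 1, e.yv 2, e.yv 3, e.yv 4, e.yv 5, e.yv 6, e.yv 7]))
      (Eng.andB (e.z4 e.P3) e.goC)))))))) := by
  have h1 := chk_gen kf x3 h kg s lam tau B T codes e.K e.M (by rw [he]; rfl) (by rw [he]; rfl)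
  have h2 := chk1_eq e kg
  rw [chk2_eq e kg, chk3_eq e kg, chk4_eq e kg, chk5_eq e kg, chkY_eq e kg, chkP_eq e kg, chkQ_eq e kg, chkR_eq e kg,
    chkZ_eq e kg, chkU_eq e kg, chkX_eq e] at h2
  have h3 : e.kf = kf := by rw [he]
  have h4 : e.x3 = x3 := by rw [he]
  have h5 : e.h = h := by rw [he]
  have h6 : e.s = s := by rw [he]
  have h7 : e.lam = lam := by rw [he]
  have h8 : e.tau = tau := by rw [he]
  have h9 : e.codes = codes := by rw [he]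
  rw [h3, h4, h5, h6, h7, h8, h9] at h2
  rw [h1, h2]

end Pool.Agent.MP_528dc0_co

end

section

open Finset

namespace Pool.Agent.MP_528dc0_co

open Eng (Lst It)

theorem ef1_sumN (f : ℕ → ℕ) (n : ℕ) : Eng.sumN f n = ∑ i ∈ range n, f i := by
  induction n with
  | zero => rfl
  | succ n ih =>
    have h0 : Eng.sumN f (n + 1) = Eng.sumN f n + f n := rfl
    rw [h0, ih, Finset.sum_range_succ]

theorem ef1_nth (f : ℕ → ℕ) (i : Fin 8) :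
    Eng.nthN [f 0, f 1, f 2, f 3, f 4, f 5, f 6, f 7] i.val = f i.val := by
  fin_cases i <;> rfl

theorem ef1_pow (e : EP) (h : e.Ok) : 512 ≤ 2 ^ e.s := by
  calc 512 = 2 ^ 9 := by norm_num
    _ ≤ 2 ^ e.s := Nat.pow_le_pow_right (by norm_num) h.hs

theorem ef1_yc_lt (e : EP) (h : e.Ok) (v : Fin 8) (j : ℕ) : e.yc v j < 2 ^ e.s := by
  have h1 := ef1_pow e h
  unfold EP.yc
  split_ifs with hj
  · have h2 := (e.φ ⟨j, hj⟩ v).2
    have h3 : 2 ^ (e.φ ⟨j, hj⟩ v).val ≤ 2 ^ 3 := Nat.pow_le_pow_right (by norm_num) (by omega)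
    omega
  · omega

theorem ef1_nf_zero (e : EP) (c l : ℕ → ℕ) (t : ℕ) (h : e.nf c l t = 0) (j : ℕ) (hj : j < e.K) :
    c j = 0 := by
  unfold EP.nf at h
  have h1 : oc e.s (fun j => if j < e.K then c j else l (j - e.K)) (e.K + 8) = 0 := by omega
  unfold oc at h1
  have h2 := (Finset.sum_eq_zero_iff.1 h1) j (Finset.mem_range.2 (by omega))
  have h3 : (if j < e.K then c j else l (j - e.K)) * 2 ^ (e.s * j) = 0 := h2
  rw [if_pos hj] at h3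
  rcases Nat.mul_eq_zero.1 h3 with h4 | h4
  · exact h4
  · exact absurd h4 (by positivity)

theorem ef1_core (e : EP) (h : e.Ok) (k : Fin e.K) (a b : Fin 8)
    (h0 : (e.yv a.val &&& e.yv b.val) &&& e.CM = 0) : e.φ k a ≠ e.φ k b := by
  have hp := ef1_pow e h
  have hl : ∀ (v : Fin 8) (j : ℕ), (fun j => if j = v.val then 3 else 0) j < 2 ^ e.s := by
    intro v j
    show (if j = v.val then 3 else 0) < 2 ^ e.s
    split_ifs <;> omega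
  rw [yv_eq e h a, yv_eq e h b, CM_eq e h,
    nf_land e _ _ _ _ _ _ (ef1_yc_lt e h a) (hl a) (ef1_yc_lt e h b) (hl b),
    nf_land e _ _ _ _ _ _ (fun j => Nat.and_lt_two_pow _ (ef1_yc_lt e h b j))
      (fun j => Nat.and_lt_two_pow _ (hl b j)) (fun _ => by omega) (fun _ => by omega)] at h0
  have h1 := ef1_nf_zero e _ _ _ h0 k.val k.2
  have h2 : ((e.yc a k.val) &&& (e.yc b k.val)) &&& 31 = 0 := h1
  unfold EP.yc at h2
  rw [dif_pos k.2, dif_pos k.2] at h2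
  have h3 : ((2 ^ (e.φ k a).val) &&& (2 ^ (e.φ k b).val)) &&& 31 = 0 := h2
  intro hab
  rw [hab] at h3
  have h4 : ∀ c : Fin 4, ((2 ^ c.val) &&& (2 ^ c.val)) &&& 31 ≠ 0 := by decide
  exact h4 _ h3

theorem ef1_half (e : EP) (h : e.Ok) (kg : ℕ)
    (hp : Eng.prop e.CM kg (Eng.nthN [e.yv 0, e.yv 1, e.yv 2, e.yv 3, e.yv 4, e.yv 5, e.yv 6, e.yv 7]) = true)
    (k : Fin e.K) (a b : Fin 8) (hlt : a.val < b.val) (hab : Eng.adjn kg a.val b.val = 1) :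
    e.φ k a ≠ e.φ k b := by
  refine ef1_core e h k a b ?_
  have h1 : Eng.sumN (fun b => Eng.sumN (fun a => Eng.adjn kg a b *
      ((Eng.nthN [e.yv 0, e.yv 1, e.yv 2, e.yv 3, e.yv 4, e.yv 5, e.yv 6, e.yv 7] a &&&
        Eng.nthN [e.yv 0, e.yv 1, e.yv 2, e.yv 3, e.yv 4, e.yv 5, e.yv 6, e.yv 7] b) &&& e.CM)) b) 8 = 0 :=
    Nat.eq_of_beq_eq_true hp
  rw [ef1_sumN] at h1
  have h2 := (Finset.sum_eq_zero_iff.1 h1) b.val (Finset.mem_range.2 b.2)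
  rw [ef1_sumN] at h2
  have h3 := (Finset.sum_eq_zero_iff.1 h2) a.val (Finset.mem_range.2 hlt)
  rw [ef1_nth e.yv a, ef1_nth e.yv b, hab, one_mul] at h3
  exact h3

/-- A sum is zero iff all terms are; `yv_eq`, `nf_land`: `(y a &&& y b) &&& CM` has the digits `2^(φ k a) &&& 2^(φ k b)`, which is not
zero if `φ k a = φ k b`. Symmetry of `adjn` (`adjn_symm`). `Eng.nthN [y0, …, y7] i = y i` for `i < 8`. -/
theorem prop_sound (e : EP) (h : e.Ok) (kg : ℕ)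
    (hp : Eng.prop e.CM kg (Eng.nthN [e.yv 0, e.yv 1, e.yv 2, e.yv 3, e.yv 4, e.yv 5, e.yv 6, e.yv 7]) = true)
    (k : Fin e.K) (a b : Fin 8) (hab : (mkH kg).Adj a b) : e.φ k a ≠ e.φ k b := by
  rcases lt_trichotomy a.val b.val with h1 | h1 | h1
  · exact ef1_half e h kg hp k a b h1 hab
  · exact absurd (Fin.ext h1) hab.ne
  · exact (ef1_half e h kg hp k b a h1 hab.symm).symm

end Pool.Agent.MP_528dc0_co

end
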