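import Mathlib
import Pool.Agent.MP_528dc0_co.Cov
import Pool.Agent.MP_528dc0_co.Enc

/-!
# The enumeration of the graphs on the high-degree vertices
-/

section

/-!
# The enumeration of the graphs on the high-degree vertices: definitions
-/

open Finset

namespace Pool.Agent.MP_528dc0_co

/-- number of pairs of the first `n` vertices -/
def LL (n : ℕ) : ℕ := n * (n - 1) / 2

/-- `π` maps the graph `h` between `H` and `K`. -/
def Btw (H K h : ℕ) (π : Equiv.Perm (Fin 8)) : Prop :=
  ∀ a b : Fin 8, ((mkH H).Adj (π a) (π b) → (mkH h).Adj a b) ∧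
    ((mkH h).Adj a b → (mkH K).Adj (π a) (π b))

/-- the table entry `c` -/
def tabE (TAB c : ℕ) : ℕ := Nat.land (Nat.shiftRight TAB (Nat.mul 56 c)) 72057594037927935
def tabH (TAB c : ℕ) : ℕ := tabE TAB c % 2 ^ 28
def tabK (TAB c : ℕ) : ℕ := tabE TAB c / 2 ^ 28

/-- Every graph with `n` vertices (without `K₄` if `kf = 1`) is isomorphic to one in the list. -/
def RepsOf (kf n : ℕ) (G : List ℕ) : Prop :=
  ∀ h < 2 ^ LL n, (kf = 1 → (mkH h).CliqueFree 4) →
    ∃ g ∈ G, ∃ π : Equiv.Perm (Fin 8), (∀ a : Fin 8, n ≤ a.val → π a = a) ∧ Btw g g h π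

/-- Every graph with `n` vertices (without `K₄` if `kf = 1`) is between the graphs of a table entry. -/
def CovBy (kf n TAB len : ℕ) : Prop :=
  ∀ h < 2 ^ LL n, (kf = 1 → (mkH h).CliqueFree 4) →
    ∃ c < len, ∃ π : Equiv.Perm (Fin 8), (∀ a : Fin 8, n ≤ a.val → π a = a) ∧
      Btw (tabH TAB c) (tabK TAB c) h π

/-- the set of the set bits of `m` -/
def ms (m : ℕ) : Finset (Fin 8) := univ.filter (fun a : Fin 8 => m.testBit a.val = true)

/-- a certificate exists for the graphs between `h` and `kg` -/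
def Crt (kf x3 B T h kg : ℕ) : Prop :=
  ∃ s lam tau : ℕ, ∃ codes : List ℕ, Eng.chk kf x3 h kg s lam tau B T codes = true

/-- packed table of a list of pairs -/
def pack (l : List (ℕ × ℕ)) : ℕ := l.foldr (fun p r => p.1 + 2 ^ 28 * p.2 + 2 ^ 56 * r) 0

end Pool.Agent.MP_528dc0_co

end

section

open Finset

namespace Pool.Agent.MP_528dc0_co

private theorem cv1_eq (h a b : ℕ) : Eng.adjn h a b =
    (1 - (a + 1 - b)) * ((h >>> (b * (b - 1) / 2 + a)) % 2) +
    (1 - (b + 1 - a)) * ((h >>> (a * (a - 1) / 2 + b)) % 2) := rfl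

/-- for `a < b` the definition of `Eng.adjn` reduces to the bit -/
theorem adjn_lt (h a b : ℕ) (hab : a < b) :
    Eng.adjn h a b = (h.testBit (b * (b - 1) / 2 + a)).toNat := by
  rw [cv1_eq]
  have e1 : 1 - (a + 1 - b) = 1 := by omega
  have e2 : 1 - (b + 1 - a) = 0 := by omega
  rw [e1, e2, one_mul, zero_mul, add_zero, Nat.toNat_testBit, Nat.shiftRight_eq_div_pow]

private theorem cv1_LL (n : ℕ) : LL (n + 1) = LL n + n := by
  unfold LL
  cases n with
  | zero => rfl
  | succ m =>
    have h1 : (m + 1 + 1) * (m + 1 + 1 - 1) = (m + 1) * (m + 1 - 1) + 2 * (m + 1) := by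
      simp only [Nat.add_sub_cancel]
      ring
    rw [h1, Nat.add_mul_div_left _ _ (by norm_num : 0 < 2)]

private theorem cv1_mono : Monotone LL := by
  apply monotone_nat_of_le_succ
  intro n
  rw [cv1_LL]
  omega

/-- `b (b - 1) / 2 + a < n (n - 1) / 2` for `a < b < n` -/
theorem idx_lt (n a b : ℕ) (hab : a < b) (hb : b < n) : b * (b - 1) / 2 + a < LL n := by
  have h1 : LL (b + 1) ≤ LL n := cv1_mono hb
  rw [cv1_LL] at h1
  have h2 : LL b = b * (b - 1) / 2 := rfl
  omega

/-- the graph `g` extended by the vertex `n` with neighbours `m` -/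
theorem ext_adj (n g m : ℕ) (hg : g < 2 ^ LL n) (hm : m < 2 ^ n) (a b : ℕ) (hab : a < b) :
    Eng.adjn (g + 2 ^ LL n * m) a b =
      if b < n then Eng.adjn g a b else if b = n then (m.testBit a).toNat else 0 := by
  rw [adjn_lt _ _ _ hab, adjn_lt _ _ _ hab, Nat.add_comm g, Nat.testBit_two_pow_mul_add _ hg]
  have h2 : LL b = b * (b - 1) / 2 := rfl
  rw [← h2]
  by_cases h3 : b < n
  · have h4 : LL b + a < LL n := idx_lt n a b hab h3
    rw [if_pos h3, if_pos h4]
  · rw [if_neg h3]
    have h5 : LL n ≤ LL b := cv1_mono (by omega)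
    have h4 : ¬ LL b + a < LL n := by omega
    rw [if_neg h4]
    by_cases h6 : b = n
    · subst h6
      rw [if_pos rfl, Nat.add_sub_cancel_left]
    · rw [if_neg h6]
      have h7 : LL (n + 1) ≤ LL b := cv1_mono (by omega)
      rw [cv1_LL] at h7
      have h8 : m < 2 ^ (LL b + a - LL n) :=
        lt_of_lt_of_le hm (Nat.pow_le_pow_right (by norm_num) (by omega))
      rw [Nat.testBit_lt_two_pow h8]
      rfl

theorem LL_succ (n : ℕ) : LL (n + 1) = LL n + n := cv1_LL n

private theorem cv1_inj : ∀ a b c d : Fin 8, a < b → c < d →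
    b.val * (b.val - 1) / 2 + a.val = d.val * (d.val - 1) / 2 + c.val → a = c ∧ b = d := by
  decide +kernel

private theorem cv1_sur : ∀ i : Fin 28, ∃ a b : Fin 8, a < b ∧
    b.val * (b.val - 1) / 2 + a.val = i.val := by
  decide +kernel

private theorem cv1_adj (h : ℕ) (a b : Fin 8) (hab : a < b) :
    (mkH h).Adj a b ↔ h.testBit (b.val * (b.val - 1) / 2 + a.val) = true := by
  have h0 : (mkH h).Adj a b ↔ Eng.adjn h a.val b.val = 1 := Iff.rfl
  rw [h0, adjn_lt _ _ _ hab]
  cases h.testBit (b.val * (b.val - 1) / 2 + a.val) <;> simp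

/-- every graph has a mask: sum of the bits over the pairs -/
theorem exists_mask (H : SimpleGraph (Fin 8)) : ∃ h < 2 ^ 28, mkH h = H := by
  classical
  let f : Fin 28 → Bool := fun i => decide (∃ a b : Fin 8, a < b ∧
    b.val * (b.val - 1) / 2 + a.val = i.val ∧ H.Adj a b)
  have key : ∀ a b : Fin 8, a < b → ((mkH (Nat.ofBits f)).Adj a b ↔ H.Adj a b) := by
    intro a b hab
    rw [cv1_adj _ _ _ hab]
    have hlt : b.val * (b.val - 1) / 2 + a.val < 28 := idx_lt 8 a.val b.val hab b.2
    rw [Nat.testBit_ofBits_lt f _ hlt]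
    simp only [f, decide_eq_true_eq]
    constructor
    · rintro ⟨c, d, hcd, h1, h2⟩
      obtain ⟨e1, e2⟩ := cv1_inj c d a b hcd hab h1
      rw [← e1, ← e2]
      exact h2
    · intro h2
      exact ⟨a, b, hab, rfl, h2⟩
  refine ⟨Nat.ofBits f, Nat.ofBits_lt_two_pow f, ?_⟩
  ext a b
  rcases lt_trichotomy a b with hab | hab | hab
  · exact key a b hab
  · subst hab
    exact ⟨fun h => absurd h ((mkH _).loopless.irrefl a), fun h => absurd h (H.loopless.irrefl a)⟩
  · rw [SimpleGraph.adj_comm, SimpleGraph.adj_comm H]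
    exact key b a hab

/-- the bits of `h` are edges; a mask below `2^28` with all edges inside the first `n` vertices is below `2^(LL n)` -/
theorem mask_lt (n h : ℕ) (hn : n ≤ 8) (hh : h < 2 ^ 28)
    (he : ∀ a b : Fin 8, (mkH h).Adj a b → a.val < n ∧ b.val < n) : h < 2 ^ LL n := by
  apply Nat.lt_pow_two_of_testBit
  intro i hi
  by_cases h1 : i < 28
  · obtain ⟨a, b, hab, h2⟩ := cv1_sur ⟨i, h1⟩
    simp only at h2
    by_contra h3
    rw [Bool.not_eq_false, ← h2, ← cv1_adj _ _ _ hab] at h3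
    have h4 := (he a b h3).2
    have h5 := idx_lt n a.val b.val hab h4
    omega
  · exact Nat.testBit_lt_two_pow (lt_of_lt_of_le hh (Nat.pow_le_pow_right (by norm_num) (by omega)))

private theorem cv1_inside (n h : ℕ) (hh : h < 2 ^ LL n) (a b : Fin 8) (hlt : a < b)
    (hab : (mkH h).Adj a b) : b.val < n := by
  rw [cv1_adj _ _ _ hlt] at hab
  by_contra h1
  have h2 : LL n ≤ LL b.val := cv1_mono (by omega)
  have h3 : LL b.val = b.val * (b.val - 1) / 2 := rfl
  have h4 : h < 2 ^ (b.val * (b.val - 1) / 2 + a.val) :=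
    lt_of_lt_of_le hh (Nat.pow_le_pow_right (by norm_num) (by omega))
  rw [Nat.testBit_lt_two_pow h4] at hab
  exact Bool.false_ne_true hab

theorem mask_inside (n h : ℕ) (hh : h < 2 ^ LL n) (a b : Fin 8) (hab : (mkH h).Adj a b) :
    a.val < n ∧ b.val < n := by
  rcases lt_trichotomy a b with h1 | h1 | h1
  · have h2 := cv1_inside n h hh a b h1 hab
    have h3 : a.val < b.val := h1
    omega
  · exact absurd hab (by rw [h1]; exact (mkH _).loopless.irrefl b)
  · have h2 := cv1_inside n h hh b a h1 hab.symm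
    have h3 : b.val < a.val := h1
    omega

/-- relabelling by a permutation (`exists_mask` for the mapped graph, `mask_lt`) -/
theorem relabel (n h : ℕ) (hn : n ≤ 8) (hh : h < 2 ^ LL n) (π : Equiv.Perm (Fin 8))
    (hπ : ∀ a : Fin 8, n ≤ a.val → π a = a) :
    ∃ h' < 2 ^ LL n, ∀ a b : Fin 8, (mkH h').Adj (π a) (π b) ↔ (mkH h).Adj a b := by
  obtain ⟨h', h1, h2⟩ := exists_mask ((mkH h).comap π.symm)
  have h3 : ∀ a b : Fin 8, (mkH h').Adj a b ↔ (mkH h).Adj (π.symm a) (π.symm b) := by
    intro a b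
    rw [h2, SimpleGraph.comap_adj]
  have h5 : ∀ a : Fin 8, (π.symm a).val < n → a.val < n := by
    intro a ha
    by_contra h6
    have h7 : π.symm a = a := by
      rw [Equiv.symm_apply_eq]
      exact (hπ a (by omega)).symm
    rw [h7] at ha
    exact h6 ha
  refine ⟨h', mask_lt n h' hn h1 ?_, ?_⟩
  · intro a b hab
    rw [h3] at hab
    have h4 := mask_inside n h hh _ _ hab
    exact ⟨h5 a h4.1, h5 b h4.2⟩
  · intro a b
    rw [h3, Equiv.symm_apply_apply, Equiv.symm_apply_apply]

/-- the induced graph on the first `n` vertices and the neighbours of the vertex `n` -/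
theorem split_mask (n h : ℕ) (hh : h < 2 ^ LL (n + 1)) :
    ∃ g < 2 ^ LL n, ∃ m < 2 ^ n, h = g + 2 ^ LL n * m := by
  rw [cv1_LL, pow_add] at hh
  refine ⟨h % 2 ^ LL n, Nat.mod_lt _ (by positivity), h / 2 ^ LL n,
    Nat.div_lt_of_lt_mul hh, (Nat.mod_add_div _ _).symm⟩

end Pool.Agent.MP_528dc0_co

end

section

open Finset

namespace Pool.Agent.MP_528dc0_co

/-- image of `a` -/
def tv (t a : ℕ) : ℕ := Nat.land (Nat.shiftRight t (Nat.mul 3 a)) 7

private theorem cv2_orN (f : ℕ → ℕ) (n m : ℕ) :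
    (Eng.orN f n).testBit m = true ↔ ∃ i, i < n ∧ (f i).testBit m = true := by
  induction n with
  | zero =>
    have h0 : Eng.orN f 0 = 0 := rfl
    rw [h0]
    simp
  | succ n ih =>
    have h0 : Eng.orN f (n + 1) = Eng.orN f n ||| f n := rfl
    rw [h0, Nat.testBit_or, Bool.or_eq_true, ih]
    constructor
    · rintro (⟨i, hi, h⟩ | h)
      · exact ⟨i, by omega, h⟩
      · exact ⟨n, by omega, h⟩
    · rintro ⟨i, hi, h⟩
      by_cases h1 : i < n
      · exact Or.inl ⟨i, h1, h⟩
      · have h2 : i = n := by omega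
        rw [h2] at h
        exact Or.inr h

theorem cv2_tv_eq (t a : ℕ) : tv t a = (t >>> (3 * a)) % 8 := by
  have h : tv t a = (t >>> (3 * a)) &&& (2 ^ 3 - 1) := rfl
  rw [h, Nat.and_two_pow_sub_one_eq_mod]

theorem cv2_tv_lt (t a : ℕ) : tv t a < 8 := by
  rw [cv2_tv_eq]
  exact Nat.mod_lt _ (by norm_num)

/-- the eight values `tv t a` are below 8, and every bit of `255` is set in the OR of the `2^(t a)`: surjective, hence bijective -/
theorem ps_perm (t : ℕ) (h : Cv.ps t = 255) :
    ∃ π : Equiv.Perm (Fin 8), ∀ a : Fin 8, (π a).val = tv t a.val := by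
  have h1 : ∀ v < 8, ∃ a, a < 8 ∧ tv t a = v := by
    intro v hv
    have h2 : (Cv.ps t).testBit v = true := by
      rw [h]
      have h3 : ∀ v < 8, Nat.testBit 255 v = true := by decide
      exact h3 v hv
    unfold Cv.ps at h2
    rw [cv2_orN] at h2
    obtain ⟨a, ha, h3⟩ := h2
    refine ⟨a, ha, ?_⟩
    have h4 : (1 <<< tv t a).testBit v = true := h3
    rw [Nat.one_shiftLeft, Nat.testBit_two_pow] at h4
    exact of_decide_eq_true h4
  let f : Fin 8 → Fin 8 := fun a => ⟨tv t a.val, cv2_tv_lt t a.val⟩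
  have hf : Function.Surjective f := by
    intro v
    obtain ⟨a, ha, h2⟩ := h1 v.val v.2
    exact ⟨⟨a, ha⟩, Fin.ext h2⟩
  exact ⟨Equiv.ofBijective f (Finite.injective_iff_bijective.1 (Finite.injective_iff_surjective.2 hf)), fun a => rfl⟩

/-- `16434824` is the packed identity, `∑ a * 8^a` -/
theorem fix_of (t n : ℕ) (hn : n + 1 ≤ 8)
    (h : Nat.shiftRight t (Nat.mul 3 (Nat.add n 1)) = Nat.shiftRight 16434824 (Nat.mul 3 (Nat.add n 1)))
    (a : ℕ) (ha : n < a) (ha' : a < 8) : tv t a = a := by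
  have h1 : t >>> (3 * (n + 1)) = 16434824 >>> (3 * (n + 1)) := h
  have h2 : ∀ x : ℕ, x >>> (3 * a) = (x >>> (3 * (n + 1))) >>> (3 * a - 3 * (n + 1)) := by
    intro x
    rw [← Nat.shiftRight_add]
    congr 1
    omega
  have h3 : tv t a = tv 16434824 a := by
    rw [cv2_tv_eq, cv2_tv_eq, h2 t, h2 16434824, h1]
  rw [h3]
  have h4 : ∀ a < 8, tv 16434824 a = a := by decide +kernel
  exact h4 a ha'

private theorem cv2_IX : ∀ x < 8, ∀ y < 8, x ≠ y →
    Nat.land (Nat.shiftRight Cv.IX (Nat.mul 5 (Nat.add (Nat.mul 8 x) y))) 31 =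
      max x y * (max x y - 1) / 2 + min x y := by
  decide +kernel

/-- the position table (64 cases) -/
theorem IX_eq (x y : ℕ) (hx : x < 8) (hy : y < 8) (hxy : x ≠ y) :
    Nat.land (Nat.shiftRight Cv.IX (Nat.mul 5 (Nat.add (Nat.mul 8 x) y))) 31 =
      max x y * (max x y - 1) / 2 + min x y := cv2_IX x hx y hy hxy

/-- the fold of the pull back -/
def cv2_F (g : ℕ → ℕ) (l : List ℕ) : ℕ := l.foldr (fun p r => 2 * r + g p) 0

/-- the position of the pair `p` -/
def cv2_ix (t p : ℕ) : ℕ := Nat.land (Nat.shiftRight Cv.IX (Nat.mul 5 (Nat.add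
      (Nat.mul 8 (Nat.land (Nat.shiftRight t (Nat.land p 31)) 7))
      (Nat.land (Nat.shiftRight t (Nat.shiftRight p 5)) 7)))) 31

theorem cv2_rec (G : ℕ → ℕ) (l : List ℕ) :
    (List.rec (motive := fun _ => ℕ) 0 (fun p _ ih => Nat.add (Nat.mul 2 ih) (G p)) l : ℕ) = cv2_F G l := by
  induction l with
  | nil => rfl
  | cons p l ih =>
    show Nat.add (Nat.mul 2 _) (G p) = 2 * cv2_F G l + G p
    rw [ih]
    rfl

theorem cv2_prm (t hk : ℕ) : Cv.prm t hk =
    cv2_F (fun p => Nat.land (Nat.shiftRight hk (cv2_ix t p)) 268435457) Cv.PL :=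
  cv2_rec (fun p => Nat.land (Nat.shiftRight hk (cv2_ix t p)) 268435457) Cv.PL

theorem cv2_land (x : ℕ) : Nat.land x 268435457 = (x.testBit 0).toNat + 2 ^ 28 * (x.testBit 28).toNat := by
  have h1 : (268435457 : ℕ) = 2 ^ 28 ||| 1 := by decide
  have h2 : Nat.land x 268435457 = x &&& (2 ^ 28 ||| 1) := by
    rw [← h1]
    rfl
  have h0 : x &&& 1 = (x.testBit 0).toNat := by
    have := Nat.and_two_pow x 0
    rw [pow_zero, mul_one] at this
    exact this
  have h5 : (x.testBit 0).toNat < 2 ^ 28 := by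
    cases x.testBit 0 <;> decide
  rw [h2, Nat.and_or_distrib_left, Nat.and_two_pow, h0, mul_comm (x.testBit 28).toNat,
    ← Nat.two_pow_add_eq_or_of_lt h5, add_comm]

theorem cv2_split (b c : ℕ → ℕ) (l : List ℕ) :
    cv2_F (fun p => b p + 2 ^ 28 * c p) l = cv2_F b l + 2 ^ 28 * cv2_F c l := by
  induction l with
  | nil => rfl
  | cons p l ih =>
    show 2 * cv2_F (fun p => b p + 2 ^ 28 * c p) l + (b p + 2 ^ 28 * c p) =
      2 * cv2_F b l + b p + 2 ^ 28 * (2 * cv2_F c l + c p)
    rw [ih]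
    ring

theorem cv2_lt (b : ℕ → Bool) (l : List ℕ) : cv2_F (fun p => (b p).toNat) l < 2 ^ l.length := by
  induction l with
  | nil => exact Nat.two_pow_pos 0
  | cons p l ih =>
    show 2 * cv2_F (fun p => (b p).toNat) l + (b p).toNat < 2 ^ (l.length + 1)
    have h1 : (b p).toNat ≤ 1 := Bool.toNat_le _
    rw [pow_succ]
    omega

theorem cv2_testBit (b : ℕ → Bool) (l : List ℕ) (i : ℕ) (hi : i < l.length) :
    (cv2_F (fun p => (b p).toNat) l).testBit i = b (l[i]) := by
  induction l generalizing i with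
  | nil => exact absurd hi (by simp)
  | cons p l ih =>
    show (2 * cv2_F (fun p => (b p).toNat) l + (b p).toNat).testBit i = _
    have h1 : (b p).toNat ≤ 1 := Bool.toNat_le _
    rcases i with _ | i
    · rw [List.getElem_cons_zero]
      have h2 : (2 * cv2_F (fun p => (b p).toNat) l + (b p).toNat) % 2 = (b p).toNat := by omega
      rw [Nat.testBit_zero, h2]
      cases b p <;> decide
    · rw [List.getElem_cons_succ, Nat.testBit_add_one]
      have h2 : (2 * cv2_F (fun p => (b p).toNat) l + (b p).toNat) / 2 = cv2_F (fun p => (b p).toNat) l := by omega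
      rw [h2]
      exact ih i (by simpa using hi)

theorem cv2_main (t hk : ℕ) : Cv.prm t hk =
    cv2_F (fun p => (hk.testBit (cv2_ix t p)).toNat) Cv.PL +
      2 ^ 28 * cv2_F (fun p => (hk.testBit (cv2_ix t p + 28)).toNat) Cv.PL := by
  rw [cv2_prm, ← cv2_split]
  congr 1
  funext p
  rw [cv2_land]
  have h1 : ∀ j, (Nat.shiftRight hk (cv2_ix t p)).testBit j = hk.testBit (cv2_ix t p + j) := fun j =>
    Nat.testBit_shiftRight hk
  rw [h1, h1]
  rfl

theorem cv2_H (t hk : ℕ) : Cv.prm t hk % 2 ^ 28 = cv2_F (fun p => (hk.testBit (cv2_ix t p)).toNat) Cv.PL := by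
  have h1 := cv2_lt (fun p => hk.testBit (cv2_ix t p)) Cv.PL
  have h2 : Cv.PL.length = 28 := rfl
  rw [h2] at h1
  rw [cv2_main]
  omega

theorem cv2_K (t hk : ℕ) : Cv.prm t hk / 2 ^ 28 = cv2_F (fun p => (hk.testBit (cv2_ix t p + 28)).toNat) Cv.PL := by
  have h1 := cv2_lt (fun p => hk.testBit (cv2_ix t p)) Cv.PL
  have h2 : Cv.PL.length = 28 := rfl
  rw [h2] at h1
  rw [cv2_main]
  omega

private theorem cv2_PL : ∀ b < 8, ∀ a < b, Cv.PL.getD (b * (b - 1) / 2 + a) 0 = 3 * a + 32 * (3 * b) := by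
  decide

theorem cv2_ix_eq (t a b : ℕ) (hab : a < b) (hb : b < 8) (ht : tv t a ≠ tv t b) :
    cv2_ix t (3 * a + 32 * (3 * b)) =
      max (tv t a) (tv t b) * (max (tv t a) (tv t b) - 1) / 2 + min (tv t a) (tv t b) := by
  rw [← cv2_IX (tv t a) (cv2_tv_lt t a) (tv t b) (cv2_tv_lt t b) ht]
  unfold cv2_ix tv
  have h1 : Nat.land (3 * a + 32 * (3 * b)) 31 = Nat.mul 3 a := by
    have h : Nat.land (3 * a + 32 * (3 * b)) 31 = (3 * a + 32 * (3 * b)) &&& (2 ^ 5 - 1) := rfl
    rw [h, Nat.and_two_pow_sub_one_eq_mod]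
    show _ = 3 * a
    omega
  have h2 : Nat.shiftRight (3 * a + 32 * (3 * b)) 5 = Nat.mul 3 b := by
    have h : Nat.shiftRight (3 * a + 32 * (3 * b)) 5 = (3 * a + 32 * (3 * b)) >>> 5 := rfl
    rw [h, Nat.shiftRight_eq_div_pow]
    show _ = 3 * b
    omega
  rw [h1, h2]

theorem cv2_adjn (h x y : ℕ) (hxy : x ≠ y) :
    Eng.adjn h x y = (h.testBit (max x y * (max x y - 1) / 2 + min x y)).toNat := by
  rcases lt_or_gt_of_ne hxy with h1 | h1
  · rw [adjn_lt h x y h1, max_eq_right h1.le, min_eq_left h1.le]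
  · rw [adjn_symm, adjn_lt h y x h1, max_eq_left h1.le, min_eq_right h1.le]

theorem cv2_idx_lt (x y : ℕ) (hx : x < 8) (hy : y < 8) (hxy : x ≠ y) :
    max x y * (max x y - 1) / 2 + min x y < 28 := by
  have h1 : ∀ x < 8, ∀ y < 8, x ≠ y → max x y * (max x y - 1) / 2 + min x y < 28 := by decide
  exact h1 x hx y hy hxy

theorem cv2_bitH (H K i : ℕ) (hH : H < 2 ^ 28) (hi : i < 28) : (H + 2 ^ 28 * K).testBit i = H.testBit i := by
  rw [add_comm, Nat.testBit_two_pow_mul_add K hH i, if_pos hi]

theorem cv2_bitK (H K i : ℕ) (hH : H < 2 ^ 28) : (H + 2 ^ 28 * K).testBit (i + 28) = K.testBit i := by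
  rw [add_comm H, Nat.testBit_two_pow_mul_add K hH (i + 28), if_neg (by omega)]
  congr 1

theorem cv2_get (a b : ℕ) (hab : a < b) (hb : b < 8) (hi : b * (b - 1) / 2 + a < Cv.PL.length) :
    Cv.PL[b * (b - 1) / 2 + a] = 3 * a + 32 * (3 * b) := by
  have h1 := cv2_PL b hb a hab
  rw [List.getD_eq_getElem _ _ hi] at h1
  exact h1

theorem cv2_getb (g : ℕ → Bool) (a b : ℕ) (hab : a < b) (hb : b < 8) :
    (cv2_F (fun p => (g p).toNat) Cv.PL).testBit (b * (b - 1) / 2 + a) = g (3 * a + 32 * (3 * b)) := by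
  have hi : b * (b - 1) / 2 + a < 28 := by
    have h1 := cv2_idx_lt a b (by omega) hb (by omega)
    rwa [max_eq_right hab.le, min_eq_left hab.le] at h1
  have hl : Cv.PL.length = 28 := rfl
  have hi' : b * (b - 1) / 2 + a < Cv.PL.length := by
    rw [hl]
    exact hi
  rw [cv2_testBit g Cv.PL _ hi', cv2_get a b hab hb hi']

theorem cv2_Hb (t hk a b : ℕ) (hab : a < b) (hb : b < 8) : (Cv.prm t hk % 2 ^ 28).testBit (b * (b - 1) / 2 + a) =
    hk.testBit (cv2_ix t (3 * a + 32 * (3 * b))) := by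
  rw [cv2_H]
  exact cv2_getb (fun p => hk.testBit (cv2_ix t p)) a b hab hb

theorem cv2_Kb (t hk a b : ℕ) (hab : a < b) (hb : b < 8) : (Cv.prm t hk / 2 ^ 28).testBit (b * (b - 1) / 2 + a) =
    hk.testBit (cv2_ix t (3 * a + 32 * (3 * b)) + 28) := by
  rw [cv2_K]
  exact cv2_getb (fun p => hk.testBit (cv2_ix t p + 28)) a b hab hb

/-- **Pull back.** `Cv.prm` is a sum over the list `Cv.PL` of the 28 pairs in the order of their positions: position `i` of
the result is bit `idx (t a) (t b)` of `H`, position `28 + i` that of `K`. -/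
theorem prm_lt (t hk : ℕ) : Cv.prm t hk < 2 ^ 56 := by
  have h1 := cv2_lt (fun p => hk.testBit (cv2_ix t p)) Cv.PL
  have h3 := cv2_lt (fun p => hk.testBit (cv2_ix t p + 28)) Cv.PL
  have h2 : Cv.PL.length = 28 := rfl
  rw [h2] at h1 h3
  rw [cv2_main]
  omega
theorem prm_H (t H K : ℕ) (hH : H < 2 ^ 28) (hK : K < 2 ^ 28)
    (ht : ∀ a b, a < b → b < 8 → tv t a ≠ tv t b) (a b : ℕ) (hab : a < b) (hb : b < 8) :
    Eng.adjn (Cv.prm t (H + 2 ^ 28 * K) % 2 ^ 28) a b = Eng.adjn H (tv t a) (tv t b) := by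
  have hne := ht a b hab hb
  rw [adjn_lt _ a b hab, cv2_Hb t _ a b hab hb, cv2_ix_eq t a b hab hb hne, cv2_adjn H _ _ hne,
    cv2_bitH H K _ hH (cv2_idx_lt _ _ (cv2_tv_lt t a) (cv2_tv_lt t b) hne)]
theorem prm_K (t H K : ℕ) (hH : H < 2 ^ 28) (hK : K < 2 ^ 28)
    (ht : ∀ a b, a < b → b < 8 → tv t a ≠ tv t b) (a b : ℕ) (hab : a < b) (hb : b < 8) :
    Eng.adjn (Cv.prm t (H + 2 ^ 28 * K) / 2 ^ 28) a b = Eng.adjn K (tv t a) (tv t b) := by
  have hne := ht a b hab hb
  rw [adjn_lt _ a b hab, cv2_Kb t _ a b hab hb, cv2_ix_eq t a b hab hb hne, cv2_adjn K _ _ hne, cv2_bitK H K _ hH]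

end Pool.Agent.MP_528dc0_co

end

section

open Finset

namespace Pool.Agent.MP_528dc0_co

private theorem cv3_XA : ∀ a < 8, Cv.XA.getD a 0 = Eng.XX a := by
  decide +kernel

theorem XA_eq (a : ℕ) (ha : a < 8) : Cv.XA.getD a 0 = Eng.XX a := by
  exact cv3_XA a ha

private theorem cv3_FULL : Cv.FULL = 2 ^ 256 - 1 := by
  decide +kernel

private theorem cv3_len : ∀ n ≤ 8, (Cv.tk n Cv.XA).length = n := by
  decide +kernel

private theorem cv3_get : ∀ n ≤ 8, ∀ i < n,
    (Cv.tk n Cv.XA).getD i 0 = Eng.XX i ∧ Eng.XX i ≤ Cv.FULL := by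
  decide +kernel

private theorem cv3_full_bit (m : ℕ) (hm : m < 256) : Cv.FULL.testBit m = true := by
  rw [cv3_FULL, Nat.testBit_two_pow_sub_one]
  exact decide_eq_true hm

private theorem cv3_a (A m : ℕ) (hm : m < 256) :
    ((1 - (A &&& 1)) * Cv.FULL).testBit m = !(A.testBit 0) := by
  rw [Nat.and_one_is_mod, Nat.testBit_zero]
  rcases Nat.mod_two_eq_zero_or_one A with h | h
  · rw [h, Nat.sub_zero, one_mul, cv3_full_bit m hm]
    rfl
  · rw [h, Nat.sub_self, zero_mul, Nat.zero_testBit]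
    rfl

private theorem cv3_b (B m : ℕ) (hm : m < 256) :
    ((B &&& 1) * Cv.FULL).testBit m = B.testBit 0 := by
  rw [Nat.and_one_is_mod, Nat.testBit_zero]
  rcases Nat.mod_two_eq_zero_or_one B with h | h
  · rw [h, zero_mul, Nat.zero_testBit]
    rfl
  · rw [h, one_mul, cv3_full_bit m hm]
    rfl

private theorem cv3_c (x m : ℕ) (hm : m < 256) (hx : x ≤ Cv.FULL) :
    (Cv.FULL - x).testBit m = !(x.testBit m) := by
  rw [cv3_FULL] at hx ⊢
  have h1 : x < 2 ^ 256 := by
    have h2 : 0 < 2 ^ 256 := by positivity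
    omega
  have h3 : 2 ^ 256 - 1 - x = 2 ^ 256 - (x + 1) := by omega
  rw [h3, Nat.testBit_two_pow_sub_succ h1, decide_eq_true hm, Bool.true_and]

private theorem cv3_cons (x : ℕ) (l : List ℕ) (A B : ℕ) :
    Cv.ivt (x :: l) A B = Cv.ivt l (A >>> 1) (B >>> 1) &&&
      ((((1 - (A &&& 1)) * Cv.FULL) ||| x) &&& (((B &&& 1) * Cv.FULL) ||| (Cv.FULL - x))) := rfl

private theorem cv3_ivt (l : List ℕ) : ∀ (k A B m : ℕ), m < 256 →
    (∀ i, i < l.length → l.getD i 0 ≤ Cv.FULL ∧ (l.getD i 0).testBit m = m.testBit (k + i)) →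
    ((Cv.ivt l A B).testBit m = true ↔
      ∀ i < l.length, (A.testBit i = true → m.testBit (k + i) = true) ∧
        (m.testBit (k + i) = true → B.testBit i = true)) := by
  induction l with
  | nil =>
    intro k A B m hm h
    have h0 : Cv.ivt [] A B = Cv.FULL := rfl
    rw [h0, cv3_full_bit m hm]
    simp
  | cons x l ih =>
    intro k A B m hm h
    have hx := h 0 (by simp)
    rw [List.getD_cons_zero, Nat.add_zero] at hx
    have hl : ∀ i, i < l.length →
        l.getD i 0 ≤ Cv.FULL ∧ (l.getD i 0).testBit m = m.testBit (k + 1 + i) := by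
      intro i hi
      have h1 := h (i + 1) (by simp only [List.length_cons]; omega)
      rw [List.getD_cons_succ] at h1
      rw [show k + 1 + i = k + (i + 1) by omega]
      exact h1
    rw [cv3_cons, Nat.testBit_and, Nat.testBit_and, Nat.testBit_or, Nat.testBit_or,
      cv3_a A m hm, cv3_b B m hm, cv3_c x m hm hx.1, hx.2, Bool.and_eq_true, Bool.and_eq_true,
      ih (k + 1) (A >>> 1) (B >>> 1) m hm hl]
    constructor
    · rintro ⟨h1, h2, h3⟩ i hi
      rcases i with _ | i
      · rw [Nat.add_zero]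
        constructor
        · intro h4
          rw [h4] at h2
          simpa using h2
        · intro h4
          rw [h4] at h3
          simpa using h3
      · have h4 := h1 i (by simpa using hi)
        rw [Nat.testBit_shiftRight, Nat.testBit_shiftRight, show 1 + i = i + 1 by omega,
          show k + 1 + i = k + (i + 1) by omega] at h4
        exact h4
    · intro h1
      refine ⟨?_, ?_, ?_⟩
      · intro i hi
        have h4 := h1 (i + 1) (by simp only [List.length_cons]; omega)
        rw [Nat.testBit_shiftRight, Nat.testBit_shiftRight, show 1 + i = i + 1 by omega,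
          show k + 1 + i = k + (i + 1) by omega]
        exact h4
      · have h4 := (h1 0 (by simp)).1
        rw [Nat.add_zero] at h4
        cases h5 : A.testBit 0
        · simp
        · rw [h4 h5]
          simp
      · have h4 := (h1 0 (by simp)).2
        rw [Nat.add_zero] at h4
        cases h5 : m.testBit k
        · simp
        · rw [h4 h5]
          simp

/-- `Cv.tk n XA = [XX 0, …, XX (n-1)]`; `XX_testBit`; `FULL = 2^256 - 1`. Induction over the list with shifted `A`, `B` (general list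
`[XX k, …, XX (n-1)]`). -/
theorem ivt_testBit (n : ℕ) (hn : n ≤ 8) (A B m : ℕ) (hm : m < 256) :
    (Cv.ivt (Cv.tk n Cv.XA) A B).testBit m = true ↔
      ∀ a < n, (A.testBit a = true → m.testBit a = true) ∧ (m.testBit a = true → B.testBit a = true) := by
  have h1 := cv3_ivt (Cv.tk n Cv.XA) 0 A B m hm (by
    intro i hi
    rw [cv3_len n hn] at hi
    obtain ⟨h2, h3⟩ := cv3_get n hn i hi
    rw [h2]
    refine ⟨h3, ?_⟩
    rw [XX_testBit i (by omega) m hm, Nat.zero_add])
  rw [cv3_len n hn] at h1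
  simp only [Nat.zero_add] at h1
  exact h1

theorem ivt_lt (l : List ℕ) (hl : ∀ x ∈ l, x ≤ Cv.FULL) (A B : ℕ) : Cv.ivt l A B ≤ Cv.FULL := by
  induction l generalizing A B with
  | nil => exact le_refl _
  | cons x l ih =>
    rw [cv3_cons]
    exact le_trans Nat.and_le_left (ih (fun y hy => hl y (List.mem_cons_of_mem x hy)) _ _)

end Pool.Agent.MP_528dc0_co

end

section

open Finset

namespace Pool.Agent.MP_528dc0_co

theorem cv4_PG : ∀ k < 10, ∀ m < 256, (Eng.nthN Cv.PG k).testBit m = decide (k ≤ (ms m).card) := by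
  decide +kernel

/-- the popcount tables (ten values of `k`, 256 values of `m`: `decide +kernel` on one Boolean statement) -/
theorem PG_testBit (k m : ℕ) (hk : k ≤ 9) (hm : m < 256) :
    (Eng.nthN Cv.PG k).testBit m = true ↔ k ≤ (ms m).card := by
  rw [cv4_PG k (by omega) m hm, decide_eq_true_iff]

theorem cv4_sumN (f : ℕ → ℕ) (n : ℕ) : Eng.sumN f n = ∑ i ∈ range n, f i := by
  induction n with
  | zero => rfl
  | succ n ih =>
    have h0 : Eng.sumN f (n + 1) = Eng.sumN f n + f n := rfl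
    rw [h0, ih, Finset.sum_range_succ]

theorem cv4_inner (g : ℕ → ℕ) (n : ℕ) (hn : n ≤ 8) :
    ∑ i ∈ range n, g i = ∑ i : Fin 8, if i.val < n then g i.val else 0 := by
  rw [← Finset.sum_range (fun i => if i < n then g i else 0), ← Finset.sum_filter]
  apply Finset.sum_congr _ fun _ _ => rfl
  ext i
  simp only [Finset.mem_range, Finset.mem_filter]
  omega

/-- degree inside the first `n` vertices -/
theorem dg_eq (n g u : ℕ) (hn : n ≤ 8) (hu : u < 8) :
    Cv.dg n g u = (univ.filter (fun v : Fin 8 => v.val < n ∧ Eng.adjn g v.val u = 1)).card := by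
  unfold Cv.dg
  rw [cv4_sumN, cv4_inner _ n hn, Finset.card_filter]
  apply Finset.sum_congr rfl
  intro v _
  have h1 : Eng.adjn g v.val u = 0 ∨ Eng.adjn g v.val u = 1 := by
    have := adjn_le g v.val u
    omega
  rcases h1 with h1 | h1
  · simp [h1]
  · simp [h1]

theorem cv4_dg_le (n g u : ℕ) : Cv.dg n g u ≤ n := by
  unfold Cv.dg
  rw [cv4_sumN]
  calc ∑ i ∈ range n, Eng.adjn g i u ≤ ∑ i ∈ range n, 1 := Finset.sum_le_sum fun i _ => adjn_le g i u
    _ = n := by simp

theorem cv4_orN (f : ℕ → ℕ) (n m : ℕ) :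
    (Eng.orN f n).testBit m = true ↔ ∃ i, i < n ∧ (f i).testBit m = true := by
  induction n with
  | zero =>
    have h0 : Eng.orN f 0 = 0 := rfl
    rw [h0]
    simp
  | succ n ih =>
    have h0 : Eng.orN f (n + 1) = Eng.orN f n ||| f n := rfl
    rw [h0, Nat.testBit_or, Bool.or_eq_true, ih]
    constructor
    · rintro (⟨i, hi, h⟩ | h)
      · exact ⟨i, by omega, h⟩
      · exact ⟨n, by omega, h⟩
    · rintro ⟨i, hi, h⟩
      by_cases h1 : i < n
      · exact Or.inl ⟨i, h1, h⟩
      · have h2 : i = n := by omega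
        rw [h2] at h
        exact Or.inr h

theorem cv4_nth : ∀ n < 9, ∀ u < n, Eng.nthN (Cv.tk n Cv.XA) u = Eng.XX u := by
  decide +kernel

theorem cv4_compl : ∀ u < 8, ∀ m < 256, (Cv.FULL - Eng.XX u).testBit m = !(m.testBit u) := by
  decide +kernel

/-- **The test.** `Cv.bad` is an OR over `u < n` (`Eng.orN`), `Eng.nthN (Cv.tk n Cv.XA) u = Eng.XX u`. -/
theorem bad_testBit (n g m : ℕ) (hn : n ≤ 7) (hm : m < 2 ^ n) :
    (Cv.bad n g (Cv.tk n Cv.XA)).testBit m = true ↔
      ∃ u < n, Cv.dg n g u + 2 ≤ (ms m).card ∨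
        (Cv.dg n g u + 1 ≤ (ms m).card ∧ m.testBit u = false) := by
  have hm' : m < 256 := lt_of_lt_of_le hm (by
    calc 2 ^ n ≤ 2 ^ 7 := Nat.pow_le_pow_right (by norm_num) hn
      _ ≤ 256 := by norm_num)
  have h0 : Cv.bad n g (Cv.tk n Cv.XA) = Eng.orN (fun u => (Eng.nthN Cv.PG (Cv.dg n g u + 2)) |||
    ((Eng.nthN Cv.PG (Cv.dg n g u + 1)) &&& (Cv.FULL - (Eng.nthN (Cv.tk n Cv.XA) u)))) n := rfl
  rw [h0, cv4_orN]
  refine exists_congr fun u => and_congr_right fun hu => ?_
  have hd := cv4_dg_le n g u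
  rw [cv4_nth n (by omega) u hu, Nat.testBit_or, Nat.testBit_and, Bool.or_eq_true, Bool.and_eq_true,
    PG_testBit _ m (by omega) hm', PG_testBit _ m (by omega) hm', cv4_compl u (by omega) m hm', Bool.not_eq_true']

theorem cv4_bit (n m k : ℕ) (hm : m < 2 ^ n) (hk : n ≤ k) : m.testBit k = false :=
  Nat.testBit_lt_two_pow (lt_of_lt_of_le hm (Nat.pow_le_pow_right (by norm_num) hk))

theorem cv4_adj (h : ℕ) (a b : Fin 8) : (mkH h).Adj a b ↔ Eng.adjn h a.val b.val = 1 :=
  Iff.rfl

theorem cv4_toNat (b : Bool) : b.toNat = 1 ↔ b = true := by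
  cases b <;> simp

theorem cv4_self (h : ℕ) (a : Fin 8) : ¬ Eng.adjn h a.val a.val = 1 := by
  rw [← cv4_adj]
  exact (mkH h).irrefl

open Classical in
/-- degrees in the extended graph `h = g + 2^(LL n) m`: the vertex `n` has degree `(ms m).card`, a vertex `u < n` has degree
`dg n g u + [u ∈ m]` -/
theorem deg_ext_last (n g m : ℕ) (hn : n ≤ 7) (hg : g < 2 ^ LL n) (hm : m < 2 ^ n) (v : Fin 8)
    (hv : v.val = n) :
    (univ.filter (fun u : Fin 8 => (mkH (g + 2 ^ LL n * m)).Adj u v)).card = (ms m).card := by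
  congr 1
  ext u
  unfold ms
  rw [Finset.mem_filter, Finset.mem_filter, cv4_adj]
  refine and_congr_right fun _ => ?_
  rcases Nat.lt_trichotomy u.val v.val with h | h | h
  · rw [ext_adj n g m hg hm _ _ h, if_neg (by omega), if_pos hv, cv4_toNat]
  · have h' : u = v := Fin.ext h
    subst h'
    rw [cv4_bit n m _ hm (by omega)]
    simp only [Bool.false_eq_true, iff_false]
    exact cv4_self _ _
  · rw [adjn_symm, ext_adj n g m hg hm _ _ h, if_neg (by omega), if_neg (by omega), cv4_bit n m _ hm (by omega)]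
    simp
open Classical in
theorem deg_ext (n g m : ℕ) (hn : n ≤ 7) (hg : g < 2 ^ LL n) (hm : m < 2 ^ n) (v : Fin 8)
    (hv : v.val < n) :
    (univ.filter (fun u : Fin 8 => (mkH (g + 2 ^ LL n * m)).Adj u v)).card =
      Cv.dg n g v.val + (m.testBit v.val).toNat := by
  have h1 : ∀ u : Fin 8, (mkH (g + 2 ^ LL n * m)).Adj u v ↔
      (u.val < n ∧ Eng.adjn g u.val v.val = 1) ∨ (u = ⟨n, by omega⟩ ∧ m.testBit v.val = true) := by
    intro u
    rw [cv4_adj, Fin.ext_iff]
    rcases Nat.lt_trichotomy u.val v.val with h | h | h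
    · rw [ext_adj n g m hg hm _ _ h, if_pos hv]
      constructor
      · intro h2
        exact Or.inl ⟨by omega, h2⟩
      · rintro (h2 | h2)
        · exact h2.2
        · exact absurd h2.1 (by simp only; omega)
    · have h' : u = v := Fin.ext h
      subst h'
      constructor
      · intro h2
        exact absurd h2 (cv4_self _ _)
      · rintro (h2 | h2)
        · exact absurd h2.2 (cv4_self _ _)
        · exact absurd h2.1 (by simp only; omega)
    · rw [adjn_symm, ext_adj n g m hg hm _ _ h, adjn_symm g u.val]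
      split_ifs with h3 h4
      · constructor
        · intro h2
          exact Or.inl ⟨h3, h2⟩
        · rintro (h2 | h2)
          · exact h2.2
          · exact absurd h2.1 (by simp only; omega)
      · rw [cv4_toNat]
        constructor
        · intro h2
          exact Or.inr ⟨h4, h2⟩
        · rintro (h2 | h2)
          · exact absurd h2.1 (by omega)
          · exact h2.2
      · constructor
        · intro h2
          exact absurd h2 (by norm_num)
        · rintro (h2 | h2)
          · exact absurd h2.1 (by omega)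
          · exact absurd h2.1 (by simp only; omega)
  rw [dg_eq n g v.val (by omega) v.2]
  rw [Finset.filter_congr (fun u _ => h1 u), Finset.filter_or, Finset.card_union_of_disjoint]
  · congr 1
    cases hb : m.testBit v.val with
    | true =>
      rw [Bool.toNat_true, Finset.card_eq_one]
      refine ⟨⟨n, by omega⟩, ?_⟩
      ext u
      simp
    | false => simp
  · rw [Finset.disjoint_filter]
    rintro u - h2 h3
    have := congrArg Fin.val h3.1
    simp only at this
    omega

end Pool.Agent.MP_528dc0_co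

end

section

open Finset

namespace Pool.Agent.MP_528dc0_co

theorem cv5_frc (n : ℕ) (f : ℕ → ℕ) : Cv.frcN n f = f n := by
  cases n <;> rfl

theorem cv5_andB (c x : Bool) : Eng.andB c x = (c && x) := by
  cases c <;> rfl

/-- the body of `Cv.entT` with the names of its parts -/
theorem cv5_ent (n L g TAB len : ℕ) (xs : List ℕ) (e : ℕ) (c t r H K : ℕ)
    (hc : c = Nat.land e 4095) (ht : t = Nat.shiftRight e 12) (hr : r = Cv.prm t (tabE TAB c))
    (hH : H = Nat.land r 268435455) (hK : K = Nat.shiftRight r 28) :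
    Cv.entT n L g TAB len xs e =
      Bool.rec (motive := fun _ => Nat) 0 (Cv.ivt xs (Nat.shiftRight H L) (Nat.shiftRight K L))
    (Eng.andB (Nat.ble (Nat.add c 1) len) (Eng.andB (Nat.beq (Cv.ps t) 255)
    (Eng.andB (Nat.beq (Nat.shiftRight t (Nat.mul 3 (Nat.add n 1))) (Nat.shiftRight 16434824 (Nat.mul 3 (Nat.add n 1))))
    (Eng.andB (Nat.beq (Nat.land H (Nat.land g (Nat.sub (Nat.shiftLeft 1 L) 1))) (Nat.land H (Nat.sub (Nat.shiftLeft 1 L) 1)))
    (Eng.andB (Nat.beq (Nat.land g K) g) (Nat.beq (Nat.shiftRight H (Nat.add L n)) 0)))))) := by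
  subst hc
  subst ht
  subst hr
  subst hH
  subst hK
  unfold Cv.entT tabE
  rw [cv5_frc, cv5_frc, cv5_frc, cv5_frc, cv5_frc]

theorem cv5_adj1 (h a b : ℕ) (hab : a < b) :
    Eng.adjn h a b = 1 ↔ h.testBit (b * (b - 1) / 2 + a) = true := by
  rw [adjn_lt h a b hab]
  cases h.testBit (b * (b - 1) / 2 + a) <;> simp

theorem cv5_even (b : ℕ) : b * (b - 1) / 2 * 2 = b * (b - 1) := by
  apply Nat.div_mul_cancel
  rcases Nat.even_or_odd b with h | h
  · exact dvd_mul_of_dvd_left h.two_dvd _
  · exact dvd_mul_of_dvd_right (Nat.Odd.sub_odd h odd_one).two_dvd _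

theorem cv5_LL_mono (a b : ℕ) (h : a ≤ b) : LL a ≤ LL b := by
  unfold LL
  exact Nat.div_le_div_right (Nat.mul_le_mul h (by omega))

theorem cv5_diag (h a : ℕ) : Eng.adjn h a a = 0 := by
  have h2 := (mkH h).loopless
  have h0 : Eng.adjn h a a = (1 - (a + 1 - a)) * ((h >>> (a * (a - 1) / 2 + a)) % 2) +
    (1 - (a + 1 - a)) * ((h >>> (a * (a - 1) / 2 + a)) % 2) := rfl
  have e1 : 1 - (a + 1 - a) = 0 := by omega
  rw [h0, e1]
  simp

theorem cv5_tab (TAB c : ℕ) : tabE TAB c = tabH TAB c + 2 ^ 28 * tabK TAB c ∧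
    tabH TAB c < 2 ^ 28 ∧ tabK TAB c < 2 ^ 28 := by
  have h0 : tabE TAB c < 2 ^ 56 := by
    have h1 : tabE TAB c = (Nat.shiftRight TAB (Nat.mul 56 c)) &&& (2 ^ 56 - 1) := rfl
    rw [h1, Nat.and_two_pow_sub_one_eq_mod]
    exact Nat.mod_lt _ (by positivity)
  refine ⟨?_, ?_, ?_⟩
  · unfold tabH tabK
    exact (Nat.mod_add_div _ _).symm
  · exact Nat.mod_lt _ (by positivity)
  · unfold tabK
    rw [Nat.div_lt_iff_lt_mul (by positivity)]
    calc tabE TAB c < 2 ^ 56 := h0
      _ = 2 ^ 28 * 2 ^ 28 := by norm_num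

/-- **Soundness of an entry.** If bit `m` is set then the conditions hold (else the value is `0`): `c < len`, `t` is a permutation `π` which fixes
the vertices `> n` (`ps_perm`, `fix_of`); `H'`, `K'` = halves of `prm t …` (`prm_H`, `prm_K`), `H'` restricted to the first `n` vertices is contained in
`g`, `g` in `K'`, `H'` has no edges at vertices `> n`; `A = H' >>> L`, `B = K' >>> L`: rows of the vertex `n`; `ivt_testBit`. Conclude with
`ext_adj`. Symmetry of `adjn` reduces to `a < b`. -/
theorem entT_sound (n g TAB len e m : ℕ) (hn : n ≤ 7) (hg : g < 2 ^ LL n) (hm : m < 2 ^ n)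
    (h : (Cv.entT n (LL n) g TAB len (Cv.tk n Cv.XA) e).testBit m = true) :
    ∃ c < len, ∃ π : Equiv.Perm (Fin 8), (∀ a : Fin 8, n + 1 ≤ a.val → π a = a) ∧
      Btw (tabH TAB c) (tabK TAB c) (g + 2 ^ LL n * m) π := by
  obtain ⟨c, hcd⟩ : ∃ c, c = Nat.land e 4095 := ⟨_, rfl⟩
  obtain ⟨t, htd⟩ : ∃ t, t = Nat.shiftRight e 12 := ⟨_, rfl⟩
  obtain ⟨r, hrd⟩ : ∃ r, r = Cv.prm t (tabE TAB c) := ⟨_, rfl⟩
  obtain ⟨H, hHd⟩ : ∃ H, H = Nat.land r 268435455 := ⟨_, rfl⟩
  obtain ⟨K, hKd⟩ : ∃ K, K = Nat.shiftRight r 28 := ⟨_, rfl⟩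
  rw [cv5_ent n (LL n) g TAB len _ e c t r H K hcd htd hrd hHd hKd] at h
  obtain ⟨bb, hbb⟩ : ∃ bb, bb = (Eng.andB (Nat.ble (Nat.add c 1) len) (Eng.andB (Nat.beq (Cv.ps t) 255)
    (Eng.andB (Nat.beq (Nat.shiftRight t (Nat.mul 3 (Nat.add n 1))) (Nat.shiftRight 16434824 (Nat.mul 3 (Nat.add n 1))))
    (Eng.andB (Nat.beq (Nat.land H (Nat.land g (Nat.sub (Nat.shiftLeft 1 (LL n)) 1))) (Nat.land H (Nat.sub (Nat.shiftLeft 1 (LL n)) 1)))
    (Eng.andB (Nat.beq (Nat.land g K) g) (Nat.beq (Nat.shiftRight H (Nat.add (LL n) n)) 0)))))) := ⟨_, rfl⟩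
  rw [← hbb] at h
  cases bb with
  | false =>
    exfalso
    have h1 : (0 : ℕ).testBit m = true := h
    simp at h1
  | true =>
    have h1 : (Cv.ivt (Cv.tk n Cv.XA) (Nat.shiftRight H (LL n)) (Nat.shiftRight K (LL n))).testBit m = true := h
    have h2 := hbb.symm
    rw [cv5_andB, cv5_andB, cv5_andB, cv5_andB, cv5_andB, Bool.and_eq_true, Bool.and_eq_true,
      Bool.and_eq_true, Bool.and_eq_true, Bool.and_eq_true, Nat.ble_eq, Nat.beq_eq, Nat.beq_eq,
      Nat.beq_eq, Nat.beq_eq, Nat.beq_eq] at h2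
    obtain ⟨c1, c2, c3, c4, c5, c6⟩ := h2
    have hlen : c < len := c1
    obtain ⟨π, hπ⟩ := ps_perm t c2
    have hfix := fix_of t n (by omega) c3
    obtain ⟨htab, htH, htK⟩ := cv5_tab TAB c
    have hinj : ∀ a b, a < b → b < 8 → tv t a ≠ tv t b := by
      intro a b hab hb heq
      have h3 : (π ⟨a, by omega⟩).val = (π ⟨b, hb⟩).val := by
        rw [hπ, hπ]
        exact heq
      have h4 := congrArg Fin.val (π.injective (Fin.ext h3))
      have h5 : a = b := h4
      omega
    have hH : H = r % 2 ^ 28 := by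
      rw [hHd]
      have h3 : Nat.land r 268435455 = r &&& (2 ^ 28 - 1) := rfl
      rw [h3, Nat.and_two_pow_sub_one_eq_mod]
    have hK : K = r / 2 ^ 28 := by
      rw [hKd]
      exact Nat.shiftRight_eq_div_pow r 28
    have hHa : ∀ a b : Fin 8, a.val < b.val → Eng.adjn H a.val b.val = Eng.adjn (tabH TAB c) (π a).val (π b).val := by
      intro a b hab
      rw [hπ, hπ, hH, hrd, htab]
      exact prm_H t _ _ htH htK hinj a.val b.val hab b.2
    have hKa : ∀ a b : Fin 8, a.val < b.val → Eng.adjn K a.val b.val = Eng.adjn (tabK TAB c) (π a).val (π b).val := by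
      intro a b hab
      rw [hπ, hπ, hK, hrd, htab]
      exact prm_K t _ _ htH htK hinj a.val b.val hab b.2
    have hm256 : m < 256 := lt_of_lt_of_le hm (by
      calc 2 ^ n ≤ 2 ^ 7 := Nat.pow_le_pow_right (by norm_num) hn
        _ ≤ 256 := by norm_num)
    have hivt := (ivt_testBit n (by omega) _ _ m hm256).1 h1
    have hL1 : LL (n + 1) = LL n + n := LL_succ n
    have main : ∀ a b : Fin 8, a.val < b.val →
        (Eng.adjn H a.val b.val = 1 → Eng.adjn (g + 2 ^ LL n * m) a.val b.val = 1) ∧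
        (Eng.adjn (g + 2 ^ LL n * m) a.val b.val = 1 → Eng.adjn K a.val b.val = 1) := by
      intro a b hab
      rw [ext_adj n g m hg hm a.val b.val hab]
      by_cases hb1 : b.val < n
      · rw [if_pos hb1, cv5_adj1 H _ _ hab, cv5_adj1 g _ _ hab, cv5_adj1 K _ _ hab]
        have hidx := idx_lt n a.val b.val hab hb1
        constructor
        · intro h3
          have h4 := congrArg (fun x => Nat.testBit x (b.val * (b.val - 1) / 2 + a.val)) c4
          have h5 : (H &&& (g &&& (1 <<< (LL n) - 1))).testBit (b.val * (b.val - 1) / 2 + a.val) =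
            (H &&& (1 <<< (LL n) - 1)).testBit (b.val * (b.val - 1) / 2 + a.val) := h4
          rw [Nat.one_shiftLeft, Nat.testBit_and, Nat.testBit_and, Nat.testBit_and,
            Nat.testBit_two_pow_sub_one, h3, decide_eq_true hidx] at h5
          simpa using h5
        · intro h3
          have h4 := congrArg (fun x => Nat.testBit x (b.val * (b.val - 1) / 2 + a.val)) c5
          have h5 : (g &&& K).testBit (b.val * (b.val - 1) / 2 + a.val) =
            g.testBit (b.val * (b.val - 1) / 2 + a.val) := h4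
          rw [Nat.testBit_and, h3] at h5
          simpa using h5
      · rw [if_neg hb1]
        by_cases hb2 : b.val = n
        · rw [if_pos hb2, cv5_adj1 H _ _ hab, cv5_adj1 K _ _ hab]
          have h3 := hivt a.val (by omega)
          have e1 : (Nat.shiftRight H (LL n)).testBit a.val = H.testBit (LL n + a.val) :=
            Nat.testBit_shiftRight H
          have e2 : (Nat.shiftRight K (LL n)).testBit a.val = K.testBit (LL n + a.val) :=
            Nat.testBit_shiftRight K
          rw [e1, e2] at h3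
          have e3 : b.val * (b.val - 1) / 2 + a.val = LL n + a.val := by
            rw [hb2]
            rfl
          rw [e3]
          constructor
          · intro h4
            rw [h3.1 h4]
            rfl
          · intro h4
            apply h3.2
            by_contra h5
            rw [Bool.not_eq_true] at h5
            rw [h5] at h4
            simp at h4
        · rw [if_neg hb2]
          constructor
          · intro h3
            exfalso
            rw [cv5_adj1 H _ _ hab] at h3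
            have h4 : LL (n + 1) ≤ LL b.val := cv5_LL_mono _ _ (by omega)
            rw [hL1] at h4
            have h5 : LL b.val = b.val * (b.val - 1) / 2 := rfl
            have h6 : H >>> (LL n + n) = 0 := c6
            have h7 : (H >>> (LL n + n)).testBit (b.val * (b.val - 1) / 2 + a.val - (LL n + n)) = true := by
              rw [Nat.testBit_shiftRight]
              have h8 : LL n + n + (b.val * (b.val - 1) / 2 + a.val - (LL n + n)) =
                b.val * (b.val - 1) / 2 + a.val := by omega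
              rw [h8]
              exact h3
            rw [h6] at h7
            simp at h7
          · intro h3
            exact absurd h3 (by norm_num)
    have main2 : ∀ a b : Fin 8, a.val < b.val →
        (Eng.adjn (tabH TAB c) (π a).val (π b).val = 1 → Eng.adjn (g + 2 ^ LL n * m) a.val b.val = 1) ∧
        (Eng.adjn (g + 2 ^ LL n * m) a.val b.val = 1 → Eng.adjn (tabK TAB c) (π a).val (π b).val = 1) := by
      intro a b hab
      rw [← hHa a b hab, ← hKa a b hab]
      exact main a b hab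
    refine ⟨c, hlen, π, ?_, ?_⟩
    · intro a ha
      apply Fin.ext
      rw [hπ]
      exact hfix a.val (by omega) a.2
    · intro a b
      show (Eng.adjn (tabH TAB c) (π a).val (π b).val = 1 → Eng.adjn (g + 2 ^ LL n * m) a.val b.val = 1) ∧
        (Eng.adjn (g + 2 ^ LL n * m) a.val b.val = 1 → Eng.adjn (tabK TAB c) (π a).val (π b).val = 1)
      rcases Nat.lt_trichotomy a.val b.val with hab | hab | hab
      · exact main2 a b hab
      · have hab' : a = b := Fin.ext hab
        subst hab'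
        rw [cv5_diag, cv5_diag, cv5_diag]
        exact ⟨fun h3 => h3, fun h3 => h3⟩
      · rw [adjn_symm (tabH TAB c), adjn_symm (tabK TAB c), adjn_symm (g + 2 ^ LL n * m)]
        exact main2 b a hab

end Pool.Agent.MP_528dc0_co

end

section

open Finset

namespace Pool.Agent.MP_528dc0_co

theorem cv6_msk : ∀ m < 256, msk (ms m) = m := by
  decide +kernel

theorem cv6_ms_lt (n m : ℕ) (hm : m < 2 ^ n) (a : Fin 8) (h : m.testBit a.val = true) : a.val < n := by
  by_contra h1
  have h2 : m < 2 ^ a.val := lt_of_lt_of_le hm (Nat.pow_le_pow_right (by norm_num) (by omega))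
  rw [Nat.testBit_eq_false_of_lt h2] at h
  exact absurd h (by simp)

/-- the table of a list of entries -/
theorem cv6_list (n L g TAB len : ℕ) (xs : List ℕ) (m : ℕ) (es : List ℕ)
    (h : (List.rec (motive := fun _ => Nat) 0 (fun e _ ih => Nat.lor ih (Cv.entT n L g TAB len xs e)) es : ℕ).testBit m
      = true) : ∃ e ∈ es, (Cv.entT n L g TAB len xs e).testBit m = true := by
  induction es with
  | nil =>
    have h1 : (0 : ℕ).testBit m = true := h
    simp at h1
  | cons e es ih =>
    have h1 : ((List.rec (motive := fun _ => Nat) 0 (fun e _ ih => Nat.lor ih (Cv.entT n L g TAB len xs e)) es : ℕ)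
      ||| (Cv.entT n L g TAB len xs e)).testBit m = true := h
    rw [Nat.testBit_or, Bool.or_eq_true] at h1
    rcases h1 with h1 | h1
    · obtain ⟨e', he', h2⟩ := ih h1
      exact ⟨e', List.mem_cons_of_mem _ he', h2⟩
    · exact ⟨e, List.mem_cons_self, h1⟩

/-- adjacency in the extended graph -/
theorem cv6_ext (n g m : ℕ) (hg : g < 2 ^ LL n) (hm : m < 2 ^ n) (a b : Fin 8) :
    (mkH (g + 2 ^ LL n * m)).Adj a b ↔
      ((mkH g).Adj a b ∨ (a.val = n ∧ m.testBit b.val = true) ∨ (b.val = n ∧ m.testBit a.val = true)) := by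
  have key : ∀ a b : Fin 8, a.val < b.val → ((mkH (g + 2 ^ LL n * m)).Adj a b ↔
      ((mkH g).Adj a b ∨ (a.val = n ∧ m.testBit b.val = true) ∨ (b.val = n ∧ m.testBit a.val = true))) := by
    intro a b hab
    have h0 : (mkH (g + 2 ^ LL n * m)).Adj a b ↔ Eng.adjn (g + 2 ^ LL n * m) a.val b.val = 1 := Iff.rfl
    have h1 : (mkH g).Adj a b ↔ Eng.adjn g a.val b.val = 1 := Iff.rfl
    have h2 := mask_inside n g hg a b
    have h3 := cv6_ms_lt n m hm b
    rw [h0, ext_adj n g m hg hm a.val b.val hab]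
    by_cases hb1 : b.val < n
    · rw [if_pos hb1, ← h1]
      constructor
      · intro h4
        exact Or.inl h4
      · rintro (h4 | ⟨h4, _⟩ | ⟨h4, _⟩)
        · exact h4
        · omega
        · omega
    · rw [if_neg hb1]
      by_cases hb2 : b.val = n
      · rw [if_pos hb2]
        constructor
        · intro h4
          refine Or.inr (Or.inr ⟨hb2, ?_⟩)
          by_contra h5
          rw [Bool.not_eq_true] at h5
          rw [h5] at h4
          simp at h4
        · rintro (h4 | ⟨h4, _⟩ | ⟨_, h4⟩)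
          · exact absurd (h2 h4).2 hb1
          · omega
          · rw [h4]
            rfl
      · rw [if_neg hb2]
        constructor
        · intro h4
          exact absurd h4 (by norm_num)
        · rintro (h4 | ⟨_, h4⟩ | ⟨h4, _⟩)
          · exact absurd (h2 h4).2 hb1
          · exact absurd (h3 h4) hb1
          · exact absurd h4 hb2
  rcases Nat.lt_trichotomy a.val b.val with hab | hab | hab
  · exact key a b hab
  · have hab' : a = b := Fin.ext hab
    subst hab'
    constructor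
    · intro h
      exact absurd h ((mkH (g + 2 ^ LL n * m)).irrefl)
    · rintro (h | ⟨h, h'⟩ | ⟨h, h'⟩)
      · exact absurd h ((mkH g).irrefl)
      · have := cv6_ms_lt n m hm a h'
        omega
      · have := cv6_ms_lt n m hm a h'
        omega
  · rw [SimpleGraph.adj_comm, key b a hab, SimpleGraph.adj_comm]
    tauto

open Classical in
theorem cv6_deg (h h' : ℕ) (τ : Equiv.Perm (Fin 8))
    (hτ : ∀ a b : Fin 8, (mkH h').Adj (τ a) (τ b) ↔ (mkH h).Adj a b) (v : Fin 8) :
    (univ.filter (fun u : Fin 8 => (mkH h').Adj u (τ v))).card =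
      (univ.filter (fun u : Fin 8 => (mkH h).Adj u v)).card := by
  symm
  apply Finset.card_bij (fun u _ => τ u)
  · intro u hu
    rw [Finset.mem_filter] at hu ⊢
    exact ⟨Finset.mem_univ _, (hτ u v).2 hu.2⟩
  · intro u _ u' _ huu
    exact τ.injective huu
  · intro u hu
    rw [Finset.mem_filter] at hu
    refine ⟨τ.symm u, ?_, by simp⟩
    rw [Finset.mem_filter]
    refine ⟨Finset.mem_univ _, ?_⟩
    rw [← hτ, Equiv.apply_symm_apply]
    exact hu.2

theorem cv6_free (h h' : ℕ) (τ : Equiv.Perm (Fin 8))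
    (hτ : ∀ a b : Fin 8, (mkH h').Adj (τ a) (τ b) ↔ (mkH h).Adj a b)
    (hf : (mkH h).CliqueFree 4) : (mkH h').CliqueFree 4 := by
  have e : mkH h' ↪g mkH h :=
    { toFun := τ.symm
      inj' := τ.symm.injective
      map_rel_iff' := by
        intro a b
        have h1 := hτ (τ.symm a) (τ.symm b)
        rw [Equiv.apply_symm_apply, Equiv.apply_symm_apply] at h1
        exact h1.symm }
  exact SimpleGraph.CliqueFree.comap ⟨e.toCopy⟩ hf

/-- **A graph and its extensions.** If the check succeeds then bit `m` of one of the tables is set: an entry (`entT_sound`), or `kf = 1` and the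
table `T3` (`T3_testBit` with `msk (ms m) = m`: a triangle of `g` inside `m`, so a `K₄`), or `bad`. -/
theorem chkG_sound (kf n g TAB len : ℕ) (es : List ℕ) (hkf : kf ≤ 1) (hn : n ≤ 7)
    (hg : g < 2 ^ LL n)
    (h : Cv.chkG kf n (LL n) TAB len (Cv.tk n Cv.XA) g es = true) (m : ℕ) (hm : m < 2 ^ n) :
    (∃ c < len, ∃ π : Equiv.Perm (Fin 8), (∀ a : Fin 8, n + 1 ≤ a.val → π a = a) ∧
      Btw (tabH TAB c) (tabK TAB c) (g + 2 ^ LL n * m) π) ∨
    (kf = 1 ∧ ¬ (mkH (g + 2 ^ LL n * m)).CliqueFree 4) ∨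
    ∃ u < n, Cv.dg n g u + 2 ≤ (ms m).card ∨
      (Cv.dg n g u + 1 ≤ (ms m).card ∧ m.testBit u = false) := by
  have hm256 : m < 256 := lt_of_lt_of_le hm (by
    calc 2 ^ n ≤ 2 ^ 7 := Nat.pow_le_pow_right (by norm_num) hn
      _ ≤ 256 := by norm_num)
  have h1 : Nat.beq (Nat.land (Nat.lor (Nat.lor (List.rec (motive := fun _ => Nat) 0
      (fun e _ ih => Nat.lor ih (Cv.entT n (LL n) g TAB len (Cv.tk n Cv.XA) e)) es)
      (Nat.mul kf (Eng.T3 g))) (Cv.bad n g (Cv.tk n Cv.XA))) (Nat.sub (Nat.shiftLeft 1 (Nat.shiftLeft 1 n)) 1))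
      (Nat.sub (Nat.shiftLeft 1 (Nat.shiftLeft 1 n)) 1) = true := h
  rw [Nat.beq_eq] at h1
  have h2 := congrArg (fun x => Nat.testBit x m) h1
  have h3 : ((((List.rec (motive := fun _ => Nat) 0
      (fun e _ ih => Nat.lor ih (Cv.entT n (LL n) g TAB len (Cv.tk n Cv.XA) e)) es : ℕ) |||
      (Nat.mul kf (Eng.T3 g))) ||| (Cv.bad n g (Cv.tk n Cv.XA))) &&& (1 <<< (1 <<< n) - 1)).testBit m =
      (1 <<< (1 <<< n) - 1).testBit m := h2
  rw [Nat.one_shiftLeft, Nat.one_shiftLeft, Nat.testBit_and, Nat.testBit_two_pow_sub_one,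
    decide_eq_true hm, Bool.and_true, Nat.testBit_or, Nat.testBit_or, Bool.or_eq_true,
    Bool.or_eq_true] at h3
  rcases h3 with (h3 | h3) | h3
  · left
    obtain ⟨e, _, he⟩ := cv6_list _ _ _ _ _ _ _ _ h3
    exact entT_sound n g TAB len e m hn hg hm he
  · right; left
    have hk : kf = 0 ∨ kf = 1 := by omega
    rcases hk with hk | hk
    · exfalso
      rw [hk] at h3
      have h4 : Nat.mul 0 (Eng.T3 g) = 0 := Nat.zero_mul _
      rw [h4] at h3
      simp at h3
    · refine ⟨hk, ?_⟩
      rw [hk] at h3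
      have h4 : Nat.mul 1 (Eng.T3 g) = Eng.T3 g := Nat.one_mul _
      rw [h4, ← cv6_msk m hm256, T3_testBit] at h3
      obtain ⟨e, he, hcard, hcl⟩ := h3
      have hev : ∀ a ∈ e, m.testBit a.val = true := by
        intro a ha
        have h5 := he ha
        unfold ms at h5
        rw [Finset.mem_filter] at h5
        exact h5.2
      intro hfree
      let w : Fin 8 := ⟨n, by omega⟩
      have hw : w ∉ e := by
        intro h5
        have h6 := cv6_ms_lt n m hm w (hev w h5)
        exact absurd h6 (lt_irrefl n)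
      apply hfree (insert w e)
      rw [SimpleGraph.isNClique_iff]
      constructor
      · intro x hx y hy hxy
        rw [Finset.coe_insert, Set.mem_insert_iff, Finset.mem_coe] at hx hy
        rw [cv6_ext n g m hg hm]
        rcases hx with rfl | hx
        · rcases hy with rfl | hy
          · exact absurd rfl hxy
          · exact Or.inr (Or.inl ⟨rfl, hev y hy⟩)
        · rcases hy with rfl | hy
          · exact Or.inr (Or.inr ⟨rfl, hev x hx⟩)
          · exact Or.inl (hcl (Finset.mem_coe.2 hx) (Finset.mem_coe.2 hy) hxy)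
      · rw [Finset.card_insert_of_notMem hw, hcard]
  · right; right
    exact (bad_testBit n g m hn hm).1 h3

/-- **Extension step.** Let `h < 2^(LL (n+1))`. Choose `v` among the vertices `0, …, n` with minimal degree, `σ = swap v n`, `h'` = relabelling
(`relabel`): the vertex `n` has minimal degree in `h'`. `split_mask`: `h' = g + 2^L m`. `g` is contained in `h'`, so it is `K₄`-free; `RepsOf` gives `g₀`, `π`
(fixing the vertices `≥ n`). Let `m'` be the mask of `π (ms m)` and `h'' = g₀ + 2^L m'`: `π` is an isomorphism from `h'` to `h''` (`ext_adj`).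
`chkG_sound` for `g₀`, `m'`: first case: compose the permutations; second case: a `K₄` in `h''`, hence in `h`; third case: contradiction to the minimality of the
degree of the vertex `n` (`deg_ext_last`, `deg_ext`; isomorphisms preserve degrees). -/
theorem cov_step (kf n TAB len : ℕ) (G : List ℕ) (hkf : kf ≤ 1) (hn : n ≤ 7)
    (hG : RepsOf kf n G) (hlt : ∀ g ∈ G, g < 2 ^ LL n)
    (hc : ∀ g ∈ G, ∃ es, Cv.chkG kf n (LL n) TAB len (Cv.tk n Cv.XA) g es = true) :
    CovBy kf (n + 1) TAB len := by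
  classical
  intro h hh hfree
  let w : Fin 8 := ⟨n, by omega⟩
  obtain ⟨d, hd⟩ : ∃ d : Fin 8 → ℕ, ∀ v, d v = (univ.filter (fun u : Fin 8 => (mkH h).Adj u v)).card :=
    ⟨_, fun _ => rfl⟩
  obtain ⟨v, hv, hmin⟩ := Finset.exists_min_image (univ.filter (fun v : Fin 8 => v.val < n + 1)) d
    ⟨w, by
      rw [Finset.mem_filter]
      exact ⟨Finset.mem_univ _, Nat.lt_succ_self n⟩⟩
  rw [Finset.mem_filter] at hv
  have hv1 : v.val < n + 1 := hv.2
  have hσ : ∀ a : Fin 8, n + 1 ≤ a.val → Equiv.swap v w a = a := by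
    intro a ha
    apply Equiv.swap_apply_of_ne_of_ne
    · intro h1
      rw [h1] at ha
      omega
    · intro h1
      rw [h1] at ha
      exact absurd ha (by show ¬ (n + 1 ≤ n); omega)
  obtain ⟨h', hh', hadj'⟩ := relabel (n + 1) h (by omega) hh (Equiv.swap v w) hσ
  obtain ⟨g, hg, m, hm, hgm⟩ := split_mask n h' hh'
  have hle : mkH g ≤ mkH h' := by
    intro a b hab
    rw [hgm, cv6_ext n g m hg hm]
    exact Or.inl hab
  obtain ⟨g₀, hg₀, π, hπ, hbt⟩ := hG g hg (fun hk =>
    SimpleGraph.CliqueFree.anti hle (cv6_free h h' (Equiv.swap v w) hadj' (hfree hk)))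
  have hg₀lt := hlt g₀ hg₀
  obtain ⟨es, hes⟩ := hc g₀ hg₀
  have hπn : ∀ a : Fin 8, (π a).val = n ↔ a.val = n := by
    intro a
    constructor
    · intro h1
      have h2 : π a = w := Fin.ext h1
      have h3 : π w = w := hπ w (le_refl n)
      have h4 : a = w := π.injective (h2.trans h3.symm)
      rw [h4]
    · intro h1
      rw [hπ a (by omega), h1]
  obtain ⟨m', hm'd⟩ : ∃ m', m' = msk ((ms m).map π.toEmbedding) := ⟨_, rfl⟩
  have hm'b : ∀ a : Fin 8, m'.testBit (π a).val = m.testBit a.val := by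
    intro a
    rw [hm'd, msk_testBit]
    have h1 : (π a ∈ (ms m).map π.toEmbedding) ↔ m.testBit a.val = true := by
      rw [Finset.mem_map]
      unfold ms
      constructor
      · rintro ⟨b, hb, hbe⟩
        have h2 : b = a := π.injective hbe
        rw [h2, Finset.mem_filter] at hb
        exact hb.2
      · intro h2
        exact ⟨a, by rw [Finset.mem_filter]; exact ⟨Finset.mem_univ _, h2⟩, rfl⟩
    by_cases h2 : m.testBit a.val = true
    · rw [h2, decide_eq_true (h1.2 h2)]
    · rw [decide_eq_false (fun h3 => h2 (h1.1 h3))]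
      rw [Bool.not_eq_true] at h2
      exact h2.symm
  have hm'lt : m' < 2 ^ n := by
    apply Nat.lt_pow_two_of_testBit
    intro i hi
    by_cases hi8 : i < 8
    · obtain ⟨a, ha⟩ := π.surjective ⟨i, hi8⟩
      have h1 : a.val = i := by
        have h2 : π ⟨i, hi8⟩ = ⟨i, hi8⟩ := hπ _ hi
        have h3 : a = ⟨i, hi8⟩ := π.injective (ha.trans h2.symm)
        rw [h3]
      have h2 := hm'b a
      rw [ha, h1] at h2
      rw [h2]
      exact Nat.testBit_eq_false_of_lt (lt_of_lt_of_le hm (Nat.pow_le_pow_right (by norm_num) hi))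
    · have h1 : m' < 256 := by
        rw [hm'd]
        exact msk_lt _
      apply Nat.testBit_eq_false_of_lt
      calc m' < 256 := h1
        _ = 2 ^ 8 := by norm_num
        _ ≤ 2 ^ i := Nat.pow_le_pow_right (by norm_num) (by omega)
  obtain ⟨h'', hh''⟩ : ∃ h'', h'' = g₀ + 2 ^ LL n * m' := ⟨_, rfl⟩
  have hiso : ∀ a b : Fin 8, (mkH h'').Adj (π a) (π b) ↔ (mkH h').Adj a b := by
    intro a b
    rw [hh'', hgm, cv6_ext n g₀ m' hg₀lt hm'lt, cv6_ext n g m hg hm, hm'b, hm'b, hπn, hπn]
    have h1 : (mkH g₀).Adj (π a) (π b) ↔ (mkH g).Adj a b := ⟨(hbt a b).1, (hbt a b).2⟩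
    rw [h1]
  let τ : Equiv.Perm (Fin 8) := (Equiv.swap v w).trans π
  have hτ : ∀ a b : Fin 8, (mkH h'').Adj (τ a) (τ b) ↔ (mkH h).Adj a b := by
    intro a b
    show (mkH h'').Adj (π (Equiv.swap v w a)) (π (Equiv.swap v w b)) ↔ (mkH h).Adj a b
    rw [hiso, hadj']
  have hτfix : ∀ a : Fin 8, n + 1 ≤ a.val → τ a = a := by
    intro a ha
    show π (Equiv.swap v w a) = a
    rw [hσ a ha, hπ a (by omega)]
  rcases chkG_sound kf n g₀ TAB len es hkf hn hg₀lt hes m' hm'lt with h1 | h1 | h1
  · obtain ⟨c, hcl, π', hπ', hbt'⟩ := h1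
    refine ⟨c, hcl, τ.trans π', ?_, ?_⟩
    · intro a ha
      show π' (τ a) = a
      rw [hτfix a ha, hπ' a ha]
    · intro a b
      have h2 := hbt' (τ a) (τ b)
      rw [← hh'', hτ] at h2
      exact h2
  · obtain ⟨hk, hnf⟩ := h1
    exfalso
    apply hnf
    rw [← hh'']
    exact cv6_free h h'' τ hτ (hfree hk)
  · exfalso
    obtain ⟨u, hu, hcase⟩ := h1
    have hτv : τ v = w := by
      show π (Equiv.swap v w v) = w
      rw [Equiv.swap_apply_left]
      exact hπ w (le_refl n)
    have hd1 : d v = (ms m').card := by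
      rw [hd, ← cv6_deg h h'' τ hτ v, hτv, hh'']
      exact deg_ext_last n g₀ m' hn hg₀lt hm'lt w rfl
    let u8 : Fin 8 := ⟨u, by omega⟩
    have hd2 : d (τ.symm u8) = Cv.dg n g₀ u + (m'.testBit u).toNat := by
      rw [hd, ← cv6_deg h h'' τ hτ (τ.symm u8), Equiv.apply_symm_apply, hh'']
      exact deg_ext n g₀ m' hn hg₀lt hm'lt u8 hu
    have hlow : (τ.symm u8).val < n + 1 := by
      by_contra h2
      have h3 := hτfix (τ.symm u8) (by omega)
      rw [Equiv.apply_symm_apply] at h3
      have h4 : u = (τ.symm u8).val := congrArg Fin.val h3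
      omega
    have h2 := hmin (τ.symm u8) (by
      rw [Finset.mem_filter]
      exact ⟨Finset.mem_univ _, hlow⟩)
    rw [hd1, hd2] at h2
    have h3 : (m'.testBit u).toNat ≤ 1 := Bool.toNat_le _
    rcases hcase with h4 | ⟨h4, h5⟩
    · omega
    · rw [h5] at h2
      have h6 : (false).toNat = 0 := rfl
      rw [h6] at h2
      omega

end Pool.Agent.MP_528dc0_co

end

section

open Finset

namespace Pool.Agent.MP_528dc0_co

private theorem cv7_andB (a b : Bool) (h : Eng.andB a b = true) : a = true ∧ b = true := by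
  cases a
  · exact absurd h (by
      have h1 : Eng.andB false b = false := rfl
      rw [h1]
      exact Bool.false_ne_true)
  · have h1 : Eng.andB true b = b := rfl
    rw [h1] at h
    exact ⟨rfl, h⟩

/-- the list check -/
theorem chkL_sound (kf n L TAB len : ℕ) (xs : List ℕ) (l : List (ℕ × List ℕ))
    (h : Cv.chkL kf n L TAB len xs l = true) :
    ∀ g ∈ l.map Prod.fst, ∃ es, Cv.chkG kf n L TAB len xs g es = true := by
  induction l with
  | nil =>
    intro g hg
    simp at hg
  | cons p l ih =>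
    obtain ⟨g0, es0⟩ := p
    have h0 : Cv.chkL kf n L TAB len xs ((g0, es0) :: l) =
      Eng.andB (Cv.chkG kf n L TAB len xs g0 es0) (Cv.chkL kf n L TAB len xs l) := rfl
    rw [h0] at h
    obtain ⟨h1, h2⟩ := cv7_andB _ _ h
    intro g hg
    rw [List.map_cons, List.mem_cons] at hg
    rcases hg with hg | hg
    · rw [hg]
      exact ⟨es0, h1⟩
    · exact ih h2 g hg

private theorem cv7_tabE (T c : ℕ) : tabE T c = (T / 2 ^ (56 * c)) % 2 ^ 56 := by
  have h0 : tabE T c = (T >>> (56 * c)) &&& 72057594037927935 := rfl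
  have h1 : (72057594037927935 : ℕ) = 2 ^ 56 - 1 := by norm_num
  rw [h0, h1, Nat.and_two_pow_sub_one_eq_mod, Nat.shiftRight_eq_div_pow]

/-- entries of a packed table -/
theorem pack_get (l : List (ℕ × ℕ)) (hl : ∀ p ∈ l, p.1 < 2 ^ 28 ∧ p.2 < 2 ^ 28) (c : ℕ)
    (hc : c < l.length) : ∃ p ∈ l, tabH (pack l) c = p.1 ∧ tabK (pack l) c = p.2 ∧ l[c]? = some p := by
  induction l generalizing c with
  | nil => simp at hc
  | cons q l ih =>
    have hp : pack (q :: l) = q.1 + 2 ^ 28 * q.2 + 2 ^ 56 * pack l := rfl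
    obtain ⟨hq1, hq2⟩ := hl q (by simp)
    have hq : q.1 + 2 ^ 28 * q.2 < 2 ^ 56 := by omega
    rcases c with _ | c
    · refine ⟨q, by simp, ?_, ?_, by simp⟩
      · unfold tabH
        rw [cv7_tabE, hp]
        simp only [Nat.mul_zero, pow_zero, Nat.div_one]
        rw [Nat.add_mul_mod_self_left, Nat.mod_eq_of_lt hq]
        omega
      · unfold tabK
        rw [cv7_tabE, hp]
        simp only [Nat.mul_zero, pow_zero, Nat.div_one]
        rw [Nat.add_mul_mod_self_left, Nat.mod_eq_of_lt hq]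
        omega
    · obtain ⟨p, hpm, h1, h2, h3⟩ := ih (fun p hp => hl p (List.mem_cons_of_mem q hp)) c
        (by simpa using hc)
      have hE : tabE (pack (q :: l)) (c + 1) = tabE (pack l) c := by
        rw [cv7_tabE, cv7_tabE, show 56 * (c + 1) = 56 + 56 * c by omega, pow_add,
          ← Nat.div_div_eq_div_mul, hp, Nat.add_mul_div_left _ _ (by positivity),
          Nat.div_eq_of_lt hq, Nat.zero_add]
      refine ⟨p, List.mem_cons_of_mem q hpm, ?_, ?_, by simpa using h3⟩
      · unfold tabH at h1 ⊢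
        rw [hE]
        exact h1
      · unfold tabK at h2 ⊢
        rw [hE]
        exact h2

/-- a table of representatives: pairs `(g, g)` -/
theorem reps_of_cov (kf n : ℕ) (G : List ℕ) (hG : ∀ g ∈ G, g < 2 ^ 28)
    (h : CovBy kf n (pack (G.map (fun g => (g, g)))) G.length) : RepsOf kf n G := by
  intro x hx hk
  obtain ⟨c, hc, π, hπ, hb⟩ := h x hx hk
  obtain ⟨p, hp, h1, h2, -⟩ := pack_get (G.map (fun g => (g, g))) (by
    intro p hp
    rw [List.mem_map] at hp
    obtain ⟨g, hg, rfl⟩ := hp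
    exact ⟨hG g hg, hG g hg⟩) c (by rw [List.length_map]; exact hc)
  rw [List.mem_map] at hp
  obtain ⟨g, hg, rfl⟩ := hp
  rw [h1, h2] at hb
  exact ⟨g, hg, π, hπ, hb⟩

/-- the graph without vertices -/
theorem reps_zero (kf : ℕ) : RepsOf kf 0 [0] := by
  intro h hh _
  have h0 : LL 0 = 0 := rfl
  rw [h0, pow_zero] at hh
  have h1 : h = 0 := by omega
  refine ⟨0, by simp, 1, fun a _ => rfl, ?_⟩
  rw [h1]
  intro a b
  exact ⟨fun x => x, fun x => x⟩

open Classical in
/-- if a permutation maps the graph `h` above `H` then `h` has at least as many triangles (image of the set of triangles) -/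
theorem tH_le (H K h : ℕ) (π : Equiv.Perm (Fin 8)) (hb : Btw H K h π) :
    Par.tH (mkH H) ≤ Par.tH (mkH h) := by
  unfold Par.tH
  refine Finset.card_le_card_of_injOn (fun e => e.map π.symm.toEmbedding) ?_ ?_
  · intro e he
    have he' := Finset.mem_filter.1 (Finset.mem_coe.1 he)
    obtain ⟨h1, h2⟩ := he'
    rw [Finset.mem_powersetCard] at h1
    apply Finset.mem_coe.2
    rw [Finset.mem_filter, Finset.mem_powersetCard]
    refine ⟨⟨Finset.subset_univ _, ?_⟩, ?_⟩
    · rw [Finset.card_map]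
      exact h1.2
    · intro a ha b hab hne
      have ha' : π a ∈ e := by
        rw [Finset.mem_coe, Finset.mem_map] at ha
        obtain ⟨x, hx, hxa⟩ := ha
        have : π a = x := by
          rw [← hxa]
          exact π.apply_symm_apply x
        rw [this]
        exact hx
      have hb' : π b ∈ e := by
        rw [Finset.mem_coe, Finset.mem_map] at hab
        obtain ⟨x, hx, hxa⟩ := hab
        have : π b = x := by
          rw [← hxa]
          exact π.apply_symm_apply x
        rw [this]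
        exact hx
      have hne' : π a ≠ π b := fun h3 => hne (π.injective h3)
      exact (hb a b).1 (h2 (Finset.mem_coe.2 ha') (Finset.mem_coe.2 hb') hne')
  · intro e _ e' _ hee
    exact Finset.map_injective _ hee

end Pool.Agent.MP_528dc0_co

end
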