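import Mathlib
import Pool.Agent.MP_528dc0_co.TDefs

/-!
# Toroidal graphs: Euler formula, minimal non-4-colourable graphs, complete graphs
-/

section

open Finset

namespace Pool.Agent.MP_528dc0_co

theorem to4_cf {V : Type} (G : SimpleGraph V) (n : ℕ) (i1 j1 : Fintype V)
    (i2 j2 : DecidableEq V) (i3 j3 : DecidableRel G.Adj) :
    @SimpleGraph.cliqueFinset V G i1 i2 i3 n = @SimpleGraph.cliqueFinset V G j1 j2 j3 n := by
  obtain rfl := Subsingleton.elim i1 j1
  obtain rfl := Subsingleton.elim i2 j2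
  obtain rfl := Subsingleton.elim i3 j3
  rfl

open Pool.Agent.MP_c359ba_co (CMap)

open Module in
theorem to1_U {A : Type} [Fintype A] (τ : A → A) (hττ : ∀ a, τ (τ a) = a) :
    2 * finrank (ZMod 2) (LinearMap.range (LinearMap.id + LinearMap.funLeft (ZMod 2) (ZMod 2) τ :
      (A → ZMod 2) →ₗ[ZMod 2] (A → ZMod 2))) ≤ Fintype.card A := by
  set T : (A → ZMod 2) →ₗ[ZMod 2] (A → ZMod 2) :=
    LinearMap.id + LinearMap.funLeft (ZMod 2) (ZMod 2) τ with hT
  have hTa : ∀ h d, T h d = h d + h (τ d) := fun h d => rfl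
  have hle : LinearMap.range T ≤ LinearMap.ker T := by
    rintro _ ⟨h, rfl⟩
    rw [LinearMap.mem_ker]
    funext d
    rw [hTa, hTa, hTa, hττ, Pi.zero_apply]
    have h1 := CharTwo.add_self_eq_zero (h d)
    have h2 := CharTwo.add_self_eq_zero (h (τ d))
    linear_combination h1 + h2
  have h1 := LinearMap.finrank_range_add_finrank_ker T
  rw [Module.finrank_fintype_fun_eq_card] at h1
  have h2 := Submodule.finrank_mono hle
  omega

theorem to1_surj {E ι : Type} [AddCommGroup E] [Module (ZMod 2) E] [Fintype ι]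
    (f : E →ₗ[ZMod 2] (ι → ZMod 2))
    (hf : ∀ c : ι → ZMod 2, (∀ x, ∑ i, c i * f x i = 0) → c = 0) : Function.Surjective f := by
  classical
  rw [← LinearMap.range_eq_top]
  by_contra hne
  obtain ⟨φ, hφ, hle⟩ := Submodule.exists_le_ker_of_lt_top _ (lt_top_iff_ne_top.2 hne)
  apply hφ
  have hφe : ∀ y : ι → ZMod 2, φ y = ∑ i, φ (Pi.single i 1) * y i := by
    intro y
    conv_lhs => rw [← Finset.univ_sum_single y]
    rw [map_sum]
    refine Finset.sum_congr rfl fun i _ => ?_
    have : (Pi.single i (y i) : ι → ZMod 2) = y i • (Pi.single i 1 : ι → ZMod 2) := by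
      rw [← Pi.single_smul, smul_eq_mul, mul_one]
    rw [this, map_smul, smul_eq_mul, mul_comm]
  have hc := hf (fun i => φ (Pi.single i 1)) (fun x => by
    rw [← hφe]
    exact hle ⟨x, rfl⟩)
  refine LinearMap.ext fun y => ?_
  rw [hφe, LinearMap.zero_apply]
  exact Finset.sum_eq_zero fun i _ => by rw [show φ (Pi.single i 1) = 0 from congrFun hc i, zero_mul]

/-- **Regions.** `F + (number of vertices all of whose darts are outside S) ≤ R + (number of edges
outside S)`.

Proof. Linear algebra over `ZMod 2`. `W_F = {g : D → ZMod 2 | g (σ (α d)) = g d}` has dimension `F`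
(functions on the cycles of `σ * α`), `W_R ⊆ W_F` the subspace with moreover `g (α d) = g d` for
`d ∉ S` has dimension `R` (functions constant on the classes of `regR`).
`U = {h : {d // d ∉ S} → ZMod 2 | h (α d) = h d}` has dimension (number of `d ∉ S`)/2. `T : W_F → U`,
`T g d = g d + g (α d)`, has kernel `W_R`. For a cycle `v` of `σ` without darts in `S` let
`ℓ_v (h) = ∑_{d ∈ v} h d`; `ℓ_v (T g) = ∑_{d ∈ v} (g d + g (α d)) = 0` because
`g (α d) = g (σ (α (α d))) = g (σ d)` and `σ` permutes `v`. The functionals `ℓ_v` on `U` are linearly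
independent: if `∑_{v ∈ A} ℓ_v = 0`, evaluate at the indicator function of `{d, α d}`, `d ∉ S`: the
vertices of `d` and of `α d` are both in `A` or both not (if they are equal the value is
`1 + 1 = 0`, consistent). For `d ∈ S` both are not in `A`. So the set of darts with vertex in `A` is
closed under `σ` and `α`, and it is not everything as `S` is nonempty; by connectivity `A = ∅`. So the
range of `T` has codimension at least the number of such `v` in `U`:
`F - R = dim range T ≤ |D \ S|/2 - #v`. -/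
theorem region_bound {D : Type} [Fintype D] (σ α : Equiv.Perm D) (hα : ∀ d, α d ≠ d)
    (hαα : ∀ d, α (α d) = d)
    (hconn : ∀ P : D → Prop, (∀ d, P d → P (σ d) ∧ P (α d)) → (∃ d, P d) → ∀ d, P d)
    (S : Set D) (hS : ∀ d ∈ S, α d ∈ S) (hne : S.Nonempty) :
    cyc (σ * α) + Nat.card {v : Quotient (Equiv.Perm.SameCycle.setoid σ) //
      ∀ d : D, (Quotient.mk _ d : Quotient (Equiv.Perm.SameCycle.setoid σ)) = v → d ∉ S} ≤
    regs σ α S + Nat.card {d : D // d ∉ S} / 2 := by
  classical
  let QF := Quotient (Equiv.Perm.SameCycle.setoid (σ * α))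
  let QR := Quotient (Relation.EqvGen.setoid (regR σ α S))
  let QV := Quotient (Equiv.Perm.SameCycle.setoid σ)
  let mkF : D → QF := fun d => Quotient.mk _ d
  let mkR : D → QR := fun d => Quotient.mk _ d
  let mkV : D → QV := fun d => Quotient.mk _ d
  let Vs := {v : QV // ∀ d : D, mkV d = v → d ∉ S}
  let DS := {d : D // d ∉ S}
  have : Fintype QF := Fintype.ofFinite _
  have : Fintype QR := Fintype.ofFinite _
  have : Fintype QV := Fintype.ofFinite _
  have : Fintype Vs := Fintype.ofFinite _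
  have : Fintype DS := Fintype.ofFinite _
  show Nat.card QF + Nat.card Vs ≤ Nat.card QR + Nat.card DS / 2
  rw [Nat.card_eq_fintype_card, Nat.card_eq_fintype_card, Nat.card_eq_fintype_card,
    Nat.card_eq_fintype_card]
  have hαS : ∀ d, d ∉ S → α d ∉ S := by
    intro d hd h
    exact hd (by have := hS _ h; rwa [hαα] at this)
  let τ : DS → DS := fun d => ⟨α d.1, hαS d.1 d.2⟩
  have hττ : ∀ d, τ (τ d) = d := fun d => Subtype.ext (hαα d.1)
  let T2 : (DS → ZMod 2) →ₗ[ZMod 2] (DS → ZMod 2) := LinearMap.id + LinearMap.funLeft (ZMod 2) (ZMod 2) τ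
  have hT2 : ∀ h d, T2 h d = h d + h (τ d) := fun h d => rfl
  have hU : 2 * Module.finrank (ZMod 2) (LinearMap.range T2) ≤ Fintype.card DS := to1_U τ hττ
  let Φ : (QF → ZMod 2) →ₗ[ZMod 2] (DS → ZMod 2) := LinearMap.funLeft (ZMod 2) (ZMod 2) (fun d : DS => mkF d.1)
  let T3 : (QF → ZMod 2) →ₗ[ZMod 2] LinearMap.range T2 := T2.rangeRestrict ∘ₗ Φ
  have hT3 : ∀ f d, (T3 f).1 d = f (mkF d.1) + f (mkF (α d.1)) := fun f d => rfl
  have mkF_eq : ∀ d, mkF (σ (α d)) = mkF d := by
    intro d
    apply Quotient.sound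
    show Equiv.Perm.SameCycle (σ * α) (σ (α d)) d
    exact (Equiv.Perm.SameCycle.refl (σ * α) d).apply_left
  have mkV_eq : ∀ d, mkV (σ d) = mkV d := by
    intro d
    apply Quotient.sound
    show Equiv.Perm.SameCycle σ (σ d) d
    exact (Equiv.Perm.SameCycle.refl σ d).apply_left
  -- the kernel of `T3`
  have hker : Module.finrank (ZMod 2) (LinearMap.ker T3) ≤ Fintype.card QR := by
    let Ψ : LinearMap.ker T3 →ₗ[ZMod 2] (QR → ZMod 2) :=
      { toFun := fun f => Quotient.lift (fun d : D => f.1 (mkF d)) (by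
          intro a b hab
          have hab' : Relation.EqvGen (regR σ α S) a b := hab
          clear hab
          induction hab' with
          | rel a b h =>
            rcases h with h | ⟨h1, h2⟩
            · rw [h, mkF_eq]
            · have h3 : T3 f.1 = 0 := f.2
              have h4 := hT3 f.1 ⟨a, h1⟩
              rw [h3] at h4
              have h5 : f.1 (mkF a) + f.1 (mkF (α a)) = 0 := h4.symm
              rw [h2]
              exact CharTwo.add_eq_zero.1 h5
          | refl a => rfl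
          | symm a b _ ih => exact ih.symm
          | trans a b c _ _ ih1 ih2 => exact ih1.trans ih2)
        map_add' := by
          intro f g
          funext q
          induction q using Quotient.inductionOn with
          | h d => rfl
        map_smul' := by
          intro c f
          funext q
          induction q using Quotient.inductionOn with
          | h d => rfl }
    have hinj : Function.Injective Ψ := by
      intro f g hfg
      apply Subtype.ext
      funext q
      induction q using Quotient.inductionOn with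
      | h d => exact congrFun hfg (mkR d)
    have := LinearMap.finrank_le_finrank_of_injective hinj
    rwa [Module.finrank_fintype_fun_eq_card] at this
  -- vertex functionals
  let L : (DS → ZMod 2) →ₗ[ZMod 2] (Vs → ZMod 2) :=
    { toFun := fun h v => ∑ d : DS, if mkV d.1 = v.1 then h d else 0
      map_add' := by
        intro g h
        funext v
        simp only [Pi.add_apply, ← Finset.sum_add_distrib]
        exact Finset.sum_congr rfl fun d _ => by split_ifs <;> simp
      map_smul' := by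
        intro c h
        funext v
        simp only [Pi.smul_apply, smul_eq_mul, Finset.mul_sum, RingHom.id_apply]
        exact Finset.sum_congr rfl fun d _ => by split_ifs <;> simp }
  have hL : ∀ h v, L h v = ∑ d : DS, if mkV d.1 = v.1 then h d else 0 := fun h v => rfl
  have hL0 : ∀ f, L (T3 f).1 = 0 := by
    intro f
    funext v
    rw [hL, Pi.zero_apply]
    simp only [hT3]
    have h1 : (∑ d : DS, if mkV d.1 = v.1 then f (mkF d.1) + f (mkF (α d.1)) else 0) =
        ∑ d : D, if mkV d = v.1 then f (mkF d) + f (mkF (α d)) else 0 := by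
      rw [← Finset.sum_subtype (univ.filter (fun d => d ∉ S)) (fun d => by simp)
        (fun d => if mkV d = v.1 then f (mkF d) + f (mkF (α d)) else 0)]
      refine Finset.sum_subset (Finset.subset_univ _) fun d _ hd => ?_
      rw [if_neg]
      intro h
      exact hd (by simpa using v.2 d h)
    rw [h1]
    have h2 : ∀ d, f (mkF (α d)) = f (mkF (σ d)) := by
      intro d
      rw [← mkF_eq (α d), hαα]
    have h3 : (∑ d : D, if mkV d = v.1 then f (mkF d) + f (mkF (α d)) else 0) =
        (∑ d : D, if mkV d = v.1 then f (mkF d) else 0) +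
        ∑ d : D, if mkV (σ d) = v.1 then f (mkF (σ d)) else 0 := by
      rw [← Finset.sum_add_distrib]
      refine Finset.sum_congr rfl fun d _ => ?_
      rw [mkV_eq, h2]
      split_ifs <;> simp
    rw [h3, Equiv.sum_comp σ (fun d => if mkV d = v.1 then f (mkF d) else 0)]
    exact CharTwo.add_self_eq_zero _
  have hsurj : Function.Surjective (L ∘ₗ T2) := by
    apply to1_surj
    intro c hc
    let ch : D → ZMod 2 := fun d => ∑ v : Vs, if mkV d = v.1 then c v else 0
    have hch : ∀ d (v : Vs), mkV d = v.1 → ch d = c v := by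
      intro d v hv
      show (∑ w : Vs, if mkV d = w.1 then c w else 0) = c v
      rw [Finset.sum_eq_single v]
      · rw [if_pos hv]
      · intro w _ hw
        rw [if_neg]
        intro h
        exact hw (Subtype.ext (h.symm.trans hv))
      · intro h
        exact absurd (Finset.mem_univ v) h
    have hchS : ∀ d ∈ S, ch d = 0 := by
      intro d hd
      refine Finset.sum_eq_zero fun v _ => ?_
      rw [if_neg]
      intro h
      exact v.2 d h hd
    have hσ : ∀ d, ch (σ d) = ch d := by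
      intro d
      show (∑ v : Vs, if mkV (σ d) = v.1 then c v else 0) = _
      rw [mkV_eq]
    have hLc : ∀ x : DS → ZMod 2, ∑ v, c v * L x v = ∑ d : DS, ch d.1 * x d := by
      intro x
      simp only [hL, Finset.mul_sum, ch, Finset.sum_mul]
      rw [Finset.sum_comm]
      refine Finset.sum_congr rfl fun d _ => Finset.sum_congr rfl fun v _ => ?_
      split_ifs <;> simp
    have hα' : ∀ d, ch (α d) = ch d := by
      intro d
      by_cases hd : d ∈ S
      · rw [hchS d hd, hchS _ (hS d hd)]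
      · have h1 := hc (Pi.single (⟨d, hd⟩ : DS) 1)
        simp only [LinearMap.comp_apply] at h1
        rw [hLc] at h1
        simp only [hT2, mul_add, Finset.sum_add_distrib] at h1
        have h2 : (∑ x : DS, ch x.1 * (Pi.single (⟨d, hd⟩ : DS) 1 : DS → ZMod 2) x) = ch d := by
          rw [Finset.sum_eq_single (⟨d, hd⟩ : DS)]
          · simp
          · intro b _ hb
            rw [Pi.single_eq_of_ne hb, mul_zero]
          · intro h
            exact absurd (Finset.mem_univ _) h
        have h3 : (∑ x : DS, ch x.1 * (Pi.single (⟨d, hd⟩ : DS) 1 : DS → ZMod 2) (τ x)) =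
            ch (α d) := by
          rw [Finset.sum_eq_single (τ ⟨d, hd⟩)]
          · rw [hττ]
            simp [τ]
          · intro b _ hb
            rw [Pi.single_eq_of_ne, mul_zero]
            intro h
            exact hb (by rw [← h, hττ])
          · intro h
            exact absurd (Finset.mem_univ _) h
        rw [h2, h3] at h1
        exact (CharTwo.add_eq_zero.1 h1).symm
    have hzero : ∀ d, ch d = 0 := by
      by_contra hcon
      push Not at hcon
      obtain ⟨s, hs⟩ := hne
      exact hconn (fun d => ch d ≠ 0) (fun d hd => ⟨by rwa [hσ], by rwa [hα']⟩) hcon s (hchS s hs)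
    funext v
    obtain ⟨d, hd⟩ := Quotient.exists_rep v.1
    rw [← hch d v hd, hzero]
    rfl
  -- count
  let LU : LinearMap.range T2 →ₗ[ZMod 2] (Vs → ZMod 2) := L.domRestrict (LinearMap.range T2)
  have hLU : LinearMap.range LU = ⊤ := by
    rw [LinearMap.range_eq_top]
    intro y
    obtain ⟨x, hx⟩ := hsurj y
    exact ⟨⟨T2 x, ⟨x, rfl⟩⟩, hx⟩
  have h1 := LinearMap.finrank_range_add_finrank_ker LU
  rw [hLU, finrank_top, Module.finrank_fintype_fun_eq_card] at h1
  have h2 := LinearMap.finrank_range_add_finrank_ker T3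
  rw [Module.finrank_fintype_fun_eq_card] at h2
  have h3 : LinearMap.range T3 ≤ LinearMap.ker LU := by
    rintro _ ⟨f, rfl⟩
    rw [LinearMap.mem_ker]
    exact hL0 f
  have h4 := Submodule.finrank_mono h3
  omega

end Pool.Agent.MP_528dc0_co

end

section

open Finset

namespace Pool.Agent.MP_528dc0_co

open Pool.Agent.MP_c359ba_co (CMap)

theorem to2_return {D : Type} [Finite D] (σ : Equiv.Perm D) (S : Set D) (d : D) (hd : d ∈ S) :
    ∃ k : ℕ, (σ ^ (k + 1)) d ∈ S := by
  have h1 : 0 < orderOf σ := orderOf_pos σ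
  refine ⟨orderOf σ - 1, ?_⟩
  rw [Nat.sub_add_cancel h1, pow_orderOf_eq_one]
  exact hd

theorem to2_inj {D : Type} (σ : Equiv.Perm D) (S : Set D) {d e : D} (hd : d ∈ S) {k l : ℕ}
    (hkl : k ≤ l) (he : ∀ j < l, (σ ^ (j + 1)) e ∉ S)
    (h : (σ ^ (k + 1)) d = (σ ^ (l + 1)) e) : d = e := by
  obtain ⟨j, hj⟩ := Nat.exists_eq_add_of_le hkl
  have h1 : (σ ^ (l + 1)) e = (σ ^ (k + 1)) ((σ ^ j) e) := by
    rw [← Equiv.Perm.mul_apply, ← pow_add]
    congr 2
    omega
  have h2 : d = (σ ^ j) e := (σ ^ (k + 1)).injective (h.trans h1)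
  rcases Nat.eq_zero_or_pos j with h0 | h0
  · rw [h2, h0, pow_zero]
    rfl
  · exfalso
    obtain ⟨i, hi⟩ : ∃ i, j = i + 1 := ⟨j - 1, by omega⟩
    rcases Nat.lt_or_ge i l with h3 | h3
    · apply he i h3
      rw [← hi, ← h2]
      exact hd
    · omega

/-- First return: a permutation `ρ` of `S` with `ρ d = σ^(k+1) d`, the first return to `S`.
(`k` from `Nat.find`; a return exists since some positive power of `σ` is the identity; injective:
if `σ^(k+1) d = σ^(l+1) e` with `k ≤ l` then `e' = σ^(l-k) e = d ∈ S` forces `l = k`.) -/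
theorem exists_ret {D : Type} [Finite D] (σ : Equiv.Perm D) (S : Set D) :
    ∃ ρ : Equiv.Perm S, ∀ d : S, ∃ k : ℕ, ((ρ d : S) : D) = (σ ^ (k + 1)) (d : D) ∧
      ∀ j < k, (σ ^ (j + 1)) (d : D) ∉ S := by
  classical
  have key : ∀ d : S, ∃ k : ℕ, (σ ^ (k + 1)) (d : D) ∈ S ∧
      ∀ j < k, (σ ^ (j + 1)) (d : D) ∉ S := fun d =>
    ⟨Nat.find (to2_return σ S d d.2), Nat.find_spec (to2_return σ S d d.2),
      fun j hj => Nat.find_min (to2_return σ S d d.2) hj⟩
  choose k hk1 hk2 using key
  let f : S → S := fun d => ⟨(σ ^ (k d + 1)) (d : D), hk1 d⟩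
  have hf : Function.Injective f := by
    intro d e hde
    have h1 : (σ ^ (k d + 1)) (d : D) = (σ ^ (k e + 1)) (e : D) := congrArg Subtype.val hde
    apply Subtype.ext
    rcases le_total (k d) (k e) with h2 | h2
    · exact to2_inj σ S d.2 h2 (hk2 e) h1
    · exact (to2_inj σ S e.2 h2 (hk2 d) h1.symm).symm
  exact ⟨Equiv.ofBijective f (Finite.injective_iff_bijective.1 hf), fun d =>
    ⟨k d, rfl, hk2 d⟩⟩

theorem to2_nat {D : Type} [Finite D] (σ : Equiv.Perm D) {x y : D}
    (h : Equiv.Perm.SameCycle σ x y) : ∃ n : ℕ, (σ ^ n) x = y := by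
  obtain ⟨i, hi⟩ := h
  obtain ⟨n, hn⟩ := (isOfFinOrder_of_finite σ).mem_powers_iff_mem_zpowers.2
    (Subgroup.mem_zpowers_iff.2 ⟨i, rfl⟩ : σ ^ i ∈ Subgroup.zpowers σ)
  have hn' : σ ^ n = σ ^ i := hn
  exact ⟨n, by rw [hn']; exact hi⟩

/-- It has the same cycles as `σ`, restricted to `S`. -/
theorem ret_sameCycle {D : Type} [Finite D] (σ : Equiv.Perm D) (S : Set D) (ρ : Equiv.Perm S)
    (hρ : ∀ d : S, ∃ k : ℕ, ((ρ d : S) : D) = (σ ^ (k + 1)) (d : D) ∧
      ∀ j < k, (σ ^ (j + 1)) (d : D) ∉ S) (d e : S) :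
    Equiv.Perm.SameCycle ρ d e ↔ Equiv.Perm.SameCycle σ (d : D) (e : D) := by
  constructor
  · intro h
    obtain ⟨n, hn⟩ := to2_nat ρ h
    rw [← hn]
    clear hn h
    induction n with
    | zero => exact Equiv.Perm.SameCycle.refl σ _
    | succ n ih =>
      obtain ⟨k, hk, -⟩ := hρ ((ρ ^ n) d)
      have h1 : (ρ ^ (n + 1)) d = ρ ((ρ ^ n) d) := by
        rw [pow_succ', Equiv.Perm.mul_apply]
      rw [h1, hk]
      exact ih.trans ⟨((k + 1 : ℕ) : ℤ), by rw [zpow_natCast]⟩
  · intro h
    obtain ⟨n, hn⟩ := to2_nat σ h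
    clear h
    induction n using Nat.strong_induction_on generalizing d with
    | _ n ih =>
      rcases Nat.eq_zero_or_pos n with h0 | h0
      · rw [h0, pow_zero] at hn
        have h1 : d = e := Subtype.ext hn
        rw [h1]
      · obtain ⟨k, hk, hk2⟩ := hρ d
        have hkn : k + 1 ≤ n := by
          by_contra hcon
          have h2 : n - 1 < k := by omega
          apply hk2 (n - 1) h2
          rw [Nat.sub_add_cancel h0, hn]
          exact e.2
        have h3 : (σ ^ (n - (k + 1))) ((ρ d : S) : D) = (e : D) := by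
          rw [hk, ← Equiv.Perm.mul_apply, ← pow_add, Nat.sub_add_cancel hkn]
          exact hn
        have h4 := ih (n - (k + 1)) (by omega) (ρ d) h3
        exact Equiv.Perm.sameCycle_apply_left.1 h4

end Pool.Agent.MP_528dc0_co

end

section

open Finset

namespace Pool.Agent.MP_528dc0_co

open Pool.Agent.MP_c359ba_co (CMap)

theorem to3_step {D : Type} (σ α : Equiv.Perm D) (hαα : ∀ d, α (α d) = d) (S : Set D) (d : D)
    (k : ℕ) (hk : ∀ j < k, (σ ^ (j + 1)) (α d) ∉ S) :
    Relation.EqvGen (regR σ α S) d ((σ ^ (k + 1)) (α d)) := by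
  induction k with
  | zero =>
    rw [zero_add, pow_one]
    exact Relation.EqvGen.rel _ _ (Or.inl rfl)
  | succ k ih =>
    have h1 := ih fun j hj => hk j (Nat.lt_succ_of_lt hj)
    have h2 := hk k (Nat.lt_succ_self k)
    have h3 : Relation.EqvGen (regR σ α S) ((σ ^ (k + 1)) (α d)) (α ((σ ^ (k + 1)) (α d))) :=
      Relation.EqvGen.rel _ _ (Or.inr ⟨h2, rfl⟩)
    have h4 : Relation.EqvGen (regR σ α S) (α ((σ ^ (k + 1)) (α d)))
        ((σ ^ (k + 1 + 1)) (α d)) := by
      refine Relation.EqvGen.rel _ _ (Or.inl ?_)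
      rw [hαα, pow_succ' σ (k + 1)]
      rfl
    exact (h1.trans _ _ _ h3).trans _ _ _ h4

/-- The number of regions is at most the number of cycles of `ρ ∘ α` on `S`.
Proof. For `d ∈ S` the dart `ρ (α d)` is in the region of `d`: `d ~ σ (α d)`; if `a = σ^j (α d) ∉ S` then
`a ~ α a ~ σ (α (α a)) = σ a`. So there is a map from the cycles of `ρ ∘ α` to the regions. It is
surjective: a region (class of `regR`) without darts in `S` would be closed under `α` and under `a ↦ σ (α a)`, hence
under `σ` (`σ a = σ (α (α a))`), so it would be all of `D` by connectivity, but `S` is nonempty. -/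
theorem regs_le {D : Type} [Fintype D] (σ α : Equiv.Perm D) (hαα : ∀ d, α (α d) = d)
    (hconn : ∀ P : D → Prop, (∀ d, P d → P (σ d) ∧ P (α d)) → (∃ d, P d) → ∀ d, P d)
    (S : Set D) (hS : ∀ d, α d ∈ S ↔ d ∈ S) (hne : S.Nonempty) (ρ : Equiv.Perm S)
    (hρ : ∀ d : S, ∃ k : ℕ, ((ρ d : S) : D) = (σ ^ (k + 1)) (d : D) ∧
      ∀ j < k, (σ ^ (j + 1)) (d : D) ∉ S) :
    regs σ α S ≤ cyc (ρ * α.subtypePerm hS) := by
  classical
  set p : Equiv.Perm S := ρ * α.subtypePerm hS with hp
  have hstep : ∀ d : S, Relation.EqvGen (regR σ α S) (d : D) ((p d : S) : D) := by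
    intro d
    obtain ⟨k, hk1, hk2⟩ := hρ (α.subtypePerm hS d)
    have h1 : ((p d : S) : D) = (σ ^ (k + 1)) (α (d : D)) := hk1
    rw [h1]
    exact to3_step σ α hαα S d k hk2
  have hzpow : ∀ (i : ℤ) (d : S), Relation.EqvGen (regR σ α S) (d : D) (((p ^ i) d : S) : D) := by
    intro i
    induction i using Int.induction_on with
    | zero => intro d; exact Relation.EqvGen.refl _
    | succ i ih =>
      intro d
      have h1 : (p ^ ((i : ℤ) + 1)) d = p ((p ^ (i : ℤ)) d) := by
        rw [add_comm, zpow_add, zpow_one]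
        rfl
      rw [h1]
      exact (ih d).trans _ _ _ (hstep _)
    | pred i ih =>
      intro d
      have h1 : p ((p ^ (-(i : ℤ) - 1)) d) = (p ^ (-(i : ℤ))) d := by
        have : p ^ (-(i : ℤ)) = p * p ^ (-(i : ℤ) - 1) := by
          rw [← zpow_one_add]
          congr 1
          ring
        rw [this]
        rfl
      have h2 := ih d
      rw [← h1] at h2
      exact h2.trans _ _ _ ((hstep _).symm _ _)
  let f : Quotient (Equiv.Perm.SameCycle.setoid p) →
      Quotient (Relation.EqvGen.setoid (regR σ α S)) :=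
    Quotient.lift (fun d : S => Quotient.mk (Relation.EqvGen.setoid (regR σ α S)) (d : D)) (by
      rintro a b ⟨i, hi⟩
      apply Quotient.sound
      have h1 := hzpow i a
      rw [hi] at h1
      exact h1)
  have hf : Function.Surjective f := by
    intro q
    induction q using Quotient.inductionOn with
    | h a =>
      by_contra hcon
      have hno : ∀ d : S, ¬ Relation.EqvGen (regR σ α S) a (d : D) := by
        intro d hd
        apply hcon
        refine ⟨Quotient.mk _ d, ?_⟩
        exact Quotient.sound (hd.symm _ _)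
      have hP : ∀ x, Relation.EqvGen (regR σ α S) a x →
          Relation.EqvGen (regR σ α S) a (σ x) ∧ Relation.EqvGen (regR σ α S) a (α x) := by
        intro x hx
        have hxS : x ∉ S := fun h => hno ⟨x, h⟩ hx
        have h1 : Relation.EqvGen (regR σ α S) a (α x) :=
          hx.trans _ _ _ (Relation.EqvGen.rel _ _ (Or.inr ⟨hxS, rfl⟩))
        refine ⟨h1.trans _ _ _ (Relation.EqvGen.rel _ _ (Or.inl ?_)), h1⟩
        rw [hαα]
      obtain ⟨s, hs⟩ := hne
      exact hno ⟨s, hs⟩ (hconn _ hP ⟨a, Relation.EqvGen.refl a⟩ s)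
  unfold regs cyc
  exact Nat.card_le_card_of_surjective f hf

end Pool.Agent.MP_528dc0_co

end

section

open Finset

namespace Pool.Agent.MP_528dc0_co

open Pool.Agent.MP_c359ba_co (CMap)

theorem to4_zpow {D D' : Type} (φ : D ≃ D') (p : Equiv.Perm D) (q : Equiv.Perm D')
    (h : ∀ d, φ (p d) = q (φ d)) (i : ℤ) (d : D) : φ ((p ^ i) d) = (q ^ i) (φ d) := by
  have hq : q = φ.permCongrHom p := by
    ext d'
    rw [Equiv.permCongrHom_coe, Equiv.permCongr_apply, h, Equiv.apply_symm_apply]
  rw [hq, ← map_zpow, Equiv.permCongrHom_coe, Equiv.permCongr_apply, Equiv.symm_apply_apply]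

theorem to4_same {D D' : Type} (φ : D ≃ D') (p : Equiv.Perm D) (q : Equiv.Perm D')
    (h : ∀ d, φ (p d) = q (φ d)) (a b : D) :
    Equiv.Perm.SameCycle p a b ↔ Equiv.Perm.SameCycle q (φ a) (φ b) := by
  constructor
  · rintro ⟨i, hi⟩
    exact ⟨i, by rw [← to4_zpow φ p q h, hi]⟩
  · rintro ⟨i, hi⟩
    exact ⟨i, φ.injective (by rw [to4_zpow φ p q h, hi])⟩

theorem to4_cyc {D D' : Type} (φ : D ≃ D') (p : Equiv.Perm D) (q : Equiv.Perm D')
    (h : ∀ d, φ (p d) = q (φ d)) : cyc p = cyc q :=
  Nat.card_congr (Quotient.congr φ (fun a b => to4_same φ p q h a b))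

theorem to4_dart {V : Type} [Fintype V] (G : SimpleGraph V) : Nat.card G.Dart = 2 * ne G := by
  classical
  have h := G.dart_card_eq_twice_card_edges
  rw [SimpleGraph.edgeFinset_card, ← Nat.card_eq_fintype_card, ← Nat.card_eq_fintype_card] at h
  unfold ne
  rw [SimpleGraph.edgeFinset_card, ← Nat.card_eq_fintype_card]
  exact h

theorem to4_vert {V : Type} [Fintype V] (G : SimpleGraph V) {D : Type} [Finite D]
    (σ : Equiv.Perm D) (δ : G.Dart → D)
    (hcyc : ∀ d e, Equiv.Perm.SameCycle σ (δ d) (δ e) ↔ d.fst = e.fst) :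
    Nat.card (Quotient (Equiv.Perm.SameCycle.setoid σ)) ≤
      Nat.card {v : Quotient (Equiv.Perm.SameCycle.setoid σ) //
        ∀ d : D, (Quotient.mk _ d : Quotient (Equiv.Perm.SameCycle.setoid σ)) = v →
          d ∉ Set.range δ} + nv G := by
  classical
  have hfin : Finite (Quotient (Equiv.Perm.SameCycle.setoid σ)) := Quotient.finite _
  have h1 := Nat.card_congr (Equiv.sumCompl
    (fun v : Quotient (Equiv.Perm.SameCycle.setoid σ) =>
      ∀ d : D, (Quotient.mk _ d : Quotient (Equiv.Perm.SameCycle.setoid σ)) = v →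
        d ∉ Set.range δ))
  rw [Nat.card_sum] at h1
  rw [← h1]
  refine Nat.add_le_add_left ?_ _
  have h2 : nv G = Nat.card {v : V // ∃ u, G.Adj v u} := by
    unfold nv
    rw [Nat.card_eq_fintype_card, Fintype.card_subtype]
  rw [h2]
  have hex : ∀ w : {v : Quotient (Equiv.Perm.SameCycle.setoid σ) //
      ¬ ∀ d : D, (Quotient.mk _ d : Quotient (Equiv.Perm.SameCycle.setoid σ)) = v →
        d ∉ Set.range δ}, ∃ e : G.Dart,
      (Quotient.mk _ (δ e) : Quotient (Equiv.Perm.SameCycle.setoid σ)) = w.1 := by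
    rintro ⟨w, hw⟩
    simp only [not_forall, not_not] at hw
    obtain ⟨d, hd, e, he⟩ := hw
    exact ⟨e, by rw [he]; exact hd⟩
  choose e he using hex
  refine Nat.card_le_card_of_injective
    (fun w => (⟨(e w).fst, (e w).snd, (e w).adj⟩ : {v : V // ∃ u, G.Adj v u})) ?_
  intro w w' hww
  have h3 : (e w).fst = (e w').fst := congrArg Subtype.val hww
  have h4 := (hcyc (e w) (e w')).mpr h3
  apply Subtype.ext
  rw [← he w, ← he w']
  exact Quotient.sound h4

/-- **Rotation system.** A toroidal graph with an edge has a rotation `ρ` (a permutation of its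
darts whose cycles are the darts at one vertex) such that the number of faces (cycles of
`ρ * sy G`) is at least (edges) - (vertices of positive degree).

Proof. `M`, `δ` from `Toroidal`; `S = range δ`; it is closed under `α`. `exists_ret` for `M.σ` and `S`,
transported to `G.Dart` along the bijection `G.Dart ≃ S`. `ρ d` and `d`: `ret_sameCycle` and the last
property of `δ`. Count: `|D| = 2 E`, `|S| = 2 m`. `region_bound`, `regs_le`:
`F + (V - n) ≤ f + (E - m)`, where `n` is the number of cycles of `σ` meeting `S` = number of vertices of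
positive degree (`d ↦ d.fst`), and `E ≤ V + F` from `GenusLE 1`. (`numE = card D / 2`, `D` has even
cardinality by the fixed-point-free involution.) -/
theorem rot_exists {V : Type} [Fintype V] (G : SimpleGraph V) (h : Toroidal G)
    (hne : ∃ u v, G.Adj u v) :
    ∃ ρ : Equiv.Perm G.Dart, (∀ d e, Equiv.Perm.SameCycle ρ d e ↔ d.fst = e.fst) ∧
      ne G ≤ cyc (ρ * sy G) + nv G := by
  classical
  obtain ⟨M, hg, δ, hδ, hsym, hcyc⟩ := h
  letI := M.fin
  have hS : ∀ d, M.α d ∈ Set.range δ ↔ d ∈ Set.range δ := by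
    intro d
    constructor
    · rintro ⟨e, he⟩
      refine ⟨e.symm, ?_⟩
      rw [hsym, he, M.α_α]
    · rintro ⟨e, he⟩
      refine ⟨e.symm, ?_⟩
      rw [hsym, he]
  have hSne : (Set.range δ).Nonempty := by
    obtain ⟨u, v, huv⟩ := hne
    exact ⟨δ ⟨(u, v), huv⟩, ⟨_, rfl⟩⟩
  obtain ⟨r, hr⟩ := exists_ret M.σ (Set.range δ)
  let φ : G.Dart ≃ Set.range δ := Equiv.ofInjective δ hδ
  have hφ : ∀ d, ((φ d : Set.range δ) : M.D) = δ d := fun d => rfl
  let ρ : Equiv.Perm G.Dart := φ.symm.permCongr r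
  have hρ : ∀ d, φ (ρ d) = r (φ d) := by
    intro d
    show φ (φ.symm.permCongr r d) = r (φ d)
    rw [Equiv.permCongr_apply, Equiv.apply_symm_apply, Equiv.symm_symm]
  have hρs : ∀ d, φ ((ρ * sy G) d) = (r * M.α.subtypePerm hS) (φ d) := by
    intro d
    rw [Equiv.Perm.mul_apply, Equiv.Perm.mul_apply, hρ]
    congr 1
    apply Subtype.ext
    show δ ((sy G) d) = M.α (δ d)
    exact hsym d
  refine ⟨ρ, ?_, ?_⟩
  · intro d e
    rw [to4_same φ ρ r hρ, ret_sameCycle M.σ (Set.range δ) r hr, hφ, hφ, hcyc]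
  · have h1 := region_bound M.σ M.α M.α_ne M.α_α M.conn (Set.range δ)
      (fun d hd => (hS d).mpr hd) hSne
    have h2 := regs_le M.σ M.α M.α_α M.conn (Set.range δ) hS hSne r hr
    have h3 := to4_cyc φ _ _ hρs
    have h4 := to4_vert G M.σ δ hcyc
    have h5 := to4_dart G
    have h6 : Nat.card G.Dart = Nat.card (Set.range δ) := Nat.card_congr φ
    have h7 := Nat.card_congr (Equiv.sumCompl (fun d : M.D => d ∈ Set.range δ))
    rw [Nat.card_sum] at h7
    have h8 : Nat.card {d : M.D // d ∈ Set.range δ} = Nat.card (Set.range δ) := rfl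
    have h9 : M.numE + 2 ≤ M.numV + M.numF + 2 * 1 := hg
    have h10 : M.numE = Nat.card M.D / 2 := rfl
    have h11 : M.numV = Nat.card (Quotient (Equiv.Perm.SameCycle.setoid M.σ)) := rfl
    have h12 : M.numF = cyc (M.σ * M.α) := rfl
    rw [← h3] at h2
    rw [h10, h11, h12] at h9
    omega

end Pool.Agent.MP_528dc0_co

end

section

open Finset

namespace Pool.Agent.MP_528dc0_co

open Pool.Agent.MP_c359ba_co (CMap)

/-- The triangle on the vertices of a face of length three. -/
def FacT {V : Type} [DecidableEq V] (G : SimpleGraph V) (ρ : Equiv.Perm G.Dart) (t : Finset V) : Prop :=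
  ∃ d : G.Dart, (ρ * sy G) ((ρ * sy G) ((ρ * sy G) d)) = d ∧
    t = {d.fst, ((ρ * sy G) d).fst, ((ρ * sy G) ((ρ * sy G) d)).fst}


theorem to5_fst {V : Type} (G : SimpleGraph V) (ρ : Equiv.Perm G.Dart)
    (hρ : ∀ d e, Equiv.Perm.SameCycle ρ d e ↔ d.fst = e.fst) (d : G.Dart) :
    ((ρ * sy G) d).fst = d.snd := by
  have h1 : Equiv.Perm.SameCycle ρ d.symm (ρ d.symm) :=
    Equiv.Perm.sameCycle_apply_right.2 (Equiv.Perm.SameCycle.refl ρ d.symm)
  have h2 := (hρ _ _).1 h1
  exact h2.symm

/-- A face of length three gives a triangle. With `φ = ρ * sy G`: `(φ d).fst = d.snd`, so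
`a = d.fst`, `b = (φ d).fst = d.snd`, `c = (φ (φ d)).fst = (φ d).snd`, `(φ (φ d)).snd = d.fst = a`. -/
theorem facT_clique {V : Type} [DecidableEq V] (G : SimpleGraph V) (ρ : Equiv.Perm G.Dart)
    (hρ : ∀ d e, Equiv.Perm.SameCycle ρ d e ↔ d.fst = e.fst) (t : Finset V) (ht : FacT G ρ t) :
    t.card = 3 ∧ G.IsClique (t : Set V) := by
  obtain ⟨d, hd, rfl⟩ := ht
  have d1 := to5_fst G ρ hρ d
  have d2 := to5_fst G ρ hρ ((ρ * sy G) d)
  have d3 := to5_fst G ρ hρ ((ρ * sy G) ((ρ * sy G) d))
  rw [hd] at d3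
  have a1 : G.Adj d.fst ((ρ * sy G) d).fst := by
    rw [d1]; exact d.adj
  have a2 : G.Adj ((ρ * sy G) d).fst ((ρ * sy G) ((ρ * sy G) d)).fst := by
    rw [d2]; exact ((ρ * sy G) d).adj
  have a3 : G.Adj ((ρ * sy G) ((ρ * sy G) d)).fst d.fst := by
    rw [d3]; exact ((ρ * sy G) ((ρ * sy G) d)).adj
  have h := (SimpleGraph.is3Clique_triple_iff (G := G)).2 ⟨a1, a3.symm, a2⟩
  exact ⟨h.card_eq, h.isClique⟩


open Classical in
theorem to5_no2 {V : Type} [Fintype V] (G : SimpleGraph V)
    (ρ : Equiv.Perm G.Dart) (hρ : ∀ d e, Equiv.Perm.SameCycle ρ d e ↔ d.fst = e.fst)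
    (h4 : ∀ v, deg G v = 0 ∨ 4 ≤ deg G v) (x : G.Dart) (hx : ρ (ρ x) = x) : False := by
  have key : ∀ n : ℕ, (ρ ^ n) x = x ∨ (ρ ^ n) x = ρ x := by
    intro n
    induction n with
    | zero => left; rfl
    | succ n ih =>
      rw [pow_succ', Equiv.Perm.mul_apply]
      rcases ih with h | h
      · right; rw [h]
      · left; rw [h, hx]
  have hsub : (univ.filter fun u : V => G.Adj x.fst u) ⊆ {x.snd, (ρ x).snd} := by
    intro u hu
    rw [Finset.mem_filter] at hu
    have h1 : Equiv.Perm.SameCycle ρ x ⟨(x.fst, u), hu.2⟩ := (hρ _ _).2 rfl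
    obtain ⟨n, hn⟩ := h1.exists_nat_pow_eq
    rw [Finset.mem_insert, Finset.mem_singleton]
    rcases key n with h | h
    · left
      rw [h] at hn
      rw [hn]
    · right
      rw [h] at hn
      rw [hn]
  have h2 : deg G x.fst ≤ 2 := by
    unfold deg
    exact (Finset.card_le_card hsub).trans Finset.card_le_two
  have h3 : deg G x.fst ≠ 0 := by
    unfold deg
    intro h0
    rw [Finset.card_eq_zero, Finset.filter_eq_empty_iff] at h0
    exact h0 (Finset.mem_univ x.snd) x.adj
  rcases h4 x.fst with h | h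
  · exact h3 h
  · omega

/-- no fixed points -/
theorem to5_ne1 {V : Type} (G : SimpleGraph V) (ρ : Equiv.Perm G.Dart)
    (hρ : ∀ d e, Equiv.Perm.SameCycle ρ d e ↔ d.fst = e.fst) (d : G.Dart) :
    (ρ * sy G) d ≠ d := by
  intro h
  have h1 := to5_fst G ρ hρ d
  rw [h] at h1
  exact d.fst_ne_snd h1

theorem to5_ext {V : Type} {G : SimpleGraph V} {d e : G.Dart} (h1 : d.fst = e.fst)
    (h2 : d.snd = e.snd) : d = e := by
  apply SimpleGraph.Dart.ext
  exact Prod.ext h1 h2

/-- no cycles of length two -/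
theorem to5_ne2 {V : Type} [Fintype V] (G : SimpleGraph V) (ρ : Equiv.Perm G.Dart)
    (hρ : ∀ d e, Equiv.Perm.SameCycle ρ d e ↔ d.fst = e.fst)
    (h4 : ∀ v, deg G v = 0 ∨ 4 ≤ deg G v) (d : G.Dart) :
    (ρ * sy G) ((ρ * sy G) d) ≠ d := by
  intro h
  have h1 := to5_fst G ρ hρ d
  have h2 := to5_fst G ρ hρ ((ρ * sy G) d)
  rw [h] at h2
  have h3 : (ρ * sy G) d = d.symm := to5_ext h1 h2.symm
  have h4' : ρ d.symm = d.symm := h3
  exact to5_no2 G ρ hρ h4 d.symm (by rw [h4', h4'])

/-- the triangle of a dart -/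
def to5T {V : Type} [DecidableEq V] (G : SimpleGraph V) (ρ : Equiv.Perm G.Dart) (d : G.Dart) :
    Finset V := {d.fst, ((ρ * sy G) d).fst, ((ρ * sy G) ((ρ * sy G) d)).fst}

theorem to5_T_rot {V : Type} [DecidableEq V] (G : SimpleGraph V) (ρ : Equiv.Perm G.Dart)
    (d : G.Dart) (hd : (ρ * sy G) ((ρ * sy G) ((ρ * sy G) d)) = d) :
    to5T G ρ ((ρ * sy G) d) = to5T G ρ d := by
  unfold to5T
  rw [hd]
  ext v
  simp only [Finset.mem_insert, Finset.mem_singleton]
  tauto

/-- two triangular faces with the same first vertex and the same vertex set -/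
theorem to5_key {V : Type} [Fintype V] [DecidableEq V] (G : SimpleGraph V)
    (ρ : Equiv.Perm G.Dart) (hρ : ∀ d e, Equiv.Perm.SameCycle ρ d e ↔ d.fst = e.fst)
    (h4 : ∀ v, deg G v = 0 ∨ 4 ≤ deg G v) (d e : G.Dart)
    (hd : (ρ * sy G) ((ρ * sy G) ((ρ * sy G) d)) = d)
    (he : (ρ * sy G) ((ρ * sy G) ((ρ * sy G) e)) = e)
    (hf : d.fst = e.fst) (hT : to5T G ρ d = to5T G ρ e) : d = e := by
  have d1 := to5_fst G ρ hρ d
  have d2 := to5_fst G ρ hρ ((ρ * sy G) d)
  have d3 := to5_fst G ρ hρ ((ρ * sy G) ((ρ * sy G) d))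
  have e1 := to5_fst G ρ hρ e
  have e2 := to5_fst G ρ hρ ((ρ * sy G) e)
  have e3 := to5_fst G ρ hρ ((ρ * sy G) ((ρ * sy G) e))
  rw [hd] at d3
  rw [he] at e3
  have hne1 : e.snd ≠ e.fst := e.fst_ne_snd.symm
  have hmem : ∀ v, v ∈ to5T G ρ d ↔ v ∈ to5T G ρ e := fun v => by rw [hT]
  unfold to5T at hmem
  simp only [Finset.mem_insert, Finset.mem_singleton] at hmem
  -- the second vertex of `d`
  have hb := (hmem ((ρ * sy G) d).fst).1 (Or.inr (Or.inl rfl))
  have hdne : ((ρ * sy G) d).fst ≠ d.fst := by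
    rw [d1]; exact d.fst_ne_snd.symm
  rcases hb with hb | hb | hb
  · exact absurd (hb.trans hf.symm) hdne
  · apply to5_ext hf
    rw [← d1, ← e1, hb]
  · -- the orientations are opposite
    exfalso
    -- `φ d` starts at the third vertex of `e`
    have hc := (hmem ((ρ * sy G) ((ρ * sy G) d)).fst).1 (Or.inr (Or.inr rfl))
    have hcne1 : ((ρ * sy G) ((ρ * sy G) d)).fst ≠ d.fst := by
      rw [d3]
      exact ((ρ * sy G) ((ρ * sy G) d)).fst_ne_snd
    have hcne2 : ((ρ * sy G) ((ρ * sy G) d)).fst ≠ ((ρ * sy G) d).fst := by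
      rw [d2]
      exact ((ρ * sy G) d).fst_ne_snd.symm
    rcases hc with hc | hc | hc
    · exact hcne1 (hc.trans hf.symm)
    · -- `φ d = (φ e).symm`, `d.symm = φ (φ e)`
      have g1 : (ρ * sy G) d = ((ρ * sy G) e).symm := by
        apply to5_ext
        · show ((ρ * sy G) d).fst = ((ρ * sy G) e).snd
          rw [hb, e2]
        · show ((ρ * sy G) d).snd = ((ρ * sy G) e).fst
          rw [← d2, hc]
      have g2 : (ρ * sy G) ((ρ * sy G) e) = d.symm := by
        apply to5_ext
        · show ((ρ * sy G) ((ρ * sy G) e)).fst = d.snd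
          rw [← hb, d1]
        · show ((ρ * sy G) ((ρ * sy G) e)).snd = d.fst
          rw [← e3, hf]
      have g3 : ρ d.symm = ((ρ * sy G) e).symm := g1
      have g4 : ρ (((ρ * sy G) e).symm) = d.symm := g2
      exact to5_no2 G ρ hρ h4 d.symm (by rw [g3, g4])
    · exact hcne2 (hc.trans hb.symm)

theorem to5_same {V : Type} [Fintype V] [DecidableEq V] (G : SimpleGraph V)
    (ρ : Equiv.Perm G.Dart) (hρ : ∀ d e, Equiv.Perm.SameCycle ρ d e ↔ d.fst = e.fst)
    (h4 : ∀ v, deg G v = 0 ∨ 4 ≤ deg G v) (d e : G.Dart)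
    (hd : (ρ * sy G) ((ρ * sy G) ((ρ * sy G) d)) = d)
    (he : (ρ * sy G) ((ρ * sy G) ((ρ * sy G) e)) = e)
    (hT : to5T G ρ d = to5T G ρ e) : Equiv.Perm.SameCycle (ρ * sy G) d e := by
  have hmem : d.fst ∈ to5T G ρ e := by
    rw [← hT]
    exact Finset.mem_insert_self _ _
  unfold to5T at hmem
  simp only [Finset.mem_insert, Finset.mem_singleton] at hmem
  have s1 : Equiv.Perm.SameCycle (ρ * sy G) ((ρ * sy G) e) e :=
    Equiv.Perm.sameCycle_apply_left.2 (Equiv.Perm.SameCycle.refl _ e)
  have s2 : Equiv.Perm.SameCycle (ρ * sy G) ((ρ * sy G) ((ρ * sy G) e)) e :=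
    Equiv.Perm.sameCycle_apply_left.2 s1
  rcases hmem with h | h | h
  · rw [to5_key G ρ hρ h4 d e hd he h hT]
  · have he' : (ρ * sy G) ((ρ * sy G) ((ρ * sy G) ((ρ * sy G) e))) = (ρ * sy G) e := by rw [he]
    rw [to5_key G ρ hρ h4 d _ hd he' h (hT.trans (to5_T_rot G ρ e he).symm)]
    exact s1
  · have he' : (ρ * sy G) ((ρ * sy G) ((ρ * sy G) ((ρ * sy G) e))) = (ρ * sy G) e := by rw [he]
    have he'' : (ρ * sy G) ((ρ * sy G) ((ρ * sy G) ((ρ * sy G) ((ρ * sy G) e)))) =
        (ρ * sy G) ((ρ * sy G) e) := by rw [he]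
    rw [to5_key G ρ hρ h4 d _ hd he'' h (hT.trans
      ((to5_T_rot G ρ _ he').trans (to5_T_rot G ρ e he)).symm)]
    exact s2

open Classical in
/-- **Number of facial triangles.** All positive degrees are at least four: at least `2m - 4n`
facial triangles.

Proof. `φ = ρ * sy G`, `f = cyc φ`; `2 m = card G.Dart = ∑` of the lengths of the `f` cycles. No cycle
has length 1 (`φ d = d` gives `d.fst = d.snd`) or 2 (`φ (φ d) = d`: `(φ d).fst = d.snd`,
`(φ d).snd = d.fst`, so `φ d = d.symm`, i.e. `ρ d.symm = d.symm`, and the vertex `d.snd` has degree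
one). So `2 m ≥ 3 f₃ + 4 (f - f₃)`, `f₃ ≥ 4 f - 2 m ≥ 4 (m - n) - 2 m`. Different cycles of length 3 give
different triangles: suppose two of them have the same vertex set `{a, b, c}`. If they share a dart they are
equal. Otherwise (there are only six darts on `{a, b, c}`) one is `a → b → c → a` and the other
`b → a → c → b`; then `φ (a→b) = b→c` says `ρ (b→a) = b→c` and `φ (c→b) = b→a` says `ρ (b→c) = b→a`, so
the cycle of `ρ` at `b` has length two and `deg b = 2 < 4`. -/
theorem facT_count {V : Type} [Fintype V] [DecidableEq V] (G : SimpleGraph V)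
    (ρ : Equiv.Perm G.Dart) (hρ : ∀ d e, Equiv.Perm.SameCycle ρ d e ↔ d.fst = e.fst)
    (hf : ne G ≤ cyc (ρ * sy G) + nv G) (h4 : ∀ v, deg G v = 0 ∨ 4 ≤ deg G v) :
    2 * ne G ≤ 4 * nv G + (univ.filter (fun t : Finset V => FacT G ρ t)).card := by
  have hcard : Fintype.card G.Dart = 2 * ne G := by
    unfold ne
    rw [G.dart_card_eq_twice_card_edges]
  let Q := Quotient (Equiv.Perm.SameCycle.setoid (ρ * sy G))
  letI : Fintype Q := Fintype.ofFinite Q
  have hcyc : cyc (ρ * sy G) = Fintype.card Q := by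
    unfold cyc
    exact Nat.card_eq_fintype_card
  let F3 : Finset Q := univ.filter fun q : Q =>
    (ρ * sy G) ((ρ * sy G) ((ρ * sy G) q.out)) = q.out
  -- fibres
  have hfib : ∀ q : Q, 4 ≤ (univ.filter fun d : G.Dart => (Quotient.mk _ d : Q) = q).card +
      (if q ∈ F3 then 1 else 0) := by
    intro q
    have hq : (Quotient.mk _ q.out : Q) = q := Quotient.out_eq q
    have hstep : ∀ d : G.Dart, (Quotient.mk _ d : Q) = q →
        (Quotient.mk _ ((ρ * sy G) d) : Q) = q := by
      intro d hd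
      rw [← hd]
      apply Quotient.sound
      exact Equiv.Perm.sameCycle_apply_left.2 (Equiv.Perm.SameCycle.refl _ d)
    have q1 := hstep _ hq
    have q2 := hstep _ q1
    have q3 := hstep _ q2
    have n1 := to5_ne1 G ρ hρ q.out
    have n1' := to5_ne1 G ρ hρ ((ρ * sy G) q.out)
    have n1'' := to5_ne1 G ρ hρ ((ρ * sy G) ((ρ * sy G) q.out))
    have n2 := to5_ne2 G ρ hρ h4 q.out
    have n2' := to5_ne2 G ρ hρ h4 ((ρ * sy G) q.out)
    by_cases h3 : (ρ * sy G) ((ρ * sy G) ((ρ * sy G) q.out)) = q.out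
    · have hmem : q ∈ F3 := Finset.mem_filter.2 ⟨Finset.mem_univ q, h3⟩
      rw [if_pos hmem]
      have hs : ({q.out, (ρ * sy G) q.out, (ρ * sy G) ((ρ * sy G) q.out)} : Finset G.Dart) ⊆
          univ.filter fun d : G.Dart => (Quotient.mk _ d : Q) = q := by
        intro d hd
        rw [Finset.mem_filter]
        refine ⟨Finset.mem_univ d, ?_⟩
        simp only [Finset.mem_insert, Finset.mem_singleton] at hd
        rcases hd with rfl | rfl | rfl
        · exact hq
        · exact q1
        · exact q2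
      have hc : ({q.out, (ρ * sy G) q.out, (ρ * sy G) ((ρ * sy G) q.out)} :
          Finset G.Dart).card = 3 :=
        Finset.card_eq_three.2 ⟨_, _, _, n1.symm, n2.symm, n1'.symm, rfl⟩
      have := Finset.card_le_card hs
      rw [hc] at this
      omega
    · have hmem : q ∉ F3 := fun h => h3 (Finset.mem_filter.1 h).2
      rw [if_neg hmem]
      have hs : (insert ((ρ * sy G) ((ρ * sy G) ((ρ * sy G) q.out)))
          {q.out, (ρ * sy G) q.out, (ρ * sy G) ((ρ * sy G) q.out)} : Finset G.Dart) ⊆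
          univ.filter fun d : G.Dart => (Quotient.mk _ d : Q) = q := by
        intro d hd
        rw [Finset.mem_filter]
        refine ⟨Finset.mem_univ d, ?_⟩
        simp only [Finset.mem_insert, Finset.mem_singleton] at hd
        rcases hd with rfl | rfl | rfl | rfl
        · exact q3
        · exact hq
        · exact q1
        · exact q2
      have hc : ({q.out, (ρ * sy G) q.out, (ρ * sy G) ((ρ * sy G) q.out)} :
          Finset G.Dart).card = 3 :=
        Finset.card_eq_three.2 ⟨_, _, _, n1.symm, n2.symm, n1'.symm, rfl⟩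
      have hnot : (ρ * sy G) ((ρ * sy G) ((ρ * sy G) q.out)) ∉
          ({q.out, (ρ * sy G) q.out, (ρ * sy G) ((ρ * sy G) q.out)} : Finset G.Dart) := by
        simp only [Finset.mem_insert, Finset.mem_singleton]
        push Not
        exact ⟨h3, n2', n1''⟩
      have := Finset.card_le_card hs
      rw [Finset.card_insert_of_notMem hnot, hc] at this
      omega
  have hsum : Fintype.card G.Dart =
      ∑ q : Q, (univ.filter fun d : G.Dart => (Quotient.mk _ d : Q) = q).card := by
    rw [← Finset.card_univ]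
    exact Finset.card_eq_sum_card_fiberwise fun d _ => Finset.mem_coe.2 (Finset.mem_univ _)
  have hge : 4 * Fintype.card Q ≤ Fintype.card G.Dart + F3.card := by
    have h1 : ∑ q : Q, 4 ≤ ∑ q : Q, ((univ.filter fun d : G.Dart =>
        (Quotient.mk _ d : Q) = q).card + (if q ∈ F3 then 1 else 0)) :=
      Finset.sum_le_sum fun q _ => hfib q
    rw [Finset.sum_add_distrib, ← hsum, Finset.sum_const, Finset.card_univ, smul_eq_mul] at h1
    have h2 : ∑ q : Q, (if q ∈ F3 then 1 else 0) = F3.card := by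
      rw [Finset.sum_ite_mem, Finset.univ_inter, Finset.sum_const, smul_eq_mul, mul_one]
    rw [h2] at h1
    omega
  have hinj : F3.card ≤ (univ.filter (fun t : Finset V => FacT G ρ t)).card := by
    refine Finset.card_le_card_of_injOn (fun q => to5T G ρ q.out) ?_ ?_
    · intro q hq
      have h1 := (Finset.mem_filter.1 (Finset.mem_coe.1 hq)).2
      exact Finset.mem_coe.2 (Finset.mem_filter.2 ⟨Finset.mem_univ _, q.out, h1, rfl⟩)
    · intro q hq q' hq' heq
      have h1 := (Finset.mem_filter.1 (Finset.mem_coe.1 hq)).2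
      have h2 := (Finset.mem_filter.1 (Finset.mem_coe.1 hq')).2
      have h3 := to5_same G ρ hρ h4 q.out q'.out h1 h2 heq
      rw [← Quotient.out_eq q, ← Quotient.out_eq q']
      exact Quotient.sound h3
  rw [hcyc] at hf
  omega

end Pool.Agent.MP_528dc0_co

end

section

open Finset

namespace Pool.Agent.MP_528dc0_co

open Pool.Agent.MP_c359ba_co (CMap)

theorem to6_fst {V : Type} (G : SimpleGraph V) (ρ : Equiv.Perm G.Dart)
    (hρ : ∀ d e, Equiv.Perm.SameCycle ρ d e ↔ d.fst = e.fst) (e : G.Dart) :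
    (ρ e).fst = e.fst :=
  ((hρ e (ρ e)).1 ⟨1, by rw [zpow_one]⟩).symm

theorem to6_aux {V : Type} [DecidableEq V] (G : SimpleGraph V) (ρ : Equiv.Perm G.Dart)
    (x y z p q r : V) (hxy : G.Adj x y) (hxz : G.Adj x z) (hyz : y ≠ z)
    (hset : ({x, y, z} : Finset V) = {p, q, r}) (hx : x = p) (hpq : G.Adj p q)
    (hpr : G.Adj p r) (h : ρ ⟨(p, q), hpq⟩ = ⟨(p, r), hpr⟩) :
    ρ ⟨(x, y), hxy⟩ = ⟨(x, z), hxz⟩ ∨ ρ ⟨(x, z), hxz⟩ = ⟨(x, y), hxy⟩ := by
  subst hx
  have hy : y ∈ ({x, q, r} : Finset V) := by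
    rw [← hset]; simp
  have hz : z ∈ ({x, q, r} : Finset V) := by
    rw [← hset]; simp
  simp only [Finset.mem_insert, Finset.mem_singleton] at hy hz
  rcases hy with hy | hy | hy
  · exact absurd hy hxy.ne'
  · rcases hz with hz | hz | hz
    · exact absurd hz hxz.ne'
    · exact absurd (hy.trans hz.symm) hyz
    · subst hy; subst hz
      exact Or.inl h
  · rcases hz with hz | hz | hz
    · exact absurd hz hxz.ne'
    · subst hy; subst hz
      exact Or.inr h
    · exact absurd (hy.trans hz.symm) hyz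

theorem to6_cyc {D : Type} (ρ : Equiv.Perm D) (p q r : D) (h1 : ρ p = q) (h2 : ρ q = r)
    (h3 : ρ r = p) (e : D) (h : Equiv.Perm.SameCycle ρ p e) : e = p ∨ e = q ∨ e = r := by
  obtain ⟨i, hi⟩ := h
  have hk : ∀ i : ℤ, (ρ ^ i) p = p ∨ (ρ ^ i) p = q ∨ (ρ ^ i) p = r := by
    intro i
    induction i using Int.induction_on with
    | zero => left; simp
    | succ i ih =>
      have h4 : (ρ ^ ((i : ℤ) + 1)) p = ρ ((ρ ^ (i : ℤ)) p) := by
        rw [add_comm, zpow_one_add, Equiv.Perm.mul_apply]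
      rw [h4]
      rcases ih with ih | ih | ih
      · rw [ih, h1]; exact Or.inr (Or.inl rfl)
      · rw [ih, h2]; exact Or.inr (Or.inr rfl)
      · rw [ih, h3]; exact Or.inl rfl
    | pred i ih =>
      have h4 : ρ ((ρ ^ (-(i : ℤ) - 1)) p) = (ρ ^ (-(i : ℤ))) p := by
        rw [← Equiv.Perm.mul_apply, ← zpow_one_add]
        congr 2
        ring
      rcases ih with ih | ih | ih
      · right; right
        apply ρ.injective
        rw [h4, ih, h3]
      · left
        apply ρ.injective
        rw [h4, ih, h1]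
      · right; left
        apply ρ.injective
        rw [h4, ih, h2]
  rw [← hi]
  exact hk i

/-- If `{x, y, z}` is facial, `x→y` and `x→z` are consecutive around `x`. (For `d = a→b`, `φ d = b→c`,
`φ φ d = c→a`: `ρ (b→a) = b→c`, `ρ (c→b) = c→a`, `ρ (a→c) = a→b`.) -/
theorem facT_consec {V : Type} [DecidableEq V] (G : SimpleGraph V) (ρ : Equiv.Perm G.Dart)
    (hρ : ∀ d e, Equiv.Perm.SameCycle ρ d e ↔ d.fst = e.fst) (x y z : V) (hxy : G.Adj x y)
    (hxz : G.Adj x z) (hyz : y ≠ z) (ht : FacT G ρ {x, y, z}) :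
    ρ ⟨(x, y), hxy⟩ = ⟨(x, z), hxz⟩ ∨ ρ ⟨(x, z), hxz⟩ = ⟨(x, y), hxy⟩ := by
  obtain ⟨⟨⟨a, b⟩, hab⟩, h3, hset⟩ := ht
  have hab : G.Adj a b := hab
  have key : ∀ (u v : V) (h : G.Adj u v), ∃ (w : V) (hw : G.Adj u w),
      ρ ⟨(u, v), h⟩ = ⟨(u, w), hw⟩ := by
    intro u v h
    have h1 := to6_fst G ρ hρ ⟨(u, v), h⟩
    have h1 : (ρ ⟨(u, v), h⟩).fst = u := h1
    have h2 := (ρ ⟨(u, v), h⟩).adj
    rw [h1] at h2
    refine ⟨(ρ ⟨(u, v), h⟩).snd, h2, ?_⟩
    apply SimpleGraph.Dart.ext
    exact Prod.ext h1 rfl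
  obtain ⟨c, hbc, e1⟩ := key b a hab.symm
  obtain ⟨a', hca, e2⟩ := key c b hbc.symm
  obtain ⟨b', hab', e3⟩ := key a' c hca.symm
  have f1 : (ρ * sy G) ⟨(a, b), hab⟩ = ⟨(b, c), hbc⟩ := e1
  have f2 : (ρ * sy G) ⟨(b, c), hbc⟩ = ⟨(c, a'), hca⟩ := e2
  have f3 : (ρ * sy G) ⟨(c, a'), hca⟩ = ⟨(a', b'), hab'⟩ := e3
  rw [f1, f2, f3] at h3
  have h4 := congrArg SimpleGraph.Dart.toProd h3
  have h5 : a' = a := congrArg Prod.fst h4
  have h6 : b' = b := congrArg Prod.snd h4
  subst h5
  subst h6
  rw [f1, f2] at hset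
  have hset : ({x, y, z} : Finset V) = {a', b', c} := hset
  have hx : x ∈ ({a', b', c} : Finset V) := by rw [← hset]; simp
  simp only [Finset.mem_insert, Finset.mem_singleton] at hx
  rcases hx with hx | hx | hx
  · refine to6_aux G ρ x y z a' c b' hxy hxz hyz ?_ hx hca.symm hab' e3
    rw [hset]; ext t; simp only [Finset.mem_insert, Finset.mem_singleton]; tauto
  · refine to6_aux G ρ x y z b' a' c hxy hxz hyz ?_ hx hab.symm hbc e1
    rw [hset]; ext t; simp only [Finset.mem_insert, Finset.mem_singleton]; tauto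
  · refine to6_aux G ρ x y z c b' a' hxy hxz hyz ?_ hx hbc.symm hca e2
    rw [hset]; ext t; simp only [Finset.mem_insert, Finset.mem_singleton]; tauto

/-- Three facial triangles `xyz`, `xyw`, `xzw` of a `K₄` are impossible if `deg x ≥ 4`.
Proof. By `facT_consec` each two of `y, z, w` are consecutive around `x`. `y` has one successor and
one predecessor: `{z, w} = {succ y, pred y}`, say `ρ (x→z) = x→y`, `ρ (x→y) = x→w`. `z, w` consecutive:
`ρ (x→z) = x→w` gives `w = y`; so `ρ (x→w) = x→z`: the cycle of `ρ` at `x` has length three and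
`deg x = 3`. -/
theorem facT_three {V : Type} [Fintype V] [DecidableEq V] (G : SimpleGraph V)
    (ρ : Equiv.Perm G.Dart) (hρ : ∀ d e, Equiv.Perm.SameCycle ρ d e ↔ d.fst = e.fst)
    (x y z w : V) (hxy : G.Adj x y) (hxz : G.Adj x z) (hxw : G.Adj x w) (hyz : G.Adj y z)
    (hyw : G.Adj y w) (hzw : G.Adj z w) (h4 : 4 ≤ deg G x) :
    ¬ (FacT G ρ {x, y, z} ∧ FacT G ρ {x, y, w} ∧ FacT G ρ {x, z, w}) := by
  rintro ⟨h1, h2, h3⟩
  have A := facT_consec G ρ hρ x y z hxy hxz hyz.ne h1
  have B := facT_consec G ρ hρ x y w hxy hxw hyw.ne h2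
  have C := facT_consec G ρ hρ x z w hxz hxw hzw.ne h3
  have hinj : ∀ (u v : V) (hu : G.Adj x u) (hv : G.Adj x v),
      (⟨(x, u), hu⟩ : G.Dart) = ⟨(x, v), hv⟩ → u = v := fun u v hu hv h =>
    congrArg Prod.snd (congrArg SimpleGraph.Dart.toProd h)
  have fin : ∀ (p q r : V) (hp : G.Adj x p) (hq : G.Adj x q) (hr : G.Adj x r),
      ρ ⟨(x, p), hp⟩ = ⟨(x, q), hq⟩ → ρ ⟨(x, q), hq⟩ = ⟨(x, r), hr⟩ →
      ρ ⟨(x, r), hr⟩ = ⟨(x, p), hp⟩ → False := by
    intro p q r hp hq hr g1 g2 g3
    classical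
    have h5 : deg G x ≤ 3 := by
      unfold deg
      refine le_trans (Finset.card_le_card (t := {p, q, r}) ?_) Finset.card_le_three
      intro u hu
      rw [Finset.mem_filter] at hu
      have hu : G.Adj x u := hu.2
      have h6 : Equiv.Perm.SameCycle ρ ⟨(x, p), hp⟩ ⟨(x, u), hu⟩ := (hρ _ _).2 rfl
      rcases to6_cyc ρ _ _ _ g1 g2 g3 _ h6 with h7 | h7 | h7
      · rw [hinj _ _ _ _ h7]; simp
      · rw [hinj _ _ _ _ h7]; simp
      · rw [hinj _ _ _ _ h7]; simp
    omega
  rcases A with A | A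
  · rcases B with B | B
    · exact hzw.ne (hinj _ _ _ _ (A.symm.trans B))
    · rcases C with C | C
      · exact fin y z w hxy hxz hxw A C B
      · exact hyz.ne (hinj _ _ _ _ (B.symm.trans C))
  · rcases B with B | B
    · rcases C with C | C
      · exact hyw.ne (hinj _ _ _ _ (A.symm.trans C))
      · exact fin z y w hxz hxy hxw A B C
    · exact hzw.ne (hinj _ _ _ _ (ρ.injective (A.trans B.symm)))

end Pool.Agent.MP_528dc0_co

end

section

open Finset

namespace Pool.Agent.MP_528dc0_co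

open Pool.Agent.MP_c359ba_co (CMap)

/-- at least two of the four triangles of a `K₄` are not facial -/
theorem to7_two (p q r s : Prop) (h1 : ¬ (p ∧ q ∧ r)) (h2 : ¬ (p ∧ q ∧ s)) (h3 : ¬ (p ∧ r ∧ s))
    (h4 : ¬ (q ∧ r ∧ s)) :
    (¬ p ∧ ¬ q) ∨ (¬ p ∧ ¬ r) ∨ (¬ p ∧ ¬ s) ∨ (¬ q ∧ ¬ r) ∨ (¬ q ∧ ¬ s) ∨ (¬ r ∧ ¬ s) := by
  tauto

/-- **Toroidal graphs with positive degrees at least four**: `2m - 4n ≤ t`, and `2m - 4n + 2 ≤ t` if
there is a `K₄`.
Proof. No edge: trivial (`ne G = 0`; there is no `K₄`). Otherwise `rot_exists`, `facT_count`; facial triangles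
are 3-cliques (`facT_clique`). If `{x, y, z, w}` is a clique, at most two of its four triangles are
facial: among any three of the four triangles, all contain a common vertex, so `facT_three`. So at
least two 3-cliques are not facial. -/
theorem torus_count {V : Type} [Fintype V] (G : SimpleGraph V) (h : Toroidal G)
    (h4 : ∀ v, deg G v = 0 ∨ 4 ≤ deg G v) :
    2 * ne G ≤ 4 * nv G + nt G ∧ (¬ G.CliqueFree 4 → 2 * ne G + 2 ≤ 4 * nv G + nt G) := by
  classical
  have hK : ¬ G.CliqueFree 4 → ∃ x y z w, G.Adj x y ∧ G.Adj x z ∧ G.Adj x w ∧ G.Adj y z ∧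
      G.Adj y w ∧ G.Adj z w := by
    intro hc
    have f := SimpleGraph.topEmbeddingOfNotCliqueFree hc
    refine ⟨f 0, f 1, f 2, f 3, ?_, ?_, ?_, ?_, ?_, ?_⟩ <;>
      exact f.map_rel_iff.2 (by decide)
  by_cases hne : ∃ u v, G.Adj u v
  · obtain ⟨ρ, hρ, hf⟩ := rot_exists G h hne
    have hcount := facT_count G ρ hρ hf h4
    have hsub : univ.filter (fun t : Finset V => FacT G ρ t) ⊆ G.cliqueFinset 3 := by
      intro t ht
      have ht' := (mem_filter.1 ht).2
      obtain ⟨hc, hq⟩ := facT_clique G ρ hρ t ht'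
      exact SimpleGraph.mem_cliqueFinset_iff.2 ⟨hq, hc⟩
    have hnt : nt G = (G.cliqueFinset 3).card := by
      unfold nt
      exact congrArg Finset.card (to4_cf _ 3 _ _ _ _ _ _)
    refine ⟨?_, ?_⟩
    · have := card_le_card hsub
      rw [hnt]
      omega
    · intro hc
      obtain ⟨x, y, z, w, hxy, hxz, hxw, hyz, hyw, hzw⟩ := hK hc
      have hdeg : ∀ a b, G.Adj a b → 4 ≤ deg G a := by
        intro a b hab
        rcases h4 a with h0 | h0
        · exfalso
          unfold deg at h0
          rw [card_eq_zero] at h0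
          have : b ∈ univ.filter (fun u : V => G.Adj a u) := mem_filter.2 ⟨mem_univ _, hab⟩
          have h0' : univ.filter (fun u : V => G.Adj a u) = ∅ := by
            rw [← h0]
          rw [h0'] at this
          exact absurd this (notMem_empty _)
        · exact h0
      have key : ∀ A B : Finset V, A ≠ B → G.IsNClique 3 A → G.IsNClique 3 B →
          ¬ FacT G ρ A → ¬ FacT G ρ B → 2 * ne G + 2 ≤ 4 * nv G + nt G := by
        intro A B hAB hA hB hA' hB'
        have hs2 : insert A (insert B (univ.filter (fun t : Finset V => FacT G ρ t))) ⊆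
            G.cliqueFinset 3 := by
          intro t ht
          rcases mem_insert.1 ht with rfl | ht
          · exact SimpleGraph.mem_cliqueFinset_iff.2 hA
          · rcases mem_insert.1 ht with rfl | ht
            · exact SimpleGraph.mem_cliqueFinset_iff.2 hB
            · exact hsub ht
        have hc2 := card_le_card hs2
        rw [card_insert_of_notMem, card_insert_of_notMem] at hc2
        · rw [hnt]
          omega
        · intro hh; exact hB' (mem_filter.1 hh).2
        · intro hh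
          rcases mem_insert.1 hh with hh | hh
          · exact hAB hh
          · exact hA' (mem_filter.1 hh).2
      have c3 : ∀ a b c, G.Adj a b → G.Adj a c → G.Adj b c → G.IsNClique 3 {a, b, c} := by
        intro a b c h1 h2 h3
        exact SimpleGraph.is3Clique_triple_iff.2 ⟨h1, h2, h3⟩
      have t1 := facT_three G ρ hρ x y z w hxy hxz hxw hyz hyw hzw (hdeg x y hxy)
      have t2 := facT_three G ρ hρ y x z w hxy.symm hyz hyw hxz hxw hzw (hdeg y z hyz)
      have t3 := facT_three G ρ hρ z x y w hxz.symm hyz.symm hzw hxy hxw hyw (hdeg z w hzw)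
      have t4 := facT_three G ρ hρ w x y z hxw.symm hyw.symm hzw.symm hxy hxz hyz
        (hdeg w x hxw.symm)
      have e1 : ({y, x, z} : Finset V) = {x, y, z} := insert_comm _ _ _
      have e2 : ({y, x, w} : Finset V) = {x, y, w} := insert_comm _ _ _
      have e3 : ({z, x, y} : Finset V) = {x, y, z} := by rw [insert_comm, pair_comm]
      have e4 : ({z, x, w} : Finset V) = {x, z, w} := insert_comm _ _ _
      have e5 : ({z, y, w} : Finset V) = {y, z, w} := insert_comm _ _ _
      have e6 : ({w, x, y} : Finset V) = {x, y, w} := by rw [insert_comm, pair_comm]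
      have e7 : ({w, x, z} : Finset V) = {x, z, w} := by rw [insert_comm, pair_comm]
      have e8 : ({w, y, z} : Finset V) = {y, z, w} := by rw [insert_comm, pair_comm]
      rw [e1, e2] at t2
      rw [e3, e4, e5] at t3
      rw [e6, e7, e8] at t4
      have n1 : ({x, y, z} : Finset V) ≠ {x, y, w} := by
        intro hh
        have : z ∈ ({x, y, w} : Finset V) := by rw [← hh]; simp
        simp [hxz.ne', hyz.ne', hzw.ne] at this
      have n2 : ({x, y, z} : Finset V) ≠ {x, z, w} := by
        intro hh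
        have : y ∈ ({x, z, w} : Finset V) := by rw [← hh]; simp
        simp [hxy.ne', hyz.ne, hyw.ne] at this
      have n3 : ({x, y, z} : Finset V) ≠ {y, z, w} := by
        intro hh
        have : x ∈ ({y, z, w} : Finset V) := by rw [← hh]; simp
        simp [hxy.ne, hxz.ne, hxw.ne] at this
      have n4 : ({x, y, w} : Finset V) ≠ {x, z, w} := by
        intro hh
        have : y ∈ ({x, z, w} : Finset V) := by rw [← hh]; simp
        simp [hxy.ne', hyz.ne, hyw.ne] at this
      have n5 : ({x, y, w} : Finset V) ≠ {y, z, w} := by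
        intro hh
        have : x ∈ ({y, z, w} : Finset V) := by rw [← hh]; simp
        simp [hxy.ne, hxz.ne, hxw.ne] at this
      have n6 : ({x, z, w} : Finset V) ≠ {y, z, w} := by
        intro hh
        have : x ∈ ({y, z, w} : Finset V) := by rw [← hh]; simp
        simp [hxy.ne, hxz.ne, hxw.ne] at this
      have q1 := c3 x y z hxy hxz hyz
      have q2 := c3 x y w hxy hxw hyw
      have q3 := c3 x z w hxz hxw hzw
      have q4 := c3 y z w hyz hyw hzw
      rcases to7_two _ _ _ _ t1 t2 t3 t4 with ⟨a, b⟩ | ⟨a, b⟩ | ⟨a, b⟩ | ⟨a, b⟩ | ⟨a, b⟩ | ⟨a, b⟩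
      · exact key _ _ n1 q1 q2 a b
      · exact key _ _ n2 q1 q3 a b
      · exact key _ _ n3 q1 q4 a b
      · exact key _ _ n4 q2 q3 a b
      · exact key _ _ n5 q2 q4 a b
      · exact key _ _ n6 q3 q4 a b
  · have h0 : ne G = 0 := by
      unfold ne
      rw [card_eq_zero]
      ext e
      simp only [SimpleGraph.mem_edgeFinset, notMem_empty, iff_false]
      intro he
      induction e with
      | _ a b => exact hne ⟨a, b, he⟩
    refine ⟨by omega, fun hc => ?_⟩
    obtain ⟨x, y, -, -, hxy, -⟩ := hK hc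
    exact absurd ⟨x, y, hxy⟩ hne

end Pool.Agent.MP_528dc0_co

end

section

open Finset

namespace Pool.Agent.MP_528dc0_co

open Pool.Agent.MP_c359ba_co (CMap)

/-- Monotone under injective homomorphisms. (`δ' d = δ (Dart.map)`.) -/
theorem toroidal_mono {V W : Type} {G : SimpleGraph V} {G' : SimpleGraph W} (h : Toroidal G)
    (f : W → V) (hf : Function.Injective f) (ha : ∀ a b, G'.Adj a b → G.Adj (f a) (f b)) :
    Toroidal G' := by
  obtain ⟨M, hM, δ, hinj, hsym, hsc⟩ := h
  refine ⟨M, hM, fun d => δ ⟨(f d.fst, f d.snd), ha _ _ d.adj⟩, ?_, ?_, ?_⟩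
  · intro d e hde
    have h1 := hinj hde
    have h2 : (f d.fst, f d.snd) = (f e.fst, f e.snd) := congrArg SimpleGraph.Dart.toProd h1
    have h3 : d.fst = e.fst := hf (congrArg Prod.fst h2)
    have h4 : d.snd = e.snd := hf (congrArg Prod.snd h2)
    exact (SimpleGraph.Dart.ext_iff _ _).2 (Prod.ext h3 h4)
  · intro d
    exact hsym ⟨(f d.fst, f d.snd), ha _ _ d.adj⟩
  · intro d e
    rw [hsc]
    exact ⟨fun h => hf h, fun h => congrArg f h⟩

/-- The steps of the Cayley map. -/
private def to8_s : Fin 4 → Fin 5 := ![1, 2, 4, 3]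

/-- The index of a step. -/
private def to8_t : Fin 5 → Fin 4 := ![0, 0, 1, 3, 2]

/-- The rotation. -/
private def to8_σ : Equiv.Perm (Fin 5 × Fin 4) where
  toFun p := (p.1, p.2 + 1)
  invFun p := (p.1, p.2 + 3)
  left_inv := by decide
  right_inv := by decide

/-- The reversal. -/
private def to8_α : Equiv.Perm (Fin 5 × Fin 4) where
  toFun p := (p.1 + to8_s p.2, p.2 + 2)
  invFun p := (p.1 + to8_s p.2, p.2 + 2)
  left_inv := by decide
  right_inv := by decide

/-- The faces. -/
private def to8_g (p : Fin 5 × Fin 4) : Fin 5 := p.1 + (![0, 2, 1, 4] : Fin 4 → Fin 5) p.2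

/-- An invariant function is constant on cycles. -/
private theorem to8_inv {D X : Type} (p : Equiv.Perm D) (g : D → X) (hg : ∀ d, g (p d) = g d)
    {a b : D} (h : Equiv.Perm.SameCycle p a b) : g a = g b := by
  obtain ⟨n, rfl⟩ := h
  have key : ∀ m : ℤ, g ((p ^ m) a) = g a := by
    intro m
    induction m with
    | zero => rfl
    | succ i ih =>
      rw [add_comm, zpow_add, zpow_one, Equiv.Perm.mul_apply, hg]
      exact ih
    | pred i ih =>
      have h1 : p ((p ^ (-(i : ℤ) - 1)) a) = (p ^ (-(i : ℤ))) a := by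
        rw [← Equiv.Perm.mul_apply, ← zpow_one_add]
        congr 2
        ring
      rw [← ih, ← h1, hg]
  exact (key n).symm

/-- An invariant surjection onto `Fin 5` gives at least five cycles. -/
private theorem to8_card {D : Type} [Finite D] (p : Equiv.Perm D) (g : D → Fin 5)
    (hg : ∀ d, g (p d) = g d) (hs : Function.Surjective g) :
    5 ≤ Nat.card (Quotient (Equiv.Perm.SameCycle.setoid p)) := by
  have h1 : Function.Surjective
      (Quotient.lift g (fun _ _ h => to8_inv p g hg h) :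
        Quotient (Equiv.Perm.SameCycle.setoid p) → Fin 5) := by
    intro y
    obtain ⟨d, rfl⟩ := hs y
    exact ⟨Quotient.mk _ d, rfl⟩
  have h2 := Nat.card_le_card_of_surjective _ h1
  simpa using h2

private theorem to8_four : ∀ k k' : Fin 4,
    k' = k ∨ k' = k + 1 ∨ k' = k + 1 + 1 ∨ k' = k + 1 + 1 + 1 := by
  decide

private theorem to8_five : ∀ i j : Fin 5,
    j = i ∨ j = i + 1 ∨ j = i + 1 + 1 ∨ j = i + 1 + 1 + 1 ∨ j = i + 1 + 1 + 1 + 1 := by
  decide

/-- The Cayley map of `Z₅`. -/
private def to8_M : CMap where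
  D := Fin 5 × Fin 4
  fin := inferInstance
  σ := to8_σ
  α := to8_α
  α_ne := by decide
  α_α := by decide
  conn := by
    intro P hP hex
    obtain ⟨⟨i, k⟩, hik⟩ := hex
    have hs : ∀ (i : Fin 5) (k : Fin 4), P (i, k) → ∀ k', P (i, k') := by
      intro i k h
      have h1 : P (i, k + 1) := (hP _ h).1
      have h2 : P (i, k + 1 + 1) := (hP _ h1).1
      have h3 : P (i, k + 1 + 1 + 1) := (hP _ h2).1
      intro k'
      have h4 : k' = k ∨ k' = k + 1 ∨ k' = k + 1 + 1 ∨ k' = k + 1 + 1 + 1 := by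
        exact to8_four k k'
      rcases h4 with rfl | rfl | rfl | rfl <;> assumption
    have hn : ∀ (i : Fin 5), (∀ k, P (i, k)) → ∀ k, P (i + 1, k) := by
      intro i h
      have h1 : P (i + 1, 2) := (hP _ (h 0)).2
      exact hs _ _ h1
    have h0 := hs i k hik
    have h1 := hn _ h0
    have h2 := hn _ h1
    have h3 := hn _ h2
    have h4 := hn _ h3
    rintro ⟨j, l⟩
    have h5 : j = i ∨ j = i + 1 ∨ j = i + 1 + 1 ∨ j = i + 1 + 1 + 1 ∨ j = i + 1 + 1 + 1 + 1 := by
      exact to8_five i j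
    rcases h5 with rfl | rfl | rfl | rfl | rfl
    · exact h0 l
    · exact h1 l
    · exact h2 l
    · exact h3 l
    · exact h4 l

/-- `K₅` embeds in the torus as the Cayley map of `Z₅` with steps `1, 2, -1, -2`: darts
`(i, k) : Fin 5 × Fin 4` with steps `s = (1, 2, 4, 3)`, `α (i, k) = (i + s k, k + 2)`,
`σ (i, k) = (i, k + 1)`. Vertices: `(i, k) ↦ i` is invariant under `σ`, so at least 5 cycles. Faces:
`σ (α (i, k)) = (i + s k, k + 3)`; `g (i,0) = i`, `g (i,1) = i + 2`, `g (i,2) = i + 1`, `g (i,3) = i - 1` is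
invariant and surjective, so at least 5 cycles. `E = 10`. Connected: step `1` reaches every vertex. The
darts of `⊤ : SimpleGraph (Fin 5)`: `(a, b)` goes to `(a, k)` with `s k = b - a`. -/
theorem toroidal_K5 : Toroidal (⊤ : SimpleGraph (Fin 5)) := by
  refine ⟨to8_M, ?_, fun d => ((d.fst, to8_t (d.snd - d.fst)) : Fin 5 × Fin 4), ?_, ?_, ?_⟩
  · unfold CMap.GenusLE CMap.numE CMap.numV CMap.numF
    have hV : 5 ≤ Nat.card (Quotient (Equiv.Perm.SameCycle.setoid to8_M.σ)) :=
      to8_card (D := Fin 5 × Fin 4) to8_σ Prod.fst (by decide) (by decide)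
    have hF : 5 ≤ Nat.card (Quotient (Equiv.Perm.SameCycle.setoid (to8_M.σ * to8_M.α))) :=
      to8_card (D := Fin 5 × Fin 4) (to8_σ * to8_α) to8_g (by decide) (by decide)
    have hE : Nat.card to8_M.D = 20 := by
      show Nat.card (Fin 5 × Fin 4) = 20
      simp
    rw [hE]
    omega
  · have key : ∀ a b b' : Fin 5, a ≠ b → a ≠ b' → to8_t (b - a) = to8_t (b' - a) → b = b' := by
      decide
    rintro ⟨⟨a, b⟩, hab⟩ ⟨⟨a', b'⟩, hab'⟩ h
    have h1 : a = a' := congrArg Prod.fst h
    subst h1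
    have h2 : to8_t (b - a) = to8_t (b' - a) := congrArg Prod.snd h
    have h3 := key a b b' hab hab' h2
    subst h3
    rfl
  · have key : ∀ a b : Fin 5, a ≠ b →
        ((b, to8_t (a - b)) : Fin 5 × Fin 4) = to8_α (a, to8_t (b - a)) := by
      decide
    rintro ⟨⟨a, b⟩, hab⟩
    exact key a b hab
  · rintro ⟨⟨a, b⟩, hab⟩ ⟨⟨a', b'⟩, hab'⟩
    constructor
    · intro h
      exact to8_inv (D := Fin 5 × Fin 4) to8_σ Prod.fst (by decide) h
    · intro h
      have h' : a = a' := h
      subst h'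
      have key : ∀ k l : Fin 4, ∃ n : Fin 4,
          ∀ a : Fin 5, (to8_σ ^ (n : ℕ)) (a, k) = (a, l) := by
        decide
      obtain ⟨n, hn⟩ := key (to8_t (b - a)) (to8_t (b' - a))
      refine ⟨((n : ℕ) : ℤ), ?_⟩
      rw [zpow_natCast]
      exact hn a

end Pool.Agent.MP_528dc0_co

end

section

open Finset

namespace Pool.Agent.MP_528dc0_co

open Pool.Agent.MP_c359ba_co (CMap)

theorem to9_nt (n : ℕ) : nt (⊤ : SimpleGraph (Fin n)) = n.choose 3 := by
  classical
  unfold nt
  have h : (⊤ : SimpleGraph (Fin n)).cliqueFinset 3 = Finset.powersetCard 3 Finset.univ := by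
    ext s
    rw [SimpleGraph.mem_cliqueFinset_iff, SimpleGraph.isNClique_iff, Finset.mem_powersetCard]
    constructor
    · rintro ⟨_, h2⟩
      exact ⟨Finset.subset_univ s, h2⟩
    · rintro ⟨_, h2⟩
      refine ⟨?_, h2⟩
      intro a _ b _ hab
      exact hab
  have h2 : ((⊤ : SimpleGraph (Fin n)).cliqueFinset 3).card = n.choose 3 := by
    rw [h, Finset.card_powersetCard, Finset.card_univ, Fintype.card_fin]
  rw [← h2]
  exact congrArg Finset.card (to4_cf _ 3 _ _ _ _ _ _)

theorem nt_K5 : nt (⊤ : SimpleGraph (Fin 5)) = 10 := by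
  rw [to9_nt]; rfl

theorem nt_K4 : nt (⊤ : SimpleGraph (Fin 4)) = 4 := by
  rw [to9_nt]; rfl

theorem toroidal_K4 : Toroidal (⊤ : SimpleGraph (Fin 4)) :=
  toroidal_mono toroidal_K5 Fin.castSucc (Fin.castSucc_injective 4)
    fun _ _ h h' => h (Fin.castSucc_injective 4 h')

theorem chi_K (n : ℕ) : (⊤ : SimpleGraph (Fin n)).chromaticNumber = n := by
  rw [SimpleGraph.chromaticNumber_top, Fintype.card_fin]

end Pool.Agent.MP_528dc0_co

end

section

open Finset

namespace Pool.Agent.MP_528dc0_co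

open Pool.Agent.MP_c359ba_co (CMap)

/-- Proof. Among the subgraphs `G' ≤ G` (same vertex set, finitely many) which are not 4-colourable
take a minimal one. If `1 ≤ deg G' v ≤ 3`: deleting all edges at `v` gives a smaller graph, which is
4-colourable; recolour `v` with a colour which is not used on its at most three neighbours. -/
theorem exists_min {V : Type} [Fintype V] (G : SimpleGraph V) (h : ¬ G.Colorable 4) :
    ∃ G' ≤ G, ¬ G'.Colorable 4 ∧ ∀ v, deg G' v = 0 ∨ 4 ≤ deg G' v := by
  classical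
  obtain ⟨G', ⟨hG', hc⟩, hmin⟩ := (measure (fun H : SimpleGraph V => ne H)).wf.has_min
    {H | H ≤ G ∧ ¬ H.Colorable 4} ⟨G, le_rfl, h⟩
  refine ⟨G', hG', hc, fun v => ?_⟩
  by_contra hcon
  push Not at hcon
  obtain ⟨h0, h3⟩ := hcon
  let H : SimpleGraph V :=
    { Adj := fun a b => G'.Adj a b ∧ a ≠ v ∧ b ≠ v
      symm := ⟨fun a b hab => ⟨hab.1.symm, hab.2.2, hab.2.1⟩⟩
      loopless := ⟨fun a ha => G'.loopless.irrefl a ha.1⟩ }
  have hHle : H ≤ G' := fun a b hab => hab.1
  have hlt : H < G' := by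
    refine lt_of_le_of_ne hHle fun heq => ?_
    have hne : (univ.filter (fun u : V => G'.Adj v u)).Nonempty := by
      rw [← card_pos]
      have : deg G' v = (univ.filter (fun u : V => G'.Adj v u)).card := by
        unfold deg
        congr
      omega
    obtain ⟨u, hu⟩ := hne
    rw [mem_filter] at hu
    have h1 : H.Adj v u := by rw [heq]; exact hu.2
    exact h1.2.1 rfl
  have hne : ne H < ne G' := by
    have h5 := card_lt_card (SimpleGraph.edgeFinset_ssubset_edgeFinset.mpr hlt)
    have e1 : ∀ (K : SimpleGraph V) (i1 i2 : Fintype K.edgeSet),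
        (@SimpleGraph.edgeFinset V K i1).card = (@SimpleGraph.edgeFinset V K i2).card :=
      fun K i1 i2 => by rw [Subsingleton.elim i1 i2]
    unfold ne
    exact lt_of_eq_of_lt (e1 H _ _) (lt_of_lt_of_eq h5 (e1 G' _ _))
  have hcol : H.Colorable 4 := by
    by_contra hn
    exact hmin H ⟨hHle.trans hG', hn⟩ hne
  obtain ⟨C⟩ := hcol
  have hfree : ∃ c : Fin 4, ∀ u, G'.Adj v u → C u ≠ c := by
    by_contra hn
    push Not at hn
    have h1 : (univ : Finset (Fin 4)) ⊆ (univ.filter (fun u : V => G'.Adj v u)).image C := by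
      intro c _
      obtain ⟨u, hu, hcu⟩ := hn c
      rw [mem_image]
      exact ⟨u, by rw [mem_filter]; exact ⟨mem_univ _, hu⟩, hcu⟩
    have h2 := (card_le_card h1).trans card_image_le
    have h4 : deg G' v = (univ.filter (fun u : V => G'.Adj v u)).card := by
      unfold deg
      congr
    rw [card_univ, Fintype.card_fin] at h2
    omega
  obtain ⟨c, hcf⟩ := hfree
  apply hc
  refine ⟨SimpleGraph.Coloring.mk (Function.update C v c) ?_⟩
  intro a b hab
  by_cases ha : a = v
  · subst ha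
    have hb : b ≠ a := fun h => G'.loopless.irrefl a (h ▸ hab)
    rw [Function.update_self, Function.update_of_ne hb]
    exact (hcf b hab).symm
  · by_cases hb : b = v
    · subst hb
      rw [Function.update_self, Function.update_of_ne ha]
      exact hcf a hab.symm
    · rw [Function.update_of_ne ha, Function.update_of_ne hb]
      exact C.valid (show H.Adj a b from ⟨hab, ha, hb⟩)

/-- Triangles are monotone, a `K₅` has ten triangles. -/
theorem nt_mono {V : Type} [Fintype V] {G G' : SimpleGraph V} (h : G' ≤ G) : nt G' ≤ nt G := by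
  classical
  unfold nt
  exact card_le_card (SimpleGraph.cliqueFinset_mono _ h)

theorem nt_K5_sub {V : Type} [Fintype V] (G : SimpleGraph V) (h : ¬ G.CliqueFree 5) :
    10 ≤ nt G := by
  classical
  unfold SimpleGraph.CliqueFree at h
  push Not at h
  obtain ⟨s, hs⟩ := h
  have h1 : s.powersetCard 3 ⊆ G.cliqueFinset 3 := by
    intro t ht
    rw [mem_powersetCard] at ht
    rw [SimpleGraph.mem_cliqueFinset_iff, SimpleGraph.isNClique_iff]
    exact ⟨hs.isClique.subset (by exact_mod_cast ht.1), ht.2⟩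
  have h2 := card_le_card h1
  rw [card_powersetCard, hs.card_eq] at h2
  have h3 : Nat.choose 5 3 = 10 := by decide
  rw [h3] at h2
  unfold nt
  convert h2

/-- `∑ deg = 2 m`; vertices of degree `≥ 5` have total surplus `2m - 4n`, which is even. -/
theorem surplus_sum {V : Type} [Fintype V] (G : SimpleGraph V)
    (h4 : ∀ v, deg G v = 0 ∨ 4 ≤ deg G v) :
    2 * ne G = 4 * nv G + ∑ v ∈ univ.filter (fun v => 5 ≤ deg G v), (deg G v - 4) ∧
    (univ.filter (fun v => 5 ≤ deg G v)).card + 4 * nv G ≤ 2 * ne G := by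
  classical
  have hdeg : ∀ v, deg G v = G.degree v := by
    intro v
    unfold deg
    rw [← SimpleGraph.card_neighborFinset_eq_degree]
    congr 1
    ext u
    simp
  have hsum : ∑ v, deg G v = 2 * ne G := by
    have h1 := G.sum_degrees_eq_twice_card_edges
    simp only [hdeg]
    rw [h1]
    unfold ne
    congr
  have hiff : ∀ v, (∃ u, G.Adj v u) ↔ 1 ≤ deg G v := by
    intro v
    unfold deg
    rw [Nat.one_le_iff_ne_zero, ← Nat.pos_iff_ne_zero, card_pos]
    constructor
    · rintro ⟨u, hu⟩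
      exact ⟨u, by rw [mem_filter]; exact ⟨mem_univ _, hu⟩⟩
    · rintro ⟨u, hu⟩
      rw [mem_filter] at hu
      exact ⟨u, hu.2⟩
  have hpt : ∀ v, deg G v = 4 * (if ∃ u, G.Adj v u then 1 else 0) +
      (if 5 ≤ deg G v then deg G v - 4 else 0) := by
    intro v
    have h1 := h4 v
    by_cases h2 : ∃ u, G.Adj v u
    · have h3 := (hiff v).mp h2
      rw [if_pos h2]
      split_ifs <;> omega
    · have h3 : ¬ 1 ≤ deg G v := fun h => h2 ((hiff v).mpr h)
      rw [if_neg h2]
      split_ifs <;> omega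
  have hnv : ∑ v : V, (if ∃ u, G.Adj v u then 1 else 0) = nv G := by
    unfold nv
    rw [card_filter]
  have h1 : 2 * ne G = 4 * nv G + ∑ v ∈ univ.filter (fun v => 5 ≤ deg G v), (deg G v - 4) := by
    rw [← hsum, Finset.sum_congr rfl fun v _ => hpt v, sum_add_distrib, ← mul_sum, hnv,
      sum_filter]
  refine ⟨?_, ?_⟩
  · convert h1
  · have h2 : (univ.filter (fun v => 5 ≤ deg G v)).card ≤
        ∑ v ∈ univ.filter (fun v => 5 ≤ deg G v), (deg G v - 4) := by
      rw [card_eq_sum_ones]
      refine sum_le_sum fun v hv => ?_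
      rw [mem_filter] at hv
      omega
    have h3 : (univ.filter (fun v => 5 ≤ deg G v)).card + 4 * nv G ≤ 2 * ne G := by omega
    convert h3

end Pool.Agent.MP_528dc0_co

end
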