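import Mathlib
import Pool.Agent.MP_528dc0_co.Disch
import Pool.Agent.MP_528dc0_co.PDefs
import Pool.Agent.MP_528dc0_co.TDefs
import Pool.Agent.MP_528dc0_co.Torus

/-!
# Main theorem, given the certificates
-/

section

open Finset

namespace Pool.Agent.MP_528dc0_co

open Pool.Agent.MP_c359ba_co (CMap)

/-- What the certificates provide: every `K₄`-free graph on `Fin 8` with at most nine triangles is, after a
permutation of the labels, between `P.H` and `Kg` for a good certificate with `kf = true`; and every graph on `Fin 8`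
with at most nine triangles and all edges inside `{0, …, 5}` is, after a permutation of the labels which fixes `6` and `7`, between `P.H` and `Kg` for one
with `kf = false`, or it is the special graph `H0` (two disjoint edges), which is dealt with by the
certificates of `SpecCert`. -/
def AllCert : Prop :=
  (∀ H : SimpleGraph (Fin 8), H.CliqueFree 4 → Par.tH H ≤ 9 → ∃ π : Equiv.Perm (Fin 8), ∃ P : Par,
    ∃ Kg : SimpleGraph (Fin 8), P.kf = true ∧ P.x3 = false ∧ P.Good Kg 40 9 ∧
    (∀ a b, P.H.Adj (π a) (π b) → H.Adj a b) ∧ ∀ a b, H.Adj a b → Kg.Adj (π a) (π b)) ∧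
  (∀ H : SimpleGraph (Fin 8), (∀ a b, H.Adj a b → a.val < 6 ∧ b.val < 6) → Par.tH H ≤ 9 →
    ∃ π : Equiv.Perm (Fin 8), (∀ a, a.val < 6 → (π a).val < 6) ∧
    ((∃ P : Par, ∃ Kg : SimpleGraph (Fin 8), P.kf = false ∧ P.x3 = false ∧ P.Good Kg 30 9 ∧
      (∀ a b, P.H.Adj (π a) (π b) → H.Adj a b) ∧ ∀ a b, H.Adj a b → Kg.Adj (π a) (π b)) ∨
    (∀ a b, H.Adj a b ↔ H0.Adj (π a) (π b)))) ∧ SpecCert

theorem as6_lab {V : Type} (S : Finset V) (n : ℕ) (hn : S.card ≤ n) (h8 : n ≤ 8) :
    ∃ lab : V → Fin 8, Set.InjOn lab (S : Set V) ∧ ∀ v ∈ S, (lab v).val < n := by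
  classical
  have h1 : Fintype.card S ≤ Fintype.card (Fin n) := by
    rw [Fintype.card_coe, Fintype.card_fin]
    exact hn
  obtain ⟨e⟩ := Function.Embedding.nonempty_of_card_le h1
  refine ⟨fun v => if h : v ∈ S then Fin.castLE h8 (e ⟨v, h⟩) else 0, ?_, ?_⟩
  · intro u hu v hv huv
    have hu' : u ∈ S := hu
    have hv' : v ∈ S := hv
    dsimp only at huv
    rw [dif_pos hu', dif_pos hv'] at huv
    have h2 := e.injective (Fin.castLE_injective h8 huv)
    exact congrArg Subtype.val h2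
  · intro v hv
    dsimp only
    rw [dif_pos hv]
    exact (e ⟨v, hv⟩).2

theorem as6_H {V : Type} (G : SimpleGraph V) (S : Finset V) (lab : V → Fin 8)
    (hinj : Set.InjOn lab (S : Set V)) : ∃ H : SimpleGraph (Fin 8),
      (∀ a b, H.Adj a b ↔ ∃ u ∈ S, ∃ v ∈ S, lab u = a ∧ lab v = b ∧ G.Adj u v) ∧
      ∀ n, 2 ≤ n → G.CliqueFree n → H.CliqueFree n := by
  let H : SimpleGraph (Fin 8) :=
    { Adj := fun a b => ∃ u ∈ S, ∃ v ∈ S, lab u = a ∧ lab v = b ∧ G.Adj u v
      symm := ⟨fun a b ⟨u, hu, v, hv, h1, h2, h3⟩ => ⟨v, hv, u, hu, h2, h1, h3.symm⟩⟩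
      loopless := ⟨fun a ⟨u, hu, v, hv, h1, h2, h3⟩ => by
        have h4 : u = v := hinj hu hv (h1.trans h2.symm)
        rw [h4] at h3
        exact G.loopless.irrefl v h3⟩ }
  refine ⟨H, fun a b => Iff.rfl, fun n hn hG => ?_⟩
  by_contra hH
  rw [SimpleGraph.not_cliqueFree_iff_top_isContained] at hH
  obtain ⟨φ⟩ := hH
  have hadj : ∀ i j : Fin n, i ≠ j → H.Adj (φ.toHom i) (φ.toHom j) := by
    intro i j hij
    exact φ.toHom.map_rel hij
  have hex : ∀ i : Fin n, ∃ u ∈ S, lab u = φ.toHom i := by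
    intro i
    have : ∃ j : Fin n, i ≠ j := by
      by_cases h0 : i.val = 0
      · refine ⟨⟨1, by omega⟩, fun h => ?_⟩
        have h1 := congrArg Fin.val h
        dsimp only at h1
        omega
      · refine ⟨⟨0, by omega⟩, fun h => ?_⟩
        have h1 := congrArg Fin.val h
        dsimp only at h1
        omega
    obtain ⟨j, hj⟩ := this
    obtain ⟨u, hu, v, hv, h1, h2, h3⟩ := hadj i j hj
    exact ⟨u, hu, h1⟩
  choose f hfS hf using hex
  have hGadj : ∀ i j : Fin n, i ≠ j → G.Adj (f i) (f j) := by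
    intro i j hij
    obtain ⟨u, hu, v, hv, h1, h2, h3⟩ := hadj i j hij
    have e1 : u = f i := hinj hu (hfS i) (h1.trans (hf i).symm)
    have e2 : v = f j := hinj hv (hfS j) (h2.trans (hf j).symm)
    rw [e1, e2] at h3
    exact h3
  have hfinj : Function.Injective f := by
    intro i j hij
    by_contra hne
    have h1 := hGadj i j hne
    rw [hij] at h1
    exact G.loopless.irrefl _ h1
  have hcl : ¬ G.CliqueFree n := by
    rw [SimpleGraph.not_cliqueFree_iff_top_isContained]
    exact ⟨⟨⟨f, fun {i j} hij => hGadj i j hij⟩, hfinj⟩⟩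
  exact hcl hG

/-- **Main theorem.** A toroidal graph with at most nine triangles is 4-colourable.

Proof. Otherwise `exists_min`: `G' ≤ G` not 4-colourable, toroidal (`toroidal_mono`), `nt G' ≤ 9`,
positive degrees at least four, no `K₅` (`nt_K5_sub`). `S` = vertices of degree at least five,
`∑_{S} (deg - 4) = 2m - 4n =: s`, `|S| ≤ s` (`surplus_sum`), `s` even. `torus_count`: `s ≤ 9` so `s ≤ 8`; if
there is a `K₄`, `s ≤ 7` so `s ≤ 6`. Case `K₄`-free: `|S| ≤ 8`; choose `lab₀ : V → Fin 8` injective on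
`S`; `H` = image graph of `G'[S]` (`H.Adj a b` iff `∃ u v ∈ S, lab₀ u = a, lab₀ v = b, G'.Adj u v`), it is
`K₄`-free; `AllCert` gives `π, P, Kg`; `lab = π ∘ lab₀`; `good_excludes` (`∑_{S} deg = 4 |S| + s ≤ 40`).
Case with `K₄`: `|S| ≤ 6`, `lab₀` with values in `{0, …, 5}`, `∑_{S} deg ≤ 24 + 6`. -/
theorem main_of_cert (hcert : AllCert) {V : Type} [Fintype V] (G : SimpleGraph V)
    (h : Toroidal G) (ht : nt G ≤ 9) : G.Colorable 4 := by
  classical
  by_contra hnc
  obtain ⟨G', hle, hnc', h4⟩ := exists_min G hnc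
  have hT : Toroidal G' := toroidal_mono h id Function.injective_id fun a b hab => hle hab
  have ht' : nt G' ≤ 9 := (nt_mono hle).trans ht
  have hK5 : G'.CliqueFree 5 := by
    by_contra hcon
    have h1 := nt_K5_sub G' hcon
    omega
  obtain ⟨hs1, hs2⟩ := surplus_sum G' h4
  obtain ⟨ht1, ht2⟩ := torus_count G' hT h4
  set S : Finset V := univ.filter (fun v => 5 ≤ deg G' v) with hS
  have hdsum : ∑ v ∈ S, deg G' v = ∑ v ∈ S, (deg G' v - 4) + 4 * S.card := by
    have h1 : ∀ v ∈ S, deg G' v = (deg G' v - 4) + 4 := by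
      intro v hv
      have h2 := (Finset.mem_filter.1 hv).2
      omega
    rw [Finset.sum_congr rfl h1, Finset.sum_add_distrib, Finset.sum_const, smul_eq_mul]
    have h3 : ∑ v ∈ S, (deg G' v - 4 + 4 - 4) = ∑ v ∈ S, (deg G' v - 4) :=
      Finset.sum_congr rfl fun v _ => by omega
    omega
  have hdeg : ∀ v, v ∉ S → deg G' v = 0 ∨ deg G' v = 4 := by
    intro v hv
    have h1 : ¬ 5 ≤ deg G' v := fun h2 => hv (Finset.mem_filter.2 ⟨Finset.mem_univ v, h2⟩)
    rcases h4 v with h3 | h3
    · exact Or.inl h3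
    · right
      omega
  by_cases hK4 : G'.CliqueFree 4
  · obtain ⟨lab, hinj, -⟩ := as6_lab S 8 (by omega) le_rfl
    obtain ⟨H, hH, hHc⟩ := as6_H G' S lab hinj
    obtain ⟨π, P, Kg, hkf, hx3, hg, hP1, hP2⟩ := hcert.1 H (hHc 4 (by norm_num) hK4)
      ((tH_le_nt G' S lab hinj H hH).trans ht')
    refine good_excludes G' P Kg 40 hg S (fun v => π (lab v)) ?_ ?_ hdeg ?_ ?_ ?_
      (fun h => by rw [hx3] at h; cases h) ?_ ht' hnc'
    · intro u hu v hv huv
      exact hinj hu hv (π.injective huv)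
    · intro v _
      unfold Par.Lab
      rw [hkf, if_pos rfl]
      exact Finset.mem_univ _
    · intro a b hab
      have h1 : P.H.Adj (π (π.symm a)) (π (π.symm b)) := by
        rw [Equiv.apply_symm_apply, Equiv.apply_symm_apply]
        exact hab
      obtain ⟨u, hu, v, hv, h2, h3, h5⟩ := (hH _ _).1 (hP1 _ _ h1)
      refine ⟨u, hu, v, hv, ?_, ?_, h5⟩
      · show π (lab u) = a
        rw [h2, Equiv.apply_symm_apply]
      · show π (lab v) = b
        rw [h3, Equiv.apply_symm_apply]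
    · intro u hu v hv huv
      exact hP2 _ _ ((hH _ _).2 ⟨u, hu, v, hv, rfl, rfl, huv⟩)
    · rw [hkf, if_pos rfl]
      exact hK4
    · rw [hdsum]
      omega
  · have ht3 := ht2 hK4
    obtain ⟨lab, hinj, hlt⟩ := as6_lab S 6 (by omega) (by norm_num)
    obtain ⟨H, hH, hHc⟩ := as6_H G' S lab hinj
    obtain ⟨π, hπ, hor⟩ := hcert.2.1 H
      (fun a b hab => by
        obtain ⟨u, hu, v, hv, h2, h3, h5⟩ := (hH _ _).1 hab
        rw [← h2, ← h3]
        exact ⟨hlt u hu, hlt v hv⟩) ((tH_le_nt G' S lab hinj H hH).trans ht')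
    rcases hor with hor | hor
    swap
    · refine special_excludes hcert.2.2 G' S (fun v => π (lab v)) ?_ ?_ hdeg ?_ hK5 ?_ ht' hnc'
      · intro u hu v hv huv
        exact hinj hu hv (π.injective huv)
      · intro v hv
        exact hπ _ (hlt v hv)
      · intro a b
        constructor
        · intro hab
          have h1 : H.Adj (π.symm a) (π.symm b) := (hor _ _).2 (by
            rw [Equiv.apply_symm_apply, Equiv.apply_symm_apply]
            exact hab)
          obtain ⟨u, hu, v, hv, h2, h3, h5⟩ := (hH _ _).1 h1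
          refine ⟨u, hu, v, hv, ?_, ?_, h5⟩
          · show π (lab u) = a
            rw [h2, Equiv.apply_symm_apply]
          · show π (lab v) = b
            rw [h3, Equiv.apply_symm_apply]
        · rintro ⟨u, hu, v, hv, h2, h3, h5⟩
          rw [← h2, ← h3]
          exact (hor _ _).1 ((hH _ _).2 ⟨u, hu, v, hv, rfl, rfl, h5⟩)
      · rw [hdsum]
        omega
    obtain ⟨P, Kg, hkf, hx3, hg, hP1, hP2⟩ := hor
    refine good_excludes G' P Kg 30 hg S (fun v => π (lab v)) ?_ ?_ hdeg ?_ ?_ ?_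
      (fun h => by rw [hx3] at h; cases h) ?_ ht' hnc'
    · intro u hu v hv huv
      exact hinj hu hv (π.injective huv)
    · intro v hv
      unfold Par.Lab
      rw [hkf, if_neg (by decide)]
      have h1 : ∀ a : Fin 8, a.val < 6 → a ∈ ({0, 1, 2, 3, 4, 5} : Finset (Fin 8)) := by decide
      exact h1 _ (hπ _ (hlt v hv))
    · intro a b hab
      have h1 : P.H.Adj (π (π.symm a)) (π (π.symm b)) := by
        rw [Equiv.apply_symm_apply, Equiv.apply_symm_apply]
        exact hab
      obtain ⟨u, hu, v, hv, h2, h3, h5⟩ := (hH _ _).1 (hP1 _ _ h1)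
      refine ⟨u, hu, v, hv, ?_, ?_, h5⟩
      · show π (lab u) = a
        rw [h2, Equiv.apply_symm_apply]
      · show π (lab v) = b
        rw [h3, Equiv.apply_symm_apply]
    · intro u hu v hv huv
      exact hP2 _ _ ((hH _ _).2 ⟨u, hu, v, hv, rfl, rfl, huv⟩)
    · rw [hkf, if_neg (by decide)]
      exact hK5
    · rw [hdsum]
      omega

end Pool.Agent.MP_528dc0_co

end
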