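import Mathlib
import Pool.Agent.MP_528dc0_co.Disch
import Pool.Agent.MP_528dc0_co.Enc
import Pool.Agent.MP_528dc0_co.EncC
import Pool.Agent.MP_528dc0_co.EncD
import Pool.Agent.MP_528dc0_co.EncE
import Pool.Agent.MP_528dc0_co.Enum
import Pool.Agent.MP_528dc0_co.MainT

/-!
# Soundness of the check, and what the data files provide
-/

section

open Finset

namespace Pool.Agent.MP_528dc0_co

open Eng (Lst It)

theorem ef2_andB (a b : Bool) : Eng.andB a b = true ↔ a = true ∧ b = true := by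
  cases a <;> cases b <;> simp [Eng.andB]

theorem ef2_pow2 (n : ℕ) : Eng.pow2 n = 2 ^ n := by
  show 1 <<< n = 2 ^ n
  rw [Nat.shiftLeft_eq, Nat.one_mul]

theorem ef2_part (e : EP) (b1 b2 : List (ℕ × ℕ)) (b3 : List ℕ) (st : List It) :
    e.Part b1 b2 b3 [] st := by
  constructor <;> simp

theorem ok_of_chk (kf x3 h kg s lam tau B T : ℕ) (codes : List ℕ)
    (hc : Eng.chk kf x3 h kg s lam tau B T codes = true) :
    EP.Ok ⟨kf, x3, h, s, lam, tau, codes⟩ := by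
  rw [chk_eq kf x3 h kg s lam tau B T codes _ rfl] at hc
  simp only [ef2_andB, Nat.ble_eq] at hc
  obtain ⟨h1, h2, h3, h4, h5, h6, -⟩ := hc
  rw [ef2_pow2] at h2 h3
  exact ⟨h1, h2, h3, h4, h5, h6⟩

/-- **Soundness of the check.** `chk_eq`; `Eng.andB a b = true ↔ a = true ∧ b = true`, `Nat.ble a b = true ↔ a ≤ b`. `goC` is
`run b1 b2 b3 100000 st0 []` (`appAll_eq`, `fsts_eq`; `ls s [] = ⟨0, 0, 0⟩`); `run_closed` with `D = []` (`Part` for
`D = []` is trivial: all hypotheses `… ∈ []`), `st0_good`, `b1_form`, `b2_form`, `b3_form`; `closed_of` with `bas_of`; `prop_sound`;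
budget: `nE_eq`, `nT_eq`, `M_eq`. -/
theorem good_of_chk (kf x3 h kg s lam tau B T : ℕ) (codes : List ℕ)
    (hc : Eng.chk kf x3 h kg s lam tau B T codes = true) :
    (EP.par ⟨kf, x3, h, s, lam, tau, codes⟩).Good (mkH kg) B T := by
  have hok := ok_of_chk kf x3 h kg s lam tau B T codes hc
  obtain ⟨e, he⟩ : ∃ e : EP, e = ⟨kf, x3, h, s, lam, tau, codes⟩ := ⟨_, rfl⟩
  rw [chk_eq kf x3 h kg s lam tau B T codes e he] at hc
  rw [← he] at hok ⊢
  have hlam : e.lam = lam := by rw [he]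
  have htau : e.tau = tau := by rw [he]
  have hh : e.h = h := by rw [he]
  simp only [ef2_andB, Nat.ble_eq] at hc
  obtain ⟨-, -, -, -, -, -, hb, hp, hz, hg⟩ := hc
  have hls : ∀ s, e.ls s [] = ⟨0, 0, 0⟩ := fun s => rfl
  have hrun : e.run e.b1 e.b2 e.b3 100000 e.st0 [] = true := by
    unfold EP.run
    simp only [hls]
    unfold EP.goC at hg
    rw [appAll_eq, appAll_eq, fsts_eq] at hg
    exact hg
  obtain ⟨D, -, hD2, hG, hP⟩ := run_closed e hok e.b1 e.b2 e.b3 (b1_form e hok) (b2_form e hok)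
    (b3_form e hok) 100000 e.st0 [] hrun (st0_good e hok) (by simp) (ef2_part e _ _ _ _)
  have hB := bas_of e hok hz D hD2
  have hcl := closed_of e hok e.b1 e.b2 e.b3 D hG hP hB
  refine ⟨⟨_, _, _, _, _, _, _, _, _, hcl⟩, fun k a b hab => prop_sound e hok kg hp k a b hab, ?_⟩
  rw [nE_eq, nT_eq, M_eq] at hb
  have hb' : lam * B + T * tau + 1 ≤ (∑ k : Fin e.K, e.w k) +
      (2 * lam * eH (mkH h) univ + tau * Par.tH (mkH h)) := hb
  show e.lam * B + T * e.tau < (∑ k : Fin e.K, e.w k) + 2 * e.lam * eH (mkH e.h) univ +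
    e.tau * Par.tH (mkH e.h)
  rw [hlam, htau, hh]
  omega

end Pool.Agent.MP_528dc0_co

end

section

open Finset

namespace Pool.Agent.MP_528dc0_co

/-- What the data files provide: lists of pairs with certificates, the complete graphs of tables; `l8`, `l6`: pairs with certificates; `x8`, `x6`: pairs
`(H, K)` where `H` has at least ten triangles; the special graph has the mask `4608`. -/
structure Data (l8 x8 l6 x6 : List (ℕ × ℕ)) : Prop where
  b8 : ∀ p ∈ l8 ++ x8, p.1 < 2 ^ 28 ∧ p.2 < 2 ^ 28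
  b6 : ∀ p ∈ l6 ++ [(4608, 4608)] ++ x6, p.1 < 2 ^ 28 ∧ p.2 < 2 ^ 28
  c8 : ∀ p ∈ l8, Crt 1 0 40 9 p.1 p.2
  c6 : ∀ p ∈ l6, Crt 0 0 30 9 p.1 p.2
  t8 : ∀ p ∈ x8, 10 ≤ Eng.nT p.1
  t6 : ∀ p ∈ x6, 10 ≤ Eng.nT p.1
  v8 : CovBy 1 8 (pack (l8 ++ x8)) (l8 ++ x8).length
  v6 : CovBy 0 6 (pack (l6 ++ [(4608, 4608)] ++ x6)) (l6 ++ [(4608, 4608)] ++ x6).length

theorem cv8_H0 : ∀ a b : Fin 8, (mkH 4608).Adj a b ↔ H0.Adj a b := by
  have h : ∀ a b : Fin 8, Eng.adjn 4608 a.val b.val = 1 ↔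
      ((a = 2 ∧ b = 5) ∨ (a = 5 ∧ b = 2) ∨ (a = 3 ∧ b = 4) ∨ (a = 4 ∧ b = 3)) := by
    decide
  exact h

theorem cv8_crt (kf B T : ℕ) (p : ℕ × ℕ) (h : Crt kf 0 B T p.1 p.2) :
    ∃ P : Par, P.kf = decide (kf = 1) ∧ P.x3 = false ∧ P.H = mkH p.1 ∧ P.Good (mkH p.2) B T := by
  obtain ⟨s, lam, tau, codes, hc⟩ := h
  refine ⟨EP.par ⟨kf, 0, p.1, s, lam, tau, codes⟩, rfl, ?_, rfl,
    good_of_chk kf 0 p.1 p.2 s lam tau B T codes hc⟩
  show decide ((0 : ℕ) = 1 ∧ kf = 0) = false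
  rw [decide_eq_false_iff_not]
  rintro ⟨h1, -⟩
  omega

/-- `exists_mask`, `pack_get`, `good_of_chk` (EF2) with `P = EP.par …` (`P.H = mkH h` by definition), `nT_eq`, `tH_le`. For the second part: `mask_lt` with
`n = 6`; `π` fixes `6` and `7`, so it maps `{0, …, 5}` to itself. `mkH 4608 = H0` (`decide` on the 64 pairs after unfolding). -/
theorem all8 (l8 x8 l6 x6 : List (ℕ × ℕ)) (hd : Data l8 x8 l6 x6) (H : SimpleGraph (Fin 8))
    (hH : H.CliqueFree 4) (ht : Par.tH H ≤ 9) :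
    ∃ π : Equiv.Perm (Fin 8), ∃ P : Par, ∃ Kg : SimpleGraph (Fin 8),
      P.kf = true ∧ P.x3 = false ∧ P.Good Kg 40 9 ∧
      (∀ a b, P.H.Adj (π a) (π b) → H.Adj a b) ∧ ∀ a b, H.Adj a b → Kg.Adj (π a) (π b) := by
  obtain ⟨h, hh, rfl⟩ := exists_mask H
  obtain ⟨c, hc, π, hπ, hb⟩ := hd.v8 h hh (fun _ => hH)
  obtain ⟨p, hp, hp1, hp2, -⟩ := pack_get _ hd.b8 c hc
  rw [hp1, hp2] at hb
  rcases List.mem_append.1 hp with hp | hp
  · obtain ⟨P, h1, h2, h3, h4⟩ := cv8_crt 1 40 9 p (hd.c8 p hp)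
    refine ⟨π, P, mkH p.2, ?_, h2, h4, ?_, ?_⟩
    · rw [h1]; rfl
    · intro a b hab
      rw [h3] at hab
      exact (hb a b).1 hab
    · exact fun a b hab => (hb a b).2 hab
  · exfalso
    have h1 := hd.t8 p hp
    rw [nT_eq] at h1
    have h2 := tH_le p.1 p.2 h π hb
    omega

theorem all6 (l8 x8 l6 x6 : List (ℕ × ℕ)) (hd : Data l8 x8 l6 x6) (H : SimpleGraph (Fin 8))
    (hH : ∀ a b, H.Adj a b → a.val < 6 ∧ b.val < 6) (ht : Par.tH H ≤ 9) :
    ∃ π : Equiv.Perm (Fin 8), (∀ a, a.val < 6 → (π a).val < 6) ∧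
    ((∃ P : Par, ∃ Kg : SimpleGraph (Fin 8), P.kf = false ∧ P.x3 = false ∧ P.Good Kg 30 9 ∧
      (∀ a b, P.H.Adj (π a) (π b) → H.Adj a b) ∧ ∀ a b, H.Adj a b → Kg.Adj (π a) (π b)) ∨
    (∀ a b, H.Adj a b ↔ H0.Adj (π a) (π b))) := by
  obtain ⟨h, hh, rfl⟩ := exists_mask H
  have hh6 : h < 2 ^ LL 6 := mask_lt 6 h (by norm_num) hh hH
  obtain ⟨c, hc, π, hπ, hb⟩ := hd.v6 h hh6 (fun h0 => absurd h0 (by norm_num))
  obtain ⟨p, hp, hp1, hp2, -⟩ := pack_get _ hd.b6 c hc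
  rw [hp1, hp2] at hb
  have hπ6 : ∀ a : Fin 8, a.val < 6 → (π a).val < 6 := by
    intro a ha
    by_contra hcon
    have h1 : π (π a) = π a := hπ (π a) (by omega)
    have h2 := π.injective h1
    rw [h2] at hcon
    exact hcon ha
  refine ⟨π, hπ6, ?_⟩
  rcases List.mem_append.1 hp with hp | hp
  · rcases List.mem_append.1 hp with hp | hp
    · left
      obtain ⟨P, h1, h2, h3, h4⟩ := cv8_crt 0 30 9 p (hd.c6 p hp)
      refine ⟨P, mkH p.2, ?_, h2, h4, ?_, ?_⟩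
      · rw [h1]; rfl
      · intro a b hab
        rw [h3] at hab
        exact (hb a b).1 hab
      · exact fun a b hab => (hb a b).2 hab
    · right
      rw [List.mem_singleton] at hp
      subst hp
      intro a b
      rw [← cv8_H0]
      exact ⟨(hb a b).2, (hb a b).1⟩
  · exfalso
    have h1 := hd.t6 p hp
    rw [nT_eq] at h1
    have h2 := tH_le p.1 p.2 h π hb
    omega

end Pool.Agent.MP_528dc0_co

end
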