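import Mathlib
import Pool.Agent.MP_528dc0_co.Fin0
import Pool.Agent.MP_528dc0_co.DC6
import Pool.Agent.MP_528dc0_co.DCS
import Pool.Agent.MP_528dc0_co.DV0
import Pool.Agent.MP_528dc0_co.DV1
import Pool.Agent.MP_528dc0_co.DV2
import Pool.Agent.MP_528dc0_co.DV3
import Pool.Agent.MP_528dc0_co.DV4
import Pool.Agent.MP_528dc0_co.DK01
import Pool.Agent.MP_528dc0_co.DK02
import Pool.Agent.MP_528dc0_co.DK03
import Pool.Agent.MP_528dc0_co.DK04
import Pool.Agent.MP_528dc0_co.DK05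
import Pool.Agent.MP_528dc0_co.DK06
import Pool.Agent.MP_528dc0_co.DK07
import Pool.Agent.MP_528dc0_co.DK08
import Pool.Agent.MP_528dc0_co.DK09
import Pool.Agent.MP_528dc0_co.DK10
import Pool.Agent.MP_528dc0_co.DK11
import Pool.Agent.MP_528dc0_co.DK12
import Pool.Agent.MP_528dc0_co.DK13
import Pool.Agent.MP_528dc0_co.DK14
import Pool.Agent.MP_528dc0_co.DK15
import Pool.Agent.MP_528dc0_co.DK16
import Pool.Agent.MP_528dc0_co.DK17
import Pool.Agent.MP_528dc0_co.DK18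
import Pool.Agent.MP_528dc0_co.DK19
import Pool.Agent.MP_528dc0_co.DK20
import Pool.Agent.MP_528dc0_co.DK21
import Pool.Agent.MP_528dc0_co.DK22
import Pool.Agent.MP_528dc0_co.DK23
import Pool.Agent.MP_528dc0_co.DK24
import Pool.Agent.MP_528dc0_co.DK25
import Pool.Agent.MP_528dc0_co.DK26
import Pool.Agent.MP_528dc0_co.DK27
import Pool.Agent.MP_528dc0_co.DK28
import Pool.Agent.MP_528dc0_co.DK29
import Pool.Agent.MP_528dc0_co.DK30
import Pool.Agent.MP_528dc0_co.DK31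
import Pool.Agent.MP_528dc0_co.DK32
import Pool.Agent.MP_528dc0_co.DK33
import Pool.Agent.MP_528dc0_co.DK34
import Pool.Agent.MP_528dc0_co.DK35
import Pool.Agent.MP_528dc0_co.DK36
import Pool.Agent.MP_528dc0_co.DK37
import Pool.Agent.MP_528dc0_co.DK38
import Pool.Agent.MP_528dc0_co.DK39
import Pool.Agent.MP_528dc0_co.DK40
import Pool.Agent.MP_528dc0_co.DK41
import Pool.Agent.MP_528dc0_co.DK42
import Pool.Agent.MP_528dc0_co.DK43
import Pool.Agent.MP_528dc0_co.DK44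
import Pool.Agent.MP_528dc0_co.DK45
import Pool.Agent.MP_528dc0_co.DK46
import Pool.Agent.MP_528dc0_co.DK47
import Pool.Agent.MP_528dc0_co.DK48
import Pool.Agent.MP_528dc0_co.DK49
import Pool.Agent.MP_528dc0_co.DK50
import Pool.Agent.MP_528dc0_co.DK51
import Pool.Agent.MP_528dc0_co.DK52
import Pool.Agent.MP_528dc0_co.DK53
import Pool.Agent.MP_528dc0_co.DK54
import Pool.Agent.MP_528dc0_co.DK55
import Pool.Agent.MP_528dc0_co.DK56

/-!
# Assembly of the certificates and of the enumeration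
-/

set_option maxRecDepth 100000

open Finset

namespace Pool.Agent.MP_528dc0_co

open Dat

/-- one step of the enumeration: from the graphs with `n` vertices to those with `n + 1` -/
theorem fin_step (kf n L len TAB : ℕ) (G G' : List ℕ) (E : List (ℕ × List ℕ)) (hkf : kf ≤ 1)
    (hn : n ≤ 7) (hL : LL n = L) (hr : RepsOf kf n G) (hlt : ∀ g ∈ G, g < 2 ^ L)
    (hE : E.map Prod.fst = G) (hk : Cv.chkL kf n L TAB len (Cv.tk n Cv.XA) E = true)
    (hp : pack (G'.map (fun g => (g, g))) = TAB) (hl : G'.length = len)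
    (hb : ∀ g ∈ G', g < 2 ^ 28) : RepsOf kf (n + 1) G' := by
  subst hL
  have hc : CovBy kf (n + 1) TAB len := cov_step kf n TAB len G hkf hn hr hlt
    (fun g hg => chkL_sound kf n _ TAB len _ E hk g (hE ▸ hg))
  subst hp
  subst hl
  exact reps_of_cov kf (n + 1) G' hb hc

theorem r1_0 : RepsOf 1 0 G1_0 := reps_zero 1

theorem r1_1 : RepsOf 1 1 G1_1 :=
  fin_step 1 0 0 1 T1_1 G1_0 G1_1 E1_0 (by norm_num) (by norm_num) rfl r1_0
    (by decide +kernel) (by decide +kernel) k1_0 (by decide +kernel) (by decide +kernel)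
    (by decide +kernel)

theorem r1_2 : RepsOf 1 2 G1_2 :=
  fin_step 1 1 0 2 T1_2 G1_1 G1_2 E1_1 (by norm_num) (by norm_num) rfl r1_1
    (by decide +kernel) (by decide +kernel) k1_1 (by decide +kernel) (by decide +kernel)
    (by decide +kernel)

theorem r1_3 : RepsOf 1 3 G1_3 :=
  fin_step 1 2 1 4 T1_3 G1_2 G1_3 E1_2 (by norm_num) (by norm_num) rfl r1_2
    (by decide +kernel) (by decide +kernel) k1_2 (by decide +kernel) (by decide +kernel)
    (by decide +kernel)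

theorem r1_4 : RepsOf 1 4 G1_4 :=
  fin_step 1 3 3 10 T1_4 G1_3 G1_4 E1_3 (by norm_num) (by norm_num) rfl r1_3
    (by decide +kernel) (by decide +kernel) k1_3 (by decide +kernel) (by decide +kernel)
    (by decide +kernel)

theorem r1_5 : RepsOf 1 5 G1_5 :=
  fin_step 1 4 6 29 T1_5 G1_4 G1_5 E1_4 (by norm_num) (by norm_num) rfl r1_4
    (by decide +kernel) (by decide +kernel) k1_4 (by decide +kernel) (by decide +kernel)
    (by decide +kernel)

theorem r1_6 : RepsOf 1 6 G1_6 :=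
  fin_step 1 5 10 120 T1_6 G1_5 G1_6 E1_5 (by norm_num) (by norm_num) rfl r1_5
    (by decide +kernel) (by decide +kernel) k1_5 (by decide +kernel) (by decide +kernel)
    (by decide +kernel)

theorem r1_7 : RepsOf 1 7 G1_7 :=
  fin_step 1 6 15 685 T1_7 G1_6 G1_7 E1_6 (by norm_num) (by norm_num) rfl r1_6
    (by decide +kernel) (by decide +kernel) k1_6 (by decide +kernel) (by decide +kernel)
    (by decide +kernel)

theorem r0_0 : RepsOf 0 0 G0_0 := reps_zero 0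

theorem r0_1 : RepsOf 0 1 G0_1 :=
  fin_step 0 0 0 1 T0_1 G0_0 G0_1 E0_0 (by norm_num) (by norm_num) rfl r0_0
    (by decide +kernel) (by decide +kernel) k0_0 (by decide +kernel) (by decide +kernel)
    (by decide +kernel)

theorem r0_2 : RepsOf 0 2 G0_2 :=
  fin_step 0 1 0 2 T0_2 G0_1 G0_2 E0_1 (by norm_num) (by norm_num) rfl r0_1
    (by decide +kernel) (by decide +kernel) k0_1 (by decide +kernel) (by decide +kernel)
    (by decide +kernel)

theorem r0_3 : RepsOf 0 3 G0_3 :=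
  fin_step 0 2 1 4 T0_3 G0_2 G0_3 E0_2 (by norm_num) (by norm_num) rfl r0_2
    (by decide +kernel) (by decide +kernel) k0_2 (by decide +kernel) (by decide +kernel)
    (by decide +kernel)

theorem r0_4 : RepsOf 0 4 G0_4 :=
  fin_step 0 3 3 11 T0_4 G0_3 G0_4 E0_3 (by norm_num) (by norm_num) rfl r0_3
    (by decide +kernel) (by decide +kernel) k0_3 (by decide +kernel) (by decide +kernel)
    (by decide +kernel)

theorem r0_5 : RepsOf 0 5 G0_5 :=
  fin_step 0 4 6 34 T0_5 G0_4 G0_5 E0_4 (by norm_num) (by norm_num) rfl r0_4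
    (by decide +kernel) (by decide +kernel) k0_4 (by decide +kernel) (by decide +kernel)
    (by decide +kernel)

/-- the pairs of graphs of the certificates -/
def l8 : List (ℕ × ℕ) :=
  LDK01 ++ (LDK02 ++ (LDK03 ++ (LDK04 ++ (LDK05 ++ (LDK06 ++ (LDK07 ++ (LDK08 ++ (LDK09 ++ (
  LDK10 ++ (LDK11 ++ (LDK12 ++ (LDK13 ++ (LDK14 ++ (LDK15 ++ (LDK16 ++ (LDK17 ++ (LDK18 ++ (
  LDK19 ++ (LDK20 ++ (LDK21 ++ (LDK22 ++ (LDK23 ++ (LDK24 ++ (LDK25 ++ (LDK26 ++ (LDK27 ++ (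
  LDK28 ++ (LDK29 ++ (LDK30 ++ (LDK31 ++ (LDK32 ++ (LDK33 ++ (LDK34 ++ (LDK35 ++ (LDK36 ++ (
  LDK37 ++ (LDK38 ++ (LDK39 ++ (LDK40 ++ (LDK41 ++ (LDK42 ++ (LDK43 ++ (LDK44 ++ (LDK45 ++ (
  LDK46 ++ (LDK47 ++ (LDK48 ++ (LDK49 ++ (LDK50 ++ (LDK51 ++ (LDK52 ++ (LDK53 ++ (LDK54 ++ (
  LDK55 ++ (LDK56)))))))))))))))))))))))))))))))))))))))))))))))))))))))

/-- the graphs with at least ten triangles -/
def x8 : List (ℕ × ℕ) := [
  (1981279, 268435455), (1014623, 268435455), (100793183, 268435455), (12269407, 268435455),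
  (14268255, 268435455), (27899743, 268435455), (29833055, 268435455), (30292831, 268435455),
  (38206303, 268435455), (47070047, 268435455), (60439391, 268435455), (74037087, 268435455),
  (119159647, 268435455), (146422623, 268435455), (159808351, 268435455), (169999199, 268435455),
  (171588447, 268435455), (204060511, 268435455), (210450271, 268435455), (210647903, 268435455),
  (236600159, 268435455), (64907615, 268435455), (182007647, 268435455), (203881311, 268435455)]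

/-- the graphs with at least ten triangles, six vertices -/
def x6 : List (ℕ × ℕ) := [(1023, 32767), (14334, 32767), (29694, 32767)]

theorem c8 : ∀ p ∈ l8, Crt 1 0 40 9 p.1 p.2 :=
  List.forall_mem_append.2 ⟨allDK01,
  List.forall_mem_append.2 ⟨allDK02,
  List.forall_mem_append.2 ⟨allDK03,
  List.forall_mem_append.2 ⟨allDK04,
  List.forall_mem_append.2 ⟨allDK05,
  List.forall_mem_append.2 ⟨allDK06,
  List.forall_mem_append.2 ⟨allDK07,
  List.forall_mem_append.2 ⟨allDK08,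
  List.forall_mem_append.2 ⟨allDK09,
  List.forall_mem_append.2 ⟨allDK10,
  List.forall_mem_append.2 ⟨allDK11,
  List.forall_mem_append.2 ⟨allDK12,
  List.forall_mem_append.2 ⟨allDK13,
  List.forall_mem_append.2 ⟨allDK14,
  List.forall_mem_append.2 ⟨allDK15,
  List.forall_mem_append.2 ⟨allDK16,
  List.forall_mem_append.2 ⟨allDK17,
  List.forall_mem_append.2 ⟨allDK18,
  List.forall_mem_append.2 ⟨allDK19,
  List.forall_mem_append.2 ⟨allDK20,
  List.forall_mem_append.2 ⟨allDK21,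
  List.forall_mem_append.2 ⟨allDK22,
  List.forall_mem_append.2 ⟨allDK23,
  List.forall_mem_append.2 ⟨allDK24,
  List.forall_mem_append.2 ⟨allDK25,
  List.forall_mem_append.2 ⟨allDK26,
  List.forall_mem_append.2 ⟨allDK27,
  List.forall_mem_append.2 ⟨allDK28,
  List.forall_mem_append.2 ⟨allDK29,
  List.forall_mem_append.2 ⟨allDK30,
  List.forall_mem_append.2 ⟨allDK31,
  List.forall_mem_append.2 ⟨allDK32,
  List.forall_mem_append.2 ⟨allDK33,
  List.forall_mem_append.2 ⟨allDK34,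
  List.forall_mem_append.2 ⟨allDK35,
  List.forall_mem_append.2 ⟨allDK36,
  List.forall_mem_append.2 ⟨allDK37,
  List.forall_mem_append.2 ⟨allDK38,
  List.forall_mem_append.2 ⟨allDK39,
  List.forall_mem_append.2 ⟨allDK40,
  List.forall_mem_append.2 ⟨allDK41,
  List.forall_mem_append.2 ⟨allDK42,
  List.forall_mem_append.2 ⟨allDK43,
  List.forall_mem_append.2 ⟨allDK44,
  List.forall_mem_append.2 ⟨allDK45,
  List.forall_mem_append.2 ⟨allDK46,
  List.forall_mem_append.2 ⟨allDK47,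
  List.forall_mem_append.2 ⟨allDK48,
  List.forall_mem_append.2 ⟨allDK49,
  List.forall_mem_append.2 ⟨allDK50,
  List.forall_mem_append.2 ⟨allDK51,
  List.forall_mem_append.2 ⟨allDK52,
  List.forall_mem_append.2 ⟨allDK53,
  List.forall_mem_append.2 ⟨allDK54,
  List.forall_mem_append.2 ⟨allDK55,
  allDK56⟩⟩⟩⟩⟩⟩⟩⟩⟩⟩⟩⟩⟩⟩⟩⟩⟩⟩⟩⟩⟩⟩⟩⟩⟩⟩⟩⟩⟩⟩⟩⟩⟩⟩⟩⟩⟩⟩⟩⟩⟩⟩⟩⟩⟩⟩⟩⟩⟩⟩⟩⟩⟩⟩⟩

theorem c6 : ∀ p ∈ LDC6, Crt 0 0 30 9 p.1 p.2 := allDC6

theorem g7 :
  E7_1_0.map Prod.fst ++ (E7_1_1.map Prod.fst ++ (E7_1_2.map Prod.fst ++ (E7_2_0.map Prod.fst ++ (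
  E7_2_1.map Prod.fst ++ (E7_2_2.map Prod.fst ++ (E7_2_3.map Prod.fst ++ (E7_3_0.map Prod.fst ++ (
  E7_3_1.map Prod.fst ++ (E7_3_2.map Prod.fst ++ (E7_4_0.map Prod.fst ++ (E7_4_1.map Prod.fst ++ (
  E7_4_2.map Prod.fst)))))))))))) = G1_7 := by
  decide +kernel

theorem e7 : ∀ g ∈
  E7_1_0.map Prod.fst ++ (E7_1_1.map Prod.fst ++ (E7_1_2.map Prod.fst ++ (E7_2_0.map Prod.fst ++ (
  E7_2_1.map Prod.fst ++ (E7_2_2.map Prod.fst ++ (E7_2_3.map Prod.fst ++ (E7_3_0.map Prod.fst ++ (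
  E7_3_1.map Prod.fst ++ (E7_3_2.map Prod.fst ++ (E7_4_0.map Prod.fst ++ (E7_4_1.map Prod.fst ++ (
  E7_4_2.map Prod.fst)))))))))))),
    ∃ es, Cv.chkG 1 7 21 TAB8 2936 (Cv.tk 7 Cv.XA) g es = true :=
  List.forall_mem_append.2 ⟨chkL_sound 1 7 21 TAB8 2936 _ _ k7_1_0,
  List.forall_mem_append.2 ⟨chkL_sound 1 7 21 TAB8 2936 _ _ k7_1_1,
  List.forall_mem_append.2 ⟨chkL_sound 1 7 21 TAB8 2936 _ _ k7_1_2,
  List.forall_mem_append.2 ⟨chkL_sound 1 7 21 TAB8 2936 _ _ k7_2_0,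
  List.forall_mem_append.2 ⟨chkL_sound 1 7 21 TAB8 2936 _ _ k7_2_1,
  List.forall_mem_append.2 ⟨chkL_sound 1 7 21 TAB8 2936 _ _ k7_2_2,
  List.forall_mem_append.2 ⟨chkL_sound 1 7 21 TAB8 2936 _ _ k7_2_3,
  List.forall_mem_append.2 ⟨chkL_sound 1 7 21 TAB8 2936 _ _ k7_3_0,
  List.forall_mem_append.2 ⟨chkL_sound 1 7 21 TAB8 2936 _ _ k7_3_1,
  List.forall_mem_append.2 ⟨chkL_sound 1 7 21 TAB8 2936 _ _ k7_3_2,
  List.forall_mem_append.2 ⟨chkL_sound 1 7 21 TAB8 2936 _ _ k7_4_0,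
  List.forall_mem_append.2 ⟨chkL_sound 1 7 21 TAB8 2936 _ _ k7_4_1,
  chkL_sound 1 7 21 TAB8 2936 _ _ k7_4_2⟩⟩⟩⟩⟩⟩⟩⟩⟩⟩⟩⟩

theorem p8 : pack (l8 ++ x8) = TAB8 := by decide +kernel
theorem n8 : (l8 ++ x8).length = 2936 := by decide +kernel
theorem p6 : pack (LDC6 ++ [(4608, 4608)] ++ x6) = TAB6 := by decide +kernel
theorem n6 : (LDC6 ++ [(4608, 4608)] ++ x6).length = 150 := by decide +kernel

theorem v8 : CovBy 1 8 (pack (l8 ++ x8)) (l8 ++ x8).length := by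
  rw [p8, n8]
  exact cov_step 1 7 TAB8 2936 G1_7 (by norm_num) (by norm_num) r1_7 (by decide +kernel)
    (fun g hg => e7 g (g7 ▸ hg))

theorem v6 : CovBy 0 6 (pack (LDC6 ++ [(4608, 4608)] ++ x6))
    (LDC6 ++ [(4608, 4608)] ++ x6).length := by
  rw [p6, n6]
  exact cov_step 0 5 TAB6 150 G0_5 (by norm_num) (by norm_num) r0_5 (by decide +kernel)
    (fun g hg => chkL_sound 0 5 10 TAB6 150 _ E0_5 k0_5 g
      ((by decide +kernel : G0_5 = E0_5.map Prod.fst) ▸ hg))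

theorem dat : Data l8 x8 LDC6 x6 where
  b8 := by decide +kernel
  b6 := by decide +kernel
  c8 := c8
  c6 := c6
  t8 := by decide +kernel
  t6 := by decide +kernel
  v8 := v8
  v6 := v6

theorem h0_le : H0 ≤ mkH 4608 := fun a b h => (cv8_H0 a b).2 h
theorem le_h0 : mkH 4608 ≤ H0 := fun a b h => (cv8_H0 a b).1 h

theorem spec : SpecCert := by
  refine ⟨⟨EP.par ⟨0, 1, 4608, 11, 11, 77, KsX⟩, mkH 4608, rfl, rfl,
    good_of_chk 0 1 4608 4608 11 11 77 30 9 KsX sX, le_h0, h0_le⟩, ?_⟩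
  intro p hp
  simp only [List.mem_cons, List.not_mem_nil, or_false] at hp
  rcases hp with rfl | rfl | rfl
  · exact ⟨EP.par ⟨0, 0, 4608, 9, 3, 15, KsY01⟩, mkH 4608, rfl, rfl,
      good_of_chk 0 0 4608 4608 9 3 15 24 2 KsY01 sY01, le_h0, h0_le,
      (by decide +kernel : ∀ k, (EP.par ⟨0, 0, 4608, 9, 3, 15, KsY01⟩).φ k 0 =
        (EP.par ⟨0, 0, 4608, 9, 3, 15, KsY01⟩).φ k 1)⟩
  · exact ⟨EP.par ⟨0, 0, 4608, 9, 3, 15, KsY02⟩, mkH 4608, rfl, rfl,
      good_of_chk 0 0 4608 4608 9 3 15 24 2 KsY02 sY02, le_h0, h0_le,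
      (by decide +kernel : ∀ k, (EP.par ⟨0, 0, 4608, 9, 3, 15, KsY02⟩).φ k 0 =
        (EP.par ⟨0, 0, 4608, 9, 3, 15, KsY02⟩).φ k 2)⟩
  · exact ⟨EP.par ⟨0, 0, 4608, 9, 3, 15, KsY23⟩, mkH 4608, rfl, rfl,
      good_of_chk 0 0 4608 4608 9 3 15 24 2 KsY23 sY23, le_h0, h0_le,
      (by decide +kernel : ∀ k, (EP.par ⟨0, 0, 4608, 9, 3, 15, KsY23⟩).φ k 2 =
        (EP.par ⟨0, 0, 4608, 9, 3, 15, KsY23⟩).φ k 3)⟩

theorem allCert : AllCert := ⟨all8 _ _ _ _ dat, all6 _ _ _ _ dat, spec⟩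

/-- **A toroidal graph with at most nine triangles is 4-colourable.** -/
theorem colorable_four_of_nine {V : Type} [Fintype V] (G : SimpleGraph V) (h : Toroidal G)
    (ht : nt G ≤ 9) : G.Colorable 4 :=
  main_of_cert allCert G h ht

end Pool.Agent.MP_528dc0_co
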